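import Mathlib

/-!
# The scale (Lemma 2): averages over permutations, set functions with decreasing increments
-/

namespace LINS

open Finset

variable {n : ℕ}

/-- The first `m` elements of the permutation. -/
def fs (π : Equiv.Perm (Fin n)) (m : ℕ) : Finset (Fin n) :=
  univ.filter (fun v => ((π.symm v : Fin n) : ℕ) < m)

theorem mem_fs {π : Equiv.Perm (Fin n)} {m : ℕ} {v : Fin n} :
    v ∈ fs π m ↔ ((π.symm v : Fin n) : ℕ) < m := by simp [fs]

theorem fs_succ (π : Equiv.Perm (Fin n)) (m : ℕ) (hm : m < n) :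
    fs π (m + 1) = insert (π ⟨m, hm⟩) (fs π m) := by
  ext v
  rw [mem_insert, mem_fs, mem_fs]
  constructor
  · intro h
    rcases Nat.lt_succ_iff_lt_or_eq.mp h with h | h
    · exact Or.inr h
    · left
      rw [← Equiv.symm_apply_eq]
      exact Fin.ext h
  · rintro (h | h)
    · subst h
      simp
    · omega

theorem fs_swap (π : Equiv.Perm (Fin n)) (m : ℕ) (i j : Fin n) (hi : m ≤ i) (hj : m ≤ j) :
    fs (π * Equiv.swap i j) m = fs π m := by
  ext v
  rw [mem_fs, mem_fs]
  have e : (π * Equiv.swap i j).symm v = Equiv.swap i j (π.symm v) := by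
    rw [Equiv.symm_apply_eq]
    simp [Equiv.Perm.mul_apply]
  rw [e]
  by_cases h1 : π.symm v = i
  · rw [h1, Equiv.swap_apply_left]
    omega
  · by_cases h2 : π.symm v = j
    · rw [h2, Equiv.swap_apply_right]
      omega
    · rw [Equiv.swap_apply_of_ne_of_ne h1 h2]

theorem card_fs (π : Equiv.Perm (Fin n)) (m : ℕ) (hm : m ≤ n) : (fs π m).card = m := by
  have : fs π m = (univ.filter (fun i : Fin n => (i : ℕ) < m)).map π.toEmbedding := by
    ext v
    simp only [mem_fs, mem_map, mem_filter, mem_univ, true_and, Equiv.coe_toEmbedding]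
    constructor
    · intro h
      exact ⟨π.symm v, h, by simp⟩
    · rintro ⟨i, hi, rfl⟩
      simpa using hi
  rw [this, card_map]
  rw [Fin.card_filter_val_lt]
  exact Nat.min_eq_right hm

theorem fs_zero (π : Equiv.Perm (Fin n)) : fs π 0 = ∅ := by
  ext v
  simp [mem_fs]

theorem fs_n (π : Equiv.Perm (Fin n)) : fs π n = univ := by
  ext v
  simp [mem_fs]

/-- Increments in `[0, log 2]`, decreasing. -/
structure Sub (h : Finset (Fin n) → ℝ) : Prop where
  mono : ∀ M v, h M ≤ h (insert v M)
  le : ∀ M v, h (insert v M) ≤ h M + Real.log 2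
  sub : ∀ M v w, h (insert v (insert w M)) + h M ≤ h (insert v M) + h (insert w M)

/-- Total correlation of the coordinates outside `M`. -/
noncomputable def tc (h : Finset (Fin n) → ℝ) (M : Finset (Fin n)) : ℝ :=
  ∑ v ∈ Mᶜ, (h (insert v M) - h M) - (h univ - h M)

theorem Sub.grow {h : Finset (Fin n) → ℝ} (hs : Sub h) (M T : Finset (Fin n)) (v : Fin n) :
    h (insert v (M ∪ T)) - h (M ∪ T) ≤ h (insert v M) - h M := by
  induction T using Finset.induction_on with
  | empty => simp
  | insert w T _ ih =>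
    have := hs.sub (M ∪ T) v w
    rw [union_insert]
    linarith

theorem Sub.tele {h : Finset (Fin n) → ℝ} (hs : Sub h) (M T : Finset (Fin n)) :
    h (M ∪ T) - h M ≤ ∑ v ∈ T, (h (insert v M) - h M) := by
  induction T using Finset.induction_on with
  | empty => simp
  | insert w T hw ih =>
    rw [sum_insert hw, union_insert]
    have := hs.grow M T w
    linarith

theorem Sub.tc_nonneg {h : Finset (Fin n) → ℝ} (hs : Sub h) (M : Finset (Fin n)) : 0 ≤ tc h M := by
  have := hs.tele M Mᶜ
  rw [union_compl] at this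
  unfold tc
  linarith

/-- Sum over the permutations of `h` at the first `m` elements. -/
noncomputable def HS (h : Finset (Fin n) → ℝ) (m : ℕ) : ℝ := ∑ π : Equiv.Perm (Fin n), h (fs π m)

theorem sum_ins (h : Finset (Fin n) → ℝ) (m : ℕ) (hm : m < n) (i : Fin n) (hi : m ≤ i) :
    ∑ π : Equiv.Perm (Fin n), h (insert (π i) (fs π m)) = HS h (m + 1) := by
  unfold HS
  rw [← Equiv.sum_comp (Equiv.mulRight (Equiv.swap ⟨m, hm⟩ i))
    (fun π : Equiv.Perm (Fin n) => h (insert (π i) (fs π m)))]
  apply sum_congr rfl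
  intro π _
  rw [fs_succ π m hm, Equiv.coe_mulRight, fs_swap π m _ _ (le_refl _) hi]
  simp [Equiv.Perm.mul_apply]

theorem sum_tc (h : Finset (Fin n) → ℝ) (m : ℕ) (hm : m < n) :
    ∑ π : Equiv.Perm (Fin n), tc h (fs π m) =
      ((n : ℝ) - m) * (HS h (m + 1) - HS h m) - (HS h n - HS h m) := by
  have e1 : ∀ π : Equiv.Perm (Fin n), ∑ v ∈ (fs π m)ᶜ, (h (insert v (fs π m)) - h (fs π m)) =
      ∑ i ∈ univ.filter (fun i : Fin n => m ≤ (i : ℕ)), (h (insert (π i) (fs π m)) - h (fs π m)) := by
    intro π
    symm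
    apply sum_bij (fun i _ => π i)
    · intro i hi
      rw [mem_compl, mem_fs]
      simp only [mem_filter, mem_univ, true_and] at hi
      simp only [Equiv.symm_apply_apply]
      omega
    · intro i _ j _ hij
      exact π.injective hij
    · intro v hv
      rw [mem_compl, mem_fs] at hv
      exact ⟨π.symm v, by simp only [mem_filter, mem_univ, true_and]; omega, by simp⟩
    · intro i _
      rfl
  have e2 : ∑ π : Equiv.Perm (Fin n), ∑ i ∈ univ.filter (fun i : Fin n => m ≤ (i : ℕ)),
      (h (insert (π i) (fs π m)) - h (fs π m)) = ((n : ℝ) - m) * (HS h (m + 1) - HS h m) := by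
    rw [sum_comm]
    have : ∀ i ∈ univ.filter (fun i : Fin n => m ≤ (i : ℕ)),
        ∑ π : Equiv.Perm (Fin n), (h (insert (π i) (fs π m)) - h (fs π m)) =
          HS h (m + 1) - HS h m := by
      intro i hi
      simp only [mem_filter, mem_univ, true_and] at hi
      rw [sum_sub_distrib, sum_ins h m hm i hi]
      rfl
    rw [sum_congr rfl this, sum_const, nsmul_eq_mul]
    congr 1
    have hc : (univ.filter (fun i : Fin n => m ≤ (i : ℕ))).card = n - m := by
      have h1 : (univ.filter (fun i : Fin n => m ≤ (i : ℕ))) =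
          (univ.filter (fun i : Fin n => (i : ℕ) < m))ᶜ := by
        ext i
        simp
      rw [h1, card_compl, Fintype.card_fin]
      rw [Fin.card_filter_val_lt, Nat.min_eq_right hm.le]
    rw [hc, Nat.cast_sub hm.le]
  have e3 : HS h n = ∑ _π : Equiv.Perm (Fin n), h univ := by
    unfold HS
    simp only [fs_n]
  unfold tc
  rw [sum_sub_distrib, sum_sub_distrib, sum_congr rfl (fun π _ => e1 π), e2, e3]
  rfl

theorem HS_anti {h : Finset (Fin n) → ℝ} (hs : Sub h) (m : ℕ) (hm : m + 1 < n) :
    HS h (m + 2) - HS h (m + 1) ≤ HS h (m + 1) - HS h m := by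
  have h1 := sum_ins h m (by omega) ⟨m + 1, hm⟩ (by simp)
  have h2 : HS h (m + 2) + HS h m ≤ ∑ π : Equiv.Perm (Fin n),
      h (insert (π ⟨m + 1, hm⟩) (fs π m)) + HS h (m + 1) := by
    unfold HS
    rw [← sum_add_distrib, ← sum_add_distrib]
    apply sum_le_sum
    intro π _
    rw [fs_succ π (m + 1) hm, fs_succ π m (by omega)]
    exact hs.sub _ _ _
  linarith

theorem HS_mono {h : Finset (Fin n) → ℝ} (hs : Sub h) (m : ℕ) (hm : m < n) :
    0 ≤ HS h (m + 1) - HS h m := by
  unfold HS
  rw [← sum_sub_distrib]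
  apply sum_nonneg
  intro π _
  rw [fs_succ π m hm]
  linarith [hs.mono (fs π m) (π ⟨m, hm⟩)]

theorem HS_le {h : Finset (Fin n) → ℝ} (hs : Sub h) (m : ℕ) (hm : m < n) :
    HS h (m + 1) - HS h m ≤ Fintype.card (Equiv.Perm (Fin n)) * Real.log 2 := by
  unfold HS
  rw [← sum_sub_distrib]
  calc _ ≤ ∑ _π : Equiv.Perm (Fin n), Real.log 2 := by
        apply sum_le_sum
        intro π _
        rw [fs_succ π m hm]
        linarith [hs.le (fs π m) (π ⟨m, hm⟩)]
    _ = _ := by simp

theorem HS_anti' {h : Finset (Fin n) → ℝ} (hs : Sub h) (m m' : ℕ) (hmm : m ≤ m') (hm : m' < n) :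
    HS h (m' + 1) - HS h m' ≤ HS h (m + 1) - HS h m := by
  induction m', hmm using Nat.le_induction with
  | base => exact le_refl _
  | succ k hk ih =>
    have h1 := ih (by omega)
    have h2 := HS_anti hs k hm
    linarith

/-- The main estimate for the average of the total correlation. -/
theorem sum_tc_le {h : Finset (Fin n) → ℝ} (hs : Sub h) (m m' : ℕ) (hmm : m ≤ m') (hm : m' < n) :
    ∑ π : Equiv.Perm (Fin n), tc h (fs π m) ≤
      ((n : ℝ) - m) * ((HS h (m + 1) - HS h m) - (HS h (m' + 1) - HS h m')) +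
      ((n : ℝ) - m') * (Fintype.card (Equiv.Perm (Fin n)) * Real.log 2) := by
  rw [sum_tc h m (by omega)]
  have h1 : ((m' : ℝ) - m) * (HS h (m' + 1) - HS h m') ≤ HS h m' - HS h m := by
    have : ∀ k, m ≤ k → k ≤ m' → ((k : ℝ) - m) * (HS h (m' + 1) - HS h m') ≤ HS h k - HS h m := by
      intro k hk
      induction k, hk using Nat.le_induction with
      | base => intro _; simp
      | succ k hk ih =>
        intro hk'
        have i1 := ih (by omega)
        have i2 := HS_anti' hs k m' (by omega) hm
        push_cast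
        linarith
    exact this m' hmm (le_refl _)
  have h2 : HS h m' ≤ HS h n := by
    have : ∀ k, m' ≤ k → k ≤ n → HS h m' ≤ HS h k := by
      intro k hk
      induction k, hk using Nat.le_induction with
      | base => intro _; exact le_refl _
      | succ k hk ih =>
        intro hk'
        have i1 := ih (by omega)
        have i2 := HS_mono hs k (by omega)
        linarith
    exact this n hm.le (le_refl _)
  have h3 := HS_le hs m' hm
  have h4 : ((n : ℝ) - m') * (HS h (m' + 1) - HS h m') ≤
      ((n : ℝ) - m') * (Fintype.card (Equiv.Perm (Fin n)) * Real.log 2) := by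
    apply mul_le_mul_of_nonneg_left h3
    have : (m' : ℝ) < n := by exact_mod_cast hm
    linarith
  nlinarith [h1, h2, h4]

end LINS
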