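import Pool.Agent.Lib.MP_9dcf40_lc.LIN.Spec
import Pool.Agent.Lib.MP_9dcf40_lc.LIN.ScaleA

/-!
# Theorem Q (MP_9dcf40_lc): superlinear length, statements and proofs (see TEXTQ.md)

Theorem K with `ε = exp (- k ^ A)`: lower bounds for the length `n (log n) ^ γ`. New: the scale is chosen by a
MULTIPLICATIVE pigeonhole argument (`S_Pig`) for the averages over all `J` with `|J| = s`.
Notation of TEXT.md; `S_Fin`, `S_Prog`, `S_Cir`, `S_Res`, `S_Avb` are used unchanged.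
-/

namespace SRBP

open Finset

/-- The last `n - m` elements of the permutation. -/
def NN {n : ℕ} (π : Equiv.Perm (Fin n)) (m : ℕ) : Finset (Fin n) := (LINS.fs π m)ᶜ

/-- Average over the permutations `π` and the sets `J` with `s` elements. -/
noncomputable def pav {n r : ℕ} (s : ℕ) (f : Equiv.Perm (Fin n) → Finset (Fin r) → ℝ) : ℝ :=
  (∑ π : Equiv.Perm (Fin n), ∑ J ∈ powersetCard s (univ : Finset (Fin r)), f π J) /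
    (Fintype.card (Equiv.Perm (Fin n)) * (r.choose s : ℝ))

/-- The mean potential, per variable. -/
noncomputable def Aa {n r : ℕ} {β : Type} (F : Finset (Fin n → Bool))
    (sg : Fin r → (Fin n → Bool) → β) (m s : ℕ) : ℝ :=
  pav s (fun π J => uJ F (NN π m) sg J) / ((n : ℝ) - m)

/-- The mean total correlation, per variable. -/
noncomputable def Ta {n r : ℕ} {β : Type} (F : Finset (Fin n → Bool))
    (sg : Fin r → (Fin n → Bool) → β) (m s : ℕ) : ℝ :=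
  pav s (fun π J => tJ F (NN π m) sg J) / ((n : ℝ) - m)

/-- The mean conditional entropy of a variable. -/
noncomputable def Ha {n r : ℕ} {β : Type} (F : Finset (Fin n → Bool))
    (sg : Fin r → (Fin n → Bool) → β) (m s : ℕ) : ℝ :=
  pav s (fun π J => (∑ x ∈ F, ∑ v ∈ NN π m, -Real.log (1 - wf (Cl F (NN π m) sg J x) v x)) /
    F.card) / ((n : ℝ) - m)

/-- MON. PROOF. `h_s (M) := (∑_{|J| = s} ent F (σ_J, x_M)) / C(r,s)` is `LINS.Sub` (`LINS.sub_ent`);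
`Ha m s = (HS h_s (m+1) - HS h_s m) / n!` (`LINS.sum_ins`; `ent (insert v M) - ent M` is the mean of
`- log (1 - w_v(x))` for the classes of `Mᶜ`, see the proof of `LINS.TCf_cl`), `Ta m s (n - m) n! = ∑_π tc h_s (fs π m)`
(`LINS.mean_tc`). `LINS.HS_anti'`, `HS_le`, `HS_mono` give the first three claims. `LINS.sum_tc`:
`Ta m s = Ha m s - (HS n - HS m)/(n! (n - m))` and `HS n - HS m ≥ (m' - m) (HS (m'+1) - HS m')`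
(in the proof of `LINS.sum_tc_le`), so `Ta m s ≤ Ha m s - (m' - m)/(n - m) Ha m' s
= (Ha m s - Ha m' s) + (n - m')/(n - m) Ha m' s`. -/
def S_MonQ : Prop := ∀ (n r : ℕ) (β : Type) (F : Finset (Fin n → Bool))
    (sg : Fin r → (Fin n → Bool) → β) (m m' s : ℕ), F.Nonempty → m ≤ m' → m' < n → s ≤ r →
  0 ≤ Ha F sg m' s ∧ Ha F sg m' s ≤ Ha F sg m s ∧ Ha F sg m s ≤ 1 ∧
  Ta F sg m s ≤ Ha F sg m s - Ha F sg m' s + ((n : ℝ) - m') / ((n : ℝ) - m) * Ha F sg m s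

/-- HA. PROOF. `- log (1 - w) ≥ w`. In a class `C` with fractions `b, 1 - b` of the values of `x_v`: mean of
`- log (1 - w_v)` is `h(b)`, mean of `w_v` is `2 b (1-b)`, and `h(b) ≤ L 2b(1-b) + e^(-L)`: for `b ≤ 1/2`
`- (1-b) log (1-b) ≤ b`, `- b log b ≤ (L-1) b + e^(-L)` (`- u log u ≤ 1/e` for `u = e^(L-1) b`), and
`L b ≤ 2 L b (1-b)`. Sum over `v ∈ N`, the classes (`Sec3.avg_le`), `J`, `π`. `|NN π m| = n - m`. -/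
def S_HA : Prop := ∀ (n r : ℕ) (β : Type) (F : Finset (Fin n → Bool))
    (sg : Fin r → (Fin n → Bool) → β) (m s : ℕ), F.Nonempty → m < n → s ≤ r →
  Aa F sg m s ≤ Ha F sg m s ∧ ∀ L : ℝ, 1 ≤ L → Ha F sg m s ≤ L * Aa F sg m s + Real.exp (-L)

/-- LEM3. PROOF. For every `N = NN π m` the proof of `Sec3.lemma3` gives (with `U_s = ∑_{|J| = s} u_J`,
`t_s = ∑_{|J| = s} TC_J`, `κ = mean_x ∑_j |dm (sg j x) ∩ N|`)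
`U_s/C(r,s) - 10/(r-s) (I U_s/C(r,s) + κ y^I) - 8 t_s/C(r,s) ≤ U_{s+1}/C(r,s+1)`. All terms are linear: average over `π`,
divide by `n - m`; the average of `|D ∩ NN π m|` over `π` is `|D| (n - m)/n`, so the average of `κ` is
`≤ r ℓ (n - m)/n ≤ K (n - m)`. -/
def S_Lem3 : Prop := ∀ (n r ℓ : ℕ) (β : Type) (F : Finset (Fin n → Bool))
    (sg : Fin r → (Fin n → Bool) → β) (dm : β → Finset (Fin n)) (m s : ℕ) (K I : ℝ), F.Nonempty →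
  CPS n r F sg dm → (∀ x ∈ F, ∀ j, (dm (sg j x)).card ≤ ℓ) → (r : ℝ) * ℓ ≤ K * n → m < n → s < r →
  0 ≤ I → Aa F sg m s - 10 / ((r : ℝ) - s) * (I * Aa F sg m s + K * (((r : ℝ) - s) / r) ^ I) -
    8 * Ta F sg m s ≤ Aa F sg m (s + 1)

/-- A0. PROOF. `Sec3.start`, `Sec3.uJ_le`. -/
def S_A0 : Prop := ∀ (n r : ℕ) (β : Type) (F : Finset (Fin n → Bool))
    (sg : Fin r → (Fin n → Bool) → β) (m : ℕ), F.Nonempty → m < n →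
  1 / 2 - (n * Real.log 2 - Real.log F.card) / ((n : ℝ) - m) ≤ Aa F sg m 0 ∧
  (∀ s, Aa F sg m s ≤ 1) ∧ ∀ s, 0 ≤ Aa F sg m s

/-- PIG: the multiplicative pigeonhole principle. PROOF. Otherwise for each `i < M` there is `s_i ≤ R` with
`h s_i i ≥ e^(-L)` and `h s_i (i+1) < (1-η) h s_i i`. Let `Ψ i = ∑_{s ≤ R} log (max (h s i) (e^(-(L+1))))`, so
`- (R+1) (L+1) ≤ Ψ i ≤ 0`, `Ψ (i+1) ≤ Ψ i`, and the term of `s_i` decreases by `≥ η/2` (the new value of the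
maximum is `≤ max (1-η) e^(-1) * h s_i i ≤ (1 - η/2) h s_i i`). So `M η/2 ≤ (R+1) (L+1)`, a contradiction. -/
def S_Pig : Prop := ∀ (R M : ℕ) (L η : ℝ) (h : ℕ → ℕ → ℝ), 0 ≤ L → 0 < η → η ≤ 1 →
  2 * ((R : ℝ) + 1) * (L + 1) / η < M → (∀ s ≤ R, ∀ i ≤ M, 0 ≤ h s i ∧ h s i ≤ 1) →
  (∀ s ≤ R, ∀ i < M, h s (i + 1) ≤ h s i) →
  ∃ i < M, ∀ s ≤ R, Real.exp (-L) ≤ h s i → h s i - h s (i + 1) ≤ η * h s i

/-- RCRM: the recursion, multiplicative form. PROOF. As `Rcr.lean`. `E = exp (-(C log^11 q)) ≤ 1/4`. Phase 1: as long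
as `S_s ≤ 2 S₁` (`S₁ = 1/(200 K)`), `a s ≥ 9/20 - 10 K S_s - 8 δ s ≥ 1/4 ≥ E`, so `T s ≤ δ a s ≤ δ`. Phase 2: `a s ≥ b_s :=
10 K exp (- C S_s^11) ≥ E`, so `T s ≤ δ a s`: `a (s+1) ≥ a s (1 - 10 C S^10/(r-s) - 8 δ) - b_s/(r-s)`, and the gap
`b_s ((C S^10 - 1)/(r-s) - z²/2 - 8 δ) ≥ b_s (2/(r-s) - 1/(r-s) - 8 δ) ≥ 0`. -/
def S_RcrM : Prop := ∀ (K : ℝ) (q r : ℕ) (C M : ℝ), 1 ≤ K → 2 ≤ q → q ∣ r →
  C = 40 * K * (200 * K) ^ 11 → M = C * Real.log q ^ 10 →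
  (q : ℝ) * (61 * M ^ 2 + 10 * M + 200 * K) + 1 ≤ r → ∀ δ : ℝ, 0 ≤ δ → 80 * δ * r ≤ 1 →
  ∀ a T : ℕ → ℝ, 9 / 20 ≤ a 0 →
  (∀ s, s < r → ∀ I : ℝ, 0 ≤ I →
    a s - 10 / ((r : ℝ) - s) * (I * a s + K * (((r : ℝ) - s) / r) ^ I) - 8 * T s ≤ a (s + 1)) →
  (∀ s, a s ≤ 1) →
  (∀ s, s ≤ r - r / q → Real.exp (-(C * Real.log q ^ 11)) ≤ a s → T s ≤ δ * a s) →
  Real.exp (-(C * Real.log q ^ 11)) ≤ a (r - r / q)

/-- SEL. PROOF. `N = NN π m`, `X = u_J/(n-m)`, `Y = TC_J/(n-m)`, `Z` = the fraction of bad `x ∈ F`; averages over `π` and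
`|J| = s`: `E X = a := Aa m s`, `E Y ≤ δ a`, `E Z ≤ r²/(n-m)` (`LINS.bad_perm`, or `LINS.sum_bad`). So
`E [X - Y/(4δ) - a (n-m)/(4r²) Z - a/4] ≥ a/4 > 0`: some `π, J` has `X ≥ a/4`, `Y ≤ 4 δ X`, `a (n-m) Z ≤ 4 r² X ≤ 4 r²`. -/
def S_Sel : Prop := ∀ (n r ℓ : ℕ) (β : Type) (F : Finset (Fin n → Bool))
    (sg : Fin r → (Fin n → Bool) → β) (D : Fin r → (Fin n → Bool) → Finset (Fin n)) (m s : ℕ)
    (δ : ℝ), F.Nonempty → m < n → s ≤ r → 1 ≤ r → 0 < δ → 0 < Aa F sg m s →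
  Ta F sg m s ≤ δ * Aa F sg m s → n ≤ r * ℓ → (∀ x ∈ F, ∀ j, (D j x).card ≤ ℓ) →
  ∃ (N : Finset (Fin n)) (J : Finset (Fin r)), N.card = n - m ∧ J.card = s ∧
    Aa F sg m s / 4 * N.card ≤ uJ F N sg J ∧ tJ F N sg J ≤ 4 * δ * uJ F N sg J ∧
    Aa F sg m s * N.card *
      ((F.filter (fun x => ∃ j, 2 * ℓ * N.card < n * (D j x ∩ N).card)).card : ℝ) ≤
      4 * r ^ 2 * F.card

/-- FIND. PROOF. `K = 3 k`, `C, L = C log^11 q` as in `S_RcrM`, `ℓ = k n/r + 1`, `r ℓ ≤ k n + r ≤ 3 k n`.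
`W = 10^10 r (L+2)`, `η = 1/W`, `t = ⌈W⌉`, `M = ⌈2 (r+1) (L+1) W⌉ + 1`, `m_i = n - ⌊n/t^i⌋` (`t^M ≤ n`). `S_Pig` with
`h s i = Ha F sg m_i s`, `R = r` (`S_MonQ`): `i`; `m = m_i`, `m' = m_{i+1}`, `n - m' ≤ (n-m)/t`. If `Aa m s ≥ e^(-L)`:
`Ha m s ≥ e^(-L)` (`S_HA`), so `Ta m s ≤ 2 η Ha m s ≤ 2 η (L+2) Aa m s = δ Aa m s`, `δ = 2/(10^10 r)` (`S_MonQ`, and `S_HA` with
`L + 1`). `S_A0`, `S_Lem3`, `S_RcrM`: `Aa m (r - r/q) ≥ e^(-L)`. `S_Sel` with `s = r - r/q`, `δ`. Sizes: all numbers are powers of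
`r`: `L ≤ r`, `t ≤ r^3`, `M ≤ r^8`, `n - m = ⌊n/t^i⌋ ≥ n/(2 t^M) ≥ n exp (- r^10)`. -/
def S_Find : Prop := ∃ B : ℕ, 1 ≤ B ∧ ∀ k q r : ℕ, 2 ≤ k → 2 ≤ q → q ∣ r → (k * q) ^ B ≤ r →
  ∀ n : ℕ, Real.exp ((r : ℝ) ^ B) ≤ n → ∀ (β : Type) (F : Finset (Fin n → Bool))
    (sg : Fin r → (Fin n → Bool) → β) (dm : β → Finset (Fin n)), CPS n r F sg dm → F.Nonempty →
  (∀ x ∈ F, ∀ j, (dm (sg j x)).card ≤ k * n / r + 1) →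
  n * Real.log 2 - Real.log F.card ≤ Real.exp (-(r : ℝ) ^ B) * n →
  ∃ (N : Finset (Fin n)) (J : Finset (Fin r)), Real.exp (-(r : ℝ) ^ B) * n ≤ N.card ∧
    J.card = r - r / q ∧
    Real.exp (-((k : ℝ) ^ B * Real.log q ^ 11)) * N.card ≤ uJ F N sg J ∧
    10 ^ 9 * tJ F N sg J ≤ uJ F N sg J ∧
    ((F.filter (fun x => ∃ j, 2 * (k * n / r + 1) * N.card < n * (dm (sg j x) ∩ N).card)).card : ℝ) ≤
      Real.exp (-(r : ℝ)) * F.card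

/-- CUT2. PROOF. As `S_Cutp`, with a dyadic pigeonhole. `f x = UU F N sg J x ≤ |N|/2`, `g x = TCf (Cl F N sg J x) ≥ 0`, both
constant on classes, `∑_F f = |F| u_J`, `∑_F g = |F| t_J`. Good: `g x ≤ 2/10^9 f x`; the others contribute at most half of
`∑ f`; good `x` with `f x < u_J/4` at most a quarter. So `∑_{good, f ≥ u_J/4} f ≥ |F| u_J/4`. These `x` have
`2^(-i-1) |N| < f x ≤ 2^(-i) |N|` for some `i ∈ {1..W}`, `W = ⌊logb 2 (4/c)⌋ ≤ 4/c`: some `i` has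
`∑ f ≥ |F| u_J/(4 W)`; `F'` = these `x` (a union of classes, so `Cl F' N sg J x = Cl F N sg J x`); `|F'| 2^(-i) ≥ c |F|/(4W)`, so
`|F'| ≥ c²/8 |F|`. `θ = 2^(-i-1) ≥ c/8`, `v₀ = min θ 10^(-6)`; `tJ F' ≤ 2/10^9 * 2 θ |N|`, `θ ≤ 10^6/4 v₀`. -/
def S_Cut2 : Prop := ∀ (n r : ℕ) (β : Type) (F : Finset (Fin n → Bool))
    (sg : Fin r → (Fin n → Bool) → β) (N : Finset (Fin n)) (J : Finset (Fin r)) (c : ℝ),
  F.Nonempty → N.Nonempty → 0 < c → c ≤ 1 / 2 → c * N.card ≤ uJ F N sg J →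
  10 ^ 9 * tJ F N sg J ≤ uJ F N sg J →
  ∃ F' ⊆ F, ∃ v₀ : ℝ, F'.Nonempty ∧ c ^ 2 / 100 * F.card ≤ F'.card ∧ c / 10 ^ 6 ≤ v₀ ∧
    v₀ ≤ 1 / 10 ^ 6 ∧ (∀ x ∈ F', v₀ * N.card ≤ UU F' N sg J x) ∧
    400 * tJ F' N sg J ≤ v₀ * N.card

/-- PARQ. PROOF. `q = k^B`, `log q = B log k`, `ParM.binEntropy_le`. `log (1/v) ≤ k^B₁ (B log k)^11 + log (4 * 10^6)`,
so `h(v) ≤ v (k^B₁ (B log k)^11 + 17)`; `h(6k/q) ≤ 6k/q (1 + B log k)`; `log k ≤ k`, so the product is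
`≤ v 10^3 B^12 k^(B₁+14-B)`, and `10^3 B^12 2^(B₁+14-B) ≤ 10^(-4)` for large `B`. `h(10^(-6)) ≤ 10^(-6) (1 + 14) ≤ 10^(-4)`
(monotone on `[0,1/2]`, or `p (1 + log (1/p)) ≤ 10^(-4)` by `log (1/p) ≤ 2 p^(-1/2)`-type bounds). -/
def S_ParQ : Prop := ∀ B₁ : ℕ, ∃ B : ℕ, B₁ ≤ B ∧ 1 ≤ B ∧ ∀ k : ℕ, 2 ≤ k →
  3 * (k : ℝ) / ((k ^ B : ℕ) : ℝ) ≤ 1 / 1000 ∧ ∀ v : ℝ,
  Real.exp (-((k : ℝ) ^ B₁ * Real.log ((k ^ B : ℕ) : ℝ) ^ 11)) / (2 * 10 ^ 6) ≤ v → v ≤ 1 / 10 ^ 6 →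
  Real.binEntropy v ≤ 1 / 10000 ∧
  Real.binEntropy v * Real.binEntropy (6 * k / ((k ^ B : ℕ) : ℝ)) ≤ v / 10000

/-- COREQ. PROOF. As `Core.lean`. `S_Find`: `B₀`; `S_ParQ` with `B₁ = B₀`: `B₂`, `q = k^B₂`; `r = q (k q)^B₀`;
`c = exp (-(k^B₀ log^11 q))/2`, `S_Cut2`: `F', v₀`; `ζ = 3k/q`, `g = ⌈20 h(v₀) |N|⌉`, `S_Fin` with `δ = v₀/400`. -/
def S_CoreQ : Prop := ∃ B : ℕ, 1 ≤ B ∧ ∀ k : ℕ, 2 ≤ k → ∃ r : ℕ, 1 ≤ r ∧ (r : ℝ) ≤ (k : ℝ) ^ B ∧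
  ∀ n : ℕ, Real.exp ((k : ℝ) ^ B) ≤ n →
  ∀ (β : Type) (F : Finset (Fin n → Bool)) (sg : Fin r → (Fin n → Bool) → β)
    (dm : β → Finset (Fin n)), CPS n r F sg dm → F.Nonempty →
  (∀ x ∈ F, ∀ j, (dm (sg j x)).card ≤ k * n / r + 1) →
  n * Real.log 2 - Real.log F.card ≤ Real.exp (-(k : ℝ) ^ B) * n →
  Rect F sg dm (Real.exp (Real.exp (-(k : ℝ) ^ B) * n))

open scoped Classical in
/-- QUAQ. PROOF. As `SR/Qua.lean`; `S_Sha` for `t ≥ exp (n^(3/4))`: the shattered set has `d ≥ 2 √n + 4` elements, since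
`log (ball n d) ≤ d log (n+1) + ..` is `< n^(3/4)` for large `n`. -/
def S_QuaQ : Prop := ∃ N : ℕ, ∀ n ≥ N, ∃ c : Coef n → Bool,
  2 ^ (n - 2) ≤ ((univ : Finset (Fin n → Bool)).filter (fun y => fq c y)).card ∧
  ∀ t : ℕ, Real.exp ((n : ℝ) ^ (3 / 4 : ℝ)) ≤ t → NoRect (fq c) t

/-- BALQ. PROOF. `ball n s * z^s ≤ (1+z)^n`, `z = √ε` (see `SR/Bal.lean`): `log ball ≤ n z + s log (1/z) ≤
√ε n (1 + √ε log (1/√ε)) ≤ 2 √ε n` (`x log (1/x) ≤ 1`). `ε = 0`: `s = 0`, `ball = 1`. -/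
def S_BalQ : Prop := ∀ ε : ℝ, 0 ≤ ε → ε ≤ 1 → ∀ n s : ℕ, (s : ℝ) ≤ ε * n →
  Real.log (ball n s) ≤ 2 * Real.sqrt ε * n

/-- TOPKQ. PROOF. As `TopK.lean`. `S_CoreQ`: `B`. `ε = exp (- k^A)`, `A = B + 5`: `2 √ε + (r+3) ε ≤ exp (- k^B)`,
`n^(3/4) + 1 ≤ exp (- k^B) n` (`k^B ≤ k^A/32 ≤ log n/32`). `S_Prog`, `S_BalQ`, `S_QuaQ`. -/
def S_TopKQ : Prop := ∃ A N : ℕ, 1 ≤ A ∧ ∀ n ≥ N, ∃ c : Coef n → Bool,
  (∃ B : Finset (Fin n → Bool), (∀ y ∈ B, fq c y) ∧ 2 ^ (n - 2) ≤ B.card) ∧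
  ∀ k : ℕ, 2 ≤ k → (k : ℝ) ^ A ≤ Real.log n →
  ∀ (P : NBP (Fin n)) (s : ℕ), (s : ℝ) ≤ Real.exp (-(k : ℝ) ^ A) * n →
  (∀ y, Accepts P y → fq c y) → ∀ A' : Finset (Fin n → Bool),
  (∀ y ∈ A', ∃ (v : P.V) (l : List (Fin n × Bool)) (E : Finset (Fin n)), P.acc v ∧
    Walk P P.start l v ∧ Consistent y l ∧ E.card ≤ s ∧
    ((l.map Prod.fst).filter (fun i => i ∉ E)).length ≤ k * n) →
  (2 : ℝ) ^ n * Real.exp (-(Real.exp (-(k : ℝ) ^ A) * n)) ≤ A'.card →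
  Real.exp (Real.exp (-(k : ℝ) ^ A) * n) ≤ Fintype.card P.V

end SRBP
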