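import Pool.Agent.Lib.MP_9dcf40_lc.SR.Spec
import Pool.Agent.Lib.MP_9dcf40_lc.LIN.SpecQ

/-!
# QuaQ: a quartic polynomial which is not constant on rectangles with sides `exp (n^(3/4))`
-/

namespace SRBP

open Finset

namespace QuaQAux

/-- The support. -/
def spp {n : ℕ} (a : Fin n → Bool) : Finset (Fin n) := univ.filter (fun v => a v = true)

theorem spp_inj {n : ℕ} : Function.Injective (spp : (Fin n → Bool) → Finset (Fin n)) := by
  intro a b h
  funext v
  have h1 : v ∈ spp a ↔ v ∈ spp b := by rw [h]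
  simp only [spp, mem_filter, mem_univ, true_and] at h1
  cases ha : a v <;> cases hb : b v <;> simp_all

/-- Few sets have at most `d` elements. -/
theorem few (n d : ℕ) :
    ((univ : Finset (Finset (Fin n))).filter (fun S => S.card ≤ d)).card ≤ (n + 1) ^ d := by
  classical
  have h1 : ((univ : Finset (Finset (Fin n))).filter (fun S => S.card ≤ d)) ⊆
      (univ : Finset (Fin d → Option (Fin n))).image
        (fun g => univ.filter (fun v => ∃ i, g i = some v)) := by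
    intro S hS
    have hSd : S.card ≤ d := (mem_filter.1 hS).2
    refine mem_image.2 ⟨fun i => if h : (i : ℕ) < S.card then
      some ((S.equivFin.symm ⟨i, h⟩ : {x // x ∈ S}) : Fin n) else none, mem_univ _, ?_⟩
    ext v
    rw [mem_filter]
    constructor
    · rintro ⟨_, i, hi⟩
      by_cases h : (i : ℕ) < S.card
      · simp only [h, dif_pos, Option.some.injEq] at hi
        rw [← hi]
        exact (S.equivFin.symm ⟨i, h⟩).2
      · simp only [h, dif_neg, not_false_eq_true] at hi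
        exact absurd hi (by simp)
    · intro hv
      refine ⟨mem_univ _, ⟨S.equivFin ⟨v, hv⟩, lt_of_lt_of_le (S.equivFin ⟨v, hv⟩).2 hSd⟩, ?_⟩
      simp
  refine le_trans (card_le_card h1) (le_trans card_image_le (le_of_eq ?_))
  rw [card_univ, Fintype.card_fun, Fintype.card_option, Fintype.card_fin, Fintype.card_fin]

/-- The numerical estimate. -/
theorem numb {n : ℕ} (hn : 97 ^ 8 ≤ n) :
    ((2 * Nat.sqrt n + 4 : ℕ) : ℝ) * Real.log ((n : ℝ) + 1) < (n : ℝ) ^ (3 / 4 : ℝ) := by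
  have hn0 : (0 : ℝ) ≤ n := Nat.cast_nonneg n
  have hnR : (97 : ℝ) ^ 8 ≤ n := by exact_mod_cast hn
  obtain ⟨u, hu⟩ : ∃ u : ℝ, u = (n : ℝ) ^ (1 / 8 : ℝ) := ⟨_, rfl⟩
  have hu0 : 0 ≤ u := by
    rw [hu]
    exact Real.rpow_nonneg hn0 _
  have hu8 : u ^ 8 = n := by
    rw [hu, ← Real.rpow_natCast, ← Real.rpow_mul hn0]
    norm_num
  have hu97 : 97 ≤ u := by
    by_contra h
    rw [not_le] at h
    have h1 : u ^ 8 < 97 ^ 8 := pow_lt_pow_left₀ h hu0 (by norm_num)
    rw [hu8] at h1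
    linarith
  have h34 : (n : ℝ) ^ (3 / 4 : ℝ) = u ^ 6 := by
    rw [hu, ← Real.rpow_natCast, ← Real.rpow_mul hn0]
    norm_num
  have hs : ((Nat.sqrt n : ℕ) : ℝ) ≤ u ^ 4 := by
    have h1 : ((Nat.sqrt n : ℕ) : ℝ) ≤ Real.sqrt n := Real.nat_sqrt_le_real_sqrt
    have h2 : Real.sqrt n = u ^ 4 := by
      rw [← hu8, show u ^ 8 = (u ^ 4) ^ 2 by ring, Real.sqrt_sq (by positivity)]
    rwa [h2] at h1
  have hu4 : 1 ≤ u ^ 4 := one_le_pow₀ (by linarith)
  have hw : ((2 * Nat.sqrt n + 4 : ℕ) : ℝ) ≤ 6 * u ^ 4 := by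
    push_cast
    linarith
  have hlog : Real.log ((n : ℝ) + 1) ≤ 16 * u := by
    have h1 : Real.log ((n : ℝ) + 1) ≤ ((n : ℝ) + 1) ^ (1 / 8 : ℝ) / (1 / 8) :=
      Real.log_le_rpow_div (by linarith) (by norm_num)
    have h2 : ((n : ℝ) + 1) ^ (1 / 8 : ℝ) ≤ 2 * u := by
      have h3 : (n : ℝ) + 1 ≤ (2 * u) ^ 8 := by
        rw [mul_pow, hu8]
        have : (1 : ℝ) ≤ n := le_trans (by norm_num) hnR
        linarith
      calc ((n : ℝ) + 1) ^ (1 / 8 : ℝ) ≤ ((2 * u) ^ 8) ^ (1 / 8 : ℝ) :=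
            Real.rpow_le_rpow (by linarith) h3 (by norm_num)
        _ = 2 * u := by
          rw [← Real.rpow_natCast, ← Real.rpow_mul (by linarith)]
          norm_num
    linarith
  have hlog0 : 0 ≤ Real.log ((n : ℝ) + 1) := Real.log_nonneg (by linarith)
  rw [h34]
  calc ((2 * Nat.sqrt n + 4 : ℕ) : ℝ) * Real.log ((n : ℝ) + 1) ≤ (6 * u ^ 4) * (16 * u) :=
        mul_le_mul hw hlog hlog0 (by positivity)
    _ = 96 * u ^ 5 := by ring
    _ < u * u ^ 5 := mul_lt_mul_of_pos_right (by linarith) (by positivity)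
    _ = u ^ 6 := by ring

/-- The Sauer-Shelah lemma for families with `exp (n^(3/4))` elements. -/
theorem sha {n : ℕ} (hn : 97 ^ 8 ≤ n) (A : Finset (Fin n → Bool))
    (hA : Real.exp ((n : ℝ) ^ (3 / 4 : ℝ)) ≤ A.card) :
    ∃ W : Finset (Fin n), W.card = 2 * Nat.sqrt n + 4 ∧
      ∀ S ⊆ W, ∃ a ∈ A, ∀ v ∈ W, (a v = true ↔ v ∈ S) := by
  classical
  obtain ⟨𝒜, h𝒜⟩ : ∃ 𝒜 : Finset (Finset (Fin n)), 𝒜 = A.image spp := ⟨_, rfl⟩
  have hcard : 𝒜.card = A.card := by
    rw [h𝒜]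
    exact card_image_of_injective _ spp_inj
  have hex : ∃ W ∈ 𝒜.shatterer, 2 * Nat.sqrt n + 4 ≤ W.card := by
    by_contra hcon
    push Not at hcon
    have h2 : 𝒜.shatterer ⊆ (univ : Finset (Finset (Fin n))).filter
        (fun S => S.card ≤ 2 * Nat.sqrt n + 4) := by
      intro S hS
      exact mem_filter.2 ⟨mem_univ _, (hcon S hS).le⟩
    have h3 : A.card ≤ (n + 1) ^ (2 * Nat.sqrt n + 4) := by
      rw [← hcard]
      exact le_trans (card_le_card_shatterer 𝒜) (le_trans (card_le_card h2) (few _ _))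
    have h5 : Real.exp ((n : ℝ) ^ (3 / 4 : ℝ)) ≤ ((n : ℝ) + 1) ^ (2 * Nat.sqrt n + 4) :=
      le_trans hA (by exact_mod_cast h3)
    have h6 : (n : ℝ) ^ (3 / 4 : ℝ) ≤
        ((2 * Nat.sqrt n + 4 : ℕ) : ℝ) * Real.log ((n : ℝ) + 1) := by
      rw [← Real.log_pow, ← Real.log_exp ((n : ℝ) ^ (3 / 4 : ℝ))]
      exact Real.log_le_log (Real.exp_pos _) h5
    exact absurd (numb hn) (not_lt.2 h6)
  obtain ⟨W', hW', hWc⟩ := hex
  obtain ⟨W, hWW, hWcard⟩ := exists_subset_card_eq hWc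
  have hsh : 𝒜.Shatters W := (mem_shatterer.1 hW').mono_right hWW
  refine ⟨W, hWcard, fun S hS => ?_⟩
  obtain ⟨u, hu, hWu⟩ := hsh hS
  rw [h𝒜] at hu
  obtain ⟨a, ha, rfl⟩ := mem_image.1 hu
  refine ⟨a, ha, fun v hv => ?_⟩
  rw [← hWu, mem_inter]
  simp only [spp, mem_filter, mem_univ, true_and]
  exact ⟨fun h => ⟨hv, h⟩, fun h => h.2⟩

theorem card_two {n : ℕ} (W : Finset (Fin n)) :
    (two W).card = 1 + W.card + W.card.choose 2 := by
  classical
  have h : two W = (Finset.range 3).biUnion fun j => powersetCard j W := by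
    ext S
    unfold two
    rw [mem_filter, mem_powerset, mem_biUnion]
    constructor
    · rintro ⟨h1, h2⟩
      exact ⟨S.card, mem_range.2 (by omega), mem_powersetCard.2 ⟨h1, rfl⟩⟩
    · rintro ⟨j, hj, hS⟩
      rw [mem_range] at hj
      obtain ⟨h1, h2⟩ := mem_powersetCard.1 hS
      exact ⟨h1, by omega⟩
  rw [h, card_biUnion]
  · simp only [card_powersetCard, Finset.sum_range_succ, Finset.range_zero, Finset.sum_empty,
      Nat.choose_zero_right, Nat.choose_one_right, zero_add]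
  · intro i _ j _ hij
    exact (Finset.pairwise_disjoint_powersetCard W) hij

end QuaQAux

open scoped Classical in
open QuaQAux in
theorem tQuaQ (h2 : S_Cfg) (h3 : S_Uni) (h4 : S_Den) : S_QuaQ := by
  refine ⟨97 ^ 8, ?_⟩
  intro n hn
  have hn2 : 2 ≤ n := le_trans (by norm_num) hn
  set w : ℕ := 2 * Nat.sqrt n + 4 with hw
  set m : ℕ := 1 + w + w.choose 2 with hm
  have hm2 : 2 * n + 2 ≤ m := by
    have hr : n ≤ Nat.sqrt n * Nat.sqrt n + Nat.sqrt n + Nat.sqrt n := Nat.sqrt_le_add n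
    have hch : w.choose 2 = (Nat.sqrt n + 2) * (2 * Nat.sqrt n + 3) := by
      rw [Nat.choose_two_right, hw]
      have : (2 * Nat.sqrt n + 4) * (2 * Nat.sqrt n + 4 - 1) =
          2 * ((Nat.sqrt n + 2) * (2 * Nat.sqrt n + 3)) := by
        rw [show 2 * Nat.sqrt n + 4 - 1 = 2 * Nat.sqrt n + 3 by omega]
        ring
      rw [this, Nat.mul_div_cancel_left _ (by norm_num)]
    rw [hm, hch]
    nlinarith
  have hmm : n + 2 * n * m + 2 ≤ m * m := by nlinarith
  -- a good coefficient vector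
  have hUni := h3 n m
  have hDen := h4 n hn2
  set X : Finset (Coef n → Bool) := (univ : Finset (Coef n → Bool)).filter
    (fun c => ∃ (U : Finset (Fin n)) (a b : Fin m → Fin n → Bool),
      ((univ : Finset (Coef n → Bool)).filter (fun c' => ∀ i j,
        quartic c' (glue U (a i) (b j)) = 1)).card * 2 ^ (m * m) ≤ 2 ^ Fintype.card (Coef n) ∧
      ∀ i j, quartic c (glue U (a i) (b j)) = 1) with hX
  set Y : Finset (Coef n → Bool) := (univ : Finset (Coef n → Bool)).filter (fun c =>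
    2 ^ (n - 2) ≤ ((univ : Finset (Fin n → Bool)).filter (fun y => fq c y)).card) with hY
  have hlt : X.card < Y.card := by
    have e1 : X.card * 2 ^ (n + 2 * n * m + 2) ≤ 2 ^ (n + 2 * n * m) * 2 ^ Fintype.card (Coef n) :=
      le_trans (Nat.mul_le_mul_left _ (Nat.pow_le_pow_right (by norm_num) hmm)) hUni
    have e2 : X.card * 4 ≤ 2 ^ Fintype.card (Coef n) := by
      have hpos : 0 < 2 ^ (n + 2 * n * m) := Nat.pow_pos (by norm_num)
      refine Nat.le_of_mul_le_mul_left ?_ hpos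
      refine le_trans (le_of_eq ?_) e1
      rw [pow_add]
      ring
    have e3 : 0 < 2 ^ Fintype.card (Coef n) := Nat.pow_pos (by norm_num)
    omega
  obtain ⟨c, hcY, hcX⟩ : ∃ c ∈ Y, c ∉ X := by
    by_contra hcon
    push Not at hcon
    exact absurd (card_le_card hcon) (not_le.2 hlt)
  refine ⟨c, (mem_filter.1 hcY).2, ?_⟩
  intro t ht U A B hA hB hAU hBU
  by_contra hcon
  push Not at hcon
  obtain ⟨W, hWc, hWs⟩ := sha hn A (le_trans ht (by exact_mod_cast hA))
  obtain ⟨W', hWc', hWs'⟩ := sha hn B (le_trans ht (by exact_mod_cast hB))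
  have hWU : W ⊆ U := by
    intro v hv
    by_contra hvU
    obtain ⟨a, ha, ha'⟩ := hWs ∅ (empty_subset _)
    obtain ⟨b, hb, hb'⟩ := hWs {v} (singleton_subset_iff.2 hv)
    have e1 := hAU a ha b hb v hvU
    have e2 : b v = true := (hb' v hv).2 (mem_singleton_self v)
    rw [e2] at e1
    exact absurd ((ha' v hv).1 e1) (notMem_empty v)
  have hWU' : Disjoint W' U := by
    rw [Finset.disjoint_left]
    intro v hv hvU
    obtain ⟨a, ha, ha'⟩ := hWs' ∅ (empty_subset _)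
    obtain ⟨b, hb, hb'⟩ := hWs' {v} (singleton_subset_iff.2 hv)
    have e1 := hBU a ha b hb v hvU
    have e2 : b v = true := (hb' v hv).2 (mem_singleton_self v)
    rw [e2] at e1
    exact absurd ((ha' v hv).1 e1) (notMem_empty v)
  have hcA : ∀ S : Finset (Fin n), ∃ a : Fin n → Bool, S ⊆ W →
      a ∈ A ∧ ∀ v ∈ W, (a v = true ↔ v ∈ S) := by
    intro S
    by_cases hS : S ⊆ W
    · obtain ⟨a, ha, ha'⟩ := hWs S hS
      exact ⟨a, fun _ => ⟨ha, ha'⟩⟩
    · exact ⟨fun _ => false, fun h => absurd h hS⟩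
  have hcB : ∀ S : Finset (Fin n), ∃ a : Fin n → Bool, S ⊆ W' →
      a ∈ B ∧ ∀ v ∈ W', (a v = true ↔ v ∈ S) := by
    intro S
    by_cases hS : S ⊆ W'
    · obtain ⟨a, ha, ha'⟩ := hWs' S hS
      exact ⟨a, fun _ => ⟨ha, ha'⟩⟩
    · exact ⟨fun _ => false, fun h => absurd h hS⟩
  choose a ha using hcA
  choose b hb using hcB
  have sub2 : ∀ (V S : Finset (Fin n)), S ∈ two V → S ⊆ V := fun V S hS =>
    mem_powerset.1 (mem_filter.1 hS).1
  have hCfg := h2 n U W W' hWU hWU' a b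
    (fun S hS v hv => (ha S (sub2 W S hS)).2 v hv)
    (fun S hS v hv => (hb S (sub2 W' S hS)).2 v hv)
  have hcW : (two W).card = m := by rw [card_two, hWc]
  have hcW' : (two W').card = m := by rw [card_two, hWc']
  set p := (two W).equivFinOfCardEq hcW with hp
  set p' := (two W').equivFinOfCardEq hcW' with hp'
  apply hcX
  rw [hX, mem_filter]
  refine ⟨mem_univ _, U, fun i => a (p.symm i), fun j => b (p'.symm j), ?_, ?_⟩
  · rw [hcW, hcW'] at hCfg
    refine le_trans (le_of_eq ?_) hCfg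
    congr 1
    refine congrArg card ?_
    ext c'
    rw [mem_filter, mem_filter]
    constructor
    · rintro ⟨_, h⟩
      refine ⟨mem_univ _, fun S hS S' hS' => ?_⟩
      have h5 := h (p ⟨S, hS⟩) (p' ⟨S', hS'⟩)
      simp only [Equiv.symm_apply_apply] at h5
      exact h5
    · rintro ⟨_, h⟩
      exact ⟨mem_univ _, fun i j => h _ (p.symm i).2 _ (p'.symm j).2⟩
  · intro i j
    exact (hcon (a (p.symm i)) (ha _ (sub2 W _ (p.symm i).2)).1
      (b (p'.symm j)) (hb _ (sub2 W' _ (p'.symm j).2)).1).1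

end SRBP
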