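import Pool.Agent.Lib.MP_9dcf40_lc.SR.Model

/-!
# Accepting walks of length `k n` up to `s` variables (MP_9dcf40_lc): the definition used in the statement
of `LinearLength`
-/

namespace SRBP

/-- The input `z` is accepted by a walk on which the variables of the second kind outside some set `E` of
at most `s` of them are tested at most `t` times in total (the variables in `E` and the variables of the
first kind may be tested arbitrarily often). -/
def Short {κ : Type} {n : ℕ} (P : NBP (κ ⊕ Fin n)) (t s : ℕ) (z : κ ⊕ Fin n → Bool) : Prop :=
  ∃ v l, P.acc v ∧ Walk P P.start l v ∧ Consistent z l ∧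
    ∃ E : Finset (Fin n), E.card ≤ s ∧ ((ytests l).filter (fun i => i ∉ E)).length ≤ t

end SRBP
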