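import Pool.Agent.Lib.MP_9dcf40_lc.SR.Model

/-!
# Circuit value on several inputs (MP_9dcf40_lc): the definition used in a statement
-/

namespace SRBP

/-- The circuit described by the bits of the first kind has the value `1` on each of the `t` inputs
described by the bits of the second kind. -/
def MVal (n m t : ℕ) (z : CBits n m ⊕ Fin t × Fin n → Bool) : Prop :=
  ∀ j : Fin t, Val n m (fun b => z (Sum.inl b)) (fun i => z (Sum.inr (j, i)))

end SRBP
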