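import Pool.Agent.Lib.MP_9dcf40_lc.LIN.SpecQ
import Pool.Agent.Lib.MP_9dcf40_lc.LIN.ModelK
import Pool.Agent.Lib.MP_9dcf40_lc.LIN.ModelT

/-!
# Theorem Q (MP_9dcf40_lc): superlinear length, the two parts of the final statement
-/

namespace SRBP

open Finset

/-- SHQ. PROOF. As `short_main` in `TopC.lean` (`short_core`, `S_Cir`, `S_Res`), from `S_TopKQ`; the circuit `c` does not
depend on `k`. -/
def S_ShQ : Prop := ∃ A N : ℕ, 1 ≤ A ∧ ∀ n ≥ N, ∀ m ≥ 9 * (n + 1) ^ 4, ∃ c : CBits n m → Bool,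
  2 ^ (n - 2) ≤ Nat.card {y // Val n m c y} ∧
  ∀ k : ℕ, 2 ≤ k → (k : ℝ) ^ A ≤ Real.log n →
  ∀ (P : NBP (CBits n m ⊕ Fin n)) (s : ℕ), (s : ℝ) ≤ Real.exp (-(k : ℝ) ^ A) * n →
    (∀ y, Accepts P (Sum.elim c y) → Val n m c y) →
    (2 : ℝ) ^ n * Real.exp (-(Real.exp (-(k : ℝ) ^ A) * n)) ≤
      Nat.card {y // Short P (k * n) s (Sum.elim c y)} →
    Real.exp (Real.exp (-(k : ℝ) ^ A) * n) ≤ Fintype.card P.V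

/-- TOTQ. PROOF. As `Tot.lean`, from `S_TopKQ` for `4 k + 1 ≤ k ^ 4` (exponent `A₀`), `A = 4 A₀ + 2`:
`(4k+1)^A₀ ≤ k^A/4 ≤ log n/4`, so `exp (-(4k+1)^A₀) n ≥ n^(3/4) ≥ 7` for large `n`. -/
def S_TotQ : Prop := ∃ A N : ℕ, 1 ≤ A ∧ ∀ n ≥ N, ∀ m ≥ 9 * (n + 1) ^ 4,
  ∀ k : ℕ, 2 ≤ k → (k : ℝ) ^ A ≤ Real.log n → ∀ t : ℕ,
  Fintype.card (CBits n m) ≤ t * n → ∀ P : NBP (CBits n m ⊕ Fin t × Fin n),
  (∀ z, Accepts P z → MVal n m t z) →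
  (∀ z, MVal n m t z → ∃ v l, P.acc v ∧ Walk P P.start l v ∧ Consistent z l ∧
    l.length ≤ k * Fintype.card (CBits n m ⊕ Fin t × Fin n)) →
  Real.exp (Real.exp (-(k : ℝ) ^ A) * n) ≤ Fintype.card P.V

end SRBP
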