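import Pool.Agent.Lib.MP_9dcf40_lc.LIN.Base

/-!
# Theorem K (MP_9dcf40_lc): the statements of the modules (see TEXT.md)

Done: Star.lean (Lemma 1, helper79), HitT.lean (hitting, helper56), Rcr.lean (Lemma 4, helper67).
-/

namespace SRBP

open Finset

/-- SCALE (Lemma 2). helper93 (a), helper99 (b) and combination. -/
def S_Scale : Prop := ∀ (r : ℕ) (δ : ℝ), 1 ≤ r → 0 < δ → ∃ ν : ℝ, 0 < ν ∧ ∃ n₀ : ℕ, ∀ n, n₀ ≤ n →
  ∀ (β : Type) (F : Finset (Fin n → Bool)) (sg : Fin r → (Fin n → Bool) → β)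
    (D : Fin r → (Fin n → Bool) → Finset (Fin n)) (ℓ : ℕ), F.Nonempty → n ≤ r * ℓ →
  (∀ x ∈ F, ∀ j, (D j x).card ≤ ℓ) → ∃ N : Finset (Fin n), ν * n ≤ N.card ∧
    (∀ J, tJ F N sg J ≤ δ * N.card) ∧
    ((F.filter (fun x => ∃ j, 2 * ℓ * N.card < n * (D j x ∩ N).card)).card : ℝ) ≤ δ * F.card

/-- SECTION 3 (STEP, Lemma 3, `a_0`, Lemma 4). helper67. -/
def S_Sec3 : Prop := ∀ K : ℝ, 1 ≤ K → ∃ C : ℝ, 0 < C ∧ ∀ q : ℕ, 2 ≤ q → ∃ r₀ : ℕ, ∀ r : ℕ,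
  r₀ ≤ r → q ∣ r → ∃ δ₀ : ℝ, 0 < δ₀ ∧ ∀ δ : ℝ, 0 ≤ δ → δ ≤ δ₀ → ∀ (n : ℕ) (β : Type)
    (F : Finset (Fin n → Bool)) (sg : Fin r → (Fin n → Bool) → β) (dm : β → Finset (Fin n))
    (N : Finset (Fin n)), F.Nonempty → N.Nonempty → CPS n r F sg dm →
  (∀ J, tJ F N sg J ≤ δ * N.card) →
  (∑ x ∈ F, ∑ j, ((dm (sg j x) ∩ N).card : ℝ) ≤ K * N.card * F.card) →
  n * Real.log 2 - Real.log F.card ≤ N.card / 20 →
  ∃ J : Finset (Fin r), J.card = r - r / q ∧ Real.exp (-(C * Real.log q ^ 11)) * N.card ≤ uJ F N sg J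

/-- CUT. From the potential to a set of high density on which it is large pointwise. PROOF.
`F' = {x ∈ F : c/2 |N| ≤ UU F N sg J x}`; `UU` is constant on classes, so `F'` is a union of classes of `F`
and `Cl F' N sg J x = Cl F N sg J x` for `x ∈ F'`. `∑_{x ∈ F} ∑_{v ∈ N} w_v(x) = ∑_{x ∈ F} UU x`,
`UU ≤ |N|/2` (class mean of `w_v` is `2b(1-b)`), so `c |N| |F| ≤ |F'| |N|/2 + (c/2) |N| |F|`.
`TCf ≥ 0` (Gibbs), so `∑_{F'} TCf ≤ ∑_F TCf`. -/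
def S_Cutp : Prop := ∀ (n r : ℕ) (β : Type) (F : Finset (Fin n → Bool))
    (sg : Fin r → (Fin n → Bool) → β) (N : Finset (Fin n)) (J : Finset (Fin r)) (c : ℝ),
  F.Nonempty → N.Nonempty → 0 < c → c * N.card ≤ uJ F N sg J →
  ∃ F' ⊆ F, F'.Nonempty ∧ c * F.card ≤ F'.card ∧ (∀ x ∈ F', c / 2 * N.card ≤ UU F' N sg J x) ∧
    tJ F' N sg J ≤ tJ F N sg J / c

/-- GCH. Choice of `G`. PROOF. `γ v = α v / ∑_N α + β v / ∑_N β` (a term is `0` if its sum is `0`), take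
`G ⊆ N` with `g` elements and minimal `∑_G γ`; by averaging `∑_G γ ≤ (g / |N|) ∑_N γ ≤ 2 g / |N|`. -/
def S_Gch : Prop := ∀ (n : ℕ) (N : Finset (Fin n)) (α β : Fin n → ℝ) (g : ℕ), (∀ v, 0 ≤ α v) →
  (∀ v, 0 ≤ β v) → g ≤ N.card → ∃ G ⊆ N, G.card = g ∧ N.card * ∑ v ∈ G, α v ≤ 2 * g * ∑ v ∈ N, α v ∧
    N.card * ∑ v ∈ G, β v ≤ 2 * g * ∑ v ∈ N, β v

/-- KW. `kw` is a probability on `Om F N G`, with the expectation of `|V|`. (`0 ≤ v₀ |N|/UU * w ≤ 1`.) -/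
def S_Kw : Prop := ∀ (n r : ℕ) (β : Type) (F : Finset (Fin n → Bool))
    (sg : Fin r → (Fin n → Bool) → β) (N G : Finset (Fin n)) (J : Finset (Fin r)) (v₀ : ℝ),
  F.Nonempty → N.Nonempty → G ⊆ N → 0 < v₀ → (∀ x ∈ F, v₀ * N.card ≤ UU F N sg J x) →
  (∀ ω ∈ Om F N G, 0 ≤ kw F N G sg J v₀ ω) ∧ ∑ ω ∈ Om F N G, kw F N G sg J v₀ ω = 1 ∧
  ∑ ω ∈ Om F N G, kw F N G sg J v₀ ω * ω.2.card =
    v₀ * N.card - (∑ x ∈ F, v₀ * N.card / UU F N sg J x * ∑ v ∈ G, wf (Cl F N sg J x) v x) / F.card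

/-- ROWS. helper53. -/
def S_Rows : Prop := ∀ (n r : ℕ) (β : Type) (F : Finset (Fin n → Bool))
    (sg : Fin r → (Fin n → Bool) → β) (dm : β → Finset (Fin n)) (N G : Finset (Fin n))
    (J : Finset (Fin r)) (v₀ ζ : ℝ),
  F.Nonempty → N.Nonempty → G ⊆ N → 0 < v₀ → (∀ x ∈ F, v₀ * N.card ≤ UU F N sg J x) →
  0 < ζ → ζ ≤ 1 / 2 → ∑ x ∈ F, ((DJ sg dm Jᶜ x ∩ G).card : ℝ) ≤ ζ * G.card * F.card →
  ∑ ω ∈ Om F N G, kw F N G sg J v₀ ω * (ω.2.card * Real.log 2 - Real.log (rows F G sg dm J ω).card) ≤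
    tJ F N sg J + G.card * Real.binEntropy ζ

/-- COLUMNS. helper56. -/
def S_Cols : Prop := ∀ (n r : ℕ) (β : Type) (F : Finset (Fin n → Bool))
    (sg : Fin r → (Fin n → Bool) → β) (dm : β → Finset (Fin n)) (N G : Finset (Fin n))
    (J : Finset (Fin r)) (v₀ ζ : ℝ), CPS n r F sg dm →
  F.Nonempty → N.Nonempty → G ⊆ N → 0 < v₀ → v₀ ≤ 1 / 2 → (∀ x ∈ F, v₀ * N.card ≤ UU F N sg J x) →
  ∑ x ∈ F, ((DJ sg dm Jᶜ x ∩ G).card : ℝ) ≤ ζ * G.card * F.card →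
  ∑ ω ∈ Om F N G, kw F N G sg J v₀ ω * (G.card * Real.log 2 - Real.log (cols F G sg dm J ω).card) ≤
    2 * (n * Real.log 2 - Real.log F.card) + 2 * ζ * G.card + N.card * Real.binEntropy v₀

/-- TAIL. helper53. `m = v₀ |N| - κ`; `P(|V| ≤ v₀ |N| / 8) ≤ 2 mean_x (a ∑_G w) / (v₀ |N|) + 8 (mean TC + log 2) /
(v₀ |N|)`. -/
def S_Tail : Prop := ∀ (n r : ℕ) (β : Type) (F : Finset (Fin n → Bool))
    (sg : Fin r → (Fin n → Bool) → β) (N G : Finset (Fin n)) (J : Finset (Fin r)) (v₀ : ℝ),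
  F.Nonempty → N.Nonempty → G ⊆ N → 0 < v₀ → (∀ x ∈ F, v₀ * N.card ≤ UU F N sg J x) →
  ∑ ω ∈ (Om F N G).filter (fun ω => (ω.2.card : ℝ) ≤ v₀ * N.card / 8), kw F N G sg J v₀ ω ≤
    2 * ((∑ x ∈ F, v₀ * N.card / UU F N sg J x * ∑ v ∈ G, wf (Cl F N sg J x) v x) / F.card) /
      (v₀ * N.card) + 8 * (tJ F N sg J + Real.log 2) / (v₀ * N.card)

/-- SIZ. PROOF. `|rows| ≤ 2^|V|`, `|cols| ≤ 2^|G|` (elements are determined by their values on `V`, `G`);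
both contain `ω.1` if `kw ω > 0` (`w_v(x) > 0` for `v ∈ V`, so no segment in `J` reads `v` in `x`). -/
def S_Siz : Prop := ∀ (n r : ℕ) (β : Type) (F : Finset (Fin n → Bool))
    (sg : Fin r → (Fin n → Bool) → β) (dm : β → Finset (Fin n)) (N G : Finset (Fin n))
    (J : Finset (Fin r)) (v₀ : ℝ), CPS n r F sg dm → ∀ ω ∈ Om F N G,
  ω.1 ∈ rows F G sg dm J ω ∧ (rows F G sg dm J ω).card ≤ 2 ^ ω.2.card ∧
  (cols F G sg dm J ω).card ≤ 2 ^ G.card ∧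
  (0 < kw F N G sg J v₀ ω → ω.1 ∈ cols F G sg dm J ω)

/-- HYB. PROOF. See the end of TEXT.md. -/
def S_Hyb : Prop := ∀ (n r : ℕ) (β : Type) (F : Finset (Fin n → Bool))
    (sg : Fin r → (Fin n → Bool) → β) (dm : β → Finset (Fin n)) (N G : Finset (Fin n))
    (J : Finset (Fin r)), CPS n r F sg dm → ∀ ω ∈ Om F N G,
  (∀ y ∈ rows F G sg dm J ω, y ∈ F ∧ ∀ v, v ∉ ω.2 → y v = ω.1 v) ∧
  (∀ y ∈ cols F G sg dm J ω, y ∈ F ∧ ∀ v ∈ ω.2, y v = ω.1 v) ∧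
  ∀ y ∈ rows F G sg dm J ω, ∀ y' ∈ cols F G sg dm J ω,
    (∀ j ∈ J, ∀ v ∈ dm (sg j y'), glue ω.2 y y' v = y' v) ∧
    (∀ j, j ∉ J → ∀ v ∈ dm (sg j y), glue ω.2 y y' v = y v)

/-- The conclusion of the core theorem: a rectangle with sides `≥ t`, whose elements are covered by the
segments of its rows and columns. -/
def Rect {n r : ℕ} {β : Type} (F : Finset (Fin n → Bool)) (sg : Fin r → (Fin n → Bool) → β)
    (dm : β → Finset (Fin n)) (t : ℝ) : Prop :=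
  ∃ x ∈ F, ∃ (J : Finset (Fin r)) (V : Finset (Fin n)), ∃ A ⊆ F, ∃ B ⊆ F, t ≤ A.card ∧ t ≤ B.card ∧
    (∀ y ∈ A, ∀ v, v ∉ V → y v = x v) ∧ (∀ y ∈ B, ∀ v ∈ V, y v = x v) ∧
    ∀ y ∈ A, ∀ y' ∈ B, (∀ j ∈ J, ∀ v ∈ dm (sg j y'), glue V y y' v = y' v) ∧
      (∀ j, j ∉ J → ∀ v ∈ dm (sg j y), glue V y y' v = y v)

/-- FIN (section 4). PROOF. `S_Gch` with `α v = #{x ∈ F : v ∈ DJ sg dm Jᶜ x}`, `β v = ∑_x a(x) w_v(x)`,
`a(x) = v₀ |N| / UU`; `∑_{v ∈ N} β v = v₀ |N| |F|` (class means). `S_Rows`, `S_Cols` (with `2ζ`), `S_Tail`, Markov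
(`S_Siz`: the functions `|V| log 2 - log #rows`, `|G| log 2 - log #cols` are `≥ 0` where `kw > 0`): the three bad
events `|V| ≤ v₀|N|/8`, `|V| log 2 - log #rows > v₀|N|/25`, `|G| log 2 - log #cols > |G| log 2/2` have total
probability `≤ 3/4`. A good `ω` with `kw ω > 0` gives the rectangle (`S_Hyb`); `log 2/8 - 1/25 ≥ 1/25`. -/
def S_Fin : Prop := ∀ (n r : ℕ) (β : Type) (F : Finset (Fin n → Bool))
    (sg : Fin r → (Fin n → Bool) → β) (dm : β → Finset (Fin n)) (N : Finset (Fin n))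
    (J : Finset (Fin r)) (v₀ ζ δ D : ℝ) (g : ℕ), CPS n r F sg dm → F.Nonempty → N.Nonempty →
  0 < v₀ → v₀ ≤ 1 / 2 → 0 < ζ → 2 * ζ ≤ 1 / 2 → 0 < g → g ≤ N.card →
  n * Real.log 2 - Real.log F.card ≤ D → tJ F N sg J ≤ δ * N.card →
  (∀ x ∈ F, v₀ * N.card ≤ UU F N sg J x) →
  ∑ x ∈ F, ((DJ sg dm Jᶜ x ∩ N).card : ℝ) ≤ ζ * N.card * F.card →
  4 * g / N.card + 8 * (δ * N.card + Real.log 2) / (v₀ * N.card) ≤ 1 / 4 →
  δ * N.card + g * Real.binEntropy (2 * ζ) ≤ v₀ * N.card / 100 →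
  2 * D + 4 * ζ * g + N.card * Real.binEntropy v₀ ≤ g * Real.log 2 / 8 →
  Rect F sg dm (min (Real.exp (v₀ * N.card / 25)) (Real.exp (g * Real.log 2 / 2)))

/-- PAR (constants). PROOF. `v₀ → 0`, `binEntropy v₀ / v₀ ≤ 1 + log (1/v₀) = O(log^11 q)`,
`binEntropy (6k/q) = O(k log q / q)` as `q → ∞`. -/
def S_Par : Prop := ∀ (k : ℕ) (C : ℝ), 1 ≤ k → 0 < C → ∃ q : ℕ, 2 ≤ q ∧ 3 * (k : ℝ) / q ≤ 1 / 1000 ∧
  ∀ v₀ : ℝ, v₀ = Real.exp (-(C * Real.log q ^ 11)) / 2 → Real.binEntropy v₀ ≤ 1 / 10000 ∧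
    Real.binEntropy v₀ * Real.binEntropy (6 * k / q) ≤ v₀ / 10000

/-- CORE. PROOF. Constants in the order `k, K = 3k, C, q, c₁ = exp(-C log^11 q), v₀ = c₁/2, ζ = 3k/q, r, δ, ν`,
`g = ⌈20 binEntropy v₀ |N|⌉`. `S_Scale` (`ℓ = k n / r + 1`, `D j x = dm (sg j x)`), `S_Sec3`, `S_Cutp`, `S_Fin`. -/
def S_Core : Prop := ∀ k : ℕ, 1 ≤ k → ∃ r : ℕ, 1 ≤ r ∧ ∃ c : ℝ, 0 < c ∧ ∃ n₀ : ℕ, ∀ n, n₀ ≤ n →
  ∀ (β : Type) (F : Finset (Fin n → Bool)) (sg : Fin r → (Fin n → Bool) → β)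
    (dm : β → Finset (Fin n)), CPS n r F sg dm → F.Nonempty →
  (∀ x ∈ F, ∀ j, (dm (sg j x)).card ≤ k * n / r + 1) →
  (2 : ℝ) ^ n * Real.exp (-(c * n)) ≤ F.card → Rect F sg dm (Real.exp (c * n))

/-- PROG (section 0): from programs to consistent systems. The walks `l` are over `Fin n` (the bits of the
circuit have been substituted, `S_Res`). PROOF. For `y ∈ A` choose `v_y, l_y, E_y` (`|E_y| ≤ s`); cut `l_y` into
`r` pieces with at most `ℓ` tests outside `E_y` each (`k n ≤ r ℓ`), boundary states `q_y : Fin (r+1) → P.V`.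
Pigeonhole over `(E_y, y on E_y, q_y)`: `F` (the number of pairs `(E, e)`, `e` = `y` on `E` and `false` outside,
is at most `ball n s * 2^s`). Labels: partial assignments `β = Fin n → Option Bool` (with domain disjoint
from `E`); `sg j x` = the first `b` (fixed linear order) contained in `x` such that some walk from `q_j` to
`q_(j+1)`, consistent with `x`, with at most `ℓ` tests outside `E`, has exactly the tests `b` outside `E`. -/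
def S_Prog : Prop := ∀ (n r k s ℓ : ℕ) (P : NBP (Fin n)) (A : Finset (Fin n → Bool)), 1 ≤ r →
  k * n ≤ r * ℓ → A.Nonempty →
  (∀ y ∈ A, ∃ (v : P.V) (l : List (Fin n × Bool)) (E : Finset (Fin n)), P.acc v ∧
    Walk P P.start l v ∧ Consistent y l ∧ E.card ≤ s ∧
    ((l.map Prod.fst).filter (fun i => i ∉ E)).length ≤ k * n) →
  ∃ F ⊆ A, F.Nonempty ∧ (A.card : ℝ) ≤ ball n s * 2 ^ s * (Fintype.card P.V : ℝ) ^ (r + 1) * F.card ∧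
    ∃ (sg : Fin r → (Fin n → Bool) → (Fin n → Option Bool)) (dm : (Fin n → Option Bool) →
      Finset (Fin n)), CPS n r F sg dm ∧ (∀ x ∈ F, ∀ j, (dm (sg j x)).card ≤ ℓ) ∧
      ∃ E : Finset (Fin n), (∀ x ∈ F, ∀ y ∈ F, ∀ v ∈ E, x v = y v) ∧
      ∀ z : Fin n → Bool, (∃ x ∈ F, ∀ v ∈ E, z v = x v) →
        (∀ j, ∃ y ∈ F, ∀ v ∈ dm (sg j y), z v = y v) → Accepts P z

/-- TOPK: the theorem for quartic polynomials. PROOF. `S_Core`: `r, c`. `S_Qua` with a small constant: `c₀` and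
`NoRect (fq c₀) t`, `t = ⌈exp (c' n)⌉`. If `|P.V| < exp (ε n)`: `S_Prog` (`ℓ = k n / r + 1`), `S_Bal` for `ball n s`;
`S_Core`; `z = glue V y y'` agrees with `x` on `E`, so it is accepted; `NoRect`. -/
def S_TopK : Prop := ∀ k : ℕ, 1 ≤ k → ∃ ε : ℝ, 0 < ε ∧ ∃ N : ℕ, ∀ n ≥ N, ∃ c : Coef n → Bool,
  (∃ B : Finset (Fin n → Bool), (∀ y ∈ B, fq c y) ∧ 2 ^ (n - 2) ≤ B.card) ∧
  ∀ (P : NBP (Fin n)) (s : ℕ), (s : ℝ) ≤ ε * n → (∀ y, Accepts P y → fq c y) →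
  ∀ A : Finset (Fin n → Bool),
  (∀ y ∈ A, ∃ (v : P.V) (l : List (Fin n × Bool)) (E : Finset (Fin n)), P.acc v ∧
    Walk P P.start l v ∧ Consistent y l ∧ E.card ≤ s ∧
    ((l.map Prod.fst).filter (fun i => i ∉ E)).length ≤ k * n) →
  (2 : ℝ) ^ n * Real.exp (-(ε * n)) ≤ A.card → Real.exp (ε * n) ≤ Fintype.card P.V

end SRBP
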