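import Pool.Agent.Lib.MP_9dcf40_lc.LIN.ModelK
import Pool.Agent.Lib.MP_9dcf40_lc.LIN.Spec
import Pool.Agent.Lib.MP_9dcf40_lc.SR.Cheap

/-!
# Theorem K (MP_9dcf40_lc): circuits

From the theorem for quartic polynomials (`S_TopK`) to circuit value.
-/

namespace SRBP

open Finset

/-- The bits of the circuit become constants. -/
theorem short_core {κ : Type} [Fintype κ] [DecidableEq κ] (h : S_Res) {n : ℕ} (c₀ : Coef n → Bool)
    (c : κ → Bool) (P : NBP (κ ⊕ Fin n)) (t s : ℕ)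
    (hP : ∀ y, Accepts P (Sum.elim c y) → fq c₀ y) :
    ∃ P' : NBP (Fin n), Fintype.card P'.V = Fintype.card P.V ∧ (∀ y, Accepts P' y → fq c₀ y) ∧
      ∀ y, Short P t s (Sum.elim c y) →
        ∃ (v : P'.V) (l : List (Fin n × Bool)) (E : Finset (Fin n)), P'.acc v ∧
          Walk P' P'.start l v ∧ Consistent y l ∧ E.card ≤ s ∧
          ((l.map Prod.fst).filter (fun i => i ∉ E)).length ≤ t := by
  have hσ : ∀ (a b : κ ⊕ Fin n) (i : Fin n), sc c a = Sum.inr i → sc c b = Sum.inr i → a = b := by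
    have h1 : ∀ (a : κ ⊕ Fin n) (i : Fin n), sc c a = Sum.inr i → a = Sum.inr i := by
      intro a i ha
      rcases a with a | j
      · have h2 : (Sum.inl (c a) : Bool ⊕ Fin n) = Sum.inr i := ha
        cases h2
      · have h2 : (Sum.inr j : Bool ⊕ Fin n) = Sum.inr i := ha
        rw [Sum.inr.inj h2]
    intro a b i ha hb
    rw [h1 a i ha, h1 b i hb]
  have hz : ∀ y : Fin n → Bool, (fun a => Sum.elim id y (sc c a)) = Sum.elim c y := by
    intro y
    funext a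
    rcases a with a | i <;> rfl
  obtain ⟨P', hcard, -, hacc, hwalk⟩ := h (κ ⊕ Fin n) (Fin n) P (sc c) hσ
  have hsound : ∀ y, Accepts P' y → fq c₀ y := by
    intro y hy
    refine hP y ?_
    have := (hacc y).1 hy
    rwa [hz y] at this
  refine ⟨P', hcard, hsound, ?_⟩
  rintro y ⟨v, l, hv, hw, hc, E, hE, hr⟩
  obtain ⟨v', hv', hw', hc'⟩ := hwalk y v l hv hw (by rw [hz y]; exact hc)
  refine ⟨v', subl (sc c) l, E, hv', hw', hc', hE, ?_⟩
  rw [subl_sc]
  exact hr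

/-- The main theorem with the modules as hypotheses. -/
theorem short_main (h1 : S_TopK) (h2 : S_Cir) (h3 : S_Res) :
    ∀ k : ℕ, ∃ ε : ℝ, 0 < ε ∧ ∃ N : ℕ, ∀ n ≥ N, ∀ m ≥ 9 * (n + 1) ^ 4, ∃ c : CBits n m → Bool,
      2 ^ (n - 2) ≤ Nat.card {y // Val n m c y} ∧
      ∀ (P : NBP (CBits n m ⊕ Fin n)) (s : ℕ), (s : ℝ) ≤ ε * n →
        (∀ y, Accepts P (Sum.elim c y) → Val n m c y) →
        (2 : ℝ) ^ n * Real.exp (-(ε * n)) ≤ Nat.card {y // Short P (k * n) s (Sum.elim c y)} →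
        Real.exp (ε * n) ≤ Fintype.card P.V := by
  classical
  intro k
  obtain ⟨ε, hε, N, hN⟩ := h1 (k + 1) (Nat.le_add_left 1 k)
  refine ⟨ε, hε, N, ?_⟩
  intro n hn m hm
  obtain ⟨c₀, ⟨B, hB1, hB2⟩, hmain⟩ := hN n hn
  have hm2 : 6 * Fintype.card (Coef n) + 6 * n + 3 ≤ m := by
    have h4 := card_coef n
    have h5 : 1 + 4 * n ≤ (n + 1) ^ 4 := by nlinarith [sq_nonneg n, sq_nonneg (n ^ 2)]
    omega
  obtain ⟨c, hc⟩ := h2 n m c₀ hm2
  have hval : ∀ y, Val n m c y ↔ fq c₀ y := fun y => (val_iff n m c y).trans (hc y)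
  refine ⟨c, ?_, ?_⟩
  · rw [Nat.card_eq_fintype_card, Fintype.card_subtype]
    refine le_trans hB2 (card_le_card ?_)
    intro y hy
    rw [mem_filter]
    exact ⟨mem_univ _, (hval y).2 (hB1 y hy)⟩
  · intro P s hs hP hden
    obtain ⟨P', hcard, hsound, hshort⟩ := short_core h3 c₀ c P (k * n) s
      (fun y hy => (hval y).1 (hP y hy))
    rw [← hcard]
    refine hmain P' s hs hsound
      ((univ : Finset (Fin n → Bool)).filter (fun y => Short P (k * n) s (Sum.elim c y))) ?_ ?_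
    · intro y hy
      obtain ⟨v, l, E, a1, a2, a3, a4, a5⟩ := hshort y (mem_filter.1 hy).2
      exact ⟨v, l, E, a1, a2, a3, a4, a5.trans (Nat.mul_le_mul_right n (Nat.le_succ k))⟩
    · rw [Nat.card_eq_fintype_card, Fintype.card_subtype] at hden
      exact hden

end SRBP
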