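import Pool.Agent.Lib.MP_9dcf40_lc.LIN.SpecT
import Pool.Agent.Lib.MP_9dcf40_lc.LIN.TopC

/-!
# Theorem K (MP_9dcf40_lc): the total length, for the explicit function `MVal`
-/

namespace SRBP

open Finset

/-- Number of tests of the block `j`. -/
noncomputable def blk {κ : Type} {t n : ℕ} (l : List ((κ ⊕ Fin t × Fin n) × Bool)) (j : Fin t) : ℕ := by
  classical exact l.countP (fun q => decide (∃ i, q.1 = Sum.inr (j, i)))

theorem sum_blk {κ : Type} {t n : ℕ} (l : List ((κ ⊕ Fin t × Fin n) × Bool)) :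
    ∑ j, blk l j ≤ l.length := by
  classical
  unfold blk
  induction l with
  | nil => simp
  | cons q l ih =>
    simp only [List.countP_cons, List.length_cons]
    rw [sum_add_distrib]
    refine add_le_add ih ?_
    have h1 : ∀ j : Fin t, (if decide (∃ i, q.1 = Sum.inr (j, i)) = true then 1 else 0) ≤
        if q.1 = q.1 ∧ ∃ p : Fin t × Fin n, q.1 = Sum.inr p ∧ p.1 = j then 1 else 0 := by
      intro j
      by_cases h : ∃ i, q.1 = Sum.inr (j, i)
      · obtain ⟨i, hi⟩ := h
        have h2 : q.1 = q.1 ∧ ∃ p : Fin t × Fin n, q.1 = Sum.inr p ∧ p.1 = j :=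
          ⟨rfl, (j, i), hi, rfl⟩
        rw [if_pos h2]
        split_ifs <;> omega
      · simp [h]
    refine le_trans (sum_le_sum fun j _ => h1 j) ?_
    rcases hq : q.1 with a | p
    · simp
    · have h3 : ∀ j : Fin t, (if (Sum.inr p : κ ⊕ Fin t × Fin n) = Sum.inr p ∧
          ∃ p' : Fin t × Fin n, (Sum.inr p : κ ⊕ Fin t × Fin n) = Sum.inr p' ∧ p'.1 = j
          then 1 else 0) = if p.1 = j then 1 else 0 := by
        intro j
        congr 1
        apply propext
        constructor
        · rintro ⟨-, p', hp', hj⟩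
          rw [Sum.inr.inj hp']
          exact hj
        · intro hj
          exact ⟨rfl, p, rfl, hj⟩
      rw [sum_congr rfl fun j _ => h3 j]
      simp

/-- The substitution: the bits of the circuit and the blocks different from `j` become constants. -/
def sj {κ : Type} {t n : ℕ} (c : κ → Bool) (y : Fin t → Fin n → Bool) (j : Fin t)
    (a : κ ⊕ Fin t × Fin n) : Bool ⊕ Fin n :=
  Sum.elim (fun b => Sum.inl (c b))
    (fun p => if p.1 = j then Sum.inr p.2 else Sum.inl (y p.1 p.2)) a

theorem sj_inr {κ : Type} {t n : ℕ} {c : κ → Bool} {y : Fin t → Fin n → Bool} {j : Fin t}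
    {a : κ ⊕ Fin t × Fin n} {i : Fin n} (h : sj c y j a = Sum.inr i) : a = Sum.inr (j, i) := by
  rcases a with a | ⟨j', i'⟩
  · have h2 : (Sum.inl (c a) : Bool ⊕ Fin n) = Sum.inr i := h
    cases h2
  · have h2 : (if j' = j then (Sum.inr i' : Bool ⊕ Fin n) else Sum.inl (y j' i')) = Sum.inr i := h
    by_cases hj : j' = j
    · rw [if_pos hj] at h2
      rw [Sum.inr.inj h2, hj]
    · rw [if_neg hj] at h2
      cases h2

theorem sj_self {κ : Type} {t n : ℕ} (c : κ → Bool) (y : Fin t → Fin n → Bool) (j : Fin t)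
    (i : Fin n) : sj c y j (Sum.inr (j, i)) = Sum.inr i := by
  show (if j = j then (Sum.inr i : Bool ⊕ Fin n) else Sum.inl (y j i)) = Sum.inr i
  rw [if_pos rfl]

theorem sj_val {κ : Type} {t n : ℕ} (c : κ → Bool) (y : Fin t → Fin n → Bool) (j : Fin t)
    (u : Fin n → Bool) : (fun a => Sum.elim id u (sj c y j a)) =
      Sum.elim c (fun p : Fin t × Fin n => Function.update y j u p.1 p.2) := by
  funext a
  rcases a with a | ⟨j', i'⟩
  · rfl
  · show Sum.elim id u (if j' = j then (Sum.inr i' : Bool ⊕ Fin n) else Sum.inl (y j' i')) =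
      Function.update y j u j' i'
    by_cases hj : j' = j
    · subst hj
      rw [if_pos rfl, Function.update_self]
      rfl
    · rw [if_neg hj, Function.update_of_ne hj]
      rfl

theorem subl_length {κ : Type} {t n : ℕ} (c : κ → Bool) (y : Fin t → Fin n → Bool) (j : Fin t)
    (l : List ((κ ⊕ Fin t × Fin n) × Bool)) : (subl (sj c y j) l).length = blk l j := by
  classical
  unfold subl blk
  rw [List.length_filterMap_eq_countP]
  apply List.countP_congr
  intro q _
  by_cases h : ∃ i, q.1 = Sum.inr (j, i)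
  · obtain ⟨i, hi⟩ := h
    have h2 : ∃ i, q.1 = Sum.inr (j, i) := ⟨i, hi⟩
    rw [hi, sj_self]
    simp
  · have h3 : ∃ b, sj c y j q.1 = Sum.inl b := by
      rcases hq : sj c y j q.1 with b | i
      · exact ⟨b, rfl⟩
      · exact absurd ⟨i, sj_inr hq⟩ h
    obtain ⟨b, hb⟩ := h3
    rw [hb]
    simp [h]

theorem tTot (h1 : S_TopK) (h2 : S_Cir) (h3 : S_Res) (h4 : S_Avb) : S_Tot := by
  classical
  intro k
  obtain ⟨ε, hε, N, hN⟩ := h1 (4 * k + 1) (Nat.le_add_left 1 _)
  refine ⟨ε, hε, max N ⌈7 / ε⌉₊, ?_⟩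
  intro n hn m hm t ht P hsound hwalks
  have hnN : N ≤ n := le_trans (le_max_left _ _) hn
  have hn7 : 7 ≤ ε * n := by
    have h5 : ⌈7 / ε⌉₊ ≤ n := le_trans (le_max_right _ _) hn
    have h6 : 7 / ε ≤ n := le_trans (Nat.le_ceil _) (by exact_mod_cast h5)
    rw [div_le_iff₀ hε] at h6
    linarith
  obtain ⟨c₀, ⟨B, hB1, hB2⟩, hmain⟩ := hN n hnN
  have hm2 : 6 * Fintype.card (Coef n) + 6 * n + 3 ≤ m := by
    have h4 := card_coef n
    have h5 : 1 + 4 * n ≤ (n + 1) ^ 4 := by nlinarith [sq_nonneg n, sq_nonneg (n ^ 2)]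
    omega
  obtain ⟨c, hc⟩ := h2 n m c₀ hm2
  have hval : ∀ y, Val n m c y ↔ fq c₀ y := fun y => (val_iff n m c y).trans (hc y)
  have hBne : B.Nonempty := by
    rw [← card_pos]
    exact lt_of_lt_of_le (by positivity) hB2
  have hm1 : 1 ≤ m := by omega
  have ht1 : 1 ≤ t := by
    rcases Nat.eq_zero_or_pos t with h0 | h0
    · subst h0
      have h5 : 0 < Fintype.card (CBits n m) :=
        Fintype.card_pos_iff.2 ⟨Sum.inr ⟨0, by omega⟩⟩
      omega
    · exact h0
  -- the walks
  have hM : ∀ y : Fin t → Fin n → Bool, (∀ j, y j ∈ B) → ∃ v l, P.acc v ∧ Walk P P.start l v ∧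
      Consistent (Sum.elim c (fun p : Fin t × Fin n => y p.1 p.2)) l ∧
      l.length ≤ (2 * k * n) * t := by
    intro y hy
    obtain ⟨v, l, a1, a2, a3, a4⟩ := hwalks (Sum.elim c (fun p : Fin t × Fin n => y p.1 p.2))
      (fun j => (hval (y j)).2 (hB1 _ (hy j)))
    refine ⟨v, l, a1, a2, a3, a4.trans ?_⟩
    rw [Fintype.card_sum, Fintype.card_prod, Fintype.card_fin, Fintype.card_fin]
    calc k * (Fintype.card (CBits n m) + t * n) ≤ k * (t * n + t * n) :=
          Nat.mul_le_mul_left _ (Nat.add_le_add_right ht _)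
      _ = (2 * k * n) * t := by ring
  choose! V Lw hW using hM
  let T : (Fin t → Fin n → Bool) → Fin t → ℕ := fun y j => blk (Lw y) j
  obtain ⟨j, y, hy, hcard⟩ := h4 t (2 * k * n) (Fin n → Bool) B T ht1 hBne (by
    intro y hy
    exact (sum_blk (Lw y)).trans (hW y hy).2.2.2)
  obtain ⟨P', hPc, -, hacc, hwalk⟩ := h3 (CBits n m ⊕ Fin t × Fin n) (Fin n) P (sj c y j)
    (fun a b i ha hb => by rw [sj_inr ha, sj_inr hb])
  rw [← hPc]
  refine hmain P' 0 (by simpa using (by positivity : (0 : ℝ) ≤ ε * n)) ?_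
    (B.filter (fun u => T (Function.update y j u) j ≤ 2 * (2 * k * n))) ?_ ?_
  · intro u hu
    have h5 := (hacc u).1 hu
    rw [sj_val] at h5
    have h6 := hsound _ h5 j
    have h7 : (fun i => (Sum.elim c (fun p : Fin t × Fin n => Function.update y j u p.1 p.2) :
        CBits n m ⊕ Fin t × Fin n → Bool) (Sum.inr (j, i))) = u := by
      funext i
      show Function.update y j u j i = u i
      rw [Function.update_self]
    rw [h7] at h6
    exact (hval u).1 h6
  · intro u hu
    obtain ⟨huB, huT⟩ := mem_filter.1 hu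
    have hy' : ∀ i, Function.update y j u i ∈ B := by
      intro i
      by_cases hi : i = j
      · subst hi
        rw [Function.update_self]
        exact huB
      · rw [Function.update_of_ne hi]
        exact hy i
    obtain ⟨a1, a2, a3, -⟩ := hW _ hy'
    obtain ⟨v', b1, b2, b3⟩ := hwalk u _ _ a1 a2 (by rw [sj_val]; exact a3)
    refine ⟨v', _, ∅, b1, b2, b3, by simp, ?_⟩
    refine (List.length_filter_le _ _).trans ?_
    rw [List.length_map, subl_length]
    refine le_trans huT ?_
    nlinarith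
  · have h5 : (B.card : ℝ) ≤ 2 * ((B.filter (fun u => T (Function.update y j u) j ≤
        2 * (2 * k * n))).card : ℝ) := by exact_mod_cast hcard
    have h6 : (2 : ℝ) ^ (n - 2) ≤ B.card := by exact_mod_cast hB2
    have h7 : (2 : ℝ) ^ n ≤ 4 * 2 ^ (n - 2) := by
      rcases Nat.lt_or_ge n 2 with h | h
      · interval_cases n <;> norm_num
      · have : n = (n - 2) + 2 := by omega
        conv_lhs => rw [this]
        rw [pow_add]
        norm_num
        linarith
    have h8 : Real.exp (-(ε * n)) ≤ 1 / 8 := by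
      rw [Real.exp_neg, one_div]
      apply inv_anti₀ (by norm_num)
      have := Real.add_one_le_exp (ε * n)
      linarith
    calc (2 : ℝ) ^ n * Real.exp (-(ε * n)) ≤ 2 ^ n * (1 / 8) :=
          mul_le_mul_of_nonneg_left h8 (by positivity)
      _ ≤ _ := by linarith

end SRBP
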