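import Pool.Agent.Lib.MP_9dcf40_lc.LIN.SpecQ
import Pool.Agent.Lib.MP_9dcf40_lc.LIN.SpecQ2
import Pool.Agent.Lib.MP_9dcf40_lc.LIN.TopC
import Pool.Agent.Lib.MP_9dcf40_lc.LIN.Tot

/-!
# Theorem Q (MP_9dcf40_lc): `S_ShQ` and `S_TotQ`
-/

namespace SRBP

open Finset

theorem tShQ (h1 : S_TopKQ) (h2 : S_Cir) (h3 : S_Res) : S_ShQ := by
  classical
  obtain ⟨A, N, hA, hN⟩ := h1
  refine ⟨A, N, hA, ?_⟩
  intro n hn m hm
  obtain ⟨c₀, ⟨B, hB1, hB2⟩, hmain⟩ := hN n hn
  have hm2 : 6 * Fintype.card (Coef n) + 6 * n + 3 ≤ m := by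
    have h4 := card_coef n
    have h5 : 1 + 4 * n ≤ (n + 1) ^ 4 := by nlinarith [sq_nonneg n, sq_nonneg (n ^ 2)]
    omega
  obtain ⟨c, hc⟩ := h2 n m c₀ hm2
  have hval : ∀ y, Val n m c y ↔ fq c₀ y := fun y => (val_iff n m c y).trans (hc y)
  refine ⟨c, ?_, ?_⟩
  · rw [Nat.card_eq_fintype_card, Fintype.card_subtype]
    refine le_trans hB2 (card_le_card ?_)
    intro y hy
    rw [mem_filter]
    exact ⟨mem_univ _, (hval y).2 (hB1 y hy)⟩
  · intro k hk hkA P s hs hP hden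
    obtain ⟨P', hcard, hsound, hshort⟩ := short_core h3 c₀ c P (k * n) s
      (fun y hy => (hval y).1 (hP y hy))
    rw [← hcard]
    refine hmain k hk hkA P' s hs hsound
      ((univ : Finset (Fin n → Bool)).filter (fun y => Short P (k * n) s (Sum.elim c y))) ?_ ?_
    · intro y hy
      obtain ⟨v, l, E, a1, a2, a3, a4, a5⟩ := hshort y (mem_filter.1 hy).2
      exact ⟨v, l, E, a1, a2, a3, a4, a5⟩
    · rw [Nat.card_eq_fintype_card, Fintype.card_subtype] at hden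
      exact hden

/-- The exponents: `(4k+1)^A₀ ≤ k^(4A₀+2)/4`. -/
theorem totq_pow (A₀ k : ℕ) (hk : 2 ≤ k) :
    4 * ((4 * k + 1 : ℕ) : ℝ) ^ A₀ ≤ (k : ℝ) ^ (4 * A₀ + 2) := by
  have hk' : (2 : ℝ) ≤ k := by exact_mod_cast hk
  have h1 : ((4 * k + 1 : ℕ) : ℝ) ≤ (k : ℝ) ^ 4 := by
    push_cast
    have h2 : (8 : ℝ) ≤ (k : ℝ) ^ 3 := by
      calc (8 : ℝ) = 2 ^ 3 := by norm_num
        _ ≤ (k : ℝ) ^ 3 := pow_le_pow_left₀ (by norm_num) hk' 3
    nlinarith
  have h3 : ((4 * k + 1 : ℕ) : ℝ) ^ A₀ ≤ ((k : ℝ) ^ 4) ^ A₀ :=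
    pow_le_pow_left₀ (by positivity) h1 A₀
  rw [← pow_mul] at h3
  have h4 : (4 : ℝ) ≤ (k : ℝ) ^ 2 := by nlinarith
  rw [pow_add]
  calc 4 * ((4 * k + 1 : ℕ) : ℝ) ^ A₀ ≤ 4 * (k : ℝ) ^ (4 * A₀) := by linarith
    _ ≤ (k : ℝ) ^ 2 * (k : ℝ) ^ (4 * A₀) := mul_le_mul_of_nonneg_right h4 (by positivity)
    _ = _ := mul_comm _ _

theorem tTotQ (h1 : S_TopKQ) (h2 : S_Cir) (h3 : S_Res) (h4 : S_Avb) : S_TotQ := by
  classical
  obtain ⟨A₀, N, hA₀, hN⟩ := h1
  refine ⟨4 * A₀ + 2, max N 6561, by omega, ?_⟩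
  intro n hn m hm k hk hkA t ht P hsound hwalks
  have hnN : N ≤ n := le_trans (le_max_left _ _) hn
  have hn2 : 6561 ≤ n := le_trans (le_max_right _ _) hn
  have hn0 : (0 : ℝ) < n := by
    have : (6561 : ℝ) ≤ n := by exact_mod_cast hn2
    linarith
  have hlog : 8 ≤ Real.log n := by
    have h5 : Real.exp 1 ≤ 3 := by linarith [Real.exp_one_lt_d9]
    have h6 : Real.exp 8 ≤ n := by
      have h7 : Real.exp 8 = Real.exp 1 ^ 8 := by
        rw [← Real.exp_nat_mul]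
        norm_num
      rw [h7]
      calc Real.exp 1 ^ 8 ≤ 3 ^ 8 := pow_le_pow_left₀ (Real.exp_pos _).le h5 8
        _ = 6561 := by norm_num
        _ ≤ n := by exact_mod_cast hn2
    rwa [Real.le_log_iff_exp_le hn0]
  have hpow := totq_pow A₀ k hk
  have hk4 : ((4 * k + 1 : ℕ) : ℝ) ^ A₀ ≤ Real.log n / 4 := by linarith
  set ε : ℝ := Real.exp (-((4 * k + 1 : ℕ) : ℝ) ^ A₀) with hεdef
  have hε : 0 < ε := Real.exp_pos _
  have hn7 : 7 ≤ ε * n := by
    have h5 : ε * n = Real.exp (Real.log n - ((4 * k + 1 : ℕ) : ℝ) ^ A₀) := by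
      rw [Real.exp_sub, Real.exp_log hn0, hεdef, Real.exp_neg]
      rw [div_eq_mul_inv, mul_comm]
    rw [h5]
    have h6 := Real.add_one_le_exp (Real.log n - ((4 * k + 1 : ℕ) : ℝ) ^ A₀)
    linarith
  have hle : Real.exp (-(k : ℝ) ^ (4 * A₀ + 2)) * n ≤ ε * n := by
    refine mul_le_mul_of_nonneg_right (Real.exp_le_exp.2 ?_) hn0.le
    have : (0 : ℝ) ≤ ((4 * k + 1 : ℕ) : ℝ) ^ A₀ := by positivity
    linarith
  refine le_trans (Real.exp_le_exp.2 hle) ?_
  obtain ⟨c₀, ⟨B, hB1, hB2⟩, hmain⟩ := hN n hnN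
  have hm2 : 6 * Fintype.card (Coef n) + 6 * n + 3 ≤ m := by
    have h4 := card_coef n
    have h5 : 1 + 4 * n ≤ (n + 1) ^ 4 := by nlinarith [sq_nonneg n, sq_nonneg (n ^ 2)]
    omega
  obtain ⟨c, hc⟩ := h2 n m c₀ hm2
  have hval : ∀ y, Val n m c y ↔ fq c₀ y := fun y => (val_iff n m c y).trans (hc y)
  have hBne : B.Nonempty := by
    rw [← card_pos]
    exact lt_of_lt_of_le (by positivity) hB2
  have hm1 : 1 ≤ m := by omega
  have ht1 : 1 ≤ t := by
    rcases Nat.eq_zero_or_pos t with h0 | h0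
    · subst h0
      have h5 : 0 < Fintype.card (CBits n m) :=
        Fintype.card_pos_iff.2 ⟨Sum.inr ⟨0, by omega⟩⟩
      omega
    · exact h0
  -- the walks
  have hM : ∀ y : Fin t → Fin n → Bool, (∀ j, y j ∈ B) → ∃ v l, P.acc v ∧ Walk P P.start l v ∧
      Consistent (Sum.elim c (fun p : Fin t × Fin n => y p.1 p.2)) l ∧
      l.length ≤ (2 * k * n) * t := by
    intro y hy
    obtain ⟨v, l, a1, a2, a3, a4⟩ := hwalks (Sum.elim c (fun p : Fin t × Fin n => y p.1 p.2))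
      (fun j => (hval (y j)).2 (hB1 _ (hy j)))
    refine ⟨v, l, a1, a2, a3, a4.trans ?_⟩
    rw [Fintype.card_sum, Fintype.card_prod, Fintype.card_fin, Fintype.card_fin]
    calc k * (Fintype.card (CBits n m) + t * n) ≤ k * (t * n + t * n) :=
          Nat.mul_le_mul_left _ (Nat.add_le_add_right ht _)
      _ = (2 * k * n) * t := by ring
  choose! V Lw hW using hM
  let T : (Fin t → Fin n → Bool) → Fin t → ℕ := fun y j => blk (Lw y) j
  obtain ⟨j, y, hy, hcard⟩ := h4 t (2 * k * n) (Fin n → Bool) B T ht1 hBne (by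
    intro y hy
    exact (sum_blk (Lw y)).trans (hW y hy).2.2.2)
  obtain ⟨P', hPc, -, hacc, hwalk⟩ := h3 (CBits n m ⊕ Fin t × Fin n) (Fin n) P (sj c y j)
    (fun a b i ha hb => by rw [sj_inr ha, sj_inr hb])
  rw [← hPc]
  refine hmain (4 * k + 1) (by omega) (by linarith) P' 0
    (by rw [Nat.cast_zero]; exact mul_nonneg hε.le hn0.le) ?_
    (B.filter (fun u => T (Function.update y j u) j ≤ 2 * (2 * k * n))) ?_ ?_
  · intro u hu
    have h5 := (hacc u).1 hu
    rw [sj_val] at h5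
    have h6 := hsound _ h5 j
    have h7 : (fun i => (Sum.elim c (fun p : Fin t × Fin n => Function.update y j u p.1 p.2) :
        CBits n m ⊕ Fin t × Fin n → Bool) (Sum.inr (j, i))) = u := by
      funext i
      show Function.update y j u j i = u i
      rw [Function.update_self]
    rw [h7] at h6
    exact (hval u).1 h6
  · intro u hu
    obtain ⟨huB, huT⟩ := mem_filter.1 hu
    have hy' : ∀ i, Function.update y j u i ∈ B := by
      intro i
      by_cases hi : i = j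
      · subst hi
        rw [Function.update_self]
        exact huB
      · rw [Function.update_of_ne hi]
        exact hy i
    obtain ⟨a1, a2, a3, -⟩ := hW _ hy'
    obtain ⟨v', b1, b2, b3⟩ := hwalk u _ _ a1 a2 (by rw [sj_val]; exact a3)
    refine ⟨v', _, ∅, b1, b2, b3, by simp, ?_⟩
    refine (List.length_filter_le _ _).trans ?_
    rw [List.length_map, subl_length]
    refine le_trans huT ?_
    nlinarith
  · have h5 : (B.card : ℝ) ≤ 2 * ((B.filter (fun u => T (Function.update y j u) j ≤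
        2 * (2 * k * n))).card : ℝ) := by exact_mod_cast hcard
    have h6 : (2 : ℝ) ^ (n - 2) ≤ B.card := by exact_mod_cast hB2
    have h7 : (2 : ℝ) ^ n ≤ 4 * 2 ^ (n - 2) := by
      have : n = (n - 2) + 2 := by omega
      conv_lhs => rw [this]
      rw [pow_add]
      norm_num
      linarith
    have h8 : Real.exp (-(ε * n)) ≤ 1 / 8 := by
      rw [Real.exp_neg, one_div]
      apply inv_anti₀ (by norm_num)
      have := Real.add_one_le_exp (ε * n)
      linarith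
    calc (2 : ℝ) ^ n * Real.exp (-(ε * n)) ≤ 2 ^ n * (1 / 8) :=
          mul_le_mul_of_nonneg_left h8 (by positivity)
      _ ≤ _ := by linarith

end SRBP
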