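import Pool.Agent.Lib.MP_9dcf40_lc.SR.Cheap
import Pool.Agent.Lib.MP_9dcf40_lc.SR.Cut

/-!
# Tools for section 0: cutting walks, canonical choice, pigeonhole
-/

namespace SRBP

open Finset

namespace ProgA

open scoped Classical

/-- Splitting a list by the number of letters with a property. -/
theorem split_list {α : Type} (p : α → Bool) : ∀ (l : List α) (L M : ℕ),
    (l.filter p).length ≤ L + M → ∃ l₁ l₂, l = l₁ ++ l₂ ∧ (l₁.filter p).length ≤ L ∧
      (l₂.filter p).length ≤ M := by
  intro l
  induction l with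
  | nil => intro L M _; exact ⟨[], [], rfl, by simp, by simp⟩
  | cons a l ih =>
    intro L M h
    by_cases ha : p a = true
    · cases L with
      | zero => exact ⟨[], a :: l, rfl, by simp, by simpa using h⟩
      | succ L =>
        rw [List.filter_cons_of_pos ha, List.length_cons] at h
        obtain ⟨l₁, l₂, h1, h2, h3⟩ := ih L M (by omega)
        refine ⟨a :: l₁, l₂, by rw [h1]; rfl, ?_, h3⟩
        rw [List.filter_cons_of_pos ha, List.length_cons]
        omega
    · have ha' : ¬ (p a = true) := ha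
      rw [List.filter_cons_of_neg ha'] at h
      obtain ⟨l₁, l₂, h1, h2, h3⟩ := ih L M h
      refine ⟨a :: l₁, l₂, by rw [h1]; rfl, ?_, h3⟩
      rw [List.filter_cons_of_neg ha']
      exact h2

/-- Cutting a walk into `k + 1` pieces with at most `L` letters with the property each. -/
theorem cutp {ι : Type} (P : NBP ι) (p : ι × Bool → Bool) (L : ℕ) (k : ℕ) :
    ∀ (l : List (ι × Bool)) (u w : P.V), Walk P u l w → (l.filter p).length ≤ (k + 1) * L →
    ∃ (q : Fin (k + 1 + 1) → P.V) (seg : Fin (k + 1) → List (ι × Bool)), q 0 = u ∧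
      q (Fin.last (k + 1)) = w ∧
      (∀ i : Fin (k + 1), Walk P (q i.castSucc) (seg i) (q i.succ)) ∧
      (∀ i, ((seg i).filter p).length ≤ L) ∧
      ∀ i, ∀ a ∈ seg i, a ∈ l := by
  induction k with
  | zero =>
    intro l u w h hl
    refine ⟨Fin.cons u (fun _ => w), fun _ => l, rfl, rfl, ?_, ?_, ?_⟩
    · intro i
      have hi : i = 0 := Fin.ext (by omega)
      subst hi
      exact h
    · intro i
      simpa using hl
    · intro i a ha
      exact ha
  | succ k ih =>
    intro l u w h hl
    obtain ⟨l₁, l₂, e, h1, h2⟩ := split_list p l L ((k + 1) * L) (by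
      refine hl.trans (le_of_eq ?_); ring)
    obtain ⟨v, hv1, hv2⟩ := CutAux.walk_split h l₁ l₂ e
    obtain ⟨q, seg, hq0, hq1, hw, hlen, hmem⟩ := ih l₂ v w hv2 h2
    refine ⟨Fin.cons u q, Fin.cons l₁ seg, rfl, ?_, ?_, ?_, ?_⟩
    · rw [← Fin.succ_last, Fin.cons_succ, hq1]
    · intro i
      refine Fin.cases ?_ ?_ i
      · simp only [Fin.castSucc_zero, Fin.cons_zero, Fin.cons_succ]
        rw [hq0]
        exact hv1
      · intro j
        simp only [Fin.cons_succ, ← Fin.succ_castSucc]
        exact hw j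
    · intro i
      refine Fin.cases ?_ ?_ i
      · simpa using h1
      · intro j
        simpa using hlen j
    · intro i
      refine Fin.cases ?_ ?_ i
      · intro a ha
        rw [e]
        exact List.mem_append_left _ (by simpa using ha)
      · intro j a ha
        rw [e]
        exact List.mem_append_right _ (hmem j a (by simpa using ha))

/-- Canonical choice. -/
theorem canon {S X : Type} [Finite S] (cand : S → Prop) (compat : S → X → Prop) (F : Set X)
    (h : ∀ x ∈ F, ∃ s, cand s ∧ compat s x) [Nonempty S] :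
    ∃ σ : X → S, (∀ x ∈ F, cand (σ x) ∧ compat (σ x) x) ∧
      ∀ x ∈ F, ∀ y ∈ F, compat (σ x) y → compat (σ y) x → σ x = σ y := by
  obtain ⟨m, ⟨e⟩⟩ := Finite.exists_equiv_fin S
  -- the least index
  have hmin : ∀ x : X, ∃ s : S, x ∈ F → (cand s ∧ compat s x) ∧
      ∀ s', cand s' → compat s' x → (e s : ℕ) ≤ e s' := by
    intro x
    by_cases hx : x ∈ F
    · obtain ⟨s₀, hs₀⟩ := h x hx
      have hne : ∃ i : ℕ, ∃ s, (e s : ℕ) = i ∧ cand s ∧ compat s x := ⟨_, s₀, rfl, hs₀⟩
      obtain ⟨s, hs1, hs2⟩ := Nat.find_spec hne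
      refine ⟨s, fun _ => ⟨hs2, ?_⟩⟩
      intro s' h1 h2
      rw [hs1]
      exact Nat.find_min' hne ⟨s', rfl, h1, h2⟩
    · exact ⟨Classical.arbitrary S, fun h => absurd h hx⟩
  choose σ hσ using hmin
  refine ⟨σ, fun x hx => (hσ x hx).1, ?_⟩
  intro x hx y hy h1 h2
  have a1 := (hσ x hx).2 (σ y) (hσ y hy).1.1 h2
  have a2 := (hσ y hy).2 (σ x) (hσ x hx).1.1 h1
  exact e.injective (Fin.ext (le_antisymm a1 a2))

/-- Pigeonhole. -/
theorem pigeon {α γ : Type} [Fintype γ] (F : Finset α) (g : α → γ) (hγ : Nonempty γ) :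
    ∃ c, (F.card : ℝ) ≤ Fintype.card γ * ((F.filter (fun x => g x = c)).card : ℝ) := by
  by_contra hcon
  push Not at hcon
  have h1 : ∑ c : γ, ((F.filter (fun x => g x = c)).card : ℝ) = F.card := by
    rw [card_eq_sum_card_fiberwise (f := g) (t := univ) (fun x _ => mem_univ _)]
    push_cast
    rfl
  have hγ0 : (0 : ℝ) < Fintype.card γ := by exact_mod_cast Fintype.card_pos
  have h2 : ∑ c : γ, (Fintype.card γ : ℝ) * ((F.filter (fun x => g x = c)).card : ℝ) <
      ∑ _c : γ, (F.card : ℝ) := by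
    apply sum_lt_sum_of_nonempty univ_nonempty
    intro c _
    exact hcon c
  rw [← mul_sum, h1, sum_const, nsmul_eq_mul, card_univ] at h2
  exact lt_irrefl _ h2

end ProgA

end SRBP
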