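import Pool.Agent.Lib.MP_9dcf40_lc.LIN.Spec
import Pool.Agent.Lib.MP_9dcf40_lc.LIN.ProgA

/-!
# Theorem K: from programs to consistent systems (S_Prog)
-/

set_option autoImplicit false

namespace SRBP

open Finset

namespace ProgB

open scoped Classical

/-- Concatenation of consistent walks. -/
theorem join' {ι : Type} (P : NBP ι) (z : ι → Bool) (k : ℕ) : ∀ (q : Fin (k + 1) → P.V),
    (∀ i : Fin k, ∃ l, Walk P (q i.castSucc) l (q i.succ) ∧ Consistent z l) →
    ∃ l, Walk P (q 0) l (q (Fin.last k)) ∧ Consistent z l := by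
  induction k with
  | zero =>
    intro q _
    refine ⟨[], ?_, ?_⟩
    · exact Walk.nil _
    · intro p hp
      simp at hp
  | succ k ih =>
    intro q h
    obtain ⟨l₁, h1, h2⟩ := h 0
    obtain ⟨l₂, h3, h4⟩ := ih (fun i => q i.succ) (fun i => by
      have := h i.succ
      rw [← Fin.succ_castSucc] at this
      exact this)
    refine ⟨l₁ ++ l₂, ?_, ?_⟩
    · rw [← Fin.succ_last]
      exact CutAux.walk_append h1 h3
    · intro p hp
      rcases List.mem_append.1 hp with hp | hp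
      · exact h2 p hp
      · exact h4 p hp

/-- The number of pairs (small set, subset of it). -/
theorem card_pairs (n s : ℕ) : ((((univ : Finset (Finset (Fin n))).filter
    (fun S => S.card ≤ s)).sigma (fun E => E.powerset)).card : ℝ) ≤ ball n s * 2 ^ s := by
  rw [Finset.card_sigma]
  push_cast
  calc ∑ E ∈ (univ : Finset (Finset (Fin n))).filter (fun S => S.card ≤ s),
        ((E.powerset.card : ℕ) : ℝ)
      ≤ ∑ E ∈ (univ : Finset (Finset (Fin n))).filter (fun S => S.card ≤ s), (2 : ℝ) ^ s := by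
        apply Finset.sum_le_sum
        intro E hE
        rw [Finset.card_powerset]
        push_cast
        exact pow_le_pow_right₀ (by norm_num) (Finset.mem_filter.1 hE).2
    _ = ball n s * 2 ^ s := by
        rw [Finset.sum_const, nsmul_eq_mul]
        rfl

theorem pigeonB {α γ : Type} (A : Finset α) (g : α → γ) (B : Finset γ) (hB : ∀ a ∈ A, g a ∈ B)
    (hA : A.Nonempty) : ∃ c ∈ B, (A.card : ℝ) ≤ B.card * ((A.filter (fun a => g a = c)).card : ℝ) := by
  have hBne : B.Nonempty := by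
    obtain ⟨a, ha⟩ := hA
    exact ⟨g a, hB a ha⟩
  obtain ⟨b, hb, hmax⟩ := Finset.exists_max_image B
    (fun b => (A.filter fun s => g s = b).card) hBne
  refine ⟨b, hb, ?_⟩
  have : A.card ≤ B.card * (A.filter fun s => g s = b).card := by
    calc A.card = ∑ b' ∈ B, (A.filter fun s => g s = b').card :=
          Finset.card_eq_sum_card_fiberwise
            (fun s hs => Finset.mem_coe.2 (hB s (Finset.mem_coe.1 hs)))
      _ ≤ ∑ b' ∈ B, (A.filter fun s => g s = b).card :=
          Finset.sum_le_sum fun b' hb' => hmax b' hb'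
      _ = B.card * (A.filter fun s => g s = b).card := by
          rw [Finset.sum_const, smul_eq_mul]
  exact_mod_cast this

end ProgB

open ProgB in
open scoped Classical in
theorem tProg : S_Prog := by
  intro n r k s ℓ P A hr hkl hA hdat
  obtain ⟨r, rfl⟩ : ∃ r', r = r' + 1 := ⟨r - 1, by omega⟩
  -- the data of each input
  have hD : ∀ y : Fin n → Bool, ∃ (E : Finset (Fin n)) (q : Fin (r + 1 + 1) → P.V), y ∈ A →
      E.card ≤ s ∧ q 0 = P.start ∧ P.acc (q (Fin.last (r + 1))) ∧
      ∀ i : Fin (r + 1), ∃ seg, Walk P (q i.castSucc) seg (q i.succ) ∧ Consistent y seg ∧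
        (seg.filter (fun a => decide (a.1 ∉ E))).length ≤ ℓ := by
    intro y
    by_cases hy : y ∈ A
    · obtain ⟨v, l, E, hv, hw, hc, hE, hlen⟩ := hdat y hy
      rw [List.filter_map, List.length_map] at hlen
      obtain ⟨q, seg, hq0, hq1, hw', hlen', hmem⟩ := ProgA.cutp P (fun a => decide (a.1 ∉ E)) ℓ r l
        P.start v hw (le_trans (le_trans (le_of_eq rfl) hlen) hkl)
      refine ⟨E, q, fun _ => ⟨hE, hq0, by rw [hq1]; exact hv, fun i => ⟨seg i, hw' i, ?_, hlen' i⟩⟩⟩
      intro p hp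
      exact hc p (hmem i p hp)
    · exact ⟨∅, fun _ => P.start, fun h => absurd h hy⟩
  choose E q hEq using hD
  -- pigeonhole
  set g : (Fin n → Bool) → (Σ _ : Finset (Fin n), Finset (Fin n)) × (Fin (r + 1 + 1) → P.V) :=
    fun y => (⟨E y, (E y).filter (fun v => y v = true)⟩, q y) with hg
  obtain ⟨⟨⟨E₀, S₀⟩, q₀⟩, hc, hcard⟩ := pigeonB A g
    (((((univ : Finset (Finset (Fin n))).filter (fun S => S.card ≤ s)).sigma
      (fun E => E.powerset))) ×ˢ (univ : Finset (Fin (r + 1 + 1) → P.V))) (by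
      intro y hy
      rw [Finset.mem_product, Finset.mem_sigma]
      refine ⟨⟨?_, ?_⟩, Finset.mem_univ _⟩
      · exact Finset.mem_filter.2 ⟨Finset.mem_univ _, (hEq y hy).1⟩
      · exact Finset.mem_powerset.2 (Finset.filter_subset _ _)) hA
  set F := A.filter (fun a => g a = ⟨⟨E₀, S₀⟩, q₀⟩) with hF
  have hcard' : (A.card : ℝ) ≤ ((((((univ : Finset (Finset (Fin n))).filter
      (fun S => S.card ≤ s)).sigma (fun E => E.powerset))) ×ˢ
      (univ : Finset (Fin (r + 1 + 1) → P.V))).card : ℝ) * F.card := by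
    refine hcard.trans (le_of_eq ?_)
    congr 2
    rw [hF]
    congr
  have hFd : ∀ x ∈ F, x ∈ A ∧ E x = E₀ ∧ (∀ v ∈ E₀, x v = decide (v ∈ S₀)) ∧ q x = q₀ := by
    intro x hx
    obtain ⟨h1, h2⟩ := Finset.mem_filter.1 hx
    simp only [hg, Prod.mk.injEq] at h2
    obtain ⟨h2, h3⟩ := h2
    rw [Sigma.mk.injEq] at h2
    obtain ⟨h4, h5⟩ := h2
    have h6 : (E x).filter (fun v => x v = true) = S₀ := eq_of_heq h5
    refine ⟨h1, h4, ?_, h3⟩
    intro v hv
    have h7 : v ∈ S₀ ↔ x v = true := by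
      rw [← h6, h4, Finset.mem_filter]
      exact ⟨fun h => h.2, fun h => ⟨hv, h⟩⟩
    by_cases hxv : x v = true
    · rw [hxv]
      simp [h7, hxv]
    · have : x v = false := by simpa using hxv
      rw [this]
      simp [h7, this]
  have hFne : F.Nonempty := by
    rw [Finset.nonempty_iff_ne_empty]
    intro h
    rw [h, Finset.card_empty, Nat.cast_zero, mul_zero] at hcard'
    have : (0 : ℝ) < A.card := by exact_mod_cast hA.card_pos
    linarith
  -- the labels
  have hσ : ∀ j : Fin (r + 1), ∃ σ : (Fin n → Bool) → (Fin n → Option Bool),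
      (∀ x ∈ (F : Set (Fin n → Bool)),
        (((univ.filter (fun v => (σ x v).isSome)).card ≤ ℓ ∧
          ∃ seg, Walk P (q₀ j.castSucc) seg (q₀ j.succ) ∧
            (∀ a ∈ seg, a.1 ∈ E₀ → a.2 = decide (a.1 ∈ S₀)) ∧
            (∀ a ∈ seg, a.1 ∉ E₀ → σ x a.1 = some a.2))) ∧
          (∀ v c, σ x v = some c → x v = c)) ∧
      ∀ x ∈ (F : Set (Fin n → Bool)), ∀ y ∈ (F : Set (Fin n → Bool)),
        (∀ v c, σ x v = some c → y v = c) → (∀ v c, σ y v = some c → x v = c) → σ x = σ y := by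
    intro j
    apply ProgA.canon (S := Fin n → Option Bool)
      (fun b => (univ.filter (fun v => (b v).isSome)).card ≤ ℓ ∧
          ∃ seg, Walk P (q₀ j.castSucc) seg (q₀ j.succ) ∧
            (∀ a ∈ seg, a.1 ∈ E₀ → a.2 = decide (a.1 ∈ S₀)) ∧
            (∀ a ∈ seg, a.1 ∉ E₀ → b a.1 = some a.2))
      (fun b x => ∀ v c, b v = some c → x v = c) (F : Set (Fin n → Bool))
    intro x hx
    obtain ⟨hxA, hxE, hxS, hxq⟩ := hFd x (Finset.mem_coe.1 hx)
    obtain ⟨_, _, _, hseg⟩ := hEq x hxA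
    obtain ⟨seg, hw, hcons, hlen⟩ := hseg j
    rw [hxq] at hw
    rw [hxE] at hlen
    refine ⟨fun v => if v ∉ E₀ ∧ ∃ a ∈ seg, a.1 = v then some (x v) else none,
      ⟨?_, seg, hw, ?_, ?_⟩, ?_⟩
    · refine le_trans ?_ hlen
      calc (univ.filter (fun v => ((fun v => if v ∉ E₀ ∧ ∃ a ∈ seg, a.1 = v then some (x v)
              else none) v).isSome)).card
          ≤ (((seg.filter (fun a => decide (a.1 ∉ E₀))).map Prod.fst).toFinset).card := by
            apply Finset.card_le_card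
            intro v hv
            have h1 := (Finset.mem_filter.1 hv).2
            by_cases h2 : v ∉ E₀ ∧ ∃ a ∈ seg, a.1 = v
            · obtain ⟨h3, a, ha, hav⟩ := h2
              rw [List.mem_toFinset, List.mem_map]
              refine ⟨a, ?_, hav⟩
              rw [List.mem_filter]
              refine ⟨ha, ?_⟩
              rw [hav]
              simpa using h3
            · simp only [if_neg h2] at h1
              simp at h1
        _ ≤ ((seg.filter (fun a => decide (a.1 ∉ E₀))).map Prod.fst).length :=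
            List.toFinset_card_le _
        _ = (seg.filter (fun a => decide (a.1 ∉ E₀))).length := List.length_map _
    · intro a ha haE
      rw [← hcons a ha]
      exact hxS a.1 haE
    · intro a ha haE
      have h2 : a.1 ∉ E₀ ∧ ∃ a' ∈ seg, a'.1 = a.1 := ⟨haE, a, ha, rfl⟩
      simp only [if_pos h2]
      rw [hcons a ha]
    · intro v c hvc
      by_cases h2 : v ∉ E₀ ∧ ∃ a ∈ seg, a.1 = v
      · simp only [if_pos h2] at hvc
        exact Option.some.inj hvc
      · simp only [if_neg h2] at hvc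
        exact absurd hvc (by simp)
  choose σ hσ1 hσ2 using hσ
  have hdm : ∀ (b : Fin n → Option Bool) (v : Fin n),
      v ∈ univ.filter (fun v => (b v).isSome) ↔ ∃ c, b v = some c := by
    intro b v
    rw [Finset.mem_filter, Option.isSome_iff_exists]
    exact ⟨fun h => h.2, fun h => ⟨Finset.mem_univ _, h⟩⟩
  refine ⟨F, Finset.filter_subset _ _, hFne, ?_, σ, fun b => univ.filter (fun v => (b v).isSome),
    ⟨?_, ?_⟩, ?_, E₀, ?_, ?_⟩
  · have h1 := card_pairs n s
    have h2 : ((((((univ : Finset (Finset (Fin n))).filter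
      (fun S => S.card ≤ s)).sigma (fun E => E.powerset))) ×ˢ
      (univ : Finset (Fin (r + 1 + 1) → P.V))).card : ℝ) ≤
        (ball n s * 2 ^ s) * (Fintype.card P.V : ℝ) ^ (r + 1 + 1) := by
      rw [Finset.card_product, Nat.cast_mul, Finset.card_univ, Fintype.card_fun, Fintype.card_fin,
        Nat.cast_pow]
      exact mul_le_mul_of_nonneg_right h1 (pow_nonneg (Nat.cast_nonneg _) _)
    exact hcard'.trans (mul_le_mul_of_nonneg_right h2 (Nat.cast_nonneg _))
  · intro j x hx y hy hxy v hv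
    obtain ⟨c, hc'⟩ := (hdm _ _).1 hv
    have h1 := (hσ1 j x (Finset.mem_coe.2 hx)).2 v c hc'
    have h2 := (hσ1 j y (Finset.mem_coe.2 hy)).2 v c (by rw [← hxy]; exact hc')
    rw [h1, h2]
  · intro j x hx y hy h1 h2
    apply hσ2 j x (Finset.mem_coe.2 hx) y (Finset.mem_coe.2 hy)
    · intro v c hvc
      rw [← h1 v ((hdm _ _).2 ⟨c, hvc⟩)]
      exact (hσ1 j x (Finset.mem_coe.2 hx)).2 v c hvc
    · intro v c hvc
      rw [h2 v ((hdm _ _).2 ⟨c, hvc⟩)]
      exact (hσ1 j y (Finset.mem_coe.2 hy)).2 v c hvc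
  · intro x hx j
    exact (hσ1 j x (Finset.mem_coe.2 hx)).1.1
  · intro x hx y hy v hv
    rw [(hFd x hx).2.2.1 v hv, (hFd y hy).2.2.1 v hv]
  · rintro z ⟨x, hx, hzx⟩ hz
    obtain ⟨hxA, hxE, hxS, hxq⟩ := hFd x hx
    obtain ⟨_, hq0, hqa, _⟩ := hEq x hxA
    rw [hxq] at hq0 hqa
    obtain ⟨l, hl1, hl2⟩ := join' P z (r + 1) q₀ (by
      intro j
      obtain ⟨y, hy, hzy⟩ := hz j
      obtain ⟨⟨_, seg, hw, hs1, hs2⟩, hs3⟩ := hσ1 j y (Finset.mem_coe.2 hy)
      refine ⟨seg, hw, ?_⟩
      intro a ha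
      by_cases haE : a.1 ∈ E₀
      · rw [hzx a.1 haE, hxS a.1 haE, ← hs1 a ha haE]
      · have h1 := hs2 a ha haE
        rw [hzy a.1 ((hdm _ _).2 ⟨a.2, h1⟩)]
        exact hs3 a.1 a.2 h1)
    rw [hq0] at hl1
    exact ⟨_, l, hqa, hl1, hl2⟩

end SRBP
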