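import Pool.Agent.Lib.MP_9dcf40_lc.LIN.Spec

/-!
# Theorem K (MP_9dcf40_lc): the hybrids of a row and a column
-/

namespace SRBP

open Finset

theorem tHyb : S_Hyb := by
  classical
  intro n r β F sg dm N G J hC ω hω
  have hx : ω.1 ∈ F := (mem_product.1 hω).1
  have hV : ω.2 ⊆ N \ G := mem_powerset.1 (mem_product.1 hω).2
  refine ⟨?_, ?_, ?_⟩
  · intro y hy
    unfold rows at hy
    exact ⟨(mem_filter.1 hy).1, (mem_filter.1 hy).2.1⟩
  · intro y hy
    unfold cols at hy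
    exact ⟨(mem_filter.1 hy).1, fun v hv => (mem_filter.1 hy).2.1 v (mem_sdiff.1 (hV hv)).2⟩
  · intro y hy y' hy'
    unfold rows at hy
    unfold cols at hy'
    obtain ⟨hyF, hy1, hy2, hy3⟩ := mem_filter.1 hy
    obtain ⟨hy'F, hz1, hz2, hz3⟩ := mem_filter.1 hy'
    refine ⟨?_, ?_⟩
    · intro j hj v hv
      have hvV : v ∉ ω.2 := by
        intro h
        exact disjoint_left.1 hz3 h (mem_biUnion.2 ⟨j, hj, hv⟩)
      unfold glue
      rw [if_neg hvV]
    · intro j hj v hv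
      unfold glue
      by_cases hvV : v ∈ ω.2
      · rw [if_pos hvV]
      · rw [if_neg hvV, hy1 v hvV]
        by_cases hvG : v ∈ G
        · have h1 : v ∈ DJ sg dm Jᶜ y ∩ G :=
            mem_inter.2 ⟨mem_biUnion.2 ⟨j, mem_compl.2 hj, hv⟩, hvG⟩
          rw [hy3] at h1
          obtain ⟨j', hj', hvj'⟩ := mem_biUnion.1 (mem_inter.1 h1).1
          exact (hC.val j' ω.1 hx y' hy'F (hz2 j' (mem_compl.1 hj')).symm v hvj').symm
        · exact hz1 v hvG

end SRBP
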