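import Pool.Agent.Lib.MP_9dcf40_lc.LIN.HitT
import Pool.Agent.Lib.MP_9dcf40_lc.LIN.Spec

/-!
# The columns (section 4)
-/

namespace SRBP

open Finset

/-- Weight of the set `V` if each `v` is in `V` with probability `α v`, independently. -/
noncomputable def kk {n : ℕ} (α : Fin n → ℝ) (V : Finset (Fin n)) : ℝ :=
  ∏ v, if v ∈ V then α v else 1 - α v

open scoped Classical in
/-- COLS0. `F` (the set `F'` of the text), `α x v = a(x) w_v(x)` the probability that `v` is put into `V`
(`0` outside `N \ G` and on `DJ x = D_J(x)`), `τ = σ_T`. -/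
def S_Cols0 : Prop := ∀ (n : ℕ) (F : Finset (Fin n → Bool)) (N G : Finset (Fin n)) (β : Type)
  (τ : (Fin n → Bool) → β) (dm : β → Finset (Fin n)) (DJ : (Fin n → Bool) → Finset (Fin n))
  (α : (Fin n → Bool) → Fin n → ℝ) (v₀ : ℝ), F.Nonempty →
  (∀ x ∈ F, ∀ y ∈ F, (∀ v ∈ dm (τ x), x v = y v) → (∀ v ∈ dm (τ y), x v = y v) → τ x = τ y) →
  (∀ x ∈ F, ∀ v, 0 ≤ α x v ∧ α x v ≤ 1) → (∀ x ∈ F, ∀ v, v ∉ N → α x v = 0) →
  (∀ x ∈ F, ∀ v ∈ DJ x, α x v = 0) → 0 < v₀ → v₀ ≤ 1 / 2 →
  ∑ x ∈ F, ∑ v, α x v ≤ v₀ * N.card * F.card →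
  G.card * Real.log 2 - 2 * (n * Real.log 2 - Real.log F.card) -
    2 * ((∑ x ∈ F, ((dm (τ x) ∩ G).card : ℝ)) / F.card) - N.card * Real.binEntropy v₀ ≤
  (∑ x ∈ F, ∑ V : Finset (Fin n), kk (α x) V * Real.log ((F.filter (fun y =>
    HitT.off G y = HitT.off G x ∧ τ y = τ x ∧ Disjoint V (DJ y))).card)) / F.card

namespace Cols

open scoped Classical

variable {n : ℕ}

theorem sum_sets (a b : Fin n → ℝ) :
    ∑ V : Finset (Fin n), ∏ v, (if v ∈ V then a v else b v) = ∏ v, (a v + b v) := by
  rw [Finset.prod_add]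
  rw [powerset_univ]
  apply sum_congr rfl
  intro V _
  rw [Finset.prod_ite]
  congr 1
  · apply prod_congr _ fun _ _ => rfl
    ext v; simp
  · apply prod_congr _ fun _ _ => rfl
    ext v; simp

theorem sum_kk (α : Fin n → ℝ) : ∑ V : Finset (Fin n), kk α V = 1 := by
  unfold kk
  have h := sum_sets α (fun v => 1 - α v)
  simp only [add_sub_cancel, prod_const_one] at h
  convert h

/-- Expectation of a sum under a product measure on sets. -/
theorem sum_kk_lin (f A B : Fin n → ℝ) :
    ∑ V : Finset (Fin n), kk f V *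
      (∑ v, (if v ∈ V then A v else B v)) = ∑ v, (f v * A v + (1 - f v) * B v) := by
  unfold kk
  simp_rw [mul_sum]
  rw [sum_comm]
  apply sum_congr rfl
  intro v _
  have h1 : ∀ V : Finset (Fin n), (∏ u, (if u ∈ V then f u else 1 - f u)) *
      (if v ∈ V then A v else B v) =
      ∏ u, (if u ∈ V then (f u * if u = v then A v else 1) else
        ((1 - f u) * if u = v then B v else 1)) := by
    intro V
    have h2 : (if v ∈ V then A v else B v) =
        ∏ u, (if u = v then (if v ∈ V then A v else B v) else 1) := by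
      rw [Finset.prod_ite_eq' univ v (fun _ => (if v ∈ V then A v else B v))]
      simp
    rw [h2, ← prod_mul_distrib]
    apply prod_congr rfl
    intro u _
    by_cases huv : u = v
    · subst huv
      by_cases hu : u ∈ V <;> simp [hu]
    · by_cases hu : u ∈ V <;> simp [hu, huv]
  have h3 := sum_sets (fun u => f u * if u = v then A v else 1)
    (fun u => (1 - f u) * if u = v then B v else 1)
  calc _ = ∑ V : Finset (Fin n), ∏ u, (if u ∈ V then (f u * if u = v then A v else 1) else
        ((1 - f u) * if u = v then B v else 1)) := by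
        apply sum_congr rfl
        intro V _
        rw [← h1 V]
    _ = _ := h3
    _ = _ := by
        rw [← Finset.mul_prod_erase univ _ (mem_univ v)]
        rw [Finset.prod_congr rfl (g := fun _ => (1 : ℝ))]
        · simp
        · intro u hu
          have : u ≠ v := (mem_erase.mp hu).1
          simp [this]

theorem kk_nonneg {α : Fin n → ℝ} (h0 : ∀ v, 0 ≤ α v) (h1 : ∀ v, α v ≤ 1) (V : Finset (Fin n)) :
    0 ≤ kk α V := by
  unfold kk
  apply prod_nonneg
  intro v _
  split_ifs
  · exact h0 v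
  · linarith [h1 v]

theorem kk_le_one {α : Fin n → ℝ} (h0 : ∀ v, 0 ≤ α v) (h1 : ∀ v, α v ≤ 1) (V : Finset (Fin n)) :
    kk α V ≤ 1 := by
  unfold kk
  apply prod_le_one
  · intro v _
    split_ifs
    · exact h0 v
    · linarith [h1 v]
  · intro v _
    split_ifs
    · exact h1 v
    · linarith [h0 v]

theorem kk_ne {α : Fin n → ℝ} {V : Finset (Fin n)} (h : kk α V ≠ 0) : ∀ v ∈ V, α v ≠ 0 := by
  intro v hv h0
  apply h
  unfold kk
  apply prod_eq_zero (mem_univ v)
  simp [hv, h0]

theorem fib_pos {α β : Type} {F : Finset α} (f : α → β) {x : α} (hx : x ∈ F) : 0 < fib F f x :=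
  HitT.fib_pos' f hx

/-- The Gibbs step. -/
theorem gibbs_cols {γ : Type} (F : Finset (Fin n → Bool)) (N : Finset (Fin n)) (f : (Fin n → Bool) → γ)
    (DJ : (Fin n → Bool) → Finset (Fin n)) (α : (Fin n → Bool) → Fin n → ℝ) (v₀ : ℝ)
    (hF : F.Nonempty) (h0 : ∀ x ∈ F, ∀ v, 0 ≤ α x v) (h1 : ∀ x ∈ F, ∀ v, α x v ≤ 1)
    (hN : ∀ x ∈ F, ∀ v, v ∉ N → α x v = 0) (hD : ∀ x ∈ F, ∀ v ∈ DJ x, α x v = 0)
    (hv0 : 0 < v₀) (hv1 : v₀ ≤ 1 / 2) (hS : ∑ x ∈ F, ∑ v, α x v ≤ v₀ * N.card * F.card) :
    Real.log F.card - ent F f - N.card * Real.binEntropy v₀ ≤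
    (∑ x ∈ F, ∑ V : Finset (Fin n), kk (α x) V * Real.log ((F.filter (fun y =>
      f y = f x ∧ Disjoint V (DJ y))).card)) / F.card := by
  have hFpos : (0 : ℝ) < F.card := by exact_mod_cast hF.card_pos
  set q : Finset (Fin n) → ℝ := fun V => ∏ v, (if v ∈ V then (if v ∈ N then v₀ else 0) else
    (if v ∈ N then 1 - v₀ else 1)) with hq
  have hq0 : ∀ V, 0 ≤ q V := by
    intro V
    rw [hq]
    apply prod_nonneg
    intro v _
    split_ifs <;> linarith
  have hqs : ∑ V, q V = 1 := by
    rw [hq]
    rw [sum_sets]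
    apply prod_eq_one
    intro v _
    split_ifs <;> ring
  set c : (Fin n → Bool) → Finset (Fin n) → ℝ := fun x V => ((F.filter (fun y =>
      f y = f x ∧ Disjoint V (DJ y))).card : ℝ) with hc
  set m : (Fin n → Bool) → ℝ := fun x => (fib F f x : ℝ) / F.card with hm
  -- one pair
  have hpair : ∀ x ∈ F, ∀ V : Finset (Fin n), kk (α x) V * (Real.log F.card + Real.log (m x) +
      (∑ v, (if v ∈ V then (if v ∈ N then Real.log v₀ else 0) else
        (if v ∈ N then Real.log (1 - v₀) else 0))) - Real.log (c x V)) ≤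
      F.card * (if kk (α x) V ≠ 0 then m x * q V / c x V else 0) - kk (α x) V := by
    intro x hx V
    by_cases hk : kk (α x) V = 0
    · simp [hk]
    rw [if_pos hk]
    have hkpos : 0 < kk (α x) V := lt_of_le_of_ne (kk_nonneg (h0 x hx) (h1 x hx) V) (Ne.symm hk)
    have hk1 : kk (α x) V ≤ 1 := kk_le_one (h0 x hx) (h1 x hx) V
    have hVN : ∀ v ∈ V, v ∈ N := by
      intro v hv
      by_contra hcon
      exact kk_ne hk v hv (hN x hx v hcon)
    have hVD : Disjoint V (DJ x) := by
      rw [disjoint_left]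
      intro v hv hvD
      exact kk_ne hk v hv (hD x hx v hvD)
    have hcpos : 0 < c x V := by
      show (0 : ℝ) < ((F.filter (fun y => f y = f x ∧ Disjoint V (DJ y))).card : ℝ)
      have : 0 < (F.filter (fun y => f y = f x ∧ Disjoint V (DJ y))).card :=
        card_pos.mpr ⟨x, mem_filter.mpr ⟨hx, rfl, hVD⟩⟩
      exact_mod_cast this
    have hmpos : 0 < m x := by
      rw [hm]
      have : (0 : ℝ) < fib F f x := by exact_mod_cast fib_pos f hx
      positivity
    have hqpos : 0 < q V := by
      rw [hq]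
      apply prod_pos
      intro v _
      by_cases hv : v ∈ V
      · simp only [hv, if_true, hVN v hv]
        exact hv0
      · simp only [hv, if_false]
        split_ifs <;> linarith
    have hlogq : ∑ v, (if v ∈ V then (if v ∈ N then Real.log v₀ else 0) else
        (if v ∈ N then Real.log (1 - v₀) else 0)) = Real.log (q V) := by
      rw [hq]
      rw [Real.log_prod]
      · apply sum_congr rfl
        intro v _
        by_cases hv : v ∈ V
        · simp only [hv, if_true, hVN v hv]
        · simp only [hv, if_false]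
          split_ifs <;> simp
      · intro v _
        by_cases hv : v ∈ V
        · simp only [hv, if_true, hVN v hv]
          exact hv0.ne'
        · simp only [hv, if_false]
          split_ifs
          · linarith
          · exact one_ne_zero
    rw [hlogq]
    have h2 := Real.log_le_sub_one_of_pos (x := F.card * (m x * q V / c x V) / kk (α x) V)
      (by positivity)
    rw [Real.log_div (by positivity) hkpos.ne', Real.log_mul hFpos.ne' (by positivity),
      Real.log_div (by positivity) hcpos.ne', Real.log_mul hmpos.ne' hqpos.ne'] at h2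
    have h3 := mul_le_mul_of_nonneg_left h2 hkpos.le
    have h4 : kk (α x) V * (F.card * (m x * q V / c x V) / kk (α x) V - 1) =
        F.card * (m x * q V / c x V) - kk (α x) V := by
      field_simp
    rw [h4] at h3
    have h5 : Real.log (kk (α x) V) ≤ 0 := Real.log_nonpos hkpos.le hk1
    nlinarith
  -- the sum of the right sides
  have hQ : ∑ x ∈ F, ∑ V : Finset (Fin n), (if kk (α x) V ≠ 0 then m x * q V / c x V else 0) ≤ 1 := by
    rw [sum_comm]
    have hV : ∀ V : Finset (Fin n), ∑ x ∈ F, (if kk (α x) V ≠ 0 then m x * q V / c x V else 0) ≤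
        q V := by
      intro V
      have hmaps : ∀ x ∈ F, f x ∈ F.image f := fun x hx => mem_image_of_mem f hx
      rw [← Finset.sum_fiberwise_of_maps_to hmaps]
      have hz : ∀ z ∈ F.image f, ∑ x ∈ F.filter (fun x => f x = z),
          (if kk (α x) V ≠ 0 then m x * q V / c x V else 0) ≤
          ((F.filter (fun x => f x = z)).card : ℝ) / F.card * q V := by
        intro z hz
        set cz : ℝ := ((F.filter (fun y => f y = z ∧ Disjoint V (DJ y))).card : ℝ) with hcz
        have e1 : ∀ x ∈ F.filter (fun x => f x = z),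
            (if kk (α x) V ≠ 0 then m x * q V / c x V else 0) ≤
            (if Disjoint V (DJ x) then ((F.filter (fun x => f x = z)).card : ℝ) / F.card * q V / cz
              else 0) := by
          intro x hx
          obtain ⟨hxF, hxz⟩ := mem_filter.mp hx
          have e2 : m x = ((F.filter (fun x => f x = z)).card : ℝ) / F.card := by
            rw [hm]
            simp only
            unfold fib
            rw [hxz]
          have e3 : c x V = cz := by
            rw [hc, hcz]
            simp only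
            rw [hxz]
          by_cases hk : kk (α x) V = 0
          · rw [if_neg (by simpa using hk)]
            split_ifs
            · have := hq0 V
              positivity
            · exact le_rfl
          · have hVD : Disjoint V (DJ x) := by
              rw [disjoint_left]
              intro v hv hvD
              exact kk_ne hk v hv (hD x hxF v hvD)
            rw [if_pos hk, if_pos hVD, e2, e3]
        refine (sum_le_sum e1).trans ?_
        rw [← sum_filter, filter_filter, sum_const, nsmul_eq_mul]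
        have h6 : 0 ≤ ((F.filter (fun x => f x = z)).card : ℝ) / F.card * q V := by
          have := hq0 V
          positivity
        rcases eq_or_ne cz 0 with h7 | h7
        · rw [h7]; simpa using h6
        · rw [← hcz, mul_div_cancel₀ _ h7]
      refine (sum_le_sum hz).trans (le_of_eq ?_)
      rw [← sum_mul, ← sum_div]
      have h8 : ∑ z ∈ F.image f, ((F.filter (fun x => f x = z)).card : ℝ) = F.card := by
        rw [card_eq_sum_card_fiberwise hmaps]
        push_cast
        rfl
      rw [h8, div_self hFpos.ne', one_mul]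
    exact (sum_le_sum fun V _ => hV V).trans (le_of_eq hqs)
  -- sum up
  have hsum := sum_le_sum fun x hx => sum_le_sum fun V (_ : V ∈ (univ : Finset (Finset (Fin n)))) =>
    hpair x hx V
  simp_rw [sum_sub_distrib, sum_kk, ← mul_sum] at hsum
  have hx : ∀ x ∈ F, ∑ V : Finset (Fin n), kk (α x) V * (Real.log F.card + Real.log (m x) +
      (∑ v, (if v ∈ V then (if v ∈ N then Real.log v₀ else 0) else
        (if v ∈ N then Real.log (1 - v₀) else 0))) - Real.log (c x V)) =
      Real.log F.card + Real.log (m x) + ((∑ v, α x v) * Real.log v₀ +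
        (N.card - ∑ v, α x v) * Real.log (1 - v₀)) -
      ∑ V : Finset (Fin n), kk (α x) V * Real.log (c x V) := by
    intro x hx
    simp_rw [mul_sub, mul_add]
    rw [sum_sub_distrib, sum_add_distrib, sum_add_distrib, ← sum_mul, ← sum_mul, sum_kk, one_mul,
      one_mul, sum_kk_lin (α x) (fun v => if v ∈ N then Real.log v₀ else 0)
        (fun v => if v ∈ N then Real.log (1 - v₀) else 0)]
    congr 2
    have e4 : ∀ v, α x v * (if v ∈ N then Real.log v₀ else 0) + (1 - α x v) *
        (if v ∈ N then Real.log (1 - v₀) else 0) =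
        α x v * Real.log v₀ + ((if v ∈ N then 1 else 0) - α x v) * Real.log (1 - v₀) := by
      intro v
      by_cases hv : v ∈ N
      · simp [hv]
      · simp [hv, hN x hx v hv]
    rw [sum_congr rfl fun v _ => e4 v, sum_add_distrib, ← sum_mul, ← sum_mul, sum_sub_distrib]
    congr 3
    simp
  rw [sum_congr rfl hx, sum_sub_distrib, sum_add_distrib, sum_add_distrib, sum_add_distrib,
    ← sum_mul, ← sum_mul, sum_const, nsmul_eq_mul, sum_sub_distrib, sum_const, nsmul_eq_mul,
    sum_const, nsmul_eq_mul, mul_one] at hsum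
  -- entropy of `f`
  have hent : ∑ x ∈ F, Real.log (m x) = -(F.card * ent F f) := by
    unfold ent
    rw [mul_div_cancel₀ _ hFpos.ne', ← sum_neg_distrib]
    apply sum_congr rfl
    intro x hx
    rw [hm, ← Real.log_inv, inv_div]
  rw [hent] at hsum
  have h9 : F.card * (-(N.card * Real.binEntropy v₀)) ≤ (∑ x ∈ F, ∑ v, α x v) * Real.log v₀ +
      (F.card * N.card - ∑ x ∈ F, ∑ v, α x v) * Real.log (1 - v₀) := by
    have h10 : Real.log v₀ ≤ Real.log (1 - v₀) := Real.log_le_log hv0 (by linarith)
    have h11 : Real.binEntropy v₀ = -(v₀ * Real.log v₀) - (1 - v₀) * Real.log (1 - v₀) := by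
      rw [Real.binEntropy_eq_negMulLog_add_negMulLog_one_sub]
      unfold Real.negMulLog
      ring
    rw [h11]
    nlinarith
  have h12 : (F.card : ℝ) * ∑ x ∈ F, ∑ V : Finset (Fin n),
      (if kk (α x) V ≠ 0 then m x * q V / c x V else 0) ≤ F.card * 1 :=
    mul_le_mul_of_nonneg_left hQ hFpos.le
  rw [le_div_iff₀ hFpos]
  nlinarith

/-- `H(off G) ≤ (n - |G|) log 2`. -/
theorem ent_off_le (G : Finset (Fin n)) (F : Finset (Fin n → Bool)) (hF : F.Nonempty) :
    ent F (HitT.off G) ≤ (n - G.card) * Real.log 2 := by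
  have hFpos : (0 : ℝ) < F.card := by exact_mod_cast hF.card_pos
  set I := F.image (HitT.off G) with hI
  have hcardI : (I.card : ℝ) ≤ 2 ^ (n - G.card) := by
    have h1 : I ⊆ Fintype.piFinset (fun v => if v ∈ G then ({false} : Finset Bool) else univ) := by
      intro c hc
      obtain ⟨x, _, rfl⟩ := mem_image.mp hc
      rw [Fintype.mem_piFinset]
      intro v
      by_cases hv : v ∈ G
      · simp [hv, HitT.off]
      · simp [hv]
    have h2 := card_le_card h1
    rw [Fintype.card_piFinset] at h2
    have h3 : ∏ v : Fin n, (if v ∈ G then ({false} : Finset Bool) else univ).card =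
        2 ^ (n - G.card) := by
      have h4 : ∀ v : Fin n, (if v ∈ G then ({false} : Finset Bool) else univ).card =
          if v ∈ Gᶜ then 2 else 1 := by
        intro v
        by_cases hv : v ∈ G <;> simp [hv]
      rw [prod_congr rfl fun v _ => h4 v, Finset.prod_ite_mem, univ_inter, prod_const,
        card_compl, Fintype.card_fin]
    rw [h3] at h2
    exact_mod_cast h2
  have hIpos : (0 : ℝ) < I.card := by
    have : 0 < I.card := card_pos.mpr (hF.image _)
    exact_mod_cast this
  have hlogI : Real.log I.card ≤ (n - G.card) * Real.log 2 := by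
    have h5 := Real.log_le_log hIpos hcardI
    rw [Real.log_pow, Nat.cast_sub] at h5
    · exact h5
    · calc G.card ≤ (univ : Finset (Fin n)).card := card_le_card (subset_univ _)
        _ = n := by simp
  refine le_trans ?_ hlogI
  unfold ent
  rw [div_le_iff₀ hFpos]
  have h6 : ∀ x ∈ F, Real.log ((F.card : ℝ) / fib F (HitT.off G) x) ≤ Real.log I.card +
      ((F.card : ℝ) / fib F (HitT.off G) x / I.card - 1) := by
    intro x hx
    have hN : (0 : ℝ) < fib F (HitT.off G) x := by exact_mod_cast fib_pos _ hx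
    have h7 := Real.log_le_sub_one_of_pos (x := (F.card : ℝ) / fib F (HitT.off G) x / I.card)
      (by positivity)
    rw [Real.log_div (x := (F.card : ℝ) / fib F (HitT.off G) x) (by positivity) hIpos.ne'] at h7
    linarith
  refine (sum_le_sum h6).trans ?_
  rw [sum_add_distrib, sum_const, nsmul_eq_mul, sum_sub_distrib, sum_const, nsmul_eq_mul, mul_one]
  have h8 : ∑ x ∈ F, (F.card : ℝ) / fib F (HitT.off G) x / I.card ≤ F.card := by
    have hmaps : ∀ x ∈ F, HitT.off G x ∈ I := fun x hx => mem_image_of_mem _ hx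
    rw [← Finset.sum_fiberwise_of_maps_to hmaps]
    have h9 : ∀ z ∈ I, ∑ x ∈ F.filter (fun x => HitT.off G x = z),
        (F.card : ℝ) / fib F (HitT.off G) x / I.card = F.card / I.card := by
      intro z hz
      have hne : (0 : ℝ) < (F.filter (fun x => HitT.off G x = z)).card := by
        obtain ⟨x, hx, hxz⟩ := mem_image.mp hz
        have : 0 < (F.filter (fun x => HitT.off G x = z)).card :=
          card_pos.mpr ⟨x, mem_filter.mpr ⟨hx, hxz⟩⟩
        exact_mod_cast this
      have h10 : ∀ x ∈ F.filter (fun x => HitT.off G x = z),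
          (F.card : ℝ) / fib F (HitT.off G) x / I.card =
          F.card / (F.filter (fun x => HitT.off G x = z)).card / I.card := by
        intro x hx
        have : fib F (HitT.off G) x = (F.filter (fun x => HitT.off G x = z)).card := by
          unfold fib
          congr 1
          ext y
          simp only [mem_filter, (mem_filter.mp hx).2]
        rw [this]
      rw [sum_congr rfl h10, sum_const, nsmul_eq_mul]
      field_simp
    rw [sum_congr rfl h9, sum_const, nsmul_eq_mul, mul_div_cancel₀ _ hIpos.ne']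
  linarith

end Cols

theorem tCols0 (hHit : S_HitT) : S_Cols0 := by
  classical
  intro n F N G β τ dm DJ α v₀ hF CP h01 hN hD hv0 hv1 hS
  have h1 := Cols.gibbs_cols F N (fun x => (HitT.off G x, τ x)) DJ α v₀ hF
    (fun x hx v => (h01 x hx v).1) (fun x hx v => (h01 x hx v).2) hN hD hv0 hv1 hS
  have h2 := hHit n G F β τ dm hF CP
  have h3 := Cols.ent_off_le G F hF
  refine le_trans ?_ (h1.trans (le_of_eq ?_))
  · linarith
  · congr 1
    apply sum_congr rfl
    intro x _
    apply sum_congr rfl
    intro V _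
    congr 4
    ext y
    simp only [mem_filter, Prod.mk.injEq, and_assoc]

namespace Cols

open scoped Classical

variable {n : ℕ}

theorem kk_bk (S : Finset (Fin n)) (t : Fin n → ℝ) (V : Finset (Fin n)) :
    kk (fun v => if v ∈ S then t v else 0) V = if V ⊆ S then bk S t V else 0 := by
  by_cases hV : V ⊆ S
  · rw [if_pos hV]
    unfold kk bk
    have h1 : ∀ v : Fin n, (if v ∈ V then (if v ∈ S then t v else 0) else
        1 - (if v ∈ S then t v else 0)) =
        (if v ∈ V then t v else 1) * (if v ∈ S \ V then 1 - t v else 1) := by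
      intro v
      by_cases h2 : v ∈ V
      · simp [h2, hV h2]
      · by_cases h3 : v ∈ S <;> simp [h2, h3]
    rw [prod_congr rfl fun v _ => h1 v, prod_mul_distrib, Finset.prod_ite_mem, Finset.prod_ite_mem,
      univ_inter, univ_inter]
  · rw [if_neg hV]
    obtain ⟨v, hv, hvS⟩ := not_subset.mp hV
    unfold kk
    apply prod_eq_zero (mem_univ v)
    simp [hv, hvS]

variable {r : ℕ} {β : Type}

theorem mem_Cl {F : Finset (Fin n → Bool)} {N : Finset (Fin n)} {sg : Fin r → (Fin n → Bool) → β}
    {J : Finset (Fin r)} {x y : Fin n → Bool} :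
    y ∈ Cl F N sg J x ↔ y ∈ F ∧ (∀ v, v ∉ N → y v = x v) ∧ ∀ j ∈ J, sg j y = sg j x := by
  unfold Cl
  rw [mem_filter]

theorem self_mem_Cl {F : Finset (Fin n → Bool)} {N : Finset (Fin n)}
    {sg : Fin r → (Fin n → Bool) → β} {J : Finset (Fin r)} {x : Fin n → Bool} (hx : x ∈ F) :
    x ∈ Cl F N sg J x := mem_Cl.mpr ⟨hx, fun _ _ => rfl, fun _ _ => rfl⟩

theorem Cl_eq {F : Finset (Fin n → Bool)} {N : Finset (Fin n)} {sg : Fin r → (Fin n → Bool) → β}
    {J : Finset (Fin r)} {x y : Fin n → Bool} (h : y ∈ Cl F N sg J x) :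
    Cl F N sg J y = Cl F N sg J x := by
  obtain ⟨_, h1, h2⟩ := mem_Cl.mp h
  ext z
  rw [mem_Cl, mem_Cl]
  constructor
  · rintro ⟨a, b, c⟩
    exact ⟨a, fun v hv => (b v hv).trans (h1 v hv), fun j hj => (c j hj).trans (h2 j hj)⟩
  · rintro ⟨a, b, c⟩
    exact ⟨a, fun v hv => (b v hv).trans (h1 v hv).symm, fun j hj => (c j hj).trans (h2 j hj).symm⟩

/-- Sums over the classes. -/
theorem sum_over_classes (F : Finset (Fin n → Bool)) (N : Finset (Fin n))
    (sg : Fin r → (Fin n → Bool) → β) (J : Finset (Fin r)) (φ ψ : (Fin n → Bool) → ℝ)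
    (h : ∀ x ∈ F, ∑ y ∈ Cl F N sg J x, φ y = ∑ y ∈ Cl F N sg J x, ψ y) :
    ∑ x ∈ F, φ x = ∑ x ∈ F, ψ x := by
  have h1 : ∀ x ∈ F, Cl F N sg J x ∈ F.image (Cl F N sg J) := fun x hx => mem_image_of_mem _ hx
  rw [← Finset.sum_fiberwise_of_maps_to h1, ← Finset.sum_fiberwise_of_maps_to (f := ψ) h1]
  apply sum_congr rfl
  intro C hC
  obtain ⟨x, hx, rfl⟩ := mem_image.mp hC
  have e : F.filter (fun y => Cl F N sg J y = Cl F N sg J x) = Cl F N sg J x := by
    ext y
    rw [mem_filter]
    constructor
    · rintro ⟨hy, h2⟩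
      rw [← h2]
      exact self_mem_Cl hy
    · intro hy
      exact ⟨(mem_Cl.mp hy).1, Cl_eq hy⟩
  rw [e]
  exact h x hx

/-- The mean of `a(x) ∑_{v ∈ N} w_v(x)`. -/
theorem sum_aw (F : Finset (Fin n → Bool)) (N : Finset (Fin n))
    (sg : Fin r → (Fin n → Bool) → β) (J : Finset (Fin r)) (A : ℝ)
    (hU : ∀ x ∈ F, UU F N sg J x ≠ 0) :
    ∑ x ∈ F, A / UU F N sg J x * ∑ v ∈ N, wf (Cl F N sg J x) v x = A * F.card := by
  have h := sum_over_classes F N sg J (fun x => A / UU F N sg J x * ∑ v ∈ N,
    wf (Cl F N sg J x) v x) (fun _ => A) ?_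
  · rw [h, sum_const, nsmul_eq_mul, mul_comm]
  intro x hx
  have hUU : ∀ y ∈ Cl F N sg J x, UU F N sg J y = UU F N sg J x := by
    intro y hy
    unfold UU
    rw [Cl_eq hy]
  have e1 : ∀ y ∈ Cl F N sg J x, A / UU F N sg J y * ∑ v ∈ N, wf (Cl F N sg J y) v y =
      A / UU F N sg J x * ∑ v ∈ N, wf (Cl F N sg J x) v y := by
    intro y hy
    rw [hUU y hy, Cl_eq hy]
  rw [sum_congr rfl e1, ← mul_sum, sum_const, nsmul_eq_mul]
  have hc : (0 : ℝ) < (Cl F N sg J x).card := by
    have : 0 < (Cl F N sg J x).card := card_pos.mpr ⟨x, self_mem_Cl hx⟩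
    exact_mod_cast this
  have e2 : ∑ y ∈ Cl F N sg J x, ∑ v ∈ N, wf (Cl F N sg J x) v y =
      UU F N sg J x * (Cl F N sg J x).card := by
    unfold UU
    rw [div_mul_cancel₀ _ hc.ne']
  rw [e2]
  have := hU x hx
  field_simp

theorem wf_zero {F : Finset (Fin n → Bool)} {N : Finset (Fin n)}
    {sg : Fin r → (Fin n → Bool) → β} {dm : β → Finset (Fin n)} {J : Finset (Fin r)}
    (hC : CPS n r F sg dm) {x : Fin n → Bool} (hx : x ∈ F) {v : Fin n} (hv : v ∈ DJ sg dm J x) :
    wf (Cl F N sg J x) v x = 0 := by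
  unfold DJ at hv
  obtain ⟨j, hj, hvj⟩ := mem_biUnion.mp hv
  unfold wf
  have : (Cl F N sg J x).filter (fun y => y v ≠ x v) = ∅ := by
    apply filter_eq_empty_iff.mpr
    intro y hy hne
    obtain ⟨hyF, _, hys⟩ := mem_Cl.mp hy
    exact hne (hC.val j x hx y hyF (hys j hj).symm v hvj).symm
  rw [this]
  simp

end Cols

theorem tCols (hHit : S_HitT) : S_Cols := by
  classical
  intro n r β F sg dm N G J v₀ ζ hC hF hN hGN hv0 hv1 hUU hζ
  have hFpos : (0 : ℝ) < F.card := by exact_mod_cast hF.card_pos
  have hNpos : (0 : ℝ) < N.card := by exact_mod_cast hN.card_pos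
  have hUpos : ∀ x ∈ F, 0 < UU F N sg J x := fun x hx => lt_of_lt_of_le (by positivity) (hUU x hx)
  have hw0 : ∀ (C : Finset (Fin n → Bool)) (v : Fin n) (x : Fin n → Bool), 0 ≤ wf C v x := by
    intro C v x; unfold wf; positivity
  have hw1 : ∀ (C : Finset (Fin n → Bool)) (v : Fin n) (x : Fin n → Bool), wf C v x ≤ 1 := by
    intro C v x
    unfold wf
    apply div_le_one_of_le₀ _ (Nat.cast_nonneg _)
    exact_mod_cast card_filter_le _ _
  set t : (Fin n → Bool) → Fin n → ℝ := fun x v =>
    v₀ * N.card / UU F N sg J x * wf (Cl F N sg J x) v x with ht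
  have ht0 : ∀ x ∈ F, ∀ v, 0 ≤ t x v := by
    intro x hx v
    have := hUpos x hx
    have := hw0 (Cl F N sg J x) v x
    rw [ht]; positivity
  have ht1 : ∀ x ∈ F, ∀ v, t x v ≤ 1 := by
    intro x hx v
    have h1 : v₀ * N.card / UU F N sg J x ≤ 1 := by
      rw [div_le_one (hUpos x hx)]
      exact hUU x hx
    have h2 : 0 ≤ v₀ * N.card / UU F N sg J x := by
      have := hUpos x hx
      positivity
    rw [ht]
    exact mul_le_one₀ h1 (hw0 _ _ _) (hw1 _ _ _)
  set α : (Fin n → Bool) → Fin n → ℝ := fun x v => if v ∈ N \ G then t x v else 0 with hα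
  set τ : (Fin n → Bool) → ({j : Fin r // j ∉ J} → β) := fun x j => sg j.1 x with hτ
  set dmτ : ({j : Fin r // j ∉ J} → β) → Finset (Fin n) := fun b => univ.biUnion (fun j => dm (b j))
    with hdmτ
  have hdm : ∀ x, dmτ (τ x) = DJ sg dm Jᶜ x := by
    intro x
    ext v
    rw [hdmτ, hτ]
    unfold DJ
    simp only [mem_biUnion, mem_univ, true_and, Subtype.exists, mem_compl]
    constructor
    · rintro ⟨j, hj, h⟩; exact ⟨j, hj, h⟩
    · rintro ⟨j, hj, h⟩; exact ⟨j, hj, h⟩
  have h0 := tCols0 hHit n F N G ({j : Fin r // j ∉ J} → β) τ dmτ (DJ sg dm J) α v₀ hF ?_ ?_ ?_ ?_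
    hv0 hv1 ?_
  rotate_left
  · intro x hx y hy h1 h2
    funext j
    apply hC.cp j.1 x hx y hy
    · intro v hv
      exact h1 v (mem_biUnion.mpr ⟨j, mem_univ _, hv⟩)
    · intro v hv
      exact h2 v (mem_biUnion.mpr ⟨j, mem_univ _, hv⟩)
  · intro x hx v
    rw [hα]
    simp only
    split_ifs
    · exact ⟨ht0 x hx v, ht1 x hx v⟩
    · exact ⟨le_rfl, zero_le_one⟩
  · intro x hx v hv
    rw [hα]
    simp only
    rw [if_neg]
    intro h
    exact hv (mem_sdiff.mp h).1
  · intro x hx v hv
    rw [hα]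
    simp only
    split_ifs
    · rw [ht]
      simp only
      rw [Cols.wf_zero hC hx hv, mul_zero]
    · rfl
  · have h1 := Cols.sum_aw F N sg J (v₀ * N.card) (fun x hx => (hUpos x hx).ne')
    rw [← h1]
    apply sum_le_sum
    intro x hx
    rw [mul_sum]
    have e1 : ∑ v, α x v = ∑ v ∈ N \ G, t x v := by
      rw [hα]
      simp only
      rw [Finset.sum_ite_mem, univ_inter]
    rw [e1]
    apply sum_le_sum_of_subset_of_nonneg sdiff_subset
    intro v _ _
    exact ht0 x hx v
  -- the sum over the pairs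
  have hOm : ∀ φ : (Fin n → Bool) → Finset (Fin n) → ℝ,
      ∑ ω ∈ Om F N G, kw F N G sg J v₀ ω * φ ω.1 ω.2 =
      (∑ x ∈ F, ∑ V : Finset (Fin n), kk (α x) V * φ x V) / F.card := by
    intro φ
    unfold Om kw
    rw [sum_product, sum_div]
    apply sum_congr rfl
    intro x _
    rw [sum_div]
    have e2 : ∀ V : Finset (Fin n), kk (α x) V * φ x V / F.card =
        if V ∈ (N \ G).powerset then bk (N \ G) (t x) V / F.card * φ x V else 0 := by
      intro V
      have := Cols.kk_bk (N \ G) (t x) V
      have e3 : kk (α x) V = if V ⊆ N \ G then bk (N \ G) (t x) V else 0 := this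
      rw [e3]
      simp only [mem_powerset]
      split_ifs
      · ring
      · simp
    rw [sum_congr rfl fun V _ => e2 V, Finset.sum_ite_mem, univ_inter]
  have hsum1 : ∑ ω ∈ Om F N G, kw F N G sg J v₀ ω * (G.card * Real.log 2) =
      G.card * Real.log 2 := by
    have h2 := hOm (fun _ _ => G.card * Real.log 2)
    rw [h2]
    simp_rw [← sum_mul, Cols.sum_kk]
    rw [sum_const, nsmul_eq_mul, mul_one]
    field_simp
  have hsum2 := hOm (fun x V => Real.log (cols F G sg dm J (x, V)).card)
  simp_rw [mul_sub]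
  rw [sum_sub_distrib, hsum1]
  have hsum2' : ∑ ω ∈ Om F N G, kw F N G sg J v₀ ω * Real.log (cols F G sg dm J ω).card =
      (∑ x ∈ F, ∑ V : Finset (Fin n), kk (α x) V * Real.log (cols F G sg dm J (x, V)).card) /
        F.card := hsum2
  rw [hsum2']
  have hcols : ∀ (x : Fin n → Bool) (V : Finset (Fin n)), cols F G sg dm J (x, V) =
      F.filter (fun y => HitT.off G y = HitT.off G x ∧ τ y = τ x ∧ Disjoint V (DJ sg dm J y)) := by
    intro x V
    ext y
    unfold cols
    simp only [mem_filter]
    have e4 : (∀ v, v ∉ G → y v = x v) ↔ HitT.off G y = HitT.off G x := by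
      constructor
      · intro h
        funext v
        unfold HitT.off
        by_cases hv : v ∈ G
        · simp [hv]
        · simp [hv, h v hv]
      · intro h v hv
        have := congrFun h v
        unfold HitT.off at this
        simpa [hv] using this
    have e5 : (∀ j, j ∉ J → sg j y = sg j x) ↔ τ y = τ x := by
      constructor
      · intro h
        funext j
        exact h j.1 j.2
      · intro h j hj
        exact congrFun h ⟨j, hj⟩
    rw [e4, e5]
  have h3 : ∑ x ∈ F, ((dmτ (τ x) ∩ G).card : ℝ) ≤ ζ * G.card * F.card := by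
    refine le_trans (le_of_eq ?_) hζ
    apply sum_congr rfl
    intro x _
    rw [hdm]
  have h4 : (∑ x ∈ F, ((dmτ (τ x) ∩ G).card : ℝ)) / F.card ≤ ζ * G.card := by
    rw [div_le_iff₀ hFpos]
    exact h3
  have h5 : G.card * Real.log 2 - 2 * (n * Real.log 2 - Real.log F.card) -
      2 * ((∑ x ∈ F, ((dmτ (τ x) ∩ G).card : ℝ)) / F.card) - N.card * Real.binEntropy v₀ ≤
      (∑ x ∈ F, ∑ V : Finset (Fin n), kk (α x) V * Real.log (cols F G sg dm J (x, V)).card) /
        F.card := by
    refine h0.trans (le_of_eq ?_)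
    congr 1
    apply sum_congr rfl
    intro x _
    apply sum_congr rfl
    intro V _
    rw [hcols x V]
    congr
  linarith

end SRBP
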