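import Pool.Agent.Lib.MP_9dcf40_lc.LIN.Spec

/-!
# Theorem K (MP_9dcf40_lc): the core theorem from its parts (choice of the constants)
-/

namespace SRBP

open Finset

namespace LCore

theorem Rect_mono {n r : ℕ} {β : Type} {F F' : Finset (Fin n → Bool)}
    {sg : Fin r → (Fin n → Bool) → β} {dm : β → Finset (Fin n)} {t t' : ℝ} (hF : F' ⊆ F)
    (ht : t ≤ t') (h : Rect F' sg dm t') : Rect F sg dm t := by
  obtain ⟨x, hx, J, V, A, hA, B, hB, hA1, hB1, h1, h2, h3⟩ := h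
  exact ⟨x, hF hx, J, V, A, hA.trans hF, B, hB.trans hF, ht.trans hA1, ht.trans hB1, h1, h2, h3⟩

theorem CPS_mono {n r : ℕ} {β : Type} {F F' : Finset (Fin n → Bool)}
    {sg : Fin r → (Fin n → Bool) → β} {dm : β → Finset (Fin n)} (hF : F' ⊆ F)
    (h : CPS n r F sg dm) : CPS n r F' sg dm :=
  ⟨fun j x hx y hy => h.val j x (hF hx) y (hF hy), fun j x hx y hy => h.cp j x (hF hx) y (hF hy)⟩

/-- The number of elements of `N` read by a set `T` of segments, on a good input. -/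
theorem good_bound {n r : ℕ} {β : Type} {sg : Fin r → (Fin n → Bool) → β} {dm : β → Finset (Fin n)}
    {N : Finset (Fin n)} {ℓ : ℕ} {x : Fin n → Bool} (hn : 0 < n)
    (hx : ∀ j, n * (dm (sg j x) ∩ N).card ≤ 2 * ℓ * N.card) (T : Finset (Fin r)) :
    ∑ j ∈ T, ((dm (sg j x) ∩ N).card : ℝ) ≤ T.card * (2 * ℓ * N.card / n) := by
  have hn' : (0 : ℝ) < n := by exact_mod_cast hn
  calc ∑ j ∈ T, ((dm (sg j x) ∩ N).card : ℝ) ≤ ∑ _j ∈ T, (2 * ℓ * N.card / n : ℝ) := by
        refine sum_le_sum fun j _ => ?_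
        rw [le_div_iff₀ hn']
        have := hx j
        have h2 : ((n * (dm (sg j x) ∩ N).card : ℕ) : ℝ) ≤ ((2 * ℓ * N.card : ℕ) : ℝ) := by
          exact_mod_cast this
        push_cast at h2
        linarith
    _ = T.card * (2 * ℓ * N.card / n) := by rw [sum_const, nsmul_eq_mul]

theorem aux1 (r ℓ k n : ℝ) (hr : 0 < r) (hn : 0 < n) (hℓ : ℓ ≤ k * n / r + 1) (h : 4 * r ≤ n) :
    r * (2 * ℓ / n) ≤ 2 * k + 1 / 2 := by
  rw [mul_div_assoc', div_le_iff₀ hn]
  have h7 : r * ℓ ≤ k * n + r := by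
    have := mul_le_mul_of_nonneg_left hℓ hr.le
    rw [mul_add, mul_div_assoc', mul_div_cancel_left₀ _ hr.ne'] at this
    linarith
  linarith

theorem aux2 (F N r ℓ n δ k : ℝ) (hF : 0 < F) (hN : 0 < N) (h6 : r * (2 * ℓ / n) ≤ 2 * k + 1 / 2)
    (h5 : δ * r ≤ 1 / 4) (hk : 1 ≤ k) :
    F * (r * (2 * ℓ * N / n)) + (δ * F) * (r * N) ≤ 3 * k * N * F := by
  have h8 : F * (r * (2 * ℓ * N / n)) + (δ * F) * (r * N) =
      ((r * (2 * ℓ / n)) + δ * r) * (N * F) := by ring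
  have h9 : 0 < N * F := by positivity
  have h10 : ((r * (2 * ℓ / n)) + δ * r) * (N * F) ≤ (3 * k) * (N * F) :=
    mul_le_mul_of_nonneg_right (by linarith) h9.le
  calc _ = ((r * (2 * ℓ / n)) + δ * r) * (N * F) := h8
    _ ≤ (3 * k) * (N * F) := h10
    _ = 3 * k * N * F := by ring

theorem aux3 (b N g : ℝ) (hb : b ≤ 1 / 10000) (hN : 2000 ≤ N) (hg : g < 20 * b * N + 1) :
    g ≤ N := by
  have : b * N ≤ 1 / 10000 * N := mul_le_mul_of_nonneg_right hb (by linarith)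
  linarith

theorem aux4 (b N g : ℝ) (hb : b ≤ 1 / 10000) (hN : 2000 ≤ N) (hg : g < 20 * b * N + 1) :
    4 * g ≤ 1 / 100 * N := by
  have : b * N ≤ 1 / 10000 * N := mul_le_mul_of_nonneg_right hb (by linarith)
  linarith

theorem aux5 (v0 N : ℝ) (h : 1000 ≤ v0 * N) (hl : Real.log 2 < 0.7) :
    8 * (v0 / 400 * N + Real.log 2) ≤ 1 / 10 * (v0 * N) := by
  linarith

theorem aux6 (b N g h v0 : ℝ) (hh : 0 ≤ h) (hh2 : h ≤ 0.7) (hg : g < 20 * b * N + 1)
    (hN : 0 < N) (hb : b * h ≤ v0 / 10000) (hv : 1000 ≤ v0 * N) :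
    v0 / 400 * N + g * h ≤ v0 * N / 100 := by
  have h1 : g * h ≤ (20 * b * N + 1) * h := mul_le_mul_of_nonneg_right hg.le hh
  have h2 : b * h * (20 * N) ≤ v0 / 10000 * (20 * N) :=
    mul_le_mul_of_nonneg_right hb (by positivity)
  linarith

theorem aux7 (b ν n N l2 g : ℝ) (_h1 : b * ν / 10 * n ≤ b * (ν * n) / 10) (hb : 0 < b) (hν : 0 < ν)
    (hn : 0 < n) (h2 : ν * n ≤ N) (hg : 20 * b * N ≤ g) (hl : 0.69 < l2) :
    b * ν / 10 * n ≤ g * l2 / 2 := by
  have h3 : b * (ν * n) ≤ b * N := mul_le_mul_of_nonneg_left h2 hb.le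
  have h4 : 0 < b * (ν * n) := by positivity
  have h5 : g * 0.69 ≤ g * l2 := mul_le_mul_of_nonneg_left hl.le (by linarith)
  linarith

theorem aux8 (c1 N ν n : ℝ) (h1 : 1000 ≤ n * (c1 * ν)) (hN : ν * n ≤ N) (hc : 0 < c1) :
    1000 ≤ c1 * N := by
  have : c1 * (ν * n) ≤ c1 * N := mul_le_mul_of_nonneg_left hN hc.le
  linarith

theorem aux9 (v0 N : ℝ) (h : 1000 ≤ v0 * N) (hv : v0 ≤ 1 / 2) (hv0 : 0 < v0) : 2000 ≤ N := by
  by_contra hN
  push Not at hN
  have : v0 * N < v0 * 2000 := mul_lt_mul_of_pos_left hN hv0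
  linarith

theorem aux10 (c n b ν N g L ζ l2 : ℝ) (h1 : c * n ≤ b * ν / 10 * n) (h2 : b * (ν * n) ≤ b * N)
    (hg : 20 * b * N ≤ g) (hg0 : 0 ≤ g) (hζ : ζ ≤ 1 / 1000) (hL : 20 * L ≤ n * (b * ν))
    (hl : 0.69 < l2) : 2 * (c * n + L) + 4 * ζ * g + N * b ≤ g * l2 / 8 := by
  have h3 : ζ * g ≤ 1 / 1000 * g := mul_le_mul_of_nonneg_right hζ hg0
  have h7 : g * 0.69 ≤ g * l2 := mul_le_mul_of_nonneg_left hl.le hg0
  linarith

end LCore

open LCore in
theorem tCore (hSc : S_Scale) (hS3 : S_Sec3) (hCt : S_Cutp) (hFin : S_Fin) (hPar : S_Par) :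
    S_Core := by
  classical
  intro k hk
  have hk1 : (1 : ℝ) ≤ k := by exact_mod_cast hk
  obtain ⟨C, hC, h3⟩ := hS3 (3 * k) (by linarith)
  obtain ⟨q, hq2, hqk, hpar⟩ := hPar k C hk hC
  set c1 : ℝ := Real.exp (-(C * Real.log q ^ 11)) with hc1
  have hc1pos : 0 < c1 := Real.exp_pos _
  have hq2' : (2 : ℝ) ≤ q := by exact_mod_cast hq2
  have hq0 : (0 : ℝ) < q := by linarith
  have hlogq : 0 ≤ Real.log q := Real.log_nonneg (by linarith)
  have hc1le : c1 ≤ 1 := by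
    rw [hc1]
    refine Real.exp_le_one_iff.2 ?_
    have : 0 ≤ C * Real.log q ^ 11 := by positivity
    linarith
  set v0 : ℝ := c1 / 2 with hv0
  have hv0pos : 0 < v0 := by positivity
  have hv0le : v0 ≤ 1 / 2 := by rw [hv0]; linarith
  obtain ⟨hb1, hb2⟩ := hpar v0 rfl
  set b : ℝ := Real.binEntropy v0 with hb
  have hbpos : 0 < b := Real.binEntropy_pos hv0pos (by linarith)
  set ζ : ℝ := 3 * (k : ℝ) / q with hζ
  have hζpos : 0 < ζ := by positivity
  have h2ζ : 2 * ζ = 6 * k / q := by rw [hζ]; ring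
  rw [← h2ζ] at hb2
  have hb3 : 0 ≤ Real.binEntropy (2 * ζ) := Real.binEntropy_nonneg (by positivity) (by linarith)
  have hb4 : Real.binEntropy (2 * ζ) ≤ Real.log 2 := Real.binEntropy_le_log_two
  obtain ⟨r0, hr0⟩ := h3 q hq2
  set r : ℕ := q * (r0 + 1) with hr
  have hqn : 0 < q := by omega
  have hrq : r / q = r0 + 1 := by rw [hr]; exact Nat.mul_div_cancel_left _ hqn
  have hrge : r0 ≤ r := by
    rw [hr]
    nlinarith
  have hr1 : 1 ≤ r := by
    rw [hr]
    nlinarith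
  have hrqle : r / q ≤ r := Nat.div_le_self _ _
  have hrR : (r : ℝ) = q * (r0 + 1) := by rw [hr]; push_cast; ring
  have hrpos : (0 : ℝ) < r := by exact_mod_cast hr1
  obtain ⟨δ0, hδ0, h4⟩ := hr0 r hrge ⟨r0 + 1, rfl⟩
  set δ : ℝ := min δ0 (min (c1 * v0 / 400) (min (1 / (4 * r)) (c1 / (2 * q)))) with hδ
  have hδpos : 0 < δ := by
    rw [hδ]
    refine lt_min hδ0 (lt_min (by positivity) (lt_min (by positivity) (by positivity)))
  have hδ1 : δ ≤ δ0 := min_le_left _ _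
  have hδ2 : δ ≤ c1 * v0 / 400 := (min_le_right _ _).trans (min_le_left _ _)
  have hδ3 : δ ≤ 1 / (4 * r) := (min_le_right _ _).trans ((min_le_right _ _).trans (min_le_left _ _))
  have hδ4 : δ ≤ c1 / (2 * q) :=
    (min_le_right _ _).trans ((min_le_right _ _).trans (min_le_right _ _))
  obtain ⟨ν, hν, n0, hsc⟩ := hSc r δ hr1 hδpos
  set c : ℝ := min (ν / 20) (min (b * ν / 10) (v0 * ν / 25)) with hc
  have hcpos : 0 < c := by
    rw [hc]
    refine lt_min (by positivity) (lt_min (by positivity) (by positivity))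
  have hcc1 : c ≤ ν / 20 := min_le_left _ _
  have hcc2 : c ≤ b * ν / 10 := (min_le_right _ _).trans (min_le_left _ _)
  have hcc3 : c ≤ v0 * ν / 25 := (min_le_right _ _).trans (min_le_right _ _)
  refine ⟨r, hr1, c, hcpos, max n0 (max (4 * r) (max ⌈1000 / (v0 * ν)⌉₊
    ⌈20 * Real.log (1 / c1) / (b * ν)⌉₊)) + 1, ?_⟩
  intro n hn β F sg dm hCPS hF hlen hcard
  have n1 : n0 ≤ n := by
    have := le_max_left n0 (max (4 * r) (max ⌈1000 / (v0 * ν)⌉₊ ⌈20 * Real.log (1 / c1) / (b * ν)⌉₊))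
    omega
  have n2 : 4 * r ≤ n := by
    have h1 := le_max_left (4 * r) (max ⌈1000 / (v0 * ν)⌉₊ ⌈20 * Real.log (1 / c1) / (b * ν)⌉₊)
    have h2 := le_max_right n0 (max (4 * r) (max ⌈1000 / (v0 * ν)⌉₊
      ⌈20 * Real.log (1 / c1) / (b * ν)⌉₊))
    omega
  have n3 : ⌈1000 / (v0 * ν)⌉₊ ≤ n := by
    have h1 := le_max_left ⌈1000 / (v0 * ν)⌉₊ ⌈20 * Real.log (1 / c1) / (b * ν)⌉₊
    have h1' := le_max_right (4 * r) (max ⌈1000 / (v0 * ν)⌉₊ ⌈20 * Real.log (1 / c1) / (b * ν)⌉₊)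
    have h2 := le_max_right n0 (max (4 * r) (max ⌈1000 / (v0 * ν)⌉₊
      ⌈20 * Real.log (1 / c1) / (b * ν)⌉₊))
    omega
  have n4 : ⌈20 * Real.log (1 / c1) / (b * ν)⌉₊ ≤ n := by
    have h1 := le_max_right ⌈1000 / (v0 * ν)⌉₊ ⌈20 * Real.log (1 / c1) / (b * ν)⌉₊
    have h1' := le_max_right (4 * r) (max ⌈1000 / (v0 * ν)⌉₊ ⌈20 * Real.log (1 / c1) / (b * ν)⌉₊)
    have h2 := le_max_right n0 (max (4 * r) (max ⌈1000 / (v0 * ν)⌉₊
      ⌈20 * Real.log (1 / c1) / (b * ν)⌉₊))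
    omega
  have hnpos : 0 < n := by omega
  have hnR : (0 : ℝ) < n := by exact_mod_cast hnpos
  have n2' : 4 * (r : ℝ) ≤ n := by exact_mod_cast n2
  have n3' : 1000 / (v0 * ν) ≤ n := (Nat.le_ceil _).trans (by exact_mod_cast n3)
  have n4' : 20 * Real.log (1 / c1) / (b * ν) ≤ n := (Nat.le_ceil _).trans (by exact_mod_cast n4)
  rw [div_le_iff₀ (by positivity)] at n3' n4'
  set ℓ : ℕ := k * n / r + 1 with hℓ
  have hℓ1 : n ≤ r * ℓ := by
    have h1 : k * n < r * (k * n / r + 1) := Nat.lt_mul_div_succ _ (by omega)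
    have h2 : n ≤ k * n := Nat.le_mul_of_pos_left _ (by omega)
    rw [hℓ]
    omega
  have hℓR : (ℓ : ℝ) ≤ k * n / r + 1 := by
    have h1 : ((k * n / r : ℕ) : ℝ) ≤ ((k * n : ℕ) : ℝ) / r := Nat.cast_div_le
    rw [hℓ]
    push_cast at h1 ⊢
    linarith
  obtain ⟨N, hN1, hN2, hN3⟩ := hsc n n1 β F sg (fun j x => dm (sg j x)) ℓ hF hℓ1 hlen
  have hNR : 1000 ≤ v0 * N.card := aux8 _ _ _ _ n3' hN1 hv0pos
  have hN2000 : (2000 : ℝ) ≤ N.card := aux9 _ _ hNR hv0le hv0pos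
  have hNpos : (0 : ℝ) < N.card := by linarith
  have hNne : N.Nonempty := by
    rw [← card_pos]
    exact_mod_cast hNpos
  set Bad := F.filter (fun x => ∃ j, 2 * ℓ * N.card < n * (dm (sg j x) ∩ N).card) with hBad
  have hgood : ∀ x ∈ F, x ∉ Bad → ∀ j, n * (dm (sg j x) ∩ N).card ≤ 2 * ℓ * N.card := by
    intro x hx hxB j
    by_contra h
    push Not at h
    exact hxB (mem_filter.2 ⟨hx, j, h⟩)
  have hFpos : (0 : ℝ) < F.card := by exact_mod_cast hF.card_pos
  -- hypothesis of section 3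
  have hsum : ∑ x ∈ F, ∑ j, ((dm (sg j x) ∩ N).card : ℝ) ≤ (3 * k) * N.card * F.card := by
    have h1 : ∀ x ∈ F, ∑ j, ((dm (sg j x) ∩ N).card : ℝ) ≤
        r * (2 * ℓ * N.card / n) + (if x ∈ Bad then (r : ℝ) * N.card else 0) := by
      intro x hx
      by_cases hxB : x ∈ Bad
      · rw [if_pos hxB]
        have h2 : ∑ j, ((dm (sg j x) ∩ N).card : ℝ) ≤ ∑ _j : Fin r, (N.card : ℝ) := by
          refine sum_le_sum fun j _ => ?_
          exact_mod_cast card_le_card inter_subset_right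
        rw [sum_const, card_univ, Fintype.card_fin, nsmul_eq_mul] at h2
        have h3 : 0 ≤ (r : ℝ) * (2 * ℓ * N.card / n) := by positivity
        linarith
      · rw [if_neg hxB]
        have := good_bound (T := (univ : Finset (Fin r))) hnpos (hgood x hx hxB)
        rw [card_univ, Fintype.card_fin] at this
        linarith
    have h2 := sum_le_sum h1
    rw [sum_add_distrib, sum_const, nsmul_eq_mul, ← sum_filter] at h2
    have h3 : F.filter (fun x => x ∈ Bad) = Bad := by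
      ext x
      simp only [mem_filter]
      exact ⟨fun h => h.2, fun h => ⟨(mem_filter.1 h).1, h⟩⟩
    rw [h3, sum_const, nsmul_eq_mul] at h2
    refine h2.trans ?_
    have h4 : (Bad.card : ℝ) * (r * N.card) ≤ (δ * F.card) * (r * N.card) :=
      mul_le_mul_of_nonneg_right hN3 (by positivity)
    have h5 : δ * r ≤ 1 / 4 := by
      have := mul_le_mul_of_nonneg_right hδ3 hrpos.le
      rw [show 1 / (4 * (r : ℝ)) * r = 1 / 4 by field_simp] at this
      exact this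
    have h6 : (r : ℝ) * (2 * ℓ / n) ≤ 2 * k + 1 / 2 := aux1 _ _ _ _ hrpos hnR hℓR n2'
    have h8 := aux2 (F.card : ℝ) N.card r ℓ n δ k hFpos hNpos h6 h5 hk1
    linarith
  have hdef : n * Real.log 2 - Real.log F.card ≤ c * n := by
    have h1 : Real.log ((2 : ℝ) ^ n * Real.exp (-(c * n))) ≤ Real.log F.card :=
      Real.log_le_log (by positivity) hcard
    rw [Real.log_mul (by positivity) (by positivity), Real.log_pow, Real.log_exp] at h1
    linarith
  have hdef2 : n * Real.log 2 - Real.log F.card ≤ N.card / 20 := by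
    have : c * n ≤ ν / 20 * n := mul_le_mul_of_nonneg_right hcc1 hnR.le
    linarith
  obtain ⟨J, hJ1, hJ2⟩ := h4 δ hδpos.le hδ1 n β F sg dm N hF hNne hCPS hN2 hsum hdef2
  obtain ⟨F', hF'F, hF'ne, hF'c, hF'U, hF't⟩ := hCt n r β F sg N J c1 hF hNne hc1pos hJ2
  have hF'pos : (0 : ℝ) < F'.card := by exact_mod_cast hF'ne.card_pos
  have hT : (Jᶜ).card = r / q := by
    rw [card_compl, Fintype.card_fin, hJ1]
    omega
  set g : ℕ := ⌈20 * b * N.card⌉₊ with hg
  have hg1 : 20 * b * N.card ≤ g := Nat.le_ceil _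
  have hg2 : (g : ℝ) < 20 * b * N.card + 1 := Nat.ceil_lt_add_one (by positivity)
  have hgpos : 0 < g := Nat.ceil_pos.2 (by positivity)
  have hgle : g ≤ N.card := by
    have : (g : ℝ) ≤ N.card := aux3 _ _ _ hb1 hN2000 hg2
    exact_mod_cast this
  have hlog2 : Real.log 2 < 0.7 := by
    have := Real.log_two_lt_d9
    linarith
  have hlog2' : 0.69 < Real.log 2 := by
    have := Real.log_two_gt_d9
    linarith
  have hlc : 0 ≤ Real.log (1 / c1) := Real.log_nonneg (by rw [le_div_iff₀ hc1pos]; linarith)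
  have hDT : ∑ x ∈ F', ((DJ sg dm Jᶜ x ∩ N).card : ℝ) ≤ ζ * N.card * F'.card := by
    have h1 : ∀ x ∈ F', ((DJ sg dm Jᶜ x ∩ N).card : ℝ) ≤
        (r / q : ℕ) * (2 * ℓ * N.card / n) + (if x ∈ Bad then (N.card : ℝ) else 0) := by
      intro x hx
      by_cases hxB : x ∈ Bad
      · rw [if_pos hxB]
        have h2 : ((DJ sg dm Jᶜ x ∩ N).card : ℝ) ≤ N.card := by
          exact_mod_cast card_le_card inter_subset_right
        have h3 : 0 ≤ ((r / q : ℕ) : ℝ) * (2 * ℓ * N.card / n) := by positivity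
        linarith
      · rw [if_neg hxB]
        have h2 := good_bound (T := Jᶜ) hnpos (hgood x (hF'F hx) hxB)
        rw [hT] at h2
        have h3 : (DJ sg dm Jᶜ x ∩ N).card ≤ ∑ j ∈ Jᶜ, (dm (sg j x) ∩ N).card := by
          unfold DJ
          rw [biUnion_inter]
          exact card_biUnion_le
        have h4 : ((DJ sg dm Jᶜ x ∩ N).card : ℝ) ≤ ∑ j ∈ Jᶜ, ((dm (sg j x) ∩ N).card : ℝ) := by
          exact_mod_cast h3
        linarith
    have h2 := sum_le_sum h1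
    rw [sum_add_distrib, sum_const, nsmul_eq_mul, ← sum_filter, sum_const, nsmul_eq_mul] at h2
    have h3 : ((F'.filter (fun x => x ∈ Bad)).card : ℝ) ≤ Bad.card := by
      refine Nat.cast_le.2 (card_le_card ?_)
      intro x hx
      exact (mem_filter.1 hx).2
    refine h2.trans ?_
    have h4 : ((F'.filter (fun x => x ∈ Bad)).card : ℝ) * N.card ≤ (δ * F.card) * N.card :=
      mul_le_mul_of_nonneg_right (h3.trans hN3) hNpos.le
    have h5 : (F.card : ℝ) ≤ F'.card / c1 := by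
      rw [le_div_iff₀ hc1pos]
      linarith
    have h6 : (δ * F.card) * N.card ≤ δ / c1 * (F'.card * N.card) := by
      have := mul_le_mul_of_nonneg_left h5 (mul_pos hδpos hNpos).le
      calc (δ * F.card) * N.card = δ * N.card * F.card := by ring
        _ ≤ δ * N.card * (F'.card / c1) := this
        _ = δ / c1 * (F'.card * N.card) := by ring
    have h7 : δ / c1 ≤ 1 / (2 * q) := by
      rw [div_le_iff₀ hc1pos]
      calc δ ≤ c1 / (2 * q) := hδ4
        _ = 1 / (2 * q) * c1 := by ring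
    have h8 : ((r / q : ℕ) : ℝ) * (2 * ℓ / n) ≤ 2 * k / q + 1 / (2 * q) := by
      rw [hrq]
      have h9 : ((r0 + 1 : ℕ) : ℝ) = r / q := by
        rw [hrR]
        push_cast
        field_simp
      rw [h9]
      have h10 : (r : ℝ) * (2 * ℓ / n) ≤ 2 * k + 1 / 2 := aux1 _ _ _ _ hrpos hnR hℓR n2'
      calc (r : ℝ) / q * (2 * ℓ / n) = (r * (2 * ℓ / n)) / q := by ring
        _ ≤ (2 * k + 1 / 2) / q := by gcongr
        _ = 2 * k / q + 1 / (2 * q) := by ring
    have h11 : 2 * (k : ℝ) / q + 1 / (2 * q) + 1 / (2 * q) ≤ ζ := by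
      rw [hζ]
      have : 3 * (k : ℝ) / q - (2 * k / q + 1 / (2 * q) + 1 / (2 * q)) = (k - 1) / q := by
        field_simp
        ring
      have h12 : 0 ≤ ((k : ℝ) - 1) / q := div_nonneg (by linarith) hq0.le
      linarith
    have h13 : 0 < (F'.card : ℝ) * N.card := by positivity
    have h14 : (F'.card : ℝ) * (((r / q : ℕ) : ℝ) * (2 * ℓ * N.card / n)) =
        (((r / q : ℕ) : ℝ) * (2 * ℓ / n)) * (F'.card * N.card) := by ring
    have h15 : (((r / q : ℕ) : ℝ) * (2 * ℓ / n)) * (F'.card * N.card) ≤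
        (2 * k / q + 1 / (2 * q)) * (F'.card * N.card) := mul_le_mul_of_nonneg_right h8 h13.le
    have h16 : δ / c1 * (F'.card * N.card) ≤ 1 / (2 * q) * (F'.card * N.card) :=
      mul_le_mul_of_nonneg_right h7 h13.le
    have h17 : (2 * (k : ℝ) / q + 1 / (2 * q) + 1 / (2 * q)) * (F'.card * N.card) ≤
        ζ * (F'.card * N.card) := mul_le_mul_of_nonneg_right h11 h13.le
    have h18 : (2 * (k : ℝ) / q + 1 / (2 * q)) * (F'.card * N.card) +
        1 / (2 * q) * (F'.card * N.card) =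
        (2 * (k : ℝ) / q + 1 / (2 * q) + 1 / (2 * q)) * (F'.card * N.card) := by ring
    have h19 : ζ * N.card * F'.card = ζ * (F'.card * N.card) := by ring
    rw [h14, h19]
    linarith
  -- the other hypotheses of `S_Fin`
  have hdef3 : n * Real.log 2 - Real.log F'.card ≤ c * n + Real.log (1 / c1) := by
    have h1 : Real.log (c1 * F.card) ≤ Real.log F'.card := Real.log_le_log (by positivity) hF'c
    rw [Real.log_mul hc1pos.ne' hFpos.ne'] at h1
    rw [one_div, Real.log_inv]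
    linarith
  have htJ : tJ F' N sg J ≤ (v0 / 400) * N.card := by
    have h1 : tJ F N sg J / c1 ≤ δ * N.card / c1 := by
      gcongr
      exact hN2 J
    have h2 : δ * N.card / c1 ≤ (v0 / 400) * N.card := by
      rw [div_le_iff₀ hc1pos]
      have := mul_le_mul_of_nonneg_right hδ2 hNpos.le
      linarith
    linarith
  have hfin := hFin n r β F' sg dm N J v0 ζ (v0 / 400) (c * n + Real.log (1 / c1)) g
    (CPS_mono hF'F hCPS) hF'ne hNne hv0pos hv0le hζpos (by linarith) hgpos hgle hdef3 htJ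
    (by intro x hx; have := hF'U x hx; rw [hv0]; linarith) hDT ?_ ?_ ?_
  · refine Rect_mono hF'F ?_ hfin
    refine le_min (Real.exp_le_exp.2 ?_) (Real.exp_le_exp.2 ?_)
    · have h1 : c * n ≤ v0 * ν / 25 * n := mul_le_mul_of_nonneg_right hcc3 hnR.le
      have h2 : v0 * (ν * n) ≤ v0 * N.card := mul_le_mul_of_nonneg_left hN1 hv0pos.le
      linarith
    · have h1 : c * n ≤ b * ν / 10 * n := mul_le_mul_of_nonneg_right hcc2 hnR.le
      exact h1.trans (aux7 b ν n N.card (Real.log 2) g (by ring_nf; exact le_rfl) hbpos hν hnR hN1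
        hg1 hlog2')
  · -- (T)
    have h1 : 4 * (g : ℝ) / N.card ≤ 1 / 100 := by
      rw [div_le_iff₀ hNpos]
      exact aux4 _ _ _ hb1 hN2000 hg2
    have h2 : 8 * (v0 / 400 * N.card + Real.log 2) / (v0 * N.card) ≤ 1 / 10 := by
      rw [div_le_iff₀ (by positivity)]
      exact aux5 _ _ hNR hlog2
    linarith
  · -- (R)
    exact aux6 b N.card g _ v0 hb3 (hb4.trans hlog2.le) hg2 hNpos hb2 hNR
  · -- (C)
    exact aux10 c n b ν N.card g (Real.log (1 / c1)) ζ (Real.log 2)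
      (mul_le_mul_of_nonneg_right hcc2 hnR.le) (mul_le_mul_of_nonneg_left hN1 hbpos.le) hg1
      (Nat.cast_nonneg g) hqk (by linarith) hlog2'

end SRBP
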