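import Pool.Agent.Lib.MP_9dcf40_lc.LIN.Spec

/-!
# Theorem K (MP_9dcf40_lc): CUT (proof of `S_Cutp`)
-/

namespace SRBP

namespace Cutp

open Finset

/-! ## Averages over classes -/

theorem avg_gen {α : Type} (F : Finset α) (K : α → Finset α) (hsub : ∀ x ∈ F, K x ⊆ F)
    (hself : ∀ x ∈ F, x ∈ K x) (hcl : ∀ x ∈ F, ∀ y ∈ K x, K y = K x) (h : α → ℝ) :
    ∑ x ∈ F, (∑ y ∈ K x, h y) / (K x).card = ∑ x ∈ F, h x := by
  classical
  have e1 : ∀ x ∈ F, (∑ y ∈ K x, h y) / (K x).card =
      ∑ y ∈ F, if y ∈ K x then h y / (K y).card else 0 := by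
    intro x hx
    rw [← sum_filter, sum_div]
    have : F.filter (fun y => y ∈ K x) = K x := by
      ext y
      rw [mem_filter]
      exact ⟨fun h => h.2, fun h => ⟨hsub x hx h, h⟩⟩
    rw [this]
    apply sum_congr rfl
    intro y hy
    rw [hcl x hx y hy]
  rw [sum_congr rfl e1, sum_comm]
  apply sum_congr rfl
  intro y hy
  rw [← sum_filter, sum_const]
  have : F.filter (fun x => y ∈ K x) = K y := by
    ext x
    rw [mem_filter]
    constructor
    · rintro ⟨a, b⟩
      rw [hcl x a y b]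
      exact hself x a
    · intro b
      refine ⟨hsub y hy b, ?_⟩
      rw [hcl y hy x b]
      exact hself y hy
  rw [this, nsmul_eq_mul]
  have h1 : (0 : ℝ) < (K y).card := by exact_mod_cast card_pos.2 ⟨y, hself y hy⟩
  field_simp

/-! ## Classes -/

variable {n r : ℕ} {β : Type} {F : Finset (Fin n → Bool)} {N : Finset (Fin n)}
  {sg : Fin r → (Fin n → Bool) → β} {J : Finset (Fin r)}

theorem mem_Cl {x y : Fin n → Bool} : y ∈ Cl F N sg J x ↔
    y ∈ F ∧ (∀ v, v ∉ N → y v = x v) ∧ ∀ j ∈ J, sg j y = sg j x := by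
  unfold Cl
  simp

theorem Cl_self {x : Fin n → Bool} (hx : x ∈ F) : x ∈ Cl F N sg J x :=
  mem_Cl.2 ⟨hx, fun _ _ => rfl, fun _ _ => rfl⟩

theorem Cl_eq {x y : Fin n → Bool} (hy : y ∈ Cl F N sg J x) : Cl F N sg J y = Cl F N sg J x := by
  obtain ⟨_, h1, h2⟩ := mem_Cl.1 hy
  ext z
  rw [mem_Cl, mem_Cl]
  constructor
  · rintro ⟨a, b, c⟩
    exact ⟨a, fun v hv => (b v hv).trans (h1 v hv), fun j hj => (c j hj).trans (h2 j hj)⟩
  · rintro ⟨a, b, c⟩
    exact ⟨a, fun v hv => (b v hv).trans (h1 v hv).symm,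
      fun j hj => (c j hj).trans (h2 j hj).symm⟩

theorem UU_eq {x y : Fin n → Bool} (hy : y ∈ Cl F N sg J x) :
    UU F N sg J y = UU F N sg J x := by
  unfold UU
  rw [Cl_eq hy]

theorem sum_UU : ∑ x ∈ F, UU F N sg J x =
    ∑ x ∈ F, ∑ v ∈ N, wf (Cl F N sg J x) v x := by
  have h := avg_gen F (fun x => Cl F N sg J x) (fun x _ y hy => (mem_Cl.1 hy).1)
    (fun x hx => Cl_self hx) (fun x _ y hy => Cl_eq hy)
    (fun y => ∑ v ∈ N, wf (Cl F N sg J y) v y)
  rw [← h]
  apply sum_congr rfl
  intro x _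
  unfold UU
  congr 1
  apply sum_congr rfl
  intro y hy
  rw [Cl_eq hy]

/-! ## One coordinate -/

theorem mean_wf (C : Finset (Fin n → Bool)) (hC : C.Nonempty) (v : Fin n) :
    ∑ y ∈ C, wf C v y ≤ C.card / 2 := by
  have hc : (0 : ℝ) < C.card := by exact_mod_cast card_pos.2 hC
  set A := C.filter (fun y => y v = true) with hA
  set B := C.filter (fun y => ¬ y v = true) with hB
  have hAB : (A.card : ℝ) + B.card = C.card := by
    exact_mod_cast card_filter_add_card_filter_not (s := C) (fun y => y v = true)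
  have h1 : ∑ y ∈ C, wf C v y = ∑ y ∈ A, wf C v y + ∑ y ∈ B, wf C v y :=
    (sum_filter_add_sum_filter_not C (fun y => y v = true) _).symm
  have h2 : ∑ y ∈ A, wf C v y = A.card * (B.card / C.card) := by
    rw [← nsmul_eq_mul, ← sum_const]
    apply sum_congr rfl
    intro y hy
    have hy' := (mem_filter.1 hy).2
    unfold wf
    rw [hy']
  have h3 : ∑ y ∈ B, wf C v y = B.card * (A.card / C.card) := by
    rw [← nsmul_eq_mul, ← sum_const]
    apply sum_congr rfl
    intro y hy
    have hy' := (mem_filter.1 hy).2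
    rw [Bool.not_eq_true] at hy'
    unfold wf
    rw [hy']
    have : C.filter (fun z => z v ≠ false) = A := by
      rw [hA]
      apply filter_congr
      intro z _
      simp
    rw [this]
  rw [h1, h2, h3]
  have h4 : (A.card : ℝ) * (B.card / C.card) + B.card * (A.card / C.card) =
      2 * (A.card * B.card) / C.card := by ring
  rw [h4, div_le_div_iff₀ hc (by norm_num)]
  nlinarith [sq_nonneg ((A.card : ℝ) - B.card)]

theorem UU_le {x : Fin n → Bool} (hx : x ∈ F) : UU F N sg J x ≤ N.card / 2 := by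
  have hC : (Cl F N sg J x).Nonempty := ⟨x, Cl_self hx⟩
  have hc : (0 : ℝ) < (Cl F N sg J x).card := by exact_mod_cast card_pos.2 hC
  unfold UU
  rw [div_le_iff₀ hc, sum_comm]
  have h1 : ∑ v ∈ N, ∑ y ∈ Cl F N sg J x, wf (Cl F N sg J x) v y ≤
      ∑ v ∈ N, ((Cl F N sg J x).card : ℝ) / 2 :=
    sum_le_sum (fun v _ => mean_wf _ hC v)
  rw [sum_const, nsmul_eq_mul] at h1
  linarith

/-! ## Total correlation is nonnegative -/

theorem wf_lt {C : Finset (Fin n → Bool)} {x : Fin n → Bool} (hx : x ∈ C) (v : Fin n) :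
    wf C v x < 1 := by
  have hc : (0 : ℝ) < C.card := by exact_mod_cast card_pos.2 ⟨x, hx⟩
  unfold wf
  rw [div_lt_one hc]
  have : (C.filter (fun y => y v ≠ x v)) ⊂ C := by
    refine ⟨filter_subset _ _, fun h => ?_⟩
    have := (mem_filter.1 (h hx)).2
    exact this rfl
  exact_mod_cast card_lt_card this

theorem TCf_nonneg {C : Finset (Fin n → Bool)} (hC : C.Nonempty) : 0 ≤ TCf C := by
  classical
  have hc : (0 : ℝ) < C.card := by exact_mod_cast card_pos.2 hC
  have hle : ∀ v (x : Fin n → Bool), 0 ≤ 1 - wf C v x := by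
    intro v x
    unfold wf
    rw [sub_nonneg, div_le_one hc]
    exact_mod_cast card_le_card (filter_subset _ _)
  have h0 : ∑ x : Fin n → Bool, ∏ v, (1 - wf C v x) = 1 := by
    have e1 := Fintype.prod_sum (fun (v : Fin n) (c : Bool) => 1 - wf C v (fun _ => c))
    refine Eq.trans e1.symm ?_
    apply prod_eq_one
    intro v _
    rw [Fintype.sum_bool]
    have h5 : wf C v (fun _ => true) + wf C v (fun _ => false) = 1 := by
      unfold wf
      rw [← add_div, div_eq_one_iff_eq hc.ne']
      have : C.filter (fun z => z v ≠ false) = C.filter (fun z => ¬ z v ≠ true) := by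
        apply filter_congr
        intro z _
        simp
      rw [this]
      exact_mod_cast card_filter_add_card_filter_not (s := C) (fun y => y v ≠ true)
    linarith
  have h1 : ∑ x ∈ C, ∏ v, (1 - wf C v x) ≤ 1 := by
    refine le_trans ?_ h0.le
    apply sum_le_sum_of_subset_of_nonneg (subset_univ _)
    intro x _ _
    exact prod_nonneg (fun v _ => hle v x)
  have h2 : ∀ x ∈ C, Real.log C.card + ∑ v, Real.log (1 - wf C v x) ≤
      C.card * ∏ v, (1 - wf C v x) - 1 := by
    intro x hx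
    have hp : ∀ v, 0 < 1 - wf C v x := fun v => by
      have := wf_lt hx v
      linarith
    have hpp : 0 < ∏ v, (1 - wf C v x) := prod_pos (fun v _ => hp v)
    have e : Real.log C.card + ∑ v, Real.log (1 - wf C v x) =
        Real.log (C.card * ∏ v, (1 - wf C v x)) := by
      rw [Real.log_mul hc.ne' hpp.ne', Real.log_prod]
      intro v _
      exact (hp v).ne'
    rw [e]
    exact Real.log_le_sub_one_of_pos (by positivity)
  have h3 := sum_le_sum h2
  rw [sum_add_distrib, sum_const, nsmul_eq_mul, sum_sub_distrib, sum_const, nsmul_eq_mul,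
    ← mul_sum] at h3
  have h4 := mul_le_mul_of_nonneg_left h1 hc.le
  unfold TCf
  rw [sub_nonneg, le_div_iff₀ hc]
  have h6 : ∑ x ∈ C, ∑ v, -Real.log (1 - wf C v x) =
      -∑ x ∈ C, ∑ v, Real.log (1 - wf C v x) := by
    rw [← sum_neg_distrib]
    apply sum_congr rfl
    intro x _
    rw [← sum_neg_distrib]
  rw [h6]
  linarith

end Cutp

open Finset Cutp in
theorem tCutp : S_Cutp := by
  classical
  intro n r β F sg N J c hF hN hc hu
  have hFc : (0 : ℝ) < F.card := by exact_mod_cast card_pos.2 hF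
  have hNc : (0 : ℝ) < N.card := by exact_mod_cast card_pos.2 hN
  set F' := F.filter (fun x => c / 2 * N.card ≤ UU F N sg J x) with hF'
  have hsub : F' ⊆ F := filter_subset _ _
  have hCl : ∀ x ∈ F', Cl F' N sg J x = Cl F N sg J x := by
    intro x hx
    ext y
    constructor
    · intro hy
      obtain ⟨a, b⟩ := mem_Cl.1 hy
      exact mem_Cl.2 ⟨hsub a, b⟩
    · intro hy
      obtain ⟨a, b⟩ := mem_Cl.1 hy
      refine mem_Cl.2 ⟨?_, b⟩
      rw [hF', mem_filter]
      refine ⟨a, ?_⟩
      rw [UU_eq hy]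
      exact (mem_filter.1 hx).2
  have h1 : c * N.card * F.card ≤ ∑ x ∈ F, UU F N sg J x := by
    unfold uJ at hu
    rw [le_div_iff₀ hFc] at hu
    rw [sum_UU]
    exact hu
  have h2 : ∑ x ∈ F, UU F N sg J x ≤ F'.card * (N.card / 2) + F.card * (c / 2 * N.card) := by
    rw [← sum_filter_add_sum_filter_not F (fun x => c / 2 * N.card ≤ UU F N sg J x)]
    apply add_le_add
    · rw [← nsmul_eq_mul, ← sum_const]
      apply sum_le_sum
      intro x hx
      exact UU_le (hsub hx)
    · have : ∑ x ∈ F.filter (fun x => ¬ c / 2 * N.card ≤ UU F N sg J x), UU F N sg J x ≤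
          ∑ x ∈ F.filter (fun x => ¬ c / 2 * N.card ≤ UU F N sg J x), c / 2 * N.card := by
        apply sum_le_sum
        intro x hx
        have := (mem_filter.1 hx).2
        push Not at this
        exact this.le
      refine le_trans this ?_
      rw [sum_const, nsmul_eq_mul]
      apply mul_le_mul_of_nonneg_right _ (by positivity)
      exact_mod_cast card_le_card (filter_subset _ _)
  have h3 : c * F.card ≤ F'.card := by
    have h4 : N.card * (c * F.card) ≤ N.card * (F'.card : ℝ) := by nlinarith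
    exact le_of_mul_le_mul_left h4 hNc
  have h4 : (0 : ℝ) < F'.card := lt_of_lt_of_le (by positivity) h3
  have h5 : F'.Nonempty := card_pos.1 (by exact_mod_cast h4)
  refine ⟨F', hsub, h5, h3, ?_, ?_⟩
  · intro x hx
    have : UU F' N sg J x = UU F N sg J x := by
      unfold UU
      rw [hCl x hx]
    rw [this]
    exact (mem_filter.1 hx).2
  · have h6 : ∑ x ∈ F', TCf (Cl F' N sg J x) ≤ ∑ x ∈ F, TCf (Cl F N sg J x) := by
      rw [sum_congr rfl (fun x hx => by rw [hCl x hx])]
      apply sum_le_sum_of_subset_of_nonneg hsub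
      intro x hx _
      exact TCf_nonneg ⟨x, Cl_self hx⟩
    have h7 : 0 ≤ ∑ x ∈ F, TCf (Cl F N sg J x) :=
      sum_nonneg (fun x hx => TCf_nonneg ⟨x, Cl_self hx⟩)
    unfold tJ
    calc (∑ x ∈ F', TCf (Cl F' N sg J x)) / F'.card
        ≤ (∑ x ∈ F, TCf (Cl F N sg J x)) / F'.card := div_le_div_of_nonneg_right h6 h4.le
      _ ≤ (∑ x ∈ F, TCf (Cl F N sg J x)) / (c * F.card) :=
          div_le_div_of_nonneg_left h7 (by positivity) h3
      _ = _ := by
          field_simp

end SRBP
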