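import Pool.Agent.Lib.MP_9dcf40_lc.LIN.Spec
import Pool.Agent.Lib.MP_9dcf40_lc.LIN.Cols

/-!
# Theorem K: assembly of section 4 (S_Fin)
-/

namespace SRBP

open Finset

namespace FinA

/-- Markov's inequality for weighted finite sums. -/
theorem markov {Ω : Type} (s : Finset Ω) (p X : Ω → ℝ) (B : Ω → Prop) [DecidablePred B] {t : ℝ}
    (hp : ∀ ω ∈ s, 0 ≤ p ω) (hX : ∀ ω ∈ s, 0 ≤ X ω) (ht : 0 < t) (hB : ∀ ω ∈ s, B ω → t ≤ X ω)
    (hE : ∑ ω ∈ s, p ω * X ω ≤ t / 4) : ∑ ω ∈ s.filter B, p ω ≤ 1 / 4 := by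
  have h1 : t * ∑ ω ∈ s.filter B, p ω ≤ ∑ ω ∈ s, p ω * X ω := by
    rw [mul_sum]
    calc ∑ ω ∈ s.filter B, t * p ω ≤ ∑ ω ∈ s.filter B, p ω * X ω := by
          refine sum_le_sum fun ω hω => ?_
          rw [mem_filter] at hω
          rw [mul_comm]
          exact mul_le_mul_of_nonneg_left (hB ω hω.1 hω.2) (hp ω hω.1)
      _ ≤ _ := sum_le_sum_of_subset_of_nonneg (filter_subset _ _)
          fun ω hω _ => mul_nonneg (hp ω hω) (hX ω hω)
  have h2 : t * ∑ ω ∈ s.filter B, p ω ≤ t * (1 / 4) := by linarith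
  exact le_of_mul_le_mul_left h2 ht

/-- Three bad events. -/
theorem exists_good {Ω : Type} (s : Finset Ω) (p : Ω → ℝ) (B₁ B₂ B₃ : Ω → Prop)
    [DecidablePred B₁] [DecidablePred B₂] [DecidablePred B₃]
    (hp : ∀ ω ∈ s, 0 ≤ p ω) (h1 : ∑ ω ∈ s, p ω = 1) (hB₁ : ∑ ω ∈ s.filter B₁, p ω ≤ 1 / 4)
    (hB₂ : ∑ ω ∈ s.filter B₂, p ω ≤ 1 / 4) (hB₃ : ∑ ω ∈ s.filter B₃, p ω ≤ 1 / 4) :
    ∃ ω ∈ s, 0 < p ω ∧ ¬ B₁ ω ∧ ¬ B₂ ω ∧ ¬ B₃ ω := by
  by_contra hcon
  push Not at hcon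
  have h2 : ∑ ω ∈ s, p ω ≤ ∑ ω ∈ s, ((if B₁ ω then p ω else 0) + (if B₂ ω then p ω else 0) +
      (if B₃ ω then p ω else 0)) := by
    refine sum_le_sum fun ω hω => ?_
    have h0 := hp ω hω
    by_cases hb1 : B₁ ω
    · rw [if_pos hb1]
      split_ifs <;> linarith
    · by_cases hb2 : B₂ ω
      · rw [if_neg hb1, if_pos hb2]
        split_ifs <;> linarith
      · by_cases hb3 : B₃ ω
        · rw [if_neg hb1, if_neg hb2, if_pos hb3]
          linarith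
        · have h3 : ¬ 0 < p ω := fun h => hb3 (hcon ω hω h hb1 hb2)
          rw [if_neg hb1, if_neg hb2, if_neg hb3]
          linarith [not_lt.1 h3]
  rw [sum_add_distrib, sum_add_distrib, ← sum_filter, ← sum_filter, ← sum_filter, h1] at h2
  linarith

theorem wf_nonneg' {n : ℕ} (C : Finset (Fin n → Bool)) (v : Fin n) (x : Fin n → Bool) :
    0 ≤ wf C v x := by
  unfold wf
  positivity

theorem sum_ind {n : ℕ} (F : Finset (Fin n → Bool)) (D : (Fin n → Bool) → Finset (Fin n))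
    (S : Finset (Fin n)) :
    ∑ v ∈ S, ∑ x ∈ F, (if v ∈ D x then (1 : ℝ) else 0) = ∑ x ∈ F, ((D x ∩ S).card : ℝ) := by
  rw [sum_comm]
  refine sum_congr rfl fun x _ => ?_
  rw [sum_boole, filter_mem_eq_inter, inter_comm]

end FinA

open FinA in
/-- Section 4. -/
theorem tFin (hGch : S_Gch) (hKw : S_Kw) (hRows : S_Rows) (hCols : S_Cols) (hTail : S_Tail)
    (hSiz : S_Siz) (hHyb : S_Hyb) : S_Fin := by
  classical
  intro n r β F sg dm N J v₀ ζ δ D g hCPS hF hN hv0 hv1 hζ hζ2 hg hgN hD htJ hUU hDJ hb1 hb2 hb3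
  have hFpos : (0 : ℝ) < F.card := by exact_mod_cast hF.card_pos
  have hNpos : (0 : ℝ) < N.card := by exact_mod_cast hN.card_pos
  have hgpos : (0 : ℝ) < g := by exact_mod_cast hg
  have hvN : 0 < v₀ * N.card := mul_pos hv0 hNpos
  have hUpos : ∀ x ∈ F, 0 < UU F N sg J x := fun x hx => lt_of_lt_of_le hvN (hUU x hx)
  obtain ⟨G, hGN, hGc, hGα, hGγ⟩ := hGch n N
    (fun v => ∑ x ∈ F, (if v ∈ DJ sg dm Jᶜ x then (1 : ℝ) else 0))
    (fun v => ∑ x ∈ F, v₀ * N.card / UU F N sg J x * wf (Cl F N sg J x) v x) g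
    (fun v => sum_nonneg fun x _ => by split_ifs <;> norm_num)
    (fun v => sum_nonneg fun x hx => mul_nonneg (div_nonneg hvN.le (hUpos x hx).le)
      (wf_nonneg' _ _ _)) hgN
  have hGcR : (G.card : ℝ) = g := by rw [hGc]
  rw [sum_ind, sum_ind] at hGα
  have hDJG : ∑ x ∈ F, ((DJ sg dm Jᶜ x ∩ G).card : ℝ) ≤ (2 * ζ) * G.card * F.card := by
    refine le_of_mul_le_mul_left ?_ hNpos
    calc (N.card : ℝ) * ∑ x ∈ F, ((DJ sg dm Jᶜ x ∩ G).card : ℝ)
        ≤ 2 * g * ∑ x ∈ F, ((DJ sg dm Jᶜ x ∩ N).card : ℝ) := hGα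
      _ ≤ 2 * g * (ζ * N.card * F.card) := mul_le_mul_of_nonneg_left hDJ (by positivity)
      _ = N.card * ((2 * ζ) * G.card * F.card) := by rw [hGcR]; ring
  have hsw : ∀ S : Finset (Fin n),
      ∑ v ∈ S, ∑ x ∈ F, v₀ * N.card / UU F N sg J x * wf (Cl F N sg J x) v x =
        ∑ x ∈ F, v₀ * N.card / UU F N sg J x * ∑ v ∈ S, wf (Cl F N sg J x) v x := by
    intro S
    rw [sum_comm]
    refine sum_congr rfl fun x _ => ?_
    rw [mul_sum]
  rw [hsw, hsw, Cols.sum_aw F N sg J (v₀ * N.card) fun x hx => (hUpos x hx).ne'] at hGγ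
  have hκ : (∑ x ∈ F, v₀ * N.card / UU F N sg J x * ∑ v ∈ G, wf (Cl F N sg J x) v x) / F.card ≤
      2 * g * v₀ := by
    rw [div_le_iff₀ hFpos]
    refine le_of_mul_le_mul_left ?_ hNpos
    refine hGγ.trans (le_of_eq ?_)
    ring
  obtain ⟨hk0, hk1, -⟩ := hKw n r β F sg N G J v₀ hF hN hGN hv0 hUU
  have htail := hTail n r β F sg N G J v₀ hF hN hGN hv0 hUU
  have hrows := hRows n r β F sg dm N G J v₀ (2 * ζ) hF hN hGN hv0 hUU (by linarith) hζ2 hDJG
  have hcols := hCols n r β F sg dm N G J v₀ (2 * ζ) hCPS hF hN hGN hv0 hv1 hUU hDJG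
  have hsz := hSiz n r β F sg dm N G J v₀ hCPS
  rw [hGcR] at hrows hcols
  have hlog2 : 0 < Real.log 2 := Real.log_pos one_lt_two
  -- first event
  have e1 : ∑ ω ∈ (Om F N G).filter (fun ω => (ω.2.card : ℝ) ≤ v₀ * N.card / 8),
      kw F N G sg J v₀ ω ≤ 1 / 4 := by
    refine htail.trans (le_trans ?_ hb1)
    refine add_le_add ?_ ?_
    · rw [div_le_div_iff₀ hvN hNpos]
      have h1 := mul_le_mul_of_nonneg_right hκ hNpos.le
      nlinarith
    · exact div_le_div_of_nonneg_right (by linarith) hvN.le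
  -- nonnegativity
  have hX : ∀ ω ∈ Om F N G, 0 ≤ ω.2.card * Real.log 2 - Real.log (rows F G sg dm J ω).card := by
    intro ω hω
    obtain ⟨h1, h2, -, -⟩ := hsz ω hω
    have h3 : (0 : ℝ) < (rows F G sg dm J ω).card := by exact_mod_cast card_pos.2 ⟨_, h1⟩
    have h4 : Real.log (rows F G sg dm J ω).card ≤ Real.log ((2 : ℝ) ^ ω.2.card) :=
      Real.log_le_log h3 (by exact_mod_cast h2)
    rw [Real.log_pow] at h4
    linarith
  have hY : ∀ ω ∈ Om F N G, 0 ≤ g * Real.log 2 - Real.log (cols F G sg dm J ω).card := by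
    intro ω hω
    obtain ⟨-, -, h2, -⟩ := hsz ω hω
    rcases Nat.eq_zero_or_pos (cols F G sg dm J ω).card with h0 | h0
    · rw [h0, Nat.cast_zero, Real.log_zero, sub_zero]
      positivity
    · have h3 : (0 : ℝ) < (cols F G sg dm J ω).card := by exact_mod_cast h0
      have h4 : Real.log (cols F G sg dm J ω).card ≤ Real.log ((2 : ℝ) ^ G.card) :=
        Real.log_le_log h3 (by exact_mod_cast h2)
      rw [Real.log_pow, hGcR] at h4
      linarith
  have e2 : ∑ ω ∈ (Om F N G).filter (fun ω => v₀ * N.card / 25 ≤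
      ω.2.card * Real.log 2 - Real.log (rows F G sg dm J ω).card), kw F N G sg J v₀ ω ≤ 1 / 4 := by
    refine markov _ _ (fun ω => ω.2.card * Real.log 2 - Real.log (rows F G sg dm J ω).card) _
      (t := v₀ * N.card / 25) hk0 hX (by positivity) (fun ω _ h => h) ?_
    linarith
  have e3 : ∑ ω ∈ (Om F N G).filter (fun ω => g * Real.log 2 / 2 ≤
      g * Real.log 2 - Real.log (cols F G sg dm J ω).card), kw F N G sg J v₀ ω ≤ 1 / 4 := by
    refine markov _ _ (fun ω => g * Real.log 2 - Real.log (cols F G sg dm J ω).card) _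
      (t := g * Real.log 2 / 2) hk0 hY (by positivity) (fun ω _ h => h) ?_
    linarith
  obtain ⟨ω, hω, hpos, g1, g2, g3⟩ := exists_good _ _ _ _ _ hk0 hk1 e1 e2 e3
  obtain ⟨z1, z2, z3, z4⟩ := hsz ω hω
  have z5 := z4 hpos
  obtain ⟨y1, y2, y3⟩ := hHyb n r β F sg dm N G J hCPS ω hω
  rw [not_le] at g1 g2 g3
  have hωF : ω.1 ∈ F := (mem_product.1 hω).1
  have hl2 : (0.6931471803 : ℝ) < Real.log 2 := Real.log_two_gt_d9
  refine ⟨ω.1, hωF, J, ω.2, rows F G sg dm J ω, fun y hy => (y1 y hy).1, cols F G sg dm J ω,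
    fun y hy => (y2 y hy).1, ?_, ?_, fun y hy => (y1 y hy).2, fun y hy => (y2 y hy).2, y3⟩
  · refine (min_le_left _ _).trans ?_
    have h3 : (0 : ℝ) < (rows F G sg dm J ω).card := by exact_mod_cast card_pos.2 ⟨_, z1⟩
    rw [← Real.le_log_iff_exp_le h3]
    have h5 : v₀ * N.card / 8 * Real.log 2 ≤ ω.2.card * Real.log 2 :=
      mul_le_mul_of_nonneg_right g1.le hlog2.le
    have h6 : v₀ * N.card / 8 * 0.6931471803 ≤ v₀ * N.card / 8 * Real.log 2 :=
      mul_le_mul_of_nonneg_left hl2.le (by positivity)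
    linarith
  · refine (min_le_right _ _).trans ?_
    have h3 : (0 : ℝ) < (cols F G sg dm J ω).card := by exact_mod_cast card_pos.2 ⟨_, z5⟩
    rw [← Real.le_log_iff_exp_le h3]
    linarith

end SRBP
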