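import Pool.Agent.Lib.MP_9dcf40_lc.LIN.Spec

/-!
# Theorem K (MP_9dcf40_lc): choice of `G`
-/

namespace SRBP

open Finset

/-- A subset with `N.card - d` elements whose mean is at most the mean of `N`. -/
private lemma gch_avg {n : ℕ} (N : Finset (Fin n)) (γ : Fin n → ℝ) (d : ℕ) (hd : d ≤ N.card) :
    ∃ G ⊆ N, G.card = N.card - d ∧
      (N.card : ℝ) * ∑ v ∈ G, γ v ≤ ((N.card - d : ℕ) : ℝ) * ∑ v ∈ N, γ v := by
  induction d with
  | zero => exact ⟨N, Finset.Subset.refl _, by simp, by simp⟩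
  | succ d ih =>
    obtain ⟨G, hGN, hGc, hG⟩ := ih (by omega)
    have hne : G.Nonempty := by
      rw [← Finset.card_pos]
      omega
    obtain ⟨v, hv, hmax⟩ := Finset.exists_max_image G γ hne
    refine ⟨G.erase v, (Finset.erase_subset _ _).trans hGN, ?_, ?_⟩
    · rw [Finset.card_erase_of_mem hv, hGc]
      omega
    · set m : ℕ := N.card - (d + 1) with hm
      have hm1 : N.card - d = m + 1 := by omega
      rw [hm1] at hG hGc
      push_cast at hG
      have h1 : ∑ u ∈ G, γ u ≤ ((m : ℝ) + 1) * γ v := by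
        have := Finset.sum_le_card_nsmul G γ (γ v) hmax
        rw [hGc, nsmul_eq_mul] at this
        push_cast at this
        exact this
      have h2 : ∑ u ∈ G.erase v, γ u = ∑ u ∈ G, γ u - γ v := by
        rw [← Finset.add_sum_erase G γ hv]
        ring
      rw [h2]
      have hm0 : (0 : ℝ) ≤ m := Nat.cast_nonneg m
      have hN0 : (0 : ℝ) ≤ N.card := Nat.cast_nonneg _
      have h3 : ((m : ℝ) + 1) * (∑ u ∈ G, γ u - γ v) ≤ m * ∑ u ∈ G, γ u := by nlinarith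
      have h4 : ((m : ℝ) + 1) * ((N.card : ℝ) * (∑ u ∈ G, γ u - γ v)) ≤
          ((m : ℝ) + 1) * ((m : ℝ) * ∑ u ∈ N, γ u) := by
        calc ((m : ℝ) + 1) * ((N.card : ℝ) * (∑ u ∈ G, γ u - γ v))
            = (N.card : ℝ) * (((m : ℝ) + 1) * (∑ u ∈ G, γ u - γ v)) := by ring
          _ ≤ (N.card : ℝ) * (m * ∑ u ∈ G, γ u) := mul_le_mul_of_nonneg_left h3 hN0
          _ = m * ((N.card : ℝ) * ∑ u ∈ G, γ u) := by ring
          _ ≤ m * (((m : ℝ) + 1) * ∑ u ∈ N, γ u) := mul_le_mul_of_nonneg_left hG hm0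
          _ = ((m : ℝ) + 1) * ((m : ℝ) * ∑ u ∈ N, γ u) := by ring
      exact le_of_mul_le_mul_left h4 (by linarith)

/-- One of the two conclusions. -/
private lemma gch_one {n : ℕ} (N G : Finset (Fin n)) (α γ : Fin n → ℝ) (g : ℕ) (hα : ∀ v, 0 ≤ α v)
    (hGN : G ⊆ N) (hγ : ∀ v, α v / (∑ u ∈ N, α u) ≤ γ v)
    (h : (N.card : ℝ) * ∑ v ∈ G, γ v ≤ 2 * g) :
    N.card * ∑ v ∈ G, α v ≤ 2 * g * ∑ v ∈ N, α v := by
  have hA0 : 0 ≤ ∑ u ∈ N, α u := Finset.sum_nonneg fun v _ => hα v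
  rcases hA0.eq_or_lt with hA | hA
  · have h0 : ∑ v ∈ G, α v = 0 := by
      apply le_antisymm _ (Finset.sum_nonneg fun v _ => hα v)
      rw [hA]
      exact Finset.sum_le_sum_of_subset_of_nonneg hGN fun v _ _ => hα v
    rw [h0, ← hA]
    simp
  · have h1 : ∑ v ∈ G, α v / (∑ u ∈ N, α u) ≤ ∑ v ∈ G, γ v := Finset.sum_le_sum fun v _ => hγ v
    rw [← Finset.sum_div] at h1
    have hN0 : (0 : ℝ) ≤ N.card := Nat.cast_nonneg _
    have h2 : (N.card : ℝ) * ((∑ v ∈ G, α v) / (∑ u ∈ N, α u)) ≤ 2 * g :=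
      (mul_le_mul_of_nonneg_left h1 hN0).trans h
    rw [← mul_div_assoc, div_le_iff₀ hA] at h2
    exact h2

/-- GCH: choice of `G`. -/
theorem tGch : S_Gch := by
  intro n N α β g hα hβ hg
  set A : ℝ := ∑ u ∈ N, α u with hA
  set B : ℝ := ∑ u ∈ N, β u with hB
  have hA0 : 0 ≤ A := Finset.sum_nonneg fun v _ => hα v
  have hB0 : 0 ≤ B := Finset.sum_nonneg fun v _ => hβ v
  obtain ⟨G, hGN, hGc, hG⟩ := gch_avg N (fun v => α v / A + β v / B) (N.card - g) (by omega)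
  have hgg : N.card - (N.card - g) = g := by omega
  rw [hgg] at hGc hG
  have hs : ∑ v ∈ N, (α v / A + β v / B) ≤ 2 := by
    rw [Finset.sum_add_distrib, ← Finset.sum_div, ← Finset.sum_div, ← hA, ← hB]
    have h1 : A / A ≤ 1 := div_self_le_one A
    have h2 : B / B ≤ 1 := div_self_le_one B
    linarith
  have hg0 : (0 : ℝ) ≤ g := Nat.cast_nonneg g
  have hG2 : (N.card : ℝ) * ∑ v ∈ G, (α v / A + β v / B) ≤ 2 * g := by
    refine hG.trans ?_
    calc (g : ℝ) * ∑ v ∈ N, (α v / A + β v / B) ≤ g * 2 := mul_le_mul_of_nonneg_left hs hg0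
      _ = 2 * g := by ring
  refine ⟨G, hGN, hGc, ?_, ?_⟩
  · refine gch_one N G α _ g hα hGN (fun v => ?_) hG2
    have := div_nonneg (hβ v) hB0
    show α v / A ≤ α v / A + β v / B
    linarith
  · refine gch_one N G β _ g hβ hGN (fun v => ?_) hG2
    have := div_nonneg (hα v) hA0
    show β v / B ≤ α v / A + β v / B
    linarith

end SRBP
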