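import Pool.Agent.Lib.MP_9dcf40_lc.SR.Spec
import Pool.Agent.Lib.MP_9dcf40_lc.SR.Hit
import Pool.Agent.Lib.MP_9dcf40_lc.SR.Pow
import Pool.Agent.Lib.MP_9dcf40_lc.SR.Bol

/-!
# The entropy of a consistent system of partial assignments, given the coordinates outside `G`
-/

namespace SRBP

open Finset

namespace HitT

open scoped Classical

/-- `x` outside `G`. -/
def off {n : ℕ} (G : Finset (Fin n)) (x : Fin n → Bool) : Fin n → Bool :=
  fun v => if v ∈ G then false else x v

/-- The weight of the subcubes which fix the coordinates outside `G` to the value `c`. -/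
theorem sum_fix {n : ℕ} (p : ℝ) (G : Finset (Fin n)) (c : Fin n → Bool) :
    ∑ R : Fin n → Option Bool, (∏ v, wt p (R v)) * (if ∀ v, v ∉ G → R v = some (c v) then 1 else 0)
      = p ^ (Gᶜ).card := by
  have h1 : ∀ R : Fin n → Option Bool,
      (∏ v, wt p (R v)) * (if ∀ v, v ∉ G → R v = some (c v) then (1 : ℝ) else 0)
      = ∏ v, (wt p (R v) * (if v ∉ G → R v = some (c v) then 1 else 0)) := by
    intro R
    rw [Finset.prod_mul_distrib, Finset.prod_boole]
    simp
  rw [sum_congr rfl fun R _ => h1 R]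
  have h := Finset.prod_univ_sum (fun _ : Fin n => (univ : Finset (Option Bool)))
    (fun v r => wt p r * (if v ∉ G → r = some (c v) then (1 : ℝ) else 0))
  rw [Fintype.piFinset_univ] at h
  rw [← h]
  have h2 : ∀ v : Fin n, ∑ j : Option Bool, wt p j * (if v ∉ G → j = some (c v) then (1 : ℝ) else 0)
      = if v ∈ Gᶜ then p else 1 := by
    intro v
    rw [Fintype.sum_option, Fintype.sum_bool]
    by_cases hv : v ∈ G
    · simp [hv, wt]
      ring
    · rcases hc : c v with _ | _ <;> simp [hv, wt]
  rw [prod_congr rfl fun v _ => h2 v, Finset.prod_ite_mem, univ_inter, prod_const]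

/-- Grouping by the fibres. -/
theorem group {α β : Type} (F : Finset α) (f : α → β) (A : β → ℝ) (lam : ℝ) :
    ∑ x ∈ F, A (f x) * (fib F f x : ℝ) ^ (lam - 1) =
      ∑ q ∈ F.image f, A q * ((F.filter (fun x => f x = q)).card : ℝ) ^ lam := by
  have h1 : ∀ x ∈ F, f x ∈ F.image f := fun x hx => Finset.mem_image_of_mem _ hx
  rw [← Finset.sum_fiberwise_of_maps_to h1]
  refine Finset.sum_congr rfl (fun q hq => ?_)
  have h2 : ∀ x ∈ F.filter (fun x => f x = q),
      A (f x) * (fib F f x : ℝ) ^ (lam - 1) =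
      A q * ((F.filter (fun x => f x = q)).card : ℝ) ^ (lam - 1) := by
    intro x hx
    rw [Finset.mem_filter] at hx
    have : fib F f x = (F.filter (fun x => f x = q)).card := by
      unfold fib
      rw [hx.2]
    rw [this, hx.2]
  rw [Finset.sum_congr rfl h2, Finset.sum_const, nsmul_eq_mul]
  have hpos : (0 : ℝ) < ((F.filter (fun x => f x = q)).card : ℝ) := by
    rw [Finset.mem_image] at hq
    obtain ⟨x, hx, hxq⟩ := hq
    have : 0 < (F.filter (fun x => f x = q)).card :=
      Finset.card_pos.2 ⟨x, Finset.mem_filter.2 ⟨hx, hxq⟩⟩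
    exact_mod_cast this
  rw [Real.rpow_sub hpos, Real.rpow_one]
  field_simp

/-- One class of `x` outside `G`. -/
theorem one_class (hHit : S_Hit) {n : ℕ} (G : Finset (Fin n)) (F : Finset (Fin n → Bool)) {β : Type}
    (τ : (Fin n → Bool) → β) (dm : β → Finset (Fin n))
    (CP : ∀ x ∈ F, ∀ y ∈ F, (∀ v ∈ dm (τ x), x v = y v) → (∀ v ∈ dm (τ y), x v = y v) → τ x = τ y)
    (p lam : ℝ) (hp0 : 0 < p) (hp1 : p ≤ 1 / 2) (hlam : 1 - p = (2 : ℝ) ^ (-lam))
    (c : Fin n → Bool) (hc : ∀ x ∈ F, off G x = c) :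
    ∑ x ∈ F, (p ^ (dm (τ x) ∩ G).card * (1 - p) ^ (G.card - (dm (τ x) ∩ G).card)) *
      (fib F τ x : ℝ) ^ (lam - 1) ≤ 1 := by
  rw [group F τ (fun b => p ^ (dm b ∩ G).card * (1 - p) ^ (G.card - (dm b ∩ G).card))]
  have hcard : ∀ b, (dm b ∪ Gᶜ).card = (dm b ∩ G).card + (Gᶜ).card := by
    intro b
    rw [← card_union_of_disjoint]
    · congr 1
      ext v
      simp only [mem_union, mem_inter, mem_compl]
      tauto
    · rw [disjoint_left]
      intro v hv
      simp only [mem_inter, mem_compl, not_not] at hv ⊢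
      exact hv.2
  have hle : ∀ b, (dm b ∩ G).card ≤ G.card := fun b => card_le_card inter_subset_right
  have hGn : G.card + (Gᶜ).card = n := by
    rw [card_add_card_compl, Fintype.card_fin]
  have hpp : (0 : ℝ) < p ^ (Gᶜ).card := pow_pos hp0 _
  have h1p : 0 < 1 - p := by linarith
  rw [← mul_le_mul_iff_right₀ hpp, mul_one, mul_sum]
  have hstep : ∀ b ∈ F.image τ, p ^ (Gᶜ).card * (p ^ (dm b ∩ G).card *
      (1 - p) ^ (G.card - (dm b ∩ G).card) * ((F.filter (fun x => τ x = b)).card : ℝ) ^ lam) ≤
      ∑ R : Fin n → Option Bool, (∏ v, wt p (R v)) *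
        (if (∀ v ∈ dm b ∪ Gᶜ, R v ≠ none) ∧ Hits R (F.filter (fun x => τ x = b)) then 1 else 0) := by
    intro b _
    have h := hHit n p lam hp0 hp1 hlam (dm b ∪ Gᶜ) (F.filter (fun x => τ x = b))
    rw [hcard b] at h
    have e : n - ((dm b ∩ G).card + (Gᶜ).card) = G.card - (dm b ∩ G).card := by
      have := hle b
      omega
    rw [e, pow_add] at h
    refine le_trans (le_of_eq ?_) (h.trans (le_of_eq ?_))
    · ring
    · apply sum_congr rfl
      intro R _
      congr
  refine (sum_le_sum hstep).trans ?_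
  rw [sum_comm, ← sum_fix p G c]
  apply sum_le_sum
  intro R _
  rw [← mul_sum]
  refine mul_le_mul_of_nonneg_left ?_ (Finset.prod_nonneg (fun v _ => Bol.wt_nonneg hp0 hp1 (R v)))
  rw [Finset.sum_boole]
  -- at most one value
  have hone : ((F.image τ).filter (fun b => (∀ v ∈ dm b ∪ Gᶜ, R v ≠ none) ∧
      Hits R (F.filter (fun x => τ x = b)))).card ≤ 1 := by
    rw [card_le_one]
    intro b hb b' hb'
    obtain ⟨_, hd, x, hx, hR⟩ := mem_filter.mp hb
    obtain ⟨_, hd', x', hx', hR'⟩ := mem_filter.mp hb'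
    obtain ⟨hxF, hxb⟩ := mem_filter.mp hx
    obtain ⟨hxF', hxb'⟩ := mem_filter.mp hx'
    rw [← hxb, ← hxb']
    have hag : ∀ v, R v ≠ none → x v = x' v := by
      intro v hv
      have h1 := (hR v).resolve_left hv
      have h2 := (hR' v).resolve_left hv
      rw [h1] at h2
      exact Option.some.inj h2
    apply CP x hxF x' hxF'
    · intro v hv
      exact hag v (hd v (mem_union_left _ (by rw [← hxb]; exact hv)))
    · intro v hv
      exact hag v (hd' v (mem_union_left _ (by rw [← hxb']; exact hv)))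
  by_cases hRc : ∀ v, v ∉ G → R v = some (c v)
  · rw [if_pos hRc]
    exact_mod_cast hone
  · rw [if_neg hRc]
    have : ((F.image τ).filter (fun b => (∀ v ∈ dm b ∪ Gᶜ, R v ≠ none) ∧
      Hits R (F.filter (fun x => τ x = b)))) = ∅ := by
      apply filter_eq_empty_iff.mpr
      rintro b _ ⟨hd, x, hx, hR⟩
      apply hRc
      intro v hv
      have h1 := (hR v).resolve_left (hd v (mem_union_right _ (mem_compl.mpr hv)))
      have h2 := hc x (mem_filter.mp hx).1
      rw [h1, ← h2]
      unfold off
      rw [if_neg hv]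
    rw [this]
    simp

theorem fib_pos' {α β : Type} {F : Finset α} (f : α → β) {x : α} (hx : x ∈ F) : 0 < fib F f x := by
  unfold fib
  exact card_pos.mpr ⟨x, mem_filter.mpr ⟨hx, rfl⟩⟩

/-- All classes. -/
theorem total (hHit : S_Hit) {n : ℕ} (G : Finset (Fin n)) (F : Finset (Fin n → Bool)) {β : Type}
    (τ : (Fin n → Bool) → β) (dm : β → Finset (Fin n))
    (CP : ∀ x ∈ F, ∀ y ∈ F, (∀ v ∈ dm (τ x), x v = y v) → (∀ v ∈ dm (τ y), x v = y v) → τ x = τ y)
    (p lam : ℝ) (hp0 : 0 < p) (hp1 : p ≤ 1 / 2) (hlam : 1 - p = (2 : ℝ) ^ (-lam)) :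
    ∑ x ∈ F, (p ^ (dm (τ x) ∩ G).card * (1 - p) ^ (G.card - (dm (τ x) ∩ G).card)) *
      (fib F (fun x => (off G x, τ x)) x : ℝ) ^ (lam - 1) * fib F (off G) x ≤ F.card := by
  have h1 : ∀ x ∈ F, off G x ∈ F.image (off G) := fun x hx => Finset.mem_image_of_mem _ hx
  have h2 : (F.card : ℝ) = ∑ c ∈ F.image (off G), ((F.filter (fun x => off G x = c)).card : ℝ) := by
    rw [card_eq_sum_card_fiberwise h1]
    push_cast
    rfl
  rw [h2, ← Finset.sum_fiberwise_of_maps_to h1]
  apply sum_le_sum
  intro c _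
  have h3 := one_class hHit G (F.filter (fun x => off G x = c)) τ dm
    (fun x hx y hy => CP x (mem_filter.mp hx).1 y (mem_filter.mp hy).1) p lam hp0 hp1 hlam c
    (fun x hx => (mem_filter.mp hx).2)
  have h4 : ∑ x ∈ F.filter (fun x => off G x = c),
      (p ^ (dm (τ x) ∩ G).card * (1 - p) ^ (G.card - (dm (τ x) ∩ G).card)) *
      (fib F (fun x => (off G x, τ x)) x : ℝ) ^ (lam - 1) * fib F (off G) x
      = (∑ x ∈ F.filter (fun x => off G x = c),
      (p ^ (dm (τ x) ∩ G).card * (1 - p) ^ (G.card - (dm (τ x) ∩ G).card)) *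
      (fib (F.filter (fun x => off G x = c)) τ x : ℝ) ^ (lam - 1)) *
        ((F.filter (fun x => off G x = c)).card : ℝ) := by
    rw [sum_mul]
    apply sum_congr rfl
    intro x hx
    have hx2 := (mem_filter.mp hx).2
    have e5 : fib F (fun x => (off G x, τ x)) x = fib (F.filter (fun x => off G x = c)) τ x := by
      unfold fib
      rw [filter_filter]
      congr 1
      ext y
      simp only [mem_filter, Prod.mk.injEq, hx2]
    have e6 : fib F (off G) x = (F.filter (fun x => off G x = c)).card := by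
      unfold fib
      congr 1
      ext y
      simp only [mem_filter, hx2]
    rw [e5, e6]
  rw [h4]
  calc _ ≤ 1 * ((F.filter (fun x => off G x = c)).card : ℝ) :=
        mul_le_mul_of_nonneg_right h3 (Nat.cast_nonneg _)
    _ = _ := one_mul _

theorem main (hHit : S_Hit) {n : ℕ} (G : Finset (Fin n)) (F : Finset (Fin n → Bool))
    (hF : F.Nonempty) {β : Type}
    (τ : (Fin n → Bool) → β) (dm : β → Finset (Fin n))
    (CP : ∀ x ∈ F, ∀ y ∈ F, (∀ v ∈ dm (τ x), x v = y v) → (∀ v ∈ dm (τ y), x v = y v) → τ x = τ y)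
    (p lam : ℝ) (hp0 : 0 < p) (hp1 : p ≤ 1 / 2) (hlam : 1 - p = (2 : ℝ) ^ (-lam)) :
    (1 - lam) * (ent F (fun x => (off G x, τ x)) - ent F (off G)) ≤
      Real.log ((1 - p) / p) * ((∑ x ∈ F, ((dm (τ x) ∩ G).card : ℝ)) / F.card) +
      lam * (G.card * Real.log 2 - (Real.log F.card - ent F (off G))) := by
  have hFpos : (0 : ℝ) < F.card := by exact_mod_cast hF.card_pos
  have h1p : 0 < 1 - p := by linarith
  have hl1p : Real.log (1 - p) = -lam * Real.log 2 := by
    rw [hlam, Real.log_rpow (by norm_num)]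
  have htot := total hHit G F τ dm CP p lam hp0 hp1 hlam
  -- logarithms
  have hlog : ∑ x ∈ F, (((dm (τ x) ∩ G).card : ℝ) * Real.log p +
      (G.card - ((dm (τ x) ∩ G).card : ℝ)) * Real.log (1 - p) +
      (lam - 1) * Real.log (fib F (fun x => (off G x, τ x)) x) + Real.log (fib F (off G) x)) ≤ 0 := by
    have hk : ∀ x ∈ F, (((dm (τ x) ∩ G).card : ℝ) * Real.log p +
      (G.card - ((dm (τ x) ∩ G).card : ℝ)) * Real.log (1 - p) +
      (lam - 1) * Real.log (fib F (fun x => (off G x, τ x)) x) + Real.log (fib F (off G) x)) ≤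
      (p ^ (dm (τ x) ∩ G).card * (1 - p) ^ (G.card - (dm (τ x) ∩ G).card)) *
      (fib F (fun x => (off G x, τ x)) x : ℝ) ^ (lam - 1) * fib F (off G) x - 1 := by
      intro x hx
      have hM : (0 : ℝ) < fib F (fun x => (off G x, τ x)) x := by exact_mod_cast fib_pos' _ hx
      have hN : (0 : ℝ) < fib F (off G) x := by exact_mod_cast fib_pos' _ hx
      have h := Real.log_le_sub_one_of_pos (x := (p ^ (dm (τ x) ∩ G).card *
        (1 - p) ^ (G.card - (dm (τ x) ∩ G).card)) *
        (fib F (fun x => (off G x, τ x)) x : ℝ) ^ (lam - 1) * fib F (off G) x) (by positivity)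
      rw [Real.log_mul (by positivity) hN.ne', Real.log_mul (by positivity) (by positivity),
        Real.log_mul (by positivity) (by positivity), Real.log_pow, Real.log_pow,
        Real.log_rpow hM, Nat.cast_sub (card_le_card inter_subset_right)] at h
      exact h
    refine (sum_le_sum hk).trans ?_
    rw [sum_sub_distrib]
    simp only [sum_const, nsmul_eq_mul, mul_one]
    linarith
  -- the entropies
  have e1 : ent F (off G) = Real.log F.card - (∑ x ∈ F, Real.log (fib F (off G) x)) / F.card := by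
    unfold ent
    rw [eq_sub_iff_add_eq, ← add_div, ← sum_add_distrib, div_eq_iff hFpos.ne']
    rw [sum_congr rfl (g := fun _ => Real.log F.card)]
    · simp; ring
    · intro x hx
      have hN : (0 : ℝ) < fib F (off G) x := by exact_mod_cast fib_pos' _ hx
      rw [Real.log_div hFpos.ne' hN.ne']
      ring
  have e2 : ent F (fun x => (off G x, τ x)) = Real.log F.card -
      (∑ x ∈ F, Real.log (fib F (fun x => (off G x, τ x)) x)) / F.card := by
    unfold ent
    rw [eq_sub_iff_add_eq, ← add_div, ← sum_add_distrib, div_eq_iff hFpos.ne']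
    rw [sum_congr rfl (g := fun _ => Real.log F.card)]
    · simp; ring
    · intro x hx
      have hN : (0 : ℝ) < fib F (fun x => (off G x, τ x)) x := by exact_mod_cast fib_pos' _ hx
      rw [Real.log_div hFpos.ne' hN.ne']
      ring
  set A : ℝ := ∑ x ∈ F, ((dm (τ x) ∩ G).card : ℝ) with hA
  set SN : ℝ := ∑ x ∈ F, Real.log (fib F (off G) x) with hSN
  set SM : ℝ := ∑ x ∈ F, Real.log (fib F (fun x => (off G x, τ x)) x) with hSM
  have hexp : ∑ x ∈ F, (((dm (τ x) ∩ G).card : ℝ) * Real.log p +
      (G.card - ((dm (τ x) ∩ G).card : ℝ)) * Real.log (1 - p) +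
      (lam - 1) * Real.log (fib F (fun x => (off G x, τ x)) x) + Real.log (fib F (off G) x)) =
      A * Real.log p + (F.card * G.card - A) * Real.log (1 - p) + (lam - 1) * SM + SN := by
    rw [sum_add_distrib, sum_add_distrib, sum_add_distrib, ← mul_sum, ← sum_mul, ← sum_mul,
      sum_sub_distrib, sum_const, nsmul_eq_mul]
  rw [hexp] at hlog
  rw [e1, e2, Real.log_div h1p.ne' hp0.ne']
  have key : (1 - lam) * (Real.log F.card - SM / F.card - (Real.log F.card - SN / F.card)) =
      ((1 - lam) * (SN - SM)) / F.card := by ring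
  rw [key, div_le_iff₀ hFpos]
  have key2 : ((Real.log (1 - p) - Real.log p) * (A / F.card) +
      lam * (G.card * Real.log 2 - (Real.log F.card - (Real.log F.card - SN / F.card)))) * F.card
      = (Real.log (1 - p) - Real.log p) * A + lam * (G.card * Real.log 2 * F.card - SN) := by
    field_simp
    ring
  rw [key2]
  rw [hl1p] at hlog ⊢
  nlinarith [hlog]

/-- The classes of `x` outside `G` have at most `2 ^ |G|` elements. -/
theorem def_nonneg {n : ℕ} (G : Finset (Fin n)) (F : Finset (Fin n → Bool)) (hF : F.Nonempty) :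
    0 ≤ G.card * Real.log 2 - (Real.log F.card - ent F (off G)) := by
  have hFpos : (0 : ℝ) < F.card := by exact_mod_cast hF.card_pos
  have hb : ∀ x ∈ F, Real.log F.card - Real.log ((F.card : ℝ) / fib F (off G) x) ≤
      G.card * Real.log 2 := by
    intro x hx
    have hN : (0 : ℝ) < fib F (off G) x := by exact_mod_cast fib_pos' _ hx
    rw [Real.log_div hFpos.ne' hN.ne']
    have h1 : fib F (off G) x ≤ 2 ^ G.card := by
      unfold fib
      have h2 : (F.filter (fun y => off G y = off G x)).card ≤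
          (univ : Finset (G → Bool)).card := by
        apply card_le_card_of_injOn (fun y => fun v : G => y v.1)
        · intro y _
          simp
        · intro y hy z hz he
          simp only [coe_filter, Set.mem_ofPred_eq] at hy hz
          funext v
          by_cases hv : v ∈ G
          · exact congrFun he ⟨v, hv⟩
          · have h3 := congrFun (hy.2.trans hz.2.symm) v
            unfold off at h3
            simpa [hv] using h3
      simp only [card_univ, Fintype.card_fun, Fintype.card_bool, Fintype.card_coe] at h2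
      convert h2
    have h3 : (fib F (off G) x : ℝ) ≤ 2 ^ G.card := by exact_mod_cast h1
    have h4 := Real.log_le_log hN h3
    rw [Real.log_pow] at h4
    linarith
  have hs := sum_le_sum hb
  rw [sum_sub_distrib, sum_const, sum_const, nsmul_eq_mul, nsmul_eq_mul] at hs
  unfold ent
  have h5 : Real.log F.card - (∑ x ∈ F, Real.log ((F.card : ℝ) / fib F (off G) x)) / F.card
      ≤ G.card * Real.log 2 := by
    have h6 : Real.log F.card - (∑ x ∈ F, Real.log ((F.card : ℝ) / fib F (off G) x)) / F.card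
      = (F.card * Real.log F.card - ∑ x ∈ F, Real.log ((F.card : ℝ) / fib F (off G) x)) / F.card := by
      field_simp
    rw [h6, div_le_iff₀ hFpos]
    linarith
  linarith

end HitT

/-- HITT. The entropy of a consistent system `τ` of partial assignments, given the coordinates
outside `G`. -/
def S_HitT : Prop := ∀ (n : ℕ) (G : Finset (Fin n)) (F : Finset (Fin n → Bool)) (β : Type)
  (τ : (Fin n → Bool) → β) (dm : β → Finset (Fin n)), F.Nonempty →
  (∀ x ∈ F, ∀ y ∈ F, (∀ v ∈ dm (τ x), x v = y v) → (∀ v ∈ dm (τ y), x v = y v) → τ x = τ y) →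
  ent F (fun x => (HitT.off G x, τ x)) - ent F (HitT.off G) ≤
    2 * ((∑ x ∈ F, ((dm (τ x) ∩ G).card : ℝ)) / F.card) +
      (G.card * Real.log 2 - (Real.log F.card - ent F (HitT.off G)))

theorem tHitT (hHit : S_Hit) : S_HitT := by
  intro n G F β τ dm hF CP
  have hlam0 : (3 : ℝ) / 4 = (2 : ℝ) ^ (-(Real.log (4 / 3) / Real.log 2)) := by
    have h2 : (0 : ℝ) < Real.log 2 := Real.log_pos (by norm_num)
    rw [Real.rpow_def_of_pos (by norm_num)]
    have : Real.log 2 * -(Real.log (4 / 3) / Real.log 2) = Real.log (3 / 4) := by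
      have h3 : Real.log (3 / 4) = - Real.log (4 / 3) := by
        rw [← Real.log_inv]; norm_num
      rw [h3]
      field_simp
    rw [this, Real.exp_log (by norm_num)]
  set lam : ℝ := Real.log (4 / 3) / Real.log 2 with hlam
  have hm := HitT.main hHit G F hF τ dm CP (1 / 4) lam (by norm_num) (by norm_num)
    (by rw [← hlam0]; norm_num)
  have h2 : (0 : ℝ) < Real.log 2 := Real.log_pos (by norm_num)
  -- numbers
  have hl3 : Real.log ((1 - 1 / 4) / (1 / 4)) = Real.log 3 := by norm_num
  rw [hl3] at hm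
  have h1lam : (1 - lam) * Real.log 2 = Real.log (3 / 2) := by
    have : Real.log (3 / 2) = Real.log 2 - Real.log (4 / 3) := by
      rw [← Real.log_div (by norm_num) (by norm_num)]; norm_num
    rw [this, hlam]
    field_simp
  have hlog32 : 0 < Real.log (3 / 2) := Real.log_pos (by norm_num)
  have h1lam0 : 0 < 1 - lam := by
    by_contra hcon
    push Not at hcon
    nlinarith
  have hlamle : lam ≤ 1 - lam := by
    -- log (4/3) ≤ log (3/2)
    have h4 : Real.log (4 / 3) ≤ Real.log (3 / 2) := Real.log_le_log (by norm_num) (by norm_num)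
    have h5 : lam * Real.log 2 = Real.log (4 / 3) := by rw [hlam]; field_simp
    have h6 : lam * Real.log 2 ≤ (1 - lam) * Real.log 2 := by rw [h5, h1lam]; exact h4
    exact le_of_mul_le_mul_right h6 h2
  have hl3le : Real.log 3 ≤ 2 * (1 - lam) := by
    -- log 3 * log 2 ≤ 2 log (3/2)
    have ha : Real.log 2 < 0.6931471808 := Real.log_two_lt_d9
    have hb : Real.log 3 * Real.log 2 ≤ 2 * Real.log (3 / 2) := by
      have e1 : Real.log 3 = Real.log 2 + Real.log (3 / 2) := by
        rw [← Real.log_mul (by norm_num) (by norm_num)]; norm_num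
      have e2 : (4 : ℝ) / 10 ≤ Real.log (3 / 2) := by
        rw [Real.le_log_iff_exp_le (by norm_num)]
        have h := Real.exp_one_lt_d9
        have e3 : Real.exp (4 / 10) = (Real.exp 1) ^ ((4 : ℝ) / 10) := by
          rw [← Real.exp_mul]; norm_num
        have e4 : Real.exp (4 / 10) ^ 5 = Real.exp 1 ^ 2 := by
          rw [← Real.exp_nat_mul, ← Real.exp_nat_mul]; norm_num
        by_contra hcon
        push Not at hcon
        have h7 : (3 / 2 : ℝ) ^ 5 < Real.exp (4 / 10) ^ 5 := by
          apply pow_lt_pow_left₀ hcon (by norm_num) (by norm_num)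
        rw [e4] at h7
        have h8 : Real.exp 1 ^ 2 < 2.7182818286 ^ 2 := by
          apply pow_lt_pow_left₀ h (Real.exp_pos _).le (by norm_num)
        norm_num at h7 h8
        linarith
      rw [e1]
      nlinarith
    have hb2 : Real.log 3 * Real.log 2 ≤ 2 * (1 - lam) * Real.log 2 := by
      rw [mul_assoc, h1lam]; exact hb
    exact le_of_mul_le_mul_right hb2 h2
  set X := ent F (fun x => (HitT.off G x, τ x)) - ent F (HitT.off G) with hX
  set A := (∑ x ∈ F, ((dm (τ x) ∩ G).card : ℝ)) / F.card with hA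
  set D := G.card * Real.log 2 - (Real.log F.card - ent F (HitT.off G)) with hD
  have hA0 : 0 ≤ A := by
    rw [hA]
    exact div_nonneg (sum_nonneg fun _ _ => Nat.cast_nonneg _) (Nat.cast_nonneg _)
  have hD0 : 0 ≤ D := by
    rw [hD]
    exact HitT.def_nonneg G F hF
  have h9 : (1 - lam) * X ≤ (1 - lam) * (2 * A + D) := by
    nlinarith [mul_le_mul_of_nonneg_right hl3le hA0, mul_le_mul_of_nonneg_right hlamle hD0]
  exact le_of_mul_le_mul_left h9 h1lam0

end SRBP
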