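import Mathlib.Analysis.SpecialFunctions.Pow.Real
import Mathlib.Analysis.SpecialFunctions.Log.Basic
import Mathlib.Analysis.Complex.ExponentialBounds

set_option autoImplicit false

namespace LINP

def S_Rcr : Prop := ∀ K : ℝ, 1 ≤ K → ∃ C : ℝ, 0 < C ∧ ∀ q : ℕ, 2 ≤ q → ∃ r₀ : ℕ, ∀ r : ℕ, r₀ ≤ r →
  q ∣ r → ∃ δ₀ : ℝ, 0 < δ₀ ∧ ∀ δ : ℝ, 0 ≤ δ → δ ≤ δ₀ → ∀ a : ℕ → ℝ, 9 / 20 ≤ a 0 →
  (∀ s, s < r → ∀ I : ℝ, 0 ≤ I →
    a s - 10 / ((r : ℝ) - s) * (I * a s + K * (((r : ℝ) - s) / r) ^ I) - 8 * δ ≤ a (s + 1)) →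
  (∀ s, a s ≤ 1) → Real.exp (-(C * Real.log q ^ 11)) ≤ a (r - r / q)

namespace RcrM

theorem exp_neg_le (z : ℝ) (hz : 0 ≤ z) : Real.exp (-z) ≤ 1 - z + z ^ 2 / 2 := by
  have h1 := Real.quadratic_le_exp_of_nonneg hz
  have h2 : 0 < Real.exp (-z) := Real.exp_pos _
  have h3 : Real.exp (-z) * Real.exp z = 1 := by rw [← Real.exp_add, neg_add_cancel, Real.exp_zero]
  have h4 : Real.exp (-z) * (1 + z + z ^ 2 / 2) ≤ 1 :=
    calc Real.exp (-z) * (1 + z + z ^ 2 / 2) ≤ Real.exp (-z) * Real.exp z :=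
          mul_le_mul_of_nonneg_left h1 h2.le
      _ = 1 := h3
  have h5 : 0 < 1 + z + z ^ 2 / 2 := by positivity
  have h6 : 1 ≤ (1 - z + z ^ 2 / 2) * (1 + z + z ^ 2 / 2) := by nlinarith [sq_nonneg (z ^ 2)]
  exact le_of_mul_le_mul_right (h4.trans h6) h5

/-- `S s = log (r / (r - s))`. -/
noncomputable def Sf (r : ℕ) (s : ℕ) : ℝ := Real.log ((r : ℝ) / ((r : ℝ) - s))

theorem Sf_zero (r : ℕ) (hr : 0 < r) : Sf r 0 = 0 := by
  have : (r : ℝ) ≠ 0 := by exact_mod_cast hr.ne'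
  simp [Sf, this]

theorem Sf_step_ge (r s : ℕ) (hs : s + 1 < r) : Sf r s + 1 / ((r : ℝ) - s) ≤ Sf r (s + 1) := by
  have hr : (0 : ℝ) < r := by exact_mod_cast (by omega : 0 < r)
  have h1 : (s : ℝ) + 1 < r := by exact_mod_cast hs
  have hx : (0 : ℝ) < (r : ℝ) - s := by linarith
  have hx1 : (0 : ℝ) < (r : ℝ) - ((s + 1 : ℕ) : ℝ) := by push_cast; linarith
  unfold Sf
  rw [Real.log_div hr.ne' hx.ne', Real.log_div hr.ne' hx1.ne']
  have h2 : Real.log ((r : ℝ) - ((s + 1 : ℕ) : ℝ)) - Real.log ((r : ℝ) - s) ≤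
      -(1 / ((r : ℝ) - s)) := by
    rw [← Real.log_div hx1.ne' hx.ne']
    have h3 : ((r : ℝ) - ((s + 1 : ℕ) : ℝ)) / ((r : ℝ) - s) = 1 - 1 / ((r : ℝ) - s) := by
      field_simp
      push_cast
      ring
    rw [h3]
    have h4 : 0 < 1 - 1 / ((r : ℝ) - s) := by rw [← h3]; positivity
    have := Real.log_le_sub_one_of_pos h4
    linarith
  linarith

theorem Sf_step_le (r s : ℕ) (hs : s + 1 < r) :
    Sf r (s + 1) ≤ Sf r s + 1 / ((r : ℝ) - ((s + 1 : ℕ) : ℝ)) := by
  have hr : (0 : ℝ) < r := by exact_mod_cast (by omega : 0 < r)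
  have h1 : (s : ℝ) + 1 < r := by exact_mod_cast hs
  have hx : (0 : ℝ) < (r : ℝ) - s := by linarith
  have hx1 : (0 : ℝ) < (r : ℝ) - ((s + 1 : ℕ) : ℝ) := by push_cast; linarith
  unfold Sf
  rw [Real.log_div hr.ne' hx.ne', Real.log_div hr.ne' hx1.ne']
  have h2 : Real.log ((r : ℝ) - s) - Real.log ((r : ℝ) - ((s + 1 : ℕ) : ℝ)) ≤
      1 / ((r : ℝ) - ((s + 1 : ℕ) : ℝ)) := by
    rw [← Real.log_div hx.ne' hx1.ne']
    have h3 : ((r : ℝ) - s) / ((r : ℝ) - ((s + 1 : ℕ) : ℝ)) =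
        1 + 1 / ((r : ℝ) - ((s + 1 : ℕ) : ℝ)) := by
      have : (r : ℝ) - s = ((r : ℝ) - ((s + 1 : ℕ) : ℝ)) + 1 := by push_cast; ring
      rw [this, add_div, div_self hx1.ne']
    rw [h3]
    have h4 : 0 < 1 + 1 / ((r : ℝ) - ((s + 1 : ℕ) : ℝ)) := by positivity
    have := Real.log_le_sub_one_of_pos h4
    linarith
  linarith

theorem exp_neg_Sf (r s : ℕ) (hs : s < r) : ((r : ℝ) - s) / r = Real.exp (-Sf r s) := by
  have hr : (0 : ℝ) < r := by exact_mod_cast (by omega : 0 < r)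
  have h1 : (s : ℝ) < r := by exact_mod_cast hs
  have hx : (0 : ℝ) < (r : ℝ) - s := by linarith
  unfold Sf
  rw [← Real.log_inv, Real.exp_log (by positivity), inv_div]

/-- one step of the second phase, abstract numbers -/
theorem step (K C S S' x a a' δ : ℝ) (hK : 1 ≤ K) (hC : 0 < C) (hS : 0 ≤ S) (hx : 0 < x)
    (hS' : S + 1 / x ≤ S') (h3 : 3 ≤ C * S ^ 10) (hx1 : 10 * (C * S ^ 10) ≤ x)
    (hx2 : (11 * (C * S ^ 10)) ^ 2 ≤ 2 * x)
    (ha : 10 * K * Real.exp (-(C * S ^ 11)) ≤ a)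
    (hδ : 8 * δ ≤ 10 * K * Real.exp (-(C * S ^ 11)) / x)
    (hrec : a - 10 / x * (C * S ^ 10 * a + K * Real.exp (-(C * S ^ 11))) - 8 * δ ≤ a') :
    10 * K * Real.exp (-(C * S' ^ 11)) ≤ a' := by
  set b := 10 * K * Real.exp (-(C * S ^ 11)) with hb
  have hb0 : 0 < b := by positivity
  set z := 11 * (C * S ^ 10) / x with hz
  have hz0 : 0 ≤ z := by positivity
  have hinv : 0 < 1 / x := by positivity
  -- the new value of `b`
  have hpow : S ^ 11 + 11 * S ^ 10 * (1 / x) ≤ S' ^ 11 := by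
    have h1 : (S + 1 / x) ^ 11 ≤ S' ^ 11 := pow_le_pow_left₀ (by positivity) hS' 11
    have h2 : S ^ 11 + 11 * S ^ 10 * (1 / x) ≤ (S + 1 / x) ^ 11 := by
      have h3 : (S + 1 / x) ^ 11 = S ^ 11 + 11 * S ^ 10 * (1 / x) +
          (55 * S ^ 9 * (1 / x) ^ 2 + 165 * S ^ 8 * (1 / x) ^ 3 + 330 * S ^ 7 * (1 / x) ^ 4 +
          462 * S ^ 6 * (1 / x) ^ 5 + 462 * S ^ 5 * (1 / x) ^ 6 + 330 * S ^ 4 * (1 / x) ^ 7 +
          165 * S ^ 3 * (1 / x) ^ 8 + 55 * S ^ 2 * (1 / x) ^ 9 + 11 * S * (1 / x) ^ 10 +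
          (1 / x) ^ 11) := by ring
      rw [h3]
      have : 0 ≤ (55 * S ^ 9 * (1 / x) ^ 2 + 165 * S ^ 8 * (1 / x) ^ 3 + 330 * S ^ 7 * (1 / x) ^ 4 +
          462 * S ^ 6 * (1 / x) ^ 5 + 462 * S ^ 5 * (1 / x) ^ 6 + 330 * S ^ 4 * (1 / x) ^ 7 +
          165 * S ^ 3 * (1 / x) ^ 8 + 55 * S ^ 2 * (1 / x) ^ 9 + 11 * S * (1 / x) ^ 10 +
          (1 / x) ^ 11) := by positivity
      linarith
    exact h2.trans h1
  have hb' : 10 * K * Real.exp (-(C * S' ^ 11)) ≤ b * Real.exp (-z) := by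
    rw [hb, mul_assoc (10 * K), ← Real.exp_add]
    apply mul_le_mul_of_nonneg_left _ (by positivity)
    apply Real.exp_le_exp.2
    have h1 : C * (S ^ 11 + 11 * S ^ 10 * (1 / x)) ≤ C * S' ^ 11 :=
      mul_le_mul_of_nonneg_left hpow hC.le
    have h2 : C * (S ^ 11 + 11 * S ^ 10 * (1 / x)) = C * S ^ 11 + z := by
      rw [hz]; ring
    linarith
  have hexp := exp_neg_le z hz0
  have h5 : b * Real.exp (-z) ≤ b * (1 - z + z ^ 2 / 2) := mul_le_mul_of_nonneg_left hexp hb0.le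
  -- the recursion
  have hI : K * Real.exp (-(C * S ^ 11)) = b / 10 := by rw [hb]; ring
  rw [hI] at hrec
  have h6 : a - 10 / x * (C * S ^ 10 * a + b / 10) - 8 * δ =
      a * (1 - 10 * (C * S ^ 10) / x) - b / x - 8 * δ := by
    field_simp
    ring
  rw [h6] at hrec
  have h7 : 0 ≤ 1 - 10 * (C * S ^ 10) / x := by
    have : 10 * (C * S ^ 10) / x ≤ 1 := by rw [div_le_one hx]; exact hx1
    linarith
  have h8 : b * (1 - 10 * (C * S ^ 10) / x) ≤ a * (1 - 10 * (C * S ^ 10) / x) :=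
    mul_le_mul_of_nonneg_right ha h7
  -- the gap
  have h9 : z ^ 2 / 2 ≤ 1 / x := by
    have h91 : z ^ 2 / 2 = (11 * (C * S ^ 10)) ^ 2 / (2 * x ^ 2) := by rw [hz]; field_simp
    rw [h91, div_le_div_iff₀ (by positivity) hx]
    nlinarith
  have h10 : 3 / x ≤ C * S ^ 10 / x := div_le_div_of_nonneg_right h3 hx.le
  have h11 : z - 10 * (C * S ^ 10) / x = C * S ^ 10 / x := by rw [hz]; ring
  have h12 : b / x = b * (1 / x) := by ring
  have h13 : 3 / x = 3 * (1 / x) := by ring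
  have h14 : b * (1 / x) ≤ b * (z - 10 * (C * S ^ 10) / x - 1 / x - z ^ 2 / 2) := by
    apply mul_le_mul_of_nonneg_left _ hb0.le
    rw [h11]; linarith
  have h15 : b * (z - 10 * (C * S ^ 10) / x - 1 / x - z ^ 2 / 2) =
      b * (1 - 10 * (C * S ^ 10) / x) - b / x - b * (1 - z + z ^ 2 / 2) := by ring
  linarith

end RcrM

theorem tRcr : S_Rcr := by
  intro K hK
  have hK0 : 0 < K := by linarith
  set C : ℝ := 40 * K * (200 * K) ^ 11 with hC
  have hC0 : 0 < C := by positivity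
  refine ⟨C, hC0, ?_⟩
  intro q hq
  have hq0 : (0 : ℝ) < q := by exact_mod_cast (by omega : 0 < q)
  have hq2 : (2 : ℝ) ≤ q := by exact_mod_cast hq
  set L : ℝ := Real.log q with hL
  have hL0 : 0 < L := Real.log_pos (by linarith)
  have hL2 : (1 : ℝ) / 2 ≤ L := by
    have h1 : Real.log 2 ≤ L := Real.log_le_log (by norm_num) hq2
    have h2 := Real.log_two_gt_d9
    linarith
  set M : ℝ := C * L ^ 10 with hM
  have hM0 : 0 < M := by positivity
  set S₁ : ℝ := 1 / (200 * K) with hS₁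
  have hS₁0 : 0 < S₁ := by positivity
  have hS₁1 : S₁ ≤ 1 / 200 := by
    rw [hS₁]
    apply one_div_le_one_div_of_le (by norm_num)
    linarith
  refine ⟨⌈(q : ℝ) * (61 * M ^ 2 + 10 * M + 200 * K)⌉₊ + 1, ?_⟩
  intro r hr hqr
  have hrR : (q : ℝ) * (61 * M ^ 2 + 10 * M + 200 * K) ≤ r := by
    have h1 : (q : ℝ) * (61 * M ^ 2 + 10 * M + 200 * K) ≤
        ⌈(q : ℝ) * (61 * M ^ 2 + 10 * M + 200 * K)⌉₊ := Nat.le_ceil _
    have h2 : ((⌈(q : ℝ) * (61 * M ^ 2 + 10 * M + 200 * K)⌉₊ : ℕ) : ℝ) ≤ r := by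
      exact_mod_cast (by omega :
        ⌈(q : ℝ) * (61 * M ^ 2 + 10 * M + 200 * K)⌉₊ ≤ r)
    linarith
  have hr1 : 0 < r := by omega
  have hr0 : (0 : ℝ) < r := by exact_mod_cast hr1
  -- `u = r / q`
  obtain ⟨u, hu⟩ := hqr
  have hu0 : 0 < u := by
    rcases Nat.eq_zero_or_pos u with h | h
    · rw [h, Nat.mul_zero] at hu; omega
    · exact h
  have hru : r / q = u := by rw [hu]; exact Nat.mul_div_cancel_left _ (by omega)
  have huR : (r : ℝ) = q * u := by exact_mod_cast hu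
  have huM : 61 * M ^ 2 + 10 * M + 200 * K ≤ u := by
    rw [huR] at hrR
    exact le_of_mul_le_mul_left hrR hq0
  have hur : u ≤ r := by rw [hu]; exact Nat.le_mul_of_pos_left u (by omega)
  have hu2 : 2 * u ≤ r := by rw [hu]; exact Nat.mul_le_mul_right u hq
  set E : ℝ := Real.exp (-(C * L ^ 11)) with hE
  have hE0 : 0 < E := Real.exp_pos _
  have hE1 : E ≤ 1 := by
    rw [hE, Real.exp_le_one_iff]
    have : 0 ≤ C * L ^ 11 := by positivity
    linarith
  refine ⟨E / (80 * r), by positivity, ?_⟩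
  intro δ hδ0 hδ a ha0 hrec ha1
  have hδr : 80 * δ * r ≤ E := by
    rw [le_div_iff₀ (by positivity)] at hδ
    linarith
  -- phase 1
  have ph1 : ∀ s : ℕ, s < r → 9 / 20 - 10 * K * RcrM.Sf r s - 8 * δ * s ≤ a s := by
    intro s
    induction s with
    | zero =>
      intro _
      rw [RcrM.Sf_zero r hr1]
      simpa using ha0
    | succ s ih =>
      intro hs
      have h1 := ih (by omega)
      have h2 := hrec s (by omega) 0 le_rfl
      have h3 := RcrM.Sf_step_ge r s hs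
      rw [Real.rpow_zero, zero_mul, zero_add, mul_one] at h2
      have h4 : 10 / ((r : ℝ) - s) * K = 10 * K * (1 / ((r : ℝ) - s)) := by ring
      rw [h4] at h2
      have h5 : 10 * K * (RcrM.Sf r s + 1 / ((r : ℝ) - s)) ≤ 10 * K * RcrM.Sf r (s + 1) :=
        mul_le_mul_of_nonneg_left h3 (by positivity)
      push_cast
      linarith
  -- `Sf` is monotone
  have hmono : ∀ s t : ℕ, s ≤ t → t < r → RcrM.Sf r s ≤ RcrM.Sf r t := by
    intro s t hst ht
    have h1 : (s : ℝ) ≤ t := by exact_mod_cast hst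
    have h2 : (t : ℝ) < r := by exact_mod_cast ht
    unfold RcrM.Sf
    apply Real.log_le_log
    · apply div_pos hr0; linarith
    · apply div_le_div_of_nonneg_left hr0.le (by linarith) (by linarith)
  have hSL : RcrM.Sf r (r - u) = L := by
    unfold RcrM.Sf
    have h1 : (r : ℝ) - ((r - u : ℕ) : ℝ) = u := by rw [Nat.cast_sub hur]; ring
    have h2 : (u : ℝ) ≠ 0 := by exact_mod_cast hu0.ne'
    rw [h1, huR, mul_div_assoc, div_self h2, mul_one]
  -- phase 2
  have ph2 : ∀ s : ℕ, s ≤ r - u → S₁ ≤ RcrM.Sf r s →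
      10 * K * Real.exp (-(C * RcrM.Sf r s ^ 11)) ≤ a s := by
    intro s
    induction s with
    | zero =>
      intro _ h
      rw [RcrM.Sf_zero r hr1] at h
      linarith
    | succ s ih =>
      intro hs h
      have hsr : s + 1 < r := by omega
      have hsr' : (s : ℝ) + 1 < r := by exact_mod_cast hsr
      have hxu : (u : ℝ) ≤ (r : ℝ) - ((s + 1 : ℕ) : ℝ) := by
        have : u + (s + 1) ≤ r := by omega
        have h1 : ((u + (s + 1) : ℕ) : ℝ) ≤ r := by exact_mod_cast this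
        push_cast at h1 ⊢
        linarith
      by_cases hc : RcrM.Sf r (s + 1) ≤ 2 * S₁
      · have h1 := ph1 (s + 1) hsr
        have h2 : 10 * K * RcrM.Sf r (s + 1) ≤ 1 / 10 := by
          have h21 : 10 * K * RcrM.Sf r (s + 1) ≤ 10 * K * (2 * S₁) :=
            mul_le_mul_of_nonneg_left hc (by positivity)
          have h22 : 10 * K * (2 * S₁) = 1 / 10 := by rw [hS₁]; field_simp; norm_num
          linarith
        have h3 : 8 * δ * ((s + 1 : ℕ) : ℝ) ≤ 1 / 10 := by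
          have h31 : ((s + 1 : ℕ) : ℝ) ≤ r := by push_cast; linarith
          have h32 : 8 * δ * ((s + 1 : ℕ) : ℝ) ≤ 8 * δ * r :=
            mul_le_mul_of_nonneg_left h31 (by positivity)
          linarith
        have h4 : 10 * K * Real.exp (-(C * RcrM.Sf r (s + 1) ^ 11)) ≤ 1 / 4 := by
          have h41 : 40 * K ≤ C * RcrM.Sf r (s + 1) ^ 11 := by
            have h42 : S₁ ^ 11 ≤ RcrM.Sf r (s + 1) ^ 11 := pow_le_pow_left₀ hS₁0.le h 11
            have h43 : C * S₁ ^ 11 = 40 * K := by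
              rw [hC, hS₁, mul_assoc, ← mul_pow, mul_one_div_cancel (by positivity), one_pow,
                mul_one]
            rw [← h43]
            exact mul_le_mul_of_nonneg_left h42 hC0.le
          have h44 : Real.exp (-(C * RcrM.Sf r (s + 1) ^ 11)) ≤ Real.exp (-(40 * K)) :=
            Real.exp_le_exp.2 (by linarith)
          have h45 : Real.exp (-(40 * K)) * (40 * K) ≤ 1 := by
            have h46 : 40 * K ≤ Real.exp (40 * K) := by
              have := Real.add_one_le_exp (40 * K)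
              linarith
            have h47 : Real.exp (-(40 * K)) * Real.exp (40 * K) = 1 := by
              rw [← Real.exp_add, neg_add_cancel, Real.exp_zero]
            calc Real.exp (-(40 * K)) * (40 * K) ≤ Real.exp (-(40 * K)) * Real.exp (40 * K) :=
                  mul_le_mul_of_nonneg_left h46 (Real.exp_pos _).le
              _ = 1 := h47
          have h48 : 10 * K * Real.exp (-(C * RcrM.Sf r (s + 1) ^ 11)) ≤
              10 * K * Real.exp (-(40 * K)) := mul_le_mul_of_nonneg_left h44 (by positivity)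
          linarith
        linarith
      · push Not at hc
        have hstep := RcrM.Sf_step_le r s hsr
        have hsmall : 1 / ((r : ℝ) - ((s + 1 : ℕ) : ℝ)) ≤ S₁ := by
          rw [hS₁]
          apply one_div_le_one_div_of_le (by positivity)
          have : 0 ≤ 61 * M ^ 2 + 10 * M := by positivity
          linarith
        have hSs : S₁ ≤ RcrM.Sf r s := by linarith
        have h1 := ih (by omega) hSs
        have hSsL : RcrM.Sf r s ≤ L := by
          rw [← hSL]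
          exact hmono s (r - u) (by omega) (by omega)
        have hS0 : 0 ≤ RcrM.Sf r s := hS₁0.le.trans hSs
        have hx0 : (0 : ℝ) < (r : ℝ) - s := by linarith
        have hxu' : (u : ℝ) ≤ (r : ℝ) - s := by
          push_cast at hxu
          linarith
        have hCM : C * RcrM.Sf r s ^ 10 ≤ M := by
          rw [hM]
          exact mul_le_mul_of_nonneg_left (pow_le_pow_left₀ hS0 hSsL 10) hC0.le
        have hCn : 0 ≤ C * RcrM.Sf r s ^ 10 := by positivity
        have h3 : 3 ≤ C * RcrM.Sf r s ^ 10 := by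
          have h31 : S₁ ^ 10 ≤ RcrM.Sf r s ^ 10 := pow_le_pow_left₀ hS₁0.le hSs 10
          have h32 : C * S₁ ^ 10 = 40 * K * (200 * K) := by
            have : C = 40 * K * (200 * K) * (200 * K) ^ 10 := by rw [hC]; ring
            rw [this, hS₁, mul_assoc, ← mul_pow, mul_one_div_cancel (by positivity), one_pow,
              mul_one]
          have h33 : C * S₁ ^ 10 ≤ C * RcrM.Sf r s ^ 10 := mul_le_mul_of_nonneg_left h31 hC0.le
          have h34 : (3 : ℝ) ≤ 40 * K * (200 * K) := by nlinarith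
          linarith
        have hK2 : 0 ≤ 200 * K := by positivity
        have hM2 : 0 ≤ M ^ 2 := by positivity
        apply RcrM.step K C (RcrM.Sf r s) (RcrM.Sf r (s + 1)) ((r : ℝ) - s) (a s) (a (s + 1)) δ hK
          hC0 hS0 hx0 (RcrM.Sf_step_ge r s hsr) h3
        · linarith
        · have h5 : (11 * (C * RcrM.Sf r s ^ 10)) ^ 2 ≤ (11 * M) ^ 2 :=
            pow_le_pow_left₀ (by positivity) (mul_le_mul_of_nonneg_left hCM (by norm_num)) 2
          have h51 : (11 * M) ^ 2 = 121 * M ^ 2 := by ring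
          rw [h51] at h5
          linarith
        · exact h1
        · rw [le_div_iff₀ hx0]
          have h6 : E ≤ Real.exp (-(C * RcrM.Sf r s ^ 11)) := by
            rw [hE]
            apply Real.exp_le_exp.2
            have : C * RcrM.Sf r s ^ 11 ≤ C * L ^ 11 :=
              mul_le_mul_of_nonneg_left (pow_le_pow_left₀ hS0 hSsL 11) hC0.le
            linarith
          have h7 : 8 * δ * ((r : ℝ) - s) ≤ 8 * δ * r := by
            apply mul_le_mul_of_nonneg_left _ (by positivity)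
            have : (0 : ℝ) ≤ s := Nat.cast_nonneg _
            linarith
          have h8 : Real.exp (-(C * RcrM.Sf r s ^ 11)) ≤
              10 * K * Real.exp (-(C * RcrM.Sf r s ^ 11)) :=
            le_mul_of_one_le_left (Real.exp_pos _).le (by linarith)
          have h9 : 0 ≤ δ * r := by positivity
          have h91 : 8 * δ * r = 8 * (δ * r) := by ring
          have h92 : 80 * δ * r = 80 * (δ * r) := by ring
          linarith
        · have h10 := hrec s (by omega) (C * RcrM.Sf r s ^ 10) hCn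
          have h11 : (((r : ℝ) - s) / r) ^ (C * RcrM.Sf r s ^ 10) =
              Real.exp (-(C * RcrM.Sf r s ^ 11)) := by
            rw [RcrM.exp_neg_Sf r s (by omega), ← Real.exp_mul]
            congr 1
            ring
          rw [h11] at h10
          exact h10
  have hfin := ph2 (r - u) le_rfl (by rw [hSL]; linarith)
  rw [hSL] at hfin
  rw [hru]
  have h20 : E ≤ 10 * K * E := le_mul_of_one_le_left hE0.le (by linarith)
  exact h20.trans hfin

end LINP
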