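import Mathlib

/-!
# LIN: the main inequality (Lemma 1)
-/

namespace LINStarA

open Finset

/-- `phi(s) = (1+s) log (1+s) + (1-s) log (1-s) >= s^2` on `[0,1)`. -/
theorem phi_ge (s : ℝ) (h0 : 0 ≤ s) (h1 : s < 1) :
    s ^ 2 ≤ (1 + s) * Real.log (1 + s) + (1 - s) * Real.log (1 - s) := by
  have hcont : ContinuousOn (fun s : ℝ => (1 + s) * Real.log (1 + s) +
      (1 - s) * Real.log (1 - s) - s ^ 2) (Set.Ico 0 1) := by
    apply ContinuousOn.sub
    · apply ContinuousOn.add
      · apply ContinuousOn.mul (by fun_prop)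
        apply ContinuousOn.log (by fun_prop)
        intro x hx
        have := hx.1
        positivity
      · apply ContinuousOn.mul (by fun_prop)
        apply ContinuousOn.log (by fun_prop)
        intro x hx
        have := hx.2
        exact (by linarith : (0:ℝ) < 1 - x).ne'
    · fun_prop
  have hder : ∀ x ∈ interior (Set.Ico (0:ℝ) 1), HasDerivAt (fun s : ℝ => (1 + s) * Real.log (1 + s) +
      (1 - s) * Real.log (1 - s) - s ^ 2) (Real.log (1 + x) - Real.log (1 - x) - 2 * x) x := by
    intro x hx
    rw [interior_Ico] at hx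
    have p1 : (0:ℝ) < 1 + x := by have := hx.1; linarith
    have p2 : (0:ℝ) < 1 - x := by have := hx.2; linarith
    have a1 : HasDerivAt (fun s : ℝ => 1 + s) 1 x := by
      simpa using (hasDerivAt_id x).const_add 1
    have a2 : HasDerivAt (fun s : ℝ => 1 - s) (-1) x := by
      simpa using (hasDerivAt_id x).const_sub 1
    have l1 := a1.log p1.ne'
    have l2 := a2.log p2.ne'
    have := ((a1.mul l1).add (a2.mul l2)).sub (hasDerivAt_pow 2 x)
    refine this.congr_deriv ?_
    field_simp
    ring
  have hmono : MonotoneOn (fun s : ℝ => (1 + s) * Real.log (1 + s) +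
      (1 - s) * Real.log (1 - s) - s ^ 2) (Set.Ico 0 1) := by
    apply monotoneOn_of_deriv_nonneg (convex_Ico 0 1) hcont
    · intro x hx
      exact (hder x hx).differentiableAt.differentiableWithinAt
    · intro x hx
      rw [(hder x hx).deriv]
      rw [interior_Ico] at hx
      have p2 : (0:ℝ) < 1 - x := by have := hx.2; linarith
      have h := Real.le_log_one_add_of_nonneg (x := 2 * x / (1 - x))
        (by have := hx.1; positivity)
      have e1 : 1 + 2 * x / (1 - x) = (1 + x) / (1 - x) := by field_simp; ring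
      have p1 : (0:ℝ) < 1 + x := by have := hx.1; linarith
      rw [e1, Real.log_div p1.ne' p2.ne'] at h
      have e2 : 2 * (2 * x / (1 - x)) / (2 * x / (1 - x) + 2) = 2 * x := by
        field_simp
        ring
      rw [e2] at h
      linarith
  have := hmono (Set.left_mem_Ico.2 one_pos) ⟨h0, h1⟩ h0
  simp at this
  linarith

/-- The entropy inequality for two weights. -/
theorem two_wt (a d : ℝ) (ha : 0 ≤ a) (hd : 0 ≤ d) (h1 : a + d ≤ 1) :
    (a - d) ^ 2 / 2 ≤ a * Real.log (2 * (a / (a + d))) + d * Real.log (2 * (d / (a + d))) := by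
  wlog hle : d ≤ a generalizing a d
  · have := this d a hd ha (by linarith) (by linarith)
    rw [add_comm d a] at this
    have e : (a - d) ^ 2 = (d - a) ^ 2 := by ring
    rw [e]
    linarith
  rcases hd.eq_or_lt with h | h
  · rw [← h]
    rcases ha.eq_or_lt with h' | h'
    · rw [← h']; simp
    · simp only [add_zero, sub_zero, zero_div, zero_mul]
      rw [div_self h'.ne', mul_one]
      have : (1:ℝ) / 2 ≤ Real.log 2 := by have := Real.log_two_gt_d9; linarith
      have ha1 : a ≤ 1 := by linarith
      nlinarith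
  · have hap : 0 < a := lt_of_lt_of_le h hle
    have hs : 0 < a + d := by linarith
    set s := (a - d) / (a + d) with hsd
    have s0 : 0 ≤ s := div_nonneg (by linarith) hs.le
    have s1 : s < 1 := by rw [hsd, div_lt_one hs]; linarith
    have e1 : 2 * (a / (a + d)) = 1 + s := by rw [hsd]; field_simp; ring
    have e2 : 2 * (d / (a + d)) = 1 - s := by rw [hsd]; field_simp; ring
    have e3 : a = (a + d) * (1 + s) / 2 := by rw [hsd]; field_simp; ring
    have e4 : d = (a + d) * (1 - s) / 2 := by rw [hsd]; field_simp; ring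
    have hphi := phi_ge s s0 s1
    rw [e1, e2]
    have f1 : a * Real.log (1 + s) = (a + d) * (1 + s) / 2 * Real.log (1 + s) :=
      congrArg (fun t => t * Real.log (1 + s)) e3
    have f2 : d * Real.log (1 - s) = (a + d) * (1 - s) / 2 * Real.log (1 - s) :=
      congrArg (fun t => t * Real.log (1 - s)) e4
    have e5 : a * Real.log (1 + s) + d * Real.log (1 - s) =
        (a + d) / 2 * ((1 + s) * Real.log (1 + s) + (1 - s) * Real.log (1 - s)) := by
      rw [f1, f2]
      ring
    rw [e5]
    have e6 : (a - d) ^ 2 = (a + d) ^ 2 * s ^ 2 := by rw [hsd]; field_simp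
    rw [e6]
    have e7 : (a + d) ^ 2 * s ^ 2 / 2 ≤ (a + d) / 2 * s ^ 2 := by
      have : (a + d) ^ 2 ≤ a + d := by nlinarith
      nlinarith [sq_nonneg s]
    refine e7.trans ?_
    exact mul_le_mul_of_nonneg_left hphi (by linarith)

/-! ## Frequencies -/

set_option linter.unusedSectionVars false

variable {ι : Type} [Fintype ι] [DecidableEq ι]

/-- Proportion of the `y` in `C` with `y v = b`. -/
noncomputable def fr (C : Finset (ι → Bool)) (v : ι) (b : Bool) : ℝ :=
  ((C.filter (fun y => y v = b)).card : ℝ) / C.card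

theorem fr_nonneg (C : Finset (ι → Bool)) (v : ι) (b : Bool) : 0 ≤ fr C v b := by
  unfold fr; positivity

theorem fr_add (C : Finset (ι → Bool)) (hC : C.Nonempty) (v : ι) (b : Bool) :
    fr C v b + fr C v (!b) = 1 := by
  unfold fr
  have hc : (0:ℝ) < C.card := by exact_mod_cast hC.card_pos
  rw [← add_div, div_eq_one_iff_eq hc.ne']
  have h := Finset.card_filter_add_card_filter_not (s := C) (fun y : ι → Bool => y v = b)
  have e : C.filter (fun y => ¬ y v = b) = C.filter (fun y => y v = !b) := by
    apply Finset.filter_congr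
    intro y _
    cases y v <;> cases b <;> simp
  rw [e] at h
  exact_mod_cast h

theorem fr_le (C : Finset (ι → Bool)) (hC : C.Nonempty) (v : ι) (b : Bool) : fr C v b ≤ 1 := by
  have h1 := fr_add C hC v b
  have h2 := fr_nonneg C v (!b)
  linarith

theorem fr_pos (C : Finset (ι → Bool)) {x : ι → Bool} (hx : x ∈ C) (v : ι) : 0 < fr C v (x v) := by
  unfold fr
  have hc : (0:ℝ) < C.card := by exact_mod_cast Finset.card_pos.2 ⟨x, hx⟩
  have h2 : (0:ℝ) < (C.filter (fun y => y v = x v)).card := by
    exact_mod_cast Finset.card_pos.2 ⟨x, by simp [hx]⟩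
  positivity

/-- The class of `x`. -/
noncomputable def cls {β : Type} (C : Finset (ι → Bool)) (τ : (ι → Bool) → β) (x : ι → Bool) :
    Finset (ι → Bool) := by
  classical exact C.filter (fun y => τ y = τ x)

theorem mem_cls {β : Type} {C : Finset (ι → Bool)} {τ : (ι → Bool) → β} {x y : ι → Bool} :
    y ∈ cls C τ x ↔ y ∈ C ∧ τ y = τ x := by
  classical
  unfold cls
  simp

/-- Averaging over the classes. -/
theorem cls_avg {β : Type} (C : Finset (ι → Bool)) (τ : (ι → Bool) → β) (G : (ι → Bool) → ℝ) :
    ∑ x ∈ C, (∑ y ∈ cls C τ x, G y) / ((cls C τ x).card : ℝ) = ∑ x ∈ C, G x := by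
  classical
  have h1 : ∀ x ∈ C, (∑ y ∈ cls C τ x, G y) / ((cls C τ x).card : ℝ) =
      ∑ y ∈ C, (if τ y = τ x then G y / ((cls C τ y).card : ℝ) else 0) := by
    intro x _
    rw [← Finset.sum_filter, Finset.sum_div]
    have e : cls C τ x = C.filter (fun y => τ y = τ x) := by
      ext y; simp [mem_cls]
    rw [← e]
    apply Finset.sum_congr rfl
    intro y hy
    have h2 : cls C τ y = cls C τ x := by
      ext z
      rw [mem_cls, mem_cls, (mem_cls.1 hy).2]
    rw [h2]
  rw [Finset.sum_congr rfl h1, Finset.sum_comm]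
  apply Finset.sum_congr rfl
  intro y hy
  have h3 : ∀ x ∈ C, (if τ y = τ x then G y / ((cls C τ y).card : ℝ) else 0) =
      (if τ x = τ y then G y / ((cls C τ y).card : ℝ) else 0) := by
    intro x _
    by_cases h : τ y = τ x
    · rw [if_pos h, if_pos h.symm]
    · rw [if_neg h, if_neg (fun h' => h h'.symm)]
  rw [Finset.sum_congr rfl h3, ← Finset.sum_filter]
  have e : C.filter (fun x => τ x = τ y) = cls C τ y := by
    ext x; simp [mem_cls]
  rw [e, Finset.sum_const, nsmul_eq_mul]
  have hc : (0:ℝ) < (cls C τ y).card := by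
    exact_mod_cast Finset.card_pos.2 ⟨y, mem_cls.2 ⟨hy, rfl⟩⟩
  field_simp

/-- The average of a function of `y v`. -/
theorem fr_avg (C : Finset (ι → Bool)) (v : ι) (G : Bool → ℝ) :
    (∑ y ∈ C, G (y v)) / (C.card : ℝ) = fr C v true * G true + fr C v false * G false := by
  have h1 : ∀ y ∈ C, G (y v) = (if y v = true then G true else 0) +
      (if y v = false then G false else 0) := by
    intro y _
    cases y v <;> simp
  rw [Finset.sum_congr rfl h1, Finset.sum_add_distrib, ← Finset.sum_filter, ← Finset.sum_filter,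
    Finset.sum_const, Finset.sum_const, nsmul_eq_mul, nsmul_eq_mul]
  unfold fr
  ring

end LINStarA
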