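import Mathlib
import Pool.Agent.Lib.MP_9dcf40_lc.LIN.Rcr
import Pool.Agent.Lib.MP_9dcf40_lc.LIN.StarA
import Pool.Agent.Lib.MP_9dcf40_lc.LIN.Spec

/-!
# LIN, section 3: the recursion for the averages over `J`
-/

set_option autoImplicit false

namespace SRBP

open Finset

namespace Sec3

variable {n r : ℕ} {β : Type} {F : Finset (Fin n → Bool)} {N : Finset (Fin n)}
  {sg : Fin r → (Fin n → Bool) → β} {J : Finset (Fin r)} {x y : Fin n → Bool}

theorem mem_Cl : y ∈ Cl F N sg J x ↔ y ∈ F ∧ (∀ v, v ∉ N → y v = x v) ∧ ∀ j ∈ J, sg j y = sg j x := by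
  classical
  unfold Cl
  simp

theorem self_mem (hx : x ∈ F) : x ∈ Cl F N sg J x := mem_Cl.2 ⟨hx, fun _ _ => rfl, fun _ _ => rfl⟩

theorem Cl_eq (hy : y ∈ Cl F N sg J x) : Cl F N sg J y = Cl F N sg J x := by
  ext z
  rw [mem_Cl, mem_Cl]
  obtain ⟨_, h1, h2⟩ := mem_Cl.1 hy
  constructor
  · rintro ⟨a, b, c⟩
    exact ⟨a, fun v hv => (b v hv).trans (h1 v hv), fun j hj => (c j hj).trans (h2 j hj)⟩
  · rintro ⟨a, b, c⟩
    exact ⟨a, fun v hv => (b v hv).trans (h1 v hv).symm, fun j hj => (c j hj).trans (h2 j hj).symm⟩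

/-- The key of a class. -/
noncomputable def key (N : Finset (Fin n)) (sg : Fin r → (Fin n → Bool) → β) (J : Finset (Fin r))
    (x : Fin n → Bool) : (Fin n → Option Bool) × (Fin r → Option β) := by
  classical exact (fun v => if v ∈ N then none else some (x v), fun j => if j ∈ J then some (sg j x) else none)

theorem key_eq : key N sg J y = key N sg J x ↔ (∀ v, v ∉ N → y v = x v) ∧ ∀ j ∈ J, sg j y = sg j x := by
  classical
  unfold key
  rw [Prod.ext_iff]
  simp only [funext_iff]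
  constructor
  · rintro ⟨a, b⟩
    refine ⟨fun v hv => ?_, fun j hj => ?_⟩
    · have := a v
      simpa [hv] using this
    · have := b j
      simpa [hj] using this
  · rintro ⟨a, b⟩
    refine ⟨fun v => ?_, fun j => ?_⟩
    · by_cases hv : v ∈ N
      · simp [hv]
      · simp [hv, a v hv]
    · by_cases hj : j ∈ J
      · simp [hj, b j hj]
      · simp [hj]

theorem Cl_cls : Cl F N sg J x = LINStarA.cls F (key N sg J) x := by
  ext z
  rw [mem_Cl, LINStarA.mem_cls, key_eq]

/-- Averaging over the classes. -/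
theorem avg_eq (G : (Fin n → Bool) → ℝ) :
    ∑ x ∈ F, (∑ y ∈ Cl F N sg J x, G y) / ((Cl F N sg J x).card : ℝ) = ∑ x ∈ F, G x := by
  simp only [Cl_cls]
  exact LINStarA.cls_avg F _ G

theorem avg_le (A B : Finset (Fin n → Bool) → (Fin n → Bool) → ℝ)
    (h : ∀ x ∈ F, ∑ y ∈ Cl F N sg J x, A (Cl F N sg J x) y ≤ ∑ y ∈ Cl F N sg J x, B (Cl F N sg J x) y) :
    ∑ x ∈ F, A (Cl F N sg J x) x ≤ ∑ x ∈ F, B (Cl F N sg J x) x := by
  rw [← avg_eq (N := N) (sg := sg) (J := J) (fun x => A (Cl F N sg J x) x),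
    ← avg_eq (N := N) (sg := sg) (J := J) (fun x => B (Cl F N sg J x) x)]
  apply sum_le_sum
  intro x hx
  apply div_le_div_of_nonneg_right _ (Nat.cast_nonneg _)
  have h1 : ∀ (A : Finset (Fin n → Bool) → (Fin n → Bool) → ℝ), ∑ y ∈ Cl F N sg J x, A (Cl F N sg J y) y =
      ∑ y ∈ Cl F N sg J x, A (Cl F N sg J x) y := by
    intro A
    apply sum_congr rfl
    intro y hy
    rw [Cl_eq hy]
  rw [h1, h1]
  exact h x hx

theorem wf_nonneg (C : Finset (Fin n → Bool)) (v : Fin n) (x : Fin n → Bool) : 0 ≤ wf C v x := by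
  unfold wf; positivity

theorem wf_le_one (C : Finset (Fin n → Bool)) (v : Fin n) (x : Fin n → Bool) : wf C v x ≤ 1 := by
  unfold wf
  apply div_le_one_of_le₀
  · exact_mod_cast card_filter_le _ _
  · positivity

theorem wf_zero (C : Finset (Fin n → Bool)) (v : Fin n) (x : Fin n → Bool) (h : ∀ y ∈ C, y v = x v) :
    wf C v x = 0 := by
  unfold wf
  rw [filter_eq_empty_iff.2]
  · simp
  · intro y hy
    simp [h y hy]

theorem sum_univ_eq (f : Fin n → ℝ) (h : ∀ v, v ∉ N → f v = 0) : ∑ v, f v = ∑ v ∈ N, f v := by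
  symm
  apply sum_subset (subset_univ _)
  intro v _ hv
  exact h v hv

/-- STEP. -/
theorem step (dm : β → Finset (Fin n))
    (hin : ∀ j, ∀ x ∈ F, ∀ y ∈ F, sg j x = sg j y → ∀ v ∈ dm (sg j x), x v = y v)
    (hcp : ∀ j, ∀ x ∈ F, ∀ y ∈ F, (∀ v ∈ dm (sg j x), x v = y v) → (∀ v ∈ dm (sg j y), x v = y v) →
      sg j x = sg j y) (j : Fin r) (J : Finset (Fin r)) :
    ∑ x ∈ F, ∑ v ∈ N, wf (Cl F N sg J x) v x - ∑ x ∈ F, ∑ v ∈ N, wf (Cl F N sg (insert j J) x) v x ≤
      10 * ∑ x ∈ F, ∑ v ∈ dm (sg j x) ∩ N, wf (Cl F N sg J x) v x +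
        8 * ∑ x ∈ F, TCf (Cl F N sg J x) := by
  classical
  have hins : ∀ x ∈ F, ∀ C, C = Cl F N sg J x → Cl F N sg (insert j J) x = clf C (sg j) x := by
    rintro x hx C rfl
    ext z
    unfold clf
    rw [mem_filter, mem_Cl, mem_Cl]
    constructor
    · rintro ⟨a, b, c⟩
      exact ⟨⟨a, b, fun i hi => c i (mem_insert_of_mem hi)⟩, c j (mem_insert_self j J)⟩
    · rintro ⟨⟨a, b, c⟩, d⟩
      refine ⟨a, b, fun i hi => ?_⟩
      rcases mem_insert.1 hi with rfl | hi
      · exact d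
      · exact c i hi
  have key := avg_le (F := F) (N := N) (sg := sg) (J := J)
    (fun C x => ∑ v, (wf C v x - wf (clf C (sg j) x) v x))
    (fun C x => 10 * ∑ v ∈ dm (sg j x), wf C v x + 8 * TCf C) (by
      intro x hx
      have h := star n β (Cl F N sg J x) (sg j) dm ⟨x, self_mem hx⟩
        (fun y hy z hz => hin j y (mem_Cl.1 hy).1 z (mem_Cl.1 hz).1)
        (fun y hy z hz => hcp j y (mem_Cl.1 hy).1 z (mem_Cl.1 hz).1)
      refine (le_of_eq ?_).trans (h.trans (le_of_eq ?_))
      · rfl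
      · rw [sum_add_distrib, ← mul_sum, sum_const, nsmul_eq_mul]
        ring)
  have e1 : ∑ x ∈ F, ∑ v, (wf (Cl F N sg J x) v x -
      wf (clf (Cl F N sg J x) (sg j) x) v x) =
      ∑ x ∈ F, ∑ v ∈ N, wf (Cl F N sg J x) v x - ∑ x ∈ F, ∑ v ∈ N, wf (Cl F N sg (insert j J) x) v x := by
    rw [← sum_sub_distrib]
    apply sum_congr rfl
    intro x hx
    rw [← sum_sub_distrib, ← hins x hx _ rfl]
    apply sum_univ_eq
    intro v hv
    rw [wf_zero, wf_zero, sub_zero]
    · intro y hy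
      exact (mem_Cl.1 hy).2.1 v hv
    · intro y hy
      exact (mem_Cl.1 hy).2.1 v hv
  have e2 : ∑ x ∈ F, (10 * ∑ v ∈ dm (sg j x), wf (Cl F N sg J x) v x + 8 * TCf (Cl F N sg J x)) =
      10 * ∑ x ∈ F, ∑ v ∈ dm (sg j x) ∩ N, wf (Cl F N sg J x) v x +
        8 * ∑ x ∈ F, TCf (Cl F N sg J x) := by
    rw [sum_add_distrib, ← mul_sum, ← mul_sum]
    congr 2
    apply sum_congr rfl
    intro x hx
    symm
    apply sum_subset inter_subset_left
    intro v hv1 hv2
    have hv : v ∉ N := fun h => hv2 (mem_inter.2 ⟨hv1, h⟩)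
    apply wf_zero
    intro y hy
    exact (mem_Cl.1 hy).2.1 v hv
  have key2 := e1 ▸ e2 ▸ key
  exact key2

/-! ## Counting -/


theorem choose_step (a s : ℕ) (hs : s ≤ a) :
    ((a.choose s : ℕ) : ℝ) * ((a : ℝ) + 1) = ((a + 1).choose s : ℝ) * ((a : ℝ) + 1 - s) := by
  have h : a.choose s * (a + 1) = (a + 1).choose s * (a + 1 - s) := Nat.choose_mul_succ_eq a s
  have h2 := congrArg (Nat.cast : ℕ → ℝ) h
  push_cast [Nat.cast_sub (show s ≤ a + 1 by omega)] at h2
  exact h2

/-- `C(r - m, s) r^m ≤ C(r, s) (r - s)^m`. -/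
theorem choose_le (r s : ℕ) (hs : s ≤ r) (m : ℕ) (hm : m ≤ r) :
    ((r - m).choose s : ℝ) * (r : ℝ) ^ m ≤ (r.choose s : ℝ) * ((r : ℝ) - s) ^ m := by
  have hrs : (0 : ℝ) ≤ (r : ℝ) - s := by
    have : (s : ℝ) ≤ r := by exact_mod_cast hs
    linarith
  induction m with
  | zero => simp
  | succ m ih =>
    have ih := ih (by omega)
    by_cases h : s ≤ r - (m + 1)
    · have e : r - m = (r - (m + 1)) + 1 := by omega
      have h1 := choose_step (r - (m + 1)) s h
      rw [← e] at h1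
      have hc : ((r - (m + 1) : ℕ) : ℝ) = (r : ℝ) - m - 1 := by
        rw [Nat.cast_sub hm]; push_cast; ring
      rw [hc] at h1
      have hpos : (0 : ℝ) < (r : ℝ) - m := by
        have : ((m + 1 : ℕ) : ℝ) ≤ r := by exact_mod_cast hm
        push_cast at this
        linarith
      have hms : (0 : ℝ) ≤ (m : ℝ) * s := by positivity
      have hr : (0 : ℝ) ≤ r := Nat.cast_nonneg _
      have hle : ((r - (m + 1)).choose s : ℝ) * r ≤ ((r - m).choose s : ℝ) * ((r : ℝ) - s) := by
        have h3 : ((r - (m + 1)).choose s : ℝ) * r * ((r : ℝ) - m) ≤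
            ((r - m).choose s : ℝ) * ((r : ℝ) - s) * ((r : ℝ) - m) := by
          have h4 : ((r - (m + 1)).choose s : ℝ) * ((r : ℝ) - m) =
              ((r - m).choose s : ℝ) * ((r : ℝ) - m - s) := by
            linarith [h1, show (r : ℝ) - m - 1 + 1 = (r : ℝ) - m by ring]
          calc ((r - (m + 1)).choose s : ℝ) * r * ((r : ℝ) - m)
              = ((r - m).choose s : ℝ) * (((r : ℝ) - m - s) * r) := by
                rw [mul_right_comm, h4]; ring
            _ ≤ ((r - m).choose s : ℝ) * (((r : ℝ) - s) * ((r : ℝ) - m)) := by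
                apply mul_le_mul_of_nonneg_left _ (Nat.cast_nonneg _)
                nlinarith
            _ = _ := by ring
        exact le_of_mul_le_mul_right h3 hpos
      calc ((r - (m + 1)).choose s : ℝ) * (r : ℝ) ^ (m + 1)
          = (((r - (m + 1)).choose s : ℝ) * r) * (r : ℝ) ^ m := by ring
        _ ≤ (((r - m).choose s : ℝ) * ((r : ℝ) - s)) * (r : ℝ) ^ m :=
            mul_le_mul_of_nonneg_right hle (by positivity)
        _ = (((r - m).choose s : ℝ) * (r : ℝ) ^ m) * ((r : ℝ) - s) := by ring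
        _ ≤ ((r.choose s : ℝ) * ((r : ℝ) - s) ^ m) * ((r : ℝ) - s) :=
            mul_le_mul_of_nonneg_right ih hrs
        _ = _ := by ring
    · rw [Nat.choose_eq_zero_of_lt (by omega)]
      simp only [Nat.cast_zero, zero_mul]
      positivity

/-- The number of `J`, `|J| = s`, disjoint from `R`. -/
theorem card_disj (R : Finset (Fin r)) (s : ℕ) (hs : s < r) (I : ℝ) (hI : I ≤ R.card) :
    (((powersetCard s (univ : Finset (Fin r))).filter (fun J => Disjoint J R)).card : ℝ) ≤
      (r.choose s : ℝ) * (((r : ℝ) - s) / r) ^ I := by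
  have hR : R.card ≤ r := by simpa using card_le_univ R
  have e : (powersetCard s (univ : Finset (Fin r))).filter (fun J => Disjoint J R) =
      powersetCard s Rᶜ := by
    ext J
    simp only [mem_filter, mem_powersetCard, subset_univ, true_and]
    rw [and_comm]
    apply and_congr_left
    intro _
    rw [← subset_compl_iff_disjoint_right]
  have hr0 : (0 : ℝ) < r := by exact_mod_cast (by omega : 0 < r)
  have hrs : (0 : ℝ) < (r : ℝ) - s := by
    have : (s : ℝ) < r := by exact_mod_cast hs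
    linarith
  have hs0 : (0 : ℝ) ≤ s := Nat.cast_nonneg _
  rw [e, card_powersetCard, card_compl, Fintype.card_fin]
  have h1 := choose_le r s hs.le R.card hR
  have h2 : ((r - R.card).choose s : ℝ) ≤ (r.choose s : ℝ) * (((r : ℝ) - s) / r) ^ R.card := by
    rw [div_pow, ← mul_div_assoc, le_div_iff₀ (by positivity)]
    exact h1
  refine h2.trans ?_
  apply mul_le_mul_of_nonneg_left _ (Nat.cast_nonneg _)
  rw [← Real.rpow_natCast]
  apply Real.rpow_le_rpow_of_exponent_ge (by positivity) _ hI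
  rw [div_le_one hr0]
  linarith

/-- Double counting of `insert j J`. -/
theorem sum_insert (s : ℕ) (U : Finset (Fin r) → ℝ) :
    ∑ J ∈ powersetCard s (univ : Finset (Fin r)), ∑ j ∈ Jᶜ, U (insert j J) =
      (s + 1) * ∑ J ∈ powersetCard (s + 1) (univ : Finset (Fin r)), U J := by
  have h1 : ((s : ℝ) + 1) * ∑ J ∈ powersetCard (s + 1) (univ : Finset (Fin r)), U J =
      ∑ J ∈ powersetCard (s + 1) (univ : Finset (Fin r)), ∑ _j ∈ J, U J := by
    rw [mul_sum]
    apply sum_congr rfl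
    intro J hJ
    rw [sum_const, (mem_powersetCard.1 hJ).2, nsmul_eq_mul]
    push_cast
    ring
  rw [h1, sum_sigma', sum_sigma']
  refine sum_bij' (fun p _ => ⟨insert p.2 p.1, p.2⟩) (fun p _ => ⟨p.1.erase p.2, p.2⟩)
    ?_ ?_ ?_ ?_ ?_
  · rintro ⟨J, j⟩ h
    simp only [mem_sigma, mem_powersetCard, mem_compl, subset_univ, true_and] at h ⊢
    exact ⟨by rw [card_insert_of_notMem h.2, h.1], mem_insert_self _ _⟩
  · rintro ⟨J, j⟩ h
    simp only [mem_sigma, mem_powersetCard, mem_compl, subset_univ, true_and] at h ⊢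
    exact ⟨by rw [card_erase_of_mem h.2, h.1]; rfl, notMem_erase _ _⟩
  · rintro ⟨J, j⟩ h
    simp only [mem_sigma, mem_powersetCard, mem_compl, subset_univ, true_and] at h
    simp only [erase_insert h.2]
  · rintro ⟨J, j⟩ h
    simp only [mem_sigma, mem_powersetCard, subset_univ, true_and] at h
    simp only [insert_erase h.2]
  · rintro ⟨J, j⟩ h
    rfl

/-- The main count. `w J v` with `0 ≤ w ≤ 1`, `w J v = 0` if some `j ∈ J` reads `v`. -/
theorem count_one (N : Finset (Fin n)) (D : Fin r → Finset (Fin n)) (w : Finset (Fin r) → Fin n → ℝ)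
    (h0 : ∀ J v, 0 ≤ w J v) (h1 : ∀ J v, w J v ≤ 1) (hz : ∀ J v, (∃ j ∈ J, v ∈ D j) → w J v = 0)
    (s : ℕ) (hs : s < r) (I : ℝ) (hI : 0 ≤ I) :
    ∑ J ∈ powersetCard s (univ : Finset (Fin r)), ∑ j ∈ Jᶜ, ∑ v ∈ D j ∩ N, w J v ≤
      I * (∑ J ∈ powersetCard s (univ : Finset (Fin r)), ∑ v ∈ N, w J v) +
      (∑ j, ((D j ∩ N).card : ℝ)) * ((r.choose s : ℝ) * (((r : ℝ) - s) / r) ^ I) := by
  classical
  set Rd : Fin n → Finset (Fin r) := fun v => univ.filter (fun j => v ∈ D j) with hRd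
  set X : ℝ := (r.choose s : ℝ) * (((r : ℝ) - s) / r) ^ I with hX
  have hX0 : 0 ≤ X := by
    have hrs : (0 : ℝ) < (r : ℝ) - s := by
      have : (s : ℝ) < r := by exact_mod_cast hs
      linarith
    positivity
  -- rewriting of the left side
  have e1 : ∀ J : Finset (Fin r), ∑ j ∈ Jᶜ, ∑ v ∈ D j ∩ N, w J v =
      ∑ v ∈ N, ((Jᶜ.filter (fun j => v ∈ D j)).card : ℝ) * w J v := by
    intro J
    have : ∀ j, ∑ v ∈ D j ∩ N, w J v = ∑ v ∈ N, if v ∈ D j then w J v else 0 := by
      intro j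
      rw [← sum_filter]
      apply sum_congr _ (fun _ _ => rfl)
      ext v
      simp [and_comm]
    rw [sum_congr rfl (fun j _ => this j), sum_comm]
    apply sum_congr rfl
    intro v _
    rw [← sum_filter, sum_const, nsmul_eq_mul]
  rw [sum_congr rfl (fun J _ => e1 J)]
  have e2 : ∑ j, ((D j ∩ N).card : ℝ) = ∑ v ∈ N, ((Rd v).card : ℝ) := by
    have : ∀ j, ((D j ∩ N).card : ℝ) = ∑ v ∈ N, if v ∈ D j then (1 : ℝ) else 0 := by
      intro j
      rw [← sum_filter, sum_const, nsmul_eq_mul, mul_one]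
      congr 2
      ext v
      simp [and_comm]
    rw [sum_congr rfl (fun j _ => this j), sum_comm]
    apply sum_congr rfl
    intro v _
    rw [← sum_filter, sum_const, nsmul_eq_mul, mul_one]
  rw [e2, sum_mul, mul_sum]
  -- termwise
  have key : ∀ J ∈ powersetCard s (univ : Finset (Fin r)), ∀ v ∈ N,
      ((Jᶜ.filter (fun j => v ∈ D j)).card : ℝ) * w J v ≤ I * w J v +
        (if I < (Rd v).card ∧ Disjoint J (Rd v) then ((Rd v).card : ℝ) else 0) := by
    intro J _ v _
    have hcard : ((Jᶜ.filter (fun j => v ∈ D j)).card : ℝ) ≤ (Rd v).card := by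
      have : Jᶜ.filter (fun j => v ∈ D j) ⊆ Rd v := by
        intro j hj
        simp only [hRd, mem_filter, mem_univ, true_and]
        exact (mem_filter.1 hj).2
      exact_mod_cast card_le_card this
    by_cases hd : Disjoint J (Rd v)
    · by_cases hI2 : I < (Rd v).card
      · rw [if_pos ⟨hI2, hd⟩]
        have a1 := h0 J v
        have a2 := h1 J v
        have a3 : ((Jᶜ.filter (fun j => v ∈ D j)).card : ℝ) * w J v ≤ (Rd v).card * 1 := by
          apply mul_le_mul hcard a2 a1 (Nat.cast_nonneg _)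
        have a4 : 0 ≤ I * w J v := mul_nonneg hI a1
        linarith
      · rw [if_neg (fun h => hI2 h.1), add_zero]
        apply mul_le_mul_of_nonneg_right _ (h0 J v)
        exact hcard.trans (not_lt.1 hI2)
    · rw [if_neg (fun h => hd h.2), add_zero]
      obtain ⟨j, hj1, hj2⟩ := not_disjoint_iff.1 hd
      rw [hz J v ⟨j, hj1, by simpa [hRd] using hj2⟩]
      simp
  calc ∑ J ∈ powersetCard s (univ : Finset (Fin r)), ∑ v ∈ N, ((Jᶜ.filter (fun j => v ∈ D j)).card : ℝ) * w J v
      ≤ ∑ J ∈ powersetCard s (univ : Finset (Fin r)), ∑ v ∈ N, (I * w J v +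
        (if I < (Rd v).card ∧ Disjoint J (Rd v) then ((Rd v).card : ℝ) else 0)) :=
        sum_le_sum fun J hJ => sum_le_sum fun v hv => key J hJ v hv
    _ = ∑ J ∈ powersetCard s (univ : Finset (Fin r)), I * ∑ v ∈ N, w J v +
        ∑ v ∈ N, ∑ J ∈ powersetCard s (univ : Finset (Fin r)),
          (if I < (Rd v).card ∧ Disjoint J (Rd v) then ((Rd v).card : ℝ) else 0) := by
        rw [sum_comm (s := N), ← sum_add_distrib]
        apply sum_congr rfl
        intro J _
        rw [sum_add_distrib, mul_sum]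
    _ ≤ _ := by
        gcongr with v hv
        by_cases hI2 : I < (Rd v).card
        · have : ∀ J : Finset (Fin r), (if I < (Rd v).card ∧ Disjoint J (Rd v) then ((Rd v).card : ℝ) else 0) =
              if Disjoint J (Rd v) then ((Rd v).card : ℝ) else 0 := by
            intro J
            simp [hI2]
          rw [sum_congr rfl (fun J _ => this J), ← sum_filter, sum_const, nsmul_eq_mul, mul_comm]
          apply mul_le_mul_of_nonneg_left _ (Nat.cast_nonneg _)
          exact card_disj (Rd v) s hs I hI2.le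
        · have : ∀ J : Finset (Fin r), (if I < (Rd v).card ∧ Disjoint J (Rd v) then ((Rd v).card : ℝ) else 0) = 0 := by
            intro J
            simp [hI2]
          rw [sum_congr rfl (fun J _ => this J), sum_const_zero]
          positivity

/-! ## Lemma 3 -/

/-- Average of `u_J / |N|` over the `J` with `|J| = s`. -/
noncomputable def aS {n r : ℕ} {β : Type} (F : Finset (Fin n → Bool)) (N : Finset (Fin n))
    (sg : Fin r → (Fin n → Bool) → β) (s : ℕ) : ℝ :=
  (∑ J ∈ powersetCard s (univ : Finset (Fin r)), uJ F N sg J) / ((r.choose s : ℝ) * N.card)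

theorem uJ_le (hF : F.Nonempty) : uJ F N sg J ≤ N.card := by
  unfold uJ
  have hc : (0 : ℝ) < F.card := by exact_mod_cast hF.card_pos
  rw [div_le_iff₀ hc]
  calc ∑ x ∈ F, ∑ v ∈ N, wf (Cl F N sg J x) v x ≤ ∑ x ∈ F, ∑ v ∈ N, (1 : ℝ) :=
        sum_le_sum fun x _ => sum_le_sum fun v _ => wf_le_one _ _ _
    _ = _ := by
        rw [sum_const, sum_const, nsmul_eq_mul, nsmul_eq_mul]
        ring

theorem uJ_nonneg : 0 ≤ uJ F N sg J := by
  unfold uJ
  apply div_nonneg _ (Nat.cast_nonneg _)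
  exact sum_nonneg fun x _ => sum_nonneg fun v _ => wf_nonneg _ _ _

theorem aS_le_one (hF : F.Nonempty) (hN : N.Nonempty) (s : ℕ) : aS F N sg s ≤ 1 := by
  unfold aS
  have hc : (0 : ℝ) < N.card := by exact_mod_cast hN.card_pos
  apply div_le_one_of_le₀ _ (by positivity)
  calc ∑ J ∈ powersetCard s (univ : Finset (Fin r)), uJ F N sg J
      ≤ ∑ J ∈ powersetCard s (univ : Finset (Fin r)), (N.card : ℝ) := sum_le_sum fun J _ => uJ_le hF
    _ = _ := by
        rw [sum_const, card_powersetCard, card_univ, Fintype.card_fin, nsmul_eq_mul]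

theorem lemma3 (hF : F.Nonempty) (hN : N.Nonempty) (dm : β → Finset (Fin n))
    (hin : ∀ j, ∀ x ∈ F, ∀ y ∈ F, sg j x = sg j y → ∀ v ∈ dm (sg j x), x v = y v)
    (hcp : ∀ j, ∀ x ∈ F, ∀ y ∈ F, (∀ v ∈ dm (sg j x), x v = y v) → (∀ v ∈ dm (sg j y), x v = y v) →
      sg j x = sg j y) (K δ : ℝ) (hT : ∀ J, tJ F N sg J ≤ δ * N.card)
    (hK : ∑ x ∈ F, ∑ j, ((dm (sg j x) ∩ N).card : ℝ) ≤ K * N.card * F.card)
    (s : ℕ) (hs : s < r) (I : ℝ) (hI : 0 ≤ I) :
    aS F N sg s - 10 / ((r : ℝ) - s) * (I * aS F N sg s + K * (((r : ℝ) - s) / r) ^ I) - 8 * δ ≤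
      aS F N sg (s + 1) := by
  have hf : (0 : ℝ) < F.card := by exact_mod_cast hF.card_pos
  have hn : (0 : ℝ) < N.card := by exact_mod_cast hN.card_pos
  have hrs : (0 : ℝ) < (r : ℝ) - s := by
    have : (s : ℝ) < r := by exact_mod_cast hs
    linarith
  have hr : (0 : ℝ) < r := by
    have : 0 < r := by omega
    exact_mod_cast this
  have hc : (0 : ℝ) < (r.choose s : ℝ) := by exact_mod_cast Nat.choose_pos hs.le
  have hc1 : (0 : ℝ) < (r.choose (s + 1) : ℝ) := by exact_mod_cast Nat.choose_pos (by omega)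
  have hcc : ((s : ℝ) + 1) * (r.choose (s + 1) : ℝ) = ((r : ℝ) - s) * (r.choose s : ℝ) := by
    have h := Nat.choose_succ_right_eq r s
    have h2 := congrArg (Nat.cast : ℕ → ℝ) h
    push_cast [Nat.cast_sub hs.le] at h2
    linarith
  set X : ℝ := (((r : ℝ) - s) / r) ^ I with hX
  have hX0 : 0 ≤ X := by positivity
  set Us : Finset (Fin r) → ℝ := fun J => ∑ x ∈ F, ∑ v ∈ N, wf (Cl F N sg J x) v x with hUs
  have hu : ∀ J, uJ F N sg J = Us J / F.card := fun J => rfl
  -- the averages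
  have ha : ∀ t : ℕ, (0 : ℝ) < (r.choose t : ℝ) → ∑ J ∈ powersetCard t (univ : Finset (Fin r)), Us J =
      (r.choose t : ℝ) * N.card * F.card * aS F N sg t := by
    intro t ht
    unfold aS
    simp only [hu]
    rw [← sum_div]
    field_simp
  -- one step
  have h1 : ∀ J j, Us J - Us (insert j J) ≤
      10 * ∑ x ∈ F, ∑ v ∈ dm (sg j x) ∩ N, wf (Cl F N sg J x) v x + 8 * (δ * N.card * F.card) := by
    intro J j
    have h := step dm hin hcp j J (N := N)
    have h2 : ∑ x ∈ F, TCf (Cl F N sg J x) ≤ δ * N.card * F.card := by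
      have := hT J
      unfold tJ at this
      rwa [div_le_iff₀ hf] at this
    have e : Us J - Us (insert j J) = ∑ x ∈ F, ∑ v ∈ N, wf (Cl F N sg J x) v x -
        ∑ x ∈ F, ∑ v ∈ N, wf (Cl F N sg (insert j J) x) v x := rfl
    rw [e]
    linarith
  -- sum
  have h2 : ∑ J ∈ powersetCard s (univ : Finset (Fin r)), ∑ j ∈ Jᶜ, (Us J - Us (insert j J)) ≤
      ∑ J ∈ powersetCard s (univ : Finset (Fin r)), ∑ j ∈ Jᶜ,
      (10 * ∑ x ∈ F, ∑ v ∈ dm (sg j x) ∩ N, wf (Cl F N sg J x) v x + 8 * (δ * N.card * F.card)) :=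
    sum_le_sum fun J _ => sum_le_sum fun j _ => h1 J j
  have hJc : ∀ J ∈ powersetCard s (univ : Finset (Fin r)), ((Jᶜ.card : ℕ) : ℝ) = (r : ℝ) - s := by
    intro J hJ
    rw [card_compl, Fintype.card_fin, (mem_powersetCard.1 hJ).2, Nat.cast_sub hs.le]
  have e1 : ∑ J ∈ powersetCard s (univ : Finset (Fin r)), ∑ j ∈ Jᶜ, (Us J - Us (insert j J)) =
      ((r : ℝ) - s) * ∑ J ∈ powersetCard s (univ : Finset (Fin r)), Us J -
        ((s : ℝ) + 1) * ∑ J ∈ powersetCard (s + 1) (univ : Finset (Fin r)), Us J := by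
    rw [← sum_insert, mul_sum, ← sum_sub_distrib]
    apply sum_congr rfl
    intro J hJ
    rw [sum_sub_distrib, sum_const, nsmul_eq_mul, hJc J hJ]
  have e2 : ∑ J ∈ powersetCard s (univ : Finset (Fin r)), ∑ j ∈ Jᶜ,
      (10 * ∑ x ∈ F, ∑ v ∈ dm (sg j x) ∩ N, wf (Cl F N sg J x) v x + 8 * (δ * N.card * F.card)) =
      10 * ∑ x ∈ F, ∑ J ∈ powersetCard s (univ : Finset (Fin r)), ∑ j ∈ Jᶜ,
        ∑ v ∈ dm (sg j x) ∩ N, wf (Cl F N sg J x) v x +
      ((r : ℝ) - s) * (r.choose s : ℝ) * (8 * (δ * N.card * F.card)) := by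
    have e3 : ∑ x ∈ F, ∑ J ∈ powersetCard s (univ : Finset (Fin r)), ∑ j ∈ Jᶜ,
        ∑ v ∈ dm (sg j x) ∩ N, wf (Cl F N sg J x) v x =
        ∑ J ∈ powersetCard s (univ : Finset (Fin r)), ∑ j ∈ Jᶜ, ∑ x ∈ F,
        ∑ v ∈ dm (sg j x) ∩ N, wf (Cl F N sg J x) v x := by
      rw [sum_comm]
      apply sum_congr rfl
      intro J _
      rw [sum_comm]
    rw [e3, mul_sum]
    have e4 : ((r : ℝ) - s) * (r.choose s : ℝ) * (8 * (δ * N.card * F.card)) =
        ∑ J ∈ powersetCard s (univ : Finset (Fin r)), ((r : ℝ) - s) * (8 * (δ * N.card * F.card)) := by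
      rw [sum_const, card_powersetCard, card_univ, Fintype.card_fin, nsmul_eq_mul]
      ring
    rw [e4, ← sum_add_distrib]
    apply sum_congr rfl
    intro J hJ
    rw [sum_add_distrib, mul_sum, sum_const, nsmul_eq_mul, hJc J hJ]
  rw [e1, e2] at h2
  -- count
  have h3 : ∑ x ∈ F, ∑ J ∈ powersetCard s (univ : Finset (Fin r)), ∑ j ∈ Jᶜ,
        ∑ v ∈ dm (sg j x) ∩ N, wf (Cl F N sg J x) v x ≤
      I * ∑ J ∈ powersetCard s (univ : Finset (Fin r)), Us J +
        K * N.card * F.card * ((r.choose s : ℝ) * X) := by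
    calc ∑ x ∈ F, ∑ J ∈ powersetCard s (univ : Finset (Fin r)), ∑ j ∈ Jᶜ,
        ∑ v ∈ dm (sg j x) ∩ N, wf (Cl F N sg J x) v x
        ≤ ∑ x ∈ F, (I * (∑ J ∈ powersetCard s (univ : Finset (Fin r)), ∑ v ∈ N, wf (Cl F N sg J x) v x) +
          (∑ j, ((dm (sg j x) ∩ N).card : ℝ)) * ((r.choose s : ℝ) * X)) := by
          apply sum_le_sum
          intro x hx
          apply count_one N (fun j => dm (sg j x)) (fun J v => wf (Cl F N sg J x) v x)
            (fun J v => wf_nonneg _ _ _) (fun J v => wf_le_one _ _ _) _ s hs I hI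
          rintro J v ⟨j, hj, hv⟩
          apply wf_zero
          intro y hy
          have hy' := mem_Cl.1 hy
          exact hin j y hy'.1 x hx (hy'.2.2 j hj) v (by rw [hy'.2.2 j hj]; exact hv)
      _ = I * ∑ J ∈ powersetCard s (univ : Finset (Fin r)), Us J +
        (∑ x ∈ F, ∑ j, ((dm (sg j x) ∩ N).card : ℝ)) * ((r.choose s : ℝ) * X) := by
          rw [sum_add_distrib, ← mul_sum, ← sum_mul, sum_comm]
      _ ≤ _ := by
          gcongr
  rw [ha s hc, ha (s + 1) hc1] at h2
  rw [ha s hc] at h3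
  set P : ℝ := (r.choose s : ℝ) * N.card * F.card with hP
  have hP0 : 0 < P := by positivity
  have h4 : ((r : ℝ) - s) * P * (aS F N sg s - aS F N sg (s + 1)) ≤
      10 * P * (I * aS F N sg s + K * X) + ((r : ℝ) - s) * P * (8 * δ) := by
    have e5 : ((s : ℝ) + 1) * ((r.choose (s + 1) : ℝ) * N.card * F.card * aS F N sg (s + 1)) =
        ((r : ℝ) - s) * P * aS F N sg (s + 1) := by
      rw [hP]
      linear_combination (N.card : ℝ) * F.card * aS F N sg (s + 1) * hcc
    rw [e5] at h2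
    have e6 : K * N.card * F.card * ((r.choose s : ℝ) * X) = P * (K * X) := by rw [hP]; ring
    rw [e6] at h3
    have e7 : ((r : ℝ) - s) * (r.choose s : ℝ) * (8 * (δ * N.card * F.card)) =
        ((r : ℝ) - s) * P * (8 * δ) := by rw [hP]; ring
    rw [e7] at h2
    linarith
  have hD : 0 < ((r : ℝ) - s) * P := by positivity
  have h5 : aS F N sg s - aS F N sg (s + 1) ≤ 10 / ((r : ℝ) - s) * (I * aS F N sg s + K * X) + 8 * δ := by
    have e8 : 10 * P * (I * aS F N sg s + K * X) + ((r : ℝ) - s) * P * (8 * δ) =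
        ((r : ℝ) - s) * P * (10 / ((r : ℝ) - s) * (I * aS F N sg s + K * X) + 8 * δ) := by
      field_simp
    rw [e8] at h4
    exact le_of_mul_le_mul_left h4 hD
  linarith

/-! ## The start of the recursion -/


theorem wf_fr (C : Finset (Fin n → Bool)) (hC : C.Nonempty) (v : Fin n) (x : Fin n → Bool) :
    1 - wf C v x = LINStarA.fr C v (x v) := by
  have h := LINStarA.fr_add C hC v (x v)
  have e : wf C v x = LINStarA.fr C v (!(x v)) := by
    unfold wf LINStarA.fr
    congr 2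
    congr 1
    apply filter_congr
    intro y _
    cases y v <;> cases x v <;> simp
  rw [e]
  linarith

/-- The total correlation is nonnegative. -/
theorem log_card_le (C : Finset (Fin n → Bool)) (hC : C.Nonempty) :
    C.card * Real.log C.card ≤ ∑ x ∈ C, ∑ v, -Real.log (1 - wf C v x) := by
  have hc : (0 : ℝ) < C.card := by exact_mod_cast hC.card_pos
  have h1 : ∀ x ∈ C, Real.log C.card - ∑ v, -Real.log (1 - wf C v x) ≤
      C.card * (∏ v, LINStarA.fr C v (x v)) - 1 := by
    intro x hx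
    have hp : ∀ v, 0 < LINStarA.fr C v (x v) := fun v => LINStarA.fr_pos C hx v
    have hpp : 0 < ∏ v, LINStarA.fr C v (x v) := prod_pos fun v _ => hp v
    have h2 := Real.log_le_sub_one_of_pos (x := C.card * ∏ v, LINStarA.fr C v (x v)) (by positivity)
    rw [Real.log_mul hc.ne' hpp.ne', Real.log_prod (fun v _ => (hp v).ne')] at h2
    have h3 : ∑ v, -Real.log (1 - wf C v x) = - ∑ v, Real.log (LINStarA.fr C v (x v)) := by
      rw [← sum_neg_distrib]
      apply sum_congr rfl
      intro v _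
      rw [wf_fr C hC]
    rw [h3]
    linarith
  have h2 := sum_le_sum h1
  rw [sum_sub_distrib, sum_sub_distrib, sum_const, sum_const, nsmul_eq_mul, nsmul_eq_mul, ← mul_sum] at h2
  have h3 : ∑ x ∈ C, ∏ v, LINStarA.fr C v (x v) ≤ 1 := by
    calc ∑ x ∈ C, ∏ v, LINStarA.fr C v (x v) ≤ ∑ x : Fin n → Bool, ∏ v, LINStarA.fr C v (x v) := by
          apply sum_le_sum_of_subset_of_nonneg (subset_univ _)
          intro x _ _
          exact prod_nonneg fun v _ => LINStarA.fr_nonneg _ _ _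
      _ = ∏ v, ∑ b : Bool, LINStarA.fr C v b := by
          rw [prod_univ_sum]
          apply sum_congr _ (fun _ _ => rfl)
          ext x
          simp
      _ = 1 := by
          apply prod_eq_one
          intro v _
          rw [Fintype.sum_bool]
          have := LINStarA.fr_add C hC v true
          simpa using this
  have h4 : (C.card : ℝ) * ∑ x ∈ C, ∏ v, LINStarA.fr C v (x v) ≤ C.card * 1 :=
    mul_le_mul_of_nonneg_left h3 hc.le
  linarith

/-- One coordinate. -/
theorem one_coord (C : Finset (Fin n → Bool)) (hC : C.Nonempty) (v : Fin n) :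
    ∑ x ∈ C, ((1 : ℝ) / 2 - Real.log 2 + -Real.log (1 - wf C v x)) ≤ ∑ x ∈ C, wf C v x := by
  have hc : (0 : ℝ) < C.card := by exact_mod_cast hC.card_pos
  have e1 := LINStarA.fr_avg C v (fun b => (1 : ℝ) / 2 - Real.log 2 + -Real.log (LINStarA.fr C v b))
  have e2 := LINStarA.fr_avg C v (fun b => 1 - LINStarA.fr C v b)
  have f1 : ∑ x ∈ C, ((1 : ℝ) / 2 - Real.log 2 + -Real.log (1 - wf C v x)) =
      ∑ x ∈ C, ((1 : ℝ) / 2 - Real.log 2 + -Real.log (LINStarA.fr C v (x v))) := by
    apply sum_congr rfl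
    intro x _
    rw [wf_fr C hC]
  have f2 : ∑ x ∈ C, wf C v x = ∑ x ∈ C, (1 - LINStarA.fr C v (x v)) := by
    apply sum_congr rfl
    intro x _
    rw [← wf_fr C hC]
    ring
  rw [f1, f2, ← div_le_div_iff_of_pos_right hc, e1, e2]
  have hp := LINStarA.fr_nonneg C v true
  have hq := LINStarA.fr_nonneg C v false
  have hpq : LINStarA.fr C v true + LINStarA.fr C v false = 1 := by
    simpa using LINStarA.fr_add C hC v true
  set p := LINStarA.fr C v true
  set q := LINStarA.fr C v false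
  have key := LINStarA.two_wt p q hp hq hpq.le
  rw [hpq, div_one, div_one] at key
  have l2 : Real.log 2 ≠ 0 := (Real.log_pos (by norm_num)).ne'
  have g : ∀ t : ℝ, 0 ≤ t → t * Real.log (2 * t) = t * Real.log 2 + t * Real.log t := by
    intro t ht
    rcases ht.eq_or_lt with h | h
    · rw [← h]; simp
    · rw [Real.log_mul (by norm_num) h.ne']
      ring
  rw [g p hp, g q hq] at key
  have e3 : p * (1 / 2 - Real.log 2 + -Real.log p) + q * (1 / 2 - Real.log 2 + -Real.log q) =
      (p + q) * (1 / 2 - Real.log 2) - (p * Real.log p + q * Real.log q) := by ring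
  have e4 : p * Real.log 2 + p * Real.log p + (q * Real.log 2 + q * Real.log q) =
      (p + q) * Real.log 2 + (p * Real.log p + q * Real.log q) := by ring
  rw [e3, hpq]
  rw [e4, hpq] at key
  have e5 : q = 1 - p := by linarith
  rw [e5] at key ⊢
  nlinarith

/-- The classes for `J = ∅` are large. -/
theorem log_class (hF : F.Nonempty) :
    (F.card : ℝ) * (Real.log F.card - ((n : ℝ) - N.card) * Real.log 2) ≤
      ∑ x ∈ F, Real.log ((Cl F N sg ∅ x).card) := by
  classical
  have hf : (0 : ℝ) < F.card := by exact_mod_cast hF.card_pos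
  set m : ℕ := Fintype.card ({v // v ∉ N} → Bool) with hm
  have hmc : (m : ℝ) = (2 : ℝ) ^ ((n : ℝ) - N.card) := by
    have h1 : m = 2 ^ (n - N.card) := by
      rw [hm, Fintype.card_fun, Fintype.card_bool]
      congr 1
      rw [Fintype.card_subtype_compl]
      simp
    have h2 : N.card ≤ n := by simpa using card_le_univ N
    rw [h1]
    push_cast
    rw [← Real.rpow_natCast, Nat.cast_sub h2]
  have hm0 : (0 : ℝ) < m := by rw [hmc]; positivity
  have hlm : Real.log m = ((n : ℝ) - N.card) * Real.log 2 := by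
    rw [hmc, Real.log_rpow (by norm_num)]
  have hCp : ∀ x ∈ F, (0 : ℝ) < (Cl F N sg ∅ x).card := by
    intro x hx
    exact_mod_cast card_pos.2 ⟨x, self_mem hx⟩
  -- number of classes
  have h1 : ∑ x ∈ F, (1 : ℝ) / (Cl F N sg ∅ x).card ≤ m := by
    set g : (Fin n → Bool) → ({v // v ∉ N} → Bool) := fun x v => x v.1 with hg
    have hclass : ∀ x ∈ F, Cl F N sg ∅ x = F.filter (fun y => g y = g x) := by
      intro x _
      ext y
      rw [mem_Cl, mem_filter]
      constructor
      · rintro ⟨a, b, _⟩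
        exact ⟨a, funext fun v => b v.1 v.2⟩
      · rintro ⟨a, b⟩
        refine ⟨a, fun v hv => congrFun b ⟨v, hv⟩, fun j hj => absurd hj (notMem_empty j)⟩
    rw [← sum_fiberwise F g]
    calc ∑ c : {v // v ∉ N} → Bool, ∑ x ∈ F with g x = c, (1 : ℝ) / (Cl F N sg ∅ x).card
        ≤ ∑ c : {v // v ∉ N} → Bool, (1 : ℝ) := by
          apply sum_le_sum
          intro c _
          have : ∀ x ∈ F.filter (fun x => g x = c), (1 : ℝ) / (Cl F N sg ∅ x).card =
              1 / (F.filter (fun x => g x = c)).card := by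
            intro x hx
            rw [hclass x (mem_filter.1 hx).1, (mem_filter.1 hx).2]
          rw [sum_congr rfl this, sum_const, nsmul_eq_mul]
          by_cases h : (F.filter (fun x => g x = c)).card = 0
          · rw [h]; simp
          · have : ((F.filter (fun x => g x = c)).card : ℝ) ≠ 0 := by exact_mod_cast h
            rw [mul_one_div, div_self this]
      _ = m := by
          rw [sum_const, card_univ, nsmul_eq_mul, mul_one]
  have h2 : ∀ x ∈ F, Real.log F.card - Real.log m - Real.log ((Cl F N sg ∅ x).card) ≤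
      (F.card : ℝ) / m * (1 / (Cl F N sg ∅ x).card) - 1 := by
    intro x hx
    have hc := hCp x hx
    have h3 := Real.log_le_sub_one_of_pos (x := (F.card : ℝ) / m * (1 / (Cl F N sg ∅ x).card))
      (by positivity)
    rw [mul_one_div, Real.log_div (by positivity) hc.ne', Real.log_div hf.ne' hm0.ne'] at h3
    rw [mul_one_div]
    exact h3
  have h3 := sum_le_sum h2
  rw [sum_sub_distrib, sum_sub_distrib (s := F) (g := fun _ => (1 : ℝ)), ← mul_sum, sum_const, sum_const,
    nsmul_eq_mul, nsmul_eq_mul, mul_one] at h3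
  have h4 : (F.card : ℝ) / m * ∑ x ∈ F, (1 : ℝ) / (Cl F N sg ∅ x).card ≤ F.card / m * m :=
    mul_le_mul_of_nonneg_left h1 (by positivity)
  rw [div_mul_cancel₀ _ hm0.ne'] at h4
  rw [← hlm]
  linarith

theorem start (hF : F.Nonempty) :
    (N.card : ℝ) / 2 - (n * Real.log 2 - Real.log F.card) ≤ uJ F N sg ∅ := by
  have hf : (0 : ℝ) < F.card := by exact_mod_cast hF.card_pos
  unfold uJ
  rw [le_div_iff₀ hf]
  have h1 := avg_le (F := F) (N := N) (sg := sg) (J := ∅)
    (fun C _ => (N.card : ℝ) * (1 / 2 - Real.log 2) + Real.log C.card) (fun C x => ∑ v ∈ N, wf C v x) (by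
      intro x hx
      set C := Cl F N sg ∅ x with hCdef
      have hC : C.Nonempty := ⟨x, self_mem hx⟩
      rw [sum_add_distrib, sum_const, sum_const, nsmul_eq_mul, nsmul_eq_mul, sum_comm]
      have h2 := log_card_le C hC
      have h3 : ∑ x ∈ C, ∑ v, -Real.log (1 - wf C v x) = ∑ v ∈ N, ∑ x ∈ C, -Real.log (1 - wf C v x) := by
        rw [sum_comm (s := N)]
        apply sum_congr rfl
        intro y hy
        apply sum_univ_eq
        intro v hv
        rw [wf_zero]
        · simp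
        · intro z hz
          rw [(mem_Cl.1 hz).2.1 v hv, (mem_Cl.1 hy).2.1 v hv]
      rw [h3] at h2
      calc (C.card : ℝ) * ((N.card : ℝ) * (1 / 2 - Real.log 2)) + C.card * Real.log C.card
          ≤ (C.card : ℝ) * ((N.card : ℝ) * (1 / 2 - Real.log 2)) +
            ∑ v ∈ N, ∑ x ∈ C, -Real.log (1 - wf C v x) := by linarith
        _ = ∑ v ∈ N, ∑ x ∈ C, ((1 : ℝ) / 2 - Real.log 2 + -Real.log (1 - wf C v x)) := by
            simp only [sum_add_distrib, sum_const, nsmul_eq_mul]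
            ring
        _ ≤ _ := sum_le_sum fun v _ => one_coord C hC v)
  have h2 := log_class (F := F) (N := N) (sg := sg) hF
  have h3 : ∑ x ∈ F, ((N.card : ℝ) * (1 / 2 - Real.log 2) + Real.log (Cl F N sg ∅ x).card) =
      F.card * ((N.card : ℝ) * (1 / 2 - Real.log 2)) + ∑ x ∈ F, Real.log (Cl F N sg ∅ x).card := by
    rw [sum_add_distrib, sum_const, nsmul_eq_mul]
  have h4 : ∑ x ∈ F, ((N.card : ℝ) * (1 / 2 - Real.log 2) + Real.log (Cl F N sg ∅ x).card) ≤
      ∑ x ∈ F, ∑ v ∈ N, wf (Cl F N sg ∅ x) v x := h1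
  rw [h3] at h4
  linarith

theorem aS_zero : aS F N sg 0 = uJ F N sg ∅ / N.card := by
  unfold aS
  simp

end Sec3

theorem tSec3 : S_Sec3 := by
  intro K hK
  obtain ⟨C, hC, H⟩ := LINP.tRcr K hK
  refine ⟨C, hC, fun q hq => ?_⟩
  obtain ⟨r₀, H⟩ := H q hq
  refine ⟨r₀, fun r hr hqr => ?_⟩
  obtain ⟨δ₀, hδ₀, H⟩ := H r hr hqr
  refine ⟨δ₀, hδ₀, fun δ hδ hδ2 n β F sg dm N hF hN hS hT hKK hlog => ?_⟩
  have hin := hS.val
  have hcp := hS.cp
  have hn : (0 : ℝ) < N.card := by exact_mod_cast hN.card_pos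
  have key := H δ hδ hδ2 (Sec3.aS F N sg) (by
      rw [Sec3.aS_zero, le_div_iff₀ hn]
      have := Sec3.start (F := F) (N := N) (sg := sg) hF
      linarith) (fun s hs I hI => Sec3.lemma3 hF hN dm hin hcp K δ hT hKK s hs I hI)
    (Sec3.aS_le_one hF hN)
  set c₁ := Real.exp (-(C * Real.log q ^ 11)) with hc₁
  by_contra hcon
  push Not at hcon
  unfold Sec3.aS at key
  have hle : r - r / q ≤ r := Nat.sub_le _ _
  have hch : (0 : ℝ) < (r.choose (r - r / q) : ℝ) := by exact_mod_cast Nat.choose_pos hle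
  rw [le_div_iff₀ (by positivity)] at key
  have h2 : ∑ J ∈ powersetCard (r - r / q) (univ : Finset (Fin r)), uJ F N sg J <
      ∑ J ∈ powersetCard (r - r / q) (univ : Finset (Fin r)), c₁ * N.card := by
    apply sum_lt_sum_of_nonempty
    · rw [← card_pos, card_powersetCard, card_univ, Fintype.card_fin]
      exact Nat.choose_pos hle
    · intro J hJ
      exact hcon J (mem_powersetCard.1 hJ).2
  rw [sum_const, card_powersetCard, card_univ, Fintype.card_fin, nsmul_eq_mul] at h2
  have e : c₁ * ((r.choose (r - r / q) : ℝ) * N.card) = (r.choose (r - r / q) : ℝ) * (c₁ * N.card) := by ring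
  rw [e] at key
  linarith

end SRBP
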