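import Pool.Agent.Lib.MP_9dcf40_lc.LIN.Cols
import Pool.Agent.Lib.MP_9dcf40_lc.LIN.Sec3

/-!
# Theorem K (MP_9dcf40_lc): the weights are a probability
-/

namespace SRBP

namespace KwP

open Finset

variable {n : ℕ}

theorem bk_sum (S : Finset (Fin n)) (t : Fin n → ℝ) : ∑ V ∈ S.powerset, bk S t V = 1 := by
  unfold bk
  rw [← Finset.prod_add]
  apply prod_eq_one
  intro v _
  ring

theorem bk_insert {S : Finset (Fin n)} {a : Fin n} (ha : a ∉ S) (t : Fin n → ℝ)
    {V : Finset (Fin n)} (hV : V ⊆ S) :
    bk (insert a S) t V = (1 - t a) * bk S t V ∧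
      bk (insert a S) t (insert a V) = t a * bk S t V := by
  have haV : a ∉ V := fun h => ha (hV h)
  constructor
  · unfold bk
    have h1 : insert a S \ V = insert a (S \ V) := insert_sdiff_of_notMem _ haV
    rw [h1, prod_insert (by simp [ha])]
    ring
  · unfold bk
    have h1 : insert a S \ insert a V = S \ V := by
      ext x
      simp only [mem_sdiff, mem_insert, not_or]
      constructor
      · rintro ⟨h1 | h1, h2, h3⟩
        · exact absurd h1 h2
        · exact ⟨h1, h3⟩
      · rintro ⟨h1, h2⟩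
        exact ⟨Or.inr h1, fun h => ha (h ▸ h1), h2⟩
    rw [h1, prod_insert haV]
    ring

theorem bk_card (S : Finset (Fin n)) (t : Fin n → ℝ) :
    ∑ V ∈ S.powerset, bk S t V * (V.card : ℝ) = ∑ v ∈ S, t v := by
  classical
  induction S using Finset.induction_on with
  | empty => simp
  | insert a S ha ih =>
    rw [sum_powerset_insert ha, sum_insert ha]
    have h1 : ∀ V ∈ S.powerset, bk (insert a S) t V * (V.card : ℝ) =
        (1 - t a) * (bk S t V * (V.card : ℝ)) := by
      intro V hV
      rw [(bk_insert ha t (mem_powerset.1 hV)).1]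
      ring
    have h2 : ∀ V ∈ S.powerset, bk (insert a S) t (insert a V) * ((insert a V).card : ℝ) =
        t a * (bk S t V * (V.card : ℝ)) + t a * bk S t V := by
      intro V hV
      have haV : a ∉ V := fun h => ha (mem_powerset.1 hV h)
      rw [(bk_insert ha t (mem_powerset.1 hV)).2, card_insert_of_notMem haV]
      push_cast
      ring
    rw [sum_congr rfl h1, sum_congr rfl h2, sum_add_distrib, ← mul_sum, ← mul_sum, ← mul_sum, ih,
      bk_sum]
    ring

end KwP

open Finset KwP

theorem tKw : S_Kw := by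
  classical
  intro n r β F sg N G J v₀ hF hN hG hv hU
  have hFc : (0 : ℝ) < F.card := by exact_mod_cast card_pos.2 hF
  have hNc : (0 : ℝ) < N.card := by exact_mod_cast card_pos.2 hN
  have hUp : ∀ x ∈ F, 0 < UU F N sg J x := fun x hx => lt_of_lt_of_le (by positivity) (hU x hx)
  have ht0 : ∀ x ∈ F, ∀ v, 0 ≤ v₀ * N.card / UU F N sg J x * wf (Cl F N sg J x) v x := by
    intro x hx v
    have := hUp x hx
    have := Sec3.wf_nonneg (Cl F N sg J x) v x
    positivity
  have ht1 : ∀ x ∈ F, ∀ v, v₀ * N.card / UU F N sg J x * wf (Cl F N sg J x) v x ≤ 1 := by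
    intro x hx v
    have h1 : v₀ * N.card / UU F N sg J x ≤ 1 := (div_le_one (hUp x hx)).2 (hU x hx)
    exact mul_le_one₀ h1 (Sec3.wf_nonneg _ v x) (Sec3.wf_le_one _ v x)
  refine ⟨?_, ?_, ?_⟩
  · intro ω hω
    have hx : ω.1 ∈ F := (mem_product.1 hω).1
    unfold kw
    apply div_nonneg _ hFc.le
    unfold bk
    apply mul_nonneg
    · exact prod_nonneg fun v _ => ht0 _ hx v
    · exact prod_nonneg fun v _ => by linarith [ht1 _ hx v]
  · unfold Om
    rw [sum_product]
    have h1 : ∀ x ∈ F, ∑ V ∈ (N \ G).powerset, kw F N G sg J v₀ (x, V) = 1 / F.card := by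
      intro x _
      simp only [kw]
      rw [← sum_div, bk_sum]
    rw [sum_congr rfl h1, sum_const, nsmul_eq_mul]
    field_simp
  · unfold Om
    rw [sum_product]
    have h1 : ∀ x ∈ F, ∑ V ∈ (N \ G).powerset, kw F N G sg J v₀ (x, V) * (V.card : ℝ) =
        (v₀ * N.card / UU F N sg J x * ∑ v ∈ N, wf (Cl F N sg J x) v x -
          v₀ * N.card / UU F N sg J x * ∑ v ∈ G, wf (Cl F N sg J x) v x) / F.card := by
      intro x _
      simp only [kw]
      have h2 : ∀ V ∈ (N \ G).powerset, bk (N \ G) (fun v => v₀ * N.card / UU F N sg J x *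
          wf (Cl F N sg J x) v x) V / F.card * (V.card : ℝ) =
          bk (N \ G) (fun v => v₀ * N.card / UU F N sg J x *
          wf (Cl F N sg J x) v x) V * (V.card : ℝ) / F.card := fun V _ => by ring
      rw [sum_congr rfl h2, ← sum_div, bk_card, ← mul_sum, ← sum_sdiff hG]
      ring
    rw [sum_congr rfl h1, ← sum_div, sum_sub_distrib,
      Cols.sum_aw F N sg J (v₀ * N.card) (fun x hx => (hUp x hx).ne')]
    field_simp

end SRBP
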