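import Pool.Agent.Lib.MP_9dcf40_lc.LIN.Cols

/-!
# The rows (section 4)
-/

namespace SRBP

open Finset

namespace RowsB

open scoped Classical

variable {n : ℕ}

/-- Fraction of the points of `C` with the value `1` at `v`. -/
noncomputable def bb (C : Finset (Fin n → Bool)) (v : Fin n) : ℝ :=
  ((C.filter (fun y => y v = true)).card : ℝ) / C.card

theorem bb_nonneg (C : Finset (Fin n → Bool)) (v : Fin n) : 0 ≤ bb C v := by
  unfold bb; positivity

theorem bb_le (C : Finset (Fin n → Bool)) (v : Fin n) : bb C v ≤ 1 := by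
  unfold bb
  apply div_le_one_of_le₀ _ (Nat.cast_nonneg _)
  exact_mod_cast card_filter_le _ _

theorem wf_nonneg (C : Finset (Fin n → Bool)) (v : Fin n) (x : Fin n → Bool) : 0 ≤ wf C v x := by
  unfold wf; positivity

theorem wf_le (C : Finset (Fin n → Bool)) (v : Fin n) (x : Fin n → Bool) : wf C v x ≤ 1 := by
  unfold wf
  apply div_le_one_of_le₀ _ (Nat.cast_nonneg _)
  exact_mod_cast card_filter_le _ _

theorem wf_eq {C : Finset (Fin n → Bool)} (hC : C.Nonempty) (v : Fin n) (x : Fin n → Bool) :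
    wf C v x = if x v = true then 1 - bb C v else bb C v := by
  have hpos : (0 : ℝ) < C.card := by exact_mod_cast hC.card_pos
  unfold wf bb
  by_cases hx : x v = true
  · rw [if_pos hx, hx, eq_sub_iff_add_eq, ← add_div, div_eq_one_iff_eq hpos.ne']
    have h := Finset.card_filter_add_card_filter_not (s := C) (fun y => y v = true)
    have h3 : ((C.filter (fun y => ¬ y v = true)).card : ℝ) + (C.filter (fun y => y v = true)).card
        = C.card := by
      exact_mod_cast (by rw [add_comm]; exact h)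
    refine Eq.trans ?_ h3
    congr
  · have hx' : x v = false := by simpa using hx
    rw [if_neg hx, hx']
    congr 3
    ext y
    simp

theorem wf_lt {C : Finset (Fin n → Bool)} (v : Fin n) {x : Fin n → Bool} (hx : x ∈ C) :
    wf C v x < 1 := by
  have hpos : (0 : ℝ) < C.card := by exact_mod_cast card_pos.mpr ⟨x, hx⟩
  unfold wf
  rw [div_lt_one hpos]
  have : (C.filter (fun y => y v ≠ x v)).card < C.card := by
    apply card_lt_card
    rw [filter_ssubset]
    exact ⟨x, hx, by simp⟩
  exact_mod_cast this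

/-- Weight of a set `S ⊆ G` (product reference measure). -/
noncomputable def q2 (G : Finset (Fin n)) (ζ : ℝ) (S : Finset (Fin n)) : ℝ :=
  ∏ v, (if v ∈ S then (if v ∈ G then ζ else 0) else (if v ∈ G then 1 - ζ else 1))

theorem q2_nonneg (G : Finset (Fin n)) {ζ : ℝ} (h0 : 0 ≤ ζ) (h1 : ζ ≤ 1) (S : Finset (Fin n)) :
    0 ≤ q2 G ζ S := by
  unfold q2
  apply prod_nonneg
  intro v _
  split_ifs <;> linarith

theorem q2_sum (G : Finset (Fin n)) (ζ : ℝ) : ∑ S, q2 G ζ S = 1 := by
  unfold q2
  have h := Cols.sum_sets (fun v => if v ∈ G then ζ else 0) (fun v => if v ∈ G then 1 - ζ else 1)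
  refine Eq.trans ?_ (h.trans ?_)
  · apply sum_congr rfl
    intro S _
    apply prod_congr rfl
    intro v _
    congr
  · apply prod_eq_one
    intro v _
    split_ifs <;> ring

theorem q2_log (G : Finset (Fin n)) {ζ : ℝ} (h0 : 0 < ζ) (h1 : ζ < 1) {S : Finset (Fin n)}
    (hS : S ⊆ G) : 0 < q2 G ζ S ∧
    Real.log (q2 G ζ S) = S.card * Real.log ζ + (G.card - S.card) * Real.log (1 - ζ) := by
  have hpos : ∀ v : Fin n, 0 < (if v ∈ S then (if v ∈ G then ζ else 0) else
      (if v ∈ G then 1 - ζ else 1)) := by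
    intro v
    by_cases hv : v ∈ S
    · simp [hv, hS hv, h0]
    · by_cases hg : v ∈ G
      · simp [hv, hg]; linarith
      · simp [hv, hg]
  unfold q2
  refine ⟨prod_pos fun v _ => hpos v, ?_⟩
  rw [Real.log_prod (fun v _ => (hpos v).ne')]
  have e : ∀ v : Fin n, Real.log (if v ∈ S then (if v ∈ G then ζ else 0) else
      (if v ∈ G then 1 - ζ else 1)) = (if v ∈ S then Real.log ζ else 0) +
      (if v ∈ G \ S then Real.log (1 - ζ) else 0) := by
    intro v
    by_cases hv : v ∈ S
    · simp [hv, hS hv]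
    · by_cases hg : v ∈ G <;> simp [hv, hg]
  rw [sum_congr rfl fun v _ => e v, sum_add_distrib, Finset.sum_ite_mem, Finset.sum_ite_mem,
    univ_inter, univ_inter, sum_const, sum_const, nsmul_eq_mul, nsmul_eq_mul, card_sdiff_of_subset hS,
    Nat.cast_sub (card_le_card hS)]

/-- The function of the subcube `(V, x outside V)`. -/
noncomputable def ph (C : Finset (Fin n → Bool)) (β : Fin n → ℝ) (V : Finset (Fin n))
    (x : Fin n → Bool) : ℝ :=
  ∏ v, (if v ∈ V then 2 * (β v * (bb C v * (1 - bb C v))) else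
    (if x v = true then bb C v * (1 - β v * (1 - bb C v)) else (1 - bb C v) * (1 - β v * bb C v)))

theorem ph_nonneg (C : Finset (Fin n → Bool)) {β : Fin n → ℝ} (h0 : ∀ v, 0 ≤ β v)
    (h1 : ∀ v, β v ≤ 1) (V : Finset (Fin n)) (x : Fin n → Bool) : 0 ≤ ph C β V x := by
  unfold ph
  apply prod_nonneg
  intro v _
  have a0 := bb_nonneg C v
  have a1 := bb_le C v
  have b0 := h0 v
  have b1 := h1 v
  split_ifs
  · have : 0 ≤ 1 - bb C v := by linarith
    positivity
  · apply mul_nonneg a0
    nlinarith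
  · apply mul_nonneg (by linarith)
    nlinarith

theorem sum_ph (C : Finset (Fin n → Bool)) {β : Fin n → ℝ} (h0 : ∀ v, 0 ≤ β v)
    (h1 : ∀ v, β v ≤ 1) (G : Finset (Fin n)) (ζ : ℝ) (hz0 : 0 ≤ ζ) (hz1 : ζ ≤ 1)
    (D : (Fin n → Bool) → Finset (Fin n)) (V : Finset (Fin n)) :
    ∑ x ∈ C, ph C β V x * q2 G ζ (D x) /
      ((C.filter (fun y => HitT.off V y = HitT.off V x ∧ D y = D x)).card : ℝ) ≤
    ∏ v, (if v ∈ V then 2 * (β v * (bb C v * (1 - bb C v))) else
      1 - 2 * (β v * (bb C v * (1 - bb C v)))) := by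
  have hoff : ∀ x, ph C β V x = ph C β V (HitT.off V x) := by
    intro x
    unfold ph
    apply prod_congr rfl
    intro v _
    by_cases hv : v ∈ V
    · simp [hv]
    · simp [hv, HitT.off]
  -- group by the pairs
  set g : (Fin n → Bool) → (Fin n → Bool) × Finset (Fin n) := fun x => (HitT.off V x, D x) with hg
  have hmaps : ∀ x ∈ C, g x ∈ C.image g := fun x hx => mem_image_of_mem g hx
  have h2 : ∑ x ∈ C, ph C β V x * q2 G ζ (D x) /
      ((C.filter (fun y => HitT.off V y = HitT.off V x ∧ D y = D x)).card : ℝ) ≤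
      ∑ z ∈ C.image g, ph C β V z.1 * q2 G ζ z.2 := by
    rw [← Finset.sum_fiberwise_of_maps_to hmaps]
    apply sum_le_sum
    intro z hz
    have hz0' : 0 ≤ ph C β V z.1 * q2 G ζ z.2 :=
      mul_nonneg (ph_nonneg C h0 h1 V _) (q2_nonneg G hz0 hz1 _)
    have e1 : ∀ x ∈ C.filter (fun x => g x = z), ph C β V x * q2 G ζ (D x) /
        ((C.filter (fun y => HitT.off V y = HitT.off V x ∧ D y = D x)).card : ℝ) =
        ph C β V z.1 * q2 G ζ z.2 / ((C.filter (fun x => g x = z)).card : ℝ) := by
      intro x hx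
      obtain ⟨_, hxz⟩ := mem_filter.mp hx
      have e2 : HitT.off V x = z.1 := by rw [← hxz]
      have e3 : D x = z.2 := by rw [← hxz]
      rw [hoff x, e2, e3]
      congr 3
      ext y
      simp only [mem_filter, hg, Prod.ext_iff]
    rw [sum_congr rfl e1, sum_const, nsmul_eq_mul]
    by_cases hc : ((C.filter (fun x => g x = z)).card : ℝ) = 0
    · rw [hc]; simpa using hz0'
    · rw [mul_div_cancel₀ _ hc]
  refine h2.trans ?_
  have h3 : C.image g ⊆ (C.image (HitT.off V)) ×ˢ (univ : Finset (Finset (Fin n))) := by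
    intro z hz
    obtain ⟨x, hx, rfl⟩ := mem_image.mp hz
    exact mem_product.mpr ⟨mem_image_of_mem _ hx, mem_univ _⟩
  refine (sum_le_sum_of_subset_of_nonneg h3 fun z _ _ =>
    mul_nonneg (ph_nonneg C h0 h1 V _) (q2_nonneg G hz0 hz1 _)).trans ?_
  rw [sum_product]
  simp_rw [← mul_sum, q2_sum, mul_one]
  have h4 : C.image (HitT.off V) ⊆
      Fintype.piFinset (fun v => if v ∈ V then ({false} : Finset Bool) else univ) := by
    intro c hc
    obtain ⟨x, _, rfl⟩ := mem_image.mp hc
    rw [Fintype.mem_piFinset]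
    intro v
    by_cases hv : v ∈ V
    · simp [hv, HitT.off]
    · simp [hv]
  refine (sum_le_sum_of_subset_of_nonneg h4 fun c _ _ => ph_nonneg C h0 h1 V c).trans (le_of_eq ?_)
  unfold ph
  rw [← Finset.prod_univ_sum (fun v => if v ∈ V then ({false} : Finset Bool) else univ)
    (fun v j => (if v ∈ V then 2 * (β v * (bb C v * (1 - bb C v))) else
    (if j = true then bb C v * (1 - β v * (1 - bb C v)) else (1 - bb C v) * (1 - β v * bb C v))))]
  apply prod_congr rfl
  intro v _
  by_cases hv : v ∈ V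
  · simp [hv]
  · simp only [hv, if_false]
    rw [Fintype.sum_bool]
    simp only [if_true, Bool.false_eq_true, if_false]
    ring

theorem sum_ph_all (C : Finset (Fin n → Bool)) {β : Fin n → ℝ} (h0 : ∀ v, 0 ≤ β v)
    (h1 : ∀ v, β v ≤ 1) (G : Finset (Fin n)) (ζ : ℝ) (hz0 : 0 ≤ ζ) (hz1 : ζ ≤ 1)
    (D : (Fin n → Bool) → Finset (Fin n)) :
    ∑ V : Finset (Fin n), ∑ x ∈ C, ph C β V x * q2 G ζ (D x) /
      ((C.filter (fun y => HitT.off V y = HitT.off V x ∧ D y = D x)).card : ℝ) ≤ 1 := by
  refine (sum_le_sum fun V _ => sum_ph C h0 h1 G ζ hz0 hz1 D V).trans ?_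
  have h := Cols.sum_sets (fun v => 2 * (β v * (bb C v * (1 - bb C v))))
    (fun v => 1 - 2 * (β v * (bb C v * (1 - bb C v))))
  refine le_of_eq (Eq.trans ?_ (h.trans ?_))
  · apply sum_congr rfl
    intro V _
    apply prod_congr rfl
    intro v _
    congr
  · apply prod_eq_one
    intro v _
    ring

/-- One pair. -/
theorem one_pair (C : Finset (Fin n → Bool)) {β : Fin n → ℝ} (h0 : ∀ v, 0 ≤ β v)
    (h1 : ∀ v, β v ≤ 1) (G : Finset (Fin n)) (ζ : ℝ) (hz0 : 0 < ζ) (hz1 : ζ < 1)
    (D : (Fin n → Bool) → Finset (Fin n)) {x : Fin n → Bool} (hx : x ∈ C) (hD : D x ⊆ G)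
    (V : Finset (Fin n)) :
    kk (fun v => β v * wf C v x) V * (Real.log C.card + ∑ v, Real.log (1 - wf C v x) +
      V.card * Real.log 2 + Real.log (q2 G ζ (D x)) -
      Real.log ((C.filter (fun y => HitT.off V y = HitT.off V x ∧ D y = D x)).card)) ≤
    C.card * (ph C β V x * q2 G ζ (D x) /
      ((C.filter (fun y => HitT.off V y = HitT.off V x ∧ D y = D x)).card : ℝ)) -
      kk (fun v => β v * wf C v x) V := by
  have hC : C.Nonempty := ⟨x, hx⟩
  have hCpos : (0 : ℝ) < C.card := by exact_mod_cast hC.card_pos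
  have hα0 : ∀ v, 0 ≤ β v * wf C v x := fun v => mul_nonneg (h0 v) (wf_nonneg C v x)
  have hα1 : ∀ v, β v * wf C v x ≤ 1 := fun v => mul_le_one₀ (h1 v) (wf_nonneg C v x) (wf_le C v x)
  have hα1' : ∀ v, β v * wf C v x < 1 := by
    intro v
    have a := wf_lt (C := C) v hx
    have b := wf_nonneg C v x
    nlinarith [h0 v, h1 v]
  have hk0 := Cols.kk_nonneg hα0 hα1 V
  have hrpos : (0 : ℝ) < (C.filter (fun y => HitT.off V y = HitT.off V x ∧ D y = D x)).card := by
    have : 0 < (C.filter (fun y => HitT.off V y = HitT.off V x ∧ D y = D x)).card :=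
      card_pos.mpr ⟨x, mem_filter.mpr ⟨hx, rfl, rfl⟩⟩
    exact_mod_cast this
  have hq := (q2_log G hz0 hz1 hD).1
  rcases hk0.eq_or_lt with hz | hpos
  · rw [← hz]
    have := ph_nonneg C h0 h1 V x
    have : 0 ≤ C.card * (ph C β V x * q2 G ζ (D x) /
      ((C.filter (fun y => HitT.off V y = HitT.off V x ∧ D y = D x)).card : ℝ)) := by positivity
    linarith
  have hVpos : ∀ v ∈ V, 0 < β v * wf C v x := by
    intro v hv
    exact lt_of_le_of_ne (hα0 v) (Ne.symm (Cols.kk_ne hpos.ne' v hv))
  have hbw : ∀ v, bb C v * (1 - bb C v) = (1 - wf C v x) * wf C v x := by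
    intro v
    rw [wf_eq hC]
    split_ifs <;> ring
  have hbn : ∀ v, (if x v = true then bb C v * (1 - β v * (1 - bb C v)) else
      (1 - bb C v) * (1 - β v * bb C v)) = (1 - wf C v x) * (1 - β v * wf C v x) := by
    intro v
    rw [wf_eq hC]
    split_ifs <;> ring
  have hp : ∀ v, 0 < 1 - wf C v x := fun v => by have := wf_lt (C := C) v hx; linarith
  -- the product
  have hph : ph C β V x = kk (fun v => β v * wf C v x) V * ((∏ v, (1 - wf C v x)) * 2 ^ V.card) := by
    have e2 : (2 : ℝ) ^ V.card = ∏ v, (if v ∈ V then 2 else 1) := by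
      rw [Finset.prod_ite_mem, univ_inter, prod_const]
    unfold ph kk
    rw [e2, ← prod_mul_distrib, ← prod_mul_distrib]
    apply prod_congr rfl
    intro v _
    by_cases hv : v ∈ V
    · simp only [hv, if_true]
      rw [hbw]; ring
    · simp only [hv, if_false]
      rw [hbn]; ring
  have hP : 0 < ∏ v, (1 - wf C v x) := prod_pos fun v _ => hp v
  set k := kk (fun v => β v * wf C v x) V with hk
  set rr := ((C.filter (fun y => HitT.off V y = HitT.off V x ∧ D y = D x)).card : ℝ) with hrr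
  have h3 := Real.log_le_sub_one_of_pos (x := C.card * ((∏ v, (1 - wf C v x)) * 2 ^ V.card *
    q2 G ζ (D x) / rr)) (by positivity)
  rw [Real.log_mul hCpos.ne' (by positivity), Real.log_div (by positivity) hrpos.ne',
    Real.log_mul (by positivity) hq.ne', Real.log_mul hP.ne' (by positivity), Real.log_pow,
    Real.log_prod (fun v _ => (hp v).ne')] at h3
  have h4 := mul_le_mul_of_nonneg_left h3 hpos.le
  have e5 : k * (C.card * ((∏ v, (1 - wf C v x)) * 2 ^ V.card * q2 G ζ (D x) / rr) - 1) =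
      C.card * (ph C β V x * q2 G ζ (D x) / rr) - k := by
    rw [hph]; ring
  rw [e5] at h4
  refine le_trans (le_of_eq ?_) h4
  ring

/-- One class. -/
theorem one_class (C : Finset (Fin n → Bool)) {β : Fin n → ℝ} (h0 : ∀ v, 0 ≤ β v)
    (h1 : ∀ v, β v ≤ 1) (G : Finset (Fin n)) (ζ : ℝ) (hz0 : 0 < ζ) (hz1 : ζ < 1)
    (D : (Fin n → Bool) → Finset (Fin n)) (hD : ∀ x ∈ C, D x ⊆ G) :
    ∑ x ∈ C, ∑ V : Finset (Fin n), kk (fun v => β v * wf C v x) V * (V.card * Real.log 2 -
      Real.log ((C.filter (fun y => HitT.off V y = HitT.off V x ∧ D y = D x)).card)) ≤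
    (∑ x ∈ C, ∑ v, -Real.log (1 - wf C v x)) - C.card * Real.log C.card +
      ∑ x ∈ C, -Real.log (q2 G ζ (D x)) := by
  have h2 := sum_le_sum fun x hx => sum_le_sum fun V (_ : V ∈ (univ : Finset (Finset (Fin n)))) =>
    one_pair C h0 h1 G ζ hz0 hz1 D hx (hD x hx) V
  simp_rw [sum_sub_distrib, Cols.sum_kk, ← mul_sum] at h2
  have h3 : ∀ x ∈ C, ∑ V : Finset (Fin n), kk (fun v => β v * wf C v x) V * (Real.log C.card +
      ∑ v, Real.log (1 - wf C v x) + V.card * Real.log 2 + Real.log (q2 G ζ (D x)) -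
      Real.log ((C.filter (fun y => HitT.off V y = HitT.off V x ∧ D y = D x)).card)) =
      (Real.log C.card + ∑ v, Real.log (1 - wf C v x) + Real.log (q2 G ζ (D x))) +
      ∑ V : Finset (Fin n), kk (fun v => β v * wf C v x) V * (V.card * Real.log 2 -
      Real.log ((C.filter (fun y => HitT.off V y = HitT.off V x ∧ D y = D x)).card)) := by
    intro x _
    have e : ∀ V : Finset (Fin n), kk (fun v => β v * wf C v x) V * (Real.log C.card +
      ∑ v, Real.log (1 - wf C v x) + V.card * Real.log 2 + Real.log (q2 G ζ (D x)) -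
      Real.log ((C.filter (fun y => HitT.off V y = HitT.off V x ∧ D y = D x)).card)) =
      kk (fun v => β v * wf C v x) V * (Real.log C.card + ∑ v, Real.log (1 - wf C v x) +
        Real.log (q2 G ζ (D x))) +
      kk (fun v => β v * wf C v x) V * (V.card * Real.log 2 -
      Real.log ((C.filter (fun y => HitT.off V y = HitT.off V x ∧ D y = D x)).card)) := by
      intro V; ring
    rw [sum_congr rfl fun V _ => e V, sum_add_distrib, ← sum_mul, Cols.sum_kk, one_mul]
  rw [sum_congr rfl h3, sum_add_distrib, sum_add_distrib, sum_add_distrib, sum_const,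
    nsmul_eq_mul, sum_const, nsmul_eq_mul, mul_one, sum_comm (s := C)
    (f := fun x V => ph C β V x * q2 G ζ (D x) / _)] at h2
  have h4 := sum_ph_all C h0 h1 G ζ hz0.le hz1.le D
  have h5 := mul_le_mul_of_nonneg_left h4 (Nat.cast_nonneg (α := ℝ) C.card)
  simp_rw [sum_neg_distrib]
  linarith

theorem le_over_classes {r : ℕ} {γ : Type} (F : Finset (Fin n → Bool)) (N : Finset (Fin n))
    (sg : Fin r → (Fin n → Bool) → γ) (J : Finset (Fin r)) (φ ψ : (Fin n → Bool) → ℝ)
    (h : ∀ x ∈ F, ∑ y ∈ Cl F N sg J x, φ y ≤ ∑ y ∈ Cl F N sg J x, ψ y) :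
    ∑ x ∈ F, φ x ≤ ∑ x ∈ F, ψ x := by
  have h1 : ∀ x ∈ F, Cl F N sg J x ∈ F.image (Cl F N sg J) := fun x hx => mem_image_of_mem _ hx
  rw [← Finset.sum_fiberwise_of_maps_to h1, ← Finset.sum_fiberwise_of_maps_to (f := ψ) h1]
  apply sum_le_sum
  intro C hC
  obtain ⟨x, hx, rfl⟩ := mem_image.mp hC
  have e : F.filter (fun y => Cl F N sg J y = Cl F N sg J x) = Cl F N sg J x := by
    ext y
    rw [mem_filter]
    constructor
    · rintro ⟨hy, h2⟩
      rw [← h2]
      exact Cols.self_mem_Cl hy
    · intro hy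
      exact ⟨(Cols.mem_Cl.mp hy).1, Cols.Cl_eq hy⟩
  rw [e]
  exact h x hx

end RowsB

open scoped Classical in
theorem tRows56 : S_Rows := by
  intro n r γ F sg dm N G J v₀ ζ hF hN hGN hv0 hUU hz0 hz1 hζ
  have hFpos : (0 : ℝ) < F.card := by exact_mod_cast hF.card_pos
  have hNpos : (0 : ℝ) < N.card := by exact_mod_cast hN.card_pos
  have hUpos : ∀ x ∈ F, 0 < UU F N sg J x := fun x hx => lt_of_lt_of_le (by positivity) (hUU x hx)
  set D : (Fin n → Bool) → Finset (Fin n) := fun y => DJ sg dm Jᶜ y ∩ G with hD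
  set bt : (Fin n → Bool) → Fin n → ℝ := fun x v => if v ∈ N \ G then v₀ * N.card / UU F N sg J x
    else 0 with hbt
  have hbt0 : ∀ x ∈ F, ∀ v, 0 ≤ bt x v := by
    intro x hx v
    have := hUpos x hx
    rw [hbt]
    simp only
    split_ifs
    · positivity
    · exact le_rfl
  have hbt1 : ∀ x ∈ F, ∀ v, bt x v ≤ 1 := by
    intro x hx v
    rw [hbt]
    simp only
    split_ifs
    · rw [div_le_one (hUpos x hx)]
      exact hUU x hx
    · exact zero_le_one
  set α : (Fin n → Bool) → Fin n → ℝ := fun x v => bt x v * wf (Cl F N sg J x) v x with hα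
  have hαeq : ∀ x, α x = fun v => if v ∈ N \ G then
      (fun v => v₀ * N.card / UU F N sg J x * wf (Cl F N sg J x) v x) v else 0 := by
    intro x
    funext v
    rw [hα, hbt]
    simp only
    split_ifs
    · rfl
    · rw [zero_mul]
  -- the sum over the pairs
  have hOm : ∀ φ : (Fin n → Bool) → Finset (Fin n) → ℝ,
      ∑ ω ∈ Om F N G, kw F N G sg J v₀ ω * φ ω.1 ω.2 =
      (∑ x ∈ F, ∑ V : Finset (Fin n), kk (α x) V * φ x V) / F.card := by
    intro φ
    unfold Om kw
    rw [sum_product, sum_div]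
    apply sum_congr rfl
    intro x _
    rw [sum_div]
    have e2 : ∀ V : Finset (Fin n), kk (α x) V * φ x V / F.card =
        if V ∈ (N \ G).powerset then bk (N \ G)
          (fun v => v₀ * N.card / UU F N sg J x * wf (Cl F N sg J x) v x) V / F.card * φ x V
        else 0 := by
      intro V
      have := Cols.kk_bk (N \ G) (fun v => v₀ * N.card / UU F N sg J x *
        wf (Cl F N sg J x) v x) V
      have e3 : kk (α x) V = if V ⊆ N \ G then bk (N \ G)
          (fun v => v₀ * N.card / UU F N sg J x * wf (Cl F N sg J x) v x) V else 0 := by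
        rw [hαeq x]
        exact this
      rw [e3]
      simp only [mem_powerset]
      split_ifs
      · ring
      · simp
    rw [sum_congr rfl fun V _ => e2 V, Finset.sum_ite_mem, univ_inter]
  have h1 := hOm (fun x V => V.card * Real.log 2 - Real.log (rows F G sg dm J (x, V)).card)
  have h1' : ∑ ω ∈ Om F N G, kw F N G sg J v₀ ω * (ω.2.card * Real.log 2 -
      Real.log (rows F G sg dm J ω).card) = (∑ x ∈ F, ∑ V : Finset (Fin n), kk (α x) V *
      (V.card * Real.log 2 - Real.log (rows F G sg dm J (x, V)).card)) / F.card := h1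
  rw [h1', div_le_iff₀ hFpos]
  -- rows in terms of the class
  have hrows : ∀ x ∈ F, ∀ V : Finset (Fin n), kk (α x) V *
      (V.card * Real.log 2 - Real.log (rows F G sg dm J (x, V)).card) =
      kk (α x) V * (V.card * Real.log 2 - Real.log (((Cl F N sg J x).filter (fun y =>
        HitT.off V y = HitT.off V x ∧ D y = D x)).card)) := by
    intro x _ V
    by_cases hV : V ⊆ N \ G
    · have hset : rows F G sg dm J (x, V) = (Cl F N sg J x).filter (fun y =>
          HitT.off V y = HitT.off V x ∧ D y = D x) := ?_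
      · rw [hset]
      ext y
      unfold rows
      simp only [mem_filter, Cols.mem_Cl]
      have e4 : (∀ v, v ∉ V → y v = x v) ↔ HitT.off V y = HitT.off V x := by
        constructor
        · intro h
          funext v
          unfold HitT.off
          by_cases hv : v ∈ V
          · simp [hv]
          · simp [hv, h v hv]
        · intro h v hv
          have := congrFun h v
          unfold HitT.off at this
          simpa [hv] using this
      constructor
      · rintro ⟨a, b, c, d⟩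
        exact ⟨⟨a, fun v hv => b v (fun hvV => hv (mem_sdiff.mp (hV hvV)).1), c⟩, e4.mp b, d⟩
      · rintro ⟨⟨a, _, c⟩, b, d⟩
        exact ⟨a, e4.mpr b, c, d⟩
    · have : kk (α x) V = 0 := by
        rw [hαeq x, Cols.kk_bk, if_neg hV]
      rw [this, zero_mul, zero_mul]
  rw [sum_congr rfl fun x hx => sum_congr rfl fun V _ => hrows x hx V]
  -- class by class
  have h2 : ∑ x ∈ F, ∑ V : Finset (Fin n), kk (α x) V * (V.card * Real.log 2 -
      Real.log (((Cl F N sg J x).filter (fun y =>
        HitT.off V y = HitT.off V x ∧ D y = D x)).card)) ≤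
      ∑ x ∈ F, (TCf (Cl F N sg J x) + -Real.log (RowsB.q2 G ζ (D x))) := by
    apply RowsB.le_over_classes F N sg J
    intro x hx
    set C := Cl F N sg J x with hCdef
    have hC : C.Nonempty := ⟨x, Cols.self_mem_Cl hx⟩
    have hCpos : (0 : ℝ) < C.card := by exact_mod_cast hC.card_pos
    have hcl : ∀ y ∈ C, Cl F N sg J y = C := fun y hy => Cols.Cl_eq hy
    have hUy : ∀ y ∈ C, bt y = bt x := by
      intro y hy
      have : UU F N sg J y = UU F N sg J x := by
        unfold UU
        rw [Cols.Cl_eq hy]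
      funext v
      rw [hbt]
      simp only [this]
    have e1 : ∑ y ∈ C, ∑ V : Finset (Fin n), kk (α y) V * (V.card * Real.log 2 -
        Real.log (((Cl F N sg J y).filter (fun z =>
          HitT.off V z = HitT.off V y ∧ D z = D y)).card)) =
        ∑ y ∈ C, ∑ V : Finset (Fin n), kk (fun v => bt x v * wf C v y) V * (V.card * Real.log 2 -
        Real.log ((C.filter (fun z => HitT.off V z = HitT.off V y ∧ D z = D y)).card)) := by
      apply sum_congr rfl
      intro y hy
      have : α y = fun v => bt x v * wf C v y := by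
        rw [hα]
        simp only
        rw [hcl y hy, hUy y hy]
      rw [this, hcl y hy]
    rw [e1]
    have h3 := RowsB.one_class C (hbt0 x hx) (hbt1 x hx) G ζ hz0 (by linarith) D
      (fun y _ => inter_subset_right)
    have e2 : ∑ y ∈ C, (TCf (Cl F N sg J y) + -Real.log (RowsB.q2 G ζ (D y))) =
        (∑ y ∈ C, ∑ v, -Real.log (1 - wf C v y)) - C.card * Real.log C.card +
          ∑ y ∈ C, -Real.log (RowsB.q2 G ζ (D y)) := by
      rw [sum_add_distrib]
      congr 1
      rw [sum_congr rfl (g := fun _ => TCf C) (fun y hy => by rw [hcl y hy]), sum_const,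
        nsmul_eq_mul]
      unfold TCf
      rw [mul_sub, mul_div_cancel₀ _ hCpos.ne']
    rw [e2]
    refine le_trans (le_of_eq ?_) h3
    apply sum_congr rfl
    intro y _
    apply sum_congr rfl
    intro V _
    congr
  refine h2.trans ?_
  rw [sum_add_distrib]
  have h4 : ∑ x ∈ F, TCf (Cl F N sg J x) = tJ F N sg J * F.card := by
    unfold tJ
    rw [div_mul_cancel₀ _ hFpos.ne']
  have h5 : ∑ x ∈ F, -Real.log (RowsB.q2 G ζ (D x)) ≤ G.card * Real.binEntropy ζ * F.card := by
    have h6 : ∀ x ∈ F, -Real.log (RowsB.q2 G ζ (D x)) = ((D x).card : ℝ) *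
        (Real.log (1 - ζ) - Real.log ζ) - G.card * Real.log (1 - ζ) := by
      intro x _
      rw [(RowsB.q2_log G hz0 (by linarith) (inter_subset_right : D x ⊆ G)).2]
      ring
    rw [sum_congr rfl h6, sum_sub_distrib, ← sum_mul, sum_const, nsmul_eq_mul]
    have h7 : Real.log ζ ≤ Real.log (1 - ζ) := Real.log_le_log hz0 (by linarith)
    have h8 : Real.binEntropy ζ = -(ζ * Real.log ζ) - (1 - ζ) * Real.log (1 - ζ) := by
      rw [Real.binEntropy_eq_negMulLog_add_negMulLog_one_sub]
      unfold Real.negMulLog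
      ring
    rw [h8]
    have h9 := mul_le_mul_of_nonneg_right hζ (sub_nonneg.mpr h7)
    have h10 : ∑ x ∈ F, ((D x).card : ℝ) = ∑ x ∈ F, ((DJ sg dm Jᶜ x ∩ G).card : ℝ) := rfl
    rw [h10]
    nlinarith
  rw [h4]
  linarith

end SRBP
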