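import Pool.Agent.Lib.MP_9dcf40_lc.LIN.ScaleB

/-!
# The scale (Lemma 2): choice of the scale and of the set
-/

namespace LINS

open Finset

theorem sum_bad {n : ℕ} (r : ℕ) {α : Type} (F : Finset α) (D : α → Fin r → Finset (Fin n)) (l m : ℕ)
    (hm : m < n) (hl : n ≤ r * l) (hD : ∀ x ∈ F, ∀ j, (D x j).card ≤ l) :
    ∑ π : Equiv.Perm (Fin n), ((F.filter (fun x => ∃ j, 2 * ((l : ℝ) / n) * ((n : ℝ) - m) <
      ((D x j ∩ (fs π m)ᶜ).card : ℝ))).card : ℝ) ≤
      F.card * (r * (Fintype.card (Equiv.Perm (Fin n)) * (r / ((n : ℝ) - m)))) := by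
  classical
  calc ∑ π : Equiv.Perm (Fin n), ((F.filter (fun x => ∃ j, 2 * ((l : ℝ) / n) * ((n : ℝ) - m) <
      ((D x j ∩ (fs π m)ᶜ).card : ℝ))).card : ℝ)
      ≤ ∑ π : Equiv.Perm (Fin n), ∑ x ∈ F, ∑ j : Fin r,
        (if 2 * ((l : ℝ) / n) * ((n : ℝ) - m) < ((D x j ∩ (fs π m)ᶜ).card : ℝ)
          then (1 : ℝ) else 0) := by
        apply sum_le_sum
        intro π _
        rw [← mul_one (((F.filter (fun x => ∃ j, 2 * ((l : ℝ) / n) * ((n : ℝ) - m) <
          ((D x j ∩ (fs π m)ᶜ).card : ℝ))).card : ℝ)), ← nsmul_eq_mul, ← sum_const, sum_filter]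
        apply sum_le_sum
        intro x _
        split_ifs with h
        · obtain ⟨j, hj⟩ := h
          calc (1 : ℝ) = (if 2 * ((l : ℝ) / n) * ((n : ℝ) - m) < ((D x j ∩ (fs π m)ᶜ).card : ℝ)
                then (1 : ℝ) else 0) := by rw [if_pos hj]
            _ ≤ _ := single_le_sum (f := fun j : Fin r =>
                (if 2 * ((l : ℝ) / n) * ((n : ℝ) - m) < ((D x j ∩ (fs π m)ᶜ).card : ℝ)
                  then (1 : ℝ) else 0)) (fun j _ => by
                    show (0 : ℝ) ≤ if _ then (1 : ℝ) else 0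
                    split_ifs <;> norm_num) (mem_univ j)
        · exact sum_nonneg fun j _ => by split_ifs <;> norm_num
    _ = ∑ x ∈ F, ∑ j : Fin r, ((univ.filter (fun π : Equiv.Perm (Fin n) =>
          2 * ((l : ℝ) / n) * ((n : ℝ) - m) < ((D x j ∩ (fs π m)ᶜ).card : ℝ))).card : ℝ) := by
        rw [sum_comm]
        apply sum_congr rfl
        intro x _
        rw [sum_comm]
        apply sum_congr rfl
        intro j _
        rw [← sum_filter, sum_const, nsmul_eq_mul, mul_one]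
    _ ≤ ∑ _x ∈ F, ∑ _j : Fin r, (Fintype.card (Equiv.Perm (Fin n)) * (r / ((n : ℝ) - m))) := by
        apply sum_le_sum
        intro x hx
        apply sum_le_sum
        intro j _
        exact bad_perm (D x j) m l r hm (hD x hx j) hl
    _ = _ := by simp

/-- The abstract form of Lemma 2. -/
theorem scale_abs (ι : Type) [Fintype ι] (r : ℕ) (δ : ℝ) (hδ : 0 < δ) :
    ∃ ν : ℝ, 0 < ν ∧ ∃ n0 : ℕ, ∀ n ≥ n0, ∀ h : ι → Finset (Fin n) → ℝ, (∀ a, Sub (h a)) →
      ∀ (α : Type) (F : Finset α) (D : α → Fin r → Finset (Fin n)) (l : ℕ), F.Nonempty →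
      n ≤ r * l → (∀ x ∈ F, ∀ j, (D x j).card ≤ l) → ∃ N : Finset (Fin n), ν * n ≤ N.card ∧
      (∀ a, tc (h a) Nᶜ ≤ δ * N.card) ∧
      ((F.filter (fun x => ∃ j, 2 * ((l : ℝ) / n) * N.card < ((D x j ∩ N).card : ℝ))).card : ℝ) ≤
        δ * F.card := by
  classical
  set K : ℝ := (Fintype.card ι : ℝ) with hK
  have hK0 : 0 ≤ K := by positivity
  obtain ⟨t, ht⟩ := exists_nat_ge (8 * K / δ + 2)
  obtain ⟨w, hw⟩ := exists_nat_ge (4 * (r : ℝ) ^ 2 / δ + 1)
  have ht2 : (2 : ℝ) ≤ t := by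
    have : 0 ≤ 8 * K / δ := by positivity
    linarith
  have ht1 : 1 ≤ t := by
    have : (1 : ℝ) ≤ t := by linarith
    exact_mod_cast this
  have hw1 : 1 ≤ w := by
    have : 0 ≤ 4 * (r : ℝ) ^ 2 / δ := by positivity
    have : (1 : ℝ) ≤ w := by linarith
    exact_mod_cast this
  -- the number of scales is `t`, too
  refine ⟨1 / (2 * (t : ℝ) ^ t), by positivity, t ^ t * w, ?_⟩
  intro n hn h hs α F D l hF hl hD
  have hn1 : 1 ≤ n := le_trans (Nat.mul_pos (pow_pos ht1 t) hw1) hn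
  have hnn : ∀ i ≤ t, w ≤ n / t ^ i := by
    intro i hi
    rw [Nat.le_div_iff_mul_le (pow_pos ht1 i)]
    calc w * t ^ i ≤ w * t ^ t := Nat.mul_le_mul_left _ (Nat.pow_le_pow_right ht1 hi)
      _ = t ^ t * w := mul_comm _ _
      _ ≤ n := hn
  have hle : ∀ i, n / t ^ i ≤ n := fun i => Nat.div_le_self _ _
  set mm : ℕ → ℕ := fun i => n - n / t ^ i with hmm
  have hmlt : ∀ i ≤ t, mm i < n := by
    intro i hi
    have h1 := hnn i hi
    have h2 := hle i
    simp only [hmm]
    omega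
  have hmcast : ∀ i, (n : ℝ) - (mm i : ℕ) = ((n / t ^ i : ℕ) : ℝ) := by
    intro i
    simp only [hmm]
    rw [Nat.cast_sub (hle i)]
    ring
  have hdiv : ∀ i, n / t ^ (i + 1) = n / t ^ i / t := by
    intro i
    rw [pow_succ, Nat.div_div_eq_div_mul]
  have hmono : ∀ i, mm i ≤ mm (i + 1) := by
    intro i
    have : n / t ^ (i + 1) ≤ n / t ^ i := by
      rw [hdiv]
      exact Nat.div_le_self _ _
    simp only [hmm]
    omega
  set P : ℝ := (Fintype.card (Equiv.Perm (Fin n)) : ℝ) with hP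
  have hP0 : 0 < P := by
    rw [hP]
    exact_mod_cast Fintype.card_pos
  set dd : ι → ℕ → ℝ := fun a i => HS (h a) (mm i + 1) - HS (h a) (mm i) with hdd
  have hsel : ∃ i ∈ range t, ∑ a, (dd a i - dd a (i + 1)) ≤ K * (P * Real.log 2) / t := by
    apply exists_le_of_sum_le ⟨0, mem_range.mpr ht1⟩
    rw [sum_comm]
    calc ∑ a, ∑ i ∈ range t, (dd a i - dd a (i + 1)) = ∑ a, (dd a 0 - dd a t) := by
          apply sum_congr rfl
          intro a _
          exact sum_range_sub' _ _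
      _ ≤ ∑ _a : ι, P * Real.log 2 := by
          apply sum_le_sum
          intro a _
          have h1 := HS_le (hs a) (mm 0) (hmlt 0 (Nat.zero_le _))
          have h2 := HS_mono (hs a) (mm t) (hmlt t (le_refl _))
          simp only [hdd]
          linarith
      _ = K * (P * Real.log 2) := by simp [hK]
      _ = _ := by
          rw [sum_const, card_range, nsmul_eq_mul]
          have : (t : ℝ) ≠ 0 := by positivity
          field_simp
  obtain ⟨i, hi, hsum⟩ := hsel
  have hit : i < t := mem_range.mp hi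
  set s : ℝ := ((n / t ^ i : ℕ) : ℝ) with hsdef
  have hsw : (w : ℝ) ≤ s := by
    rw [hsdef]
    exact_mod_cast hnn i hit.le
  have hs0 : 0 < s := by
    have : (1 : ℝ) ≤ w := by exact_mod_cast hw1
    linarith
  have hs' : ((n / t ^ (i + 1) : ℕ) : ℝ) ≤ s / t := by
    rw [hdiv]
    exact Nat.cast_div_le
  have hKt : K / t ≤ δ / 8 := by
    rw [div_le_iff₀ (by linarith)]
    have h8 : 8 * K / δ ≤ t := by linarith
    rw [div_le_iff₀ hδ] at h8
    linarith
  have hlog1 : Real.log 2 ≤ 1 := by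
    have := Real.log_two_lt_d9
    linarith
  have hlog0 : 0 ≤ Real.log 2 := Real.log_nonneg (by norm_num)
  -- the average of the sum of the total correlations
  have hA : ∑ π : Equiv.Perm (Fin n), ∑ a, tc (h a) (fs π (mm i)) ≤ P * (s * (δ / 4)) := by
    rw [sum_comm]
    calc ∑ a, ∑ π : Equiv.Perm (Fin n), tc (h a) (fs π (mm i))
        ≤ ∑ a, (s * (dd a i - dd a (i + 1)) + (s / t) * (P * Real.log 2)) := by
          apply sum_le_sum
          intro a _
          have h1 := sum_tc_le (hs a) (mm i) (mm (i + 1)) (hmono i) (hmlt (i + 1) hit)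
          rw [hmcast i, hmcast (i + 1)] at h1
          refine h1.trans ?_
          apply add_le_add (le_refl _)
          apply mul_le_mul_of_nonneg_right hs'
          positivity
      _ = s * ∑ a, (dd a i - dd a (i + 1)) + K * ((s / t) * (P * Real.log 2)) := by
          rw [sum_add_distrib, ← mul_sum]
          simp [hK]
      _ ≤ s * (K * (P * Real.log 2) / t) + K * ((s / t) * (P * Real.log 2)) := by
          gcongr
      _ = P * (s * (2 * (K / t) * Real.log 2)) := by ring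
      _ ≤ P * (s * (δ / 4)) := by
          apply mul_le_mul_of_nonneg_left _ hP0.le
          apply mul_le_mul_of_nonneg_left _ hs0.le
          have : 0 ≤ K / t := by positivity
          nlinarith
  have hB := sum_bad r F D l (mm i) (hmlt i hit.le) hl hD
  rw [hmcast i] at hB
  have hF0 : (0 : ℝ) < F.card := by exact_mod_cast hF.card_pos
  have hrs : (r : ℝ) * (r / s) ≤ δ / 4 := by
    rw [← mul_div_assoc, div_le_iff₀ hs0]
    have h1 : 4 * (r : ℝ) ^ 2 / δ ≤ s := by linarith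
    rw [div_le_iff₀ hδ] at h1
    nlinarith
  have hB' : ∑ π : Equiv.Perm (Fin n), ((F.filter (fun x => ∃ j, 2 * ((l : ℝ) / n) * s <
      ((D x j ∩ (fs π (mm i))ᶜ).card : ℝ))).card : ℝ) ≤ P * (F.card * (δ / 4)) := by
    refine hB.trans ?_
    have : (F.card : ℝ) * (r * (P * (r / s))) = P * (F.card * (r * (r / s))) := by ring
    rw [this]
    gcongr
  have hex : ∃ π ∈ (univ : Finset (Equiv.Perm (Fin n))), (∑ a, tc (h a) (fs π (mm i))) / (s * δ) +
      ((F.filter (fun x => ∃ j, 2 * ((l : ℝ) / n) * s <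
      ((D x j ∩ (fs π (mm i))ᶜ).card : ℝ))).card : ℝ) / (F.card * δ) < 1 := by
    apply exists_lt_of_sum_lt
    rw [sum_add_distrib, ← sum_div, ← sum_div]
    have h1 : (∑ π : Equiv.Perm (Fin n), ∑ a, tc (h a) (fs π (mm i))) / (s * δ) ≤ P / 4 := by
      rw [div_le_iff₀ (by positivity)]
      calc _ ≤ _ := hA
        _ = _ := by ring
    have h2 : (∑ π : Equiv.Perm (Fin n), ((F.filter (fun x => ∃ j, 2 * ((l : ℝ) / n) * s <
      ((D x j ∩ (fs π (mm i))ᶜ).card : ℝ))).card : ℝ)) / (F.card * δ) ≤ P / 4 := by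
      rw [div_le_iff₀ (by positivity)]
      calc _ ≤ _ := hB'
        _ = _ := by ring
    have h3 : ∑ _π : Equiv.Perm (Fin n), (1 : ℝ) = P := by simp [hP]
    rw [h3]
    linarith
  obtain ⟨π, -, hπ⟩ := hex
  have hc : ((fs π (mm i))ᶜ).card = n / t ^ i := by
    rw [card_compl, Fintype.card_fin, card_fs π _ (hmlt i hit.le).le]
    exact Nat.sub_sub_self (hle i)
  have hT0 : 0 ≤ ∑ a, tc (h a) (fs π (mm i)) := sum_nonneg fun a _ => (hs a).tc_nonneg _
  have hT1 : 0 ≤ (∑ a, tc (h a) (fs π (mm i))) / (s * δ) := by positivity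
  have hT2 : 0 ≤ ((F.filter (fun x => ∃ j, 2 * ((l : ℝ) / n) * s <
      ((D x j ∩ (fs π (mm i))ᶜ).card : ℝ))).card : ℝ) / (F.card * δ) := by positivity
  refine ⟨(fs π (mm i))ᶜ, ?_, ?_, ?_⟩
  · rw [hc]
    have hT : (0 : ℝ) < (t : ℝ) ^ t := by positivity
    have h1 : n / t ^ t ≤ n / t ^ i := Nat.div_le_div_left (Nat.pow_le_pow_right ht1 hit.le)
      (pow_pos ht1 i)
    have h2 : 1 ≤ n / t ^ t := hw1.trans (hnn t (le_refl _))
    have h3 : n < t ^ t * (n / t ^ t + 1) := Nat.lt_mul_div_succ n (pow_pos ht1 t)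
    have h4 : n ≤ t ^ t * (2 * (n / t ^ i)) := by
      refine h3.le.trans (Nat.mul_le_mul_left _ ?_)
      omega
    have h5 : (n : ℝ) ≤ (t : ℝ) ^ t * (2 * ((n / t ^ i : ℕ) : ℝ)) := by exact_mod_cast h4
    rw [one_div, inv_mul_le_iff₀ (by positivity)]
    linarith
  · intro a
    rw [compl_compl, hc]
    have h1 : tc (h a) (fs π (mm i)) ≤ ∑ a, tc (h a) (fs π (mm i)) :=
      single_le_sum (f := fun a => tc (h a) (fs π (mm i))) (fun a _ => (hs a).tc_nonneg _)
        (mem_univ a)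
    have h2 : (∑ a, tc (h a) (fs π (mm i))) / (s * δ) ≤ 1 := by linarith
    rw [div_le_one (by positivity)] at h2
    have : s * δ = δ * ((n / t ^ i : ℕ) : ℝ) := by rw [hsdef]; ring
    linarith
  · rw [hc]
    have h2 : ((F.filter (fun x => ∃ j, 2 * ((l : ℝ) / n) * s <
      ((D x j ∩ (fs π (mm i))ᶜ).card : ℝ))).card : ℝ) / (F.card * δ) ≤ 1 := by linarith
    rw [div_le_one (by positivity)] at h2
    have : (F.card : ℝ) * δ = δ * F.card := by ring
    rw [this] at h2
    exact h2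

end LINS
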