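import Mathlib

/-!
# Theorem K (MP_9dcf40_lc): Lemma 1 (STAR)
-/

namespace SRBP

open Finset

/-- Fraction of the points of `C` which differ from `x` at `v`. -/
noncomputable def wf {n : ℕ} (C : Finset (Fin n → Bool)) (v : Fin n) (x : Fin n → Bool) : ℝ :=
  ((C.filter (fun y => y v ≠ x v)).card : ℝ) / C.card

/-- Total correlation of the uniform distribution on `C`. -/
noncomputable def TCf {n : ℕ} (C : Finset (Fin n → Bool)) : ℝ :=
  (∑ x ∈ C, ∑ v, -Real.log (1 - wf C v x)) / C.card - Real.log C.card

/-- The class of `x` in `C` for the map `tau`. -/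
noncomputable def clf {n : ℕ} {β : Type} (C : Finset (Fin n → Bool)) (tau : (Fin n → Bool) → β)
    (x : Fin n → Bool) : Finset (Fin n → Bool) := by
  classical exact C.filter (fun y => tau y = tau x)

/-- Lemma 1 (STAR). -/
def S_Star : Prop := ∀ (n : ℕ) (β : Type) (C : Finset (Fin n → Bool)) (tau : (Fin n → Bool) → β)
  (dom : β → Finset (Fin n)), C.Nonempty →
  (∀ x ∈ C, ∀ y ∈ C, tau x = tau y → ∀ v ∈ dom (tau x), x v = y v) →
  (∀ x ∈ C, ∀ y ∈ C, (∀ v ∈ dom (tau x), x v = y v) → (∀ v ∈ dom (tau y), x v = y v) →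
    tau x = tau y) →
  ∑ x ∈ C, ∑ v, (wf C v x - wf (clf C tau x) v x) ≤
    10 * ∑ x ∈ C, ∑ v ∈ dom (tau x), wf C v x + 8 * (C.card * TCf C)

/-! ## Frequencies -/

private noncomputable def pf {n : ℕ} (C : Finset (Fin n → Bool)) (v : Fin n) (c : Bool) : ℝ :=
  ((C.filter (fun y => y v = c)).card : ℝ) / C.card

private theorem pf_nonneg {n : ℕ} (C : Finset (Fin n → Bool)) (v : Fin n) (c : Bool) :
    0 ≤ pf C v c := by unfold pf; positivity

private theorem pf_pos {n : ℕ} {C : Finset (Fin n → Bool)} {x : Fin n → Bool} (hx : x ∈ C)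
    (v : Fin n) : 0 < pf C v (x v) := by
  have h1 : 0 < C.card := card_pos.2 ⟨x, hx⟩
  have h2 : 0 < (C.filter (fun y => y v = x v)).card := card_pos.2 ⟨x, by simp [hx]⟩
  unfold pf
  have h1' : (0 : ℝ) < C.card := by exact_mod_cast h1
  have h2' : (0 : ℝ) < (C.filter (fun y => y v = x v)).card := by exact_mod_cast h2
  positivity

private theorem pf_add {n : ℕ} {C : Finset (Fin n → Bool)} (hC : C.Nonempty) (v : Fin n)
    (c : Bool) : pf C v c + pf C v (!c) = 1 := by
  have h1 : (0 : ℝ) < C.card := by exact_mod_cast card_pos.2 hC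
  have h2 : (C.filter (fun y => y v = !c)) = C.filter (fun y => ¬ y v = c) := by
    apply filter_congr
    intro y _
    cases y v <;> cases c <;> simp
  unfold pf
  rw [h2, ← add_div, div_eq_one_iff_eq h1.ne']
  exact_mod_cast card_filter_add_card_filter_not (s := C) (fun y => y v = c)

private theorem pf_not {n : ℕ} {C : Finset (Fin n → Bool)} (hC : C.Nonempty) (v : Fin n)
    (c : Bool) : pf C v (!c) = 1 - pf C v c := by
  have := pf_add hC v c
  linarith

private theorem pf_le {n : ℕ} {C : Finset (Fin n → Bool)} (hC : C.Nonempty) (v : Fin n)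
    (c : Bool) : pf C v c ≤ 1 := by
  have := pf_add hC v c
  have := pf_nonneg C v (!c)
  linarith

private theorem wf_eq {n : ℕ} (C : Finset (Fin n → Bool)) (v : Fin n) (x : Fin n → Bool) :
    wf C v x = pf C v (!(x v)) := by
  have h2 : (C.filter (fun y => y v ≠ x v)) = C.filter (fun y => y v = !(x v)) := by
    apply filter_congr
    intro y _
    cases y v <;> cases x v <;> simp
  unfold wf pf
  rw [h2]

private theorem clf_self {n : ℕ} {β : Type} {C : Finset (Fin n → Bool)}
    {tau : (Fin n → Bool) → β} {x : Fin n → Bool} (hx : x ∈ C) : x ∈ clf C tau x := by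
  unfold clf
  simp [hx]

private theorem mem_clf {n : ℕ} {β : Type} {C : Finset (Fin n → Bool)}
    {tau : (Fin n → Bool) → β} {x y : Fin n → Bool} :
    y ∈ clf C tau x ↔ y ∈ C ∧ tau y = tau x := by
  unfold clf
  simp

private theorem clf_congr {n : ℕ} {β : Type} {C : Finset (Fin n → Bool)}
    {tau : (Fin n → Bool) → β} {x y : Fin n → Bool} (h : tau x = tau y) :
    clf C tau x = clf C tau y := by
  unfold clf
  rw [h]

/-! ## Averages over classes -/

private theorem avg_cls {n : ℕ} {β : Type} (C : Finset (Fin n → Bool))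
    (tau : (Fin n → Bool) → β) (h : (Fin n → Bool) → ℝ) :
    ∑ x ∈ C, (∑ y ∈ clf C tau x, h y) / (clf C tau x).card = ∑ x ∈ C, h x := by
  classical
  have e1 : ∀ x ∈ C, (∑ y ∈ clf C tau x, h y) / (clf C tau x).card =
      ∑ y ∈ C, if tau y = tau x then h y / (clf C tau y).card else 0 := by
    intro x _
    rw [← sum_filter, sum_div]
    have : C.filter (fun y => tau y = tau x) = clf C tau x := by
      ext y; rw [mem_clf, mem_filter]
    rw [this]
    apply sum_congr rfl
    intro y hy
    rw [mem_clf] at hy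
    rw [clf_congr hy.2]
  rw [sum_congr rfl e1, sum_comm]
  apply sum_congr rfl
  intro y hy
  rw [← sum_filter, sum_const]
  have : C.filter (fun x => tau y = tau x) = clf C tau y := by
    ext x; rw [mem_clf, mem_filter]
    constructor
    · rintro ⟨a, b⟩; exact ⟨a, b.symm⟩
    · rintro ⟨a, b⟩; exact ⟨a, b.symm⟩
  rw [this, nsmul_eq_mul]
  have h1 : (0 : ℝ) < (clf C tau y).card := by exact_mod_cast card_pos.2 ⟨y, clf_self hy⟩
  field_simp

private theorem avg_bool {n : ℕ} (C : Finset (Fin n → Bool)) (v : Fin n) (G : Bool → ℝ) :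
    (∑ y ∈ C, G (y v)) / C.card = pf C v true * G true + pf C v false * G false := by
  have h : ∑ y ∈ C, G (y v) = (C.filter (fun y => y v = true)).card * G true +
      (C.filter (fun y => y v = false)).card * G false := by
    have h2 : C.filter (fun y => y v = false) = C.filter (fun y => ¬ y v = true) := by
      apply filter_congr
      intro y _
      simp
    rw [h2, ← sum_filter_add_sum_filter_not C (fun y => y v = true)]
    congr 1
    · rw [← nsmul_eq_mul, ← sum_const]
      apply sum_congr rfl
      intro y hy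
      rw [(mem_filter.1 hy).2]
    · rw [← nsmul_eq_mul, ← sum_const]
      apply sum_congr rfl
      intro y hy
      have := (mem_filter.1 hy).2
      rw [Bool.not_eq_true] at this
      rw [this]
  rw [h]
  unfold pf
  ring

private theorem avg_main {n : ℕ} {β : Type} (C : Finset (Fin n → Bool))
    (tau : (Fin n → Bool) → β) (v : Fin n) (G : Finset (Fin n → Bool) → β → Bool → ℝ) :
    ∑ x ∈ C, G (clf C tau x) (tau x) (x v) = ∑ x ∈ C,
      (pf (clf C tau x) v true * G (clf C tau x) (tau x) true +
        pf (clf C tau x) v false * G (clf C tau x) (tau x) false) := by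
  rw [← avg_cls C tau (fun x => G (clf C tau x) (tau x) (x v))]
  apply sum_congr rfl
  intro x _
  rw [← avg_bool]
  congr 1
  apply sum_congr rfl
  intro y hy
  rw [mem_clf] at hy
  rw [clf_congr hy.2, hy.2]

/-! ## The binary inequality -/

private theorem bin1 (t : ℝ) (h0 : -1 < t) (h1 : t < 1) :
    t ^ 2 ≤ (1 + t) * Real.log (1 + t) + (1 - t) * Real.log (1 - t) := by
  have ht : |t| < 1 := abs_lt.2 ⟨h0, h1⟩
  have ht2 : |t ^ 2| < 1 := by
    rw [abs_pow]
    exact pow_lt_one₀ (abs_nonneg _) ht (by norm_num)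
  have s1 := (Real.hasSum_log_sub_log_of_abs_lt_one ht).mul_left t
  have s2 := Real.hasSum_pow_div_log_of_abs_lt_one ht2
  have s3 := s1.sub s2
  have e : t * (Real.log (1 + t) - Real.log (1 - t)) - -Real.log (1 - t ^ 2) =
      (1 + t) * Real.log (1 + t) + (1 - t) * Real.log (1 - t) := by
    have : (1 - t ^ 2) = (1 + t) * (1 - t) := by ring
    rw [this, Real.log_mul (by linarith) (by linarith)]
    ring
  rw [e] at s3
  have h3 := le_hasSum s3 0 (by
    intro k _
    have e1 : t * (2 * (1 / (2 * (k : ℝ) + 1)) * t ^ (2 * k + 1)) -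
        (t ^ 2) ^ (k + 1) / ((k : ℝ) + 1) =
        (t ^ 2) ^ (k + 1) * (2 / (2 * (k : ℝ) + 1) - 1 / ((k : ℝ) + 1)) := by
      rw [← pow_mul]
      ring
    rw [e1]
    apply mul_nonneg (by positivity)
    rw [sub_nonneg, div_le_div_iff₀ (by positivity) (by positivity)]
    linarith)
  norm_num at h3
  nlinarith [h3]

private theorem bin2 (t : ℝ) (h0 : -1 ≤ t) (h1 : t ≤ 1) :
    t ^ 2 ≤ (1 + t) * Real.log (1 + t) + (1 - t) * Real.log (1 - t) := by
  have h2 := Real.log_two_gt_d9
  rcases eq_or_lt_of_le h0 with h | h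
  · subst h
    norm_num
    linarith
  · rcases eq_or_lt_of_le h1 with h' | h'
    · subst h'
      norm_num
      linarith
    · exact bin1 t h h'

private theorem bin3 (a d : ℝ) (ha : 0 ≤ a) (hd : 0 ≤ d) (h1 : a + d ≤ 1) :
    (a - d) ^ 2 / 2 ≤ a * Real.log (2 * (a / (a + d))) + d * Real.log (2 * (d / (a + d))) := by
  rcases eq_or_lt_of_le (add_nonneg ha hd) with h | h
  · have ha' : a = 0 := by linarith
    have hd' : d = 0 := by linarith
    subst ha' hd'
    simp
  · have hb := bin2 ((a - d) / (a + d)) (by rw [le_div_iff₀ h]; linarith)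
      (by rw [div_le_iff₀ h]; linarith)
    have e1 : 1 + (a - d) / (a + d) = 2 * (a / (a + d)) := by field_simp; ring
    have e2 : 1 - (a - d) / (a + d) = 2 * (d / (a + d)) := by field_simp; ring
    rw [e1, e2] at hb
    have hb2 := mul_le_mul_of_nonneg_left hb (by linarith : 0 ≤ (a + d) / 2)
    have e3 : (a + d) / 2 * (2 * (a / (a + d)) * Real.log (2 * (a / (a + d))) +
        2 * (d / (a + d)) * Real.log (2 * (d / (a + d)))) =
        a * Real.log (2 * (a / (a + d))) + d * Real.log (2 * (d / (a + d))) := by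
      field_simp
    rw [e3] at hb2
    refine le_trans ?_ hb2
    have e4 : (a + d) / 2 * ((a - d) / (a + d)) ^ 2 = (a - d) ^ 2 / 2 / (a + d) := by
      field_simp
    rw [e4, le_div_iff₀ h]
    nlinarith [sq_nonneg (a - d)]

/-! ## The Gibbs step -/

private theorem prod_one {V O : Type} [Fintype V] [DecidableEq V] [Fintype O] [DecidableEq O]
    (k g : V → O → ℝ) (hk : ∀ v, ∑ o, k v o = 1) (v : V) :
    ∑ R : V → O, (∏ u, k u (R u)) * g v (R v) = ∑ o, k v o * g v o := by
  have h := Fintype.prod_sum (fun u o => k u o * (if u = v then g v o else 1))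
  have e1 : ∏ u, ∑ o, k u o * (if u = v then g v o else 1) = ∑ o, k v o * g v o := by
    rw [← mul_prod_erase univ _ (mem_univ v)]
    have : ∏ u ∈ univ.erase v, ∑ o, k u o * (if u = v then g v o else 1) = 1 := by
      apply prod_eq_one
      intro u hu
      simp only [if_neg (ne_of_mem_erase hu), mul_one]
      exact hk u
    rw [this, mul_one]
    simp
  rw [← e1, h]
  apply sum_congr rfl
  intro R _
  rw [prod_mul_distrib]
  congr 1
  rw [prod_ite_eq' univ v (fun u => g v (R u))]
  simp

private theorem prod_sumv {V O : Type} [Fintype V] [DecidableEq V] [Fintype O] [DecidableEq O]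
    (k g : V → O → ℝ) (hk : ∀ v, ∑ o, k v o = 1) :
    ∑ R : V → O, (∏ u, k u (R u)) * ∑ v, g v (R v) = ∑ v, ∑ o, k v o * g v o := by
  simp_rw [mul_sum]
  rw [sum_comm]
  apply sum_congr rfl
  intro v _
  rw [prod_one k g hk v]

private theorem gibbs {V O A : Type} [Fintype V] [DecidableEq V] [Fintype O] [DecidableEq O]
    (C : Finset A) (hC : C.Nonempty) (k q : A → V → O → ℝ) (hk0 : ∀ x ∈ C, ∀ v o, 0 ≤ k x v o)
    (hk : ∀ x ∈ C, ∀ v, ∑ o, k x v o = 1)
    (hq : ∀ x ∈ C, ∀ v o, 0 < k x v o → 0 < q x v o)
    (hs : ∑ x ∈ C, ∑ R ∈ (univ : Finset (V → O)).filter (fun R => ∀ v, 0 < k x v (R v)),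
      ∏ v, q x v (R v) ≤ 1) :
    C.card * Real.log C.card + ∑ x ∈ C, ∑ v, ∑ o, k x v o * Real.log (q x v o / k x v o) ≤ 0 := by
  classical
  have hc : (0 : ℝ) < C.card := by exact_mod_cast card_pos.2 hC
  have h1 : ∀ x ∈ C, Real.log C.card + ∑ v, ∑ o, k x v o * Real.log (q x v o / k x v o) ≤
      C.card * ∑ R ∈ (univ : Finset (V → O)).filter (fun R => ∀ v, 0 < k x v (R v)),
        ∏ v, q x v (R v) - 1 := by
    intro x hx
    have e1 : ∑ R : V → O, ∏ u, k x u (R u) = 1 := by
      rw [← Fintype.prod_sum]
      exact prod_eq_one (fun v _ => hk x hx v)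
    have e2 : Real.log C.card + ∑ v, ∑ o, k x v o * Real.log (q x v o / k x v o) =
        ∑ R : V → O, (∏ u, k x u (R u)) *
          (Real.log C.card + ∑ v, Real.log (q x v (R v) / k x v (R v))) := by
      simp_rw [mul_add]
      rw [sum_add_distrib, ← sum_mul, e1, one_mul,
        prod_sumv (k x) (fun v o => Real.log (q x v o / k x v o)) (hk x hx)]
    rw [e2, mul_sum, sum_filter]
    rw [← e1, ← sum_sub_distrib]
    apply sum_le_sum
    intro R _
    split_ifs with hR
    · have p1 : 0 < ∏ u, k x u (R u) := prod_pos (fun u _ => hR u)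
      have p2 : 0 < ∏ u, q x u (R u) := prod_pos (fun u _ => hq x hx u _ (hR u))
      have e3 : Real.log C.card + ∑ v, Real.log (q x v (R v) / k x v (R v)) =
          Real.log (C.card * ((∏ v, q x v (R v)) / ∏ v, k x v (R v))) := by
        rw [Real.log_mul hc.ne' (by positivity), ← prod_div_distrib, Real.log_prod]
        intro v _
        exact (div_pos (hq x hx v _ (hR v)) (hR v)).ne'
      rw [e3]
      have h4 := Real.log_le_sub_one_of_pos
        (show 0 < C.card * ((∏ v, q x v (R v)) / ∏ v, k x v (R v)) by positivity)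
      refine le_trans (mul_le_mul_of_nonneg_left h4 p1.le) ?_
      apply le_of_eq
      field_simp
    · push Not at hR
      obtain ⟨v, hv⟩ := hR
      have : ∏ u, k x u (R u) = 0 := by
        apply prod_eq_zero (mem_univ v)
        exact le_antisymm hv (hk0 x hx v _)
      rw [this]
      simp
  have h2 := sum_le_sum h1
  rw [sum_add_distrib, sum_const, nsmul_eq_mul, sum_sub_distrib, sum_const, nsmul_eq_mul,
    ← mul_sum] at h2
  have h3 := mul_le_mul_of_nonneg_left hs hc.le
  linarith

/-! ## The channel -/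

private noncomputable def th {n : ℕ} (C C' : Finset (Fin n → Bool)) (v : Fin n) (c : Bool) : ℝ :=
  pf C' v c * pf C v (!c) / (pf C' v c * pf C v (!c) + pf C' v (!c) * pf C v c)

private theorem th_nonneg {n : ℕ} (C C' : Finset (Fin n → Bool)) (v : Fin n) (c : Bool) :
    0 ≤ th C C' v c := by
  have h1 := pf_nonneg C' v c
  have h2 := pf_nonneg C v (!c)
  have h3 := pf_nonneg C' v (!c)
  have h4 := pf_nonneg C v c
  unfold th
  positivity

private theorem th_sum {n : ℕ} (C C' : Finset (Fin n → Bool)) (v : Fin n) :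
    th C C' v true + th C C' v false ≤ 1 := by
  have h1 := pf_nonneg C' v true
  have h2 := pf_nonneg C v false
  have h3 := pf_nonneg C' v false
  have h4 := pf_nonneg C v true
  unfold th
  simp only [Bool.not_true, Bool.not_false]
  rw [add_comm (pf C' v false * pf C v true) (pf C' v true * pf C v false), ← add_div]
  exact div_self_le_one _

private noncomputable def ph {n : ℕ} (C : Finset (Fin n → Bool)) (v : Fin n) :
    Option Bool → ℝ
  | none => pf C v true * pf C v false
  | some c => pf C v c * (1 - pf C v (!c) / 2)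

private theorem ph_nonneg {n : ℕ} {C : Finset (Fin n → Bool)} (hC : C.Nonempty) (v : Fin n)
    (o : Option Bool) : 0 ≤ ph C v o := by
  rcases o with _ | c
  · exact mul_nonneg (pf_nonneg _ _ _) (pf_nonneg _ _ _)
  · have := pf_le hC v (!c)
    exact mul_nonneg (pf_nonneg _ _ _) (by linarith)

private theorem ph_sum {n : ℕ} {C : Finset (Fin n → Bool)} (hC : C.Nonempty) (v : Fin n) :
    ∑ o, ph C v o = 1 := by
  rw [Fintype.sum_option, Fintype.sum_bool]
  have h1 := pf_not hC v true
  simp only [Bool.not_true] at h1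
  simp only [ph, Bool.not_true, Bool.not_false]
  rw [h1]
  ring

private noncomputable def kap {n : ℕ} (C : Finset (Fin n → Bool)) (D : Finset (Fin n))
    (x : Fin n → Bool) (v : Fin n) : Option Bool → ℝ
  | none => if v ∈ D then 0 else pf C v (!(x v)) / 2
  | some c => if c = x v then (if v ∈ D then 1 else 1 - pf C v (!(x v)) / 2) else 0

private theorem kap_nonneg {n : ℕ} {C : Finset (Fin n → Bool)} (hC : C.Nonempty)
    (D : Finset (Fin n)) (x : Fin n → Bool) (v : Fin n) (o : Option Bool) :
    0 ≤ kap C D x v o := by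
  have h1 := pf_le hC v (!(x v))
  have h2 := pf_nonneg C v (!(x v))
  rcases o with _ | c
  · simp only [kap]
    split_ifs <;> linarith
  · simp only [kap]
    split_ifs <;> linarith

private theorem kap_sum {n : ℕ} {C : Finset (Fin n → Bool)} (D : Finset (Fin n))
    (x : Fin n → Bool) (v : Fin n) : ∑ o, kap C D x v o = 1 := by
  rw [Fintype.sum_option]
  simp only [kap, sum_ite_eq', mem_univ, if_true]
  split_ifs <;> ring

private noncomputable def qq {n : ℕ} (C C' : Finset (Fin n → Bool))
    (x : Fin n → Bool) (v : Fin n) (o : Option Bool) : ℝ :=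
  ph C v o * (match o with
    | none => th C C' v (x v)
    | some c => if c = x v then 1 else 0)

private theorem qq_pos {n : ℕ} {C C' : Finset (Fin n → Bool)} {x : Fin n → Bool} (hx : x ∈ C)
    (hx' : x ∈ C') (D : Finset (Fin n)) (v : Fin n) (o : Option Bool)
    (h : 0 < kap C D x v o) : 0 < qq C C' x v o := by
  have hC : C.Nonempty := ⟨x, hx⟩
  have h1 := pf_pos hx v
  have h1' := pf_pos hx' v
  rcases o with _ | c
  · simp only [kap] at h
    split_ifs at h with hD
    · exact absurd h (lt_irrefl _)
    · have h2 : 0 < pf C v (!(x v)) := by linarith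
      have h3 := pf_nonneg C' v (!(x v))
      have h4 : 0 < th C C' v (x v) := by
        unfold th
        positivity
      have h5 : 0 < ph C v none := by
        simp only [ph]
        cases hxv : x v
        · rw [hxv] at h1 h2
          simp only [Bool.not_false] at h2
          positivity
        · rw [hxv] at h1 h2
          simp only [Bool.not_true] at h2
          positivity
      exact mul_pos h5 h4
  · simp only [kap] at h
    split_ifs at h with hc hD
    · subst hc
      have := pf_le hC v (!(x v))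
      simp only [qq, ph, if_true, mul_one]
      exact mul_pos h1 (by linarith)
    · subst hc
      have := pf_le hC v (!(x v))
      simp only [qq, ph, if_true, mul_one]
      exact mul_pos h1 (by linarith)
    · exact absurd h (lt_irrefl _)

private theorem term {n : ℕ} {C C' : Finset (Fin n → Bool)} {x : Fin n → Bool} (hx : x ∈ C)
    (hx' : x ∈ C') (D : Finset (Fin n)) (v : Fin n) :
    Real.log (pf C v (x v)) + (if v ∈ D then -pf C v (!(x v)) else
      pf C v (!(x v)) / 2 * Real.log (2 * th C C' v (x v))) ≤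
    ∑ o, kap C D x v o * Real.log (qq C C' x v o / kap C D x v o) := by
  have hC : C.Nonempty := ⟨x, hx⟩
  have h1 := pf_pos hx v
  have h2 := pf_le hC v (!(x v))
  have h3 := pf_nonneg C v (!(x v))
  have hpos : 0 < 1 - pf C v (!(x v)) / 2 := by linarith
  rw [Fintype.sum_option]
  have e1 : ∑ c, kap C D x v (some c) * Real.log (qq C C' x v (some c) / kap C D x v (some c)) =
      kap C D x v (some (x v)) *
        Real.log (qq C C' x v (some (x v)) / kap C D x v (some (x v))) := by
    apply sum_eq_single_of_mem _ (mem_univ _)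
    intro c _ hc
    have : kap C D x v (some c) = 0 := by simp only [kap, if_neg hc]
    rw [this, zero_mul]
  rw [e1]
  have e2 : qq C C' x v (some (x v)) = pf C v (x v) * (1 - pf C v (!(x v)) / 2) := by
    simp [qq, ph]
  rw [e2]
  by_cases hD : v ∈ D
  · have e3 : kap C D x v none = 0 := by simp [kap, hD]
    have e4 : kap C D x v (some (x v)) = 1 := by simp [kap, hD]
    rw [e3, e4, if_pos hD, zero_mul, zero_add, div_one, one_mul,
      Real.log_mul h1.ne' hpos.ne']
    have h4 := Real.one_sub_inv_le_log_of_pos hpos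
    have h5 : (1 - pf C v (!(x v)) / 2)⁻¹ ≤ 1 + pf C v (!(x v)) := by
      rw [inv_le_comm₀ hpos (by linarith), inv_le_iff_one_le_mul₀ (by linarith)]
      nlinarith
    linarith
  · have e3 : kap C D x v none = pf C v (!(x v)) / 2 := by simp [kap, hD]
    have e4 : kap C D x v (some (x v)) = 1 - pf C v (!(x v)) / 2 := by simp [kap, hD]
    rw [e3, e4, if_neg hD, mul_div_assoc, div_self hpos.ne', mul_one]
    rcases eq_or_lt_of_le h3 with h | h
    · rw [← h]
      simp
    · have h6 : 0 < th C C' v (x v) := by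
        have := pf_pos hx' v
        have := pf_nonneg C' v (!(x v))
        unfold th
        positivity
      have e5 : qq C C' x v none / (pf C v (!(x v)) / 2) =
          pf C v (x v) * (2 * th C C' v (x v)) := by
        have : ph C v none = pf C v (x v) * pf C v (!(x v)) := by
          simp only [ph]
          cases x v
          · simp [mul_comm]
          · simp
        simp only [qq]
        rw [this]
        field_simp
      rw [e5, Real.log_mul h1.ne' (by positivity)]
      apply le_of_eq
      ring

/-! ## The sum over the pairs (x, R) -/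

private theorem kap_mem {n : ℕ} {C : Finset (Fin n → Bool)} {D : Finset (Fin n)}
    {x : Fin n → Bool} {R : Fin n → Option Bool} (h : ∀ v, 0 < kap C D x v (R v)) :
    (∀ v ∈ D, R v ≠ none) ∧ ∀ v, R v = none ∨ R v = some (x v) := by
  constructor
  · intro v hv hR
    have := h v
    rw [hR] at this
    simp [kap, hv] at this
  · intro v
    rcases hR : R v with _ | c
    · exact Or.inl rfl
    · right
      have h1 := h v
      rw [hR] at h1
      by_contra hne
      have : c ≠ x v := fun e => hne (by rw [e])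
      simp only [kap, if_neg this, lt_irrefl] at h1

private theorem sum_le {n : ℕ} {β : Type} {C : Finset (Fin n → Bool)}
    (tau : (Fin n → Bool) → β) (dom : β → Finset (Fin n)) (hC : C.Nonempty)
    (h2 : ∀ x ∈ C, ∀ y ∈ C, (∀ v ∈ dom (tau x), x v = y v) → (∀ v ∈ dom (tau y), x v = y v) →
      tau x = tau y) :
    ∑ x ∈ C, ∑ R ∈ (univ : Finset (Fin n → Option Bool)).filter
        (fun R => ∀ v, 0 < kap C (dom (tau x)) x v (R v)),
      ∏ v, qq C (clf C tau x) x v (R v) ≤ 1 := by
  classical
  have e0 : ∑ x ∈ C, ∑ R ∈ (univ : Finset (Fin n → Option Bool)).filter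
        (fun R => ∀ v, 0 < kap C (dom (tau x)) x v (R v)),
      ∏ v, qq C (clf C tau x) x v (R v) = ∑ R : Fin n → Option Bool,
        ∑ x ∈ C.filter (fun x => ∀ v, 0 < kap C (dom (tau x)) x v (R v)),
          ∏ v, qq C (clf C tau x) x v (R v) := by
    simp_rw [sum_filter]
    rw [sum_comm]
  have e1 : ∑ R : Fin n → Option Bool, ∏ v, ph C v (R v) = 1 := by
    rw [← Fintype.prod_sum]
    exact prod_eq_one (fun v _ => ph_sum hC v)
  rw [e0, ← e1]
  apply sum_le_sum
  intro R _
  rcases (C.filter (fun x => ∀ v, 0 < kap C (dom (tau x)) x v (R v))).eq_empty_or_nonempty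
    with he | ⟨x₀, hx₀⟩
  · rw [he, sum_empty]
    exact prod_nonneg (fun v _ => ph_nonneg hC v _)
  rw [mem_filter] at hx₀
  obtain ⟨hx₀, hk₀⟩ := hx₀
  obtain ⟨ha, hb⟩ := kap_mem hk₀
  set C' := clf C tau x₀ with hC'
  let Psi : Fin n → Bool → ℝ := fun v c => ph C v (R v) *
    (if R v = none then th C C' v c else if R v = some c then 1 else 0)
  have hPsi : ∀ v c, 0 ≤ Psi v c := by
    intro v c
    apply mul_nonneg (ph_nonneg hC v _)
    split_ifs
    · exact th_nonneg _ _ _ _
    · norm_num
    · exact le_refl _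
  have hle : ∀ x ∈ C.filter (fun x => ∀ v, 0 < kap C (dom (tau x)) x v (R v)),
      ∏ v, qq C (clf C tau x) x v (R v) = ∏ v, Psi v (x v) := by
    intro x hx
    rw [mem_filter] at hx
    obtain ⟨hx, hk⟩ := hx
    obtain ⟨ha', hb'⟩ := kap_mem hk
    have ht : tau x₀ = tau x := by
      apply h2 x₀ hx₀ x hx
      · intro v hv
        rcases hb v with h | h
        · exact absurd h (ha v hv)
        · rcases hb' v with h' | h'
          · exact absurd h' (ha v hv)
          · rw [h] at h'
            exact Option.some.inj h'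
      · intro v hv
        rcases hb' v with h | h
        · exact absurd h (ha' v hv)
        · rcases hb v with h' | h'
          · exact absurd h' (ha' v hv)
          · rw [h] at h'
            exact (Option.some.inj h').symm
    have hcl : clf C tau x = C' := clf_congr ht.symm
    rw [hcl]
    apply prod_congr rfl
    intro v _
    simp only [qq, Psi]
    rcases hR : R v with _ | c
    · simp
    · simp only [reduceCtorEq, if_false, Option.some.injEq]
  rw [sum_congr rfl hle]
  have hsub : ∑ x ∈ C.filter (fun x => ∀ v, 0 < kap C (dom (tau x)) x v (R v)),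
      ∏ v, Psi v (x v) ≤ ∑ x : Fin n → Bool, ∏ v, Psi v (x v) := by
    apply sum_le_sum_of_subset_of_nonneg (subset_univ _)
    intro x _ _
    exact prod_nonneg (fun v _ => hPsi v _)
  refine le_trans hsub ?_
  rw [← Fintype.prod_sum]
  apply prod_le_prod
  · intro v _
    exact sum_nonneg (fun c _ => hPsi v c)
  · intro v _
    simp only [Psi]
    rw [← mul_sum]
    have h3 : ∑ c, (if R v = none then th C C' v c else if R v = some c then (1 : ℝ) else 0) ≤
        1 := by
      rcases hR : R v with _ | c
      · simp only [if_true, Fintype.sum_bool]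
        exact th_sum C C' v
      · simp
    calc ph C v (R v) * _ ≤ ph C v (R v) * 1 :=
          mul_le_mul_of_nonneg_left h3 (ph_nonneg hC v _)
      _ = ph C v (R v) := mul_one _

private theorem main1 {n : ℕ} {β : Type} {C : Finset (Fin n → Bool)}
    (tau : (Fin n → Bool) → β) (dom : β → Finset (Fin n)) (hC : C.Nonempty)
    (h2 : ∀ x ∈ C, ∀ y ∈ C, (∀ v ∈ dom (tau x), x v = y v) → (∀ v ∈ dom (tau y), x v = y v) →
      tau x = tau y) :
    ∑ x ∈ C, ∑ v, (if v ∈ dom (tau x) then -pf C v (!(x v)) else
      pf C v (!(x v)) / 2 * Real.log (2 * th C (clf C tau x) v (x v))) ≤ C.card * TCf C := by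
  have hc : (0 : ℝ) < C.card := by exact_mod_cast card_pos.2 hC
  have hg := gibbs C hC (fun x => kap C (dom (tau x)) x) (fun x => qq C (clf C tau x) x)
    (fun x _ v o => kap_nonneg hC _ x v o) (fun x _ v => kap_sum _ x v)
    (fun x hx v o h => qq_pos hx (clf_self hx) _ v o h) (by
      refine le_trans (le_of_eq ?_) (sum_le tau dom hC h2)
      apply sum_congr rfl
      intro x _
      refine sum_congr ?_ (fun _ _ => rfl)
      ext R
      simp only [mem_filter, mem_univ, true_and])
  have h3 : ∑ x ∈ C, ∑ v, (Real.log (pf C v (x v)) + (if v ∈ dom (tau x) then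
      -pf C v (!(x v)) else
      pf C v (!(x v)) / 2 * Real.log (2 * th C (clf C tau x) v (x v)))) ≤
      ∑ x ∈ C, ∑ v, ∑ o, kap C (dom (tau x)) x v o *
        Real.log (qq C (clf C tau x) x v o / kap C (dom (tau x)) x v o) := by
    apply sum_le_sum
    intro x hx
    apply sum_le_sum
    intro v _
    exact term hx (clf_self hx) _ v
  simp_rw [sum_add_distrib] at h3
  have e1 : C.card * TCf C = -(∑ x ∈ C, ∑ v, Real.log (pf C v (x v))) -
      C.card * Real.log C.card := by
    unfold TCf
    have : ∑ x ∈ C, ∑ v, -Real.log (1 - wf C v x) =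
        -(∑ x ∈ C, ∑ v, Real.log (pf C v (x v))) := by
      rw [← sum_neg_distrib]
      apply sum_congr rfl
      intro x _
      rw [← sum_neg_distrib]
      apply sum_congr rfl
      intro v _
      have h4 := pf_not hC v (x v)
      rw [wf_eq, h4]
      ring_nf
    rw [this]
    field_simp
  rw [e1]
  linarith

/-! ## Classes -/

private theorem lower {n : ℕ} {β : Type} {C : Finset (Fin n → Bool)}
    (tau : (Fin n → Bool) → β) (dom : β → Finset (Fin n)) (hC : C.Nonempty) (v : Fin n) :
    ∑ x ∈ C, (if v ∈ dom (tau x) then 0 else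
      (pf (clf C tau x) v true - pf C v true) ^ 2 / 4) ≤
    ∑ x ∈ C, (if v ∈ dom (tau x) then 0 else
      pf C v (!(x v)) / 2 * Real.log (2 * th C (clf C tau x) v (x v))) := by
  classical
  rw [avg_main C tau v (fun C' t c => if v ∈ dom t then 0 else
      pf C v (!c) / 2 * Real.log (2 * th C C' v c))]
  apply sum_le_sum
  intro x hx
  have hC' : (clf C tau x).Nonempty := ⟨x, clf_self hx⟩
  split_ifs with hv
  · simp
  · have a1 := pf_nonneg (clf C tau x) v true
    have a2 := pf_nonneg (clf C tau x) v false
    have a3 := pf_nonneg C v true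
    have a4 := pf_nonneg C v false
    have a5 := pf_not hC' v true
    have a6 := pf_not hC v true
    have a7 := pf_le hC v true
    simp only [Bool.not_true] at a5 a6
    have hb := bin3 (pf (clf C tau x) v true * pf C v false)
      (pf (clf C tau x) v false * pf C v true) (by positivity) (by positivity) (by
        rw [a5, a6]
        rw [a6] at a4
        rw [a5] at a2
        nlinarith)
    have e1 : pf (clf C tau x) v true * pf C v false - pf (clf C tau x) v false * pf C v true =
        pf (clf C tau x) v true - pf C v true := by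
      rw [a5, a6]
      ring
    rw [e1] at hb
    simp only [th, Bool.not_true, Bool.not_false]
    rw [add_comm (pf (clf C tau x) v false * pf C v true)
      (pf (clf C tau x) v true * pf C v false)]
    calc (pf (clf C tau x) v true - pf C v true) ^ 2 / 4
        = (pf (clf C tau x) v true - pf C v true) ^ 2 / 2 / 2 := by ring
      _ ≤ _ := div_le_div_of_nonneg_right hb (by norm_num)
      _ = _ := by ring

private theorem ident {n : ℕ} {β : Type} {C : Finset (Fin n → Bool)}
    (tau : (Fin n → Bool) → β) (hC : C.Nonempty) (v : Fin n) :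
    ∑ x ∈ C, (pf C v (!(x v)) - pf (clf C tau x) v (!(x v))) =
      ∑ x ∈ C, 2 * (pf (clf C tau x) v true - pf C v true) ^ 2 := by
  rw [avg_main C tau v (fun C' _ c => pf C v (!c) - pf C' v (!c))]
  have hc : (0 : ℝ) < C.card := by exact_mod_cast card_pos.2 hC
  have h1 : ∑ x ∈ C, (pf (clf C tau x) v true - pf C v true) = 0 := by
    have e1 := avg_main C tau v (fun _ _ c => if c = true then (1 : ℝ) else 0)
    have e2 := avg_bool C v (fun c => if c = true then (1 : ℝ) else 0)
    simp only [if_true, mul_one, Bool.false_eq_true, if_false, mul_zero, add_zero] at e1 e2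
    rw [sum_sub_distrib, ← e1, sum_const, nsmul_eq_mul, ← e2]
    field_simp
    ring
  have h2 : ∑ x ∈ C, (2 * pf C v true - 1) * (pf (clf C tau x) v true - pf C v true) = 0 := by
    rw [← mul_sum, h1, mul_zero]
  rw [← sub_eq_zero, ← sum_sub_distrib, ← h2]
  apply sum_congr rfl
  intro x hx
  have hC' : (clf C tau x).Nonempty := ⟨x, clf_self hx⟩
  have a5 := pf_not hC' v true
  have a6 := pf_not hC v true
  simp only [Bool.not_true] at a5 a6
  simp only [Bool.not_true, Bool.not_false]
  rw [a5, a6]
  ring

private theorem onD {n : ℕ} {β : Type} {C : Finset (Fin n → Bool)}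
    (tau : (Fin n → Bool) → β) (dom : β → Finset (Fin n))
    (h1 : ∀ x ∈ C, ∀ y ∈ C, tau x = tau y → ∀ v ∈ dom (tau x), x v = y v) {x : Fin n → Bool}
    (hx : x ∈ C) {v : Fin n} (hv : v ∈ dom (tau x)) :
    (pf (clf C tau x) v true - pf C v true) ^ 2 ≤ pf C v (!(x v)) := by
  have hC : C.Nonempty := ⟨x, hx⟩
  have hC' : (clf C tau x).Nonempty := ⟨x, clf_self hx⟩
  have e1 : pf (clf C tau x) v (x v) = 1 := by
    unfold pf
    have : (clf C tau x).filter (fun y => y v = x v) = clf C tau x := by
      apply filter_true_of_mem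
      intro y hy
      rw [mem_clf] at hy
      exact (h1 x hx y hy.1 hy.2.symm v hv).symm
    rw [this]
    apply div_self
    exact_mod_cast (card_pos.2 hC').ne'
  have b1 := pf_nonneg C v (!(x v))
  have b2 := pf_le hC v (!(x v))
  have e2 := pf_not hC' v (x v)
  have e3 := pf_not hC v (x v)
  have e4 : (pf (clf C tau x) v true - pf C v true) ^ 2 = pf C v (!(x v)) ^ 2 := by
    cases hxv : x v
    · rw [hxv] at e1 e2 e3
      simp only [Bool.not_false] at e2 e3 ⊢
      rw [e2, e1]
      ring
    · rw [hxv] at e1 e2 e3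
      simp only [Bool.not_true] at e2 e3 ⊢
      rw [e1, e3]
  rw [e4]
  nlinarith

theorem star : S_Star := by
  intro n β C tau dom hC h1 h2
  have e1 : ∑ x ∈ C, ∑ v, (wf C v x - wf (clf C tau x) v x) =
      ∑ x ∈ C, ∑ v, 2 * (pf (clf C tau x) v true - pf C v true) ^ 2 := by
    simp_rw [wf_eq]
    rw [sum_comm]
    conv_rhs => rw [sum_comm]
    apply sum_congr rfl
    intro v _
    exact ident tau hC v
  have e2 : ∀ x ∈ C, ∑ v, 2 * (pf (clf C tau x) v true - pf C v true) ^ 2 ≤
      2 * (∑ v ∈ dom (tau x), wf C v x) + 8 * ∑ v, (if v ∈ dom (tau x) then 0 else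
      (pf (clf C tau x) v true - pf C v true) ^ 2 / 4) := by
    intro x hx
    have e3 : ∑ v ∈ dom (tau x), wf C v x = ∑ v, if v ∈ dom (tau x) then wf C v x else 0 := by
      rw [sum_ite_mem, univ_inter]
    rw [e3, mul_sum, mul_sum, ← sum_add_distrib]
    apply sum_le_sum
    intro v _
    split_ifs with hv
    · have := onD tau dom h1 hx hv
      rw [wf_eq]
      linarith
    · linarith
  have e4 : ∑ x ∈ C, ∑ v, (if v ∈ dom (tau x) then 0 else
      (pf (clf C tau x) v true - pf C v true) ^ 2 / 4) ≤
      ∑ x ∈ C, ∑ v, (if v ∈ dom (tau x) then 0 else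
      pf C v (!(x v)) / 2 * Real.log (2 * th C (clf C tau x) v (x v))) := by
    rw [sum_comm]
    conv_rhs => rw [sum_comm]
    apply sum_le_sum
    intro v _
    exact lower tau dom hC v
  have e5 := main1 tau dom hC h2
  have e6 : ∑ x ∈ C, ∑ v, (if v ∈ dom (tau x) then -pf C v (!(x v)) else
      pf C v (!(x v)) / 2 * Real.log (2 * th C (clf C tau x) v (x v))) =
      ∑ x ∈ C, ∑ v, (if v ∈ dom (tau x) then 0 else
      pf C v (!(x v)) / 2 * Real.log (2 * th C (clf C tau x) v (x v))) -
      ∑ x ∈ C, ∑ v ∈ dom (tau x), wf C v x := by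
    rw [← sum_sub_distrib]
    apply sum_congr rfl
    intro x _
    have e3 : ∑ v ∈ dom (tau x), wf C v x = ∑ v, if v ∈ dom (tau x) then wf C v x else 0 := by
      rw [sum_ite_mem, univ_inter]
    rw [e3, ← sum_sub_distrib]
    apply sum_congr rfl
    intro v _
    rw [wf_eq]
    split_ifs <;> ring
  have e7 := sum_le_sum e2
  rw [sum_add_distrib, ← mul_sum, ← mul_sum] at e7
  rw [e1]
  linarith

end SRBP
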