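import Pool.Agent.Lib.MP_9dcf40_lc.LIN.ScaleA
import Pool.Agent.Lib.MP_9dcf40_lc.LIN.Star
import Pool.Agent.Lib.MP_9dcf40_lc.SR.Defs

/-!
# Theorem K, Lemma 2: the entropy is a submodular set function (`sub_ent`, `mean_tc`)

`cl F k x` is the class of `x` in `F` for the map `k`. `hF F g S` is `|F|` times the entropy of `g` and
the coordinates in `S`, under the uniform distribution on `F`.
-/

set_option autoImplicit false

namespace LINS

open Finset

open scoped Classical in
/-- The class of `x`. -/
noncomputable def cl {α κ : Type} (F : Finset α) (k : α → κ) (x : α) : Finset α :=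
  F.filter (fun y => k y = k x)

section

variable {α κ β γ : Type} {F : Finset α}

theorem mem_cl {k : α → κ} {x y : α} : y ∈ cl F k x ↔ y ∈ F ∧ k y = k x := by
  classical
  unfold cl
  rw [mem_filter]

theorem cl_sub (k : α → κ) (x : α) : cl F k x ⊆ F := fun _ h => (mem_cl.1 h).1

theorem cl_congr {k : α → κ} {k' : α → β} {x x' : α}
    (h : ∀ y ∈ F, k y = k x ↔ k' y = k' x') : cl F k x = cl F k' x' := by
  ext y
  rw [mem_cl, mem_cl]
  exact ⟨fun h' => ⟨h'.1, (h y h'.1).1 h'.2⟩, fun h' => ⟨h'.1, (h y h'.1).2 h'.2⟩⟩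

theorem cl_eq {k : α → κ} {x y : α} (h : k y = k x) : cl F k y = cl F k x :=
  cl_congr fun z _ => by rw [h]

theorem card_cl_pos {k : α → κ} {x : α} (hx : x ∈ F) : (0 : ℝ) < (cl F k x).card := by
  have : 0 < (cl F k x).card := card_pos.2 ⟨x, mem_cl.2 ⟨hx, rfl⟩⟩
  exact_mod_cast this

theorem card_cl_mono {k : α → κ} {k' : α → β} {x : α} (h : ∀ y ∈ F, k' y = k' x → k y = k x) :
    ((cl F k' x).card : ℝ) ≤ (cl F k x).card := by
  have : (cl F k' x).card ≤ (cl F k x).card := card_le_card fun y hy =>
    mem_cl.2 ⟨(mem_cl.1 hy).1, h y (mem_cl.1 hy).1 (mem_cl.1 hy).2⟩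
  exact_mod_cast this

/-- Averages over classes. -/
theorem sum_avg (k : α → κ) (φ : α → ℝ) :
    ∑ x ∈ F, (∑ y ∈ cl F k x, φ y) / (cl F k x).card = ∑ y ∈ F, φ y := by
  classical
  have h1 : ∀ x ∈ F, (∑ y ∈ cl F k x, φ y) / ((cl F k x).card : ℝ) =
      ∑ y ∈ F, if k y = k x then φ y / (cl F k y).card else 0 := by
    intro x _
    rw [sum_div, cl, sum_filter]
    refine sum_congr rfl fun y _ => ?_
    by_cases h : k y = k x
    · rw [if_pos h, if_pos h, cl_eq h]
      rfl
    · rw [if_neg h, if_neg h]
  rw [sum_congr rfl h1, sum_comm]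
  refine sum_congr rfl fun y hy => ?_
  have h2 : ∀ x ∈ F, (if k y = k x then φ y / ((cl F k y).card : ℝ) else 0) =
      if k x = k y then φ y / ((cl F k y).card : ℝ) else 0 := by
    intro x _
    exact if_congr eq_comm rfl rfl
  rw [sum_congr rfl h2, ← sum_filter, sum_const, nsmul_eq_mul]
  have h3 := card_cl_pos (k := k) hy
  change ((cl F k y).card : ℝ) * (φ y / (cl F k y).card) = φ y
  field_simp

/-- The key inequality for conditional mutual information. -/
theorem cmi_sum (k : α → κ) (f : α → β) (g : α → γ) :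
    ∑ x ∈ F, ((cl F (fun y => (k y, f y)) x).card : ℝ) * (cl F (fun y => (k y, g y)) x).card /
      ((cl F (fun y => (k y, f y, g y)) x).card * (cl F k x).card) ≤ F.card := by
  classical
  have h1 : ∀ x ∈ F, ((cl F (fun y => (k y, f y)) x).card : ℝ) *
      (cl F (fun y => (k y, g y)) x).card /
      ((cl F (fun y => (k y, f y, g y)) x).card * (cl F k x).card) =
      ∑ y ∈ F, ∑ z ∈ F, if (k y = k x ∧ f y = f x) ∧ (k z = k x ∧ g z = g x) then
        1 / (((cl F (fun y => (k y, f y, g y)) x).card : ℝ) * (cl F k x).card) else 0 := by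
    intro x _
    have e1 : ((cl F (fun y => (k y, f y)) x).card : ℝ) =
        ∑ y ∈ F, if k y = k x ∧ f y = f x then (1 : ℝ) else 0 := by
      rw [sum_boole]
      congr 2
      ext y
      rw [mem_cl, mem_filter, Prod.mk.injEq]
    have e2 : ((cl F (fun y => (k y, g y)) x).card : ℝ) =
        ∑ z ∈ F, if k z = k x ∧ g z = g x then (1 : ℝ) else 0 := by
      rw [sum_boole]
      congr 2
      ext y
      rw [mem_cl, mem_filter, Prod.mk.injEq]
    rw [e1, e2, sum_mul_sum, sum_div]
    refine sum_congr rfl fun y _ => ?_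
    rw [sum_div]
    refine sum_congr rfl fun z _ => ?_
    by_cases ha : k y = k x ∧ f y = f x <;> by_cases hb : k z = k x ∧ g z = g x <;>
      simp [ha, hb]
  rw [sum_congr rfl h1, sum_comm]
  have h2 : ∀ y ∈ F, ∑ x ∈ F, ∑ z ∈ F, (if (k y = k x ∧ f y = f x) ∧ (k z = k x ∧ g z = g x) then
        1 / (((cl F (fun y => (k y, f y, g y)) x).card : ℝ) * (cl F k x).card) else 0) ≤ 1 := by
    intro y hy
    rw [sum_comm]
    have h3 : ∀ z ∈ F, ∑ x ∈ F, (if (k y = k x ∧ f y = f x) ∧ (k z = k x ∧ g z = g x) then
        1 / (((cl F (fun y => (k y, f y, g y)) x).card : ℝ) * (cl F k x).card) else 0) ≤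
        if k z = k y then 1 / ((cl F k y).card : ℝ) else 0 := by
      intro z _
      rw [← sum_filter]
      by_cases hne : (F.filter fun x => (k y = k x ∧ f y = f x) ∧ (k z = k x ∧ g z = g x)).Nonempty
      · obtain ⟨x0, hx0⟩ := hne
        rw [mem_filter] at hx0
        obtain ⟨hx0F, ⟨a1, a2⟩, a3, a4⟩ := hx0
        rw [if_pos (a3.trans a1.symm)]
        have h4 : ∀ x ∈ F.filter (fun x => (k y = k x ∧ f y = f x) ∧ (k z = k x ∧ g z = g x)),
            1 / (((cl F (fun y => (k y, f y, g y)) x).card : ℝ) * (cl F k x).card) =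
            1 / (((cl F (fun y => (k y, f y, g y)) x0).card : ℝ) * (cl F k y).card) := by
          intro x hx
          rw [mem_filter] at hx
          obtain ⟨_, ⟨b1, b2⟩, b3, b4⟩ := hx
          have e1 : cl F (fun y => (k y, f y, g y)) x = cl F (fun y => (k y, f y, g y)) x0 := by
            refine cl_eq ?_
            rw [Prod.mk.injEq, Prod.mk.injEq]
            exact ⟨b1.symm.trans a1, b2.symm.trans a2, b4.symm.trans a4⟩
          have e2 : cl F k x = cl F k y := cl_eq b1.symm
          rw [e1, e2]
        rw [sum_congr rfl h4, sum_const, nsmul_eq_mul]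
        have h5 : (F.filter fun x => (k y = k x ∧ f y = f x) ∧ (k z = k x ∧ g z = g x)) =
            cl F (fun y => (k y, f y, g y)) x0 := by
          ext x
          rw [mem_filter, mem_cl, Prod.mk.injEq, Prod.mk.injEq]
          constructor
          · rintro ⟨hx, ⟨b1, b2⟩, b3, b4⟩
            exact ⟨hx, b1.symm.trans a1, b2.symm.trans a2, b4.symm.trans a4⟩
          · rintro ⟨hx, b1, b2, b3⟩
            exact ⟨hx, ⟨a1.trans b1.symm, a2.trans b2.symm⟩, a3.trans b1.symm, a4.trans b3.symm⟩
        rw [h5]
        have h6 := card_cl_pos (k := fun y => (k y, f y, g y)) hx0F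
        have h7 := card_cl_pos (k := k) hy
        refine le_of_eq ?_
        field_simp
      · rw [not_nonempty_iff_eq_empty.1 hne, sum_empty]
        split_ifs
        · positivity
        · exact le_rfl
    refine (sum_le_sum h3).trans (le_of_eq ?_)
    rw [← sum_filter, sum_const, nsmul_eq_mul]
    have h7 := card_cl_pos (k := k) hy
    change ((F.filter fun z => k z = k y).card : ℝ) * (1 / ((cl F k y).card : ℝ)) = 1
    have h8 : F.filter (fun z => k z = k y) = cl F k y := by
      ext z
      rw [mem_filter, mem_cl]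
    rw [h8]
    field_simp
  refine (sum_le_sum h2).trans (le_of_eq ?_)
  rw [sum_const, nsmul_eq_mul, mul_one]

theorem cmi_log (k : α → κ) (f : α → β) (g : α → γ) :
    ∑ x ∈ F, (Real.log (cl F (fun y => (k y, f y)) x).card +
      Real.log (cl F (fun y => (k y, g y)) x).card -
      Real.log (cl F (fun y => (k y, f y, g y)) x).card - Real.log (cl F k x).card) ≤ 0 := by
  have h1 := cmi_sum (F := F) k f g
  have h2 : ∀ x ∈ F, (Real.log (cl F (fun y => (k y, f y)) x).card +
      Real.log (cl F (fun y => (k y, g y)) x).card -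
      Real.log (cl F (fun y => (k y, f y, g y)) x).card - Real.log (cl F k x).card) ≤
      ((cl F (fun y => (k y, f y)) x).card : ℝ) * (cl F (fun y => (k y, g y)) x).card /
      ((cl F (fun y => (k y, f y, g y)) x).card * (cl F k x).card) - 1 := by
    intro x hx
    have p1 := card_cl_pos (k := fun y => (k y, f y)) hx
    have p2 := card_cl_pos (k := fun y => (k y, g y)) hx
    have p3 := card_cl_pos (k := fun y => (k y, f y, g y)) hx
    have p4 := card_cl_pos (k := k) hx
    have h3 := Real.log_le_sub_one_of_pos (div_pos (mul_pos p1 p2) (mul_pos p3 p4))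
    rw [Real.log_div (mul_pos p1 p2).ne' (mul_pos p3 p4).ne', Real.log_mul p1.ne' p2.ne',
      Real.log_mul p3.ne' p4.ne'] at h3
    linarith
  refine (sum_le_sum h2).trans ?_
  rw [sum_sub_distrib, sum_const, nsmul_eq_mul, mul_one]
  linarith

/-- The conditional entropy of a bit. -/
theorem bit_log (k : α → κ) (f : α → Bool) :
    ∑ x ∈ F, (Real.log (cl F k x).card - Real.log (cl F (fun y => (k y, f y)) x).card) ≤
      F.card * Real.log 2 := by
  classical
  have h1 : ∑ x ∈ F, ((cl F k x).card : ℝ) / (cl F (fun y => (k y, f y)) x).card ≤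
      2 * F.card := by
    have h2 : ∀ x ∈ F, ((cl F k x).card : ℝ) / (cl F (fun y => (k y, f y)) x).card =
        ∑ y ∈ F, ∑ b : Bool, if k y = k x ∧ f x = b then
          1 / ((cl F (fun y => (k y, f y)) x).card : ℝ) else 0 := by
      intro x _
      have e1 : ((cl F k x).card : ℝ) = ∑ y ∈ F, if k y = k x then (1 : ℝ) else 0 := by
        rw [sum_boole]
        congr 2
      rw [e1, sum_div]
      refine sum_congr rfl fun y _ => ?_
      by_cases h : k y = k x
      · simp [h]
      · simp [h]
    rw [sum_congr rfl h2, sum_comm]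
    have h3 : ∀ y ∈ F, ∑ x ∈ F, ∑ b : Bool, (if k y = k x ∧ f x = b then
          1 / ((cl F (fun y => (k y, f y)) x).card : ℝ) else 0) ≤ 2 := by
      intro y hy
      rw [sum_comm]
      have h4 : ∀ b ∈ (univ : Finset Bool), ∑ x ∈ F, (if k y = k x ∧ f x = b then
          1 / ((cl F (fun y => (k y, f y)) x).card : ℝ) else 0) ≤ 1 := by
        intro b _
        rw [← sum_filter]
        by_cases hne : (F.filter fun x => k y = k x ∧ f x = b).Nonempty
        · obtain ⟨x0, hx0⟩ := hne
          rw [mem_filter] at hx0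
          obtain ⟨hx0F, a1, a2⟩ := hx0
          have h5 : (F.filter fun x => k y = k x ∧ f x = b) = cl F (fun y => (k y, f y)) x0 := by
            ext x
            rw [mem_filter, mem_cl, Prod.mk.injEq]
            constructor
            · rintro ⟨hx, b1, b2⟩
              exact ⟨hx, b1.symm.trans a1, b2.trans a2.symm⟩
            · rintro ⟨hx, b1, b2⟩
              exact ⟨hx, a1.trans b1.symm, b2.trans a2⟩
          rw [h5]
          have h6 : ∀ x ∈ cl F (fun y => (k y, f y)) x0,
              1 / ((cl F (fun y => (k y, f y)) x).card : ℝ) =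
              1 / ((cl F (fun y => (k y, f y)) x0).card : ℝ) := by
            intro x hx
            rw [cl_eq (mem_cl.1 hx).2]
          rw [sum_congr rfl h6, sum_const, nsmul_eq_mul]
          have h7 := card_cl_pos (k := fun y => (k y, f y)) hx0F
          refine le_of_eq ?_
          field_simp
        · rw [not_nonempty_iff_eq_empty.1 hne, sum_empty]
          exact zero_le_one
      refine (sum_le_sum h4).trans (le_of_eq ?_)
      simp
    refine (sum_le_sum h3).trans (le_of_eq ?_)
    rw [sum_const, nsmul_eq_mul, mul_comm]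
  have h2 : ∀ x ∈ F, (Real.log (cl F k x).card - Real.log (cl F (fun y => (k y, f y)) x).card) ≤
      ((cl F k x).card : ℝ) / (cl F (fun y => (k y, f y)) x).card / 2 - 1 + Real.log 2 := by
    intro x hx
    have p1 := card_cl_pos (k := fun y => (k y, f y)) hx
    have p2 := card_cl_pos (k := k) hx
    have h3 := Real.log_le_sub_one_of_pos (div_pos (div_pos p2 p1) two_pos)
    rw [Real.log_div (div_pos p2 p1).ne' two_ne_zero, Real.log_div p2.ne' p1.ne'] at h3
    linarith
  refine (sum_le_sum h2).trans ?_
  rw [sum_add_distrib, sum_sub_distrib, ← sum_div, sum_const, sum_const, nsmul_eq_mul,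
    nsmul_eq_mul, mul_one]
  linarith

end

/-! ### The entropy as a set function -/

variable {n : ℕ} {γ : Type}

/-- The coordinates in `S` and the value of `g`. -/
def key (g : (Fin n → Bool) → γ) (S : Finset (Fin n)) (x : Fin n → Bool) :
    (Fin n → Option Bool) × γ := (fun v => if v ∈ S then some (x v) else none, g x)

theorem key_eq {g : (Fin n → Bool) → γ} {S : Finset (Fin n)} {x y : Fin n → Bool} :
    key g S y = key g S x ↔ (∀ v ∈ S, y v = x v) ∧ g y = g x := by
  unfold key
  rw [Prod.mk.injEq]
  refine and_congr_left fun _ => ⟨fun h v hv => ?_, fun h => funext fun v => ?_⟩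
  · have := congrFun h v
    rw [if_pos hv, if_pos hv] at this
    exact Option.some_injective _ this
  · by_cases hv : v ∈ S
    · rw [if_pos hv, if_pos hv, h v hv]
    · rw [if_neg hv, if_neg hv]

/-- `|F|` times the entropy of `g` and the coordinates in `S`. -/
noncomputable def hF (F : Finset (Fin n → Bool)) (g : (Fin n → Bool) → γ) (S : Finset (Fin n)) :
    ℝ := ∑ x ∈ F, (Real.log F.card - Real.log (cl F (key g S) x).card)

theorem cl_insert (F : Finset (Fin n → Bool)) (g : (Fin n → Bool) → γ) (S : Finset (Fin n))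
    (a : Fin n) (x : Fin n → Bool) :
    cl F (key g (insert a S)) x = cl F (fun y => (key g S y, y a)) x := by
  refine cl_congr fun y _ => ?_
  rw [key_eq, Prod.mk.injEq, key_eq]
  constructor
  · rintro ⟨h1, h2⟩
    exact ⟨⟨fun v hv => h1 v (mem_insert_of_mem hv), h2⟩, h1 a (mem_insert_self a S)⟩
  · rintro ⟨⟨h1, h2⟩, h3⟩
    refine ⟨fun v hv => ?_, h2⟩
    rcases mem_insert.1 hv with rfl | hv
    · exact h3
    · exact h1 v hv

theorem cl_insert2 (F : Finset (Fin n → Bool)) (g : (Fin n → Bool) → γ) (S : Finset (Fin n))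
    (a b : Fin n) (x : Fin n → Bool) :
    cl F (key g (insert a (insert b S))) x = cl F (fun y => (key g S y, y a, y b)) x := by
  refine cl_congr fun y _ => ?_
  rw [key_eq, Prod.mk.injEq, key_eq, Prod.mk.injEq]
  constructor
  · rintro ⟨h1, h2⟩
    exact ⟨⟨fun v hv => h1 v (mem_insert_of_mem (mem_insert_of_mem hv)), h2⟩,
      h1 a (mem_insert_self a _), h1 b (mem_insert_of_mem (mem_insert_self b _))⟩
  · rintro ⟨⟨h1, h2⟩, h3, h4⟩
    refine ⟨fun v hv => ?_, h2⟩
    rcases mem_insert.1 hv with rfl | hv
    · exact h3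
    · rcases mem_insert.1 hv with rfl | hv
      · exact h4
      · exact h1 v hv

theorem hF_mono (F : Finset (Fin n → Bool)) (g : (Fin n → Bool) → γ) (S : Finset (Fin n))
    (a : Fin n) : hF F g S ≤ hF F g (insert a S) := by
  refine sum_le_sum fun x hx => ?_
  have h1 := card_cl_pos (k := key g (insert a S)) hx
  have h2 : ((cl F (key g (insert a S)) x).card : ℝ) ≤ (cl F (key g S) x).card := by
    refine card_cl_mono fun y _ h => ?_
    rw [key_eq] at h ⊢
    exact ⟨fun v hv => h.1 v (mem_insert_of_mem hv), h.2⟩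
  have h3 := Real.log_le_log h1 h2
  linarith

theorem hF_le (F : Finset (Fin n → Bool)) (g : (Fin n → Bool) → γ) (S : Finset (Fin n))
    (a : Fin n) : hF F g (insert a S) ≤ hF F g S + F.card * Real.log 2 := by
  have h1 := bit_log (F := F) (key g S) (fun y => y a)
  unfold hF
  rw [← sub_le_iff_le_add', ← sum_sub_distrib]
  refine le_trans (le_of_eq ?_) h1
  refine sum_congr rfl fun x _ => ?_
  rw [cl_insert]
  ring

theorem hF_sub (F : Finset (Fin n → Bool)) (g : (Fin n → Bool) → γ) (S : Finset (Fin n))
    (a b : Fin n) :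
    hF F g (insert a (insert b S)) + hF F g S ≤ hF F g (insert a S) + hF F g (insert b S) := by
  have h1 := cmi_log (F := F) (key g S) (fun y => y a) (fun y => y b)
  unfold hF
  rw [← sub_nonpos, ← sum_add_distrib, ← sum_add_distrib, ← sum_sub_distrib]
  refine le_trans (le_of_eq ?_) h1
  refine sum_congr rfl fun x _ => ?_
  rw [cl_insert2 F g S a b, cl_insert F g S a, cl_insert F g S b]
  ring

theorem hF_univ (F : Finset (Fin n → Bool)) (g : (Fin n → Bool) → γ) :
    hF F g univ = F.card * Real.log F.card := by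
  unfold hF
  have h1 : ∀ x ∈ F, Real.log F.card - Real.log (cl F (key g univ) x).card =
      Real.log F.card := by
    intro x hx
    have h2 : cl F (key g univ) x = {x} := by
      ext y
      rw [mem_cl, key_eq, mem_singleton]
      constructor
      · rintro ⟨_, h, _⟩
        exact funext fun v => h v (mem_univ v)
      · rintro rfl
        exact ⟨hx, fun _ _ => rfl, rfl⟩
    rw [h2, card_singleton, Nat.cast_one, Real.log_one, sub_zero]
  rw [sum_congr rfl h1, sum_const, nsmul_eq_mul]

/-! ### The statements in terms of `ent` and `TCf` -/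

open SRBP

/-- Restriction to `M`. -/
def rs (M : Finset (Fin n)) (x : Fin n → Bool) : Fin n → Option Bool :=
  fun v => if v ∈ M then some (x v) else none

theorem ent_eq {F : Finset (Fin n → Bool)} (f : (Fin n → Bool) → γ) (M : Finset (Fin n)) :
    ent F (fun x => (f x, rs M x)) = hF F f M / F.card := by
  unfold ent hF
  congr 1
  refine sum_congr rfl fun x hx => ?_
  have h1 : fib F (fun x => (f x, rs M x)) x = (cl F (key f M) x).card := by
    change (cl F (fun x => (f x, rs M x)) x).card = _
    rw [cl_congr (k' := key f M) (x' := x)]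
    intro y _
    unfold key rs
    rw [Prod.mk.injEq, Prod.mk.injEq]
    exact and_comm
  rw [h1]
  have h2 := card_cl_pos (k := key f M) hx
  have h3 : (0 : ℝ) < F.card := by
    have := card_pos.2 ⟨x, hx⟩
    exact_mod_cast this
  rw [Real.log_div h3.ne' h2.ne']

/-- (E1) The entropy is monotone and submodular. -/
theorem sub_ent {F : Finset (Fin n → Bool)} (hF0 : F.Nonempty) (f : (Fin n → Bool) → γ) :
    Sub (fun M => ent F (fun x => (f x, rs M x))) := by
  have h3 : (0 : ℝ) < F.card := by
    have := card_pos.2 hF0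
    exact_mod_cast this
  constructor
  · intro M v
    simp only [ent_eq]
    exact div_le_div_of_nonneg_right (hF_mono F f M v) h3.le
  · intro M v
    simp only [ent_eq]
    rw [div_add' _ _ _ h3.ne', mul_comm]
    exact div_le_div_of_nonneg_right (hF_le F f M v) h3.le
  · intro M v w
    simp only [ent_eq]
    rw [← add_div, ← add_div]
    exact div_le_div_of_nonneg_right (hF_sub F f M v w) h3.le

/-- The total correlation as a sum over the points. -/
theorem tc_hF (F : Finset (Fin n → Bool)) (g : (Fin n → Bool) → γ) (S : Finset (Fin n)) :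
    tc (hF F g) S = ∑ x ∈ F, ((∑ v ∈ Sᶜ, (Real.log (cl F (key g S) x).card -
      Real.log (cl F (key g (insert v S)) x).card)) - Real.log (cl F (key g S) x).card) := by
  unfold tc
  rw [hF_univ]
  unfold hF
  have h1 : ∀ v ∈ Sᶜ, (∑ x ∈ F, (Real.log F.card - Real.log (cl F (key g (insert v S)) x).card)) -
      ∑ x ∈ F, (Real.log F.card - Real.log (cl F (key g S) x).card) =
      ∑ x ∈ F, (Real.log (cl F (key g S) x).card -
        Real.log (cl F (key g (insert v S)) x).card) := by
    intro v _
    rw [← sum_sub_distrib]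
    exact sum_congr rfl fun x _ => by ring
  rw [sum_congr rfl h1, sum_comm, sum_sub_distrib, sum_sub_distrib, sum_const, nsmul_eq_mul]
  ring

theorem TCf_cl {F : Finset (Fin n → Bool)} (g : (Fin n → Bool) → γ) (S : Finset (Fin n)) :
    ∑ x ∈ F, TCf (cl F (key g S) x) = tc (hF F g) S := by
  rw [tc_hF]
  have h1 : ∀ y ∈ F, ∑ v, -Real.log (1 - wf (cl F (key g S) y) v y) =
      ∑ v ∈ Sᶜ, (Real.log (cl F (key g S) y).card -
        Real.log (cl F (key g (insert v S)) y).card) := by
    intro y hy
    have h2 : ∀ v, 1 - wf (cl F (key g S) y) v y =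
        ((cl F (key g (insert v S)) y).card : ℝ) / (cl F (key g S) y).card := by
      intro v
      have p1 := card_cl_pos (k := key g S) hy
      have e1 : ((cl F (key g S) y).filter (fun z => z v ≠ y v)).card +
          (cl F (key g (insert v S)) y).card = (cl F (key g S) y).card := by
        have e2 : cl F (key g (insert v S)) y = (cl F (key g S) y).filter (fun z => z v = y v) := by
          ext z
          rw [cl_insert, mem_cl, mem_filter, mem_cl, Prod.mk.injEq]
          tauto
        rw [e2, add_comm]
        exact card_filter_add_card_filter_not _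
      unfold wf
      rw [eq_div_iff p1.ne', sub_mul, one_mul, div_mul_cancel₀ _ p1.ne', sub_eq_iff_eq_add']
      exact_mod_cast e1.symm
    have h3 : ∀ v, -Real.log (1 - wf (cl F (key g S) y) v y) =
        Real.log (cl F (key g S) y).card - Real.log (cl F (key g (insert v S)) y).card := by
      intro v
      have p1 := card_cl_pos (k := key g S) hy
      have p2 := card_cl_pos (k := key g (insert v S)) hy
      rw [h2, Real.log_div p2.ne' p1.ne']
      ring
    rw [sum_congr rfl fun v _ => h3 v, ← sum_compl_add_sum S, add_eq_left]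
    refine sum_eq_zero fun v hv => ?_
    rw [insert_eq_of_mem hv, sub_self]
  have h4 : ∀ x ∈ F, TCf (cl F (key g S) x) =
      (∑ y ∈ cl F (key g S) x, ∑ v, -Real.log (1 - wf (cl F (key g S) y) v y)) /
        (cl F (key g S) x).card - Real.log (cl F (key g S) x).card := by
    intro x _
    unfold TCf
    congr 2
    refine sum_congr rfl fun y hy => ?_
    rw [cl_eq (mem_cl.1 hy).2]
  rw [sum_congr rfl h4, sum_sub_distrib,
    sum_avg (key g S) (fun y => ∑ v, -Real.log (1 - wf (cl F (key g S) y) v y)),
    sum_congr rfl h1, ← sum_sub_distrib]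

open scoped Classical in
/-- (E2) The mean of the total correlation over the classes. -/
theorem mean_tc (F : Finset (Fin n → Bool)) (f : (Fin n → Bool) → γ) (N : Finset (Fin n)) :
    (∑ x ∈ F, TCf (F.filter (fun y => (∀ v, v ∉ N → y v = x v) ∧ f y = f x))) / F.card =
      tc (fun M => ent F (fun x => (f x, rs M x))) Nᶜ := by
  have h1 : ∀ x, F.filter (fun y => (∀ v, v ∉ N → y v = x v) ∧ f y = f x) =
      cl F (key f Nᶜ) x := by
    intro x
    ext y
    rw [mem_filter, mem_cl, key_eq]
    simp only [mem_compl]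
  simp only [h1]
  rw [TCf_cl]
  unfold tc
  simp only [ent_eq]
  rw [sum_congr rfl fun v _ => (sub_div _ _ _).symm, ← sum_div, ← sub_div, ← sub_div]

end LINS
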