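import Pool.Agent.Lib.MP_9dcf40_lc.LIN.Spec
import Pool.Agent.Lib.MP_9dcf40_lc.LIN.ScaleC
import Pool.Agent.Lib.MP_9dcf40_lc.LIN.ScaleE

/-!
# Theorem K, Lemma 2 (the scale)
-/

namespace SRBP

open Finset

theorem scale_mf {α : Type} (F : Finset α) (p : α → Prop) (h : DecidablePred p) (x : α) :
    x ∈ @Finset.filter α p h F ↔ x ∈ F ∧ p x := @Finset.mem_filter α p h F x

theorem tScale : S_Scale := by
  intro r δ _ hδ
  obtain ⟨ν, hν, n0, H⟩ := LINS.scale_abs (Finset (Fin r)) r δ hδ
  refine ⟨ν, hν, n0, fun n hn β F sg D ℓ hF hl hD => ?_⟩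
  classical
  let f : Finset (Fin r) → (Fin n → Bool) → Fin r → Option β :=
    fun J x j => if j ∈ J then some (sg j x) else none
  obtain ⟨N, h1, h2, h3⟩ := H n hn (fun J M => ent F (fun x => (f J x, LINS.rs M x)))
    (fun J => LINS.sub_ent hF (f J)) _ F (fun x j => D j x) ℓ hF hl (fun x hx j => hD x hx j)
  refine ⟨N, h1, fun J => ?_, ?_⟩
  · have h4 := h2 J
    rw [← LINS.mean_tc F (f J) N] at h4
    refine le_trans (le_of_eq ?_) h4
    unfold tJ
    refine congrArg (fun z : ℝ => z / (F.card : ℝ)) (sum_congr rfl fun x _ => congrArg TCf ?_)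
    ext y
    unfold Cl
    refine Iff.trans (scale_mf _ _ _ _) (Iff.trans ?_ (scale_mf _ _ _ _).symm)
    apply and_congr_right
    intro _
    apply and_congr_right
    intro _
    constructor
    · intro h
      funext j
      simp only [f]
      split_ifs with hj
      · rw [h j hj]
      · rfl
    · intro h j hj
      have := congrFun h j
      simp only [f, if_pos hj] at this
      exact Option.some.inj this
  · refine le_trans ?_ h3
    rw [Nat.cast_le]
    apply card_le_card
    intro x hx
    rw [mem_filter] at hx ⊢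
    refine ⟨hx.1, ?_⟩
    obtain ⟨j, hj⟩ := hx.2
    refine ⟨j, ?_⟩
    have hn0 : 0 < n := by
      rcases Nat.eq_zero_or_pos n with h | h
      · subst h
        omega
      · exact h
    have hn' : (0 : ℝ) < n := by exact_mod_cast hn0
    have hj' : (2 : ℝ) * ℓ * N.card < n * (D j x ∩ N).card := by exact_mod_cast hj
    have e2 : 2 * ((ℓ : ℝ) / n) * N.card = (2 * ℓ * N.card) / n := by ring
    rw [e2, div_lt_iff₀ hn']
    linarith

end SRBP
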