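import Pool.Agent.Lib.MP_9dcf40_lc.LIN.Spec

/-!
# Theorem K (MP_9dcf40_lc): sizes of the rows and columns
-/

namespace SRBP

open Finset

/-- A set of points which agree with `x` outside `V` has at most `2 ^ |V|` elements. -/
private theorem siz_card {n : ℕ} (A : Finset (Fin n → Bool)) (V : Finset (Fin n))
    (x : Fin n → Bool) (h : ∀ y ∈ A, ∀ v, v ∉ V → y v = x v) : A.card ≤ 2 ^ V.card := by
  classical
  rw [← card_powerset]
  refine card_le_card_of_injOn (fun y => V.filter (fun v => y v = true)) ?_ ?_
  · intro y _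
    exact mem_coe.2 (mem_powerset.2 (filter_subset _ _))
  · intro y hy z hz hyz
    funext v
    by_cases hv : v ∈ V
    · have h1 : v ∈ V.filter (fun v => y v = true) ↔ v ∈ V.filter (fun v => z v = true) := by
        have : V.filter (fun v => y v = true) = V.filter (fun v => z v = true) := hyz
        rw [this]
      rw [mem_filter, mem_filter] at h1
      have h2 : y v = true ↔ z v = true := by simpa [hv] using h1
      cases hy' : y v <;> cases hz' : z v <;> simp_all
    · rw [h y (mem_coe.1 hy) v hv, h z (mem_coe.1 hz) v hv]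

theorem tSiz : S_Siz := by
  classical
  intro n r β F sg dm N G J v₀ hC ω hω
  have hx : ω.1 ∈ F := (mem_product.1 hω).1
  have hV : ω.2 ⊆ N \ G := mem_powerset.1 (mem_product.1 hω).2
  refine ⟨?_, ?_, ?_, ?_⟩
  · unfold rows
    rw [mem_filter]
    exact ⟨hx, fun v _ => rfl, fun j _ => rfl, rfl⟩
  · refine siz_card _ ω.2 ω.1 ?_
    intro y hy
    unfold rows at hy
    exact (mem_filter.1 hy).2.1
  · refine siz_card _ G ω.1 ?_
    intro y hy
    unfold cols at hy
    exact (mem_filter.1 hy).2.1
  · intro hk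
    unfold cols
    rw [mem_filter]
    refine ⟨hx, fun v _ => rfl, fun j _ => rfl, ?_⟩
    rw [disjoint_left]
    intro v hv hd
    unfold DJ at hd
    rw [mem_biUnion] at hd
    obtain ⟨j, hj, hvj⟩ := hd
    have hw : wf (Cl F N sg J ω.1) v ω.1 = 0 := by
      have he : (Cl F N sg J ω.1).filter (fun y => y v ≠ ω.1 v) = ∅ := by
        rw [filter_eq_empty_iff]
        intro y hy hne
        unfold Cl at hy
        obtain ⟨hyF, -, hyJ⟩ := mem_filter.1 hy
        exact hne (hC.val j ω.1 hx y hyF (hyJ j hj).symm v hvj).symm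
      unfold wf
      rw [he]
      simp
    have hb : bk (N \ G) (fun v => v₀ * N.card / UU F N sg J ω.1 *
        wf (Cl F N sg J ω.1) v ω.1) ω.2 = 0 := by
      unfold bk
      have h0 : ∏ v ∈ ω.2, (v₀ * N.card / UU F N sg J ω.1 * wf (Cl F N sg J ω.1) v ω.1) = 0 := by
        refine prod_eq_zero hv ?_
        rw [hw, mul_zero]
      rw [h0, zero_mul]
    unfold kw at hk
    rw [hb, zero_div] at hk
    exact lt_irrefl _ hk

end SRBP
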