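import Pool.Agent.Lib.MP_9dcf40_lc.LIN.Cutp

/-!
# Theorem K (MP_9dcf40_lc): TAIL (proof of `S_Tail`)
-/

namespace SRBP

namespace Tail

open Finset Cutp

variable {n : ℕ}

/-! ## Random subsets -/

theorem bk_sum (S : Finset (Fin n)) (t : Fin n → ℝ) : ∑ V ∈ S.powerset, bk S t V = 1 := by
  unfold bk
  rw [← Finset.prod_add]
  apply prod_eq_one
  intro v _
  ring

theorem bk_half (S : Finset (Fin n)) (t : Fin n → ℝ) :
    ∑ V ∈ S.powerset, bk S t V * (1 / 2 : ℝ) ^ V.card = ∏ v ∈ S, (1 - t v / 2) := by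
  have h : ∀ V ∈ S.powerset, bk S t V * (1 / 2 : ℝ) ^ V.card =
      (∏ v ∈ V, t v / 2) * ∏ v ∈ S \ V, (1 - t v) := by
    intro V _
    have e : ∏ v ∈ V, t v / 2 = (∏ v ∈ V, t v) * (1 / 2 : ℝ) ^ V.card := by
      rw [← prod_const, ← prod_mul_distrib]
      apply prod_congr rfl
      intro v _
      ring
    rw [e]
    unfold bk
    ring
  rw [sum_congr rfl h, ← Finset.prod_add]
  apply prod_congr rfl
  intro v _
  ring

theorem bk_nonneg (S : Finset (Fin n)) (t : Fin n → ℝ) (h0 : ∀ v, 0 ≤ t v) (h1 : ∀ v, t v ≤ 1)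
    (V : Finset (Fin n)) : 0 ≤ bk S t V := by
  unfold bk
  apply mul_nonneg
  · exact prod_nonneg (fun v _ => h0 v)
  · exact prod_nonneg (fun v _ => by linarith [h1 v])

/-! ## One coordinate -/

/-- Fraction of the points with a value different from `c`. -/
noncomputable def ff (C : Finset (Fin n → Bool)) (v : Fin n) (c : Bool) : ℝ := wf C v (fun _ => c)

theorem wf_ff (C : Finset (Fin n → Bool)) (v : Fin n) (x : Fin n → Bool) :
    wf C v x = ff C v (x v) := rfl

theorem ff_nonneg (C : Finset (Fin n → Bool)) (v : Fin n) (c : Bool) : 0 ≤ ff C v c := by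
  unfold ff wf
  positivity

theorem wf_nonneg (C : Finset (Fin n → Bool)) (v : Fin n) (x : Fin n → Bool) : 0 ≤ wf C v x := by
  unfold wf
  positivity

theorem ff_add {C : Finset (Fin n → Bool)} (hC : C.Nonempty) (v : Fin n) :
    ff C v true + ff C v false = 1 := by
  have hc : (0 : ℝ) < C.card := by exact_mod_cast card_pos.2 hC
  unfold ff wf
  rw [← add_div, div_eq_one_iff_eq hc.ne']
  have : C.filter (fun z => z v ≠ false) = C.filter (fun z => ¬ z v ≠ true) := by
    apply filter_congr
    intro z _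
    simp
  rw [this]
  exact_mod_cast card_filter_add_card_filter_not (s := C) (fun y => y v ≠ true)

theorem ff_le {C : Finset (Fin n → Bool)} (hC : C.Nonempty) (v : Fin n) (c : Bool) :
    ff C v c ≤ 1 := by
  have h := ff_add hC v
  have h1 := ff_nonneg C v true
  have h2 := ff_nonneg C v false
  cases c <;> linarith

theorem mean_ff {C : Finset (Fin n → Bool)} (hC : C.Nonempty) (v : Fin n) :
    ∑ y ∈ C, wf C v y = C.card * (2 * (ff C v true * ff C v false)) := by
  have hc : (0 : ℝ) < C.card := by exact_mod_cast card_pos.2 hC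
  have h1 : ∑ y ∈ C, wf C v y = ∑ y ∈ C.filter (fun y => y v ≠ true), wf C v y +
      ∑ y ∈ C.filter (fun y => ¬ y v ≠ true), wf C v y :=
    (sum_filter_add_sum_filter_not C (fun y => y v ≠ true) _).symm
  have h2 : ∑ y ∈ C.filter (fun y => y v ≠ true), wf C v y =
      (C.filter (fun y => y v ≠ true)).card * ff C v false := by
    rw [← nsmul_eq_mul, ← sum_const]
    apply sum_congr rfl
    intro y hy
    have hy' := (mem_filter.1 hy).2
    rw [ne_eq, Bool.not_eq_true] at hy'
    rw [wf_ff, hy']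
  have h3 : ∑ y ∈ C.filter (fun y => ¬ y v ≠ true), wf C v y =
      (C.filter (fun y => ¬ y v ≠ true)).card * ff C v true := by
    rw [← nsmul_eq_mul, ← sum_const]
    apply sum_congr rfl
    intro y hy
    have hy' := (mem_filter.1 hy).2
    rw [ne_eq, not_not] at hy'
    rw [wf_ff, hy']
  have h4 : ((C.filter (fun y => y v ≠ true)).card : ℝ) = C.card * ff C v true := by
    unfold ff wf
    field_simp
  have h5 : ((C.filter (fun y => ¬ y v ≠ true)).card : ℝ) = C.card * ff C v false := by
    have : C.filter (fun z => ¬ z v ≠ true) = C.filter (fun z => z v ≠ false) := by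
      apply filter_congr
      intro z _
      simp
    rw [this]
    unfold ff wf
    field_simp
  rw [h1, h2, h3, h4, h5]
  ring

/-! ## The reference measure -/

theorem ref1 {C : Finset (Fin n → Bool)} (hC : C.Nonempty) :
    ∑ x ∈ C, ∏ v, (1 - wf C v x) ≤ 1 := by
  classical
  have h0 : ∑ x : Fin n → Bool, ∏ v, (1 - wf C v x) = 1 := by
    have e1 := Fintype.prod_sum (fun (v : Fin n) (c : Bool) => 1 - ff C v c)
    refine Eq.trans e1.symm ?_
    apply prod_eq_one
    intro v _
    rw [Fintype.sum_bool]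
    have := ff_add hC v
    linarith
  refine le_trans ?_ h0.le
  apply sum_le_sum_of_subset_of_nonneg (subset_univ _)
  intro x _ _
  exact prod_nonneg (fun v _ => by
    rw [wf_ff]
    linarith [ff_le hC v (x v)])

theorem ref2 {C : Finset (Fin n → Bool)} (hC : C.Nonempty) (S : Finset (Fin n)) {a : ℝ}
    (ha0 : 0 ≤ a) (ha1 : a ≤ 1) :
    ∑ x ∈ C, (∏ v, (1 - wf C v x)) * ∏ v ∈ S, (1 - a * wf C v x / 2) ≤
      Real.exp (-(∑ v ∈ S, a * (2 * (ff C v true * ff C v false))) / 2) := by
  classical
  have hle : ∀ v c, 0 ≤ 1 - ff C v c := fun v c => by linarith [ff_le hC v c]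
  have hle2 : ∀ v c, 0 ≤ 1 - a * ff C v c / 2 := fun v c => by
    have h1 := ff_le hC v c
    have h2 := ff_nonneg C v c
    nlinarith
  have e0 : ∀ x : Fin n → Bool, (∏ v, (1 - wf C v x)) * ∏ v ∈ S, (1 - a * wf C v x / 2) =
      ∏ v, ((1 - ff C v (x v)) * (if v ∈ S then 1 - a * ff C v (x v) / 2 else 1)) := by
    intro x
    rw [prod_mul_distrib, prod_ite_mem, univ_inter]
    rfl
  have e1 := Fintype.prod_sum (fun (v : Fin n) (c : Bool) =>
    (1 - ff C v c) * (if v ∈ S then 1 - a * ff C v c / 2 else 1))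
  have h1 : ∑ x ∈ C, (∏ v, (1 - wf C v x)) * ∏ v ∈ S, (1 - a * wf C v x / 2) ≤
      ∑ x : Fin n → Bool,
        ∏ v, ((1 - ff C v (x v)) * (if v ∈ S then 1 - a * ff C v (x v) / 2 else 1)) := by
    rw [sum_congr rfl (fun x _ => e0 x)]
    apply sum_le_sum_of_subset_of_nonneg (subset_univ _)
    intro x _ _
    apply prod_nonneg
    intro v _
    apply mul_nonneg (hle v _)
    split_ifs
    · exact hle2 v _
    · norm_num
  refine le_trans h1 ?_
  rw [← e1]
  have h2 : Real.exp (-(∑ v ∈ S, a * (2 * (ff C v true * ff C v false))) / 2) =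
      ∏ v, (if v ∈ S then Real.exp (-(a * (ff C v true * ff C v false))) else 1) := by
    rw [prod_ite_mem, univ_inter, ← Real.exp_sum]
    congr 1
    rw [sum_neg_distrib, neg_div, sum_div]
    congr 1
    apply sum_congr rfl
    intro v _
    ring
  rw [h2]
  apply prod_le_prod
  · intro v _
    apply sum_nonneg
    intro c _
    apply mul_nonneg (hle v _)
    split_ifs
    · exact hle2 v _
    · norm_num
  · intro v _
    rw [Fintype.sum_bool]
    have h3 := ff_add hC v
    split_ifs with hv
    · have h4 := Real.add_one_le_exp (-(a * (ff C v true * ff C v false)))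
      have h5 : ff C v false = 1 - ff C v true := by linarith
      rw [h5] at h4 ⊢
      refine le_trans (le_of_eq ?_) h4
      ring
    · linarith

/-! ## The tail in a class -/

theorem tailC {C : Finset (Fin n → Bool)} (hC : C.Nonempty) (S : Finset (Fin n)) {a m T : ℝ}
    (ha0 : 0 ≤ a) (ha1 : a ≤ 1)
    (hm : m = ∑ v ∈ S, a * (2 * (ff C v true * ff C v false))) (hT : T ≤ m / 4) :
    m / 4 * (∑ y ∈ C, ∑ V ∈ S.powerset.filter (fun V => (V.card : ℝ) ≤ T),
      bk S (fun v => a * wf C v y) V) ≤ C.card * (TCf C + Real.log 2) := by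
  classical
  have hc : (0 : ℝ) < C.card := by exact_mod_cast card_pos.2 hC
  have hm0 : 0 ≤ m := by
    rw [hm]
    apply sum_nonneg
    intro v _
    have h1 := ff_nonneg C v true
    have h2 := ff_nonneg C v false
    positivity
  have ht0 : ∀ y v, 0 ≤ a * wf C v y := fun y v => mul_nonneg ha0 (wf_nonneg C v y)
  have ht1 : ∀ y v, a * wf C v y ≤ 1 := fun y v => by
    have h1 := ff_le hC v (y v)
    have h2 := ff_nonneg C v (y v)
    rw [wf_ff]
    nlinarith
  set K : ℝ := Real.exp (m / 4) * Real.exp (Real.log 2 * (m / 4)) with hK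
  have hKpos : 0 < K := by positivity
  have hK1 : K * Real.exp (-m / 2) ≤ 1 := by
    rw [hK, ← Real.exp_add, ← Real.exp_add, Real.exp_le_one_iff]
    have := Real.log_two_lt_d9
    nlinarith
  let E : Finset (Fin n) → ℝ := fun V => if (V.card : ℝ) ≤ T then Real.exp (m / 4) else 1
  have hEpos : ∀ V, 0 < E V := by
    intro V
    simp only [E]
    split_ifs
    · exact Real.exp_pos _
    · norm_num
  have hE : ∀ V, E V ≤ 1 + K * (1 / 2 : ℝ) ^ V.card := by
    intro V
    simp only [E]
    split_ifs with hV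
    · have h1 : (1 / 2 : ℝ) ^ V.card = Real.exp (-(Real.log 2 * V.card)) := by
        rw [← Real.rpow_natCast, Real.rpow_def_of_pos (by norm_num)]
        congr 1
        rw [one_div, Real.log_inv]
        ring
      have h2 : 1 ≤ Real.exp (Real.log 2 * (m / 4)) * (1 / 2 : ℝ) ^ V.card := by
        rw [h1, ← Real.exp_add]
        apply Real.one_le_exp
        have h3 : 0 < Real.log 2 := Real.log_pos (by norm_num)
        nlinarith
      have h3 : Real.exp (m / 4) ≤ K * (1 / 2 : ℝ) ^ V.card := by
        rw [hK, mul_assoc]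
        exact le_mul_of_one_le_right (Real.exp_pos _).le h2
      linarith
    · have : 0 ≤ K * (1 / 2 : ℝ) ^ V.card := by positivity
      linarith
  have hp : ∀ x ∈ C, ∀ v, 0 < 1 - wf C v x := fun x hx v => by
    have := wf_lt hx v
    linarith
  -- the mass of the reference measure
  have hmass : ∑ x ∈ C, (∏ v, (1 - wf C v x)) *
      ∑ V ∈ S.powerset, bk S (fun v => a * wf C v x) V * E V ≤ 2 := by
    have h1 : ∀ x ∈ C, (∏ v, (1 - wf C v x)) *
        ∑ V ∈ S.powerset, bk S (fun v => a * wf C v x) V * E V ≤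
        (∏ v, (1 - wf C v x)) + K * ((∏ v, (1 - wf C v x)) *
          ∏ v ∈ S, (1 - a * wf C v x / 2)) := by
      intro x hx
      have h2 : ∑ V ∈ S.powerset, bk S (fun v => a * wf C v x) V * E V ≤
          1 + K * ∏ v ∈ S, (1 - a * wf C v x / 2) := by
        have h3 : ∀ V ∈ S.powerset, bk S (fun v => a * wf C v x) V * E V ≤
            bk S (fun v => a * wf C v x) V +
              K * (bk S (fun v => a * wf C v x) V * (1 / 2 : ℝ) ^ V.card) := by
          intro V _
          have h4 := mul_le_mul_of_nonneg_left (hE V)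
            (bk_nonneg S (fun v => a * wf C v x) (ht0 x) (ht1 x) V)
          linarith
        refine le_trans (sum_le_sum h3) ?_
        rw [sum_add_distrib, bk_sum, ← mul_sum, bk_half]
      have h5 : 0 ≤ ∏ v, (1 - wf C v x) := prod_nonneg (fun v _ => (hp x hx v).le)
      have h6 := mul_le_mul_of_nonneg_left h2 h5
      linarith
    refine le_trans (sum_le_sum h1) ?_
    rw [sum_add_distrib, ← mul_sum]
    have h7 := ref1 hC
    have h8 := mul_le_mul_of_nonneg_left (ref2 hC S ha0 ha1) hKpos.le
    rw [← hm] at h8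
    linarith
  -- the Gibbs inequality
  have hG : ∀ x ∈ C, Real.log C.card + ∑ v, Real.log (1 - wf C v x) +
      m / 4 * (∑ V ∈ S.powerset.filter (fun V => (V.card : ℝ) ≤ T),
        bk S (fun v => a * wf C v x) V) - Real.log 2 ≤
      C.card / 2 * ((∏ v, (1 - wf C v x)) *
        ∑ V ∈ S.powerset, bk S (fun v => a * wf C v x) V * E V) - 1 := by
    intro x hx
    have hpp : 0 < ∏ v, (1 - wf C v x) := prod_pos (fun v _ => hp x hx v)
    have h1 : ∀ V ∈ S.powerset, bk S (fun v => a * wf C v x) V *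
        (Real.log C.card + ∑ v, Real.log (1 - wf C v x) - Real.log 2 + Real.log (E V)) ≤
        bk S (fun v => a * wf C v x) V *
          (C.card / 2 * (∏ v, (1 - wf C v x)) * E V - 1) := by
      intro V _
      apply mul_le_mul_of_nonneg_left _
        (bk_nonneg S (fun v => a * wf C v x) (ht0 x) (ht1 x) V)
      have e : Real.log C.card + ∑ v, Real.log (1 - wf C v x) - Real.log 2 + Real.log (E V) =
          Real.log (C.card / 2 * (∏ v, (1 - wf C v x)) * E V) := by
        rw [Real.log_mul (by positivity) (hEpos V).ne', Real.log_mul (by positivity) hpp.ne',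
          Real.log_div hc.ne' (by norm_num), Real.log_prod (fun v _ => (hp x hx v).ne')]
        ring
      rw [e]
      have := hEpos V
      exact Real.log_le_sub_one_of_pos (by positivity)
    have h2 := sum_le_sum h1
    have e1 : ∑ V ∈ S.powerset, bk S (fun v => a * wf C v x) V *
        (Real.log C.card + ∑ v, Real.log (1 - wf C v x) - Real.log 2 + Real.log (E V)) =
        Real.log C.card + ∑ v, Real.log (1 - wf C v x) - Real.log 2 +
        m / 4 * (∑ V ∈ S.powerset.filter (fun V => (V.card : ℝ) ≤ T),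
        bk S (fun v => a * wf C v x) V) := by
      simp_rw [mul_add]
      rw [sum_add_distrib, ← sum_mul, bk_sum, one_mul]
      congr 1
      rw [sum_filter, mul_sum]
      apply sum_congr rfl
      intro V _
      simp only [E]
      split_ifs
      · rw [Real.log_exp]
        ring
      · simp
    have e2 : ∑ V ∈ S.powerset, bk S (fun v => a * wf C v x) V *
          (C.card / 2 * (∏ v, (1 - wf C v x)) * E V - 1) =
        C.card / 2 * ((∏ v, (1 - wf C v x)) *
        ∑ V ∈ S.powerset, bk S (fun v => a * wf C v x) V * E V) - 1 := by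
      simp_rw [mul_sub, mul_one]
      rw [sum_sub_distrib, bk_sum, mul_sum, mul_sum]
      congr 1
      apply sum_congr rfl
      intro V _
      ring
    rw [e1, e2] at h2
    linarith
  have h3 := sum_le_sum hG
  have e3 : ∑ x ∈ C, (C.card / 2 * ((∏ v, (1 - wf C v x)) *
        ∑ V ∈ S.powerset, bk S (fun v => a * wf C v x) V * E V) - 1) =
      C.card / 2 * ∑ x ∈ C, ((∏ v, (1 - wf C v x)) *
        ∑ V ∈ S.powerset, bk S (fun v => a * wf C v x) V * E V) - C.card := by
    rw [sum_sub_distrib, ← mul_sum, sum_const, nsmul_eq_mul, mul_one]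
  have e4 : ∑ x ∈ C, (Real.log C.card + ∑ v, Real.log (1 - wf C v x) +
      m / 4 * (∑ V ∈ S.powerset.filter (fun V => (V.card : ℝ) ≤ T),
        bk S (fun v => a * wf C v x) V) - Real.log 2) =
      C.card * Real.log C.card + ∑ x ∈ C, ∑ v, Real.log (1 - wf C v x) +
      m / 4 * (∑ x ∈ C, ∑ V ∈ S.powerset.filter (fun V => (V.card : ℝ) ≤ T),
        bk S (fun v => a * wf C v x) V) - C.card * Real.log 2 := by
    rw [sum_sub_distrib, sum_add_distrib, sum_add_distrib, sum_const, sum_const, nsmul_eq_mul,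
      nsmul_eq_mul, ← mul_sum]
  rw [e3, e4] at h3
  have h4 := mul_le_mul_of_nonneg_left hmass (by positivity : (0 : ℝ) ≤ C.card / 2)
  have e5 : C.card * TCf C = -(∑ x ∈ C, ∑ v, Real.log (1 - wf C v x)) -
      C.card * Real.log C.card := by
    unfold TCf
    have h6 : ∑ x ∈ C, ∑ v, -Real.log (1 - wf C v x) =
        -∑ x ∈ C, ∑ v, Real.log (1 - wf C v x) := by
      rw [← sum_neg_distrib]
      apply sum_congr rfl
      intro x _
      rw [← sum_neg_distrib]
    rw [h6]
    field_simp
  rw [mul_add, e5]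
  linarith

/-! ## A class, in both cases -/

theorem tailD {C : Finset (Fin n → Bool)} (hC : C.Nonempty) (N G : Finset (Fin n)) (hG : G ⊆ N)
    {a M : ℝ} (ha0 : 0 ≤ a) (ha1 : a ≤ 1) (hM : 0 < M)
    (haM : a * (∑ y ∈ C, ∑ v ∈ N, wf C v y) = M * C.card) :
    ∑ y ∈ C, ∑ V ∈ (N \ G).powerset.filter (fun V => (V.card : ℝ) ≤ M / 8),
      bk (N \ G) (fun v => a * wf C v y) V ≤
    2 * (∑ y ∈ C, a * ∑ v ∈ G, wf C v y) / M + C.card * (8 * (TCf C + Real.log 2) / M) := by
  classical
  have hc : (0 : ℝ) < C.card := by exact_mod_cast card_pos.2 hC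
  have ht0 : ∀ y v, 0 ≤ a * wf C v y := fun y v => mul_nonneg ha0 (wf_nonneg C v y)
  have ht1 : ∀ y v, a * wf C v y ≤ 1 := fun y v => by
    have h1 := ff_le hC v (y v)
    have h2 := ff_nonneg C v (y v)
    rw [wf_ff]
    nlinarith
  have hTC := TCf_nonneg hC
  have hl2 : 0 < Real.log 2 := Real.log_pos (by norm_num)
  set kap : ℝ := ∑ y ∈ C, a * ∑ v ∈ G, wf C v y with hkap
  have hkap0 : 0 ≤ kap := by
    apply sum_nonneg
    intro y _
    exact mul_nonneg ha0 (sum_nonneg (fun v _ => wf_nonneg C v y))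
  set m : ℝ := ∑ v ∈ N \ G, a * (2 * (ff C v true * ff C v false)) with hm
  have hmk : C.card * m = M * C.card - kap := by
    have h1 : ∑ v ∈ N \ G, ∑ y ∈ C, a * wf C v y = C.card * m := by
      rw [hm, mul_sum]
      apply sum_congr rfl
      intro v _
      rw [← mul_sum, mean_ff hC]
      ring
    have h2 : ∑ v ∈ N \ G, ∑ y ∈ C, a * wf C v y + ∑ v ∈ G, ∑ y ∈ C, a * wf C v y =
        ∑ v ∈ N, ∑ y ∈ C, a * wf C v y := sum_sdiff hG
    have h3 : ∑ v ∈ G, ∑ y ∈ C, a * wf C v y = kap := by
      rw [hkap, sum_comm]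
      apply sum_congr rfl
      intro y _
      rw [mul_sum]
    have h4 : ∑ v ∈ N, ∑ y ∈ C, a * wf C v y = M * C.card := by
      rw [← haM, mul_sum, sum_comm]
      apply sum_congr rfl
      intro y _
      rw [mul_sum]
    linarith
  set P : ℝ := ∑ y ∈ C, ∑ V ∈ (N \ G).powerset.filter (fun V => (V.card : ℝ) ≤ M / 8),
      bk (N \ G) (fun v => a * wf C v y) V with hP
  have hP0 : 0 ≤ P := by
    apply sum_nonneg
    intro y _
    apply sum_nonneg
    intro V _
    exact bk_nonneg _ _ (ht0 y) (ht1 y) V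
  have hP1 : P ≤ C.card := by
    have : ∀ y ∈ C, ∑ V ∈ (N \ G).powerset.filter (fun V => (V.card : ℝ) ≤ M / 8),
      bk (N \ G) (fun v => a * wf C v y) V ≤ 1 := by
      intro y _
      rw [← bk_sum (N \ G) (fun v => a * wf C v y)]
      apply sum_le_sum_of_subset_of_nonneg (filter_subset _ _)
      intro V _ _
      exact bk_nonneg _ _ (ht0 y) (ht1 y) V
    have h := sum_le_sum this
    rw [sum_const, nsmul_eq_mul, mul_one] at h
    exact h
  have hr0 : 0 ≤ C.card * (8 * (TCf C + Real.log 2) / M) := by positivity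
  by_cases hcase : M / 2 ≤ m
  · have h1 := tailC hC (N \ G) (T := M / 8) ha0 ha1 hm (by linarith)
    rw [← hP] at h1
    have h2 : M / 8 * P ≤ m / 4 * P := mul_le_mul_of_nonneg_right (by linarith) hP0
    have h3 : P ≤ C.card * (8 * (TCf C + Real.log 2) / M) := by
      have h4 : M / 8 * P ≤ C.card * (TCf C + Real.log 2) := h2.trans h1
      have e : C.card * (8 * (TCf C + Real.log 2) / M) =
          (C.card * (TCf C + Real.log 2)) / (M / 8) := by
        field_simp
      rw [e, le_div_iff₀ (by positivity)]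
      linarith
    have h5 : 0 ≤ 2 * kap / M := by positivity
    linarith
  · push Not at hcase
    have h1 : (C.card : ℝ) ≤ 2 * kap / M := by
      rw [le_div_iff₀ hM]
      nlinarith
    linarith

end Tail

open Finset Cutp Tail in
theorem tTail : S_Tail := by
  classical
  intro n r β F sg N G J v₀ hF hN hG hv hU
  have hFc : (0 : ℝ) < F.card := by exact_mod_cast card_pos.2 hF
  have hNc : (0 : ℝ) < N.card := by exact_mod_cast card_pos.2 hN
  set M : ℝ := v₀ * N.card with hM
  have hM0 : 0 < M := by positivity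
  let a : (Fin n → Bool) → ℝ := fun x => M / UU F N sg J x
  let h : (Fin n → Bool) → ℝ := fun x =>
    ∑ V ∈ (N \ G).powerset.filter (fun V => (V.card : ℝ) ≤ M / 8),
      bk (N \ G) (fun v => a x * wf (Cl F N sg J x) v x) V
  let kp : (Fin n → Bool) → ℝ := fun x => a x * ∑ v ∈ G, wf (Cl F N sg J x) v x
  have e1 : ∑ ω ∈ (Om F N G).filter (fun ω => (ω.2.card : ℝ) ≤ v₀ * N.card / 8),
      kw F N G sg J v₀ ω = (∑ x ∈ F, h x) / F.card := by
    unfold Om
    rw [sum_filter, sum_product, sum_div]
    apply sum_congr rfl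
    intro x _
    simp only [h]
    rw [sum_filter, sum_div]
    apply sum_congr rfl
    intro V _
    simp only [kw]
    split_ifs
    · rfl
    · simp
  have havg := avg_gen F (fun x => Cl F N sg J x) (fun x _ y hy => (mem_Cl.1 hy).1)
    (fun x hx => Cl_self hx) (fun x _ y hy => Cl_eq hy)
  have key : ∀ x ∈ F, (∑ y ∈ Cl F N sg J x, h y) / (Cl F N sg J x).card ≤
      2 * ((∑ y ∈ Cl F N sg J x, kp y) / (Cl F N sg J x).card) / M +
        8 * (TCf (Cl F N sg J x) + Real.log 2) / M := by
    intro x hx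
    have hC : (Cl F N sg J x).Nonempty := ⟨x, Cl_self hx⟩
    have hc : (0 : ℝ) < (Cl F N sg J x).card := by exact_mod_cast card_pos.2 hC
    have hUx := hU x hx
    have hUpos : 0 < UU F N sg J x := lt_of_lt_of_le hM0 hUx
    have h1 := tailD hC N G hG (a := a x) (M := M) (by positivity)
      (by rw [div_le_one hUpos]; exact hUx) hM0 (by
        simp only [a]
        have : ∑ y ∈ Cl F N sg J x, ∑ v ∈ N, wf (Cl F N sg J x) v y =
            UU F N sg J x * (Cl F N sg J x).card := by
          unfold UU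
          field_simp
        rw [this]
        field_simp)
    have h2 : ∑ y ∈ Cl F N sg J x, h y = ∑ y ∈ Cl F N sg J x,
        ∑ V ∈ (N \ G).powerset.filter (fun V => (V.card : ℝ) ≤ M / 8),
          bk (N \ G) (fun v => a x * wf (Cl F N sg J x) v y) V := by
      apply sum_congr rfl
      intro y hy
      simp only [h, a]
      rw [Cl_eq hy, UU_eq hy]
    have h3 : ∑ y ∈ Cl F N sg J x, kp y =
        ∑ y ∈ Cl F N sg J x, a x * ∑ v ∈ G, wf (Cl F N sg J x) v y := by
      apply sum_congr rfl
      intro y hy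
      simp only [kp, a]
      rw [Cl_eq hy, UU_eq hy]
    rw [h2, h3, div_le_iff₀ hc]
    refine h1.trans (le_of_eq ?_)
    field_simp
  have h4 := sum_le_sum key
  rw [havg h, sum_add_distrib, ← sum_div, ← mul_sum, havg kp, ← sum_div, ← mul_sum,
    sum_add_distrib, sum_const, nsmul_eq_mul] at h4
  rw [e1, div_le_iff₀ hFc]
  refine h4.trans (le_of_eq ?_)
  unfold tJ
  simp only [kp, a]
  field_simp

end SRBP
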