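import Pool.Agent.Lib.MP_9dcf40_lc.SR.Spec
import Pool.Agent.Lib.MP_9dcf40_lc.LIN.Spec

/-!
# Theorem K (MP_9dcf40_lc): the theorem for quartic polynomials
-/

namespace SRBP

open Finset

theorem tTopK (h1 : S_Core) (h2 : S_Prog) (h3 : S_Qua) (h4 : S_Bal) : S_TopK := by
  classical
  intro k hk
  obtain ⟨r, hr, c, hc, n₀, hCore⟩ := h1 k hk
  obtain ⟨c2, hc2, hBal⟩ := h4 (c / 8) (by positivity)
  obtain ⟨N3, hQ⟩ := h3 (c / 2) (by positivity)
  have hr' : (1 : ℝ) ≤ r := by exact_mod_cast hr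
  set ε : ℝ := min (c / (8 * (r + 3))) c2 with hε
  have hε0 : 0 < ε := by
    rw [hε]
    exact lt_min (by positivity) hc2
  have hε1 : ε ≤ c / (8 * (r + 3)) := min_le_left _ _
  have hε2 : ε ≤ c2 := min_le_right _ _
  have hε3 : ε * (r + 3) ≤ c / 8 := by
    have : c / (8 * ((r : ℝ) + 3)) * (r + 3) = c / 8 := by field_simp
    rw [← this]
    exact mul_le_mul_of_nonneg_right hε1 (by positivity)
  refine ⟨ε, hε0, max N3 (max n₀ ⌈2 / c⌉₊), ?_⟩
  intro n hn
  have n1 : N3 ≤ n := le_trans (le_max_left _ _) hn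
  have n2 : n₀ ≤ n := le_trans (le_trans (le_max_left _ _) (le_max_right _ _)) hn
  have n3 : 2 / c ≤ n := by
    have : ⌈2 / c⌉₊ ≤ n := le_trans (le_trans (le_max_right _ _) (le_max_right _ _)) hn
    exact le_trans (Nat.le_ceil _) (by exact_mod_cast this)
  have n3' : 2 ≤ c * n := by
    rw [div_le_iff₀ hc] at n3
    linarith
  set t : ℕ := ⌈Real.exp (c / 2 * n)⌉₊ with ht
  obtain ⟨cc, hcc, hNR⟩ := hQ n n1 t (Nat.le_ceil _)
  refine ⟨cc, ⟨(univ : Finset (Fin n → Bool)).filter (fun y => fq cc y), by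
        intro y hy
        exact (mem_filter.1 hy).2, by
        refine le_trans hcc (le_of_eq ?_)
        congr⟩, ?_⟩
  intro P s hs hf A hA hAcard
  by_contra hV
  rw [not_le] at hV
  have hApos : (0 : ℝ) < A.card := lt_of_lt_of_le (by positivity) hAcard
  have hAne : A.Nonempty := by
    rw [← card_pos]
    exact_mod_cast hApos
  have hkl : k * n ≤ r * (k * n / r + 1) := (Nat.lt_mul_div_succ (k * n) hr).le
  obtain ⟨F, hFA, hFne, hFc, sg, dm, hCPS, hdm, E, hE, hacc⟩ :=
    h2 n r k s (k * n / r + 1) P A hr hkl hAne hA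
  have hball := hBal n s (le_trans hs (mul_le_mul_of_nonneg_right hε2 (Nat.cast_nonneg n)))
  have hballpos : (0 : ℝ) < ball n s := by
    have : 0 < ball n s := by
      unfold ball
      refine card_pos.2 ⟨∅, ?_⟩
      simp
    exact_mod_cast this
  have hVpos : (0 : ℝ) < Fintype.card P.V := by
    have : 0 < Fintype.card P.V := Fintype.card_pos_iff.2 ⟨P.start⟩
    exact_mod_cast this
  have hF : (2 : ℝ) ^ n * Real.exp (-(c * n)) ≤ F.card := by
    have hb : (ball n s : ℝ) ≤ Real.exp (c / 8 * n) := by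
      rw [← Real.exp_log hballpos]
      exact Real.exp_le_exp.2 hball
    have h2s : (2 : ℝ) ^ s ≤ Real.exp (ε * n) := by
      have h2e : (2 : ℝ) ≤ Real.exp 1 := by
        have := Real.add_one_le_exp (1 : ℝ)
        linarith
      calc (2 : ℝ) ^ s ≤ Real.exp 1 ^ s := pow_le_pow_left₀ (by norm_num) h2e _
        _ = Real.exp s := by rw [← Real.exp_nat_mul, mul_one]
        _ ≤ _ := Real.exp_le_exp.2 hs
    have hv : (Fintype.card P.V : ℝ) ^ (r + 1) ≤ Real.exp (ε * n * (r + 1)) := by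
      calc (Fintype.card P.V : ℝ) ^ (r + 1) ≤ Real.exp (ε * n) ^ (r + 1) :=
            pow_le_pow_left₀ hVpos.le hV.le _
        _ = _ := by
          rw [← Real.exp_nat_mul]
          congr 1
          push_cast
          ring
    have hFn : (0 : ℝ) ≤ F.card := Nat.cast_nonneg _
    have h5 : (2 : ℝ) ^ n * Real.exp (-(ε * n)) ≤
        Real.exp (c / 8 * n) * Real.exp (ε * n) * Real.exp (ε * n * (r + 1)) * F.card := by
      refine le_trans (le_trans hAcard hFc) ?_
      gcongr
    have h6 : (2 : ℝ) ^ n ≤ Real.exp (c * n) * F.card := by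
      have h7 : Real.exp (ε * n) * (Real.exp (c / 8 * n) * Real.exp (ε * n) *
          Real.exp (ε * n * (r + 1))) ≤ Real.exp (c * n) := by
        rw [← Real.exp_add, ← Real.exp_add, ← Real.exp_add]
        refine Real.exp_le_exp.2 ?_
        have h8 : ε * n + (c / 8 * n + ε * n + ε * n * (r + 1)) = (ε * (r + 3) + c / 8) * n := by
          ring
        rw [h8]
        apply mul_le_mul_of_nonneg_right _ (Nat.cast_nonneg n)
        linarith
      have h9 : Real.exp (ε * n) * Real.exp (-(ε * n)) = 1 := by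
        rw [← Real.exp_add, add_neg_cancel, Real.exp_zero]
      calc (2 : ℝ) ^ n = Real.exp (ε * n) * (2 ^ n * Real.exp (-(ε * n))) := by
            rw [mul_left_comm, h9, mul_one]
        _ ≤ Real.exp (ε * n) * (Real.exp (c / 8 * n) * Real.exp (ε * n) *
            Real.exp (ε * n * (r + 1)) * F.card) :=
            mul_le_mul_of_nonneg_left h5 (Real.exp_pos _).le
        _ = (Real.exp (ε * n) * (Real.exp (c / 8 * n) * Real.exp (ε * n) *
            Real.exp (ε * n * (r + 1)))) * F.card := by ring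
        _ ≤ _ := mul_le_mul_of_nonneg_right h7 hFn
    rw [Real.exp_neg, ← div_eq_mul_inv, div_le_iff₀ (Real.exp_pos _)]
    linarith
  obtain ⟨x, hx, J, V, A', hA', B', hB', hAt, hBt, hAx, hBx, hyb⟩ :=
    hCore n n2 _ F sg dm hCPS hFne hdm hF
  have htb : (t : ℝ) ≤ Real.exp (c * n) := by
    have h : (t : ℝ) ≤ Real.exp (c / 2 * n) + 1 := (Nat.ceil_lt_add_one (Real.exp_pos _).le).le
    have hone : (1 : ℝ) ≤ Real.exp (c / 2 * n) := Real.one_le_exp (by positivity)
    have h2e : (2 : ℝ) ≤ Real.exp 1 := by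
      have := Real.add_one_le_exp (1 : ℝ)
      linarith
    calc (t : ℝ) ≤ 2 * Real.exp (c / 2 * n) := by linarith
      _ ≤ Real.exp 1 * Real.exp (c / 2 * n) := mul_le_mul_of_nonneg_right h2e (Real.exp_pos _).le
      _ = Real.exp (1 + c / 2 * n) := (Real.exp_add _ _).symm
      _ ≤ Real.exp (c * n) := by
          refine Real.exp_le_exp.2 ?_
          linarith
  obtain ⟨a, ha, b, hb, hab⟩ := hNR V A' B' (by exact_mod_cast htb.trans hAt)
    (by exact_mod_cast htb.trans hBt)
    (fun a ha a' ha' v hv => (hAx a ha v hv).trans (hAx a' ha' v hv).symm)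
    (fun b hb b' hb' v hv => (hBx b hb v hv).trans (hBx b' hb' v hv).symm)
  apply hab
  apply hf
  apply hacc
  · refine ⟨x, hx, fun v hv => ?_⟩
    unfold glue
    split_ifs
    · exact hE a (hA' ha) x hx v hv
    · exact hE b (hB' hb) x hx v hv
  · intro j
    by_cases hj : j ∈ J
    · exact ⟨b, hB' hb, fun v hv => (hyb a ha b hb).1 j hj v hv⟩
    · exact ⟨a, hA' ha, fun v hv => (hyb a ha b hb).2 j hj v hv⟩

end SRBP
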