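import Pool.Agent.Lib.MP_9dcf40_lc.SR.All
import Pool.Agent.Lib.MP_9dcf40_lc.LIN.Cols
import Pool.Agent.Lib.MP_9dcf40_lc.LIN.Core
import Pool.Agent.Lib.MP_9dcf40_lc.LIN.Cutp
import Pool.Agent.Lib.MP_9dcf40_lc.LIN.Fin
import Pool.Agent.Lib.MP_9dcf40_lc.LIN.Gch
import Pool.Agent.Lib.MP_9dcf40_lc.LIN.HitT
import Pool.Agent.Lib.MP_9dcf40_lc.LIN.Hyb
import Pool.Agent.Lib.MP_9dcf40_lc.LIN.Kw
import Pool.Agent.Lib.MP_9dcf40_lc.LIN.Par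
import Pool.Agent.Lib.MP_9dcf40_lc.LIN.Prog
import Pool.Agent.Lib.MP_9dcf40_lc.LIN.Rows56
import Pool.Agent.Lib.MP_9dcf40_lc.LIN.Scale
import Pool.Agent.Lib.MP_9dcf40_lc.LIN.Sec3
import Pool.Agent.Lib.MP_9dcf40_lc.LIN.Siz
import Pool.Agent.Lib.MP_9dcf40_lc.LIN.Tail
import Pool.Agent.Lib.MP_9dcf40_lc.LIN.TopC
import Pool.Agent.Lib.MP_9dcf40_lc.LIN.TopK

/-!
# Theorem K (MP_9dcf40_lc): all modules together
-/

namespace SRBP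

theorem aFin : S_Fin := tFin tGch tKw tRows56 (tCols (tHitT (tHit tPow))) tTail tSiz tHyb

theorem aCore : S_Core := tCore tScale tSec3 tCutp aFin tPar

theorem aTopK : S_TopK := tTopK aCore tProg aQua tBal

end SRBP
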