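import Pool.Agent.Lib.MP_9dcf40_lc.LIN.SpecT

/-!
# Averaging over blocks (MP_9dcf40_lc): `S_Avb`
-/

namespace SRBP

open Finset

/-- Replacing one coordinate: each point is hit `|B|` times. -/
theorem avb_swap {t : ℕ} {Y : Type} [Fintype Y] (B : Finset Y) (j : Fin t)
    (f : (Fin t → Y) → ℕ) :
    ∑ y ∈ Fintype.piFinset (fun _ : Fin t => B), ∑ u ∈ B, f (Function.update y j u) =
      B.card * ∑ y ∈ Fintype.piFinset (fun _ : Fin t => B), f y := by
  classical
  rw [← Finset.sum_product']
  have h : ∑ p ∈ (Fintype.piFinset (fun _ : Fin t => B)) ×ˢ B, f (Function.update p.1 j p.2) =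
      ∑ p ∈ (Fintype.piFinset (fun _ : Fin t => B)) ×ˢ B, f p.1 := by
    refine Finset.sum_nbij' (fun p => (Function.update p.1 j p.2, p.1 j))
      (fun p => (Function.update p.1 j p.2, p.1 j)) ?_ ?_ ?_ ?_ ?_
    · rintro ⟨y, u⟩ hp
      rw [mem_product, Fintype.mem_piFinset] at hp
      rw [mem_product, Fintype.mem_piFinset]
      refine ⟨?_, hp.1 j⟩
      intro i
      by_cases hi : i = j
      · subst hi
        simpa using hp.2
      · simpa [Function.update_of_ne hi] using hp.1 i
    · rintro ⟨y, u⟩ hp
      rw [mem_product, Fintype.mem_piFinset] at hp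
      rw [mem_product, Fintype.mem_piFinset]
      refine ⟨?_, hp.1 j⟩
      intro i
      by_cases hi : i = j
      · subst hi
        simpa using hp.2
      · simpa [Function.update_of_ne hi] using hp.1 i
    · rintro ⟨y, u⟩ _
      simp
    · rintro ⟨y, u⟩ _
      simp
    · rintro ⟨y, u⟩ _
      rfl
  rw [h, Finset.sum_product]
  simp only [sum_const, smul_eq_mul]
  rw [Finset.mul_sum]

theorem tAvb : S_Avb := by
  classical
  intro t L Y _ B T ht hB hT
  by_contra hcon
  push Not at hcon
  set S : Finset (Fin t → Y) := Fintype.piFinset (fun _ : Fin t => B) with hS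
  have hmem : ∀ y, y ∈ S ↔ ∀ i, y i ∈ B := by
    intro y
    rw [hS, Fintype.mem_piFinset]
  have hSne : S.Nonempty := by
    obtain ⟨b, hb⟩ := hB
    exact ⟨fun _ => b, (hmem _).2 fun _ => hb⟩
  have hBpos : 0 < B.card := hB.card_pos
  have hSpos : 0 < S.card := hSne.card_pos
  -- for each `y`, half of the blocks are good
  have h1 : ∀ y ∈ S, t ≤ 2 * ((univ : Finset (Fin t)).filter (fun j => T y j ≤ 2 * L)).card := by
    intro y hy
    have h2 := hT y ((hmem y).1 hy)
    have h3 := Finset.card_filter_add_card_filter_not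
      (s := (univ : Finset (Fin t))) (fun j => T y j ≤ 2 * L)
    rw [Finset.card_univ, Fintype.card_fin] at h3
    have h4 : ((univ : Finset (Fin t)).filter (fun j => ¬ T y j ≤ 2 * L)).card * (2 * L + 1) ≤
        L * t := by
      refine le_trans ?_ h2
      rw [← smul_eq_mul]
      refine le_trans (Finset.card_nsmul_le_sum _ (fun j => T y j) (2 * L + 1) ?_) ?_
      · intro j hj
        have := (mem_filter.1 hj).2
        omega
      · exact Finset.sum_le_sum_of_subset (filter_subset _ _)
    have h5 : 2 * ((univ : Finset (Fin t)).filter (fun j => ¬ T y j ≤ 2 * L)).card ≤ t := by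
      by_contra h6
      rw [not_le] at h6
      have h7 : t * (2 * L + 1) < 2 *
          ((univ : Finset (Fin t)).filter (fun j => ¬ T y j ≤ 2 * L)).card * (2 * L + 1) :=
        Nat.mul_lt_mul_of_pos_right h6 (by omega)
      nlinarith
    omega
  -- double counting
  have h2 : S.card * t ≤
      2 * ∑ j : Fin t, (S.filter (fun y => T y j ≤ 2 * L)).card := by
    have h3 : ∑ j : Fin t, (S.filter (fun y => T y j ≤ 2 * L)).card =
        ∑ y ∈ S, ((univ : Finset (Fin t)).filter (fun j => T y j ≤ 2 * L)).card := by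
      simp only [Finset.card_filter]
      rw [Finset.sum_comm]
    rw [h3, Finset.mul_sum, ← smul_eq_mul]
    exact Finset.card_nsmul_le_sum _ _ _ h1
  -- each `j` is bad on average
  have h3 : ∀ j : Fin t, 2 * (S.filter (fun y => T y j ≤ 2 * L)).card < S.card := by
    intro j
    have h4 := avb_swap B j (fun y => if T y j ≤ 2 * L then 1 else 0)
    rw [← hS] at h4
    have h5 : ∑ y ∈ S, (if T y j ≤ 2 * L then 1 else 0) =
        (S.filter (fun y => T y j ≤ 2 * L)).card := by
      rw [Finset.card_filter]
    rw [h5] at h4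
    have h6 : 2 * ∑ y ∈ S, ∑ u ∈ B, (if T (Function.update y j u) j ≤ 2 * L then 1 else 0) <
        S.card * B.card := by
      rw [Finset.mul_sum]
      have h7 : ∑ y ∈ S, 2 * ∑ u ∈ B, (if T (Function.update y j u) j ≤ 2 * L then 1 else 0) <
          ∑ y ∈ S, B.card := by
        refine Finset.sum_lt_sum_of_nonempty hSne ?_
        intro y hy
        have h8 := hcon j y ((hmem y).1 hy)
        rw [Finset.card_filter] at h8
        exact h8
      rwa [Finset.sum_const, smul_eq_mul] at h7
    rw [h4] at h6
    have h7 : B.card * (2 * (S.filter (fun y => T y j ≤ 2 * L)).card) < B.card * S.card := by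
      calc _ = 2 * (B.card * (S.filter (fun y => T y j ≤ 2 * L)).card) := by ring
        _ < S.card * B.card := h6
        _ = _ := by ring
    exact Nat.lt_of_mul_lt_mul_left h7
  have h4 : ∑ j : Fin t, 2 * (S.filter (fun y => T y j ≤ 2 * L)).card < ∑ _j : Fin t, S.card := by
    refine Finset.sum_lt_sum_of_nonempty ?_ fun j _ => h3 j
    exact ⟨⟨0, by omega⟩, mem_univ _⟩
  rw [← Finset.mul_sum, Finset.sum_const, Finset.card_univ, Fintype.card_fin, smul_eq_mul] at h4
  have h5 : t * S.card = S.card * t := Nat.mul_comm _ _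
  omega

end SRBP
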