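import Pool.Agent.Lib.MP_9dcf40_lc.LIN.SpecQ

/-!
# Theorem Q: `BalQ` (the number of small sets, explicit constants)
-/

set_option autoImplicit false

namespace SRBP

open Finset

private theorem ball_mul_leQ (n s : ℕ) (z : ℝ) (h0 : 0 < z) (h1 : z ≤ 1) :
    (ball n s : ℝ) * z ^ s ≤ (1 + z) ^ n := by
  have hs : ∑ S : Finset (Fin n), z ^ S.card = (1 + z) ^ n := by
    have h := Fintype.sum_pow_mul_eq_add_pow (Fin n) z (1 : ℝ)
    simp only [one_pow, mul_one, Fintype.card_fin] at h
    rw [h, add_comm]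
  rw [← hs]
  calc (ball n s : ℝ) * z ^ s
      = ∑ S ∈ (univ : Finset (Finset (Fin n))).filter (fun S => S.card ≤ s), z ^ s := by
        rw [Finset.sum_const, nsmul_eq_mul]
        rfl
    _ ≤ ∑ S ∈ (univ : Finset (Finset (Fin n))).filter (fun S => S.card ≤ s), z ^ S.card := by
        refine Finset.sum_le_sum fun S hS => ?_
        exact pow_le_pow_of_le_one h0.le h1 (Finset.mem_filter.1 hS).2
    _ ≤ ∑ S : Finset (Fin n), z ^ S.card := by
        refine Finset.sum_le_sum_of_subset_of_nonneg (Finset.filter_subset _ _) ?_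
        intro S _ _
        positivity

private theorem ball_posQ (n s : ℕ) : 0 < ball n s := by
  unfold ball
  apply Finset.card_pos.2
  exact ⟨∅, by simp⟩

private theorem ball_zeroQ (n : ℕ) : ball n 0 = 1 := by
  unfold ball
  rw [Finset.card_eq_one]
  refine ⟨∅, ?_⟩
  ext S
  simp

theorem tBalQ : S_BalQ := by
  intro ε hε hε1 n s hs
  rcases hε.eq_or_lt with h0 | h0
  · subst h0
    have hs0 : s = 0 := by
      have h1 : (s : ℝ) ≤ 0 := by simpa using hs
      exact_mod_cast le_antisymm h1 (Nat.cast_nonneg s)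
    subst hs0
    rw [ball_zeroQ]
    simp
  · have hz0 : 0 < Real.sqrt ε := Real.sqrt_pos.2 h0
    have hz1 : Real.sqrt ε ≤ 1 := Real.sqrt_le_one.2 hε1
    have hzz : Real.sqrt ε * Real.sqrt ε = ε := Real.mul_self_sqrt hε
    obtain ⟨z, hz⟩ : ∃ z, z = Real.sqrt ε := ⟨_, rfl⟩
    rw [← hz] at hz0 hz1 hzz ⊢
    have hb : (0 : ℝ) < ball n s := by exact_mod_cast ball_posQ n s
    have h2 : Real.log ((ball n s : ℝ) * z ^ s) ≤ Real.log ((1 + z) ^ n) :=
      Real.log_le_log (by positivity) (ball_mul_leQ n s z hz0 hz1)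
    rw [Real.log_mul hb.ne' (by positivity), Real.log_pow, Real.log_pow] at h2
    have h3 : Real.log (1 + z) ≤ z := by
      have := Real.log_le_sub_one_of_pos (x := 1 + z) (by linarith)
      linarith
    have h4 : -Real.log z ≤ z⁻¹ - 1 := by
      rw [← Real.log_inv]
      exact Real.log_le_sub_one_of_pos (inv_pos.2 hz0)
    have h5 : 0 ≤ z⁻¹ - 1 := by
      have : 1 ≤ z⁻¹ := (one_le_inv₀ hz0).2 hz1
      linarith
    have hn : (0 : ℝ) ≤ n := Nat.cast_nonneg n
    have hs0 : (0 : ℝ) ≤ s := Nat.cast_nonneg s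
    have h6 : (s : ℝ) * (-Real.log z) ≤ z * n := by
      calc (s : ℝ) * (-Real.log z) ≤ s * (z⁻¹ - 1) := by gcongr
        _ ≤ ε * n * (z⁻¹ - 1) := by gcongr
        _ = z * n * (1 - z) := by
            rw [← hzz]
            field_simp
        _ ≤ z * n * 1 := by
            gcongr
            linarith
        _ = z * n := mul_one _
    have h7 : (n : ℝ) * Real.log (1 + z) ≤ n * z := by gcongr
    linarith

end SRBP
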