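import Pool.Agent.Lib.MP_9dcf40_lc.LIN.Core
import Pool.Agent.Lib.MP_9dcf40_lc.LIN.SpecQ

/-!
# Theorem Q (MP_9dcf40_lc): the core theorem from its parts (choice of the constants)
-/

namespace SRBP

open Finset

namespace CQ

/-- The numbers `q = k^B₂`, `r = q (k q)^(B₀ + 20)`, `X = r^B₀`, `L = k^B₀ log^11 q`. -/
theorem nums (B₀ B₂ k q r : ℕ) (hk : 2 ≤ k) (hB₀ : 1 ≤ B₀) (hB₂ : 1 ≤ B₂) (hq : q = k ^ B₂)
    (hr : r = q * (k * q) ^ (B₀ + 20)) :
    2 ≤ q ∧ (r : ℝ) = (k : ℝ) ^ (B₂ + (1 + B₂) * (B₀ + 20)) ∧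
    2 * ((k : ℝ) ^ B₀ * Real.log q ^ 11) + 800 * q ≤ r ∧
    (k : ℝ) ^ B₀ * Real.log q ^ 11 + 30 ≤ (r : ℝ) ^ B₀ ∧ (r : ℝ) ≤ (r : ℝ) ^ B₀ ∧
    64 * (r : ℝ) ^ B₀ ≤ (k : ℝ) ^ ((B₂ + (1 + B₂) * (B₀ + 20)) * B₀ + 6) := by
  have hq2 : 2 ≤ q := by
    rw [hq]
    calc 2 = 2 ^ 1 := rfl
      _ ≤ 2 ^ B₂ := Nat.pow_le_pow_right (by norm_num) hB₂
      _ ≤ k ^ B₂ := Nat.pow_le_pow_left hk _
  have hkR : (2 : ℝ) ≤ k := by exact_mod_cast hk
  have hqR : (2 : ℝ) ≤ q := by exact_mod_cast hq2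
  have e1 : (r : ℝ) = (k : ℝ) ^ (B₂ + (1 + B₂) * (B₀ + 20)) := by
    rw [hr, hq]
    push_cast
    ring
  have hlog0 : 0 ≤ Real.log q := Real.log_nonneg (by linarith)
  have hlogq : Real.log q ≤ q := (Real.log_le_sub_one_of_pos (by linarith)).trans (by linarith)
  set Y : ℝ := (k : ℝ) ^ B₀ * (q : ℝ) ^ 11 with hY
  have hL : (k : ℝ) ^ B₀ * Real.log q ^ 11 ≤ Y := by
    rw [hY]
    gcongr
  have hY1 : 1 ≤ Y := by
    rw [hY]
    have h1 : (1 : ℝ) ≤ (k : ℝ) ^ B₀ := one_le_pow₀ (by linarith)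
    have h2 : (1 : ℝ) ≤ (q : ℝ) ^ 11 := one_le_pow₀ (by linarith)
    nlinarith
  have hr2 : Y * 2 ^ 29 * q ≤ r := by
    rw [hr]
    push_cast
    have h1 : ((k : ℝ) * q) ^ (B₀ + 20) = (k : ℝ) ^ B₀ * (q : ℝ) ^ 11 * ((k : ℝ) ^ 20 * (q : ℝ) ^ 9) *
        (q : ℝ) ^ B₀ := by
      rw [mul_pow, pow_add, pow_add]
      ring
    have h2 : (2 : ℝ) ^ 20 ≤ (k : ℝ) ^ 20 := pow_le_pow_left₀ (by norm_num) hkR 20
    have h3 : (2 : ℝ) ^ 9 ≤ (q : ℝ) ^ 9 := pow_le_pow_left₀ (by norm_num) hqR 9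
    have h4 : (1 : ℝ) ≤ (q : ℝ) ^ B₀ := one_le_pow₀ (by linarith)
    have h5 : (2 : ℝ) ^ 29 ≤ (k : ℝ) ^ 20 * (q : ℝ) ^ 9 := by
      calc (2 : ℝ) ^ 29 = 2 ^ 20 * 2 ^ 9 := by norm_num
        _ ≤ _ := mul_le_mul h2 h3 (by positivity) (by positivity)
    rw [h1, ← hY]
    have h6 : Y * 2 ^ 29 ≤ Y * ((k : ℝ) ^ 20 * (q : ℝ) ^ 9) := by gcongr
    have h7 : Y * ((k : ℝ) ^ 20 * (q : ℝ) ^ 9) * 1 ≤ Y * ((k : ℝ) ^ 20 * (q : ℝ) ^ 9) * (q : ℝ) ^ B₀ := by
      gcongr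
    have h8 : Y * 2 ^ 29 * q ≤ Y * ((k : ℝ) ^ 20 * (q : ℝ) ^ 9) * (q : ℝ) ^ B₀ * q := by
      apply mul_le_mul_of_nonneg_right _ (by linarith)
      linarith
    linarith
  have hYq : (q : ℝ) ≤ Y * q := by nlinarith
  have hYY : Y ≤ Y * q := by nlinarith
  have e3 : 2 * ((k : ℝ) ^ B₀ * Real.log q ^ 11) + 800 * q ≤ r := by
    have : (2 : ℝ) ^ 29 = 536870912 := by norm_num
    rw [this] at hr2
    linarith
  have hr1 : (1 : ℝ) ≤ r := by
    have h0 : 0 ≤ (k : ℝ) ^ B₀ * Real.log q ^ 11 := by positivity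
    linarith
  have e4 : (r : ℝ) ≤ (r : ℝ) ^ B₀ := by
    calc (r : ℝ) = (r : ℝ) ^ 1 := (pow_one _).symm
      _ ≤ _ := pow_le_pow_right₀ hr1 hB₀
  refine ⟨hq2, e1, e3, ?_, e4, ?_⟩
  · have h0 : 0 ≤ (k : ℝ) ^ B₀ * Real.log q ^ 11 := by positivity
    linarith
  · rw [e1, ← pow_mul, pow_add]
    have h6 : (2 : ℝ) ^ 6 ≤ (k : ℝ) ^ 6 := pow_le_pow_left₀ (by norm_num) hkR 6
    have h7 : (64 : ℝ) = 2 ^ 6 := by norm_num
    rw [h7, mul_comm]
    gcongr

theorem aux10 (D N b g ζ l2 : ℝ) (hb : 0 ≤ b * N) (hg : 20 * b * N ≤ g) (hg0 : 0 ≤ g)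
    (hζ : ζ ≤ 1 / 1000) (hl : 0.69 < l2) (hD : 4 * D ≤ b * N) :
    2 * D + 4 * ζ * g + N * b ≤ g * l2 / 8 := by
  have h3 : ζ * g ≤ 1 / 1000 * g := mul_le_mul_of_nonneg_right hζ hg0
  have h7 : g * 0.69 ≤ g * l2 := mul_le_mul_of_nonneg_left hl.le hg0
  linarith

end CQ

open LCore in
theorem tCoreQ (hFind : S_Find) (hCut : S_Cut2) (hFin : S_Fin) (hPar : S_ParQ) : S_CoreQ := by
  classical
  obtain ⟨B₀, hB₀, hfind⟩ := hFind
  obtain ⟨B₂, -, hB₂, hpar⟩ := hPar B₀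
  refine ⟨(B₂ + (1 + B₂) * (B₀ + 20)) * B₀ + 6, by omega, fun k hk => ?_⟩
  have hk1 : (1 : ℝ) ≤ k := by
    have : (2 : ℝ) ≤ k := by exact_mod_cast hk
    linarith
  set q : ℕ := k ^ B₂ with hq
  set r : ℕ := q * (k * q) ^ (B₀ + 20) with hr
  obtain ⟨hq2, hr1, hr2, hr3, hr4, hr5⟩ := CQ.nums B₀ B₂ k q r hk hB₀ hB₂ hq hr
  set B : ℕ := (B₂ + (1 + B₂) * (B₀ + 20)) * B₀ + 6 with hB
  obtain ⟨hqk, hpar2⟩ := hpar k hk
  set L : ℝ := (k : ℝ) ^ B₀ * Real.log q ^ 11 with hL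
  set X : ℝ := (r : ℝ) ^ B₀ with hX
  have hq2' : (2 : ℝ) ≤ q := by exact_mod_cast hq2
  have hq0 : (0 : ℝ) < q := by linarith
  have hlogq : 0 ≤ Real.log q := Real.log_nonneg (by linarith)
  have hL0 : 0 ≤ L := by positivity
  have hrpos : (0 : ℝ) < r := by linarith
  have hr1' : 1 ≤ r := by
    have : 0 < r := by exact_mod_cast hrpos
    omega
  have hkB : (r : ℝ) ≤ (k : ℝ) ^ B := by linarith
  refine ⟨r, hr1', hkB, ?_⟩
  intro n hn β F sg dm hCPS hF hlen hdef0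
  -- `n`
  have hnX : Real.exp (64 * X) ≤ n := (Real.exp_le_exp.2 hr5).trans hn
  have hnR : (0 : ℝ) < n := lt_of_lt_of_le (Real.exp_pos _) hnX
  have hnpos : 0 < n := by exact_mod_cast hnR
  have n2' : 4 * (r : ℝ) ≤ n := by
    have h1 := Real.add_one_le_exp (64 * X)
    linarith
  have hqn : 0 < q := by omega
  have hdvd : q ∣ r := ⟨_, hr⟩
  have hkq : (k * q) ^ B₀ ≤ r := by
    rw [hr]
    calc (k * q) ^ B₀ ≤ (k * q) ^ (B₀ + 20) := Nat.pow_le_pow_right (by positivity) (by omega)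
      _ ≤ q * (k * q) ^ (B₀ + 20) := Nat.le_mul_of_pos_left _ hqn
  have hdef1 : n * Real.log 2 - Real.log F.card ≤ Real.exp (-X) * n := by
    refine hdef0.trans ?_
    gcongr
    linarith
  obtain ⟨N, J, hN1, hJ1, hJ2, hN2, hN3⟩ := hfind k q r hk hq2 hdvd hkq n
    ((Real.exp_le_exp.2 (by linarith)).trans hnX) β F sg dm hCPS hF hlen hdef1
  set c : ℝ := Real.exp (-L) / 2 with hc
  have hcpos : 0 < c := by positivity
  have hEle : Real.exp (-L) ≤ 1 := Real.exp_le_one_iff.2 (by linarith)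
  have hcle : c ≤ 1 / 2 := by rw [hc]; linarith
  have hNpos : (0 : ℝ) < N.card := lt_of_lt_of_le (by positivity) hN1
  have hNne : N.Nonempty := by
    rw [← card_pos]
    exact_mod_cast hNpos
  have hJ3 : c * N.card ≤ uJ F N sg J := by
    refine le_trans ?_ hJ2
    rw [hc]
    have : 0 ≤ Real.exp (-L) * N.card := by positivity
    linarith
  obtain ⟨F', hF'F, v0, hF'ne, hF'c, hv0l, hv0u, hF'U, hF't⟩ :=
    hCut n r β F sg N J c hF hNne hcpos hcle hJ3 hN2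
  have hv0pos : 0 < v0 := lt_of_lt_of_le (by positivity) hv0l
  have hv0le : v0 ≤ 1 / 2 := hv0u.trans (by norm_num)
  have hv0l' : Real.exp (-L) / (2 * 10 ^ 6) ≤ v0 := by
    refine le_trans (le_of_eq ?_) hv0l
    rw [hc]
    ring
  obtain ⟨hb1, hb2⟩ := hpar2 v0 hv0l' hv0u
  set b : ℝ := Real.binEntropy v0 with hb
  have hbv : v0 ≤ b := by
    have h1 : 1 ≤ Real.log v0⁻¹ := by
      rw [Real.le_log_iff_exp_le (by positivity)]
      have h2 : (10 : ℝ) ^ 6 ≤ v0⁻¹ := by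
        rw [le_inv_comm₀ (by norm_num) hv0pos]
        refine hv0u.trans (le_of_eq ?_)
        norm_num
      have h3 := Real.exp_one_lt_d9
      norm_num at h2
      linarith
    have h4 : 0 ≤ (1 - v0) * Real.log (1 - v0)⁻¹ := by
      apply mul_nonneg (by linarith)
      apply Real.log_nonneg
      rw [one_le_inv₀ (by linarith)]
      linarith
    have h5 : b = v0 * Real.log v0⁻¹ + (1 - v0) * Real.log (1 - v0)⁻¹ := rfl
    have h6 : v0 * 1 ≤ v0 * Real.log v0⁻¹ := mul_le_mul_of_nonneg_left h1 hv0pos.le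
    linarith
  have hbpos : 0 < b := lt_of_lt_of_le hv0pos hbv
  set ζ : ℝ := 3 * (k : ℝ) / q with hζ
  have hζpos : 0 < ζ := by positivity
  have h2ζ : 2 * ζ = 6 * k / q := by rw [hζ]; ring
  rw [← h2ζ] at hb2
  have hqk' : ζ ≤ 1 / 1000 := hqk
  have hb3 : 0 ≤ Real.binEntropy (2 * ζ) := Real.binEntropy_nonneg (by positivity) (by linarith)
  have hb4 : Real.binEntropy (2 * ζ) ≤ Real.log 2 := Real.binEntropy_le_log_two
  -- the size of `v0 |N|`
  have hNR : Real.exp (-(2 * X)) * n ≤ v0 * N.card := by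
    have h1 : Real.exp (-(15 : ℝ)) ≤ 1 / (2 * 10 ^ 6) := by
      rw [Real.exp_neg, one_div]
      apply inv_anti₀ (by norm_num)
      have h2 := Real.exp_one_gt_d9
      have h3 : (2.7182818283 : ℝ) ^ 15 ≤ Real.exp 1 ^ 15 := pow_le_pow_left₀ (by norm_num) h2.le 15
      have h4 : Real.exp 1 ^ 15 = Real.exp 15 := by
        rw [← Real.exp_nat_mul]
        norm_num
      rw [← h4]
      refine le_trans ?_ h3
      norm_num
    calc Real.exp (-(2 * X)) * n ≤ (Real.exp (-L) * Real.exp (-15) * Real.exp (-X)) * n := by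
          gcongr
          rw [← Real.exp_add, ← Real.exp_add]
          apply Real.exp_le_exp.2
          linarith
      _ = (Real.exp (-L) * Real.exp (-15)) * (Real.exp (-X) * n) := by ring
      _ ≤ (Real.exp (-L) * (1 / (2 * 10 ^ 6))) * N.card := by gcongr
      _ = Real.exp (-L) / (2 * 10 ^ 6) * N.card := by ring
      _ ≤ v0 * N.card := by gcongr
  have hbig : 62 * X + 1 ≤ v0 * N.card := by
    have h1 : Real.exp (-(2 * X)) * Real.exp (64 * X) ≤ Real.exp (-(2 * X)) * n :=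
      mul_le_mul_of_nonneg_left hnX (Real.exp_pos _).le
    rw [← Real.exp_add] at h1
    have h2 := Real.add_one_le_exp (-(2 * X) + 64 * X)
    linarith
  have hX30 : 30 ≤ X := by linarith
  have hNR1 : 1000 ≤ v0 * N.card := by linarith
  have hN2000 : (2000 : ℝ) ≤ N.card := aux9 _ _ hNR1 hv0le hv0pos
  have hsmall : 1000 * (Real.exp (-(k : ℝ) ^ B) * n) ≤ v0 * N.card := by
    have h1 : Real.exp (-(k : ℝ) ^ B) ≤ Real.exp (-(62 * X)) * Real.exp (-(2 * X)) := by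
      rw [← Real.exp_add]
      apply Real.exp_le_exp.2
      linarith
    have h2 : 1000 * Real.exp (-(62 * X)) ≤ 1 := by
      rw [Real.exp_neg]
      have h3 := Real.add_one_le_exp (62 * X)
      have h4 : (1000 : ℝ) ≤ Real.exp (62 * X) := by linarith
      rw [← div_eq_mul_inv, div_le_one (Real.exp_pos _)]
      exact h4
    calc 1000 * (Real.exp (-(k : ℝ) ^ B) * n)
        ≤ 1000 * ((Real.exp (-(62 * X)) * Real.exp (-(2 * X))) * n) := by gcongr
      _ = (1000 * Real.exp (-(62 * X))) * (Real.exp (-(2 * X)) * n) := by ring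
      _ ≤ 1 * (v0 * N.card) := mul_le_mul h2 hNR (by positivity) (by norm_num)
      _ = v0 * N.card := one_mul _
  -- the bad inputs
  set ℓ : ℕ := k * n / r + 1 with hℓ
  have hℓR : (ℓ : ℝ) ≤ k * n / r + 1 := by
    have h1 : ((k * n / r : ℕ) : ℝ) ≤ ((k * n : ℕ) : ℝ) / r := Nat.cast_div_le
    rw [hℓ]
    push_cast at h1 ⊢
    linarith
  set Bad := F.filter (fun x => ∃ j, 2 * ℓ * N.card < n * (dm (sg j x) ∩ N).card) with hBad
  have hgood : ∀ x ∈ F, x ∉ Bad → ∀ j, n * (dm (sg j x) ∩ N).card ≤ 2 * ℓ * N.card := by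
    intro x hx hxB j
    by_contra h
    push Not at h
    exact hxB (mem_filter.2 ⟨hx, j, h⟩)
  have hFpos : (0 : ℝ) < F.card := by exact_mod_cast hF.card_pos
  have hF'pos : (0 : ℝ) < F'.card := by exact_mod_cast hF'ne.card_pos
  have hrqle : r / q ≤ r := Nat.div_le_self _ _
  have hT : (Jᶜ).card = r / q := by
    rw [card_compl, Fintype.card_fin, hJ1]
    exact Nat.sub_sub_self hrqle
  have hrq : ((r / q : ℕ) : ℝ) = r / q := Nat.cast_div hdvd hq0.ne'
  set g : ℕ := ⌈20 * b * N.card⌉₊ with hg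
  have hg1 : 20 * b * N.card ≤ g := Nat.le_ceil _
  have hg2 : (g : ℝ) < 20 * b * N.card + 1 := Nat.ceil_lt_add_one (by positivity)
  have hgpos : 0 < g := Nat.ceil_pos.2 (by positivity)
  have hgle : g ≤ N.card := by
    have : (g : ℝ) ≤ N.card := aux3 _ _ _ hb1 hN2000 hg2
    exact_mod_cast this
  have hlog2 : Real.log 2 < 0.7 := by
    have := Real.log_two_lt_d9
    linarith
  have hlog2' : 0.69 < Real.log 2 := by
    have := Real.log_two_gt_d9
    linarith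
  -- `|F| ≤ W |F'|`
  set W : ℝ := 400 * Real.exp (2 * L) with hW
  have hW0 : 0 < W := by positivity
  have hFF' : (F.card : ℝ) ≤ W * F'.card := by
    have h1 : c ^ 2 / 100 = 1 / W := by
      have h2 : Real.exp (-L) ^ 2 = (Real.exp (2 * L))⁻¹ := by
        rw [← Real.exp_nat_mul, ← Real.exp_neg]
        congr 1
        push_cast
        ring
      rw [hc, hW, div_pow, h2]
      field_simp
      ring
    rw [h1, one_div, inv_mul_le_iff₀ hW0] at hF'c
    exact hF'c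
  have hbadW : Real.exp (-(r : ℝ)) * W ≤ 1 / (2 * q) := by
    rw [le_div_iff₀ (by positivity)]
    have h1 : 800 * (q : ℝ) ≤ Real.exp (r - 2 * L) := by
      have h2 := Real.add_one_le_exp ((r : ℝ) - 2 * L)
      linarith
    calc Real.exp (-(r : ℝ)) * W * (2 * q) = (800 * q) * (Real.exp (-(r : ℝ)) * Real.exp (2 * L)) := by
          rw [hW]; ring
      _ ≤ Real.exp (r - 2 * L) * (Real.exp (-(r : ℝ)) * Real.exp (2 * L)) := by gcongr
      _ = 1 := by
          rw [← Real.exp_add, ← Real.exp_add]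
          have : (r : ℝ) - 2 * L + (-(r : ℝ) + 2 * L) = 0 := by ring
          rw [this, Real.exp_zero]
  have hDT : ∑ x ∈ F', ((DJ sg dm Jᶜ x ∩ N).card : ℝ) ≤ ζ * N.card * F'.card := by
    have h1 : ∀ x ∈ F', ((DJ sg dm Jᶜ x ∩ N).card : ℝ) ≤
        (r / q : ℕ) * (2 * ℓ * N.card / n) + (if x ∈ Bad then (N.card : ℝ) else 0) := by
      intro x hx
      by_cases hxB : x ∈ Bad
      · rw [if_pos hxB]
        have h2 : ((DJ sg dm Jᶜ x ∩ N).card : ℝ) ≤ N.card := by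
          exact_mod_cast card_le_card inter_subset_right
        have h3 : 0 ≤ ((r / q : ℕ) : ℝ) * (2 * ℓ * N.card / n) := by positivity
        linarith
      · rw [if_neg hxB]
        have h2 := good_bound (T := Jᶜ) hnpos (hgood x (hF'F hx) hxB)
        rw [hT] at h2
        have h3 : (DJ sg dm Jᶜ x ∩ N).card ≤ ∑ j ∈ Jᶜ, (dm (sg j x) ∩ N).card := by
          unfold DJ
          rw [biUnion_inter]
          exact card_biUnion_le
        have h4 : ((DJ sg dm Jᶜ x ∩ N).card : ℝ) ≤ ∑ j ∈ Jᶜ, ((dm (sg j x) ∩ N).card : ℝ) := by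
          exact_mod_cast h3
        linarith
    have h2 := sum_le_sum h1
    rw [sum_add_distrib, sum_const, nsmul_eq_mul, ← sum_filter, sum_const, nsmul_eq_mul] at h2
    have h3 : ((F'.filter (fun x => x ∈ Bad)).card : ℝ) ≤ Bad.card := by
      refine Nat.cast_le.2 (card_le_card ?_)
      intro x hx
      exact (mem_filter.1 hx).2
    refine h2.trans ?_
    have h4 : ((F'.filter (fun x => x ∈ Bad)).card : ℝ) * N.card ≤
        (Real.exp (-(r : ℝ)) * F.card) * N.card :=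
      mul_le_mul_of_nonneg_right (h3.trans hN3) hNpos.le
    have h6 : (Real.exp (-(r : ℝ)) * F.card) * N.card ≤ 1 / (2 * q) * (F'.card * N.card) := by
      calc (Real.exp (-(r : ℝ)) * F.card) * N.card
          ≤ (Real.exp (-(r : ℝ)) * (W * F'.card)) * N.card := by gcongr
        _ = (Real.exp (-(r : ℝ)) * W) * (F'.card * N.card) := by ring
        _ ≤ 1 / (2 * q) * (F'.card * N.card) :=
            mul_le_mul_of_nonneg_right hbadW (by positivity)
    have h8 : ((r / q : ℕ) : ℝ) * (2 * ℓ / n) ≤ 2 * k / q + 1 / (2 * q) := by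
      rw [hrq]
      have h10 : (r : ℝ) * (2 * ℓ / n) ≤ 2 * k + 1 / 2 := aux1 _ _ _ _ hrpos hnR hℓR n2'
      calc (r : ℝ) / q * (2 * ℓ / n) = (r * (2 * ℓ / n)) / q := by ring
        _ ≤ (2 * k + 1 / 2) / q := by gcongr
        _ = 2 * k / q + 1 / (2 * q) := by ring
    have h11 : 2 * (k : ℝ) / q + 1 / (2 * q) + 1 / (2 * q) ≤ ζ := by
      rw [hζ]
      have : 3 * (k : ℝ) / q - (2 * k / q + 1 / (2 * q) + 1 / (2 * q)) = (k - 1) / q := by
        field_simp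
        ring
      have h12 : 0 ≤ ((k : ℝ) - 1) / q := div_nonneg (by linarith) hq0.le
      linarith
    have h13 : 0 < (F'.card : ℝ) * N.card := by positivity
    have h14 : (F'.card : ℝ) * (((r / q : ℕ) : ℝ) * (2 * ℓ * N.card / n)) =
        (((r / q : ℕ) : ℝ) * (2 * ℓ / n)) * (F'.card * N.card) := by ring
    have h15 : (((r / q : ℕ) : ℝ) * (2 * ℓ / n)) * (F'.card * N.card) ≤
        (2 * k / q + 1 / (2 * q)) * (F'.card * N.card) := mul_le_mul_of_nonneg_right h8 h13.le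
    have h17 : (2 * (k : ℝ) / q + 1 / (2 * q) + 1 / (2 * q)) * (F'.card * N.card) ≤
        ζ * (F'.card * N.card) := mul_le_mul_of_nonneg_right h11 h13.le
    have h18 : (2 * (k : ℝ) / q + 1 / (2 * q)) * (F'.card * N.card) +
        1 / (2 * q) * (F'.card * N.card) =
        (2 * (k : ℝ) / q + 1 / (2 * q) + 1 / (2 * q)) * (F'.card * N.card) := by ring
    have h19 : ζ * N.card * F'.card = ζ * (F'.card * N.card) := by ring
    rw [h14, h19]
    linarith
  -- the other hypotheses of `S_Fin`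
  set D : ℝ := Real.exp (-(k : ℝ) ^ B) * n + (6 + 2 * L) with hD
  have hdef3 : n * Real.log 2 - Real.log F'.card ≤ D := by
    have h1 : Real.log F.card ≤ Real.log (W * F'.card) := Real.log_le_log hFpos hFF'
    rw [Real.log_mul hW0.ne' hF'pos.ne', hW, Real.log_mul (by norm_num) (Real.exp_pos _).ne',
      Real.log_exp] at h1
    have h2 : Real.log 400 ≤ 6 := by
      rw [Real.log_le_iff_le_exp (by norm_num)]
      have h3 := Real.exp_one_gt_d9
      have h4 : (2.7182818283 : ℝ) ^ 6 ≤ Real.exp 1 ^ 6 := pow_le_pow_left₀ (by norm_num) h3.le 6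
      have h5 : Real.exp 1 ^ 6 = Real.exp 6 := by
        rw [← Real.exp_nat_mul]
        norm_num
      rw [← h5]
      refine le_trans ?_ h4
      norm_num
    linarith
  have hD4 : 4 * D ≤ b * N.card := by
    have h1 : v0 * N.card ≤ b * N.card := mul_le_mul_of_nonneg_right hbv hNpos.le
    rw [hD]
    linarith
  have htJ : tJ F' N sg J ≤ (v0 / 400) * N.card := by linarith
  have hfin := hFin n r β F' sg dm N J v0 ζ (v0 / 400) D g
    (CPS_mono hF'F hCPS) hF'ne hNne hv0pos hv0le hζpos (by linarith) hgpos hgle hdef3 htJ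
    hF'U hDT ?_ ?_ ?_
  · refine Rect_mono hF'F ?_ hfin
    refine le_min (Real.exp_le_exp.2 ?_) (Real.exp_le_exp.2 ?_)
    · linarith
    · have h1 : v0 * N.card ≤ b * N.card := mul_le_mul_of_nonneg_right hbv hNpos.le
      have h2 : (g : ℝ) * 0.69 ≤ g * Real.log 2 :=
        mul_le_mul_of_nonneg_left hlog2'.le (Nat.cast_nonneg g)
      linarith
  · -- (T)
    have h1 : 4 * (g : ℝ) / N.card ≤ 1 / 100 := by
      rw [div_le_iff₀ hNpos]
      exact aux4 _ _ _ hb1 hN2000 hg2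
    have h2 : 8 * (v0 / 400 * N.card + Real.log 2) / (v0 * N.card) ≤ 1 / 10 := by
      rw [div_le_iff₀ (by positivity)]
      exact aux5 _ _ hNR1 hlog2
    linarith
  · -- (R)
    exact aux6 b N.card g _ v0 hb3 (hb4.trans hlog2.le) hg2 hNpos hb2 hNR1
  · -- (C)
    exact CQ.aux10 D N.card b g ζ (Real.log 2) (by positivity) hg1 (Nat.cast_nonneg g) hqk' hlog2'
      hD4

end SRBP
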