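import Pool.Agent.Lib.MP_9dcf40_lc.LIN.SpecQ
import Pool.Agent.Lib.MP_9dcf40_lc.LIN.Cutp

/-!
# Theorem Q (MP_9dcf40_lc): CUT2 (proof of `S_Cut2`)
-/

namespace SRBP

namespace Cut2

open Finset

/-- The pigeonhole: `f` on a finite set, `0 < f ≤ m / 2`, split into dyadic layers. -/
theorem layers {α : Type} (G : Finset α) (f : α → ℝ) (m c S : ℝ) (hm : 0 < m) (hc : 0 < c)
    (hc2 : c ≤ 1 / 2) (hlow : ∀ x ∈ G, c / 4 * m ≤ f x) (hup : ∀ x ∈ G, f x ≤ m / 2)
    (hS : S ≤ ∑ x ∈ G, f x) (hS0 : 0 < S) :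
    ∃ i : ℕ, 1 ≤ i ∧ (c / 9 * S ≤ ∑ x ∈ G.filter (fun x => 2 ^ i * f x ≤ m ∧ m < 2 ^ (i + 1) * f x), f x) ∧
      c / 4 ≤ 1 / 2 ^ i := by
  classical
  set W : ℕ := ⌊4 / c⌋₊ with hW
  have hWc : (W : ℝ) + 1 ≤ 9 / (2 * c) := by
    have h1 : (W : ℝ) ≤ 4 / c := Nat.floor_le (by positivity)
    have h2 : (1 : ℝ) ≤ 1 / (2 * c) := by
      rw [le_div_iff₀ (by positivity)]
      linarith
    have h3 : (9 : ℝ) / (2 * c) = 4 / c + 1 / (2 * c) := by
      field_simp
      norm_num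
    linarith
  have hex : ∀ x ∈ G, ∃ i ∈ range (W + 1), 1 ≤ i ∧ 2 ^ i * f x ≤ m ∧ m < 2 ^ (i + 1) * f x := by
    intro x hx
    have hf : 0 < f x := lt_of_lt_of_le (by positivity) (hlow x hx)
    have h1 : (1 : ℝ) ≤ m / f x := by
      rw [le_div_iff₀ hf]
      have := hup x hx
      linarith
    obtain ⟨i, hi1, hi2⟩ := exists_nat_pow_near h1 (by norm_num : (1 : ℝ) < 2)
    rw [le_div_iff₀ hf] at hi1
    rw [div_lt_iff₀ hf] at hi2
    refine ⟨i, ?_, ?_, hi1, hi2⟩
    · rw [mem_range, Nat.lt_succ_iff, hW]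
      apply Nat.le_floor
      rw [le_div_iff₀ hc]
      have h2 := hlow x hx
      have h3 : (i : ℝ) ≤ 2 ^ i := by exact_mod_cast Nat.lt_two_pow_self.le
      have h4 : (2 : ℝ) ^ i * (c / 4 * m) ≤ m := by
        refine le_trans ?_ hi1
        exact mul_le_mul_of_nonneg_left h2 (by positivity)
      have h5 : (2 : ℝ) ^ i * (c / 4) ≤ 1 := by
        by_contra hcon
        push Not at hcon
        have : m < 2 ^ i * (c / 4) * m := by nlinarith
        linarith
      have h6 : (i : ℝ) * (c / 4) ≤ 2 ^ i * (c / 4) := mul_le_mul_of_nonneg_right h3 (by positivity)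
      linarith
    · by_contra hcon
      have h0 : i = 0 := by omega
      subst h0
      have := hup x hx
      simp only [zero_add, pow_one] at hi2
      linarith
  by_contra hcon
  push Not at hcon
  have hbound : ∀ i ∈ range (W + 1),
      ∑ x ∈ G.filter (fun x => 1 ≤ i ∧ 2 ^ i * f x ≤ m ∧ m < 2 ^ (i + 1) * f x), f x ≤ c / 9 * S := by
    intro i _
    by_cases hi : 1 ≤ i
    · by_cases hne : (G.filter (fun x => 2 ^ i * f x ≤ m ∧ m < 2 ^ (i + 1) * f x)).Nonempty
      · by_contra hbig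
        push Not at hbig
        have h1 : c / 9 * S ≤
            ∑ x ∈ G.filter (fun x => 2 ^ i * f x ≤ m ∧ m < 2 ^ (i + 1) * f x), f x := by
          refine le_trans hbig.le (le_of_eq ?_)
          apply sum_congr
          · apply filter_congr
            intro x _
            exact ⟨fun h => h.2, fun h => ⟨hi, h⟩⟩
          · intro _ _
            rfl
        have h2 := hcon i hi h1
        obtain ⟨x, hx⟩ := hne
        obtain ⟨hx1, hx2, -⟩ := mem_filter.1 hx
        have h3 := hlow x hx1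
        have h4 : (2 : ℝ) ^ i * (c / 4 * m) ≤ m := by
          refine le_trans ?_ hx2
          exact mul_le_mul_of_nonneg_left h3 (by positivity)
        rw [div_lt_iff₀ (by positivity)] at h2
        nlinarith
      · rw [not_nonempty_iff_eq_empty] at hne
        have : G.filter (fun x => 1 ≤ i ∧ 2 ^ i * f x ≤ m ∧ m < 2 ^ (i + 1) * f x) = ∅ := by
          rw [← hne]
          apply filter_congr
          intro x _
          exact ⟨fun h => h.2, fun h => ⟨hi, h⟩⟩
        rw [this, sum_empty]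
        positivity
    · have : G.filter (fun x => 1 ≤ i ∧ 2 ^ i * f x ≤ m ∧ m < 2 ^ (i + 1) * f x) = ∅ := by
        apply filter_eq_empty_iff.2
        intro x _ h
        exact hi h.1
      rw [this, sum_empty]
      positivity
  have htot : ∑ x ∈ G, f x ≤ ∑ i ∈ range (W + 1),
      ∑ x ∈ G.filter (fun x => 1 ≤ i ∧ 2 ^ i * f x ≤ m ∧ m < 2 ^ (i + 1) * f x), f x := by
    have e1 : ∀ i ∈ range (W + 1),
        ∑ x ∈ G.filter (fun x => 1 ≤ i ∧ 2 ^ i * f x ≤ m ∧ m < 2 ^ (i + 1) * f x), f x =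
        ∑ x ∈ G, if 1 ≤ i ∧ 2 ^ i * f x ≤ m ∧ m < 2 ^ (i + 1) * f x then f x else 0 :=
      fun i _ => sum_filter _ _
    rw [sum_congr rfl e1, sum_comm]
    apply sum_le_sum
    intro x hx
    obtain ⟨i, hi, hi'⟩ := hex x hx
    have hf : 0 ≤ f x := le_trans (by positivity) (hlow x hx)
    have h1 : (if 1 ≤ i ∧ 2 ^ i * f x ≤ m ∧ m < 2 ^ (i + 1) * f x then f x else 0) ≤
        ∑ j ∈ range (W + 1), if 1 ≤ j ∧ 2 ^ j * f x ≤ m ∧ m < 2 ^ (j + 1) * f x then f x else 0 :=
      single_le_sum (f := fun j : ℕ =>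
        if 1 ≤ j ∧ 2 ^ j * f x ≤ m ∧ m < 2 ^ (j + 1) * f x then f x else 0)
        (fun j _ => by
          show 0 ≤ if 1 ≤ j ∧ 2 ^ j * f x ≤ m ∧ m < 2 ^ (j + 1) * f x then f x else 0
          split_ifs
          · exact hf
          · exact le_rfl) hi
    rw [if_pos hi'] at h1
    exact h1
  have h7 := sum_le_sum hbound
  rw [sum_const, card_range, nsmul_eq_mul] at h7
  push_cast at h7
  have h8 : ((W : ℝ) + 1) * (c / 9 * S) ≤ 9 / (2 * c) * (c / 9 * S) :=
    mul_le_mul_of_nonneg_right hWc (by positivity)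
  have h9 : 9 / (2 * c) * (c / 9 * S) = S / 2 := by
    field_simp
  linarith

end Cut2

open Finset Cutp in
theorem tCut2 : S_Cut2 := by
  classical
  intro n r β F sg N J c hF hN hc hc2 hu ht
  have hFc : (0 : ℝ) < F.card := by exact_mod_cast card_pos.2 hF
  have hNc : (0 : ℝ) < N.card := by exact_mod_cast card_pos.2 hN
  obtain ⟨u, hudef⟩ : ∃ u, u = uJ F N sg J := ⟨_, rfl⟩
  obtain ⟨f, hf⟩ : ∃ f : (Fin n → Bool) → ℝ, f = fun x => UU F N sg J x := ⟨_, rfl⟩
  obtain ⟨g, hg⟩ : ∃ g : (Fin n → Bool) → ℝ, g = fun x => TCf (Cl F N sg J x) := ⟨_, rfl⟩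
  rw [← hudef] at hu ht
  have hu0 : 0 < u := lt_of_lt_of_le (by positivity) hu
  have hsf : ∑ x ∈ F, f x = F.card * u := by
    rw [hudef, hf]
    unfold uJ
    rw [mul_div_cancel₀ _ hFc.ne']
    exact sum_UU
  have hsg : ∑ x ∈ F, g x = F.card * tJ F N sg J := by
    rw [hg]
    unfold tJ
    rw [mul_div_cancel₀ _ hFc.ne']
  have hfle : ∀ x ∈ F, f x ≤ N.card / 2 := fun x hx => by rw [hf]; exact UU_le hx
  have hg0 : ∀ x ∈ F, 0 ≤ g x := fun x hx => by rw [hg]; exact TCf_nonneg ⟨x, Cl_self hx⟩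
  obtain ⟨G, hG⟩ : ∃ G, G = F.filter (fun x => g x ≤ 2 / 10 ^ 9 * f x ∧ u / 4 ≤ f x) := ⟨_, rfl⟩
  have hGF : G ⊆ F := by rw [hG]; exact filter_subset _ _
  have hS : F.card * u / 4 ≤ ∑ x ∈ G, f x := by
    have h1 : ∑ x ∈ F, f x ≤ ∑ x ∈ G, f x + ∑ x ∈ F, (10 ^ 9 / 2 * g x) + ∑ x ∈ F, u / 4 := by
      have e1 : ∑ x ∈ G, f x =
          ∑ x ∈ F, if g x ≤ 2 / 10 ^ 9 * f x ∧ u / 4 ≤ f x then f x else 0 := by
        rw [hG, sum_filter]
      rw [e1, ← sum_add_distrib, ← sum_add_distrib]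
      apply sum_le_sum
      intro x hx
      have h2 := hg0 x hx
      split_ifs with h
      · linarith
      · rw [not_and_or] at h
        rcases h with h | h
        · push Not at h
          linarith
        · push Not at h
          linarith
    rw [hsf, ← mul_sum, hsg, sum_const, nsmul_eq_mul] at h1
    have h3 : 10 ^ 9 / 2 * (F.card * tJ F N sg J) ≤ F.card * u / 2 := by
      have := mul_le_mul_of_nonneg_left ht hFc.le
      linarith
    linarith
  obtain ⟨i, hi1, hi2, hi3⟩ := Cut2.layers G f N.card c (F.card * u / 4) hNc hc hc2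
    (fun x hx => by
      rw [hG, mem_filter] at hx
      have := hx.2.2
      linarith)
    (fun x hx => hfle x (hGF hx)) hS (by positivity)
  obtain ⟨F', hF'⟩ : ∃ F', F' = G.filter
    (fun x => 2 ^ i * f x ≤ N.card ∧ (N.card : ℝ) < 2 ^ (i + 1) * f x) := ⟨_, rfl⟩
  rw [← hF'] at hi2
  have hsub : F' ⊆ F := by
    rw [hF']
    exact (filter_subset _ _).trans hGF
  have hmem : ∀ x, x ∈ F' ↔ x ∈ F ∧ (g x ≤ 2 / 10 ^ 9 * f x ∧ u / 4 ≤ f x) ∧
      (2 ^ i * f x ≤ N.card ∧ (N.card : ℝ) < 2 ^ (i + 1) * f x) := by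
    intro x
    rw [hF', mem_filter, hG, mem_filter, and_assoc]
  have hfc : ∀ x y, y ∈ Cl F N sg J x → f y = f x := by
    intro x y hy
    rw [hf]
    exact UU_eq hy
  have hgc : ∀ x y, y ∈ Cl F N sg J x → g y = g x := by
    intro x y hy
    rw [hg]
    simp only
    rw [Cl_eq hy]
  have hCl : ∀ x ∈ F', Cl F' N sg J x = Cl F N sg J x := by
    intro x hx
    ext y
    constructor
    · intro hy
      obtain ⟨a, b⟩ := mem_Cl.1 hy
      exact mem_Cl.2 ⟨hsub a, b⟩
    · intro hy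
      obtain ⟨a, b⟩ := mem_Cl.1 hy
      refine mem_Cl.2 ⟨?_, b⟩
      rw [hmem, hfc x y hy, hgc x y hy]
      exact ⟨a, ((hmem x).1 hx).2⟩
  have hpi : (0 : ℝ) < 2 ^ i := by positivity
  have h2i : (2 : ℝ) ≤ 2 ^ i := by
    calc (2 : ℝ) = 2 ^ 1 := (pow_one _).symm
      _ ≤ 2 ^ i := pow_le_pow_right₀ (by norm_num) hi1
  -- the layer is large
  have hfi : ∀ x ∈ F', f x ≤ N.card / 2 ^ i := by
    intro x hx
    rw [le_div_iff₀ hpi]
    have := ((hmem x).1 hx).2.2.1
    linarith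
  have hsum : ∑ x ∈ F', f x ≤ F'.card * (N.card / 2 ^ i) := by
    rw [← nsmul_eq_mul, ← sum_const]
    exact sum_le_sum hfi
  have hcard : c ^ 2 / 100 * F.card ≤ F'.card := by
    have h1 : c / 9 * (F.card * u / 4) ≤ F'.card * (N.card / 2) := by
      refine hi2.trans (hsum.trans ?_)
      apply mul_le_mul_of_nonneg_left _ (Nat.cast_nonneg _)
      exact div_le_div_of_nonneg_left hNc.le (by norm_num) h2i
    have h2 : c / 9 * (F.card * (c * N.card) / 4) ≤ c / 9 * (F.card * u / 4) := by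
      have : (F.card : ℝ) * (c * N.card) ≤ F.card * u := mul_le_mul_of_nonneg_left hu hFc.le
      have h3 : (F.card : ℝ) * (c * N.card) / 4 ≤ F.card * u / 4 := by linarith
      exact mul_le_mul_of_nonneg_left h3 (by positivity)
    have h4 : N.card * (c ^ 2 / 18 * F.card) ≤ N.card * (F'.card : ℝ) := by
      have h5 := h2.trans h1
      nlinarith
    have h5 := le_of_mul_le_mul_left h4 hNc
    have h6 : 0 ≤ c ^ 2 * (F.card : ℝ) := by positivity
    nlinarith
  have hF'c : (0 : ℝ) < F'.card := lt_of_lt_of_le (by positivity) hcard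
  have hF'ne : F'.Nonempty := card_pos.1 (by exact_mod_cast hF'c)
  obtain ⟨θ, hθ⟩ : ∃ θ : ℝ, θ = 1 / 2 ^ (i + 1) := ⟨_, rfl⟩
  have hθ2 : 1 / (2 : ℝ) ^ i = 2 * θ := by
    rw [hθ, pow_succ]
    field_simp
  have hθ0 : 0 < θ := by rw [hθ]; positivity
  have hθc : c / 8 ≤ θ := by linarith
  have hθ4 : θ ≤ 1 / 4 := by
    have : 1 / (2 : ℝ) ^ i ≤ 1 / 2 := div_le_div_of_nonneg_left (by norm_num) (by norm_num) h2i
    linarith
  have hfθ : ∀ x ∈ F', θ * N.card ≤ f x := by
    intro x hx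
    have h1 := ((hmem x).1 hx).2.2.2
    rw [hθ, div_mul_eq_mul_div, one_mul, div_le_iff₀ (by positivity)]
    linarith
  refine ⟨F', hsub, min θ (1 / 10 ^ 6), hF'ne, hcard, ?_, min_le_right _ _, ?_, ?_⟩
  · rw [le_min_iff]
    constructor
    · have : c / 10 ^ 6 ≤ c / 8 := div_le_div_of_nonneg_left hc.le (by norm_num) (by norm_num)
      linarith
    · exact div_le_div_of_nonneg_right (by linarith) (by norm_num)
  · intro x hx
    have : UU F' N sg J x = f x := by
      rw [hf]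
      unfold UU
      rw [hCl x hx]
    rw [this]
    refine le_trans ?_ (hfθ x hx)
    exact mul_le_mul_of_nonneg_right (min_le_left _ _) hNc.le
  · have h1 : ∑ x ∈ F', TCf (Cl F' N sg J x) ≤ F'.card * (4 / 10 ^ 9 * θ * N.card) := by
      rw [← nsmul_eq_mul, ← sum_const]
      apply sum_le_sum
      intro x hx
      rw [hCl x hx]
      have h2 : g x ≤ 2 / 10 ^ 9 * f x := ((hmem x).1 hx).2.1.1
      have h3 := hfi x hx
      have h4 : (N.card : ℝ) / 2 ^ i = 2 * θ * N.card := by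
        rw [← hθ2]
        ring
      rw [h4] at h3
      have h5 : TCf (Cl F N sg J x) = g x := by rw [hg]
      rw [h5]
      linarith
    have h2 : tJ F' N sg J ≤ 4 / 10 ^ 9 * θ * N.card := by
      unfold tJ
      rw [div_le_iff₀ hF'c]
      linarith
    have h3 : 400 * (4 / 10 ^ 9 * θ) ≤ min θ (1 / 10 ^ 6) := by
      rw [le_min_iff]
      constructor
      · linarith
      · linarith
    have h4 := mul_le_mul_of_nonneg_right h3 hNc.le
    linarith

end SRBP
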