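import Pool.Agent.Lib.MP_9dcf40_lc.LIN.SpecQ2

/-!
# Theorem Q (MP_9dcf40_lc): the final statement from its two parts
-/

namespace SRBP

open Finset

/-- Common exponent and threshold. -/
theorem endQ (h1 : S_ShQ) (h2 : S_TotQ) :
    ∃ A N : ℕ, 1 ≤ A ∧ ∀ n ≥ N, ∀ m ≥ 9 * (n + 1) ^ 4,
    (∃ c : CBits n m → Bool, 2 ^ (n - 2) ≤ Nat.card {y // Val n m c y} ∧
      ∀ k : ℕ, 2 ≤ k → (k : ℝ) ^ A ≤ Real.log n →
      ∀ (P : NBP (CBits n m ⊕ Fin n)) (s : ℕ), (s : ℝ) ≤ Real.exp (-(k : ℝ) ^ A) * n →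
        (∀ y, Accepts P (Sum.elim c y) → Val n m c y) →
        (2 : ℝ) ^ n * Real.exp (-(Real.exp (-(k : ℝ) ^ A) * n)) ≤
          Nat.card {y // Short P (k * n) s (Sum.elim c y)} →
        Real.exp (Real.exp (-(k : ℝ) ^ A) * n) ≤ Fintype.card P.V) ∧
    ∀ k : ℕ, 2 ≤ k → (k : ℝ) ^ A ≤ Real.log n → ∀ t : ℕ, Fintype.card (CBits n m) ≤ t * n →
      ∀ P : NBP (CBits n m ⊕ Fin t × Fin n), (∀ z, Accepts P z → MVal n m t z) →
        (∀ z, MVal n m t z → ∃ v l, P.acc v ∧ Walk P P.start l v ∧ Consistent z l ∧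
          l.length ≤ k * Fintype.card (CBits n m ⊕ Fin t × Fin n)) →
        Real.exp (Real.exp (-(k : ℝ) ^ A) * n) ≤ Fintype.card P.V := by
  obtain ⟨A₁, N₁, hA₁, H1⟩ := h1
  obtain ⟨A₂, N₂, hA₂, H2⟩ := h2
  refine ⟨max A₁ A₂, max N₁ N₂, hA₁.trans (le_max_left _ _), fun n hn m hm => ⟨?_, ?_⟩⟩
  · obtain ⟨c, hc, H⟩ := H1 n ((le_max_left _ _).trans hn) m hm
    refine ⟨c, hc, fun k hk hkn P s hs hP hd => ?_⟩
    have hk1 : (1 : ℝ) ≤ k := by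
      have : (2 : ℝ) ≤ k := by exact_mod_cast hk
      linarith
    have hle : (k : ℝ) ^ A₁ ≤ (k : ℝ) ^ max A₁ A₂ := pow_le_pow_right₀ hk1 (le_max_left _ _)
    have hle2 : Real.exp (-(k : ℝ) ^ max A₁ A₂) * n ≤ Real.exp (-(k : ℝ) ^ A₁) * n := by
      gcongr
    refine (Real.exp_le_exp.2 hle2).trans (H k hk (hle.trans hkn) P s (hs.trans hle2) hP
      (le_trans ?_ hd))
    gcongr
  · intro k hk hkn t ht P hP hW
    have hk1 : (1 : ℝ) ≤ k := by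
      have : (2 : ℝ) ≤ k := by exact_mod_cast hk
      linarith
    have hle : (k : ℝ) ^ A₂ ≤ (k : ℝ) ^ max A₁ A₂ := pow_le_pow_right₀ hk1 (le_max_right _ _)
    have hle2 : Real.exp (-(k : ℝ) ^ max A₁ A₂) * n ≤ Real.exp (-(k : ℝ) ^ A₂) * n := by
      gcongr
    exact (Real.exp_le_exp.2 hle2).trans (H2 n ((le_max_right _ _).trans hn) m hm k hk
      (hle.trans hkn) t ht P hP hW)

end SRBP
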