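import Pool.Agent.Lib.MP_9dcf40_lc.LIN.SpecQ

/-!
# Theorem Q (MP_9dcf40_lc): `S_Find`, the choice of the scale and of the set `J`

`K = 3 k`, `C = 40 K (200 K)^11`, `L = C log^11 q`; with `X = k q` and `r ≥ X^300` all the numbers are at most powers of `r`.
The scale `m_i = n - ⌊n / t^i⌋` is given by the multiplicative pigeonhole principle (`S_Pig`), then the recursion (`S_RcrM`)
and the selection of one permutation and one set `J` (`S_Sel`).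
-/

set_option autoImplicit false

namespace SRBP

open Finset

namespace FindQM

/-- the constant `C` for `K = 3 k` -/
noncomputable def CC (k : ℕ) : ℝ := 40 * (3 * k) * (200 * (3 * k)) ^ 11

lemma CC_nonneg (k : ℕ) : 0 ≤ CC k := by
  unfold CC
  positivity

lemma CC_le {k : ℕ} (hk : 2 ≤ k) : CC k + 100 ≤ (k : ℝ) ^ 130 := by
  have hk' : (2 : ℝ) ≤ k := by exact_mod_cast hk
  have h1 : (1 : ℝ) ≤ (k : ℝ) ^ 12 := one_le_pow₀ (by linarith)
  have h2 : (2 : ℝ) ^ 118 ≤ (k : ℝ) ^ 118 := pow_le_pow_left₀ (by norm_num) hk' _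
  have h3 : CC k = 120 * 600 ^ 11 * (k : ℝ) ^ 12 := by
    unfold CC
    ring
  have h4 : (k : ℝ) ^ 130 = (k : ℝ) ^ 118 * (k : ℝ) ^ 12 := by ring
  rw [h3, h4]
  have h5 : (120 * 600 ^ 11 + 100 : ℝ) ≤ 2 ^ 118 := by norm_num
  calc (120 * 600 ^ 11 * (k : ℝ) ^ 12 + 100 : ℝ) ≤ (120 * 600 ^ 11 + 100) * (k : ℝ) ^ 12 := by linarith
    _ ≤ (k : ℝ) ^ 118 * (k : ℝ) ^ 12 := mul_le_mul_of_nonneg_right (h5.trans h2) (by linarith)

lemma le_CC {k : ℕ} (hk : 2 ≤ k) : 200 * (3 * (k : ℝ)) ≤ CC k := by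
  have hk' : (2 : ℝ) ≤ k := by exact_mod_cast hk
  have h1 : (1 : ℝ) ≤ 200 * (3 * (k : ℝ)) := by linarith
  have h2 : 200 * (3 * (k : ℝ)) ≤ (200 * (3 * (k : ℝ))) ^ 11 := le_self_pow₀ h1 (by norm_num)
  unfold CC
  calc 200 * (3 * (k : ℝ)) ≤ (200 * (3 * (k : ℝ))) ^ 11 := h2
    _ ≤ 40 * (3 * (k : ℝ)) * (200 * (3 * (k : ℝ))) ^ 11 :=
        le_mul_of_one_le_left (by positivity) (by linarith)

lemma log_nat {q : ℕ} (hq : 2 ≤ q) : 69 / 100 ≤ Real.log q ∧ Real.log q ≤ q := by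
  have hq' : (2 : ℝ) ≤ q := by exact_mod_cast hq
  refine ⟨?_, ?_⟩
  · have h1 : Real.log 2 ≤ Real.log q := Real.log_le_log (by norm_num) hq'
    have h2 := Real.log_two_gt_d9
    linarith
  · have h1 := Real.log_le_sub_one_of_pos (show (0 : ℝ) < q by linarith)
    linarith

lemma log_four {q : ℕ} (hq : 2 ≤ q) : Real.log 4 ≤ 100 * Real.log q ^ 11 := by
  have h1 : Real.log 4 = 2 * Real.log 2 := by
    rw [show (4 : ℝ) = 2 ^ 2 by norm_num, Real.log_pow]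
    norm_num
  have h2 := Real.log_two_lt_d9
  have h3 : (69 / 100 : ℝ) ^ 11 ≤ Real.log q ^ 11 := pow_le_pow_left₀ (by norm_num) (log_nat hq).1 _
  have h4 : (14 / 1000 : ℝ) ≤ (69 / 100 : ℝ) ^ 11 := by norm_num
  linarith

/-- the sizes of the constants -/
lemma sizes {k q r : ℕ} (hk : 2 ≤ k) (hq : 2 ≤ q) (hr : (k * q) ^ 300 ≤ r) :
    CC k * Real.log q ^ 11 + 2 ≤ r ∧
    (q : ℝ) * (61 * (CC k * Real.log q ^ 10) ^ 2 + 10 * (CC k * Real.log q ^ 10) + 200 * (3 * k)) + 1 ≤ r ∧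
    (10 : ℝ) ^ 10 ≤ r := by
  have hk' : (2 : ℝ) ≤ k := by exact_mod_cast hk
  have hq' : (2 : ℝ) ≤ q := by exact_mod_cast hq
  obtain ⟨X, hX⟩ : ∃ X : ℝ, X = k * q := ⟨_, rfl⟩
  obtain ⟨Y, hY⟩ : ∃ Y : ℝ, Y = X ^ 130 := ⟨_, rfl⟩
  have hX4 : 4 ≤ X := by rw [hX]; nlinarith
  have hqX : (q : ℝ) ≤ X := by rw [hX]; nlinarith
  have hrX : X ^ 300 ≤ r := by
    rw [hX]
    exact_mod_cast hr
  have hY1 : 1 ≤ Y := by rw [hY]; exact one_le_pow₀ (by linarith)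
  have hC := CC_nonneg k
  have hC1 := CC_le hk
  have hC2 := le_CC hk
  obtain ⟨hl1, hl2⟩ := log_nat hq
  have hl0 : 0 ≤ Real.log q := by linarith
  have hbase : ∀ j : ℕ, j ≤ 130 → CC k * Real.log q ^ j ≤ Y := by
    intro j hj
    have h1 : Real.log q ^ j ≤ (q : ℝ) ^ j := pow_le_pow_left₀ hl0 hl2 _
    have h2 : (q : ℝ) ^ j ≤ (q : ℝ) ^ 130 := pow_le_pow_right₀ (by linarith) hj
    calc CC k * Real.log q ^ j ≤ (k : ℝ) ^ 130 * (q : ℝ) ^ 130 :=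
          mul_le_mul (by linarith) (h1.trans h2) (pow_nonneg hl0 _) (by positivity)
      _ = Y := by rw [hY, hX, mul_pow]
  have hp : ∀ j : ℕ, j ≤ 300 → X ^ j ≤ r := fun j hj => (pow_le_pow_right₀ (by linarith) hj).trans hrX
  refine ⟨?_, ?_, ?_⟩
  · have h1 := hbase 11 (by norm_num)
    have h2 : X ^ 131 = Y * X := by rw [hY, ← pow_succ]
    have h3 := hp 131 (by norm_num)
    nlinarith
  · have h1 := hbase 10 (by norm_num)
    have h0 : 0 ≤ CC k * Real.log q ^ 10 := by positivity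
    have h2 : 200 * (3 * (k : ℝ)) ≤ Y := by
      have h3 := hbase 0 (by norm_num)
      rw [pow_zero, mul_one] at h3
      linarith
    obtain ⟨Z, hZ⟩ : ∃ Z : ℝ, Z = CC k * Real.log q ^ 10 := ⟨_, rfl⟩
    rw [← hZ] at h1 h0 ⊢
    have h3 : 61 * Z ^ 2 + 10 * Z + 200 * (3 * (k : ℝ)) ≤ 72 * Y ^ 2 := by nlinarith
    have h4 : (q : ℝ) * (61 * Z ^ 2 + 10 * Z + 200 * (3 * k)) ≤ X * (72 * Y ^ 2) :=
      mul_le_mul hqX h3 (by positivity) (by linarith)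
    have h5 : X ^ 265 = X * (X ^ 4 * Y ^ 2) := by
      rw [hY, ← pow_mul, ← pow_add, ← pow_succ']
    have h6 := hp 265 (by norm_num)
    have h7 : (4 : ℝ) ^ 4 ≤ X ^ 4 := pow_le_pow_left₀ (by norm_num) hX4 _
    have h8 : X * (73 * Y ^ 2) ≤ X * (X ^ 4 * Y ^ 2) := by
      refine mul_le_mul_of_nonneg_left ?_ (by linarith)
      refine mul_le_mul_of_nonneg_right ?_ (by positivity)
      linarith [show (4 : ℝ) ^ 4 = 256 by norm_num]
    have h9 : 1 ≤ X * Y ^ 2 := by nlinarith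
    linarith
  · have h1 := hp 17 (by norm_num)
    have h2 : (4 : ℝ) ^ 17 ≤ X ^ 17 := pow_le_pow_left₀ (by norm_num) hX4 _
    have h3 : (10 : ℝ) ^ 10 ≤ 4 ^ 17 := by norm_num
    linarith

/-- powers of `t` -/
lemma pow_le_exp {r : ℝ} (hr : 10 ^ 10 ≤ r) {t M : ℕ} (ht : (t : ℝ) ≤ r ^ 4) (hM : (M : ℝ) ≤ r ^ 6) :
    (t : ℝ) ^ M ≤ Real.exp (r ^ 8) := by
  have hr0 : 0 < r := by linarith [show (0 : ℝ) < 10 ^ 10 by norm_num]
  have h1 : r ≤ Real.exp r := by linarith [Real.add_one_le_exp r]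
  have h2 : (t : ℝ) ≤ Real.exp (4 * r) := by
    refine ht.trans ?_
    have h3 : r ^ 4 ≤ Real.exp r ^ 4 := pow_le_pow_left₀ hr0.le h1 _
    rw [← Real.exp_nat_mul] at h3
    simpa using h3
  calc (t : ℝ) ^ M ≤ Real.exp (4 * r) ^ M := pow_le_pow_left₀ (Nat.cast_nonneg _) h2 _
    _ = Real.exp (M * (4 * r)) := by rw [← Real.exp_nat_mul]
    _ ≤ Real.exp (r ^ 8) := by
        apply Real.exp_le_exp.2
        have h4 : (M : ℝ) * (4 * r) ≤ r ^ 6 * (4 * r) := mul_le_mul_of_nonneg_right hM (by positivity)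
        have h5 : r ^ 6 * (4 * r) ≤ r ^ 6 * (r * r) := by
          refine mul_le_mul_of_nonneg_left ?_ (by positivity)
          exact mul_le_mul_of_nonneg_right (by linarith [show (4 : ℝ) ≤ 10 ^ 10 by norm_num]) hr0.le
        calc (M : ℝ) * (4 * r) ≤ r ^ 6 * (r * r) := h4.trans h5
          _ = r ^ 8 := by ring

/-- the size of `n / T` for `T ≤ exp (r ^ 8)` -/
lemma div_ge {r : ℝ} (hr : 10 ^ 10 ≤ r) {n T : ℕ} (hT : 1 ≤ T) (hTn : T ≤ n)
    (hTe : (T : ℝ) ≤ Real.exp (r ^ 8)) : Real.exp (-r ^ 9) * n ≤ ((n / T : ℕ) : ℝ) := by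
  have hr0 : 0 < r := by linarith [show (0 : ℝ) < 10 ^ 10 by norm_num]
  have hT0 : (0 : ℝ) < T := by exact_mod_cast hT
  have h1 : 1 ≤ n / T := (Nat.one_le_div_iff (by omega)).2 hTn
  have h2 : n < T * (n / T + 1) := Nat.lt_mul_div_succ n (by omega)
  have h3 : n ≤ 2 * T * (n / T) := by nlinarith
  have h4 : (n : ℝ) ≤ 2 * T * ((n / T : ℕ) : ℝ) := by exact_mod_cast h3
  have h5 : 2 * Real.exp (r ^ 8) ≤ Real.exp (r ^ 9) := by
    have h6 : r ^ 8 + 1 ≤ r ^ 9 := by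
      have h7 : 1 ≤ r ^ 8 := one_le_pow₀ (by linarith [show (1 : ℝ) ≤ 10 ^ 10 by norm_num])
      have h8 : r ^ 9 = r ^ 8 * r := by ring
      nlinarith [show (2 : ℝ) ≤ 10 ^ 10 by norm_num]
    calc 2 * Real.exp (r ^ 8) ≤ Real.exp 1 * Real.exp (r ^ 8) :=
          mul_le_mul_of_nonneg_right (by linarith [Real.add_one_le_exp (1 : ℝ)]) (Real.exp_pos _).le
      _ = Real.exp (r ^ 8 + 1) := by rw [← Real.exp_add, add_comm]
      _ ≤ _ := Real.exp_le_exp.2 h6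
  have h6 : (n : ℝ) ≤ Real.exp (r ^ 9) * ((n / T : ℕ) : ℝ) := by
    refine h4.trans (mul_le_mul_of_nonneg_right ?_ (Nat.cast_nonneg _))
    linarith
  calc Real.exp (-r ^ 9) * n ≤ Real.exp (-r ^ 9) * (Real.exp (r ^ 9) * ((n / T : ℕ) : ℝ)) :=
        mul_le_mul_of_nonneg_left h6 (Real.exp_pos _).le
    _ = ((n / T : ℕ) : ℝ) := by
        rw [← mul_assoc, ← Real.exp_add]
        simp

/-- the scale: all the mean total correlations are relatively small -/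
lemma scale (hPig : S_Pig) (hMon : S_MonQ) {r n : ℕ} {L : ℝ} (hL0 : 0 ≤ L) (hz1 : L + 2 ≤ r)
    (hz3 : (10 : ℝ) ^ 10 ≤ r) (hn1 : Real.exp ((r : ℝ) ^ 8) ≤ n) {β : Type}
    {F : Finset (Fin n → Bool)} (sg : Fin r → (Fin n → Bool) → β) (hF : F.Nonempty) :
    ∃ m : ℕ, m < n ∧ Real.exp (-(r : ℝ) ^ 9) * n ≤ (n : ℝ) - m ∧
      ∀ s ≤ r, Real.exp (-L) ≤ Ha F sg m s →
        Ta F sg m s ≤ 2 * (1 / (10 ^ 10 * r * (L + 2))) * Ha F sg m s := by
  have hr1 : (2 : ℝ) ≤ r := by linarith [show (2 : ℝ) ≤ 10 ^ 10 by norm_num]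
  have hr0 : (0 : ℝ) < r := by linarith
  obtain ⟨W, hW⟩ : ∃ W : ℝ, W = 10 ^ 10 * r * (L + 2) := ⟨_, rfl⟩
  rw [← hW]
  have hW1 : 1 ≤ W := by
    rw [hW]
    nlinarith [show (1 : ℝ) ≤ 10 ^ 10 by norm_num]
  have hW3 : W ≤ (r : ℝ) ^ 3 := by
    rw [hW]
    calc 10 ^ 10 * (r : ℝ) * (L + 2) ≤ r * r * r := by gcongr
      _ = (r : ℝ) ^ 3 := by ring
  obtain ⟨t, ht⟩ : ∃ t : ℕ, t = ⌈W⌉₊ := ⟨_, rfl⟩
  have htW : W ≤ t := ht ▸ Nat.le_ceil W
  have ht1 : 1 ≤ t := by exact_mod_cast hW1.trans htW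
  have ht4 : (t : ℝ) ≤ (r : ℝ) ^ 4 := by
    have h1 : (t : ℝ) < W + 1 := ht ▸ Nat.ceil_lt_add_one (by linarith)
    have h2 : (r : ℝ) ^ 4 = (r : ℝ) ^ 3 * r := by ring
    have h3 : 1 ≤ (r : ℝ) ^ 3 := one_le_pow₀ (by linarith)
    nlinarith
  obtain ⟨M, hM⟩ : ∃ M : ℕ, M = ⌈2 * ((r : ℝ) + 1) * (L + 1) * W⌉₊ + 1 := ⟨_, rfl⟩
  have hM1 : 2 * ((r : ℝ) + 1) * (L + 1) * W < M := by
    rw [hM]
    push_cast
    linarith [Nat.le_ceil (2 * ((r : ℝ) + 1) * (L + 1) * W)]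
  have hM6 : (M : ℝ) ≤ (r : ℝ) ^ 6 := by
    have h1 : (M : ℝ) ≤ 2 * ((r : ℝ) + 1) * (L + 1) * W + 2 := by
      rw [hM]
      push_cast
      linarith [Nat.ceil_lt_add_one (show 0 ≤ 2 * ((r : ℝ) + 1) * (L + 1) * W by positivity)]
    have h2 : 2 * ((r : ℝ) + 1) * (L + 1) * W ≤ 2 * (2 * r) * r * (r : ℝ) ^ 3 := by
      gcongr <;> linarith
    have h3 : (r : ℝ) ^ 6 = r * (r : ℝ) ^ 5 := by ring
    have h4 : 2 * (2 * (r : ℝ)) * r * (r : ℝ) ^ 3 = 4 * (r : ℝ) ^ 5 := by ring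
    have h5 : 1 ≤ (r : ℝ) ^ 5 := one_le_pow₀ (by linarith)
    nlinarith [show (6 : ℝ) ≤ 10 ^ 10 by norm_num]
  have htM : (t : ℝ) ^ M ≤ Real.exp ((r : ℝ) ^ 8) := pow_le_exp hz3 ht4 hM6
  have hTe : ∀ i ≤ M, ((t ^ i : ℕ) : ℝ) ≤ Real.exp ((r : ℝ) ^ 8) := by
    intro i hi
    push_cast
    exact (pow_le_pow_right₀ (by exact_mod_cast ht1) hi).trans htM
  have hTn : ∀ i ≤ M, t ^ i ≤ n := by
    intro i hi
    exact_mod_cast (hTe i hi).trans hn1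
  have hT1 : ∀ i, 1 ≤ t ^ i := fun i => Nat.one_le_pow _ _ (by omega)
  have hmn : ∀ i ≤ M, n - n / t ^ i < n := by
    intro i hi
    have h1 : 1 ≤ n / t ^ i := (Nat.one_le_div_iff (by have := hT1 i; omega)).2 (hTn i hi)
    have h2 := Nat.div_le_self n (t ^ i)
    omega
  have hcast : ∀ i, (n : ℝ) - ((n - n / t ^ i : ℕ) : ℝ) = ((n / t ^ i : ℕ) : ℝ) := by
    intro i
    rw [Nat.cast_sub (Nat.div_le_self n (t ^ i))]
    ring
  have hmono : ∀ i, n - n / t ^ i ≤ n - n / t ^ (i + 1) := by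
    intro i
    have h1 : n / t ^ (i + 1) ≤ n / t ^ i :=
      Nat.div_le_div_left (Nat.pow_le_pow_right (by omega) (by omega)) (by have := hT1 i; omega)
    omega
  obtain ⟨i, hiM, hi⟩ := hPig r M L (1 / W) (fun s i => Ha F sg (n - n / t ^ i) s) hL0 (by positivity)
    (by rw [div_le_one (by linarith)]; exact hW1)
    (by rw [div_div_eq_mul_div, div_one]; exact hM1)
    (fun s hs i hi => by
      have h1 := hMon n r β F sg (n - n / t ^ i) (n - n / t ^ i) s hF le_rfl (hmn i hi) hs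
      exact ⟨h1.1, h1.2.2.1⟩)
    (fun s hs i hi =>
      (hMon n r β F sg (n - n / t ^ i) (n - n / t ^ (i + 1)) s hF (hmono i) (hmn (i + 1) hi) hs).2.1)
  obtain ⟨m, hm⟩ : ∃ m : ℕ, m = n - n / t ^ i := ⟨_, rfl⟩
  obtain ⟨m', hm'⟩ : ∃ m' : ℕ, m' = n - n / t ^ (i + 1) := ⟨_, rfl⟩
  have hmn1 : m < n := hm ▸ hmn i hiM.le
  have hmn2 : m' < n := hm' ▸ hmn (i + 1) hiM
  have hmm : m ≤ m' := by rw [hm, hm']; exact hmono i
  have hNm : (n : ℝ) - m = ((n / t ^ i : ℕ) : ℝ) := by rw [hm]; exact hcast i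
  have hNm' : (n : ℝ) - m' = ((n / t ^ (i + 1) : ℕ) : ℝ) := by rw [hm']; exact hcast (i + 1)
  have hNpos : (0 : ℝ) < (n : ℝ) - m := by
    have : (m : ℝ) < n := by exact_mod_cast hmn1
    linarith
  have hratio : ((n : ℝ) - m') / ((n : ℝ) - m) ≤ 1 / W := by
    have h1 : t * (n / t ^ (i + 1)) ≤ n / t ^ i := by
      rw [pow_succ, ← Nat.div_div_eq_div_mul]
      exact Nat.mul_div_le _ _
    have h2 : (t : ℝ) * ((n : ℝ) - m') ≤ (n : ℝ) - m := by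
      rw [hNm, hNm']
      exact_mod_cast h1
    have h3 : 0 ≤ (n : ℝ) - m' := by rw [hNm']; positivity
    rw [div_le_div_iff₀ hNpos (by linarith)]
    nlinarith
  have hNge : Real.exp (-(r : ℝ) ^ 9) * n ≤ (n : ℝ) - m := by
    rw [hNm]
    exact div_ge hz3 (hT1 i) (hTn i hiM.le) (hTe i hiM.le)
  refine ⟨m, hmn1, hNge, ?_⟩
  intro s hs hH
  obtain ⟨h4, h5, h6, h7⟩ := hMon n r β F sg m m' s hF hmm hmn2 hs
  have h8 : Ha F sg m s - Ha F sg m' s ≤ 1 / W * Ha F sg m s := by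
    have h1 := hi s hs
    simp only [← hm, ← hm'] at h1
    exact h1 hH
  have h10 : ((n : ℝ) - m') / ((n : ℝ) - m) * Ha F sg m s ≤ 1 / W * Ha F sg m s :=
    mul_le_mul_of_nonneg_right hratio (h4.trans h5)
  linarith

/-- the conclusion in terms of the potential -/
lemma relTC (hHA : S_HA) {r n m s : ℕ} {L : ℝ} (hL0 : 0 ≤ L) (hr0 : (0 : ℝ) < r) {β : Type}
    {F : Finset (Fin n → Bool)} (sg : Fin r → (Fin n → Bool) → β) (hF : F.Nonempty) (hmn1 : m < n)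
    (hs : s ≤ r) (hT : Real.exp (-L) ≤ Ha F sg m s →
      Ta F sg m s ≤ 2 * (1 / (10 ^ 10 * r * (L + 2))) * Ha F sg m s)
    (hA : Real.exp (-L) ≤ Aa F sg m s) : Ta F sg m s ≤ 2 / (10 ^ 10 * r) * Aa F sg m s := by
  obtain ⟨h1, h2⟩ := hHA n r β F sg m s hF hmn1 hs
  have h3 := h2 (L + 1) (by linarith)
  have h11 : Real.exp (-(L + 1)) ≤ Real.exp (-L) := Real.exp_le_exp.2 (by linarith)
  have h12 : Ha F sg m s ≤ (L + 2) * Aa F sg m s := by linarith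
  have h13 := hT (hA.trans h1)
  have h14 : 2 * (1 / (10 ^ 10 * r * (L + 2))) * Ha F sg m s ≤
      2 * (1 / (10 ^ 10 * r * (L + 2))) * ((L + 2) * Aa F sg m s) :=
    mul_le_mul_of_nonneg_left h12 (by positivity)
  have h15 : 2 * (1 / (10 ^ 10 * r * (L + 2))) * ((L + 2) * Aa F sg m s) =
      2 / (10 ^ 10 * r) * Aa F sg m s := by
    have hL2 : L + 2 ≠ 0 := by linarith
    field_simp
  linarith

end FindQM

open FindQM in
/-- FIND -/
theorem tFind (hPig : S_Pig) (hMon : S_MonQ) (hHA : S_HA) (hLem3 : S_Lem3) (hA0 : S_A0)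
    (hRcrM : S_RcrM) (hSel : S_Sel) : S_Find := by
  obtain ⟨B, hB⟩ : ∃ B : ℕ, B = 300 := ⟨_, rfl⟩
  refine ⟨B, by omega, ?_⟩
  intro k q r hk hq hqr hr n hn β F sg dm hcps hF hdm hent
  have hr' : (k * q) ^ 300 ≤ r := hB ▸ hr
  obtain ⟨hz1, hz2, hz3⟩ := sizes hk hq hr'
  have hk' : (2 : ℝ) ≤ k := by exact_mod_cast hk
  have hq' : (2 : ℝ) ≤ q := by exact_mod_cast hq
  obtain ⟨hl1, hl2⟩ := log_nat hq
  have hl0 : 0 ≤ Real.log q := by linarith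
  obtain ⟨L, hL⟩ : ∃ L : ℝ, L = CC k * Real.log q ^ 11 := ⟨_, rfl⟩
  have hL0 : 0 ≤ L := by
    have := CC_nonneg k
    rw [hL]
    positivity
  rw [← hL] at hz1
  have hr0 : (0 : ℝ) < r := by linarith [show (0 : ℝ) < 10 ^ 10 by norm_num]
  have hr1 : (2 : ℝ) ≤ r := by linarith
  have hrn : 1 ≤ r := by exact_mod_cast (show (1 : ℝ) ≤ r by linarith)
  -- powers of r
  have hpB : ∀ j : ℕ, j ≤ 300 → (r : ℝ) ^ j ≤ (r : ℝ) ^ B := fun j hj =>
    pow_le_pow_right₀ (by linarith) (by omega)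
  have hn1 : Real.exp ((r : ℝ) ^ 8) ≤ n := (Real.exp_le_exp.2 (hpB 8 (by norm_num))).trans hn
  have hnr : (r : ℝ) ≤ n := by
    have h1 := Real.add_one_le_exp ((r : ℝ) ^ 8)
    have h2 : (r : ℝ) ≤ (r : ℝ) ^ 8 := le_self_pow₀ (by linarith) (by norm_num)
    linarith
  have hnr' : r ≤ n := by exact_mod_cast hnr
  have hn0 : (0 : ℝ) < n := by linarith
  obtain ⟨m, hmn1, hNge, hscale⟩ := scale hPig hMon hL0 hz1 hz3 hn1 sg hF
  have hNpos : (0 : ℝ) < (n : ℝ) - m := by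
    have : (m : ℝ) < n := by exact_mod_cast hmn1
    linarith
  obtain ⟨δ, hδ⟩ : ∃ δ : ℝ, δ = 2 / (10 ^ 10 * r) := ⟨_, rfl⟩
  have hδ0 : 0 < δ := by rw [hδ]; positivity
  have hTa : ∀ s ≤ r, Real.exp (-L) ≤ Aa F sg m s → Ta F sg m s ≤ δ * Aa F sg m s := by
    intro s hs hA
    rw [hδ]
    exact relTC hHA hL0 hr0 sg hF hmn1 hs (hscale s hs) hA
  -- the recursion
  obtain ⟨hA01, hA02, hA03⟩ := hA0 n r β F sg m hF hmn1
  have hℓ1 : r * (k * n / r + 1) ≤ k * n + r := by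
    have := Nat.mul_div_le (k * n) r
    nlinarith
  have hℓ : (r : ℝ) * ((k * n / r + 1 : ℕ) : ℝ) ≤ 3 * k * n := by
    have h1 : (r : ℝ) * ((k * n / r + 1 : ℕ) : ℝ) ≤ k * n + r := by exact_mod_cast hℓ1
    nlinarith
  have hstart : 9 / 20 ≤ Aa F sg m 0 := by
    have h1 : ((n : ℝ) * Real.log 2 - Real.log F.card) / ((n : ℝ) - m) ≤ 1 / 20 := by
      rw [div_le_iff₀ hNpos]
      have h2 : Real.exp (-(r : ℝ) ^ B) ≤ 1 / 20 * Real.exp (-(r : ℝ) ^ 9) := by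
        have h3 : (r : ℝ) ^ 9 + 20 ≤ (r : ℝ) ^ B := by
          have h4 := hpB 10 (by norm_num)
          have h5 : 1 ≤ (r : ℝ) ^ 9 := one_le_pow₀ (by linarith)
          have h6 : (r : ℝ) ^ 10 = (r : ℝ) ^ 9 * r := by ring
          nlinarith [show (21 : ℝ) ≤ 10 ^ 10 by norm_num]
        have h7 : (20 : ℝ) ≤ Real.exp 20 := by linarith [Real.add_one_le_exp (20 : ℝ)]
        have h8 : Real.exp (-(20 : ℝ)) ≤ 1 / 20 := by
          rw [Real.exp_neg, inv_eq_one_div]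
          exact one_div_le_one_div_of_le (by norm_num) h7
        calc Real.exp (-(r : ℝ) ^ B) ≤ Real.exp (-20 + -(r : ℝ) ^ 9) :=
              Real.exp_le_exp.2 (by linarith)
          _ = Real.exp (-20) * Real.exp (-(r : ℝ) ^ 9) := Real.exp_add _ _
          _ ≤ _ := mul_le_mul_of_nonneg_right h8 (Real.exp_pos _).le
      calc (n : ℝ) * Real.log 2 - Real.log F.card ≤ Real.exp (-(r : ℝ) ^ B) * n := hent
        _ ≤ 1 / 20 * Real.exp (-(r : ℝ) ^ 9) * n := mul_le_mul_of_nonneg_right h2 hn0.le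
        _ ≤ 1 / 20 * ((n : ℝ) - m) := by linarith
    linarith
  have hrec := hRcrM (3 * k) q r (CC k) (CC k * Real.log q ^ 10) (by linarith) hq hqr rfl rfl hz2
    δ hδ0.le (by
      rw [hδ]
      have h1 : 80 * (2 / (10 ^ 10 * (r : ℝ))) * r = 160 / 10 ^ 10 := by
        field_simp
        norm_num
      rw [h1]
      norm_num)
    (fun s => Aa F sg m s) (fun s => Ta F sg m s) hstart
    (fun s hs I hI => hLem3 n r (k * n / r + 1) β F sg dm m s (3 * k) I hF hcps hdm hℓ hmn1 hs hI)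
    hA02
    (fun s hs hA => hTa s (hs.trans (Nat.sub_le _ _)) (by rw [hL]; exact hA))
  rw [← hL] at hrec
  have hapos : 0 < Aa F sg m (r - r / q) := (Real.exp_pos _).trans_le hrec
  have hℓ2 : n ≤ r * (k * n / r + 1) := by
    have h1 : k * n < r * (k * n / r + 1) := Nat.lt_mul_div_succ (k * n) (by omega)
    nlinarith
  obtain ⟨N, J, hN, hJ, hu, htj, hbad⟩ := hSel n r (k * n / r + 1) β F sg (fun j x => dm (sg j x)) m
    (r - r / q) δ hF hmn1 (Nat.sub_le _ _) hrn hδ0 hapos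
    (hTa _ (Nat.sub_le _ _) hrec) hℓ2 hdm
  have hNc : (N.card : ℝ) = (n : ℝ) - m := by
    rw [hN, Nat.cast_sub hmn1.le]
  have hNc0 : (0 : ℝ) < N.card := by rw [hNc]; exact hNpos
  have hu0 : 0 ≤ uJ F N sg J := le_trans (by positivity) hu
  refine ⟨N, J, ?_, hJ, ?_, ?_, ?_⟩
  · rw [hNc]
    refine le_trans ?_ hNge
    exact mul_le_mul_of_nonneg_right (Real.exp_le_exp.2 (by
      have := hpB 9 (by norm_num)
      linarith)) hn0.le
  · refine le_trans ?_ hu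
    refine mul_le_mul_of_nonneg_right ?_ hNc0.le
    have h1 : Real.exp (-((k : ℝ) ^ B * Real.log q ^ 11)) ≤ Real.exp (-(L + Real.log 4)) := by
      apply Real.exp_le_exp.2
      have h2 := log_four hq
      have h3 := CC_le hk
      have h4 : (k : ℝ) ^ 130 ≤ (k : ℝ) ^ B := pow_le_pow_right₀ (by linarith) (by omega)
      have h5 : (CC k + 100) * Real.log q ^ 11 ≤ (k : ℝ) ^ B * Real.log q ^ 11 :=
        mul_le_mul_of_nonneg_right (h3.trans h4) (by positivity)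
      rw [hL]
      linarith
    have h2 : Real.exp (-(L + Real.log 4)) = Real.exp (-L) / 4 := by
      rw [neg_add, Real.exp_add, Real.exp_neg (Real.log 4), Real.exp_log (by norm_num)]
      ring
    linarith
  · have h1 : 10 ^ 9 * (4 * δ * uJ F N sg J) ≤ uJ F N sg J := by
      have h2 : 10 ^ 9 * (4 * δ) ≤ 1 := by
        rw [hδ]
        have h3 : 10 ^ 9 * (4 * (2 / (10 ^ 10 * (r : ℝ)))) = 8 / 10 / r := by
          field_simp
          norm_num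
        rw [h3, div_le_one hr0]
        linarith
      nlinarith
    linarith
  · have h1 : Real.exp (-L) * (N.card : ℝ) *
        ((F.filter (fun x => ∃ j, 2 * (k * n / r + 1) * N.card < n * (dm (sg j x) ∩ N).card)).card : ℝ) ≤
        4 * r ^ 2 * F.card := by
      refine le_trans ?_ hbad
      gcongr
    have h2 : 4 * (r : ℝ) ^ 2 ≤ Real.exp (-(r : ℝ)) * (Real.exp (-L) * N.card) := by
      have h3 : 4 * (r : ℝ) ^ 2 ≤ Real.exp ((r : ℝ) ^ 3) := by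
        have h4 := Real.add_one_le_exp ((r : ℝ) ^ 3)
        have h5 : (r : ℝ) ^ 3 = r * (r : ℝ) ^ 2 := by ring
        nlinarith [show (4 : ℝ) ≤ 10 ^ 10 by norm_num, sq_nonneg (r : ℝ)]
      have h6 : (r : ℝ) ^ 3 + 2 * r + (r : ℝ) ^ 9 ≤ (r : ℝ) ^ B := by
        have h7 := hpB 10 (by norm_num)
        have h8 : (r : ℝ) ^ 10 = r * (r : ℝ) ^ 9 := by ring
        have h9 : (r : ℝ) ^ 3 ≤ (r : ℝ) ^ 9 := pow_le_pow_right₀ (by linarith) (by norm_num)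
        have h10 : (r : ℝ) ≤ (r : ℝ) ^ 9 := le_self_pow₀ (by linarith) (by norm_num)
        have h11 : 0 ≤ (r : ℝ) ^ 9 := by positivity
        nlinarith [show (4 : ℝ) ≤ 10 ^ 10 by norm_num]
      calc 4 * (r : ℝ) ^ 2 ≤ Real.exp ((r : ℝ) ^ 3) := h3
        _ ≤ Real.exp (-(r : ℝ) + (-L + (-(r : ℝ) ^ 9 + (r : ℝ) ^ B))) :=
            Real.exp_le_exp.2 (by linarith)
        _ = Real.exp (-(r : ℝ)) * (Real.exp (-L) * (Real.exp (-(r : ℝ) ^ 9) * Real.exp ((r : ℝ) ^ B))) := by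
            rw [Real.exp_add, Real.exp_add, Real.exp_add]
        _ ≤ Real.exp (-(r : ℝ)) * (Real.exp (-L) * N.card) := by
            refine mul_le_mul_of_nonneg_left ?_ (Real.exp_pos _).le
            refine mul_le_mul_of_nonneg_left ?_ (Real.exp_pos _).le
            rw [hNc]
            exact le_trans (mul_le_mul_of_nonneg_left hn (Real.exp_pos _).le) hNge
    have h3 : 0 < Real.exp (-L) * (N.card : ℝ) := by positivity
    have h4 := h1.trans (mul_le_mul_of_nonneg_right h2 (Nat.cast_nonneg F.card))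
    refine le_of_mul_le_mul_left ?_ h3
    calc _ ≤ _ := h4
      _ = _ := by ring

end SRBP
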