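import Pool.Agent.Lib.MP_9dcf40_lc.LIN.SpecQ
import Pool.Agent.Lib.MP_9dcf40_lc.LIN.Sec3

/-!
# Theorem Q (MP_9dcf40_lc): the module `S_HA`, potential and conditional entropy
-/

set_option autoImplicit false

namespace SRBP

open Finset

namespace HAQ

variable {n r : ℕ} {β : Type} {F : Finset (Fin n → Bool)} {N : Finset (Fin n)}
  {sg : Fin r → (Fin n → Bool) → β} {J : Finset (Fin r)}

/-- The mean conditional entropy for fixed `N`, `J`. -/
noncomputable def hJ (F : Finset (Fin n → Bool)) (N : Finset (Fin n))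
    (sg : Fin r → (Fin n → Bool) → β) (J : Finset (Fin r)) : ℝ :=
  (∑ x ∈ F, ∑ v ∈ N, -Real.log (1 - wf (Cl F N sg J x) v x)) / F.card

theorem uJ_le_hJ : uJ F N sg J ≤ hJ F N sg J := by
  unfold uJ hJ
  apply div_le_div_of_nonneg_right _ (Nat.cast_nonneg _)
  apply sum_le_sum
  intro x hx
  apply sum_le_sum
  intro v _
  have hm : x ∈ Cl F N sg J x := Sec3.self_mem hx
  have hp : 0 < 1 - wf (Cl F N sg J x) v x := by
    rw [Sec3.wf_fr _ ⟨x, hm⟩]
    exact LINStarA.fr_pos _ hm v
  have := Real.log_le_sub_one_of_pos hp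
  linarith

/-- The numerical inequality. -/
theorem num (b c L : ℝ) (hb : 0 ≤ b) (hb2 : b ≤ c) (hbc : b + c = 1) (hL : 1 ≤ L) :
    b * -Real.log b + c * -Real.log c ≤ L * (b * (1 - b) + c * (1 - c)) + Real.exp (-L) := by
  have hc : 0 < c := by linarith
  have h1 : c * -Real.log c ≤ b := by
    have h := Real.one_sub_inv_le_log_of_pos hc
    have h2 : c * (1 - c⁻¹) ≤ c * Real.log c := mul_le_mul_of_nonneg_left h hc.le
    have h3 : c * (1 - c⁻¹) = c - 1 := by
      field_simp
    rw [h3] at h2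
    linarith
  have h2 : b * -Real.log b ≤ (L - 1) * b + Real.exp (-L) := by
    rcases hb.eq_or_lt with h | h
    · rw [← h]
      have := Real.exp_pos (-L)
      simp only [zero_mul, mul_zero, zero_add]
      exact this.le
    · have h3 := Real.log_le_sub_one_of_pos (x := Real.exp (-L) / b) (by positivity)
      rw [Real.log_div (Real.exp_pos _).ne' h.ne', Real.log_exp] at h3
      have h4 : b * (-L - Real.log b) ≤ b * (Real.exp (-L) / b - 1) := mul_le_mul_of_nonneg_left h3 h.le
      have h5 : b * (Real.exp (-L) / b - 1) = Real.exp (-L) - b := by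
        field_simp
      rw [h5] at h4
      linarith
  have h3 : L * b ≤ L * (b * (1 - b) + c * (1 - c)) := by
    apply mul_le_mul_of_nonneg_left _ (by linarith)
    have e : c = 1 - b := by linarith
    subst e
    nlinarith
  linarith

/-- One coordinate. -/
theorem one (C : Finset (Fin n → Bool)) (hC : C.Nonempty) (v : Fin n) (L : ℝ) (hL : 1 ≤ L) :
    ∑ x ∈ C, -Real.log (1 - wf C v x) ≤ ∑ x ∈ C, (L * wf C v x + Real.exp (-L)) := by
  have hc : (0 : ℝ) < C.card := by exact_mod_cast hC.card_pos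
  have e1 := LINStarA.fr_avg C v (fun b => -Real.log (LINStarA.fr C v b))
  have e2 := LINStarA.fr_avg C v (fun b => L * (1 - LINStarA.fr C v b) + Real.exp (-L))
  have f1 : ∑ x ∈ C, -Real.log (1 - wf C v x) = ∑ x ∈ C, -Real.log (LINStarA.fr C v (x v)) := by
    apply sum_congr rfl
    intro x _
    rw [Sec3.wf_fr C hC]
  have f2 : ∑ x ∈ C, (L * wf C v x + Real.exp (-L)) =
      ∑ x ∈ C, (L * (1 - LINStarA.fr C v (x v)) + Real.exp (-L)) := by
    apply sum_congr rfl
    intro x _
    rw [← Sec3.wf_fr C hC]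
    ring
  rw [f1, f2, ← div_le_div_iff_of_pos_right hc, e1, e2]
  have hp := LINStarA.fr_nonneg C v true
  have hq := LINStarA.fr_nonneg C v false
  have hpq : LINStarA.fr C v true + LINStarA.fr C v false = 1 := by
    simpa using LINStarA.fr_add C hC v true
  set p := LINStarA.fr C v true
  set q := LINStarA.fr C v false
  have e : p * (L * (1 - p) + Real.exp (-L)) + q * (L * (1 - q) + Real.exp (-L)) =
      L * (p * (1 - p) + q * (1 - q)) + Real.exp (-L) := by
    linear_combination Real.exp (-L) * hpq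
  rw [e]
  rcases le_total p q with h | h
  · exact num p q L hp h hpq hL
  · have := num q p L hq h (by linarith) hL
    linarith

theorem hJ_le (hF : F.Nonempty) (L : ℝ) (hL : 1 ≤ L) :
    hJ F N sg J ≤ L * uJ F N sg J + Real.exp (-L) * N.card := by
  have hf : (0 : ℝ) < F.card := by exact_mod_cast hF.card_pos
  have h := Sec3.avg_le (F := F) (N := N) (sg := sg) (J := J)
    (fun C x => ∑ v ∈ N, -Real.log (1 - wf C v x))
    (fun C x => ∑ v ∈ N, (L * wf C v x + Real.exp (-L))) (by
      intro x hx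
      have hC : (Cl F N sg J x).Nonempty := ⟨x, Sec3.self_mem hx⟩
      rw [sum_comm, sum_comm (s := Cl F N sg J x)]
      exact sum_le_sum fun v _ => one _ hC v L hL)
  have e : ∑ x ∈ F, ∑ v ∈ N, (L * wf (Cl F N sg J x) v x + Real.exp (-L)) =
      L * (∑ x ∈ F, ∑ v ∈ N, wf (Cl F N sg J x) v x) + F.card * (N.card * Real.exp (-L)) := by
    rw [mul_sum, ← nsmul_eq_mul, ← nsmul_eq_mul, ← sum_const, ← sum_const, ← sum_add_distrib]
    apply sum_congr rfl
    intro x _
    rw [mul_sum, ← sum_add_distrib]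
  have h' : ∑ x ∈ F, ∑ v ∈ N, -Real.log (1 - wf (Cl F N sg J x) v x) ≤
      ∑ x ∈ F, ∑ v ∈ N, (L * wf (Cl F N sg J x) v x + Real.exp (-L)) := h
  rw [e] at h'
  unfold hJ uJ
  rw [div_le_iff₀ hf]
  have e2 : (L * ((∑ x ∈ F, ∑ v ∈ N, wf (Cl F N sg J x) v x) / F.card) + Real.exp (-L) * N.card) *
      F.card = L * (∑ x ∈ F, ∑ v ∈ N, wf (Cl F N sg J x) v x) + F.card * (N.card * Real.exp (-L)) := by
    field_simp
  rw [e2]
  exact h'

/-! ## Averages -/

theorem pav_mono (s : ℕ) {f g : Equiv.Perm (Fin n) → Finset (Fin r) → ℝ} (h : ∀ π J, f π J ≤ g π J) :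
    pav s f ≤ pav s g := by
  unfold pav
  apply div_le_div_of_nonneg_right _ (by positivity)
  exact sum_le_sum fun π _ => sum_le_sum fun J _ => h π J

theorem pav_lin (s : ℕ) (hs : s ≤ r) (L c : ℝ) (f : Equiv.Perm (Fin n) → Finset (Fin r) → ℝ) :
    pav s (fun π J => L * f π J + c) = L * pav s f + c := by
  unfold pav
  have hc : (0 : ℝ) < (r.choose s : ℝ) := by exact_mod_cast Nat.choose_pos hs
  have hp : (0 : ℝ) < (Fintype.card (Equiv.Perm (Fin n)) : ℝ) := by exact_mod_cast Fintype.card_pos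
  have e : ∑ π : Equiv.Perm (Fin n), ∑ J ∈ powersetCard s (univ : Finset (Fin r)), (L * f π J + c) =
      L * (∑ π : Equiv.Perm (Fin n), ∑ J ∈ powersetCard s (univ : Finset (Fin r)), f π J) +
        (Fintype.card (Equiv.Perm (Fin n)) * (r.choose s : ℝ)) * c := by
    have e1 : ∀ π : Equiv.Perm (Fin n), ∑ J ∈ powersetCard s (univ : Finset (Fin r)), (L * f π J + c) =
        L * (∑ J ∈ powersetCard s (univ : Finset (Fin r)), f π J) + (r.choose s : ℝ) * c := by
      intro π
      rw [sum_add_distrib, mul_sum, sum_const, card_powersetCard, card_univ, Fintype.card_fin,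
        nsmul_eq_mul]
    simp only [e1]
    rw [sum_add_distrib, mul_sum, sum_const, card_univ, nsmul_eq_mul]
    ring
  rw [e]
  field_simp

theorem card_NN (π : Equiv.Perm (Fin n)) (m : ℕ) (hm : m ≤ n) : ((NN π m).card : ℝ) = (n : ℝ) - m := by
  unfold NN
  rw [card_compl, LINS.card_fs π m hm, Fintype.card_fin, Nat.cast_sub hm]

end HAQ

theorem tHA : S_HA := by
  intro n r β F sg m s hF hm hs
  have hnm : (0 : ℝ) < (n : ℝ) - m := by
    have : (m : ℝ) < n := by exact_mod_cast hm
    linarith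
  constructor
  · unfold Aa Ha
    apply div_le_div_of_nonneg_right _ hnm.le
    apply HAQ.pav_mono
    intro π J
    exact HAQ.uJ_le_hJ
  · intro L hL
    unfold Aa Ha
    rw [div_le_iff₀ hnm]
    have h1 : pav s (fun π J => (∑ x ∈ F, ∑ v ∈ NN π m, -Real.log (1 - wf (Cl F (NN π m) sg J x) v x)) /
        F.card) ≤ pav s (fun (π : Equiv.Perm (Fin n)) (J : Finset (Fin r)) =>
          L * uJ F (NN π m) sg J + Real.exp (-L) * ((n : ℝ) - m)) := by
      apply HAQ.pav_mono
      intro π J
      have := HAQ.hJ_le (F := F) (N := NN π m) (sg := sg) (J := J) hF L hL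
      rw [HAQ.card_NN π m hm.le] at this
      exact this
    rw [HAQ.pav_lin s hs] at h1
    have e : (L * (pav s (fun π J => uJ F (NN π m) sg J) / ((n : ℝ) - m)) + Real.exp (-L)) *
        ((n : ℝ) - m) = L * pav s (fun π J => uJ F (NN π m) sg J) + Real.exp (-L) * ((n : ℝ) - m) := by
      field_simp
    rw [e]
    exact h1

end SRBP
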