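import Pool.Agent.Lib.MP_9dcf40_lc.LIN.ScaleA

/-!
# Theorem K, Lemma 2 (the scale): hypergeometric variance and Chebyshev
-/

set_option autoImplicit false

namespace LINS

open Finset

variable {n : ℕ}

/-! ### Hypergeometric variance -/

/-- The number of permutations which put `a` after `m`. -/
theorem count_one {m : ℕ} (hm : m ≤ n) (a : Fin n) :
    (n : ℝ) * ((univ.filter (fun π : Equiv.Perm (Fin n) => m ≤ ((π.symm a : Fin n) : ℕ))).card : ℝ) =
      n.factorial * ((n : ℝ) - m) := by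
  have h1 : ∀ b : Fin n, (univ.filter (fun π : Equiv.Perm (Fin n) => m ≤ ((π.symm b : Fin n) : ℕ))).card =
      (univ.filter (fun π : Equiv.Perm (Fin n) => m ≤ ((π.symm a : Fin n) : ℕ))).card := by
    intro b
    refine card_equiv (Equiv.mulLeft (Equiv.swap a b)) fun π => ?_
    have e1 : (Equiv.swap a b * π).symm a = π.symm b := by
      rw [Equiv.symm_apply_eq, Equiv.Perm.mul_apply, Equiv.apply_symm_apply,
        Equiv.swap_apply_right]
    rw [mem_filter, mem_filter, Equiv.coe_mulLeft, e1]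
    exact ⟨fun h => ⟨mem_univ _, h.2⟩, fun h => ⟨mem_univ _, h.2⟩⟩
  have h2 : ∑ b : Fin n, ((univ.filter (fun π : Equiv.Perm (Fin n) => m ≤ ((π.symm b : Fin n) : ℕ))).card : ℝ) =
      ∑ π : Equiv.Perm (Fin n), (((fs π m)ᶜ).card : ℝ) := by
    have h3 : ∀ b : Fin n,
        ((univ.filter (fun π : Equiv.Perm (Fin n) => m ≤ ((π.symm b : Fin n) : ℕ))).card : ℝ) =
        ∑ π : Equiv.Perm (Fin n), if b ∈ (fs π m)ᶜ then (1 : ℝ) else 0 := by
      intro b
      rw [sum_boole]
      congr 2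
      ext π
      rw [mem_filter, mem_filter, mem_compl, mem_fs, not_lt]
    rw [sum_congr rfl fun b _ => h3 b, sum_comm]
    refine sum_congr rfl fun π _ => ?_
    rw [sum_boole, filter_mem_eq_inter, univ_inter]
  rw [sum_congr rfl fun b _ => by rw [h1 b], sum_const, card_univ, Fintype.card_fin,
    nsmul_eq_mul] at h2
  rw [h2, sum_congr rfl fun π _ => by
    rw [card_compl, card_fs π m hm, Fintype.card_fin, Nat.cast_sub hm], sum_const, card_univ,
    Fintype.card_perm, Fintype.card_fin, nsmul_eq_mul]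

/-- The number of permutations which put `a` and `b` after `m`. -/
theorem count_two {m : ℕ} (hm : m ≤ n) {a b : Fin n} (hab : a ≠ b) :
    ((n : ℝ) - 1) *
      ((univ.filter (fun π : Equiv.Perm (Fin n) => m ≤ ((π.symm a : Fin n) : ℕ) ∧ m ≤ ((π.symm b : Fin n) : ℕ))).card : ℝ) =
      ((univ.filter (fun π : Equiv.Perm (Fin n) => m ≤ ((π.symm a : Fin n) : ℕ))).card : ℝ) *
        ((n : ℝ) - m - 1) := by
  have h1 : ∀ b' ∈ univ.erase a,
      (univ.filter (fun π : Equiv.Perm (Fin n) => m ≤ ((π.symm a : Fin n) : ℕ) ∧ m ≤ ((π.symm b' : Fin n) : ℕ))).card =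
      (univ.filter (fun π : Equiv.Perm (Fin n) => m ≤ ((π.symm a : Fin n) : ℕ) ∧ m ≤ ((π.symm b : Fin n) : ℕ))).card := by
    intro b' hb'
    have hne : a ≠ b' := (ne_of_mem_erase hb').symm
    refine card_equiv (Equiv.mulLeft (Equiv.swap b b')) fun π => ?_
    have e1 : (Equiv.swap b b' * π).symm b = π.symm b' := by
      rw [Equiv.symm_apply_eq, Equiv.Perm.mul_apply, Equiv.apply_symm_apply,
        Equiv.swap_apply_right]
    have e2 : (Equiv.swap b b' * π).symm a = π.symm a := by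
      rw [Equiv.symm_apply_eq, Equiv.Perm.mul_apply, Equiv.apply_symm_apply,
        Equiv.swap_apply_of_ne_of_ne hab hne]
    rw [mem_filter, mem_filter, Equiv.coe_mulLeft, e1, e2]
    exact ⟨fun h => ⟨mem_univ _, h.2⟩, fun h => ⟨mem_univ _, h.2⟩⟩
  have h2 : ∑ b' ∈ univ.erase a,
      ((univ.filter (fun π : Equiv.Perm (Fin n) => m ≤ ((π.symm a : Fin n) : ℕ) ∧ m ≤ ((π.symm b' : Fin n) : ℕ))).card : ℝ) =
      ∑ π ∈ univ.filter (fun π : Equiv.Perm (Fin n) => m ≤ ((π.symm a : Fin n) : ℕ)), ((n : ℝ) - m - 1) := by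
    have h3 : ∀ b' : Fin n,
        ((univ.filter (fun π : Equiv.Perm (Fin n) => m ≤ ((π.symm a : Fin n) : ℕ) ∧ m ≤ ((π.symm b' : Fin n) : ℕ))).card : ℝ) =
        ∑ π ∈ univ.filter (fun π : Equiv.Perm (Fin n) => m ≤ ((π.symm a : Fin n) : ℕ)),
          if b' ∈ (fs π m)ᶜ then (1 : ℝ) else 0 := by
      intro b'
      rw [sum_boole, filter_filter]
      congr 2
      ext π
      rw [mem_filter, mem_filter, mem_compl, mem_fs, not_lt]
    rw [sum_congr rfl fun b' _ => h3 b', sum_comm]
    refine sum_congr rfl fun π hπ => ?_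
    have h4 : a ∈ (fs π m)ᶜ := by
      rw [mem_compl, mem_fs, not_lt]
      exact (mem_filter.1 hπ).2
    rw [sum_boole, filter_mem_eq_inter, erase_inter, univ_inter, cast_card_erase_of_mem h4,
      card_compl, card_fs π m hm, Fintype.card_fin, Nat.cast_sub hm]
  rw [sum_congr rfl fun b' hb' => by rw [h1 b' hb'], sum_const, sum_const,
    card_erase_of_mem (mem_univ a), card_univ, Fintype.card_fin, nsmul_eq_mul, nsmul_eq_mul,
    Nat.cast_sub (by have := a.2; omega), Nat.cast_one] at h2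
  exact h2

/-- Hypergeometric variance. -/
theorem var_le_pr {m : ℕ} (hm : m ≤ n) (hn : 0 < n) (A : Finset (Fin n)) :
    ∑ π : Equiv.Perm (Fin n), (((A \ fs π m).card : ℝ) - A.card * ((n - m) / n)) ^ 2 ≤
      A.card * (n.factorial * ((n - m) / n)) := by
  have hn' : (0 : ℝ) < n := by exact_mod_cast hn
  have hmn : (m : ℝ) ≤ n := by exact_mod_cast hm
  have ht : (0 : ℝ) ≤ (n - m) / n := div_nonneg (by linarith) hn'.le
  have hc : ∀ π : Equiv.Perm (Fin n), ((A \ fs π m).card : ℝ) =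
      ∑ a ∈ A, if m ≤ ((π.symm a : Fin n) : ℕ) then (1 : ℝ) else 0 := by
    intro π
    rw [sum_boole]
    congr 2
    ext a
    rw [mem_sdiff, mem_filter, mem_fs, not_lt]
  have h1 : ∀ a : Fin n,
      ((univ.filter (fun π : Equiv.Perm (Fin n) => m ≤ ((π.symm a : Fin n) : ℕ))).card : ℝ) =
        n.factorial * ((n - m) / n) := by
    intro a
    have := count_one hm a
    field_simp
    linarith
  have h2 : ∀ a b : Fin n, a ≠ b →
      ((univ.filter (fun π : Equiv.Perm (Fin n) => m ≤ ((π.symm a : Fin n) : ℕ) ∧ m ≤ ((π.symm b : Fin n) : ℕ))).card : ℝ) ≤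
        n.factorial * ((n - m) / n) * ((n - m) / n) := by
    intro a b hab
    have h3 := count_two hm hab
    rw [h1 a] at h3
    have h4 : (1 : ℝ) < n := by
      have h5 : 1 < n := by
        have ha := a.2
        have hb := b.2
        by_contra h6
        exact hab (Fin.ext (by omega))
      exact_mod_cast h5
    have h5 : ((n : ℝ) - m - 1) ≤ (n - 1) * ((n - m) / n) := by
      rw [← mul_div_assoc, le_div_iff₀ hn']
      nlinarith
    have h6 : ((n : ℝ) - 1) *
        ((univ.filter (fun π : Equiv.Perm (Fin n) => m ≤ ((π.symm a : Fin n) : ℕ) ∧ m ≤ ((π.symm b : Fin n) : ℕ))).card : ℝ) ≤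
        (n - 1) * (n.factorial * ((n - m) / n) * ((n - m) / n)) := by
      rw [h3]
      calc (n.factorial : ℝ) * ((n - m) / n) * (n - m - 1) ≤
          n.factorial * ((n - m) / n) * ((n - 1) * ((n - m) / n)) :=
            mul_le_mul_of_nonneg_left h5 (mul_nonneg (Nat.cast_nonneg _) ht)
        _ = _ := by ring
    exact le_of_mul_le_mul_left h6 (by linarith)
  have hs1 : ∑ π : Equiv.Perm (Fin n), ((A \ fs π m).card : ℝ) =
      A.card * (n.factorial * ((n - m) / n)) := by
    rw [sum_congr rfl fun π _ => hc π, sum_comm, sum_congr rfl fun a _ => by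
      rw [sum_boole, h1 a], sum_const, nsmul_eq_mul]
  have hs2 : ∑ π : Equiv.Perm (Fin n), ((A \ fs π m).card : ℝ) ^ 2 ≤
      A.card * (n.factorial * ((n - m) / n)) +
        A.card * (A.card * (n.factorial * ((n - m) / n) * ((n - m) / n))) := by
    have h3 : ∀ π : Equiv.Perm (Fin n), ((A \ fs π m).card : ℝ) ^ 2 =
        ∑ a ∈ A, ∑ b ∈ A, if m ≤ ((π.symm a : Fin n) : ℕ) ∧ m ≤ ((π.symm b : Fin n) : ℕ) then (1 : ℝ) else 0 := by
      intro π
      rw [hc π, sq, sum_mul_sum]
      refine sum_congr rfl fun a _ => sum_congr rfl fun b _ => ?_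
      by_cases ha : m ≤ ((π.symm a : Fin n) : ℕ) <;> by_cases hb : m ≤ ((π.symm b : Fin n) : ℕ) <;> simp [ha, hb]
    rw [sum_congr rfl fun π _ => h3 π, sum_comm]
    have hK : ∀ a ∈ A, ∑ π : Equiv.Perm (Fin n), ∑ b ∈ A,
        (if m ≤ ((π.symm a : Fin n) : ℕ) ∧ m ≤ ((π.symm b : Fin n) : ℕ) then (1 : ℝ) else 0) ≤
        (n.factorial : ℝ) * (((n : ℝ) - m) / n) +
          (A.card : ℝ) * ((n.factorial : ℝ) * (((n : ℝ) - m) / n) * (((n : ℝ) - m) / n)) := by
      intro a ha
      rw [sum_comm, ← add_sum_erase A _ ha]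
      have e1 : ∑ π : Equiv.Perm (Fin n), (if m ≤ ((π.symm a : Fin n) : ℕ) ∧ m ≤ ((π.symm a : Fin n) : ℕ) then (1 : ℝ) else 0) =
          (n.factorial : ℝ) * (((n : ℝ) - m) / n) := by
        rw [sum_boole, ← h1 a]
        congr 2
        ext π
        rw [mem_filter, mem_filter]
        tauto
      have e2 : ∑ b ∈ A.erase a, ∑ π : Equiv.Perm (Fin n),
            (if m ≤ ((π.symm a : Fin n) : ℕ) ∧ m ≤ ((π.symm b : Fin n) : ℕ) then (1 : ℝ) else 0)
            ≤ ∑ _b ∈ A.erase a, (n.factorial : ℝ) * (((n : ℝ) - m) / n) * (((n : ℝ) - m) / n) := by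
        refine sum_le_sum fun b hb => ?_
        rw [sum_boole]
        exact h2 a b (ne_of_mem_erase hb).symm
      have e3 : ∑ _b ∈ A.erase a, (n.factorial : ℝ) * (((n : ℝ) - m) / n) * (((n : ℝ) - m) / n) ≤
          (A.card : ℝ) * ((n.factorial : ℝ) * (((n : ℝ) - m) / n) * (((n : ℝ) - m) / n)) := by
        rw [sum_const, nsmul_eq_mul]
        refine mul_le_mul_of_nonneg_right ?_ (by positivity)
        exact_mod_cast card_le_card (erase_subset a A)
      rw [e1]
      linarith [e2.trans e3]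
    refine (sum_le_sum hK).trans (le_of_eq ?_)
    rw [sum_const, nsmul_eq_mul]
    ring
  have h7 : ∑ π : Equiv.Perm (Fin n), (((A \ fs π m).card : ℝ) - A.card * ((n - m) / n)) ^ 2 =
      (∑ π : Equiv.Perm (Fin n), ((A \ fs π m).card : ℝ) ^ 2) -
        2 * (A.card * ((n - m) / n)) * (∑ π : Equiv.Perm (Fin n), ((A \ fs π m).card : ℝ)) +
        n.factorial * (A.card * ((n - m) / n)) ^ 2 := by
    rw [mul_sum, ← sum_sub_distrib]
    have h8 : (n.factorial : ℝ) * (A.card * ((n - m) / n)) ^ 2 =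
        ∑ _π : Equiv.Perm (Fin n), (A.card * (((n : ℝ) - m) / n)) ^ 2 := by
      rw [sum_const, card_univ, Fintype.card_perm, Fintype.card_fin, nsmul_eq_mul]
    rw [h8, ← sum_add_distrib]
    exact sum_congr rfl fun π _ => by ring
  rw [h7, hs1]
  nlinarith [hs2]

/-- Chebyshev. -/
theorem cheb {m l r : ℕ} (hm : m < n) (hl : n ≤ r * l) (A : Finset (Fin n)) (hA : A.card ≤ l) :
    ((univ.filter (fun π : Equiv.Perm (Fin n) => 2 * l * (n - m) < n * (A \ fs π m).card)).card : ℝ)
      * ((n : ℝ) - m) ≤ r * n.factorial := by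
  have hn : 0 < n := by omega
  have hn' : (0 : ℝ) < n := by exact_mod_cast hn
  have hmn : (m : ℝ) < n := by exact_mod_cast hm
  have hl0 : 0 < l := by
    rcases Nat.eq_zero_or_pos l with h | h
    · rw [h, mul_zero] at hl
      omega
    · exact h
  have hl' : (0 : ℝ) < l := by exact_mod_cast hl0
  have hA' : (A.card : ℝ) ≤ l := by exact_mod_cast hA
  have ht : (0 : ℝ) < (n - m) / n := div_pos (by linarith) hn'
  set B := univ.filter (fun π : Equiv.Perm (Fin n) => 2 * l * (n - m) < n * (A \ fs π m).card)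
    with hB
  have h1 : (B.card : ℝ) * (l * ((n - m) / n)) ^ 2 ≤ A.card * (n.factorial * ((n - m) / n)) := by
    refine le_trans ?_ (var_le_pr hm.le hn A)
    calc (B.card : ℝ) * (l * ((n - m) / n)) ^ 2 = ∑ _π ∈ B, (l * (((n : ℝ) - m) / n)) ^ 2 := by
          rw [sum_const, nsmul_eq_mul]
      _ ≤ ∑ π ∈ B, (((A \ fs π m).card : ℝ) - A.card * ((n - m) / n)) ^ 2 := by
          refine sum_le_sum fun π hπ => ?_
          have h2 : 2 * l * (n - m) < n * (A \ fs π m).card := (mem_filter.1 hπ).2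
          have h3 : (2 : ℝ) * l * (n - m) < n * ((A \ fs π m).card : ℝ) := by
            have h4 : ((2 * l * (n - m) : ℕ) : ℝ) < ((n * (A \ fs π m).card : ℕ) : ℝ) := by
              exact_mod_cast h2
            rwa [Nat.cast_mul, Nat.cast_mul, Nat.cast_mul, Nat.cast_sub hm.le,
              Nat.cast_ofNat] at h4
          have h4 : (2 : ℝ) * (l * ((n - m) / n)) ≤ ((A \ fs π m).card : ℝ) := by
            have h5 : (2 : ℝ) * (l * ((n - m) / n)) = 2 * l * (n - m) / n := by ring
            rw [h5, div_le_iff₀ hn']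
            linarith
          have h5 : (A.card : ℝ) * ((n - m) / n) ≤ l * ((n - m) / n) :=
            mul_le_mul_of_nonneg_right hA' ht.le
          exact pow_le_pow_left₀ (by positivity) (by linarith) 2
      _ ≤ ∑ π : Equiv.Perm (Fin n), (((A \ fs π m).card : ℝ) - A.card * ((n - m) / n)) ^ 2 :=
          sum_le_sum_of_subset_of_nonneg (subset_univ _) fun _ _ _ => sq_nonneg _
  have h2 : (B.card : ℝ) * (l * ((n - m) / n)) ^ 2 ≤ l * (n.factorial * ((n - m) / n)) :=
    h1.trans (mul_le_mul_of_nonneg_right hA' (by positivity))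
  have h3 : (B.card : ℝ) * (l * ((n - m) / n)) ≤ n.factorial := by
    have h4 : (B.card : ℝ) * (l * ((n - m) / n)) * (l * ((n - m) / n)) ≤
        n.factorial * (l * ((n - m) / n)) := by
      calc _ = (B.card : ℝ) * (l * ((n - m) / n)) ^ 2 := by ring
        _ ≤ l * (n.factorial * ((n - m) / n)) := h2
        _ = _ := by ring
    exact le_of_mul_le_mul_right h4 (by positivity)
  have h4 : (B.card : ℝ) * (n - m) * l ≤ n.factorial * n := by
    have h5 : (B.card : ℝ) * (l * ((n - m) / n)) = (B.card * (n - m) * l) / n := by ring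
    rw [h5, div_le_iff₀ hn'] at h3
    exact h3
  have h5 : (n : ℝ) ≤ r * l := by exact_mod_cast hl
  have h6 : (B.card : ℝ) * (n - m) * l ≤ (r * n.factorial) * l := by
    calc _ ≤ (n.factorial : ℝ) * n := h4
      _ ≤ n.factorial * (r * l) := mul_le_mul_of_nonneg_left h5 (Nat.cast_nonneg _)
      _ = _ := by ring
  exact le_of_mul_le_mul_right h6 hl'

end LINS
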