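import Pool.Agent.Lib.MP_9dcf40_lc.LIN.HAQ
import Pool.Agent.Lib.MP_9dcf40_lc.LIN.ScalePr

/-!
# Theorem Q (MP_9dcf40_lc): the modules `S_A0` and `S_Lem3`
-/

set_option autoImplicit false

namespace SRBP

open Finset

namespace L3Q

variable {n r : ℕ} {β : Type} {F : Finset (Fin n → Bool)} {N : Finset (Fin n)}
  {sg : Fin r → (Fin n → Bool) → β} {J : Finset (Fin r)}

/-! ## `S_A0` -/

theorem pav_le (s : ℕ) (f : Equiv.Perm (Fin n) → Finset (Fin r) → ℝ) (c : ℝ) (hc : 0 ≤ c)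
    (h : ∀ π J, f π J ≤ c) : pav s f ≤ c := by
  unfold pav
  apply div_le_of_le_mul₀ (by positivity) hc
  calc ∑ π : Equiv.Perm (Fin n), ∑ J ∈ powersetCard s (univ : Finset (Fin r)), f π J
      ≤ ∑ π : Equiv.Perm (Fin n), ∑ J ∈ powersetCard s (univ : Finset (Fin r)), c :=
        sum_le_sum fun π _ => sum_le_sum fun J _ => h π J
    _ = _ := by
        rw [sum_const, sum_const, card_powersetCard, card_univ, card_univ, Fintype.card_fin,
          nsmul_eq_mul, nsmul_eq_mul]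
        ring

theorem pav_nonneg (s : ℕ) (f : Equiv.Perm (Fin n) → Finset (Fin r) → ℝ) (h : ∀ π J, 0 ≤ f π J) :
    0 ≤ pav s f := by
  unfold pav
  apply div_nonneg _ (by positivity)
  exact sum_nonneg fun π _ => sum_nonneg fun J _ => h π J

theorem le_pav_zero (f : Equiv.Perm (Fin n) → Finset (Fin r) → ℝ) (c : ℝ)
    (h : ∀ π, c ≤ f π ∅) : c ≤ pav 0 f := by
  unfold pav
  have hp : (0 : ℝ) < (Fintype.card (Equiv.Perm (Fin n)) : ℝ) := by exact_mod_cast Fintype.card_pos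
  rw [powersetCard_zero, Nat.choose_zero_right, Nat.cast_one, mul_one, le_div_iff₀ hp]
  calc c * (Fintype.card (Equiv.Perm (Fin n)) : ℝ) = ∑ π : Equiv.Perm (Fin n), c := by
        rw [sum_const, card_univ, nsmul_eq_mul, mul_comm]
    _ ≤ _ := by
        apply sum_le_sum
        intro π _
        rw [sum_singleton]
        exact h π

/-! ## Lemma 3 for fixed `N` -/

theorem lem3N (dm : β → Finset (Fin n))
    (hin : ∀ j, ∀ x ∈ F, ∀ y ∈ F, sg j x = sg j y → ∀ v ∈ dm (sg j x), x v = y v)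
    (hcp : ∀ j, ∀ x ∈ F, ∀ y ∈ F, (∀ v ∈ dm (sg j x), x v = y v) → (∀ v ∈ dm (sg j y), x v = y v) →
      sg j x = sg j y) (s : ℕ) (hs : s < r) (I : ℝ) (hI : 0 ≤ I) :
    ((r : ℝ) - s) * (∑ J ∈ powersetCard s (univ : Finset (Fin r)),
        ∑ x ∈ F, ∑ v ∈ N, wf (Cl F N sg J x) v x) -
      ((s : ℝ) + 1) * (∑ J ∈ powersetCard (s + 1) (univ : Finset (Fin r)),
        ∑ x ∈ F, ∑ v ∈ N, wf (Cl F N sg J x) v x) ≤
      10 * (I * (∑ J ∈ powersetCard s (univ : Finset (Fin r)),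
        ∑ x ∈ F, ∑ v ∈ N, wf (Cl F N sg J x) v x) +
        (∑ x ∈ F, ∑ j, ((dm (sg j x) ∩ N).card : ℝ)) * ((r.choose s : ℝ) * (((r : ℝ) - s) / r) ^ I)) +
      8 * (((r : ℝ) - s) * ∑ J ∈ powersetCard s (univ : Finset (Fin r)),
        ∑ x ∈ F, TCf (Cl F N sg J x)) := by
  set X : ℝ := (((r : ℝ) - s) / r) ^ I with hX
  set Us : Finset (Fin r) → ℝ := fun J => ∑ x ∈ F, ∑ v ∈ N, wf (Cl F N sg J x) v x with hUs
  set Ts : Finset (Fin r) → ℝ := fun J => ∑ x ∈ F, TCf (Cl F N sg J x) with hTs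
  have hJc : ∀ J ∈ powersetCard s (univ : Finset (Fin r)), ((Jᶜ.card : ℕ) : ℝ) = (r : ℝ) - s := by
    intro J hJ
    rw [card_compl, Fintype.card_fin, (mem_powersetCard.1 hJ).2, Nat.cast_sub hs.le]
  have h1 : ∀ J j, Us J - Us (insert j J) ≤
      10 * ∑ x ∈ F, ∑ v ∈ dm (sg j x) ∩ N, wf (Cl F N sg J x) v x + 8 * Ts J := by
    intro J j
    exact Sec3.step dm hin hcp j J (N := N)
  have h2 : ∑ J ∈ powersetCard s (univ : Finset (Fin r)), ∑ j ∈ Jᶜ, (Us J - Us (insert j J)) ≤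
      ∑ J ∈ powersetCard s (univ : Finset (Fin r)), ∑ j ∈ Jᶜ,
      (10 * ∑ x ∈ F, ∑ v ∈ dm (sg j x) ∩ N, wf (Cl F N sg J x) v x + 8 * Ts J) :=
    sum_le_sum fun J _ => sum_le_sum fun j _ => h1 J j
  have e1 : ∑ J ∈ powersetCard s (univ : Finset (Fin r)), ∑ j ∈ Jᶜ, (Us J - Us (insert j J)) =
      ((r : ℝ) - s) * ∑ J ∈ powersetCard s (univ : Finset (Fin r)), Us J -
        ((s : ℝ) + 1) * ∑ J ∈ powersetCard (s + 1) (univ : Finset (Fin r)), Us J := by
    rw [← Sec3.sum_insert, mul_sum, ← sum_sub_distrib]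
    apply sum_congr rfl
    intro J hJ
    rw [sum_sub_distrib, sum_const, nsmul_eq_mul, hJc J hJ]
  have e2 : ∑ J ∈ powersetCard s (univ : Finset (Fin r)), ∑ j ∈ Jᶜ,
      (10 * ∑ x ∈ F, ∑ v ∈ dm (sg j x) ∩ N, wf (Cl F N sg J x) v x + 8 * Ts J) =
      10 * ∑ x ∈ F, ∑ J ∈ powersetCard s (univ : Finset (Fin r)), ∑ j ∈ Jᶜ,
        ∑ v ∈ dm (sg j x) ∩ N, wf (Cl F N sg J x) v x +
      8 * (((r : ℝ) - s) * ∑ J ∈ powersetCard s (univ : Finset (Fin r)), Ts J) := by
    have e3 : ∑ x ∈ F, ∑ J ∈ powersetCard s (univ : Finset (Fin r)), ∑ j ∈ Jᶜ,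
        ∑ v ∈ dm (sg j x) ∩ N, wf (Cl F N sg J x) v x =
        ∑ J ∈ powersetCard s (univ : Finset (Fin r)), ∑ j ∈ Jᶜ, ∑ x ∈ F,
        ∑ v ∈ dm (sg j x) ∩ N, wf (Cl F N sg J x) v x := by
      rw [sum_comm]
      apply sum_congr rfl
      intro J _
      rw [sum_comm]
    have e4 : 8 * (((r : ℝ) - s) * ∑ J ∈ powersetCard s (univ : Finset (Fin r)), Ts J) =
        ∑ J ∈ powersetCard s (univ : Finset (Fin r)), ((r : ℝ) - s) * (8 * Ts J) := by
      rw [← mul_sum, ← mul_sum]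
      ring
    rw [e3, e4, mul_sum, ← sum_add_distrib]
    apply sum_congr rfl
    intro J hJ
    rw [sum_add_distrib, ← mul_sum, sum_const, nsmul_eq_mul, hJc J hJ]
  rw [e1, e2] at h2
  have h3 : ∑ x ∈ F, ∑ J ∈ powersetCard s (univ : Finset (Fin r)), ∑ j ∈ Jᶜ,
        ∑ v ∈ dm (sg j x) ∩ N, wf (Cl F N sg J x) v x ≤
      I * ∑ J ∈ powersetCard s (univ : Finset (Fin r)), Us J +
        (∑ x ∈ F, ∑ j, ((dm (sg j x) ∩ N).card : ℝ)) * ((r.choose s : ℝ) * X) := by
    calc ∑ x ∈ F, ∑ J ∈ powersetCard s (univ : Finset (Fin r)), ∑ j ∈ Jᶜ,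
        ∑ v ∈ dm (sg j x) ∩ N, wf (Cl F N sg J x) v x
        ≤ ∑ x ∈ F, (I * (∑ J ∈ powersetCard s (univ : Finset (Fin r)), ∑ v ∈ N, wf (Cl F N sg J x) v x) +
          (∑ j, ((dm (sg j x) ∩ N).card : ℝ)) * ((r.choose s : ℝ) * X)) := by
          apply sum_le_sum
          intro x hx
          apply Sec3.count_one N (fun j => dm (sg j x)) (fun J v => wf (Cl F N sg J x) v x)
            (fun J v => Sec3.wf_nonneg _ _ _) (fun J v => Sec3.wf_le_one _ _ _) _ s hs I hI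
          rintro J v ⟨j, hj, hv⟩
          apply Sec3.wf_zero
          intro y hy
          have hy' := Sec3.mem_Cl.1 hy
          exact hin j y hy'.1 x hx (hy'.2.2 j hj) v (by rw [hy'.2.2 j hj]; exact hv)
      _ = I * ∑ J ∈ powersetCard s (univ : Finset (Fin r)), Us J +
        (∑ x ∈ F, ∑ j, ((dm (sg j x) ∩ N).card : ℝ)) * ((r.choose s : ℝ) * X) := by
          rw [sum_add_distrib, ← mul_sum, ← sum_mul, sum_comm]
  linarith

/-! ## The average of `|D ∩ NN π m|` -/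

theorem sum_inter (m : ℕ) (hm : m < n) (D : Finset (Fin n)) :
    (n : ℝ) * ∑ π : Equiv.Perm (Fin n), ((D ∩ NN π m).card : ℝ) =
      D.card * (Fintype.card (Equiv.Perm (Fin n)) * ((n : ℝ) - m)) := by
  have h : ∀ π : Equiv.Perm (Fin n), ((D ∩ NN π m).card : ℝ) =
      ∑ a ∈ D, if m ≤ ((π.symm a : Fin n) : ℕ) then (1 : ℝ) else 0 := by
    intro π
    rw [sum_boole]
    congr 2
    ext a
    unfold NN
    rw [mem_inter, mem_filter, mem_compl, LINS.mem_fs, not_lt]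
  rw [sum_congr rfl fun π _ => h π, sum_comm, mul_sum]
  have h2 : ∀ a : Fin n, (n : ℝ) * ∑ π : Equiv.Perm (Fin n), (if m ≤ ((π.symm a : Fin n) : ℕ) then (1 : ℝ) else 0) =
      Fintype.card (Equiv.Perm (Fin n)) * ((n : ℝ) - m) := by
    intro a
    rw [sum_boole, LINS.count_one hm.le a, Fintype.card_perm, Fintype.card_fin]
  rw [sum_congr rfl fun a _ => h2 a, sum_const, nsmul_eq_mul]

end L3Q

theorem tA0 : S_A0 := by
  intro n r β F sg m hF hm
  have hnm : (0 : ℝ) < (n : ℝ) - m := by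
    have : (m : ℝ) < n := by exact_mod_cast hm
    linarith
  refine ⟨?_, fun s => ?_, fun s => ?_⟩
  · unfold Aa
    rw [le_div_iff₀ hnm]
    apply L3Q.le_pav_zero
    intro π
    have h := Sec3.start (F := F) (N := NN π m) (sg := sg) hF
    rw [HAQ.card_NN π m hm.le] at h
    refine le_trans (le_of_eq ?_) h
    field_simp
  · unfold Aa
    rw [div_le_one hnm]
    apply L3Q.pav_le _ _ _ hnm.le
    intro π J
    have h := Sec3.uJ_le (F := F) (N := NN π m) (sg := sg) (J := J) hF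
    rw [HAQ.card_NN π m hm.le] at h
    exact h
  · unfold Aa
    apply div_nonneg _ hnm.le
    apply L3Q.pav_nonneg
    intro π J
    exact Sec3.uJ_nonneg

theorem tLem3 : S_Lem3 := by
  intro n r ℓ β F sg dm m s K I hF hS hD hK hm hs hI
  have hin := hS.val
  have hcp := hS.cp
  have hf : (0 : ℝ) < F.card := by exact_mod_cast hF.card_pos
  have hnm : (0 : ℝ) < (n : ℝ) - m := by
    have : (m : ℝ) < n := by exact_mod_cast hm
    linarith
  have hn : (0 : ℝ) < n := by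
    have : 0 < n := by omega
    exact_mod_cast this
  have hrs : (0 : ℝ) < (r : ℝ) - s := by
    have : (s : ℝ) < r := by exact_mod_cast hs
    linarith
  have hr : (0 : ℝ) < r := by
    have : 0 < r := by omega
    exact_mod_cast this
  have hc : (0 : ℝ) < (r.choose s : ℝ) := by exact_mod_cast Nat.choose_pos hs.le
  have hc1 : (0 : ℝ) < (r.choose (s + 1) : ℝ) := by exact_mod_cast Nat.choose_pos (by omega)
  have hp : (0 : ℝ) < (Fintype.card (Equiv.Perm (Fin n)) : ℝ) := by exact_mod_cast Fintype.card_pos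
  have hcc : ((s : ℝ) + 1) * (r.choose (s + 1) : ℝ) = ((r : ℝ) - s) * (r.choose s : ℝ) := by
    have h := Nat.choose_succ_right_eq r s
    have h2 := congrArg (Nat.cast : ℕ → ℝ) h
    push_cast [Nat.cast_sub hs.le] at h2
    linarith
  set X : ℝ := (((r : ℝ) - s) / r) ^ I with hX
  have hX0 : 0 ≤ X := by positivity
  set P : ℝ := (Fintype.card (Equiv.Perm (Fin n)) : ℝ) with hP
  set w : ℝ := (n : ℝ) - m with hw
  set SU : ℕ → ℝ := fun t => ∑ π : Equiv.Perm (Fin n), ∑ J ∈ powersetCard t (univ : Finset (Fin r)),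
    ∑ x ∈ F, ∑ v ∈ NN π m, wf (Cl F (NN π m) sg J x) v x with hSU
  set ST : ℝ := ∑ π : Equiv.Perm (Fin n), ∑ J ∈ powersetCard s (univ : Finset (Fin r)),
    ∑ x ∈ F, TCf (Cl F (NN π m) sg J x) with hST
  set SK : ℝ := ∑ π : Equiv.Perm (Fin n), ∑ x ∈ F, ∑ j, ((dm (sg j x) ∩ NN π m).card : ℝ) with hSK
  -- the averages
  have ha : ∀ t : ℕ, (0 : ℝ) < (r.choose t : ℝ) → SU t = (r.choose t : ℝ) * w * F.card * P * Aa F sg m t := by
    intro t ht
    have e : Aa F sg m t = SU t / F.card / (P * (r.choose t : ℝ)) / w := by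
      unfold Aa pav uJ
      simp only [← sum_div]
      rfl
    rw [e]
    field_simp
  have hb : ST = (r.choose s : ℝ) * w * F.card * P * Ta F sg m s := by
    have e : Ta F sg m s = ST / F.card / (P * (r.choose s : ℝ)) / w := by
      unfold Ta pav tJ
      simp only [← sum_div]
      rfl
    rw [e]
    field_simp
  -- the sum of the readings
  have hk : SK ≤ K * F.card * P * w := by
    have e : SK = ∑ x ∈ F, ∑ j, ∑ π : Equiv.Perm (Fin n), ((dm (sg j x) ∩ NN π m).card : ℝ) := by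
      rw [hSK, sum_comm]
      apply sum_congr rfl
      intro x _
      rw [sum_comm]
    have h1 : (n : ℝ) * SK ≤ ∑ x ∈ F, ∑ _j : Fin r, (ℓ : ℝ) * (P * w) := by
      rw [e, mul_sum]
      apply sum_le_sum
      intro x hx
      rw [mul_sum]
      apply sum_le_sum
      intro j _
      rw [L3Q.sum_inter m hm]
      apply mul_le_mul_of_nonneg_right _ (by positivity)
      exact_mod_cast hD x hx j
    rw [sum_const, sum_const, card_univ, Fintype.card_fin, nsmul_eq_mul, nsmul_eq_mul] at h1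
    have h2 : (F.card : ℝ) * (r * (ℓ * (P * w))) ≤ n * (K * F.card * P * w) := by
      have : (F.card : ℝ) * (r * (ℓ * (P * w))) = (r * ℓ) * (F.card * (P * w)) := by ring
      rw [this]
      calc ((r : ℝ) * ℓ) * (F.card * (P * w)) ≤ (K * n) * (F.card * (P * w)) :=
            mul_le_mul_of_nonneg_right hK (by positivity)
        _ = _ := by ring
    exact le_of_mul_le_mul_left (h1.trans h2) hn
  -- sum of the inequalities
  have h1 := sum_le_sum (s := (univ : Finset (Equiv.Perm (Fin n)))) fun π _ =>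
    L3Q.lem3N (F := F) (N := NN π m) (sg := sg) dm hin hcp s hs I hI
  rw [sum_sub_distrib, ← mul_sum, ← mul_sum, sum_add_distrib, ← mul_sum, sum_add_distrib, ← mul_sum,
    ← sum_mul, ← mul_sum, ← mul_sum] at h1
  have h2 : ((r : ℝ) - s) * SU s - ((s : ℝ) + 1) * SU (s + 1) ≤
      10 * (I * SU s + SK * ((r.choose s : ℝ) * X)) + 8 * (((r : ℝ) - s) * ST) := h1
  have h3 : SK * ((r.choose s : ℝ) * X) ≤ K * F.card * P * w * ((r.choose s : ℝ) * X) :=
    mul_le_mul_of_nonneg_right hk (by positivity)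
  rw [ha s hc, ha (s + 1) hc1, hb] at h2
  set Q : ℝ := (r.choose s : ℝ) * w * F.card * P with hQ
  have hQ0 : 0 < Q := by positivity
  have h4 : ((r : ℝ) - s) * Q * (Aa F sg m s - Aa F sg m (s + 1)) ≤
      10 * Q * (I * Aa F sg m s + K * X) + ((r : ℝ) - s) * Q * (8 * Ta F sg m s) := by
    have e5 : ((s : ℝ) + 1) * ((r.choose (s + 1) : ℝ) * w * F.card * P * Aa F sg m (s + 1)) =
        ((r : ℝ) - s) * Q * Aa F sg m (s + 1) := by
      rw [hQ]
      linear_combination w * F.card * P * Aa F sg m (s + 1) * hcc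
    rw [e5] at h2
    have e6 : K * F.card * P * w * ((r.choose s : ℝ) * X) = Q * (K * X) := by rw [hQ]; ring
    rw [e6] at h3
    linarith
  have hD' : 0 < ((r : ℝ) - s) * Q := by positivity
  have h5 : Aa F sg m s - Aa F sg m (s + 1) ≤ 10 / ((r : ℝ) - s) * (I * Aa F sg m s + K * X) +
      8 * Ta F sg m s := by
    have e8 : 10 * Q * (I * Aa F sg m s + K * X) + ((r : ℝ) - s) * Q * (8 * Ta F sg m s) =
        ((r : ℝ) - s) * Q * (10 / ((r : ℝ) - s) * (I * Aa F sg m s + K * X) + 8 * Ta F sg m s) := by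
      field_simp
    rw [e8] at h4
    exact le_of_mul_le_mul_left h4 hD'
  linarith

end SRBP
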