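import Pool.Agent.Lib.MP_9dcf40_lc.LIN.Spec

/-!
# Theorem K: the constants (PAR)
-/

namespace SRBP

open Filter Topology

namespace ParM

/-- `h(p) ≤ p (1 + log (1/p))`. -/
theorem binEntropy_le {p : ℝ} (h0 : 0 < p) (h1 : p < 1) :
    Real.binEntropy p ≤ p * (1 + Real.log p⁻¹) := by
  have h2 : Real.log (1 - p)⁻¹ ≤ (1 - p)⁻¹ - 1 := Real.log_le_sub_one_of_pos
    (inv_pos.2 (sub_pos.2 h1))
  have h3 : (1 - p) * Real.log (1 - p)⁻¹ ≤ p := by
    have h4 : (1 - p) * Real.log (1 - p)⁻¹ ≤ (1 - p) * ((1 - p)⁻¹ - 1) :=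
      mul_le_mul_of_nonneg_left h2 (sub_pos.2 h1).le
    have h5 : (1 - p) * ((1 - p)⁻¹ - 1) = p := by
      rw [mul_sub, mul_inv_cancel₀ (sub_pos.2 h1).ne']
      ring
    rw [h5] at h4
    exact h4
  unfold Real.binEntropy
  linarith

theorem pow_log (n : ℕ) : Tendsto (fun q : ℕ => Real.log (q : ℝ) ^ n / (q : ℝ)) atTop (𝓝 0) := by
  have h1 := (Real.tendsto_pow_log_div_mul_add_atTop 1 0 n one_ne_zero).comp
    tendsto_natCast_atTop_atTop
  refine h1.congr fun q => ?_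
  change Real.log (q : ℝ) ^ n / (1 * (q : ℝ) + 0) = _
  rw [one_mul, add_zero]

end ParM

open ParM

theorem tPar : S_Par := by
  intro k C hk hC
  have hk0 : (0 : ℝ) < k := by exact_mod_cast hk
  have hlog : Tendsto (fun q : ℕ => Real.log (q : ℝ)) atTop atTop :=
    Real.tendsto_log_atTop.comp tendsto_natCast_atTop_atTop
  have h1 : ∀ᶠ q : ℕ in atTop, 3 * (k : ℝ) / q ≤ 1 / 1000 :=
    (tendsto_const_div_atTop_nhds_zero_nat (3 * (k : ℝ))).eventually_le_const (by norm_num)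
  have h2 : ∀ᶠ q : ℕ in atTop,
      Real.binEntropy (Real.exp (-(C * Real.log q ^ 11)) / 2) ≤ 1 / 10000 := by
    have e1 : Tendsto (fun q : ℕ => C * Real.log (q : ℝ) ^ 11) atTop atTop :=
      ((tendsto_pow_atTop (by norm_num)).comp hlog).const_mul_atTop hC
    have e2 : Tendsto (fun q : ℕ => Real.exp (-(C * Real.log (q : ℝ) ^ 11)) / 2) atTop
        (𝓝 (0 / 2)) := (Real.tendsto_exp_neg_atTop_nhds_zero.comp e1).div_const 2
    rw [zero_div] at e2
    have e3 := (Real.binEntropy_continuous.tendsto 0).comp e2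
    rw [Real.binEntropy_zero] at e3
    exact e3.eventually_le_const (by norm_num)
  have h3 : ∀ᶠ q : ℕ in atTop, (2 + C * Real.log (q : ℝ) ^ 11) *
      (6 * k / q * (1 + Real.log (q : ℝ))) ≤ 1 / 10000 := by
    have e1 := (((((pow_log 0).const_mul (12 * (k : ℝ))).add
      ((pow_log 1).const_mul (12 * (k : ℝ)))).add
      ((pow_log 11).const_mul (6 * k * C))).add ((pow_log 12).const_mul (6 * k * C)))
    have e2 : 12 * (k : ℝ) * 0 + 12 * k * 0 + 6 * k * C * 0 + 6 * k * C * 0 = 0 := by ring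
    rw [e2] at e1
    refine (e1.eventually_le_const (show (0 : ℝ) < 1 / 10000 by norm_num)).mono fun q hq => ?_
    refine le_trans (le_of_eq ?_) hq
    ring
  obtain ⟨q, hq1, hq2, hq3, hq⟩ := (h1.and (h2.and (h3.and (eventually_ge_atTop 2)))).exists
  refine ⟨q, hq, hq1, ?_⟩
  rintro v₀ rfl
  refine ⟨hq2, ?_⟩
  have hq0 : (0 : ℝ) < q := by
    have : 0 < q := by omega
    exact_mod_cast this
  have hq1' : (1 : ℝ) ≤ q := by
    have : 1 ≤ q := by omega
    exact_mod_cast this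
  have hL : 0 ≤ Real.log (q : ℝ) := Real.log_nonneg hq1'
  have hp0 : 0 < 6 * (k : ℝ) / q := div_pos (by linarith) hq0
  have hp1 : 6 * (k : ℝ) / q < 1 := by
    have : 6 * (k : ℝ) / q = 2 * (3 * k / q) := by ring
    rw [this]
    linarith
  have hv0 : 0 < Real.exp (-(C * Real.log (q : ℝ) ^ 11)) / 2 := by positivity
  have hv1 : Real.exp (-(C * Real.log (q : ℝ) ^ 11)) / 2 < 1 := by
    have e1 : Real.exp (-(C * Real.log (q : ℝ) ^ 11)) ≤ 1 := by
      rw [Real.exp_le_one_iff]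
      have : 0 ≤ C * Real.log (q : ℝ) ^ 11 := by positivity
      linarith
    linarith
  have e1 := binEntropy_le hv0 hv1
  have e2 := binEntropy_le hp0 hp1
  have e3 : Real.log (Real.exp (-(C * Real.log (q : ℝ) ^ 11)) / 2)⁻¹ ≤
      1 + C * Real.log (q : ℝ) ^ 11 := by
    rw [Real.log_inv, Real.log_div (Real.exp_pos _).ne' two_ne_zero, Real.log_exp]
    have := Real.log_two_lt_d9
    linarith
  have e4 : Real.log (6 * (k : ℝ) / q)⁻¹ ≤ Real.log (q : ℝ) := by
    refine Real.log_le_log (inv_pos.2 hp0) ?_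
    rw [inv_div, div_le_iff₀ (by linarith)]
    have : (1 : ℝ) ≤ k := by exact_mod_cast hk
    nlinarith
  have e5 : Real.binEntropy (Real.exp (-(C * Real.log (q : ℝ) ^ 11)) / 2) ≤
      Real.exp (-(C * Real.log (q : ℝ) ^ 11)) / 2 * (2 + C * Real.log (q : ℝ) ^ 11) :=
    e1.trans (mul_le_mul_of_nonneg_left (by linarith) hv0.le)
  have e6 : Real.binEntropy (6 * k / q) ≤ 6 * k / q * (1 + Real.log (q : ℝ)) :=
    e2.trans (mul_le_mul_of_nonneg_left (by linarith) hp0.le)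
  have e7 : 0 ≤ Real.binEntropy (6 * (k : ℝ) / q) := Real.binEntropy_nonneg hp0.le hp1.le
  have e8 : 0 ≤ Real.exp (-(C * Real.log (q : ℝ) ^ 11)) / 2 * (2 + C * Real.log (q : ℝ) ^ 11) := by
    positivity
  calc Real.binEntropy (Real.exp (-(C * Real.log (q : ℝ) ^ 11)) / 2) *
        Real.binEntropy (6 * k / q)
      ≤ (Real.exp (-(C * Real.log (q : ℝ) ^ 11)) / 2 * (2 + C * Real.log (q : ℝ) ^ 11)) *
        (6 * k / q * (1 + Real.log (q : ℝ))) := mul_le_mul e5 e6 e7 e8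
    _ = Real.exp (-(C * Real.log (q : ℝ) ^ 11)) / 2 * ((2 + C * Real.log (q : ℝ) ^ 11) *
        (6 * k / q * (1 + Real.log (q : ℝ)))) := by ring
    _ ≤ Real.exp (-(C * Real.log (q : ℝ) ^ 11)) / 2 * (1 / 10000) :=
        mul_le_mul_of_nonneg_left hq3 hv0.le
    _ = Real.exp (-(C * Real.log (q : ℝ) ^ 11)) / 2 / 10000 := by ring

end SRBP
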