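import Pool.Agent.Lib.MP_9dcf40_lc.LIN.SpecQ
import Pool.Agent.Lib.MP_9dcf40_lc.LIN.Par

/-!
# Theorem Q: the constants (PARQ)
-/

namespace SRBP

open Filter Topology

namespace ParQM

/-- choice of the exponent -/
theorem choose (b : ℕ) : ∃ B : ℕ, b + 13 ≤ B ∧ ∀ k : ℕ, 2 ≤ k →
    2040000 * (B : ℝ) ^ 12 * (k : ℝ) ^ (b + 13) ≤ (k : ℝ) ^ B := by
  have h1 : Tendsto (fun n : ℕ => (n : ℝ) ^ 12 / (2 : ℝ) ^ n) atTop (𝓝 0) :=
    tendsto_pow_const_div_const_pow_of_one_lt 12 (by norm_num)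
  have h2 : (0 : ℝ) < 1 / (2040000 * 2 ^ (b + 13)) := by positivity
  obtain ⟨B, hB1, hB2⟩ := ((h1.eventually_le_const h2).and (eventually_ge_atTop (b + 13))).exists
  refine ⟨B, hB2, fun k hk => ?_⟩
  have hk2 : (2 : ℝ) ≤ k := by exact_mod_cast hk
  have hB3 : 2040000 * (2 : ℝ) ^ (b + 13) * (B : ℝ) ^ 12 ≤ 2 ^ B := by
    rw [div_le_div_iff₀ (by positivity) (by positivity)] at hB1
    linarith
  obtain ⟨D, hD⟩ : ∃ D, b + 13 + D = B := ⟨B - (b + 13), by omega⟩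
  have h4 := pow_add (2 : ℝ) (b + 13) D
  have h6 := pow_add (k : ℝ) (b + 13) D
  rw [hD] at h4 h6
  have h3 : 2040000 * (B : ℝ) ^ 12 ≤ 2 ^ D := by
    rw [h4] at hB3
    have h0 : (0 : ℝ) < 2 ^ (b + 13) := by positivity
    have h7 : (2 : ℝ) ^ (b + 13) * (2040000 * (B : ℝ) ^ 12) ≤ 2 ^ (b + 13) * 2 ^ D := by
      linarith
    exact le_of_mul_le_mul_left h7 h0
  have h5 : (2 : ℝ) ^ D ≤ (k : ℝ) ^ D := pow_le_pow_left₀ (by norm_num) hk2 D
  rw [h6]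
  calc 2040000 * (B : ℝ) ^ 12 * (k : ℝ) ^ (b + 13)
      = (k : ℝ) ^ (b + 13) * (2040000 * (B : ℝ) ^ 12) := by ring
    _ ≤ (k : ℝ) ^ (b + 13) * (k : ℝ) ^ D :=
        mul_le_mul_of_nonneg_left (h3.trans h5) (by positivity)

end ParQM

open ParM ParQM

theorem tParQ : S_ParQ := by
  intro B₁
  obtain ⟨B, hB, hmain'⟩ := choose B₁
  refine ⟨B, by omega, by omega, ?_⟩
  intro k hk
  have hmain := hmain' k hk
  have hk2 : (2 : ℝ) ≤ k := by exact_mod_cast hk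
  have hk1 : (1 : ℝ) ≤ k := by linarith
  have hk0 : (0 : ℝ) < k := by linarith
  have hBr : (1 : ℝ) ≤ B := by exact_mod_cast (by omega : 1 ≤ B)
  have hB12 : (1 : ℝ) ≤ (B : ℝ) ^ 12 := one_le_pow₀ hBr
  have hkp : (k : ℝ) ≤ (k : ℝ) ^ (B₁ + 13) := by
    calc (k : ℝ) = (k : ℝ) ^ 1 := (pow_one _).symm
      _ ≤ (k : ℝ) ^ (B₁ + 13) := pow_le_pow_right₀ hk1 (by omega)
  have hcast : ((k ^ B : ℕ) : ℝ) = (k : ℝ) ^ B := by push_cast; rfl
  rw [hcast]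
  set q : ℝ := (k : ℝ) ^ B with hq
  have hq0 : 0 < q := by positivity
  have hkq : 2040000 * (k : ℝ) ≤ q := by
    calc 2040000 * (k : ℝ) ≤ 2040000 * (k : ℝ) ^ (B₁ + 13) := by linarith
      _ ≤ 2040000 * (B : ℝ) ^ 12 * (k : ℝ) ^ (B₁ + 13) := by
          have h0 : (0 : ℝ) ≤ 2040000 * (k : ℝ) ^ (B₁ + 13) := by positivity
          nlinarith
      _ ≤ q := hmain
  refine ⟨?_, ?_⟩
  · rw [div_le_div_iff₀ hq0 (by norm_num)]
    linarith
  intro v hv1 hv2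
  have hl2 : Real.log 2 < 0.6931471808 := Real.log_two_lt_d9
  have hv0 : 0 < v := lt_of_lt_of_le (by positivity) hv1
  have hv1' : v < 1 := lt_of_le_of_lt hv2 (by norm_num)
  -- the first entropy
  have hm : Real.binEntropy (1 / 10 ^ 6) ≤ 1 / 10000 := by
    have h := binEntropy_le (p := 1 / 10 ^ 6) (by norm_num) (by norm_num)
    have h1 : Real.log ((1 : ℝ) / 10 ^ 6)⁻¹ ≤ 14 := by
      have h2 : Real.log ((1 : ℝ) / 10 ^ 6)⁻¹ ≤ Real.log ((2 : ℝ) ^ 20) :=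
        Real.log_le_log (by norm_num) (by norm_num)
      rw [Real.log_pow] at h2
      push_cast at h2
      linarith
    have h3 : (1 : ℝ) / 10 ^ 6 * (1 + Real.log ((1 : ℝ) / 10 ^ 6)⁻¹) ≤ 1 / 10 ^ 6 * 15 :=
      mul_le_mul_of_nonneg_left (by linarith) (by norm_num)
    have h4 : (1 : ℝ) / 10 ^ 6 * 15 ≤ 1 / 10000 := by norm_num
    linarith
  have hmono : Real.binEntropy v ≤ Real.binEntropy (1 / 10 ^ 6) := by
    apply Real.binEntropy_strictMonoOn.monotoneOn _ _ hv2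
    · exact ⟨hv0.le, by linarith [show (1 : ℝ) / 10 ^ 6 ≤ 2⁻¹ by norm_num]⟩
    · exact ⟨by norm_num, by norm_num⟩
  refine ⟨hmono.trans hm, ?_⟩
  -- logarithms
  have hlogq : Real.log q = B * Real.log k := by rw [hq, Real.log_pow]
  have hlk0 : 0 ≤ Real.log (k : ℝ) := Real.log_nonneg hk1
  have hlk : Real.log (k : ℝ) ≤ k := (Real.log_le_sub_one_of_pos hk0).trans (by linarith)
  have hL0 : 0 ≤ Real.log q := by rw [hlogq]; positivity
  have hL : Real.log q ≤ B * k := by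
    rw [hlogq]
    exact mul_le_mul_of_nonneg_left hlk (by linarith)
  set T : ℝ := (k : ℝ) ^ B₁ * Real.log q ^ 11 with hT
  have hT1 : T ≤ (k : ℝ) ^ (B₁ + 11) * (B : ℝ) ^ 11 := by
    calc T ≤ (k : ℝ) ^ B₁ * (B * k) ^ 11 :=
          mul_le_mul_of_nonneg_left (pow_le_pow_left₀ hL0 hL 11) (by positivity)
      _ = (k : ℝ) ^ (B₁ + 11) * (B : ℝ) ^ 11 := by rw [mul_pow, pow_add]; ring
  have hlogv : Real.log v⁻¹ ≤ T + 15 := by
    have h1 : v⁻¹ ≤ Real.exp T * (2 * 10 ^ 6) := by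
      rw [inv_le_comm₀ hv0 (by positivity), mul_inv, ← Real.exp_neg, ← div_eq_mul_inv]
      exact hv1
    have h2 := Real.log_le_log (inv_pos.2 hv0) h1
    rw [Real.log_mul (Real.exp_pos _).ne' (by norm_num), Real.log_exp] at h2
    have h3 : Real.log ((2 : ℝ) * 10 ^ 6) ≤ Real.log ((2 : ℝ) ^ 21) :=
      Real.log_le_log (by norm_num) (by norm_num)
    rw [Real.log_pow] at h3
    push_cast at h3
    have h4 : 21 * Real.log 2 ≤ 15 := by linarith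
    exact h2.trans (add_le_add (le_refl T) (h3.trans h4))
  have hB11 : (1 : ℝ) ≤ (B : ℝ) ^ 11 := one_le_pow₀ hBr
  have hk11 : (1 : ℝ) ≤ (k : ℝ) ^ (B₁ + 11) := one_le_pow₀ hk1
  have hX : 1 + Real.log v⁻¹ ≤ 17 * ((k : ℝ) ^ (B₁ + 11) * (B : ℝ) ^ 11) := by
    have h1 : (1 : ℝ) ≤ (k : ℝ) ^ (B₁ + 11) * (B : ℝ) ^ 11 := by nlinarith
    linarith
  -- the second entropy
  have hp0 : 0 < 6 * (k : ℝ) / q := div_pos (by linarith) hq0
  have hp1 : 6 * (k : ℝ) / q < 1 := by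
    rw [div_lt_one hq0]
    linarith
  have e4 : Real.log (6 * (k : ℝ) / q)⁻¹ ≤ Real.log q := by
    refine Real.log_le_log (inv_pos.2 hp0) ?_
    rw [inv_div, div_le_iff₀ (by linarith)]
    nlinarith
  have hY : 1 + Real.log (6 * (k : ℝ) / q)⁻¹ ≤ 2 * (B * k) := by
    have h1 : (1 : ℝ) ≤ B * k := by nlinarith
    linarith
  have e1 := binEntropy_le hv0 hv1'
  have e2 := binEntropy_le hp0 hp1
  have e5 : Real.binEntropy v ≤ v * (17 * ((k : ℝ) ^ (B₁ + 11) * (B : ℝ) ^ 11)) :=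
    e1.trans (mul_le_mul_of_nonneg_left hX hv0.le)
  have e6 : Real.binEntropy (6 * k / q) ≤ 6 * k / q * (2 * (B * k)) :=
    e2.trans (mul_le_mul_of_nonneg_left hY hp0.le)
  have e7 : 0 ≤ Real.binEntropy (6 * (k : ℝ) / q) := Real.binEntropy_nonneg hp0.le hp1.le
  have e9 : (204 * (B : ℝ) ^ 12 * (k : ℝ) ^ (B₁ + 13)) / q ≤ 1 / 10000 := by
    rw [div_le_div_iff₀ hq0 (by norm_num)]
    linarith
  calc Real.binEntropy v * Real.binEntropy (6 * k / q)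
      ≤ v * (17 * ((k : ℝ) ^ (B₁ + 11) * (B : ℝ) ^ 11)) * (6 * k / q * (2 * (B * k))) :=
        mul_le_mul e5 e6 e7 (by positivity)
    _ = v * ((204 * (B : ℝ) ^ 12 * (k : ℝ) ^ (B₁ + 13)) / q) := by
        rw [pow_add (k : ℝ) B₁ 11, pow_add (k : ℝ) B₁ 13]
        ring
    _ ≤ v * (1 / 10000) := mul_le_mul_of_nonneg_left e9 hv0.le
    _ = v / 10000 := by ring

end SRBP
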