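import Pool.Agent.Lib.MP_9dcf40_lc.LIN.SpecQ

/-!
# Theorem Q: `PigQ` (the multiplicative pigeonhole principle)
-/

set_option autoImplicit false

namespace SRBP

open Finset

theorem tPig : S_Pig := by
  intro R M L η h hL hη hη1 hM hb hm
  by_contra hcon
  have hcon' : ∀ i < M, ∃ s ≤ R, Real.exp (-L) ≤ h s i ∧ η * h s i < h s i - h s (i + 1) := by
    intro i hi
    by_contra hc
    refine hcon ⟨i, hi, fun s hs h1 => ?_⟩
    by_contra h2
    exact hc ⟨s, hs, h1, not_le.1 h2⟩
  obtain ⟨E, hE⟩ : ∃ E, E = Real.exp (-(L + 1)) := ⟨_, rfl⟩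
  have hE0 : 0 < E := hE ▸ Real.exp_pos _
  have hElog : Real.log E = -(L + 1) := by rw [hE, Real.log_exp]
  have hE1 : E ≤ 1 := by
    rw [hE]
    exact Real.exp_le_one_iff.2 (by linarith)
  obtain ⟨g, hg⟩ : ∃ g : ℕ → ℕ → ℝ, g = fun s i => max (h s i) E := ⟨_, rfl⟩
  have hg0 : ∀ s i, 0 < g s i := fun s i => by
    rw [hg]
    exact lt_max_of_lt_right hE0
  have hgE : ∀ s i, E ≤ g s i := fun s i => by
    rw [hg]
    exact le_max_right _ _
  have hgh : ∀ s i, h s i ≤ g s i := fun s i => by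
    rw [hg]
    exact le_max_left _ _
  have hg1 : ∀ s ≤ R, ∀ i ≤ M, g s i ≤ 1 := fun s hs i hi => by
    rw [hg]
    exact max_le (hb s hs i hi).2 hE1
  have hgm : ∀ s ≤ R, ∀ i < M, g s (i + 1) ≤ g s i := fun s hs i hi => by
    rw [hg]
    exact max_le_max (hm s hs i hi) le_rfl
  obtain ⟨Ψ, hΨ⟩ : ∃ Ψ : ℕ → ℝ, Ψ = fun i => ∑ s ∈ range (R + 1), Real.log (g s i) := ⟨_, rfl⟩
  have hstep : ∀ i < M, Ψ (i + 1) ≤ Ψ i - η / 2 := by
    intro i hi
    obtain ⟨s₀, hs₀, h1, h2⟩ := hcon' i hi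
    have hmem : s₀ ∈ range (R + 1) := mem_range.2 (Nat.lt_succ_of_le hs₀)
    have hpos : 0 < h s₀ i := lt_of_lt_of_le (Real.exp_pos _) h1
    have hbig : g s₀ (i + 1) ≤ (1 - η / 2) * h s₀ i := by
      rw [hg]
      refine max_le ?_ ?_
      · nlinarith
      · have h3 : E = Real.exp (-1) * Real.exp (-L) := by
          rw [hE, ← Real.exp_add]
          congr 1
          ring
        have h4 : Real.exp (-1) ≤ 1 / 2 := by
          rw [Real.exp_neg, one_div]
          refine inv_anti₀ (by norm_num) ?_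
          have := Real.add_one_le_exp (1 : ℝ)
          linarith
        have h5 : E ≤ 1 / 2 * h s₀ i := by
          rw [h3]
          exact mul_le_mul h4 h1 (Real.exp_pos _).le (by norm_num)
        nlinarith
    have hlog : Real.log (g s₀ (i + 1)) ≤ Real.log (g s₀ i) - η / 2 := by
      have h6 : (0 : ℝ) < 1 - η / 2 := by linarith
      calc Real.log (g s₀ (i + 1)) ≤ Real.log ((1 - η / 2) * h s₀ i) :=
            Real.log_le_log (hg0 _ _) hbig
        _ = Real.log (1 - η / 2) + Real.log (h s₀ i) := Real.log_mul h6.ne' hpos.ne'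
        _ ≤ -(η / 2) + Real.log (g s₀ i) := by
            refine add_le_add ?_ (Real.log_le_log hpos (hgh _ _))
            have := Real.log_le_sub_one_of_pos h6
            linarith
        _ = Real.log (g s₀ i) - η / 2 := by ring
    rw [hΨ]
    show ∑ s ∈ range (R + 1), Real.log (g s (i + 1)) ≤ ∑ s ∈ range (R + 1), Real.log (g s i) - η / 2
    rw [← Finset.add_sum_erase _ _ hmem, ← Finset.add_sum_erase _ (fun s => Real.log (g s i)) hmem]
    have hrest : ∑ s ∈ (range (R + 1)).erase s₀, Real.log (g s (i + 1)) ≤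
        ∑ s ∈ (range (R + 1)).erase s₀, Real.log (g s i) := by
      refine Finset.sum_le_sum fun s hs => ?_
      have hs' : s ≤ R := Nat.lt_succ_iff.1 (mem_range.1 (Finset.mem_of_mem_erase hs))
      exact Real.log_le_log (hg0 _ _) (hgm s hs' i hi)
    linarith
  have hind : ∀ i ≤ M, Ψ i ≤ Ψ 0 - i * (η / 2) := by
    intro i
    induction i with
    | zero =>
      intro _
      simp
    | succ i ih =>
      intro hi
      have h1 := hstep i (by omega)
      have h2 := ih (by omega)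
      push_cast
      linarith
  have hΨ0 : Ψ 0 ≤ 0 := by
    rw [hΨ]
    refine Finset.sum_nonpos fun s hs => ?_
    have hs' : s ≤ R := Nat.lt_succ_iff.1 (mem_range.1 hs)
    exact Real.log_nonpos (hg0 _ _).le (hg1 s hs' 0 (Nat.zero_le _))
  have hΨM : -((R + 1) * (L + 1)) ≤ Ψ M := by
    rw [hΨ]
    have h1 : ∑ _s ∈ range (R + 1), (-(L + 1)) ≤ ∑ s ∈ range (R + 1), Real.log (g s M) := by
      refine Finset.sum_le_sum fun s _ => ?_
      rw [← hElog]
      exact Real.log_le_log hE0 (hgE _ _)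
    rw [Finset.sum_const, card_range, nsmul_eq_mul] at h1
    push_cast at h1
    linarith
  have h1 := hind M le_rfl
  have h2 : (M : ℝ) * (η / 2) ≤ (R + 1) * (L + 1) := by linarith
  rw [div_lt_iff₀ hη] at hM
  linarith

end SRBP
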