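import Pool.Agent.Lib.MP_9dcf40_lc.LIN.Rcr
import Pool.Agent.Lib.MP_9dcf40_lc.LIN.SpecQ

/-!
# Theorem Q (MP_9dcf40_lc): the recursion, multiplicative form
-/

namespace SRBP

open LINP

namespace RM

/-- one step of the second phase, abstract numbers -/
theorem step (K C S S' x a a' δ T : ℝ) (hK : 1 ≤ K) (hC : 0 < C) (hS : 0 ≤ S) (hx : 0 < x)
    (hS' : S + 1 / x ≤ S') (h3 : 3 ≤ C * S ^ 10) (hx1 : 11 * (C * S ^ 10) ≤ x)
    (hx2 : (11 * (C * S ^ 10)) ^ 2 ≤ 2 * x)
    (ha : 10 * K * Real.exp (-(C * S ^ 11)) ≤ a)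
    (hδ0 : 0 ≤ δ) (hδ : 80 * δ * x ≤ 1) (hT : T ≤ δ * a)
    (hrec : a - 10 / x * (C * S ^ 10 * a + K * Real.exp (-(C * S ^ 11))) - 8 * T ≤ a') :
    10 * K * Real.exp (-(C * S' ^ 11)) ≤ a' := by
  set b := 10 * K * Real.exp (-(C * S ^ 11)) with hb
  have hb0 : 0 < b := by positivity
  set z := 11 * (C * S ^ 10) / x with hz
  have hz0 : 0 ≤ z := by positivity
  have hinv : 0 < 1 / x := by positivity
  -- the new value of `b`
  have hpow : S ^ 11 + 11 * S ^ 10 * (1 / x) ≤ S' ^ 11 := by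
    have h1 : (S + 1 / x) ^ 11 ≤ S' ^ 11 := pow_le_pow_left₀ (by positivity) hS' 11
    have h2 : S ^ 11 + 11 * S ^ 10 * (1 / x) ≤ (S + 1 / x) ^ 11 := by
      have h3 : (S + 1 / x) ^ 11 = S ^ 11 + 11 * S ^ 10 * (1 / x) +
          (55 * S ^ 9 * (1 / x) ^ 2 + 165 * S ^ 8 * (1 / x) ^ 3 + 330 * S ^ 7 * (1 / x) ^ 4 +
          462 * S ^ 6 * (1 / x) ^ 5 + 462 * S ^ 5 * (1 / x) ^ 6 + 330 * S ^ 4 * (1 / x) ^ 7 +
          165 * S ^ 3 * (1 / x) ^ 8 + 55 * S ^ 2 * (1 / x) ^ 9 + 11 * S * (1 / x) ^ 10 +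
          (1 / x) ^ 11) := by ring
      rw [h3]
      have : 0 ≤ (55 * S ^ 9 * (1 / x) ^ 2 + 165 * S ^ 8 * (1 / x) ^ 3 + 330 * S ^ 7 * (1 / x) ^ 4 +
          462 * S ^ 6 * (1 / x) ^ 5 + 462 * S ^ 5 * (1 / x) ^ 6 + 330 * S ^ 4 * (1 / x) ^ 7 +
          165 * S ^ 3 * (1 / x) ^ 8 + 55 * S ^ 2 * (1 / x) ^ 9 + 11 * S * (1 / x) ^ 10 +
          (1 / x) ^ 11) := by positivity
      linarith
    exact h2.trans h1
  have hb' : 10 * K * Real.exp (-(C * S' ^ 11)) ≤ b * Real.exp (-z) := by
    rw [hb, mul_assoc (10 * K), ← Real.exp_add]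
    apply mul_le_mul_of_nonneg_left _ (by positivity)
    apply Real.exp_le_exp.2
    have h1 : C * (S ^ 11 + 11 * S ^ 10 * (1 / x)) ≤ C * S' ^ 11 :=
      mul_le_mul_of_nonneg_left hpow hC.le
    have h2 : C * (S ^ 11 + 11 * S ^ 10 * (1 / x)) = C * S ^ 11 + z := by
      rw [hz]; ring
    linarith
  have hexp := RcrM.exp_neg_le z hz0
  have h5 : b * Real.exp (-z) ≤ b * (1 - z + z ^ 2 / 2) := mul_le_mul_of_nonneg_left hexp hb0.le
  -- the recursion
  have hI : K * Real.exp (-(C * S ^ 11)) = b / 10 := by rw [hb]; ring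
  rw [hI] at hrec
  have h6 : a - 10 / x * (C * S ^ 10 * a + b / 10) - 8 * (δ * a) =
      a * (1 - 10 * (C * S ^ 10) / x - 8 * δ) - b / x := by
    field_simp
    ring
  have h6' : a * (1 - 10 * (C * S ^ 10) / x - 8 * δ) - b / x ≤ a' := by
    rw [← h6]
    linarith
  have hδx : 8 * δ ≤ 1 / 10 * (1 / x) := by
    have : 8 * δ * x ≤ 1 / 10 := by linarith
    calc 8 * δ = 8 * δ * x * (1 / x) := by field_simp
      _ ≤ 1 / 10 * (1 / x) := mul_le_mul_of_nonneg_right this hinv.le
  have e0 : C * S ^ 10 / x = C * S ^ 10 * (1 / x) := by ring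
  have h30 : 3 * (1 / x) ≤ C * S ^ 10 / x := by
    rw [e0]
    exact mul_le_mul_of_nonneg_right h3 hinv.le
  have h7 : 0 ≤ 1 - 10 * (C * S ^ 10) / x - 8 * δ := by
    have h71 : 11 * (C * S ^ 10) / x ≤ 1 := by rw [div_le_one hx]; exact hx1
    have h72 : 11 * (C * S ^ 10) / x = 10 * (C * S ^ 10) / x + C * S ^ 10 / x := by ring
    linarith
  have h8 : b * (1 - 10 * (C * S ^ 10) / x - 8 * δ) ≤ a * (1 - 10 * (C * S ^ 10) / x - 8 * δ) :=
    mul_le_mul_of_nonneg_right ha h7
  -- the gap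
  have h9 : z ^ 2 / 2 ≤ 1 / x := by
    have h91 : z ^ 2 / 2 = (11 * (C * S ^ 10)) ^ 2 / (2 * x ^ 2) := by rw [hz]; field_simp
    rw [h91, div_le_div_iff₀ (by positivity) hx]
    nlinarith
  have h11 : z - 10 * (C * S ^ 10) / x = C * S ^ 10 / x := by rw [hz]; ring
  have h12 : b / x = b * (1 / x) := by ring
  have h14 : 0 ≤ b * (z - 10 * (C * S ^ 10) / x - 8 * δ - 1 / x - z ^ 2 / 2) := by
    apply mul_nonneg hb0.le
    linarith
  have h15 : b * (z - 10 * (C * S ^ 10) / x - 8 * δ - 1 / x - z ^ 2 / 2) =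
      b * (1 - 10 * (C * S ^ 10) / x - 8 * δ) - b / x - b * (1 - z + z ^ 2 / 2) := by
    rw [h12]
    ring
  linarith

end RM

theorem tRcrM : S_RcrM := by
  intro K q r C M hK hq hqr hC hM hr δ hδ0 hδr a T ha0 hrec ha1 hT
  have hK0 : 0 < K := by linarith
  have hC0 : 0 < C := by rw [hC]; positivity
  have hq0 : (0 : ℝ) < q := by exact_mod_cast (by omega : 0 < q)
  have hq2 : (2 : ℝ) ≤ q := by exact_mod_cast hq
  set L : ℝ := Real.log q with hL
  have hL0 : 0 < L := Real.log_pos (by linarith)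
  have hL2 : (1 : ℝ) / 2 ≤ L := by
    have h1 : Real.log 2 ≤ L := Real.log_le_log (by norm_num) hq2
    have h2 := Real.log_two_gt_d9
    linarith
  have hM0 : 0 < M := by rw [hM]; positivity
  set S₁ : ℝ := 1 / (200 * K) with hS₁
  have hS₁0 : 0 < S₁ := by positivity
  have hS₁1 : S₁ ≤ 1 / 200 := by
    rw [hS₁]
    apply one_div_le_one_div_of_le (by norm_num)
    linarith
  have hrR : (q : ℝ) * (61 * M ^ 2 + 10 * M + 200 * K) ≤ r := by linarith
  have hr0 : (0 : ℝ) < r := by
    have : 0 ≤ (q : ℝ) * (61 * M ^ 2 + 10 * M + 200 * K) := by positivity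
    linarith
  have hr1 : 0 < r := by exact_mod_cast hr0
  -- `u = r / q`
  obtain ⟨u, hu⟩ := hqr
  have hu0 : 0 < u := by
    rcases Nat.eq_zero_or_pos u with h | h
    · rw [h, Nat.mul_zero] at hu; omega
    · exact h
  have hru : r / q = u := by rw [hu]; exact Nat.mul_div_cancel_left _ (by omega)
  rw [hru] at hT ⊢
  have huR : (r : ℝ) = q * u := by exact_mod_cast hu
  have huM : 61 * M ^ 2 + 10 * M + 200 * K ≤ u := by
    rw [huR] at hrR
    exact le_of_mul_le_mul_left hrR hq0
  have hur : u ≤ r := by rw [hu]; exact Nat.le_mul_of_pos_left u (by omega)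
  set E : ℝ := Real.exp (-(C * L ^ 11)) with hE
  have hE0 : 0 < E := Real.exp_pos _
  -- `C` is large
  have hCS : C * S₁ ^ 10 = 40 * K * (200 * K) := by
    have : C = 40 * K * (200 * K) * (200 * K) ^ 10 := by rw [hC]; ring
    rw [this, hS₁, mul_assoc, ← mul_pow, mul_one_div_cancel (by positivity), one_pow, mul_one]
  have hCS1 : C * S₁ ^ 11 = 40 * K := by
    rw [hC, hS₁, mul_assoc, ← mul_pow, mul_one_div_cancel (by positivity), one_pow, mul_one]
  have hS₁L : S₁ ≤ L := by linarith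
  have hE4 : E ≤ 1 / 4 := by
    have h1 : 40 * K ≤ C * L ^ 11 := by
      rw [← hCS1]
      exact mul_le_mul_of_nonneg_left (pow_le_pow_left₀ hS₁0.le hS₁L 11) hC0.le
    have h2 : E ≤ Real.exp (-3) := Real.exp_le_exp.2 (by linarith)
    have h3 : Real.exp (-(3 : ℝ)) ≤ 1 / 4 := by
      rw [Real.exp_neg, one_div]
      apply inv_anti₀ (by norm_num)
      have := Real.add_one_le_exp (3 : ℝ)
      linarith
    linarith
  -- `Sf` is monotone
  have hmono : ∀ s t : ℕ, s ≤ t → t < r → RcrM.Sf r s ≤ RcrM.Sf r t := by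
    intro s t hst ht
    have h1 : (s : ℝ) ≤ t := by exact_mod_cast hst
    have h2 : (t : ℝ) < r := by exact_mod_cast ht
    unfold RcrM.Sf
    apply Real.log_le_log
    · apply div_pos hr0; linarith
    · apply div_le_div_of_nonneg_left hr0.le (by linarith) (by linarith)
  have hSL : RcrM.Sf r (r - u) = L := by
    unfold RcrM.Sf
    have h1 : (r : ℝ) - ((r - u : ℕ) : ℝ) = u := by rw [Nat.cast_sub hur]; ring
    have h2 : (u : ℝ) ≠ 0 := by exact_mod_cast hu0.ne'
    rw [h1, huR, mul_div_assoc, div_self h2, mul_one]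
  -- phase 1
  have ph1 : ∀ s : ℕ, s ≤ r - u → RcrM.Sf r s ≤ 2 * S₁ →
      9 / 20 - 10 * K * RcrM.Sf r s - 8 * δ * s ≤ a s := by
    intro s
    induction s with
    | zero =>
      intro _ _
      rw [RcrM.Sf_zero r hr1]
      simpa using ha0
    | succ s ih =>
      intro hs hSf
      have hsr : s + 1 < r := by omega
      have hsr' : (s : ℝ) + 1 < r := by exact_mod_cast hsr
      have hSfs : RcrM.Sf r s ≤ 2 * S₁ := (hmono s (s + 1) (by omega) hsr).trans hSf
      have h1 := ih (by omega) hSfs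
      have hquar : 1 / 4 ≤ a s := by
        have h2 : 10 * K * RcrM.Sf r s ≤ 1 / 10 := by
          have h21 : 10 * K * RcrM.Sf r s ≤ 10 * K * (2 * S₁) :=
            mul_le_mul_of_nonneg_left hSfs (by positivity)
          have h22 : 10 * K * (2 * S₁) = 1 / 10 := by rw [hS₁]; field_simp; norm_num
          linarith
        have h3 : 8 * δ * (s : ℝ) ≤ 1 / 10 := by
          have h32 : 8 * δ * (s : ℝ) ≤ 8 * δ * r :=
            mul_le_mul_of_nonneg_left (by linarith) (by positivity)
          linarith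
        linarith
      have hTs : T s ≤ δ := by
        have h4 := hT s (by omega) (hE4.trans hquar)
        have h5 : δ * a s ≤ δ * 1 := mul_le_mul_of_nonneg_left (ha1 s) hδ0
        linarith
      have h2 := hrec s (by omega) 0 le_rfl
      have h3 := RcrM.Sf_step_ge r s hsr
      rw [Real.rpow_zero, zero_mul, zero_add, mul_one] at h2
      have h4 : 10 / ((r : ℝ) - s) * K = 10 * K * (1 / ((r : ℝ) - s)) := by ring
      rw [h4] at h2
      have h5 : 10 * K * (RcrM.Sf r s + 1 / ((r : ℝ) - s)) ≤ 10 * K * RcrM.Sf r (s + 1) :=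
        mul_le_mul_of_nonneg_left h3 (by positivity)
      push_cast
      linarith
  -- phase 2
  have ph2 : ∀ s : ℕ, s ≤ r - u → S₁ ≤ RcrM.Sf r s →
      10 * K * Real.exp (-(C * RcrM.Sf r s ^ 11)) ≤ a s := by
    intro s
    induction s with
    | zero =>
      intro _ h
      rw [RcrM.Sf_zero r hr1] at h
      linarith
    | succ s ih =>
      intro hs h
      have hsr : s + 1 < r := by omega
      have hsr' : (s : ℝ) + 1 < r := by exact_mod_cast hsr
      have hxu : (u : ℝ) ≤ (r : ℝ) - ((s + 1 : ℕ) : ℝ) := by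
        have : u + (s + 1) ≤ r := by omega
        have h1 : ((u + (s + 1) : ℕ) : ℝ) ≤ r := by exact_mod_cast this
        push_cast at h1 ⊢
        linarith
      by_cases hc : RcrM.Sf r (s + 1) ≤ 2 * S₁
      · have h1 := ph1 (s + 1) hs hc
        have h2 : 10 * K * RcrM.Sf r (s + 1) ≤ 1 / 10 := by
          have h21 : 10 * K * RcrM.Sf r (s + 1) ≤ 10 * K * (2 * S₁) :=
            mul_le_mul_of_nonneg_left hc (by positivity)
          have h22 : 10 * K * (2 * S₁) = 1 / 10 := by rw [hS₁]; field_simp; norm_num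
          linarith
        have h3 : 8 * δ * ((s + 1 : ℕ) : ℝ) ≤ 1 / 10 := by
          have h31 : ((s + 1 : ℕ) : ℝ) ≤ r := by push_cast; linarith
          have h32 : 8 * δ * ((s + 1 : ℕ) : ℝ) ≤ 8 * δ * r :=
            mul_le_mul_of_nonneg_left h31 (by positivity)
          linarith
        have h4 : 10 * K * Real.exp (-(C * RcrM.Sf r (s + 1) ^ 11)) ≤ 1 / 4 := by
          have h41 : 40 * K ≤ C * RcrM.Sf r (s + 1) ^ 11 := by
            have h42 : S₁ ^ 11 ≤ RcrM.Sf r (s + 1) ^ 11 := pow_le_pow_left₀ hS₁0.le h 11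
            rw [← hCS1]
            exact mul_le_mul_of_nonneg_left h42 hC0.le
          have h44 : Real.exp (-(C * RcrM.Sf r (s + 1) ^ 11)) ≤ Real.exp (-(40 * K)) :=
            Real.exp_le_exp.2 (by linarith)
          have h45 : Real.exp (-(40 * K)) * (40 * K) ≤ 1 := by
            have h46 : 40 * K ≤ Real.exp (40 * K) := by
              have := Real.add_one_le_exp (40 * K)
              linarith
            have h47 : Real.exp (-(40 * K)) * Real.exp (40 * K) = 1 := by
              rw [← Real.exp_add, neg_add_cancel, Real.exp_zero]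
            calc Real.exp (-(40 * K)) * (40 * K) ≤ Real.exp (-(40 * K)) * Real.exp (40 * K) :=
                  mul_le_mul_of_nonneg_left h46 (Real.exp_pos _).le
              _ = 1 := h47
          have h48 : 10 * K * Real.exp (-(C * RcrM.Sf r (s + 1) ^ 11)) ≤
              10 * K * Real.exp (-(40 * K)) := mul_le_mul_of_nonneg_left h44 (by positivity)
          linarith
        linarith
      · push Not at hc
        have hstep := RcrM.Sf_step_le r s hsr
        have hsmall : 1 / ((r : ℝ) - ((s + 1 : ℕ) : ℝ)) ≤ S₁ := by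
          rw [hS₁]
          apply one_div_le_one_div_of_le (by positivity)
          have : 0 ≤ 61 * M ^ 2 + 10 * M := by positivity
          linarith
        have hSs : S₁ ≤ RcrM.Sf r s := by linarith
        have h1 := ih (by omega) hSs
        have hSsL : RcrM.Sf r s ≤ L := by
          rw [← hSL]
          exact hmono s (r - u) (by omega) (by omega)
        have hS0 : 0 ≤ RcrM.Sf r s := hS₁0.le.trans hSs
        have hx0 : (0 : ℝ) < (r : ℝ) - s := by linarith
        have hxu' : (u : ℝ) ≤ (r : ℝ) - s := by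
          push_cast at hxu
          linarith
        have hCM : C * RcrM.Sf r s ^ 10 ≤ M := by
          rw [hM]
          exact mul_le_mul_of_nonneg_left (pow_le_pow_left₀ hS0 hSsL 10) hC0.le
        have hCn : 0 ≤ C * RcrM.Sf r s ^ 10 := by positivity
        have h3 : 3 ≤ C * RcrM.Sf r s ^ 10 := by
          have h31 : S₁ ^ 10 ≤ RcrM.Sf r s ^ 10 := pow_le_pow_left₀ hS₁0.le hSs 10
          have h33 : C * S₁ ^ 10 ≤ C * RcrM.Sf r s ^ 10 := mul_le_mul_of_nonneg_left h31 hC0.le
          have h34 : (3 : ℝ) ≤ 40 * K * (200 * K) := by nlinarith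
          linarith
        have hK2 : 0 ≤ 200 * K := by positivity
        have hM3 : 3 ≤ M := h3.trans hCM
        have hM2 : M ≤ M ^ 2 := by nlinarith
        have hEle : E ≤ 10 * K * Real.exp (-(C * RcrM.Sf r s ^ 11)) := by
          have h6 : E ≤ Real.exp (-(C * RcrM.Sf r s ^ 11)) := by
            rw [hE]
            apply Real.exp_le_exp.2
            have : C * RcrM.Sf r s ^ 11 ≤ C * L ^ 11 :=
              mul_le_mul_of_nonneg_left (pow_le_pow_left₀ hS0 hSsL 11) hC0.le
            linarith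
          have h8 : Real.exp (-(C * RcrM.Sf r s ^ 11)) ≤
              10 * K * Real.exp (-(C * RcrM.Sf r s ^ 11)) :=
            le_mul_of_one_le_left (Real.exp_pos _).le (by linarith)
          linarith
        apply RM.step K C (RcrM.Sf r s) (RcrM.Sf r (s + 1)) ((r : ℝ) - s) (a s) (a (s + 1)) δ (T s)
          hK hC0 hS0 hx0 (RcrM.Sf_step_ge r s hsr) h3
        · linarith
        · have h5 : (11 * (C * RcrM.Sf r s ^ 10)) ^ 2 ≤ (11 * M) ^ 2 :=
            pow_le_pow_left₀ (by positivity) (mul_le_mul_of_nonneg_left hCM (by norm_num)) 2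
          have h51 : (11 * M) ^ 2 = 121 * M ^ 2 := by ring
          rw [h51] at h5
          linarith
        · exact h1
        · exact hδ0
        · have h7 : 80 * δ * ((r : ℝ) - s) ≤ 80 * δ * r := by
            apply mul_le_mul_of_nonneg_left _ (by positivity)
            have : (0 : ℝ) ≤ s := Nat.cast_nonneg _
            linarith
          linarith
        · exact hT s (by omega) (hEle.trans h1)
        · have h10 := hrec s (by omega) (C * RcrM.Sf r s ^ 10) hCn
          have h11 : (((r : ℝ) - s) / r) ^ (C * RcrM.Sf r s ^ 10) =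
              Real.exp (-(C * RcrM.Sf r s ^ 11)) := by
            rw [RcrM.exp_neg_Sf r s (by omega), ← Real.exp_mul]
            congr 1
            ring
          rw [h11] at h10
          exact h10
  have hfin := ph2 (r - u) le_rfl (by rw [hSL]; exact hS₁L)
  rw [hSL] at hfin
  have h20 : E ≤ 10 * K * E := le_mul_of_one_le_left hE0.le (by linarith)
  exact h20.trans hfin

end SRBP
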