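import Pool.Agent.Lib.MP_9dcf40_lc.LIN.SpecQ
import Pool.Agent.Lib.MP_9dcf40_lc.LIN.ScaleC
import Pool.Agent.Lib.MP_9dcf40_lc.LIN.ScaleE

/-!
# Theorem Q: the choice of the set `N` and of `J` (S_Sel)
-/

namespace SRBP

open Finset

theorem sel_mf {α : Type} (F : Finset α) (p : α → Prop) (h : DecidablePred p) (x : α) :
    x ∈ @Finset.filter α p h F ↔ x ∈ F ∧ p x := @Finset.mem_filter α p h F x

theorem sel_tJ {n r : ℕ} {β : Type} {F : Finset (Fin n → Bool)} (hF : F.Nonempty)
    (sg : Fin r → (Fin n → Bool) → β) (J : Finset (Fin r)) (N : Finset (Fin n)) :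
    0 ≤ tJ F N sg J := by
  classical
  let f : (Fin n → Bool) → Fin r → Option β := fun x j => if j ∈ J then some (sg j x) else none
  have h4 := LINS.mean_tc F f N
  have h5 : tJ F N sg J = LINS.tc (fun M => ent F (fun x => (f x, LINS.rs M x))) Nᶜ := by
    refine Eq.trans ?_ h4
    unfold tJ
    refine congrArg (fun z : ℝ => z / (F.card : ℝ)) (sum_congr rfl fun x _ => congrArg TCf ?_)
    ext y
    unfold Cl
    refine Iff.trans (sel_mf _ _ _ _) (Iff.trans ?_ (sel_mf _ _ _ _).symm)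
    apply and_congr_right
    intro _
    apply and_congr_right
    intro _
    constructor
    · intro h
      funext j
      simp only [f]
      split_ifs with hj
      · rw [h j hj]
      · rfl
    · intro h j hj
      have := congrFun h j
      simp only [f, if_pos hj] at this
      exact Option.some.inj this
  rw [h5]
  exact (LINS.sub_ent hF f).tc_nonneg _

theorem sel_wf {n : ℕ} (C : Finset (Fin n → Bool)) (v : Fin n) (x : Fin n → Bool) :
    0 ≤ wf C v x ∧ wf C v x ≤ 1 := by
  unfold wf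
  constructor
  · positivity
  · apply div_le_one_of_le₀
    · exact_mod_cast card_filter_le _ _
    · positivity

theorem sel_uJ {n r : ℕ} {β : Type} {F : Finset (Fin n → Bool)} (hF : F.Nonempty)
    (sg : Fin r → (Fin n → Bool) → β) (J : Finset (Fin r)) (N : Finset (Fin n)) :
    0 ≤ uJ F N sg J ∧ uJ F N sg J ≤ N.card := by
  have h3 : (0 : ℝ) < F.card := by exact_mod_cast hF.card_pos
  unfold uJ
  constructor
  · apply div_nonneg _ h3.le
    exact sum_nonneg fun x _ => sum_nonneg fun v _ => (sel_wf _ _ _).1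
  · rw [div_le_iff₀ h3]
    calc ∑ x ∈ F, ∑ v ∈ N, wf (Cl F N sg J x) v x ≤ ∑ _x ∈ F, ∑ _v ∈ N, (1 : ℝ) :=
          sum_le_sum fun x _ => sum_le_sum fun v _ => (sel_wf _ _ _).2
      _ = N.card * F.card := by
          simp only [sum_const, nsmul_eq_mul, mul_one]
          ring

theorem tSel : S_Sel := by
  intro n r ℓ β F sg D m s δ hF hm hs hr hδ ha hT hn hD
  classical
  obtain ⟨P, hP⟩ : ∃ P : ℝ, P = (Fintype.card (Equiv.Perm (Fin n)) : ℝ) := ⟨_, rfl⟩
  obtain ⟨Q, hQ⟩ : ∃ Q : ℝ, Q = (r.choose s : ℝ) := ⟨_, rfl⟩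
  obtain ⟨a, hadef⟩ : ∃ a : ℝ, a = Aa F sg m s := ⟨_, rfl⟩
  rw [← hadef] at ha hT ⊢
  have hP0 : 0 < P := by
    rw [hP]
    exact_mod_cast Fintype.card_pos
  have hQ0 : 0 < Q := by
    rw [hQ]
    exact_mod_cast Nat.choose_pos hs
  have hPQ : 0 < P * Q := mul_pos hP0 hQ0
  obtain ⟨w, hw⟩ : ∃ w : ℝ, w = (n : ℝ) - m := ⟨_, rfl⟩
  have hw0 : 0 < w := by
    have : (m : ℝ) < n := by exact_mod_cast hm
    rw [hw]
    linarith
  have hF0 : (0 : ℝ) < F.card := by exact_mod_cast hF.card_pos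
  have hr0 : (0 : ℝ) < r := by exact_mod_cast hr
  have hcard : (((powersetCard s (univ : Finset (Fin r))).card : ℕ) : ℝ) = Q := by
    rw [card_powersetCard, card_univ, Fintype.card_fin, hQ]
  have hNc : ∀ π : Equiv.Perm (Fin n), (NN π m).card = n - m := by
    intro π
    unfold NN
    rw [card_compl, Fintype.card_fin, LINS.card_fs π m hm.le]
  have hNr : ∀ π : Equiv.Perm (Fin n), ((NN π m).card : ℝ) = w := by
    intro π
    rw [hNc, Nat.cast_sub hm.le, hw]
  let bad : Equiv.Perm (Fin n) → ℝ := fun π =>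
    ((F.filter (fun x => ∃ j, 2 * ℓ * (NN π m).card < n * (D j x ∩ NN π m).card)).card : ℝ)
  -- the three averages
  have eu : ∑ π : Equiv.Perm (Fin n), ∑ J ∈ powersetCard s (univ : Finset (Fin r)),
      uJ F (NN π m) sg J = a * w * (P * Q) := by
    rw [hadef]
    unfold Aa pav
    rw [← hP, ← hQ, ← hw]
    field_simp
  have et : ∑ π : Equiv.Perm (Fin n), ∑ J ∈ powersetCard s (univ : Finset (Fin r)),
      tJ F (NN π m) sg J ≤ δ * a * w * (P * Q) := by
    have h1 : ∑ π : Equiv.Perm (Fin n), ∑ J ∈ powersetCard s (univ : Finset (Fin r)),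
        tJ F (NN π m) sg J = Ta F sg m s * w * (P * Q) := by
      unfold Ta pav
      rw [← hP, ← hQ, ← hw]
      field_simp
    rw [h1]
    apply mul_le_mul_of_nonneg_right _ hPQ.le
    exact mul_le_mul_of_nonneg_right hT hw0.le
  have eb : ∑ π : Equiv.Perm (Fin n), bad π ≤ F.card * (r ^ 2 * P / w) := by
    have h1 := LINS.sum_bad r F (fun x j => D j x) ℓ m hm hn hD
    rw [← hw, ← hP] at h1
    have h2 : ∑ π : Equiv.Perm (Fin n), bad π ≤ ∑ π : Equiv.Perm (Fin n),
        ((F.filter (fun x => ∃ j, 2 * ((ℓ : ℝ) / n) * w <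
          ((D j x ∩ (LINS.fs π m)ᶜ).card : ℝ))).card : ℝ) := by
      apply sum_le_sum
      intro π _
      show ((F.filter (fun x => ∃ j, 2 * ℓ * (NN π m).card <
        n * (D j x ∩ NN π m).card)).card : ℝ) ≤ _
      rw [Nat.cast_le]
      apply card_le_card
      intro x hx
      rw [mem_filter] at hx ⊢
      refine ⟨hx.1, ?_⟩
      obtain ⟨j, hj⟩ := hx.2
      refine ⟨j, ?_⟩
      have hn' : (0 : ℝ) < n := by
        have : 0 < n := by omega
        exact_mod_cast this
      have hj' : (2 : ℝ) * ℓ * (NN π m).card < n * (D j x ∩ NN π m).card := by exact_mod_cast hj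
      rw [hNr] at hj'
      have e2 : 2 * ((ℓ : ℝ) / n) * w = (2 * ℓ * w) / n := by ring
      show 2 * ((ℓ : ℝ) / n) * w < ((D j x ∩ NN π m).card : ℝ)
      rw [e2, div_lt_iff₀ hn']
      linarith
    refine h2.trans (h1.trans (le_of_eq ?_))
    field_simp
  by_contra hcon
  push Not at hcon
  have hle : ∀ π : Equiv.Perm (Fin n), ∀ J ∈ powersetCard s (univ : Finset (Fin r)),
      uJ F (NN π m) sg J / w - tJ F (NN π m) sg J / (4 * δ * w) -
        a * w / (4 * r ^ 2) * (bad π / F.card) - a / 4 ≤ 0 := by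
    intro π J hJ
    by_contra hlt
    push Not at hlt
    have hJc : J.card = s := (mem_powersetCard.1 hJ).2
    have hu := sel_uJ hF sg J (NN π m)
    have ht := sel_tJ hF sg J (NN π m)
    rw [hNr] at hu
    have hb0 : 0 ≤ bad π := Nat.cast_nonneg _
    have p1 : 0 ≤ tJ F (NN π m) sg J / (4 * δ * w) := by positivity
    have p2 : 0 ≤ a * w / (4 * r ^ 2) * (bad π / F.card) := by positivity
    have p3 : uJ F (NN π m) sg J / w ≤ 1 := by
      rw [div_le_one hw0]
      exact hu.2
    have c1 : a / 4 * ((NN π m).card : ℝ) ≤ uJ F (NN π m) sg J := by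
      rw [hNr]
      have : a / 4 ≤ uJ F (NN π m) sg J / w := by linarith
      rw [le_div_iff₀ hw0] at this
      exact this
    have c2 : tJ F (NN π m) sg J ≤ 4 * δ * uJ F (NN π m) sg J := by
      have : tJ F (NN π m) sg J / (4 * δ * w) ≤ uJ F (NN π m) sg J / w := by linarith
      rw [div_le_div_iff₀ (by positivity) hw0] at this
      have h2 : tJ F (NN π m) sg J * w ≤ (4 * δ * uJ F (NN π m) sg J) * w := by linarith
      exact le_of_mul_le_mul_right h2 hw0
    have c3 := hcon (NN π m) J (hNc π) hJc c1 c2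
    have c4 : a * w * bad π ≤ 4 * r ^ 2 * F.card := by
      have h1 : a * w / (4 * r ^ 2) * (bad π / F.card) ≤ 1 := by linarith
      have h2 : a * w / (4 * r ^ 2) * (bad π / F.card) = a * w * bad π / (4 * r ^ 2 * F.card) := by
        field_simp
      rw [h2, div_le_one (by positivity)] at h1
      exact h1
    rw [hNr] at c3
    exact absurd c4 (not_le.2 c3)
  have hsum : ∑ π : Equiv.Perm (Fin n), ∑ J ∈ powersetCard s (univ : Finset (Fin r)),
      (uJ F (NN π m) sg J / w - tJ F (NN π m) sg J / (4 * δ * w) -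
        a * w / (4 * r ^ 2) * (bad π / F.card) - a / 4) ≤ 0 :=
    sum_nonpos fun π _ => sum_nonpos fun J hJ => hle π J hJ
  have hex : ∑ π : Equiv.Perm (Fin n), ∑ J ∈ powersetCard s (univ : Finset (Fin r)),
      (uJ F (NN π m) sg J / w - tJ F (NN π m) sg J / (4 * δ * w) -
        a * w / (4 * r ^ 2) * (bad π / F.card) - a / 4) =
      (a * w * (P * Q)) / w - (∑ π : Equiv.Perm (Fin n),
        ∑ J ∈ powersetCard s (univ : Finset (Fin r)), tJ F (NN π m) sg J) / (4 * δ * w) -
        a * w / (4 * r ^ 2) * (Q * (∑ π : Equiv.Perm (Fin n), bad π) / F.card) -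
          P * Q * (a / 4) := by
    rw [← eu]
    simp only [sum_sub_distrib, ← sum_div, ← mul_sum, sum_const, nsmul_eq_mul, hcard, card_univ,
      ← hP]
    ring
  rw [hex] at hsum
  have q1 : (∑ π : Equiv.Perm (Fin n), ∑ J ∈ powersetCard s (univ : Finset (Fin r)),
      tJ F (NN π m) sg J) / (4 * δ * w) ≤ a / 4 * (P * Q) := by
    rw [div_le_iff₀ (by positivity)]
    refine et.trans (le_of_eq ?_)
    ring
  have q2 : a * w / (4 * r ^ 2) * (Q * (∑ π : Equiv.Perm (Fin n), bad π) / F.card) ≤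
      a / 4 * (P * Q) := by
    calc a * w / (4 * r ^ 2) * (Q * (∑ π : Equiv.Perm (Fin n), bad π) / F.card)
        ≤ a * w / (4 * r ^ 2) * (Q * (F.card * (r ^ 2 * P / w)) / F.card) := by gcongr
      _ = a / 4 * (P * Q) := by field_simp
  have q3 : (a * w * (P * Q)) / w = a * (P * Q) := by field_simp
  have q4 : 0 < a * (P * Q) := mul_pos ha hPQ
  rw [q3] at hsum
  nlinarith

end SRBP
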