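import Pool.Agent.Lib.MP_9dcf40_lc.LIN.SpecQ

/-!
# Theorem Q (MP_9dcf40_lc): the theorem for quartic polynomials
-/

namespace SRBP

open Finset

namespace TKQ

theorem nums (A B k r : ℕ) (hA : A = B + 5) (hB : 1 ≤ B) (hk : 2 ≤ k) (hr : (r : ℝ) ≤ (k : ℝ) ^ B) :
    32 * (k : ℝ) ^ B ≤ (k : ℝ) ^ A ∧ 2 ≤ (k : ℝ) ^ B ∧
    2 * Real.sqrt (Real.exp (-(k : ℝ) ^ A)) + ((r : ℝ) + 3) * Real.exp (-(k : ℝ) ^ A) ≤
      Real.exp (-(k : ℝ) ^ B) := by
  have hkR : (2 : ℝ) ≤ k := by exact_mod_cast hk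
  set x : ℝ := (k : ℝ) ^ B with hx
  have hx2 : 2 ≤ x := by
    calc (2 : ℝ) ≤ k := hkR
      _ = (k : ℝ) ^ 1 := (pow_one _).symm
      _ ≤ (k : ℝ) ^ B := pow_le_pow_right₀ (by linarith) hB
  have h32 : 32 * x ≤ (k : ℝ) ^ A := by
    rw [hA, pow_add, ← hx]
    have : (2 : ℝ) ^ 5 ≤ (k : ℝ) ^ 5 := pow_le_pow_left₀ (by norm_num) hkR 5
    norm_num at this
    nlinarith
  refine ⟨h32, hx2, ?_⟩
  have e1 : Real.sqrt (Real.exp (-(k : ℝ) ^ A)) ≤ Real.exp (-(16 * x)) := by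
    rw [Real.sqrt_le_iff]
    refine ⟨(Real.exp_pos _).le, ?_⟩
    rw [← Real.exp_nat_mul]
    apply Real.exp_le_exp.2
    push_cast
    linarith
  have e2 : Real.exp (-(k : ℝ) ^ A) ≤ Real.exp (-(32 * x)) := Real.exp_le_exp.2 (by linarith)
  have e3 : (r : ℝ) + 3 ≤ Real.exp (x + 2) := by
    have := Real.add_one_le_exp (x + 2)
    linarith
  have e4 : (4 : ℝ) ≤ Real.exp 14 := by
    have := Real.add_one_le_exp (14 : ℝ)
    linarith
  have e5 : 4 * Real.sqrt (Real.exp (-(k : ℝ) ^ A)) ≤ Real.exp (-x) := by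
    calc 4 * Real.sqrt (Real.exp (-(k : ℝ) ^ A)) ≤ Real.exp 14 * Real.exp (-(16 * x)) :=
          mul_le_mul e4 e1 (Real.sqrt_nonneg _) (Real.exp_pos _).le
      _ = Real.exp (14 + -(16 * x)) := (Real.exp_add _ _).symm
      _ ≤ Real.exp (-x) := Real.exp_le_exp.2 (by linarith)
  have e6 : 2 * (((r : ℝ) + 3) * Real.exp (-(k : ℝ) ^ A)) ≤ Real.exp (-x) := by
    have h2 : (2 : ℝ) ≤ Real.exp 14 := by linarith
    calc 2 * (((r : ℝ) + 3) * Real.exp (-(k : ℝ) ^ A))
        ≤ Real.exp 14 * (Real.exp (x + 2) * Real.exp (-(32 * x))) := by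
          apply mul_le_mul h2 _ (by positivity) (Real.exp_pos _).le
          exact mul_le_mul e3 e2 (Real.exp_pos _).le (Real.exp_pos _).le
      _ = Real.exp (14 + ((x + 2) + -(32 * x))) := by rw [← Real.exp_add, ← Real.exp_add]
      _ ≤ Real.exp (-x) := Real.exp_le_exp.2 (by linarith)
  linarith

end TKQ

theorem tTopKQ (h1 : S_CoreQ) (h2 : S_Prog) (h3 : S_QuaQ) (h4 : S_BalQ) : S_TopKQ := by
  classical
  obtain ⟨B, hB, hCore⟩ := h1
  obtain ⟨N3, hQ⟩ := h3
  obtain ⟨A, hA⟩ : ∃ A : ℕ, A = B + 5 := ⟨_, rfl⟩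
  refine ⟨A, max N3 1, by omega, ?_⟩
  intro n hn
  have n1 : N3 ≤ n := le_trans (le_max_left _ _) hn
  have n0 : 1 ≤ n := le_trans (le_max_right _ _) hn
  have hnR : (0 : ℝ) < n := by exact_mod_cast (by omega : 0 < n)
  obtain ⟨cc, hcc, hNR⟩ := hQ n n1
  refine ⟨cc, ⟨(univ : Finset (Fin n → Bool)).filter (fun y => fq cc y), by
        intro y hy
        exact (mem_filter.1 hy).2, by
        refine le_trans hcc (le_of_eq ?_)
        congr⟩, ?_⟩
  intro k hk hkn P s hs hf A' hA' hAcard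
  obtain ⟨r, hr, hrB, hCr⟩ := hCore k hk
  obtain ⟨hn1, hn2, hn3⟩ := TKQ.nums A B k r hA hB hk hrB
  by_contra hV
  rw [not_le] at hV
  set ε : ℝ := Real.exp (-(k : ℝ) ^ A) with hε
  set c : ℝ := Real.exp (-(k : ℝ) ^ B) with hc
  have hε0 : 0 < ε := Real.exp_pos _
  have hc0 : 0 < c := Real.exp_pos _
  have hε1 : ε ≤ 1 := Real.exp_le_one_iff.2 (by linarith)
  have hApos : (0 : ℝ) < A'.card := lt_of_lt_of_le (by positivity) hAcard
  have hAne : A'.Nonempty := by
    rw [← card_pos]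
    exact_mod_cast hApos
  have hkl : k * n ≤ r * (k * n / r + 1) := (Nat.lt_mul_div_succ (k * n) hr).le
  obtain ⟨F, hFA, hFne, hFc, sg, dm, hCPS, hdm, E, hE, hacc⟩ :=
    h2 n r k s (k * n / r + 1) P A' hr hkl hAne hA'
  have hball := h4 ε hε0.le hε1 n s hs
  have hballpos : (0 : ℝ) < ball n s := by
    have : 0 < ball n s := by
      unfold ball
      refine card_pos.2 ⟨∅, ?_⟩
      simp
    exact_mod_cast this
  have hVpos : (0 : ℝ) < Fintype.card P.V := by
    have : 0 < Fintype.card P.V := Fintype.card_pos_iff.2 ⟨P.start⟩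
    exact_mod_cast this
  have hFpos : (0 : ℝ) < F.card := by exact_mod_cast hFne.card_pos
  have hdef : n * Real.log 2 - Real.log F.card ≤ c * n := by
    have g1 := Real.log_le_log (by positivity) hAcard
    rw [Real.log_mul (by positivity) (Real.exp_pos _).ne', Real.log_pow, Real.log_exp] at g1
    have g2 := Real.log_le_log hApos hFc
    rw [Real.log_mul (by positivity) hFpos.ne', Real.log_mul (by positivity) (by positivity),
      Real.log_mul hballpos.ne' (by positivity), Real.log_pow, Real.log_pow] at g2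
    have g3 : Real.log (Fintype.card P.V : ℝ) ≤ ε * n := by
      rw [Real.log_le_iff_le_exp hVpos]
      exact hV.le
    have g4 : ((r + 1 : ℕ) : ℝ) * Real.log (Fintype.card P.V : ℝ) ≤ ((r + 1 : ℕ) : ℝ) * (ε * n) :=
      mul_le_mul_of_nonneg_left g3 (Nat.cast_nonneg _)
    have g5 : (s : ℝ) * Real.log 2 ≤ s * 1 := by
      apply mul_le_mul_of_nonneg_left _ (Nat.cast_nonneg _)
      have := Real.log_two_lt_d9
      linarith
    have g6 : (2 * Real.sqrt ε + ((r : ℝ) + 3) * ε) * n ≤ c * n :=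
      mul_le_mul_of_nonneg_right hn3 hnR.le
    push_cast at g2 g4
    linarith
  have hnk : Real.exp ((k : ℝ) ^ B) ≤ n := by
    rw [← Real.exp_log hnR]
    apply Real.exp_le_exp.2
    linarith
  obtain ⟨x, hx, J, V, A1, hA1, B1, hB1, hAt, hBt, hAx, hBx, hyb⟩ :=
    hCr n hnk _ F sg dm hCPS hFne hdm hdef
  -- the threshold
  set t : ℕ := ⌈Real.exp ((n : ℝ) ^ (3 / 4 : ℝ))⌉₊ with ht
  have htb : (t : ℝ) ≤ Real.exp (c * n) := by
    have p1 : (n : ℝ) ^ (3 / 4 : ℝ) = Real.exp (Real.log n * (3 / 4)) := by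
      rw [Real.rpow_def_of_pos hnR]
    have p2 : Real.exp (Real.log n * (31 / 32)) ≤ c * n := by
      calc Real.exp (Real.log n * (31 / 32)) ≤ Real.exp (-(k : ℝ) ^ B + Real.log n) :=
            Real.exp_le_exp.2 (by linarith)
        _ = c * n := by rw [Real.exp_add, Real.exp_log hnR]
    have p3 : 2 * Real.exp (Real.log n * (3 / 4)) ≤ Real.exp (Real.log n * (31 / 32)) := by
      have q1 : (2 : ℝ) ≤ Real.exp (Real.log n * (7 / 32)) := by
        have := Real.add_one_le_exp (Real.log n * (7 / 32))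
        linarith
      calc 2 * Real.exp (Real.log n * (3 / 4))
          ≤ Real.exp (Real.log n * (7 / 32)) * Real.exp (Real.log n * (3 / 4)) :=
            mul_le_mul_of_nonneg_right q1 (Real.exp_pos _).le
        _ = Real.exp (Real.log n * (31 / 32)) := by
            rw [← Real.exp_add]
            congr 1
            ring
    have p4 : 1 ≤ Real.exp (Real.log n * (3 / 4)) := Real.one_le_exp (by linarith)
    have p5 : (n : ℝ) ^ (3 / 4 : ℝ) + 1 ≤ c * n := by
      rw [p1]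
      linarith
    have h : (t : ℝ) ≤ Real.exp ((n : ℝ) ^ (3 / 4 : ℝ)) + 1 :=
      (Nat.ceil_lt_add_one (Real.exp_pos _).le).le
    have hone : (1 : ℝ) ≤ Real.exp ((n : ℝ) ^ (3 / 4 : ℝ)) := Real.one_le_exp (by positivity)
    have h2e : (2 : ℝ) ≤ Real.exp 1 := by
      have := Real.add_one_le_exp (1 : ℝ)
      linarith
    calc (t : ℝ) ≤ 2 * Real.exp ((n : ℝ) ^ (3 / 4 : ℝ)) := by linarith
      _ ≤ Real.exp 1 * Real.exp ((n : ℝ) ^ (3 / 4 : ℝ)) :=
          mul_le_mul_of_nonneg_right h2e (Real.exp_pos _).le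
      _ = Real.exp (1 + (n : ℝ) ^ (3 / 4 : ℝ)) := (Real.exp_add _ _).symm
      _ ≤ Real.exp (c * n) := by
          refine Real.exp_le_exp.2 ?_
          linarith
  obtain ⟨a, ha, b, hb, hab⟩ := hNR t (Nat.le_ceil _) V A1 B1 (by exact_mod_cast htb.trans hAt)
    (by exact_mod_cast htb.trans hBt)
    (fun a ha a' ha' v hv => (hAx a ha v hv).trans (hAx a' ha' v hv).symm)
    (fun b hb b' hb' v hv => (hBx b hb v hv).trans (hBx b' hb' v hv).symm)
  apply hab
  apply hf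
  apply hacc
  · refine ⟨x, hx, fun v hv => ?_⟩
    unfold glue
    split_ifs
    · exact hE a (hA1 ha) x hx v hv
    · exact hE b (hB1 hb) x hx v hv
  · intro j
    by_cases hj : j ∈ J
    · exact ⟨b, hB1 hb, fun v hv => (hyb a ha b hb).1 j hj v hv⟩
    · exact ⟨a, hA1 ha, fun v hv => (hyb a ha b hb).2 j hj v hv⟩

end SRBP
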