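import Pool.Agent.Lib.MP_9dcf40_lc.LIN.All
import Pool.Agent.Lib.MP_9dcf40_lc.LIN.Avb
import Pool.Agent.Lib.MP_9dcf40_lc.LIN.BalQ
import Pool.Agent.Lib.MP_9dcf40_lc.LIN.CoreQ
import Pool.Agent.Lib.MP_9dcf40_lc.LIN.Cut2
import Pool.Agent.Lib.MP_9dcf40_lc.LIN.EndQ
import Pool.Agent.Lib.MP_9dcf40_lc.LIN.FindQ
import Pool.Agent.Lib.MP_9dcf40_lc.LIN.HAQ
import Pool.Agent.Lib.MP_9dcf40_lc.LIN.Lem3Q
import Pool.Agent.Lib.MP_9dcf40_lc.LIN.MonQ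
import Pool.Agent.Lib.MP_9dcf40_lc.LIN.ParQ
import Pool.Agent.Lib.MP_9dcf40_lc.LIN.PigQ
import Pool.Agent.Lib.MP_9dcf40_lc.LIN.QuaQ
import Pool.Agent.Lib.MP_9dcf40_lc.LIN.RcrM
import Pool.Agent.Lib.MP_9dcf40_lc.LIN.SelQ
import Pool.Agent.Lib.MP_9dcf40_lc.LIN.TopKQ
import Pool.Agent.Lib.MP_9dcf40_lc.LIN.TotQ

/-!
# Theorem Q (MP_9dcf40_lc): all modules together
-/

namespace SRBP

theorem aFindQ : S_Find := tFind tPig tMonQ tHA tLem3 tA0 tRcrM tSel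

theorem aCoreQ : S_CoreQ := tCoreQ aFindQ tCut2 aFin tParQ

theorem aTopKQ : S_TopKQ := tTopKQ aCoreQ tProg (tQuaQ tCfg tUni tDen) tBalQ

theorem aShQ : S_ShQ := tShQ aTopKQ aCir tRes

theorem aTotQ : S_TotQ := tTotQ aTopKQ aCir tRes tAvb

end SRBP
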