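import Pool.Agent.Lib.MP_9dcf40_lc.LIN.All
import Pool.Agent.Lib.MP_9dcf40_lc.LIN.Avb
import Pool.Agent.Lib.MP_9dcf40_lc.LIN.Tot

/-!
# Theorem K (MP_9dcf40_lc): the version with the total length
-/

namespace SRBP

theorem aTot : S_Tot := tTot aTopK aCir tRes tAvb

end SRBP
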