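import Pool.Agent.Lib.MP_9dcf40_lc.LIN.Star
import Pool.Agent.Lib.MP_9dcf40_lc.SR.Defs

/-!
# Theorem K (MP_9dcf40_lc): common definitions
-/

namespace SRBP

open Finset

/-- A consistent system: `sg j x` is the label of the segment `j` of `x`, `dm` of a label the set of
variables read in it (`val`: the label determines the values of `x` on this set; `cp`: if two inputs agree
on both sets they have the same label). -/
structure CPS {β : Type} (n r : ℕ) (F : Finset (Fin n → Bool)) (sg : Fin r → (Fin n → Bool) → β)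
    (dm : β → Finset (Fin n)) : Prop where
  val : ∀ j, ∀ x ∈ F, ∀ y ∈ F, sg j x = sg j y → ∀ v ∈ dm (sg j x), x v = y v
  cp : ∀ j, ∀ x ∈ F, ∀ y ∈ F, (∀ v ∈ dm (sg j x), x v = y v) → (∀ v ∈ dm (sg j y), x v = y v) →
    sg j x = sg j y

/-- The class of `x`: the `y ∈ F` with `y = x` outside `N` and the same segments in `J`. -/
noncomputable def Cl {n r : ℕ} {β : Type} (F : Finset (Fin n → Bool)) (N : Finset (Fin n))
    (sg : Fin r → (Fin n → Bool) → β) (J : Finset (Fin r)) (x : Fin n → Bool) :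
    Finset (Fin n → Bool) := by
  classical exact F.filter (fun y => (∀ v, v ∉ N → y v = x v) ∧ ∀ j ∈ J, sg j y = sg j x)

/-- The potential. -/
noncomputable def uJ {n r : ℕ} {β : Type} (F : Finset (Fin n → Bool)) (N : Finset (Fin n))
    (sg : Fin r → (Fin n → Bool) → β) (J : Finset (Fin r)) : ℝ :=
  (∑ x ∈ F, ∑ v ∈ N, wf (Cl F N sg J x) v x) / F.card

/-- The mean total correlation of the classes. -/
noncomputable def tJ {n r : ℕ} {β : Type} (F : Finset (Fin n → Bool)) (N : Finset (Fin n))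
    (sg : Fin r → (Fin n → Bool) → β) (J : Finset (Fin r)) : ℝ :=
  (∑ x ∈ F, TCf (Cl F N sg J x)) / F.card

/-- The variables read in the segments `J`. -/
def DJ {n r : ℕ} {β : Type} (sg : Fin r → (Fin n → Bool) → β) (dm : β → Finset (Fin n))
    (J : Finset (Fin r)) (x : Fin n → Bool) : Finset (Fin n) :=
  J.biUnion (fun j => dm (sg j x))

/-- Probability of the subset `V` of `S` if each `v ∈ S` is taken with probability `t v`. -/
def bk {n : ℕ} (S : Finset (Fin n)) (t : Fin n → ℝ) (V : Finset (Fin n)) : ℝ :=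
  (∏ v ∈ V, t v) * ∏ v ∈ S \ V, (1 - t v)

/-- Class mean of `∑_{v ∈ N} w_v`. -/
noncomputable def UU {n r : ℕ} {β : Type} (F : Finset (Fin n → Bool)) (N : Finset (Fin n))
    (sg : Fin r → (Fin n → Bool) → β) (J : Finset (Fin r)) (x : Fin n → Bool) : ℝ :=
  (∑ y ∈ Cl F N sg J x, ∑ v ∈ N, wf (Cl F N sg J x) v y) / (Cl F N sg J x).card

/-- The weight of `(x, V)`: uniform `x ∈ F`, each `v ∈ N \ G` erased with probability
`v₀ |N| / U(x) * w_v(x)`. -/
noncomputable def kw {n r : ℕ} {β : Type} (F : Finset (Fin n → Bool)) (N G : Finset (Fin n))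
    (sg : Fin r → (Fin n → Bool) → β) (J : Finset (Fin r)) (v₀ : ℝ)
    (ω : (Fin n → Bool) × Finset (Fin n)) : ℝ :=
  bk (N \ G) (fun v => v₀ * N.card / UU F N sg J ω.1 * wf (Cl F N sg J ω.1) v ω.1) ω.2 / F.card

/-- The pairs `(x, V)`. -/
def Om {n : ℕ} (F : Finset (Fin n → Bool)) (N G : Finset (Fin n)) :
    Finset ((Fin n → Bool) × Finset (Fin n)) := F ×ˢ (N \ G).powerset

/-- The rows. -/
noncomputable def rows {n r : ℕ} {β : Type} (F : Finset (Fin n → Bool)) (G : Finset (Fin n))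
    (sg : Fin r → (Fin n → Bool) → β) (dm : β → Finset (Fin n)) (J : Finset (Fin r))
    (ω : (Fin n → Bool) × Finset (Fin n)) : Finset (Fin n → Bool) := by
  classical exact F.filter (fun y => (∀ v, v ∉ ω.2 → y v = ω.1 v) ∧ (∀ j ∈ J, sg j y = sg j ω.1) ∧
    DJ sg dm Jᶜ y ∩ G = DJ sg dm Jᶜ ω.1 ∩ G)

/-- The columns. -/
noncomputable def cols {n r : ℕ} {β : Type} (F : Finset (Fin n → Bool)) (G : Finset (Fin n))
    (sg : Fin r → (Fin n → Bool) → β) (dm : β → Finset (Fin n)) (J : Finset (Fin r))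
    (ω : (Fin n → Bool) × Finset (Fin n)) : Finset (Fin n → Bool) := by
  classical exact F.filter (fun y => (∀ v, v ∉ G → y v = ω.1 v) ∧ (∀ j, j ∉ J → sg j y = sg j ω.1) ∧
    Disjoint ω.2 (DJ sg dm J y))

end SRBP
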