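import Mathlib

/-!
# Entropies of functions on a finite weighted space (natural logarithm)
-/

namespace SRBP

open Finset

section

variable {Ω : Type} [Fintype Ω]

/-- Weight of the class of `w` under `f`. -/
noncomputable def mass {β : Type} (μ : Ω → ℝ) (f : Ω → β) (w : Ω) : ℝ := by
  classical exact ∑ w', if f w' = f w then μ w' else 0

/-- Entropy of `f` (`μ` has total weight one). -/
noncomputable def HH {β : Type} (μ : Ω → ℝ) (f : Ω → β) : ℝ :=
  ∑ w, μ w * (-Real.log (mass μ f w))

/-- Conditional entropy of `f` given `g`. -/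
noncomputable def Hc {β γ : Type} (μ : Ω → ℝ) (f : Ω → β) (g : Ω → γ) : ℝ :=
  HH μ (fun w => (f w, g w)) - HH μ g

variable {β γ δ : Type} {μ : Ω → ℝ}

theorem mass_nonneg (hμ : ∀ w, 0 ≤ μ w) (f : Ω → β) (w : Ω) : 0 ≤ mass μ f w := by
  classical
  unfold mass
  exact sum_nonneg fun w' _ => by split_ifs <;> simp [hμ]

theorem le_mass (hμ : ∀ w, 0 ≤ μ w) (f : Ω → β) (w : Ω) : μ w ≤ mass μ f w := by
  classical
  unfold mass
  calc μ w = if f w = f w then μ w else 0 := by simp
    _ ≤ _ := single_le_sum (f := fun w' => if f w' = f w then μ w' else 0)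
        (fun w' _ => by split_ifs <;> simp [hμ]) (mem_univ w)

theorem mass_pos (hμ : ∀ w, 0 ≤ μ w) (f : Ω → β) {w : Ω} (hw : 0 < μ w) : 0 < mass μ f w :=
  hw.trans_le (le_mass hμ f w)

theorem mass_le_sum (hμ : ∀ w, 0 ≤ μ w) (f : Ω → β) (w : Ω) : mass μ f w ≤ ∑ w', μ w' := by
  classical
  unfold mass
  exact sum_le_sum fun w' _ => by split_ifs <;> simp [hμ]

theorem mass_mono (hμ : ∀ w, 0 ≤ μ w) {f : Ω → β} {g : Ω → γ} {w : Ω}
    (h : ∀ w', 0 < μ w' → f w' = f w → g w' = g w) : mass μ f w ≤ mass μ g w := by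
  classical
  unfold mass
  apply sum_le_sum
  intro w' _
  by_cases hw : 0 < μ w'
  · by_cases hf : f w' = f w
    · simp [hf, h w' hw hf]
    · simp only [hf, if_false]
      split_ifs <;> simp [hμ]
  · have : μ w' = 0 := le_antisymm (not_lt.mp hw) (hμ w')
    simp [this]

theorem mass_congr {f : Ω → β} {w w' : Ω} (h : f w = f w') : mass μ f w = mass μ f w' := by
  classical
  unfold mass
  rw [h]

/-- Sums over a weighted space of a function of `f w`, divided by the mass: each value of `f` counts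
once. -/
theorem sum_div_mass_le (hμ : ∀ w, 0 ≤ μ w) (f : Ω → β) (A : β → ℝ) (hA : ∀ b, 0 ≤ A b)
    [DecidableEq β] :
    ∑ w, μ w * (A (f w) / mass μ f w) ≤ ∑ b ∈ univ.image f, A b := by
  classical
  rw [← Finset.sum_fiberwise_of_maps_to (s := univ) (t := univ.image f) (g := f)
    (fun w _ => mem_image_of_mem f (mem_univ w))]
  apply sum_le_sum
  intro b _
  by_cases hb : ∃ w, f w = b
  · obtain ⟨w₀, rfl⟩ := hb
    have e : ∑ w ∈ univ.filter (fun w => f w = f w₀), μ w * (A (f w) / mass μ f w)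
        = ∑ w ∈ univ.filter (fun w => f w = f w₀), μ w * (A (f w₀) / mass μ f w₀) := by
      apply sum_congr rfl
      intro w hw
      have hw' : f w = f w₀ := (mem_filter.mp hw).2
      rw [mass_congr hw', hw']
    rw [e, ← sum_mul]
    have e2 : ∑ w ∈ univ.filter (fun w => f w = f w₀), μ w = mass μ f w₀ := by
      unfold mass
      rw [sum_filter]
      apply sum_congr rfl
      intro a _
      split_ifs <;> rfl
    rw [e2]
    by_cases h0 : mass μ f w₀ = 0
    · rw [h0]; simp [hA]
    · rw [mul_div_cancel₀ _ h0]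
  · have : univ.filter (fun w => f w = b) = ∅ := by
      apply filter_eq_empty_iff.mpr
      intro w _ h
      exact hb ⟨w, h⟩
    rw [this]
    simp [hA]

/-- GIBBS. -/
theorem gibbs (hμ : ∀ w, 0 ≤ μ w) (f : Ω → β) (g : Ω → γ) (q : β → γ → ℝ)
    (hq0 : ∀ b c, 0 ≤ q b c) (hq1 : ∀ c (S : Finset β), ∑ b ∈ S, q b c ≤ 1)
    (hq : ∀ w, 0 < μ w → 0 < q (f w) (g w)) :
    Hc μ f g ≤ ∑ w, μ w * (-Real.log (q (f w) (g w))) := by
  classical
  unfold Hc HH
  rw [← sum_sub_distrib, ← sub_nonpos, ← sum_sub_distrib]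
  have key : ∀ w, μ w * -Real.log (mass μ (fun w => (f w, g w)) w) - μ w * -Real.log (mass μ g w)
      - μ w * -Real.log (q (f w) (g w))
      ≤ μ w * ((q (f w) (g w) * mass μ g w) / mass μ (fun w => (f w, g w)) w) - μ w := by
    intro w
    by_cases hw : 0 < μ w
    · have h1 := mass_pos hμ (fun w => (f w, g w)) hw
      have h2 := mass_pos hμ g hw
      have h3 := hq w hw
      have h4 := Real.log_le_sub_one_of_pos (x := q (f w) (g w) * mass μ g w /
        mass μ (fun w => (f w, g w)) w) (by positivity)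
      rw [Real.log_div (by positivity) h1.ne', Real.log_mul h3.ne' h2.ne'] at h4
      nlinarith
    · have : μ w = 0 := le_antisymm (not_lt.mp hw) (hμ w)
      simp [this]
  refine (sum_le_sum fun w _ => key w).trans ?_
  rw [sum_sub_distrib]
  -- the function of the value
  have hmg : ∃ m : γ → ℝ, (∀ c, 0 ≤ m c) ∧ (∀ w, m (g w) = mass μ g w) ∧
      ∑ c ∈ univ.image g, m c = ∑ w, μ w := by
    refine ⟨fun c => ∑ w, if g w = c then μ w else 0, fun c => sum_nonneg fun w _ => by
      split_ifs <;> simp [hμ], fun w => by unfold mass; rfl, ?_⟩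
    rw [← Finset.sum_fiberwise_of_maps_to (s := univ) (t := univ.image g) (g := g)
      (fun w _ => mem_image_of_mem g (mem_univ w))]
    apply sum_congr rfl
    intro c _
    rw [sum_filter]
  obtain ⟨m, hm0, hm, hms⟩ := hmg
  have h1 := sum_div_mass_le hμ (fun w => (f w, g w)) (fun p => q p.1 p.2 * m p.2)
    (fun p => mul_nonneg (hq0 _ _) (hm0 _))
  simp only [hm] at h1
  have h2 : ∑ p ∈ univ.image (fun w => (f w, g w)), q p.1 p.2 * m p.2 ≤ ∑ w, μ w := by
    rw [← hms]
    calc ∑ p ∈ univ.image (fun w => (f w, g w)), q p.1 p.2 * m p.2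
        ≤ ∑ p ∈ (univ.image f) ×ˢ (univ.image g), q p.1 p.2 * m p.2 := by
          apply sum_le_sum_of_subset_of_nonneg
          · intro p hp
            obtain ⟨w, _, rfl⟩ := mem_image.mp hp
            exact mem_product.mpr ⟨mem_image_of_mem f (mem_univ w), mem_image_of_mem g (mem_univ w)⟩
          · intro p _ _
            exact mul_nonneg (hq0 _ _) (hm0 _)
      _ = ∑ c ∈ univ.image g, (∑ b ∈ univ.image f, q b c) * m c := by
          rw [sum_product_right]
          apply sum_congr rfl
          intro c _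
          rw [sum_mul]
      _ ≤ ∑ c ∈ univ.image g, 1 * m c :=
          sum_le_sum fun c _ => mul_le_mul_of_nonneg_right (hq1 c _) (hm0 c)
      _ = _ := by simp
  linarith

end

end SRBP
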