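import Mathlib

/-!
# Theorem K (MP_9dcf40_lc): selection by the inequality of Markov
-/

namespace SRBP

open Finset

/-- If the weight of the bad points is at most `1/4` and the means of `f₁`, `f₂` are at most `t₁/4`,
`t₂/4`, there is a point of positive weight which is not bad with `f₁ ≤ t₁` and `f₂ ≤ t₂`. -/
theorem mkv {Ω : Type} (s : Finset Ω) (k f₁ f₂ : Ω → ℝ) (bad : Ω → Prop) [DecidablePred bad]
    (t₁ t₂ : ℝ) (h0 : ∀ w ∈ s, 0 ≤ k w) (h1 : ∑ w ∈ s, k w = 1)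
    (hf₁ : ∀ w ∈ s, 0 < k w → 0 ≤ f₁ w) (hf₂ : ∀ w ∈ s, 0 < k w → 0 ≤ f₂ w) (ht₁ : 0 < t₁)
    (ht₂ : 0 < t₂) (hb : ∑ w ∈ s.filter bad, k w ≤ 1 / 4) (hs₁ : ∑ w ∈ s, k w * f₁ w ≤ t₁ / 4)
    (hs₂ : ∑ w ∈ s, k w * f₂ w ≤ t₂ / 4) :
    ∃ w ∈ s, 0 < k w ∧ ¬ bad w ∧ f₁ w ≤ t₁ ∧ f₂ w ≤ t₂ := by
  by_contra hcon
  push Not at hcon
  have key : ∀ w ∈ s, k w ≤ (if bad w then k w else 0) + k w * f₁ w / t₁ + k w * f₂ w / t₂ := by
    intro w hw
    rcases (h0 w hw).eq_or_lt with hk | hk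
    · rw [← hk]
      simp
    · have e1 : 0 ≤ k w * f₁ w / t₁ := div_nonneg (mul_nonneg hk.le (hf₁ w hw hk)) ht₁.le
      have e2 : 0 ≤ k w * f₂ w / t₂ := div_nonneg (mul_nonneg hk.le (hf₂ w hw hk)) ht₂.le
      by_cases hbad : bad w
      · rw [if_pos hbad]
        linarith
      · rw [if_neg hbad]
        by_cases hw1 : f₁ w ≤ t₁
        · have hw2 := hcon w hw hk hbad hw1
          have : k w ≤ k w * f₂ w / t₂ := by
            rw [le_div_iff₀ ht₂]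
            exact mul_le_mul_of_nonneg_left hw2.le hk.le
          linarith
        · push Not at hw1
          have : k w ≤ k w * f₁ w / t₁ := by
            rw [le_div_iff₀ ht₁]
            exact mul_le_mul_of_nonneg_left hw1.le hk.le
          linarith
  have hsum := sum_le_sum key
  rw [h1, sum_add_distrib, sum_add_distrib, ← sum_div, ← sum_div, ← sum_filter] at hsum
  have e1 : (∑ w ∈ s, k w * f₁ w) / t₁ ≤ 1 / 4 := by
    rw [div_le_iff₀ ht₁]
    linarith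
  have e2 : (∑ w ∈ s, k w * f₂ w) / t₂ ≤ 1 / 4 := by
    rw [div_le_iff₀ ht₂]
    linarith
  linarith

end SRBP
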