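import Pool.Agent.Lib.MP_9dcf40_lc.LIN.Cols
import Pool.Agent.Lib.MP_9dcf40_lc.LIN.Mkv

/-!
# Theorem K (MP_9dcf40_lc): section 4 assembled
-/

namespace SRBP

open Finset

/-- Double counting. -/
private theorem dcount {n : ℕ} (F : Finset (Fin n → Bool)) (D : (Fin n → Bool) → Finset (Fin n))
    (G : Finset (Fin n)) : ∑ v ∈ G, (∑ x ∈ F, if v ∈ D x then (1 : ℝ) else 0) =
      ∑ x ∈ F, ((D x ∩ G).card : ℝ) := by
  classical
  rw [sum_comm]
  refine sum_congr rfl fun x _ => ?_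
  rw [← sum_filter, sum_const, nsmul_eq_mul, mul_one]
  congr 2
  ext v
  rw [mem_filter, mem_inter, and_comm]

theorem tFinB (hG : S_Gch) (hK : S_Kw) (hR : S_Rows) (hC : S_Cols) (hT : S_Tail) (hZ : S_Siz)
    (hH : S_Hyb) : S_Fin := by
  classical
  intro n r β F sg dm N J v₀ ζ δ D g hCP hF hN hv0 hv1 hz0 hz1 hg0 hg1 hD htJ hU hDJ hs1 hs2 hs3
  have hNc : (0 : ℝ) < N.card := by exact_mod_cast card_pos.2 hN
  have hFc : (0 : ℝ) < F.card := by exact_mod_cast card_pos.2 hF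
  have hgc : (0 : ℝ) < g := by exact_mod_cast hg0
  have hUp : ∀ x ∈ F, 0 < UU F N sg J x := fun x hx => lt_of_lt_of_le (by positivity) (hU x hx)
  have hwf : ∀ (C : Finset (Fin n → Bool)) (v : Fin n) (x : Fin n → Bool), 0 ≤ wf C v x := by
    intro C v x
    unfold wf
    positivity
  -- the choice of `G`
  obtain ⟨G, hGN, hGc, hGa, hGb⟩ := hG n N
    (fun v => ∑ x ∈ F, if v ∈ DJ sg dm Jᶜ x then (1 : ℝ) else 0)
    (fun v => ∑ x ∈ F, v₀ * N.card / UU F N sg J x * wf (Cl F N sg J x) v x) g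
    (fun v => sum_nonneg fun x _ => by split_ifs <;> norm_num)
    (fun v => sum_nonneg fun x hx => by
      have := hUp x hx
      have := hwf (Cl F N sg J x) v x
      positivity) hg1
  rw [dcount, dcount] at hGa
  have hb1 : ∀ H : Finset (Fin n), ∑ v ∈ H, (∑ x ∈ F, v₀ * N.card / UU F N sg J x *
      wf (Cl F N sg J x) v x) = ∑ x ∈ F, v₀ * N.card / UU F N sg J x *
        ∑ v ∈ H, wf (Cl F N sg J x) v x := by
    intro H
    rw [sum_comm]
    exact sum_congr rfl fun x _ => (mul_sum _ _ _).symm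
  rw [hb1, hb1, Cols.sum_aw F N sg J _ (fun x hx => (hUp x hx).ne')] at hGb
  have hGc' : (G.card : ℝ) = g := by exact_mod_cast hGc
  have hDG : ∑ x ∈ F, ((DJ sg dm Jᶜ x ∩ G).card : ℝ) ≤ (2 * ζ) * G.card * F.card := by
    have h1 : (N.card : ℝ) * ∑ x ∈ F, ((DJ sg dm Jᶜ x ∩ G).card : ℝ) ≤
        2 * g * (ζ * N.card * F.card) :=
      hGa.trans (mul_le_mul_of_nonneg_left hDJ (by positivity))
    rw [hGc']
    have h2 : (N.card : ℝ) * ∑ x ∈ F, ((DJ sg dm Jᶜ x ∩ G).card : ℝ) ≤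
        N.card * ((2 * ζ) * g * F.card) := by linarith
    exact le_of_mul_le_mul_left h2 hNc
  -- the three estimates
  obtain ⟨hk0, hk1, -⟩ := hK n r β F sg N G J v₀ hF hN hGN hv0 hU
  have hr := hR n r β F sg dm N G J v₀ (2 * ζ) hF hN hGN hv0 hU (by linarith) hz1 hDG
  have hc := hC n r β F sg dm N G J v₀ (2 * ζ) hCP hF hN hGN hv0 hv1 hU hDG
  have ht := hT n r β F sg N G J v₀ hF hN hGN hv0 hU
  have hkap : (∑ x ∈ F, v₀ * N.card / UU F N sg J x * ∑ v ∈ G, wf (Cl F N sg J x) v x) / F.card ≤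
      2 * g * v₀ := by
    rw [div_le_iff₀ hFc]
    have : (N.card : ℝ) * ∑ x ∈ F, v₀ * N.card / UU F N sg J x * ∑ v ∈ G, wf (Cl F N sg J x) v x ≤
        N.card * (2 * g * v₀ * F.card) := by
      refine hGb.trans (le_of_eq ?_)
      ring
    exact le_of_mul_le_mul_left this hNc
  have hvN : 0 < v₀ * N.card := by positivity
  have hbad : ∑ ω ∈ (Om F N G).filter (fun ω => (ω.2.card : ℝ) ≤ v₀ * N.card / 8),
      kw F N G sg J v₀ ω ≤ 1 / 4 := by
    refine ht.trans (le_trans ?_ hs1)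
    have e1 : 2 * ((∑ x ∈ F, v₀ * N.card / UU F N sg J x * ∑ v ∈ G, wf (Cl F N sg J x) v x) /
        F.card) / (v₀ * N.card) ≤ 4 * g / N.card := by
      rw [div_le_div_iff₀ hvN hNc]
      nlinarith [mul_le_mul_of_nonneg_right hkap hNc.le]
    have e2 : 8 * (tJ F N sg J + Real.log 2) / (v₀ * N.card) ≤
        8 * (δ * N.card + Real.log 2) / (v₀ * N.card) := by
      apply div_le_div_of_nonneg_right _ hvN.le
      linarith
    linarith
  have hlog2 : 0 < Real.log 2 := Real.log_pos (by norm_num)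
  have hrpos : ∀ ω ∈ Om F N G, 0 < ((rows F G sg dm J ω).card : ℝ) := by
    intro ω hω
    have := (hZ n r β F sg dm N G J v₀ hCP ω hω).1
    exact_mod_cast card_pos.2 ⟨_, this⟩
  have hcpos : ∀ ω ∈ Om F N G, 0 < kw F N G sg J v₀ ω → 0 < ((cols F G sg dm J ω).card : ℝ) := by
    intro ω hω hk
    have := (hZ n r β F sg dm N G J v₀ hCP ω hω).2.2.2 hk
    exact_mod_cast card_pos.2 ⟨_, this⟩
  obtain ⟨ω, hω, hkω, hnb, hf1, hf2⟩ := mkv (Om F N G) (kw F N G sg J v₀)
    (fun ω => ω.2.card * Real.log 2 - Real.log (rows F G sg dm J ω).card)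
    (fun ω => G.card * Real.log 2 - Real.log (cols F G sg dm J ω).card)
    (fun ω => (ω.2.card : ℝ) ≤ v₀ * N.card / 8) (v₀ * N.card / 25) (g * Real.log 2 / 2)
    hk0 hk1
    (by
      intro ω hω _
      have h1 := (hZ n r β F sg dm N G J v₀ hCP ω hω).2.1
      have h2 : ((rows F G sg dm J ω).card : ℝ) ≤ 2 ^ ω.2.card := by exact_mod_cast h1
      have h3 := Real.log_le_log (hrpos ω hω) h2
      rw [Real.log_pow] at h3
      linarith)
    (by
      intro ω hω hk
      have h1 := (hZ n r β F sg dm N G J v₀ hCP ω hω).2.2.1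
      have h2 : ((cols F G sg dm J ω).card : ℝ) ≤ 2 ^ G.card := by exact_mod_cast h1
      have h3 := Real.log_le_log (hcpos ω hω hk) h2
      rw [Real.log_pow] at h3
      linarith)
    (by positivity) (by positivity) hbad
    (by
      refine hr.trans ?_
      rw [hGc']
      linarith)
    (by
      refine hc.trans ?_
      rw [hGc']
      linarith)
  obtain ⟨hh1, hh2, hh3⟩ := hH n r β F sg dm N G J hCP ω hω
  push Not at hnb
  have hf1' : ω.2.card * Real.log 2 - Real.log (rows F G sg dm J ω).card ≤ v₀ * N.card / 25 := hf1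
  have hf2' : G.card * Real.log 2 - Real.log (cols F G sg dm J ω).card ≤ g * Real.log 2 / 2 := hf2
  rw [hGc'] at hf2'
  refine ⟨ω.1, (mem_product.1 hω).1, J, ω.2, rows F G sg dm J ω, fun y hy => (hh1 y hy).1,
    cols F G sg dm J ω, fun y hy => (hh2 y hy).1, ?_, ?_, fun y hy => (hh1 y hy).2,
    fun y hy => (hh2 y hy).2, hh3⟩
  · refine (min_le_left _ _).trans ?_
    rw [← Real.le_log_iff_exp_le (hrpos ω hω)]
    have h1 : v₀ * N.card / 8 * Real.log 2 ≤ ω.2.card * Real.log 2 :=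
      mul_le_mul_of_nonneg_right hnb.le hlog2.le
    have h2 : 0.69 ≤ Real.log 2 := by
      have := Real.log_two_gt_d9
      linarith
    nlinarith [mul_le_mul_of_nonneg_left h2 hvN.le]
  · refine (min_le_right _ _).trans ?_
    rw [← Real.le_log_iff_exp_le (hcpos ω hω hkω)]
    linarith

end SRBP
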