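import Pool.Agent.Lib.MP_9dcf40_lc.LIN.Cols

/-!
# The weights `kw` are a probability (proof of `S_Kw`)
-/

namespace SRBP

open Finset

open scoped Classical in
theorem tKw56 : S_Kw := by
  intro n r γ F sg N G J v₀ hF hN hGN hv0 hUU
  have hFpos : (0 : ℝ) < F.card := by exact_mod_cast hF.card_pos
  have hNpos : (0 : ℝ) < N.card := by exact_mod_cast hN.card_pos
  have hUpos : ∀ x ∈ F, 0 < UU F N sg J x := fun x hx => lt_of_lt_of_le (by positivity) (hUU x hx)
  have hw0 : ∀ (C : Finset (Fin n → Bool)) (v : Fin n) (x : Fin n → Bool), 0 ≤ wf C v x := by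
    intro C v x; unfold wf; positivity
  have hw1 : ∀ (C : Finset (Fin n → Bool)) (v : Fin n) (x : Fin n → Bool), wf C v x ≤ 1 := by
    intro C v x
    unfold wf
    apply div_le_one_of_le₀ _ (Nat.cast_nonneg _)
    exact_mod_cast card_filter_le _ _
  set t : (Fin n → Bool) → Fin n → ℝ := fun x v =>
    v₀ * N.card / UU F N sg J x * wf (Cl F N sg J x) v x with ht
  have ht0 : ∀ x ∈ F, ∀ v, 0 ≤ t x v := by
    intro x hx v
    have := hUpos x hx
    have := hw0 (Cl F N sg J x) v x
    rw [ht]; positivity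
  have ht1 : ∀ x ∈ F, ∀ v, t x v ≤ 1 := by
    intro x hx v
    have h1 : v₀ * N.card / UU F N sg J x ≤ 1 := by
      rw [div_le_one (hUpos x hx)]
      exact hUU x hx
    have h2 : 0 ≤ v₀ * N.card / UU F N sg J x := by
      have := hUpos x hx
      positivity
    rw [ht]
    exact mul_le_one₀ h1 (hw0 _ _ _) (hw1 _ _ _)
  set α : (Fin n → Bool) → Fin n → ℝ := fun x v => if v ∈ N \ G then t x v else 0 with hα
  have hOm : ∀ φ : (Fin n → Bool) → Finset (Fin n) → ℝ,
      ∑ ω ∈ Om F N G, kw F N G sg J v₀ ω * φ ω.1 ω.2 =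
      (∑ x ∈ F, ∑ V : Finset (Fin n), kk (α x) V * φ x V) / F.card := by
    intro φ
    unfold Om kw
    rw [sum_product, sum_div]
    apply sum_congr rfl
    intro x _
    rw [sum_div]
    have e2 : ∀ V : Finset (Fin n), kk (α x) V * φ x V / F.card =
        if V ∈ (N \ G).powerset then bk (N \ G) (t x) V / F.card * φ x V else 0 := by
      intro V
      have := Cols.kk_bk (N \ G) (t x) V
      have e3 : kk (α x) V = if V ⊆ N \ G then bk (N \ G) (t x) V else 0 := this
      rw [e3]
      simp only [mem_powerset]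
      split_ifs
      · ring
      · simp
    rw [sum_congr rfl fun V _ => e2 V, Finset.sum_ite_mem, univ_inter]
  refine ⟨?_, ?_, ?_⟩
  · intro ω hω
    unfold Om at hω
    obtain ⟨hx, _⟩ := mem_product.mp hω
    unfold kw bk
    apply div_nonneg _ hFpos.le
    apply mul_nonneg
    · exact prod_nonneg fun v _ => ht0 ω.1 hx v
    · exact prod_nonneg fun v _ => by have := ht1 ω.1 hx v; exact sub_nonneg.mpr this
  · have h := hOm (fun _ _ => 1)
    simp only [mul_one] at h
    rw [h]
    simp_rw [Cols.sum_kk]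
    rw [sum_const, nsmul_eq_mul, mul_one, div_self hFpos.ne']
  · have h := hOm (fun _ V => (V.card : ℝ))
    rw [h]
    have h1 : ∀ x ∈ F, ∑ V : Finset (Fin n), kk (α x) V * (V.card : ℝ) =
        v₀ * N.card / UU F N sg J x * ∑ v ∈ N, wf (Cl F N sg J x) v x -
        v₀ * N.card / UU F N sg J x * ∑ v ∈ G, wf (Cl F N sg J x) v x := by
      intro x _
      have e1 : ∀ V : Finset (Fin n), (V.card : ℝ) = ∑ v, (if v ∈ V then (1 : ℝ) else 0) := by
        intro V
        rw [Finset.sum_ite_mem, univ_inter, sum_const, nsmul_eq_mul, mul_one]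
      have e2 := Cols.sum_kk_lin (α x) (fun _ => 1) (fun _ => 0)
      simp only [mul_one, mul_zero, add_zero] at e2
      rw [sum_congr rfl fun V _ => by rw [e1 V]]
      refine Eq.trans ?_ (e2.trans ?_)
      · apply sum_congr rfl
        intro V _
        congr
      · rw [hα]
        simp only
        rw [Finset.sum_ite_mem, univ_inter, ht, ← mul_sum, ← mul_sub, ← sum_sdiff hGN]
        ring
    rw [sum_congr rfl h1, sum_sub_distrib, Cols.sum_aw F N sg J (v₀ * N.card)
      (fun x hx => (hUpos x hx).ne'), sub_div, mul_div_cancel_right₀ _ hFpos.ne']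

end SRBP
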