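import Pool.Agent.Lib.MP_9dcf40_lc.LIN.SpecQ
import Pool.Agent.Lib.MP_9dcf40_lc.LIN.ScaleC
import Pool.Agent.Lib.MP_9dcf40_lc.LIN.ScaleE

/-!
# Theorem Q: monotonicity of the mean entropy (S_MonQ)
-/

namespace SRBP

open Finset

/-- The labels of the segments in `J`. -/
noncomputable def monf {n r : ℕ} {β : Type} (sg : Fin r → (Fin n → Bool) → β)
    (J : Finset (Fin r)) (x : Fin n → Bool) (j : Fin r) : Option β := by
  classical exact if j ∈ J then some (sg j x) else none

theorem mon_f_eq {n r : ℕ} {β : Type} (sg : Fin r → (Fin n → Bool) → β)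
    (J : Finset (Fin r)) (x y : Fin n → Bool) :
    monf sg J y = monf sg J x ↔ ∀ j ∈ J, sg j y = sg j x := by
  classical
  constructor
  · intro h j hj
    have h1 := congrFun h j
    unfold monf at h1
    rw [if_pos hj, if_pos hj] at h1
    exact Option.some.inj h1
  · intro h
    funext j
    unfold monf
    by_cases hj : j ∈ J
    · rw [if_pos hj, if_pos hj, h j hj]
    · rw [if_neg hj, if_neg hj]

theorem mon_mf {α : Type} (F : Finset α) (p : α → Prop) (h : DecidablePred p) (x : α) :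
    x ∈ @Finset.filter α p h F ↔ x ∈ F ∧ p x := @Finset.mem_filter α p h F x

theorem mon_Cl {n r : ℕ} {β : Type} (F : Finset (Fin n → Bool)) (N : Finset (Fin n))
    (sg : Fin r → (Fin n → Bool) → β) (J : Finset (Fin r)) (x : Fin n → Bool) :
    Cl F N sg J x = LINS.cl F (LINS.key (monf sg J) Nᶜ) x := by
  ext y
  rw [LINS.mem_cl, LINS.key_eq, mon_f_eq]
  unfold Cl
  rw [mon_mf]
  simp only [mem_compl]

theorem mon_log {n : ℕ} {γ : Type} {F : Finset (Fin n → Bool)} (g : (Fin n → Bool) → γ)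
    (S : Finset (Fin n)) (v : Fin n) (y : Fin n → Bool) (hy : y ∈ F) :
    -Real.log (1 - wf (LINS.cl F (LINS.key g S) y) v y) =
      Real.log (LINS.cl F (LINS.key g S) y).card -
        Real.log (LINS.cl F (LINS.key g (insert v S)) y).card := by
  classical
  have p1 := LINS.card_cl_pos (k := LINS.key g S) hy
  have p2 := LINS.card_cl_pos (k := LINS.key g (insert v S)) hy
  have h2 : 1 - wf (LINS.cl F (LINS.key g S) y) v y =
      ((LINS.cl F (LINS.key g (insert v S)) y).card : ℝ) / (LINS.cl F (LINS.key g S) y).card := by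
    have e1 : ((LINS.cl F (LINS.key g S) y).filter (fun z => z v ≠ y v)).card +
        (LINS.cl F (LINS.key g (insert v S)) y).card = (LINS.cl F (LINS.key g S) y).card := by
      have e2 : LINS.cl F (LINS.key g (insert v S)) y =
          (LINS.cl F (LINS.key g S) y).filter (fun z => z v = y v) := by
        ext z
        rw [LINS.cl_insert, LINS.mem_cl, mem_filter, LINS.mem_cl, Prod.mk.injEq]
        tauto
      rw [e2, add_comm]
      exact card_filter_add_card_filter_not _
    unfold wf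
    rw [eq_div_iff p1.ne', sub_mul, one_mul, div_mul_cancel₀ _ p1.ne', sub_eq_iff_eq_add']
    exact_mod_cast e1.symm
  rw [h2, Real.log_div p2.ne' p1.ne']
  ring

/-- The entropy of the labels in `J` and of the coordinates in `M`. -/
noncomputable def monh {n r : ℕ} {β : Type} (F : Finset (Fin n → Bool))
    (sg : Fin r → (Fin n → Bool) → β) (J : Finset (Fin r)) (M : Finset (Fin n)) : ℝ :=
  ent F (fun x => (monf sg J x, LINS.rs M x))

theorem mon_sub {n r : ℕ} {β : Type} {F : Finset (Fin n → Bool)} (hF : F.Nonempty)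
    (sg : Fin r → (Fin n → Bool) → β) (J : Finset (Fin r)) : LINS.Sub (monh F sg J) :=
  LINS.sub_ent hF (monf sg J)

theorem mon_ent {n r : ℕ} {β : Type} {F : Finset (Fin n → Bool)} (hF : F.Nonempty)
    (sg : Fin r → (Fin n → Bool) → β) (J : Finset (Fin r)) (N : Finset (Fin n)) :
    (∑ x ∈ F, ∑ v ∈ N, -Real.log (1 - wf (Cl F N sg J x) v x)) / F.card =
      ∑ v ∈ N, (monh F sg J (insert v Nᶜ) - monh F sg J Nᶜ) := by
  have h3 : (0 : ℝ) < F.card := by exact_mod_cast hF.card_pos
  have h1 : ∀ x ∈ F, ∑ v ∈ N, -Real.log (1 - wf (Cl F N sg J x) v x) =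
      ∑ v ∈ N, (Real.log (LINS.cl F (LINS.key (monf sg J) Nᶜ) x).card -
        Real.log (LINS.cl F (LINS.key (monf sg J) (insert v Nᶜ)) x).card) := by
    intro x hx
    refine sum_congr rfl fun v _ => ?_
    rw [mon_Cl, mon_log _ _ _ _ hx]
  rw [sum_congr rfl h1, sum_comm, sum_div]
  refine sum_congr rfl fun v _ => ?_
  unfold monh
  rw [LINS.ent_eq, LINS.ent_eq, ← sub_div]
  congr 1
  unfold LINS.hF
  rw [← sum_sub_distrib]
  refine sum_congr rfl fun x _ => ?_
  ring

theorem mon_tJ {n r : ℕ} {β : Type} (F : Finset (Fin n → Bool))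
    (sg : Fin r → (Fin n → Bool) → β) (J : Finset (Fin r)) (N : Finset (Fin n)) :
    tJ F N sg J = LINS.tc (monh F sg J) Nᶜ := by
  classical
  have h4 := LINS.mean_tc F (monf sg J) N
  refine Eq.trans ?_ h4
  unfold tJ
  refine congrArg (fun z : ℝ => z / (F.card : ℝ)) (sum_congr rfl fun x _ => congrArg TCf ?_)
  ext y
  unfold Cl
  refine Iff.trans (mon_mf _ _ _ _) (Iff.trans ?_ (mon_mf _ _ _ _).symm)
  apply and_congr_right
  intro _
  apply and_congr_right
  intro _
  exact (mon_f_eq sg J x y).symm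

theorem mon_sumH {n r : ℕ} {β : Type} {F : Finset (Fin n → Bool)} (hF : F.Nonempty)
    (sg : Fin r → (Fin n → Bool) → β) (J : Finset (Fin r)) (m : ℕ) (hm : m < n) :
    ∑ π : Equiv.Perm (Fin n),
      (∑ x ∈ F, ∑ v ∈ NN π m, -Real.log (1 - wf (Cl F (NN π m) sg J x) v x)) / F.card =
      ((n : ℝ) - m) * (LINS.HS (monh F sg J) (m + 1) - LINS.HS (monh F sg J) m) := by
  have h1 : ∀ π ∈ (univ : Finset (Equiv.Perm (Fin n))),
      (∑ x ∈ F, ∑ v ∈ NN π m, -Real.log (1 - wf (Cl F (NN π m) sg J x) v x)) / F.card =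
      LINS.tc (monh F sg J) (LINS.fs π m) +
        (monh F sg J (LINS.fs π n) - monh F sg J (LINS.fs π m)) := by
    intro π _
    rw [mon_ent hF]
    unfold LINS.tc NN
    rw [compl_compl, LINS.fs_n]
    ring
  rw [sum_congr rfl h1, sum_add_distrib, sum_sub_distrib, LINS.sum_tc _ m hm]
  unfold LINS.HS
  ring

theorem mon_tele {n : ℕ} {h : Finset (Fin n) → ℝ} (hs : LINS.Sub h) (m m' : ℕ) (hmm : m ≤ m')
    (hm : m' < n) : ((m' : ℝ) - m) * (LINS.HS h (m' + 1) - LINS.HS h m') ≤
      LINS.HS h n - LINS.HS h m := by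
  have h1 : ((m' : ℝ) - m) * (LINS.HS h (m' + 1) - LINS.HS h m') ≤
      LINS.HS h m' - LINS.HS h m := by
    have : ∀ k, m ≤ k → k ≤ m' → ((k : ℝ) - m) * (LINS.HS h (m' + 1) - LINS.HS h m') ≤
        LINS.HS h k - LINS.HS h m := by
      intro k hk
      induction k, hk using Nat.le_induction with
      | base => intro _; simp
      | succ k hk ih =>
        intro hk'
        have i1 := ih (by omega)
        have i2 := LINS.HS_anti' hs k m' (by omega) hm
        push_cast
        linarith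
    exact this m' hmm (le_refl _)
  have h2 : LINS.HS h m' ≤ LINS.HS h n := by
    have : ∀ k, m' ≤ k → k ≤ n → LINS.HS h m' ≤ LINS.HS h k := by
      intro k hk
      induction k, hk using Nat.le_induction with
      | base => intro _; exact le_refl _
      | succ k hk ih =>
        intro hk'
        have i1 := ih (by omega)
        have i2 := LINS.HS_mono hs k (by omega)
        linarith
    exact this n hm.le (le_refl _)
  linarith

theorem tMonQ : S_MonQ := by
  intro n r β F sg m m' s hF hmm hm hs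
  have hmn : m < n := lt_of_le_of_lt hmm hm
  obtain ⟨P, hP⟩ : ∃ P : ℝ, P = (Fintype.card (Equiv.Perm (Fin n)) : ℝ) := ⟨_, rfl⟩
  obtain ⟨Q, hQ⟩ : ∃ Q : ℝ, Q = (r.choose s : ℝ) := ⟨_, rfl⟩
  have hP0 : 0 < P := by
    rw [hP]
    exact_mod_cast Fintype.card_pos
  have hQ0 : 0 < Q := by
    rw [hQ]
    exact_mod_cast Nat.choose_pos hs
  have hPQ : 0 < P * Q := mul_pos hP0 hQ0
  have hnm : (0 : ℝ) < (n : ℝ) - m := by
    have : (m : ℝ) < n := by exact_mod_cast hmn
    linarith
  have hnm' : (0 : ℝ) < (n : ℝ) - m' := by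
    have : (m' : ℝ) < n := by exact_mod_cast hm
    linarith
  have hcard : (((powersetCard s (univ : Finset (Fin r))).card : ℕ) : ℝ) = Q := by
    rw [card_powersetCard, card_univ, Fintype.card_fin, hQ]
  -- the sum of the increments
  let d : ℕ → ℝ := fun k => ∑ J ∈ powersetCard s (univ : Finset (Fin r)),
    (LINS.HS (monh F sg J) (k + 1) - LINS.HS (monh F sg J) k)
  have hHa : ∀ k, k < n → Ha F sg k s = d k / (P * Q) := by
    intro k hk
    have hnk : (0 : ℝ) < (n : ℝ) - k := by
      have : (k : ℝ) < n := by exact_mod_cast hk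
      linarith
    unfold Ha pav
    rw [sum_comm, sum_congr rfl (fun J _ => mon_sumH hF sg J k hk), ← mul_sum, ← hP, ← hQ,
      div_div, mul_comm (P * Q) ((n : ℝ) - k)]
    exact mul_div_mul_left _ _ hnk.ne'
  have hd0 : 0 ≤ d m' := sum_nonneg fun J _ => LINS.HS_mono (mon_sub hF sg J) m' hm
  have hd1 : d m' ≤ d m := sum_le_sum fun J _ => LINS.HS_anti' (mon_sub hF sg J) m m' hmm hm
  have hlog1 : Real.log 2 ≤ 1 := by
    have := Real.log_two_lt_d9
    linarith
  have hd2 : d m ≤ P * Q := by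
    calc d m ≤ ∑ _J ∈ powersetCard s (univ : Finset (Fin r)), P * Real.log 2 :=
          sum_le_sum fun J _ => by
            rw [hP]
            exact LINS.HS_le (mon_sub hF sg J) m hmn
      _ = Q * (P * Real.log 2) := by rw [sum_const, nsmul_eq_mul, hcard]
      _ ≤ P * Q := by
        have : 0 ≤ Q * P := by positivity
        nlinarith
  have hTa : Ta F sg m s = d m / (P * Q) -
      (∑ J ∈ powersetCard s (univ : Finset (Fin r)),
        (LINS.HS (monh F sg J) n - LINS.HS (monh F sg J) m)) / (P * Q * ((n : ℝ) - m)) := by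
    have h1 : ∀ J ∈ powersetCard s (univ : Finset (Fin r)),
        ∑ π : Equiv.Perm (Fin n), tJ F (NN π m) sg J =
        ((n : ℝ) - m) * (LINS.HS (monh F sg J) (m + 1) - LINS.HS (monh F sg J) m) -
          (LINS.HS (monh F sg J) n - LINS.HS (monh F sg J) m) := by
      intro J _
      rw [← LINS.sum_tc _ m hmn]
      refine sum_congr rfl fun π _ => ?_
      rw [mon_tJ]
      unfold NN
      rw [compl_compl]
    unfold Ta pav
    rw [sum_comm, sum_congr rfl h1, sum_sub_distrib, ← mul_sum, ← hP, ← hQ, div_div, sub_div,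
      mul_comm (P * Q) ((n : ℝ) - m)]
    congr 1
    exact mul_div_mul_left _ _ hnm.ne'
  have hS : ((m' : ℝ) - m) * d m' ≤ ∑ J ∈ powersetCard s (univ : Finset (Fin r)),
      (LINS.HS (monh F sg J) n - LINS.HS (monh F sg J) m) := by
    simp only [d]
    rw [mul_sum]
    exact sum_le_sum fun J _ => mon_tele (mon_sub hF sg J) m m' hmm hm
  refine ⟨?_, ?_, ?_, ?_⟩
  · rw [hHa m' hm]
    exact div_nonneg hd0 hPQ.le
  · rw [hHa m' hm, hHa m hmn]
    exact div_le_div_of_nonneg_right hd1 hPQ.le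
  · rw [hHa m hmn, div_le_one hPQ]
    exact hd2
  · rw [hTa, hHa m hmn, hHa m' hm]
    have h1 : ((m' : ℝ) - m) * d m' / (P * Q * ((n : ℝ) - m)) ≤
        (∑ J ∈ powersetCard s (univ : Finset (Fin r)),
          (LINS.HS (monh F sg J) n - LINS.HS (monh F sg J) m)) / (P * Q * ((n : ℝ) - m)) :=
      div_le_div_of_nonneg_right hS (mul_pos hPQ hnm).le
    have h2 : ((m' : ℝ) - m) * d m' / (P * Q * ((n : ℝ) - m)) =
        d m' / (P * Q) - ((n : ℝ) - m') / ((n : ℝ) - m) * (d m' / (P * Q)) := by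
      have e : ((m' : ℝ) - m) = ((n : ℝ) - m) - ((n : ℝ) - m') := by ring
      rw [e]
      field_simp
    have h3 : ((n : ℝ) - m') / ((n : ℝ) - m) * (d m' / (P * Q)) ≤
        ((n : ℝ) - m') / ((n : ℝ) - m) * (d m / (P * Q)) := by
      apply mul_le_mul_of_nonneg_left
      · exact div_le_div_of_nonneg_right hd1 hPQ.le
      · positivity
    linarith

end SRBP
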