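import Pool.Agent.Lib.MP_9dcf40_lc.LIN.ProgA
import Pool.Agent.Lib.MP_9dcf40_lc.LIN.Spec
import Pool.Agent.Lib.MP_9dcf40_lc.SR.Cut

/-!
# Section 0: from programs to consistent systems (proof of `S_Prog`)
-/

namespace SRBP

open Finset

open scoped Classical in
theorem tProg56 (hCut : S_Cut) : S_Prog := by
  intro n r k s ℓ P A hr hkn hA hwalk
  obtain ⟨r', rfl⟩ : ∃ r', r = r' + 1 := ⟨r - 1, by omega⟩
  have hex : ∀ y : Fin n → Bool, ∃ (E : Finset (Fin n)) (q : Fin (r' + 1 + 1) → P.V)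
      (seg : Fin (r' + 1) → List (Fin n × Bool)), y ∈ A → E.card ≤ s ∧ q 0 = P.start ∧
        P.acc (q (Fin.last (r' + 1))) ∧
        (∀ i : Fin (r' + 1), Walk P (q i.castSucc) (seg i) (q i.succ)) ∧
        (∀ i, ((seg i).filter (fun a => decide (a.1 ∉ E))).length ≤ ℓ) ∧
        ∀ i, ∀ a ∈ seg i, y a.1 = a.2 := by
    intro y
    by_cases hy : y ∈ A
    · obtain ⟨v, l, E, hv, hw, hc, hE, hlen⟩ := hwalk y hy
      have hlen' : (l.filter (fun a => decide (a.1 ∉ E))).length ≤ (r' + 1) * ℓ := by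
        refine le_trans (le_of_eq ?_) (hlen.trans hkn)
        rw [List.filter_map, List.length_map]
        congr
      obtain ⟨q, seg, h1, h2, h3, h4, h5⟩ := ProgA.cutp P (fun a => decide (a.1 ∉ E)) ℓ r' l
        P.start v hw hlen'
      refine ⟨E, q, seg, fun _ => ⟨hE, h1, by rw [h2]; exact hv, h3, h4, ?_⟩⟩
      intro i a ha
      exact hc a (h5 i a ha)
    · exact ⟨∅, fun _ => P.start, fun _ => [], fun h => absurd h hy⟩
  choose Ef qf segf hf using hex
  -- pigeonhole over `E`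
  have hAcard : (0 : ℝ) < A.card := by exact_mod_cast hA.card_pos
  have : Nonempty P.V := ⟨P.start⟩
  set gE : (Fin n → Bool) → {E : Finset (Fin n) // E.card ≤ s} := fun y =>
    if h : (Ef y).card ≤ s then ⟨Ef y, h⟩ else ⟨∅, by simp⟩ with hgE
  obtain ⟨⟨E, hE⟩, hp1⟩ := ProgA.pigeon A gE ⟨⟨∅, by simp⟩⟩
  set A1 := A.filter (fun y => gE y = ⟨E, hE⟩) with hA1
  have hEf : ∀ y ∈ A1, Ef y = E := by
    intro y hy
    obtain ⟨hyA, hyE⟩ := mem_filter.mp hy
    rw [hgE] at hyE
    simp only at hyE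
    rw [dif_pos (hf y hyA).1] at hyE
    exact congrArg Subtype.val hyE
  have hball : (Fintype.card {E : Finset (Fin n) // E.card ≤ s} : ℝ) = ball n s := by
    rw [Fintype.card_subtype]
    unfold ball
    norm_cast
  rw [hball] at hp1
  -- pigeonhole over the values on `E`
  obtain ⟨e, hp2⟩ := ProgA.pigeon A1 (fun y => fun v : {v // v ∈ E} => y v.1) inferInstance
  set A2 := A1.filter (fun y => (fun v : {v // v ∈ E} => y v.1) = e) with hA2
  have hcardE : (Fintype.card ({v // v ∈ E} → Bool) : ℝ) ≤ 2 ^ s := by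
    rw [Fintype.card_fun, Fintype.card_bool, Fintype.card_coe]
    push_cast
    exact pow_le_pow_right₀ (by norm_num) hE
  -- pigeonhole over the boundary states
  obtain ⟨q, hp3⟩ := ProgA.pigeon A2 qf inferInstance
  set F := A2.filter (fun y => qf y = q) with hF
  have hcardq : (Fintype.card (Fin (r' + 1 + 1) → P.V) : ℝ) =
      (Fintype.card P.V : ℝ) ^ (r' + 1 + 1) := by
    rw [Fintype.card_fun, Fintype.card_fin]
    push_cast
    rfl
  rw [hcardq] at hp3
  have hcount : (A.card : ℝ) ≤ ball n s * 2 ^ s * (Fintype.card P.V : ℝ) ^ (r' + 1 + 1) *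
      F.card := by
    have hb0 : (0 : ℝ) ≤ ball n s := Nat.cast_nonneg _
    have hp1' : (A.card : ℝ) ≤ ball n s * A1.card := by
      refine hp1.trans (le_of_eq ?_)
      congr
    have hp3' : (A2.card : ℝ) ≤ (Fintype.card P.V : ℝ) ^ (r' + 1 + 1) * F.card := by
      refine hp3.trans (le_of_eq ?_)
      congr
    have hp2' : (A1.card : ℝ) ≤ (Fintype.card ({v // v ∈ E} → Bool) : ℝ) * A2.card := by
      refine hp2.trans (le_of_eq ?_)
      congr
    have h2 : (A1.card : ℝ) ≤ 2 ^ s * A2.card :=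
      hp2'.trans (mul_le_mul_of_nonneg_right hcardE (Nat.cast_nonneg _))
    calc (A.card : ℝ) ≤ ball n s * A1.card := hp1'
      _ ≤ ball n s * (2 ^ s * A2.card) := mul_le_mul_of_nonneg_left h2 hb0
      _ ≤ ball n s * (2 ^ s * ((Fintype.card P.V : ℝ) ^ (r' + 1 + 1) * F.card)) := by
          apply mul_le_mul_of_nonneg_left _ hb0
          exact mul_le_mul_of_nonneg_left hp3' (by positivity)
      _ = _ := by ring
  have hFne : F.Nonempty := by
    by_contra hcon
    rw [not_nonempty_iff_eq_empty] at hcon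
    rw [hcon] at hcount
    simp only [card_empty, Nat.cast_zero, mul_zero] at hcount
    linarith
  obtain ⟨x₀, hx₀⟩ := hFne
  have hFA2 : ∀ y ∈ F, y ∈ A2 := fun y hy => (mem_filter.mp hy).1
  have hFA1 : ∀ y ∈ F, y ∈ A1 := fun y hy => (mem_filter.mp (hFA2 y hy)).1
  have hFA : ∀ y ∈ F, y ∈ A := fun y hy => (mem_filter.mp (hFA1 y hy)).1
  have hFq : ∀ y ∈ F, qf y = q := fun y hy => (mem_filter.mp hy).2
  have hFE : ∀ x ∈ F, ∀ y ∈ F, ∀ v ∈ E, x v = y v := by
    intro x hx y hy v hv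
    have h1 := congrFun (mem_filter.mp (hFA2 x hx)).2 ⟨v, hv⟩
    have h2 := congrFun (mem_filter.mp (hFA2 y hy)).2 ⟨v, hv⟩
    exact h1.trans h2.symm
  set dm : (Fin n → Option Bool) → Finset (Fin n) := fun b => univ.filter (fun v => b v ≠ none)
    with hdm
  -- candidates
  set cand : Fin (r' + 1) → (Fin n → Option Bool) → Prop := fun j b => (dm b).card ≤ ℓ ∧
    ∃ l, Walk P (q j.castSucc) l (q j.succ) ∧ (∀ a ∈ l, a.1 ∈ E → x₀ a.1 = a.2) ∧
      ∀ a ∈ l, a.1 ∉ E → b a.1 = some a.2 with hcand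
  set compat : (Fin n → Option Bool) → (Fin n → Bool) → Prop := fun b x =>
    ∀ v c, b v = some c → x v = c with hcompat
  have hcanon : ∀ j : Fin (r' + 1), ∃ σ : (Fin n → Bool) → (Fin n → Option Bool),
      (∀ x ∈ (F : Set (Fin n → Bool)), cand j (σ x) ∧ compat (σ x) x) ∧
      ∀ x ∈ (F : Set (Fin n → Bool)), ∀ y ∈ (F : Set (Fin n → Bool)),
        compat (σ x) y → compat (σ y) x → σ x = σ y := by
    intro j
    apply ProgA.canon (cand j) compat (F : Set (Fin n → Bool))
    intro x hx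
    have hxF : x ∈ F := by simpa using hx
    obtain ⟨h1, h2, h3, h4, h5, h6⟩ := hf x (hFA x hxF)
    refine ⟨fun v => if v ∉ E ∧ v ∈ (segf x j).map Prod.fst then some (x v) else none,
      ⟨?_, segf x j, ?_, ?_, ?_⟩, ?_⟩
    · have h7 := h5 j
      rw [hEf x (hFA1 x hxF)] at h7
      refine le_trans ?_ h7
      have h8 : dm (fun v => if v ∉ E ∧ v ∈ (segf x j).map Prod.fst then some (x v) else none) ⊆
          (((segf x j).filter (fun a => decide (a.1 ∉ E))).map Prod.fst).toFinset := by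
        intro v hv
        rw [hdm] at hv
        simp only [mem_filter, mem_univ, true_and, ne_eq, ite_eq_right_iff, reduceCtorEq,
          imp_false, not_not] at hv
        obtain ⟨hvE, hvs⟩ := hv
        obtain ⟨a, ha, hav⟩ := List.mem_map.mp hvs
        rw [List.mem_toFinset, List.mem_map]
        refine ⟨a, ?_, hav⟩
        rw [List.mem_filter]
        exact ⟨ha, by rw [hav]; simpa using hvE⟩
      calc _ ≤ _ := card_le_card h8
        _ ≤ _ := List.toFinset_card_le _
        _ = _ := by rw [List.length_map]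
    · have h9 := h4 j
      rw [hFq x hxF] at h9
      exact h9
    · intro a ha haE
      rw [hFE x₀ hx₀ x hxF a.1 haE]
      exact h6 j a ha
    · intro a ha haE
      have : a.1 ∈ (segf x j).map Prod.fst := List.mem_map_of_mem ha
      simp only [haE, not_false_eq_true, this, and_self, if_true]
      rw [h6 j a ha]
    · intro v c hvc
      simp only at hvc
      split_ifs at hvc
      exact Option.some.inj hvc
  choose sg hsg1 hsg2 using hcanon
  refine ⟨F, fun y hy => hFA y hy, ⟨x₀, hx₀⟩, hcount, sg, dm, ⟨?_, ?_⟩, ?_, E, hFE, ?_⟩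
  · intro j x hx y hy hxy v hv
    rw [hdm] at hv
    simp only [mem_filter, mem_univ, true_and] at hv
    obtain ⟨c, hc⟩ := Option.ne_none_iff_exists'.mp hv
    have h1 := (hsg1 j x (by simpa using hx)).2 v c hc
    have h2 := (hsg1 j y (by simpa using hy)).2 v c (by rw [← hxy]; exact hc)
    rw [h1, h2]
  · intro j x hx y hy h1 h2
    apply hsg2 j x (by simpa using hx) y (by simpa using hy)
    · intro v c hvc
      have h3 := (hsg1 j x (by simpa using hx)).2 v c hvc
      have h4 := h1 v (by rw [hdm]; simp [hvc])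
      rw [← h4, h3]
    · intro v c hvc
      have h3 := (hsg1 j y (by simpa using hy)).2 v c hvc
      have h4 := h2 v (by rw [hdm]; simp [hvc])
      rw [h4, h3]
  · intro x hx j
    exact (hsg1 j x (by simpa using hx)).1.1
  · intro z hzE hz
    obtain ⟨x₁, hx₁, hzx⟩ := hzE
    choose yj hyj hzj using hz
    have hl : ∀ j : Fin (r' + 1), ∃ l, Walk P (q j.castSucc) l (q j.succ) ∧ ∀ a ∈ l, z a.1 = a.2 := by
      intro j
      obtain ⟨⟨_, l, hl1, hl2, hl3⟩, hl4⟩ := hsg1 j (yj j) (by simpa using hyj j)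
      refine ⟨l, hl1, ?_⟩
      intro a ha
      by_cases haE : a.1 ∈ E
      · rw [hzx a.1 haE, hFE x₁ hx₁ x₀ hx₀ a.1 haE]
        exact hl2 a ha haE
      · have h5 := hl3 a ha haE
        rw [hzj j a.1 (by rw [hdm]; simp [h5])]
        exact hl4 a.1 a.2 h5
    choose lj hlj1 hlj2 using hl
    have hW := (hCut (Fin n) P (r' + 1) 0).2 q lj hlj1
    obtain ⟨_, hq0, hql, _, _, _⟩ := hf x₀ (hFA x₀ hx₀)
    rw [hFq x₀ hx₀] at hq0 hql
    rw [hq0] at hW
    refine ⟨q (Fin.last (r' + 1)), (List.ofFn lj).flatten, hql, hW, ?_⟩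
    intro a ha
    obtain ⟨l, hl, hal⟩ := List.mem_flatten.mp ha
    obtain ⟨j, rfl⟩ := List.mem_ofFn.mp hl
    exact hlj2 j a hal

end SRBP
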