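import Pool.Agent.Lib.MP_9dcf40_lc.LIN.ScaleA

/-!
# The scale (Lemma 2): the variance of the intersection with a random set
-/

namespace LINS

open Finset

variable {n : ℕ}

/-- Centred indicator of `π i ∈ A`. -/
noncomputable def xx (A : Finset (Fin n)) (π : Equiv.Perm (Fin n)) (i : Fin n) : ℝ :=
  (if π i ∈ A then 1 else 0) - (A.card : ℝ) / n

/-- Covariances. -/
noncomputable def qq (A : Finset (Fin n)) (i j : Fin n) : ℝ :=
  ∑ π : Equiv.Perm (Fin n), xx A π i * xx A π j

theorem xx_swap (A : Finset (Fin n)) (π : Equiv.Perm (Fin n)) (i j k : Fin n) :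
    xx A (π * Equiv.swap i j) k = xx A π (Equiv.swap i j k) := by
  unfold xx
  rw [Equiv.Perm.mul_apply]

theorem ind_sum (A : Finset (Fin n)) (π : Equiv.Perm (Fin n)) :
    ∑ i, (if π i ∈ A then (1 : ℝ) else 0) = A.card := by
  rw [Equiv.sum_comp π (fun v => if v ∈ A then (1 : ℝ) else 0)]
  simp

theorem xx_sum (A : Finset (Fin n)) (π : Equiv.Perm (Fin n)) : ∑ i, xx A π i = 0 := by
  unfold xx
  rw [sum_sub_distrib, ind_sum]
  rcases Nat.eq_zero_or_pos n with h | h
  · subst h
    have : A = ∅ := by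
      ext v
      exact v.elim0
    simp [this]
  · have : (n : ℝ) ≠ 0 := by positivity
    simp
    field_simp
    simp

theorem qq_diag (A : Finset (Fin n)) (i j : Fin n) : qq A i i = qq A j j := by
  unfold qq
  rw [← Equiv.sum_comp (Equiv.mulRight (Equiv.swap i j))
    (fun π : Equiv.Perm (Fin n) => xx A π i * xx A π i)]
  apply sum_congr rfl
  intro π _
  rw [Equiv.coe_mulRight, xx_swap, Equiv.swap_apply_left]

theorem qq_off (A : Finset (Fin n)) (i j k : Fin n) (hj : j ≠ i) (hk : k ≠ i) :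
    qq A i j = qq A i k := by
  unfold qq
  rw [← Equiv.sum_comp (Equiv.mulRight (Equiv.swap j k))
    (fun π : Equiv.Perm (Fin n) => xx A π i * xx A π j)]
  apply sum_congr rfl
  intro π _
  rw [Equiv.coe_mulRight, xx_swap, xx_swap, Equiv.swap_apply_left,
    Equiv.swap_apply_of_ne_of_ne hj.symm hk.symm]

theorem qq_diag_nonneg (A : Finset (Fin n)) (i : Fin n) : 0 ≤ qq A i i :=
  sum_nonneg fun _ _ => mul_self_nonneg _

theorem qq_diag_le (A : Finset (Fin n)) (i : Fin n) :
    qq A i i ≤ Fintype.card (Equiv.Perm (Fin n)) * ((A.card : ℝ) / n) := by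
  have hn : 0 < n := Nat.lt_of_le_of_lt (Nat.zero_le _) i.2
  have hn' : (0 : ℝ) < n := by exact_mod_cast hn
  have hA : (A.card : ℝ) ≤ n := by
    have := card_le_univ A
    rw [Fintype.card_fin] at this
    exact_mod_cast this
  have h1 : ∑ j, qq A j j ≤ Fintype.card (Equiv.Perm (Fin n)) * (A.card : ℝ) := by
    unfold qq
    rw [sum_comm]
    calc _ ≤ ∑ _π : Equiv.Perm (Fin n), (A.card : ℝ) := by
          apply sum_le_sum
          intro π _
          have e : ∀ j, xx A π j * xx A π j =
              (if π j ∈ A then (1 : ℝ) else 0) * (1 - 2 * ((A.card : ℝ) / n)) +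
                ((A.card : ℝ) / n) ^ 2 := by
            intro j
            unfold xx
            split_ifs <;> ring
          rw [sum_congr rfl (fun j _ => e j), sum_add_distrib, ← sum_mul, ind_sum]
          simp only [sum_const, card_univ, Fintype.card_fin, nsmul_eq_mul]
          have e2 : (A.card : ℝ) * (1 - 2 * ((A.card : ℝ) / n)) + n * ((A.card : ℝ) / n) ^ 2 =
              A.card - (A.card : ℝ) ^ 2 / n := by
            field_simp
            ring
          rw [e2]
          have : 0 ≤ (A.card : ℝ) ^ 2 / n := by positivity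
          linarith
      _ = _ := by simp
  rw [sum_congr rfl (fun j _ => qq_diag A j i)] at h1
  simp only [sum_const, card_univ, Fintype.card_fin, nsmul_eq_mul] at h1
  rw [← mul_div_assoc, le_div_iff₀ hn']
  linarith

theorem qq_off_le (A : Finset (Fin n)) (i j : Fin n) (hij : j ≠ i) : qq A i j ≤ 0 := by
  have h1 : ∑ k, qq A i k = 0 := by
    unfold qq
    rw [sum_comm]
    apply sum_eq_zero
    intro π _
    rw [← mul_sum, xx_sum, mul_zero]
  rw [← add_sum_erase univ _ (mem_univ i)] at h1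
  have h2 : ∑ k ∈ univ.erase i, qq A i k = ∑ _k ∈ univ.erase i, qq A i j := by
    apply sum_congr rfl
    intro k hk
    exact qq_off A i k j (ne_of_mem_erase hk) hij
  rw [h2, sum_const, nsmul_eq_mul] at h1
  have h3 := qq_diag_nonneg A i
  have h4 : (0 : ℝ) < ((univ.erase i).card : ℝ) := by
    have : j ∈ univ.erase i := mem_erase.mpr ⟨hij, mem_univ _⟩
    exact_mod_cast card_pos.mpr ⟨j, this⟩
  nlinarith

/-- The variance. -/
theorem var_le (A S : Finset (Fin n)) :
    ∑ π : Equiv.Perm (Fin n), (∑ i ∈ S, xx A π i) ^ 2 ≤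
      S.card * (Fintype.card (Equiv.Perm (Fin n)) * ((A.card : ℝ) / n)) := by
  have e : ∑ π : Equiv.Perm (Fin n), (∑ i ∈ S, xx A π i) ^ 2 = ∑ i ∈ S, ∑ j ∈ S, qq A i j := by
    have : ∀ π : Equiv.Perm (Fin n), (∑ i ∈ S, xx A π i) ^ 2 =
        ∑ i ∈ S, ∑ j ∈ S, xx A π i * xx A π j := by
      intro π
      rw [sq, sum_mul_sum]
    rw [sum_congr rfl (fun π _ => this π), sum_comm]
    apply sum_congr rfl
    intro i _
    rw [sum_comm]
    rfl
  rw [e]
  calc _ ≤ ∑ i ∈ S, qq A i i := by
        apply sum_le_sum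
        intro i hi
        rw [← add_sum_erase S _ hi]
        have : ∑ k ∈ S.erase i, qq A i k ≤ 0 :=
          sum_nonpos fun k hk => qq_off_le A i k (ne_of_mem_erase hk)
        linarith
    _ ≤ ∑ _i ∈ S, (Fintype.card (Equiv.Perm (Fin n)) * ((A.card : ℝ) / n)) :=
        sum_le_sum fun i _ => qq_diag_le A i
    _ = _ := by simp

theorem card_inter_fs (A : Finset (Fin n)) (π : Equiv.Perm (Fin n)) (m : ℕ) :
    ((A ∩ (fs π m)ᶜ).card : ℝ) =
      ∑ i ∈ univ.filter (fun i : Fin n => m ≤ (i : ℕ)), (if π i ∈ A then (1 : ℝ) else 0) := by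
  rw [← sum_filter, sum_const, nsmul_eq_mul, mul_one, Nat.cast_inj]
  symm
  apply card_bij (fun i _ => π i)
  · intro i hi
    simp only [mem_filter, mem_univ, true_and] at hi
    rw [mem_inter, mem_compl, mem_fs]
    simp only [Equiv.symm_apply_apply]
    exact ⟨hi.2, by omega⟩
  · intro i _ j _ hij
    exact π.injective hij
  · intro v hv
    rw [mem_inter, mem_compl, mem_fs] at hv
    refine ⟨π.symm v, ?_, by simp⟩
    simp only [mem_filter, mem_univ, true_and, Equiv.apply_symm_apply]
    exact ⟨by omega, hv.1⟩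

theorem card_ge (m : ℕ) (hm : m ≤ n) :
    (univ.filter (fun i : Fin n => m ≤ (i : ℕ))).card = n - m := by
  have h1 : (univ.filter (fun i : Fin n => m ≤ (i : ℕ))) =
      (univ.filter (fun i : Fin n => (i : ℕ) < m))ᶜ := by
    ext i
    simp
  rw [h1, card_compl, Fintype.card_fin, Fin.card_filter_val_lt, Nat.min_eq_right hm]

/-- The number of permutations for which `A` is too large outside the first `m` elements. -/
theorem bad_perm (A : Finset (Fin n)) (m l r : ℕ) (hm : m < n) (hl : A.card ≤ l) (hr : n ≤ r * l) :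
    ((univ.filter (fun π : Equiv.Perm (Fin n) =>
      2 * ((l : ℝ) / n) * ((n : ℝ) - m) < ((A ∩ (fs π m)ᶜ).card : ℝ))).card : ℝ) ≤
      Fintype.card (Equiv.Perm (Fin n)) * (r / ((n : ℝ) - m)) := by
  have hn' : (0 : ℝ) < n := by
    have : 0 < n := by omega
    exact_mod_cast this
  have hs : (0 : ℝ) < (n : ℝ) - m := by
    have : (m : ℝ) < n := by exact_mod_cast hm
    linarith
  have hl0 : (0 : ℝ) < l := by
    have : 0 < l := by
      rcases Nat.eq_zero_or_pos l with h | h
      · subst h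
        omega
      · exact h
    exact_mod_cast this
  set S := univ.filter (fun i : Fin n => m ≤ (i : ℕ)) with hS
  have hSc : (S.card : ℝ) = (n : ℝ) - m := by
    rw [hS, card_ge m hm.le, Nat.cast_sub hm.le]
  set c := (l : ℝ) / n * ((n : ℝ) - m) with hc
  have hc0 : 0 < c := by positivity
  have h1 : ((univ.filter (fun π : Equiv.Perm (Fin n) =>
      2 * ((l : ℝ) / n) * ((n : ℝ) - m) < ((A ∩ (fs π m)ᶜ).card : ℝ))).card : ℝ) * c ^ 2 ≤
      ∑ π : Equiv.Perm (Fin n), (∑ i ∈ S, xx A π i) ^ 2 := by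
    rw [← nsmul_eq_mul, ← sum_const]
    calc _ ≤ ∑ π ∈ univ.filter (fun π : Equiv.Perm (Fin n) =>
          2 * ((l : ℝ) / n) * ((n : ℝ) - m) < ((A ∩ (fs π m)ᶜ).card : ℝ)),
            (∑ i ∈ S, xx A π i) ^ 2 := by
          apply sum_le_sum
          intro π hπ
          simp only [mem_filter, mem_univ, true_and] at hπ
          rw [card_inter_fs] at hπ
          have e : ∑ i ∈ S, xx A π i = ∑ i ∈ S, (if π i ∈ A then (1 : ℝ) else 0) -
              ((n : ℝ) - m) * ((A.card : ℝ) / n) := by
            unfold xx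
            rw [sum_sub_distrib, sum_const, nsmul_eq_mul, hSc]
          have h2 : ((n : ℝ) - m) * ((A.card : ℝ) / n) ≤ c := by
            rw [hc, mul_comm]
            apply mul_le_mul_of_nonneg_right _ hs.le
            gcongr
          have h3 : c ≤ ∑ i ∈ S, xx A π i := by
            rw [e]
            have : 2 * ((l : ℝ) / n) * ((n : ℝ) - m) = 2 * c := by rw [hc]; ring
            linarith
          gcongr
      _ ≤ _ := sum_le_sum_of_subset_of_nonneg (filter_subset _ _) fun π _ _ => sq_nonneg _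
  have h2 := h1.trans (var_le A S)
  have h3 : (S.card : ℝ) * (Fintype.card (Equiv.Perm (Fin n)) * ((A.card : ℝ) / n)) ≤
      Fintype.card (Equiv.Perm (Fin n)) * (r / ((n : ℝ) - m)) * c ^ 2 := by
    rw [hSc]
    have h4 : (A.card : ℝ) / n ≤ (l : ℝ) / n := by gcongr
    have h5 : ((n : ℝ) - m) * (Fintype.card (Equiv.Perm (Fin n)) * ((A.card : ℝ) / n)) ≤
        ((n : ℝ) - m) * (Fintype.card (Equiv.Perm (Fin n)) * ((l : ℝ) / n)) := by
      gcongr
    refine h5.trans ?_
    have e : Fintype.card (Equiv.Perm (Fin n)) * ((r : ℝ) / ((n : ℝ) - m)) * c ^ 2 =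
        ((n : ℝ) - m) * (Fintype.card (Equiv.Perm (Fin n)) * ((l : ℝ) / n)) * ((r : ℝ) * l / n) := by
      rw [hc]
      field_simp
    rw [e]
    have h6 : (1 : ℝ) ≤ (r : ℝ) * l / n := by
      rw [le_div_iff₀ hn', one_mul]
      exact_mod_cast hr
    have h7 : 0 ≤ ((n : ℝ) - m) * (Fintype.card (Equiv.Perm (Fin n)) * ((l : ℝ) / n)) := by
      positivity
    nlinarith
  have h4 := h2.trans h3
  exact le_of_mul_le_mul_right h4 (by positivity)

end LINS
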