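import Pool.Agent.Lib.MP_9dcf40_lc.LIN.ModelT
import Pool.Agent.Lib.MP_9dcf40_lc.LIN.Spec
import Pool.Agent.Lib.MP_9dcf40_lc.SR.SpecV

/-!
# Theorem K for an explicit function and the TOTAL length (MP_9dcf40_lc): statements

`MVal (c, y^1, .., y^t)`: the circuit `c` is true on all `y^j`. If `t n ≥ |c|` and all accepted inputs have
accepting walks of length `≤ k (|c| + t n)`, then on average at most `2 k n` tests per block `y^j`.
-/

namespace SRBP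

open Finset

open scoped Classical in
/-- AVB. PROOF. `t ≥ 1` (`j` exists or the sum is empty: `t = 0` is excluded). For each `y` with all `y j ∈ B`:
`#{j : 2 L < T y j} * (2 L + 1) ≤ ∑_j T y j ≤ L t`, so `2 #{j : T y j ≤ 2 L} ≥ t`. Sum over `y ∈ B^t`
(`Fintype.piFinset fun _ => B`), exchange: some `j` has `2 #{y ∈ B^t : T y j ≤ 2 L} ≥ |B|^t`. The map
`(y, u) ↦ update y j u` from `B^t × B` to `B^t` is `|B|` to one, so `∑_{y ∈ B^t} #{u ∈ B : T (update y j u) j ≤ 2 L}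
= |B| #{y : T y j ≤ 2 L} ≥ |B|^(t+1)/2`, so some `y` has at least `|B|/2`. -/
def S_Avb : Prop := ∀ (t L : ℕ) (Y : Type) [Fintype Y] (B : Finset Y) (T : (Fin t → Y) → Fin t → ℕ),
  1 ≤ t → B.Nonempty → (∀ y : Fin t → Y, (∀ j, y j ∈ B) → ∑ j, T y j ≤ L * t) →
  ∃ (j : Fin t) (y : Fin t → Y), (∀ i, y i ∈ B) ∧
    B.card ≤ 2 * (B.filter (fun u => T (Function.update y j u) j ≤ 2 * L)).card

/-- TOT. PROOF. WLOG `k ≥ 1`. `S_TopK` for `4 k`: `ε, N`, hard `c₀` (for `n`); `S_Cir`: a circuit `c` (const) with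
`Val n m c y ↔ fq c₀ y` (as in `TopC.lean`). `B = {y : fq c₀ y}`, `|B| ≥ 2^(n-2)`. For `y ∈ B^t` let `z = (c, y)`:
`MVal` holds, so there is a walk `l_y` of length `≤ k (|CBits| + t n) ≤ 2 k t n`; `T y j` = number of letters of
`l_y` of the form `((inr (j, i)), b)`; `∑_j T y j ≤ l_y.length ≤ (2 k n) t`. `S_Avb` (`L = 2 k n`): `j, y⁰`. `S_Res` with
`σ (inl b) = inl (c b)`, `σ (inr (j', i)) = if j' = j then inr i else inl (y⁰ j' i)`: `P'` over `Fin n`, same number of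
states, sound for `fq c₀`; `A` = the `u ∈ B` in `S_Avb`: the walk `subl σ l` has `T ≤ 4 k n` letters; `E = ∅`, `s = 0`.
`|A| ≥ 2^(n-3) ≥ 2^n exp (- ε n)` for large `n`. -/
def S_Tot : Prop := ∀ k : ℕ, ∃ ε : ℝ, 0 < ε ∧ ∃ N : ℕ, ∀ n ≥ N, ∀ m ≥ 9 * (n + 1) ^ 4, ∀ t : ℕ,
  Fintype.card (CBits n m) ≤ t * n → ∀ P : NBP (CBits n m ⊕ Fin t × Fin n),
  (∀ z, Accepts P z → MVal n m t z) →
  (∀ z, MVal n m t z → ∃ v l, P.acc v ∧ Walk P P.start l v ∧ Consistent z l ∧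
    l.length ≤ k * Fintype.card (CBits n m ⊕ Fin t × Fin n)) →
  Real.exp (ε * n) ≤ Fintype.card P.V

end SRBP
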